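import Pool.Agent.RNG.Wr

/-!
# RNG.Bs: basic facts

`b = toU D.a` has `A = 1`, `UNL.de b d = UNI.xx D.a d` (`de_toU`), `UNL.tau b = UNI.om D.a` (`tau_toU`).
-/

open RNK

namespace RNG

noncomputable section

variable {D : RNP.OD}

/-! ### coordinates -/

private theorem bs_om_im (a : UNI.Par) : 0 < (UNI.om a).im := by
  have h1 := UNL.tau_im_pos (toU a)
  rwa [tau_toU] at h1

private theorem bs_xx_im (a : UNI.Par) (m : ℤ × ℤ) : (UNI.xx a m).im = m.2 * (UNI.om a).im := by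
  simp [UNI.xx]

private theorem bs_xx_re (a : UNI.Par) (m : ℤ × ℤ) :
    (UNI.xx a m).re = m.1 + m.2 * (UNI.om a).re := by
  simp [UNI.xx]

private theorem bs_xx0 (a : UNI.Par) {m : ℤ × ℤ} (h : UNI.xx a m = 0) : m = 0 := by
  have h1 := bs_om_im a
  have h2 := bs_xx_im a m
  have h3 := bs_xx_re a m
  rw [h, Complex.zero_im] at h2
  rw [h, Complex.zero_re] at h3
  have h4 : (m.2 : ℝ) = 0 := (mul_eq_zero.1 h2.symm).resolve_right h1.ne'
  rw [h4, zero_mul, add_zero] at h3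
  have h5 : m.2 = 0 := by exact_mod_cast h4
  have h6 : m.1 = 0 := by exact_mod_cast h3.symm
  exact Prod.ext h6 h5

private theorem bs_xx_inj (a : UNI.Par) {m n : ℤ × ℤ} (h : UNI.xx a m = UNI.xx a n) : m = n := by
  have h1 : UNI.xx a (m + -n) = 0 := by
    rw [xx_add, xx_neg, h, add_neg_cancel]
  have h2 := bs_xx0 a h1
  rwa [← sub_eq_add_neg, sub_eq_zero] at h2

private theorem cod_unique {x : D.O} {m : ℤ × ℤ} (h : (x : ℂ) = UNI.xx D.a m) : cod D x = m := by
  apply bs_xx_inj D.a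
  rw [xx_cod, h]

theorem cod_el (m : ℤ × ℤ) : cod D (el D m) = m := cod_unique rfl

/-- coordinates as an equivalence -/
def elE (D : RNP.OD) : ℤ × ℤ ≃ D.O where
  toFun := el D
  invFun := cod D
  left_inv := cod_el
  right_inv := el_cod D

theorem el_add (m n : ℤ × ℤ) : el D (m + n) = el D m + el D n :=
  Subtype.ext (xx_add D.a m n)

theorem el_zero : el D 0 = 0 :=
  Subtype.ext (by simp [el, UNI.xx])

private theorem cod_mul (x y : D.O) : cod D (x * y) = mulc D.a (cod D x) (cod D y) :=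
  cod_unique (by rw [xx_mul, xx_cod, xx_cod]; rfl)

private theorem cod_add (x y : D.O) : cod D (x + y) = cod D x + cod D y :=
  cod_unique (by rw [xx_add, xx_cod, xx_cod]; rfl)

private theorem cod_one : cod D (1 : D.O) = (1, 0) :=
  cod_unique (by simp [UNI.xx])

private theorem cod_zero : cod D (0 : D.O) = 0 :=
  cod_unique (by simp [UNI.xx])

private theorem cod_neg (x : D.O) : cod D (-x) = -cod D x :=
  cod_unique (by rw [xx_neg, xx_cod]; rfl)

private theorem cod_nat (n : ℕ) : cod D (n : D.O) = ((n : ℤ), 0) :=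
  cod_unique (by simp [UNI.xx])

theorem nn_mul (x y : D.O) : nn D (x * y) = nn D x * nn D y := by
  have h1 := nn_mul_cj D x
  have h2 := nn_mul_cj D y
  have h3 := nn_mul_cj D (x * y)
  have h4 : ((nn D (x * y) : ℕ) : ℂ) = ((nn D x * nn D y : ℕ) : ℂ) := by
    rw [← h3, Nat.cast_mul, ← h1, ← h2, Subring.coe_mul, map_mul]
    ring
  exact_mod_cast h4

theorem nn_eq_zero {x : D.O} : nn D x = 0 ↔ x = 0 := by
  have h := nn_real D x
  constructor
  · intro h0
    rw [h0, Nat.cast_zero] at h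
    have h1 : ‖(x : ℂ)‖ = 0 := by
      have := pow_eq_zero_iff (n := 2) two_ne_zero |>.1 h.symm
      exact this
    exact Subtype.ext (norm_eq_zero.1 h1)
  · rintro rfl
    have h1 : ((nn D (0 : D.O) : ℕ) : ℝ) = 0 := by
      rw [h]
      simp
    exact_mod_cast h1

theorem nn_eq_one {x : D.O} : nn D x = 1 ↔ IsUnit x := by
  constructor
  · intro h
    have h1 := nn_mul_cj D x
    rw [h, Nat.cast_one] at h1
    exact IsUnit.of_mul_eq_one (⟨(starRingEnd ℂ) (x : ℂ), cj_Ord x.2⟩ : D.O) (Subtype.ext h1)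
  · intro h
    obtain ⟨y, hy⟩ := h.exists_right_inv
    have h1 : nn D x * nn D y = 1 := by
      rw [← nn_mul, hy]
      have h2 : ((nn D (1 : D.O) : ℕ) : ℝ) = 1 := by
        rw [nn_real]
        simp
      exact_mod_cast h2
    exact Nat.eq_one_of_mul_eq_one_right h1

theorem nn_fin (M : ℕ) : {x : D.O | nn D x ≤ M}.Finite := by
  have him := bs_om_im D.a
  obtain ⟨B, hB⟩ := exists_nat_gt (Real.sqrt M / (UNI.om D.a).im)
  obtain ⟨B', hB'⟩ := exists_nat_gt (Real.sqrt M + B * |(UNI.om D.a).re|)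
  have hfin : (Set.Icc (-(B' : ℤ)) B' ×ˢ Set.Icc (-(B : ℤ)) B).Finite :=
    (Set.finite_Icc _ _).prod (Set.finite_Icc _ _)
  refine (hfin.image (el D)).subset ?_
  intro x hx
  have hx' : nn D x ≤ M := hx
  have h1 : ‖(x : ℂ)‖ ≤ Real.sqrt M := by
    apply Real.le_sqrt_of_sq_le
    rw [← nn_real]
    exact_mod_cast hx'
  refine ⟨cod D x, ?_, el_cod D x⟩
  have h2 : |((cod D x).2 : ℝ)| * (UNI.om D.a).im ≤ Real.sqrt M := by
    have h3 := Complex.abs_im_le_norm (x : ℂ)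
    rw [← xx_cod, bs_xx_im, abs_mul, abs_of_pos him, xx_cod] at h3
    exact h3.trans h1
  have h4 : |((cod D x).2 : ℝ)| ≤ B := by
    have h5 : |((cod D x).2 : ℝ)| ≤ Real.sqrt M / (UNI.om D.a).im := by
      rw [le_div_iff₀ him]
      exact h2
    exact h5.trans hB.le
  have h6 : |((cod D x).1 : ℝ)| ≤ B' := by
    have h7 := Complex.abs_re_le_norm (x : ℂ)
    rw [← xx_cod, bs_xx_re, xx_cod] at h7
    have h8 : |((cod D x).1 : ℝ)| ≤
        |((cod D x).1 : ℝ) + (cod D x).2 * (UNI.om D.a).re| +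
          |((cod D x).2 : ℝ)| * |(UNI.om D.a).re| := by
      have h9 : ((cod D x).1 : ℝ) = (((cod D x).1 : ℝ) + (cod D x).2 * (UNI.om D.a).re) -
        (cod D x).2 * (UNI.om D.a).re := by ring
      have h10 := abs_sub (((cod D x).1 : ℝ) + (cod D x).2 * (UNI.om D.a).re)
        ((cod D x).2 * (UNI.om D.a).re)
      rw [← h9, abs_mul] at h10
      exact h10
    have h11 : |((cod D x).2 : ℝ)| * |(UNI.om D.a).re| ≤ B * |(UNI.om D.a).re| :=
      mul_le_mul_of_nonneg_right h4 (abs_nonneg _)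
    linarith
  rw [Set.mem_prod, Set.mem_Icc, Set.mem_Icc]
  have h12 : |(cod D x).1| ≤ (B' : ℤ) := by exact_mod_cast h6
  have h13 : |(cod D x).2| ≤ (B : ℤ) := by exact_mod_cast h4
  exact ⟨abs_le.1 h12, abs_le.1 h13⟩

instance finU (D : RNP.OD) : Finite D.Oˣ := by
  have h := (nn_fin (D := D) 1).to_subtype
  refine Finite.of_injective (fun u : D.Oˣ => (⟨(u : D.O), ?_⟩ : {x : D.O | nn D x ≤ 1})) ?_
  · exact (nn_eq_one.2 u.isUnit).le
  · intro u v huv
    have := congrArg Subtype.val huv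
    exact Units.ext this

/-! ### the action -/

variable {N : ℕ} [NeZero N]

theorem ac_el (m : ℤ × ℤ) (k : UNL.G N) : ac (el D m) k = UNL.sm (toU D.a) m k := by
  rw [ac, cod_el]

theorem ac_one (k : UNL.G N) : ac (1 : D.O) k = k := by
  rw [ac, cod_one]
  refine Prod.ext ?_ ?_
  · simp [UNL.sm]
  · simp [UNL.sm]

theorem ac_mul (x y : D.O) (k : UNL.G N) : ac (x * y) k = ac x (ac y k) := by
  rw [ac, ac, ac, cod_mul]
  refine Prod.ext ?_ ?_
  · simp only [UNL.sm, mulc, toU]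
    push_cast
    ring
  · simp only [UNL.sm, mulc, toU]
    push_cast
    ring

theorem ac_add (x y : D.O) (k : UNL.G N) : ac (x + y) k = ac x k + ac y k := by
  rw [ac, ac, ac, cod_add]
  refine Prod.ext ?_ ?_
  · simp only [UNL.sm, Prod.fst_add, Prod.snd_add]
    push_cast
    ring
  · simp only [UNL.sm, Prod.fst_add, Prod.snd_add]
    push_cast
    ring

theorem ac_addk (x : D.O) (k l : UNL.G N) : ac x (k + l) = ac x k + ac x l := by
  rw [ac, ac, ac]
  refine Prod.ext ?_ ?_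
  · simp only [UNL.sm, Prod.fst_add, Prod.snd_add]
    ring
  · simp only [UNL.sm, Prod.fst_add, Prod.snd_add]
    ring

theorem ac_zero (x : D.O) : ac x (0 : UNL.G N) = 0 := by
  rw [ac]
  refine Prod.ext ?_ ?_ <;> simp [UNL.sm]

theorem ac_neg (x : D.O) (k : UNL.G N) : ac (-x) k = -ac x k := by
  have h := ac_add x (-x) k
  have h0 : ac (0 : D.O) k = 0 := by
    rw [ac, cod_zero]
    refine Prod.ext ?_ ?_ <;> simp [UNL.sm]
  rw [add_neg_cancel, h0] at h
  exact (neg_eq_of_add_eq_zero_right h.symm).symm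

theorem ac_negk (x : D.O) (k : UNL.G N) : ac x (-k) = -ac x k := by
  have h := ac_addk x k (-k)
  rw [add_neg_cancel, ac_zero] at h
  exact (neg_eq_of_add_eq_zero_right h.symm).symm

theorem ac_nat (k : UNL.G N) : ac ((N : D.O)) k = 0 := by
  rw [ac, cod_nat]
  refine Prod.ext ?_ ?_ <;> simp [UNL.sm]

theorem ac_per (x y : D.O) (k : UNL.G N) : ac (x + (N : D.O) * y) k = ac x k := by
  rw [ac_add, ac_mul, ac_nat, add_zero]

/-- congruent coordinates -/
private theorem bs_congr {x y : D.O} (h1 : (((cod D x).1 : ℤ) : ZMod N) = ((cod D y).1 : ℤ))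
    (h2 : (((cod D x).2 : ℤ) : ZMod N) = ((cod D y).2 : ℤ)) :
    ∃ z : D.O, x = y + (N : D.O) * z := by
  have h1' : ((((cod D x).1 - (cod D y).1 : ℤ)) : ZMod N) = 0 := by
    rw [Int.cast_sub, h1, sub_self]
  have h2' : ((((cod D x).2 - (cod D y).2 : ℤ)) : ZMod N) = 0 := by
    rw [Int.cast_sub, h2, sub_self]
  rw [ZMod.intCast_zmod_eq_zero_iff_dvd] at h1' h2'
  obtain ⟨p, hp⟩ := h1'
  obtain ⟨q, hq⟩ := h2'
  refine ⟨el D (p, q), Subtype.ext ?_⟩
  have hx := xx_cod D x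
  have hy := xx_cod D y
  show (x : ℂ) = (y : ℂ) + ((N : D.O) : ℂ) * UNI.xx D.a (p, q)
  rw [← hx, ← hy]
  have e1 : ((cod D x).1 : ℂ) = (cod D y).1 + N * p := by
    have : (cod D x).1 = (cod D y).1 + N * p := by linarith
    rw [this]
    push_cast
    rfl
  have e2 : ((cod D x).2 : ℂ) = (cod D y).2 + N * q := by
    have : (cod D x).2 = (cod D y).2 + N * q := by linarith
    rw [this]
    push_cast
    rfl
  simp only [UNI.xx]
  rw [e1, e2]
  push_cast
  ring

theorem ac_eq {x y : D.O} : (∀ k : UNL.G N, ac x k = ac y k) ↔ ∃ z : D.O, x = y + (N : D.O) * z := by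
  constructor
  · intro h
    have h1 := h (1, 0)
    rw [ac, ac] at h1
    have h2 := congrArg Prod.fst h1
    have h3 := congrArg Prod.snd h1
    simp only [UNL.sm, toU, mul_one, mul_zero, sub_zero, zero_add, add_zero, Int.cast_one] at h2 h3
    exact bs_congr h2 h3
  · rintro ⟨z, rfl⟩ k
    exact ac_per y z k

theorem Cp_iff {x : D.O} : Cp N x ↔ ∃ e z : ℤ × ℤ,
    UNL.de (toU D.a) (cod D x) * UNL.de (toU D.a) e + N * UNL.de (toU D.a) z = 1 := by
  constructor
  · rintro ⟨a, b, h⟩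
    refine ⟨cod D a, cod D b, ?_⟩
    rw [de_toU, de_toU, de_toU, xx_cod, xx_cod, xx_cod]
    have h1 := congrArg (fun y : D.O => (y : ℂ)) h
    simp only [Subring.coe_add, Subring.coe_mul, Subring.coe_one] at h1
    rw [← h1]
    push_cast
    ring
  · rintro ⟨e, z, h⟩
    refine ⟨el D e, el D z, Subtype.ext ?_⟩
    rw [de_toU, de_toU, de_toU, xx_cod] at h
    show UNI.xx D.a e * (x : ℂ) + UNI.xx D.a z * ((N : D.O) : ℂ) = 1
    rw [← h]
    push_cast
    ring

theorem Cp_mul {x y : D.O} : Cp N (x * y) ↔ Cp N x ∧ Cp N y :=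
  IsCoprime.mul_left_iff

theorem Cp_per {x : D.O} (y : D.O) : Cp N (x + (N : D.O) * y) ↔ Cp N x :=
  IsCoprime.add_mul_left_left_iff

theorem Cp_inv {x : D.O} (h : Cp N x) : ∃ y : D.O, Cp N y ∧
    ∀ k : UNL.G N, ac y (ac x k) = k ∧ ac x (ac y k) = k := by
  obtain ⟨a, b, h⟩ := h
  have h1 : a * x = 1 + (N : D.O) * (-b) := by
    rw [← h]
    ring
  refine ⟨a, ⟨x, b, by rw [← h]; ring⟩, fun k => ⟨?_, ?_⟩⟩
  · rw [← ac_mul, h1, ac_per, ac_one]
  · rw [← ac_mul, mul_comm x a, h1, ac_per, ac_one]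

/-! ### classes mod `N` -/

/-- the class of an element of `O` mod `N` -/
def cls (N : ℕ) (x : D.O) : UNL.G N := ((cod D x).1, (cod D x).2)

theorem cls_rp (k : UNL.G N) : cls N (rp D k) = k := by
  rw [cls, rp, cod_el]
  refine Prod.ext ?_ ?_
  · show (((k.1.val : ℤ)) : ZMod N) = k.1
    rw [Int.cast_natCast, ZMod.natCast_zmod_val]
  · show (((k.2.val : ℤ)) : ZMod N) = k.2
    rw [Int.cast_natCast, ZMod.natCast_zmod_val]

theorem cls_eq {x y : D.O} : cls N x = cls N y ↔ ∃ z : D.O, x = y + (N : D.O) * z := by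
  constructor
  · intro h
    exact bs_congr (congrArg Prod.fst h) (congrArg Prod.snd h)
  · rintro ⟨z, rfl⟩
    rw [cls, cls, cod_add, cod_mul, cod_nat]
    refine Prod.ext ?_ ?_
    · simp [mulc]
    · simp [mulc]

theorem rp_cls (x : D.O) : ∃ y : D.O, x = rp D (cls N x) + (N : D.O) * y :=
  cls_eq.1 (cls_rp (cls N x)).symm

theorem tp_rp (k : UNL.G N) : UNL.tp (toU D.a) k = ((rp D k : D.O) : ℂ) / N := by
  show _ = UNI.xx D.a ((k.1.val : ℤ), (k.2.val : ℤ)) / N
  simp only [UNL.tp, UNI.xx, tau_toU]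
  push_cast
  rfl

/-! ### the pairing -/

theorem pss_add (z w : ℂ) : pss D (z + w) = pss D z * pss D w := ps_add _ z w

theorem pss_zero : pss D 0 = 1 := ps_O D.O.zero_mem

theorem pss_norm (z : ℂ) : ‖pss D z‖ = 1 := by
  show ‖Complex.exp (UNL.kap (toU D.a) * (z - (starRingEnd ℂ) z))‖ = 1
  rw [Complex.norm_exp, Complex.re_ofReal_mul]
  simp

theorem pss_O {z : ℂ} (hz : z ∈ D.O) : pss D z = 1 := ps_O hz

private theorem pss_sub {x y : ℂ} (h : x - y ∈ D.O) : pss D x = pss D y := by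
  have e : x = y + (x - y) := by ring
  rw [e, pss_add, pss_O h, mul_one]

/-- `ψ(y tp(x k)) = ψ(y x tp k)` -/
theorem pss_ac (x y : D.O) (k : UNL.G N) :
    pss D ((y : ℂ) * UNL.tp (toU D.a) (ac x k)) = pss D ((y : ℂ) * x * UNL.tp (toU D.a) k) := by
  symm
  apply pss_sub
  have h := tp_sm (D := D) (cod D x) k
  rw [de_toU, xx_cod] at h
  have e : (y : ℂ) * x * UNL.tp (toU D.a) k - (y : ℂ) * UNL.tp (toU D.a) (ac x k) =
      (y : ℂ) * ((x : ℂ) * UNL.tp (toU D.a) k - UNL.tp (toU D.a) (UNL.sm (toU D.a) (cod D x) k)) := by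
    rw [ac]
    ring
  rw [e]
  exact D.O.mul_mem y.2 h

theorem pss_addk (y : D.O) (k l : UNL.G N) : pss D ((y : ℂ) * UNL.tp (toU D.a) (k + l)) =
    pss D ((y : ℂ) * UNL.tp (toU D.a) k) * pss D ((y : ℂ) * UNL.tp (toU D.a) l) := by
  rw [← pss_add]
  symm
  apply pss_sub
  have h := tp_add (D := D) k l
  have e : (y : ℂ) * UNL.tp (toU D.a) k + (y : ℂ) * UNL.tp (toU D.a) l -
      (y : ℂ) * UNL.tp (toU D.a) (k + l) = (y : ℂ) * (UNL.tp (toU D.a) k +
        UNL.tp (toU D.a) l - UNL.tp (toU D.a) (k + l)) := by ring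
  rw [e]
  exact D.O.mul_mem y.2 h

open Classical in
theorem orth (x : D.O) : ∑ k : UNL.G N, pss D ((x : ℂ) * UNL.tp (toU D.a) k) =
    if ∃ y : D.O, x = (N : D.O) * y then (N : ℂ) ^ 2 else 0 := by
  by_cases h : ∃ y : D.O, x = (N : D.O) * y
  · rw [if_pos h]
    obtain ⟨y, rfl⟩ := h
    have h1 : ∀ k : UNL.G N, pss D ((((N : D.O) * y : D.O) : ℂ) * UNL.tp (toU D.a) k) = 1 := by
      intro k
      apply pss_O
      have e : (((N : D.O) * y : D.O) : ℂ) * UNL.tp (toU D.a) k =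
          (y : ℂ) * ((N : ℂ) * UNL.tp (toU D.a) k) := by
        push_cast
        ring
      rw [e]
      exact D.O.mul_mem y.2 (tp_N k)
    rw [Finset.sum_congr rfl fun k _ => h1 k, Finset.sum_const, Finset.card_univ,
      Fintype.card_prod, ZMod.card, nsmul_eq_mul, mul_one]
    push_cast
    ring
  · rw [if_neg h]
    have h1 : ∃ l : UNL.G N, pss D ((x : ℂ) * UNL.tp (toU D.a) l) ≠ 1 := by
      by_contra hcon
      push Not at hcon
      obtain ⟨y, hy, e⟩ := ps_perfect (D := D) (N := N) x.2 hcon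
      apply h
      refine ⟨⟨y, hy⟩, Subtype.ext ?_⟩
      rw [e]
      push_cast
      rfl
    obtain ⟨l, hl⟩ := h1
    have h2 : ∑ k : UNL.G N, pss D ((x : ℂ) * UNL.tp (toU D.a) k) =
        (∑ k : UNL.G N, pss D ((x : ℂ) * UNL.tp (toU D.a) k)) *
          pss D ((x : ℂ) * UNL.tp (toU D.a) l) := by
      rw [Finset.sum_mul, ← Equiv.sum_comp (Equiv.addRight l)]
      refine Finset.sum_congr rfl fun k _ => ?_
      exact pss_addk x k l
    have h3 : (∑ k : UNL.G N, pss D ((x : ℂ) * UNL.tp (toU D.a) k)) *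
        (pss D ((x : ℂ) * UNL.tp (toU D.a) l) - 1) = 0 := by
      rw [mul_sub, ← h2, mul_one, sub_self]
    exact (mul_eq_zero.1 h3).resolve_right (sub_ne_zero.2 hl)

theorem orthk (k : UNL.G N) : ∑ r : UNL.G N, pss D ((rp D r : ℂ) * UNL.tp (toU D.a) k) =
    if k = 0 then (N : ℂ) ^ 2 else 0 := by
  classical
  have h1 : ∀ r : UNL.G N, pss D ((rp D r : ℂ) * UNL.tp (toU D.a) k) =
      pss D ((rp D k : ℂ) * UNL.tp (toU D.a) r) := by
    intro r
    rw [tp_rp, tp_rp]
    congr 1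
    ring
  rw [Finset.sum_congr rfl fun r _ => h1 r, orth]
  have h2 : (∃ y : D.O, rp D k = (N : D.O) * y) ↔ k = 0 := by
    constructor
    · rintro ⟨y, hy⟩
      have h3 : cls N (rp D k) = cls N (0 : D.O) := cls_eq.2 ⟨y, by rw [hy, zero_add]⟩
      rw [cls_rp] at h3
      rw [h3, cls, cod_zero]
      refine Prod.ext ?_ ?_ <;> simp
    · rintro rfl
      refine ⟨0, ?_⟩
      rw [mul_zero, rp]
      simp only [Prod.fst_zero, Prod.snd_zero, ZMod.val_zero, Nat.cast_zero]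
      exact el_zero
  by_cases hk : k = 0
  · rw [if_pos hk, if_pos (h2.2 hk)]
  · rw [if_neg hk, if_neg fun h => hk (h2.1 h)]

/-! ### the Klein function -/

end

end RNG
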