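import Pool.Agent.RNG.Cg
import Pool.Agent.RNG.Bs
import Pool.Agent.RNE.Hi

/-!
# RNG.Bpg: the base property and the primes, any class number (stub; prove ALL sorries)

* `bp_mul`: let `N > 0`. For each prime ideal `p ∣ N` some power `p^k = (c_p)`, `k > 0` (`pow_pr`). Let `N'` be a multiple of `N` and of
  all natural numbers `c_p c̄_p`; so `c_p ∣ N'`. `C` is the set of all non units of `O` that divide `N'` (finite: `nn c ∣ nn N'`, `nn_fin`;
  a finset of complex numbers) - but for the base property one needs more: replace `N'` by a multiple such that for every `y ∈ O`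
  not divisible by any `c ∈ C`, `(y)` divides `N'` up to an ideal prime to `N'`. For this: the prime ideals dividing `N'` may be more
  than those dividing `N`; choose `h > 0` with `p^h` principal for ALL primes `p` (`h` = the number of classes, or a common
  multiple of the exponents for the finitely many classes) and `N'` = a multiple of `N` with: for every prime `p ∣ N'`:
  `p^h ∣ N'`, e.g. `N' = N^h`: if `p ∣ N` then `p^h ∣ N^h`, `p^h = (c_p)`, `c_p ∈ C`. If no `c ∈ C` divides `y` then `v_p(y) < h ≤ v_p(N')` for all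
  `p ∣ N'`, so `(y) = 𝔞 𝔟`, `𝔞 ∣ N'`, `𝔟` prime to `N'`. Then `N' ∈ (y) + (N'²)`: `v_p(y) ≤ v_p(N')` for `p ∣ N'`, and no other primes divide
  `N'²`. So `y z = N' + N'² v`.
* `pd_inf`: inert primes: `RNE.inert'` (with `m = 1`) gives primes `c > P0` such that `c ∣ nm x` implies `c ∣ x`. The quotient `O / c O`
  is a field with `c²` elements (a finite ring without zero divisors: `nn (x y) = nn x nn y`, `c` prime), `w = c`, `r z` = the class of
  `z` if `z ∈ O`, `0` otherwise. `PD.F` has to be of type `Type`.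
-/

open RNK

namespace RNG

noncomputable section

variable {D : RNP.OD}

open UniqueFactorizationMonoid in
private theorem dvd_of_pp {R : Type*} [CommRing R] [IsDedekindDomain R] {I J : Ideal R}
    (hI : I ≠ ⊥) (hJ : J ≠ ⊥)
    (h : ∀ p : Ideal R, Prime p → ∀ k : ℕ, p ^ k ∣ I → p ^ k ∣ J) : I ∣ J := by
  classical
  rw [dvd_iff_normalizedFactors_le_normalizedFactors hI hJ, Multiset.le_iff_count]
  intro p
  by_cases hp : p ∈ normalizedFactors I
  · have hpp : Prime p := prime_of_normalized_factor p hp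
    have hn : normalize p = p := normalize_normalized_factor p hp
    have h1 := emultiplicity_eq_count_normalizedFactors hpp.irreducible hI
    have h2 := emultiplicity_eq_count_normalizedFactors hpp.irreducible hJ
    rw [hn] at h1 h2
    have h3 : p ^ (Multiset.count p (normalizedFactors I)) ∣ I := by
      apply pow_dvd_of_le_emultiplicity
      rw [h1]
    have h4 := le_emultiplicity_of_pow_dvd (h p hpp _ h3)
    rw [h2] at h4
    exact_mod_cast h4
  · rw [Multiset.count_eq_zero_of_notMem hp]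
    exact Nat.zero_le _

private theorem nn_nat (n : ℕ) : nn D (n : D.O) = n ^ 2 := by
  have h := nn_mul_cj D (n : D.O)
  have h1 : ((nn D (n : D.O) : ℕ) : ℂ) = ((n ^ 2 : ℕ) : ℂ) := by
    rw [← h]
    push_cast
    simp only [Complex.conj_natCast]
    ring
  exact_mod_cast h1

/-- a common exponent -/
private theorem exp_ex [IsDedekindDomain D.O] (s : Finset (Ideal D.O)) (hs : ∀ p ∈ s, p ≠ ⊥) :
    ∃ h : ℕ, 0 < h ∧ ∀ p ∈ s, ∃ x : D.O, p ^ h = Ideal.span {x} := by
  classical
  induction s using Finset.induction with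
  | empty => exact ⟨1, one_pos, fun p hp => absurd hp (Finset.notMem_empty p)⟩
  | insert q s hq ih =>
    obtain ⟨h, hh, hp⟩ := ih fun p hp => hs p (Finset.mem_insert_of_mem hp)
    obtain ⟨k, hk, x, -, hx⟩ := pow_pr (D := D) (hs q (Finset.mem_insert_self q s))
    refine ⟨h * k, Nat.mul_pos hh hk, fun p hps => ?_⟩
    rcases Finset.mem_insert.1 hps with rfl | hps
    · refine ⟨x ^ h, ?_⟩
      rw [mul_comm, pow_mul, hx, Ideal.span_singleton_pow]
    · obtain ⟨y, hy⟩ := hp p hps
      refine ⟨y ^ k, ?_⟩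
      rw [pow_mul, hy, Ideal.span_singleton_pow]

theorem bp_mul [IsDedekindDomain D.O] {N : ℕ} (hN : 0 < N) :
    ∃ N' : ℕ, N ∣ N' ∧ 0 < N' ∧ ∃ C : Finset ℂ, RNP.Bp D N' C := by
  classical
  have hN0 : (N : D.O) ≠ 0 := by
    intro h0
    have h1 := congrArg (nn D) h0
    rw [nn_nat, nn_eq_zero.2 rfl] at h1
    exact hN.ne' (pow_eq_zero_iff two_ne_zero |>.1 h1)
  have hsN : Ideal.span {(N : D.O)} ≠ ⊥ := by
    rw [Ne, Ideal.span_singleton_eq_bot]
    exact hN0
  obtain ⟨h, hh, hph⟩ := exp_ex (D := D)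
    (UniqueFactorizationMonoid.normalizedFactors (Ideal.span {(N : D.O)})).toFinset
    (fun p hp => (UniqueFactorizationMonoid.prime_of_normalized_factor p
      (Multiset.mem_toFinset.1 hp)).ne_zero)
  have hfac : ∀ p : Ideal D.O, Prime p → p ∣ Ideal.span {(N : D.O)} →
      ∃ x : D.O, p ^ h = Ideal.span {x} := by
    intro p hp hd
    refine hph p (Multiset.mem_toFinset.2 ?_)
    obtain ⟨q, hq, hpq⟩ := UniqueFactorizationMonoid.exists_mem_normalizedFactors_of_dvd hsN
      hp.irreducible hd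
    rw [associated_iff_eq] at hpq
    rw [hpq]
    exact hq
  set N' : ℕ := N ^ h with hN'
  have hN'0 : 0 < N' := Nat.pow_pos hN
  have hN'O : (N' : D.O) ≠ 0 := by
    rw [hN', Nat.cast_pow]
    exact pow_ne_zero _ hN0
  have hspN' : Ideal.span {(N' : D.O)} = Ideal.span {(N : D.O)} ^ h := by
    rw [hN', Nat.cast_pow, Ideal.span_singleton_pow]
  have hfin : {c : ℂ | c ∈ D.O ∧ (∃ z ∈ D.O, (N' : ℂ) = c * z) ∧ ¬ ∃ y ∈ D.O, c * y = 1}.Finite := by
    refine ((nn_fin (D := D) (nn D (N' : D.O))).image (fun x : D.O => (x : ℂ))).subset ?_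
    rintro c ⟨hc, ⟨z, hz, e⟩, -⟩
    refine ⟨⟨c, hc⟩, ?_, rfl⟩
    have e1 : (N' : D.O) = (⟨c, hc⟩ : D.O) * ⟨z, hz⟩ := Subtype.ext (by simpa using e)
    have e2 : nn D (N' : D.O) = nn D (⟨c, hc⟩ : D.O) * nn D (⟨z, hz⟩ : D.O) := by
      rw [← nn_mul, ← e1]
    have e3 : 0 < nn D (N' : D.O) := Nat.pos_of_ne_zero fun h0 => hN'O (nn_eq_zero.1 h0)
    have e4 : 0 < nn D (⟨z, hz⟩ : D.O) := by
      rw [e2] at e3
      exact Nat.pos_of_mul_pos_left e3
    show nn D (⟨c, hc⟩ : D.O) ≤ nn D (N' : D.O)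
    rw [e2]
    exact Nat.le_mul_of_pos_right _ e4
  refine ⟨N', dvd_pow_self N hh.ne', hN'0, hfin.toFinset, ⟨hN'0, ?_, ?_⟩⟩
  · intro c hc
    exact (Set.Finite.mem_toFinset hfin).1 hc
  · intro y hy hyc
    set y' : D.O := ⟨y, hy⟩ with hy'
    -- the ideal (y) + (N'^2) divides (N')
    have hsq : (N' : D.O) ^ 2 ≠ 0 := pow_ne_zero _ hN'O
    set I : Ideal D.O := Ideal.span {y'} ⊔ Ideal.span {(N' : D.O) ^ 2} with hI
    have hI0 : I ≠ ⊥ := by
      intro h0
      have h1 : (N' : D.O) ^ 2 ∈ I := Ideal.mem_sup_right (Ideal.mem_span_singleton_self _)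
      rw [h0, Ideal.mem_bot] at h1
      exact hsq h1
    have hJ0 : Ideal.span {(N' : D.O)} ≠ ⊥ := by
      rw [Ne, Ideal.span_singleton_eq_bot]
      exact hN'O
    have hdvd : I ∣ Ideal.span {(N' : D.O)} := by
      refine dvd_of_pp hI0 hJ0 fun p hp k hk => ?_
      rcases Nat.eq_zero_or_pos k with rfl | hk0
      · rw [pow_zero]; exact one_dvd _
      have hpI : p ∣ I := (dvd_pow_self p hk0.ne').trans hk
      have h1 : I ∣ Ideal.span {(N' : D.O) ^ 2} := Ideal.dvd_iff_le.2 le_sup_right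
      have h2 : p ∣ Ideal.span {(N : D.O)} := by
        have h3 := hpI.trans h1
        rw [← Ideal.span_singleton_pow, hspN'] at h3
        exact hp.dvd_of_dvd_pow (hp.dvd_of_dvd_pow h3)
      obtain ⟨x, hx⟩ := hfac p hp h2
      have h4 : p ^ h ∣ Ideal.span {(N' : D.O)} := by
        rw [hspN']
        exact pow_dvd_pow_of_dvd h2 h
      have hkh : k ≤ h := by
        by_contra hcon
        have h5 : p ^ h ∣ I := (pow_dvd_pow p (not_le.1 hcon).le).trans hk
        have h6 : Ideal.span {x} ∣ Ideal.span {y'} := by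
          rw [← hx]
          exact h5.trans (Ideal.dvd_iff_le.2 le_sup_left)
        rw [hx] at h4
        have h7 : x ∣ y' := Ideal.span_singleton_le_span_singleton.1 (Ideal.dvd_iff_le.1 h6)
        have h8 : x ∣ (N' : D.O) := Ideal.span_singleton_le_span_singleton.1 (Ideal.dvd_iff_le.1 h4)
        obtain ⟨z, hz⟩ := h7
        obtain ⟨z', hz'⟩ := h8
        refine hyc (x : ℂ) ?_ ⟨(z : ℂ), z.2, by rw [← Subring.coe_mul, ← hz]⟩
        rw [Set.Finite.mem_toFinset]
        refine ⟨x.2, ⟨(z' : ℂ), z'.2, ?_⟩, ?_⟩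
        · rw [← Subring.coe_mul, ← hz']
          simp
        · rintro ⟨w, hw, ew⟩
          have h9 : x * ⟨w, hw⟩ = 1 := Subtype.ext ew
          have h10 : Ideal.span {x} = ⊤ := Ideal.span_singleton_eq_top.2 (IsUnit.of_mul_eq_one _ h9)
          rw [h10, ← Ideal.one_eq_top] at hx
          have h11 : IsUnit (p ^ h) := by rw [hx]; exact isUnit_one
          exact hp.not_isUnit ((isUnit_pow_iff hh.ne').1 h11)
      exact (pow_dvd_pow p hkh).trans h4
    have hmem : (N' : D.O) ∈ I := (Ideal.dvd_iff_le.1 hdvd) (Ideal.mem_span_singleton_self _)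
    rw [hI, Submodule.mem_sup] at hmem
    obtain ⟨a, ha, b, hb, hab⟩ := hmem
    obtain ⟨z, rfl⟩ := Ideal.mem_span_singleton'.1 ha
    obtain ⟨v, rfl⟩ := Ideal.mem_span_singleton'.1 hb
    refine ⟨(z : ℂ), z.2, ((-v : D.O) : ℂ), (-v).2, ?_⟩
    have h12 := congrArg (fun t : D.O => (t : ℂ)) hab
    simp only [Subring.coe_add, Subring.coe_mul, Subring.coe_pow, hy', Subring.coe_natCast] at h12
    rw [Subring.coe_neg]
    linear_combination h12

theorem pd_inf (D : RNP.OD) (P0 : ℕ) : ∃ π : RNP.PD D, P0 < π.p := by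
  classical
  obtain ⟨c, hc, hP, -, hin⟩ := RNE.inert' D.a 1 P0 one_pos
  have : NeZero c := ⟨hc.ne_zero⟩
  set J : Ideal D.O := Ideal.span {(c : D.O)} with hJ
  -- coordinates
  have hcod : ∀ x : D.O, x ∈ J ↔ (c : ℤ) ∣ (cod D x).1 ∧ (c : ℤ) ∣ (cod D x).2 := by
    intro x
    rw [hJ, Ideal.mem_span_singleton']
    constructor
    · rintro ⟨y, rfl⟩
      have h1 : y * (c : D.O) = el D (((cod D y).1 * c, (cod D y).2 * c)) := by
        apply Subtype.ext
        rw [Subring.coe_mul, ← xx_cod D y]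
        simp only [UNI.xx, el, Subring.coe_natCast]
        push_cast
        ring
      rw [h1, cod_el]
      exact ⟨Dvd.intro_left _ rfl, Dvd.intro_left _ rfl⟩
    · rintro ⟨⟨a, ha⟩, ⟨b, hb⟩⟩
      refine ⟨el D (a, b), ?_⟩
      apply Subtype.ext
      rw [Subring.coe_mul, ← xx_cod D x]
      simp only [UNI.xx, el, Subring.coe_natCast, ha, hb]
      push_cast
      ring
  have hnm : ∀ x : D.O, ((nn D x : ℕ) : ℤ) = UNI.nm D.a (cod D x) := by
    intro x
    have h1 := nn_mul_cj D x
    have h2 : (x : ℂ) * (starRingEnd ℂ) (x : ℂ) = ((UNI.nm D.a (cod D x) : ℤ) : ℂ) := by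
      rw [← xx_cod D x]
      simp only [UNI.xx, UNI.nm, map_add, map_mul, map_intCast, cj_om]
      push_cast
      linear_combination (-((cod D x).2 : ℂ) ^ 2) * om_sq D.a
    rw [h1] at h2
    exact_mod_cast h2
  have hprime : J.IsPrime := by
    rw [Ideal.isPrime_iff]
    constructor
    · intro h0
      have h1 : (1 : D.O) ∈ J := by rw [h0]; exact Submodule.mem_top
      have h2 := (hcod 1).1 h1
      have h3 : cod D (1 : D.O) = (1, 0) := by
        have : (1 : D.O) = el D (1, 0) := Subtype.ext (by simp [el, UNI.xx])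
        rw [this, cod_el]
      rw [h3] at h2
      have h5 : (c : ℤ) ∣ 1 := h2.1
      have h4 : c ∣ 1 := by exact_mod_cast h5
      exact hc.one_lt.ne' (Nat.dvd_one.1 h4)
    · intro x y hxy
      rw [hJ, Ideal.mem_span_singleton'] at hxy
      obtain ⟨z, hz⟩ := hxy
      have h1 : nn D z * c ^ 2 = nn D x * nn D y := by
        rw [← nn_mul, ← hz, nn_mul, nn_nat]
      have h2 : c ∣ nn D x * nn D y := by
        rw [← h1]
        exact Dvd.dvd.mul_left (dvd_pow_self c two_ne_zero) _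
      have h3 : ∀ t : D.O, c ∣ nn D t → t ∈ J := by
        intro t ht
        rw [hcod]
        refine hin _ ?_
        rw [← hnm]
        exact_mod_cast ht
      rcases (Nat.Prime.dvd_mul hc).1 h2 with h4 | h4
      · exact Or.inl (h3 x h4)
      · exact Or.inr (h3 y h4)
  -- the quotient
  have heq : ∀ x y : D.O, Ideal.Quotient.mk J x = Ideal.Quotient.mk J y ↔
      (((cod D x).1 : ZMod c) = ((cod D y).1 : ZMod c) ∧
        ((cod D x).2 : ZMod c) = ((cod D y).2 : ZMod c)) := by
    intro x y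
    rw [Ideal.Quotient.eq, hcod]
    have h1 : cod D (x - y) = cod D x - cod D y := by
      have : x - y = el D (cod D x - cod D y) := by
        apply Subtype.ext
        rw [AddSubgroupClass.coe_sub, ← xx_cod D x, ← xx_cod D y]
        simp only [UNI.xx, el, Prod.fst_sub, Prod.snd_sub]
        push_cast
        ring
      rw [this, cod_el]
    rw [h1, Prod.fst_sub, Prod.snd_sub, ← ZMod.intCast_zmod_eq_zero_iff_dvd,
      ← ZMod.intCast_zmod_eq_zero_iff_dvd]
    push_cast
    rw [sub_eq_zero, sub_eq_zero]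
  let φ : (D.O ⧸ J) → ZMod c × ZMod c := fun q =>
    (((cod D (Quotient.out q)).1 : ZMod c), ((cod D (Quotient.out q)).2 : ZMod c))
  have hout : ∀ q : D.O ⧸ J, Ideal.Quotient.mk J (Quotient.out q) = q := fun q => Quotient.out_eq q
  have hφi : Function.Injective φ := by
    intro q q' h
    have h1 := (heq (Quotient.out q) (Quotient.out q')).2 ⟨congrArg Prod.fst h, congrArg Prod.snd h⟩
    rwa [hout, hout] at h1
  have hφs : Function.Surjective φ := by
    rintro ⟨a, b⟩
    refine ⟨Ideal.Quotient.mk J (el D ((a.val : ℤ), (b.val : ℤ))), ?_⟩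
    have h1 := (heq (Quotient.out (Ideal.Quotient.mk J (el D ((a.val : ℤ), (b.val : ℤ)))))
      (el D ((a.val : ℤ), (b.val : ℤ)))).1 (hout _)
    rw [cod_el] at h1
    refine Prod.ext (h1.1.trans ?_) (h1.2.trans ?_)
    · simp
    · simp
  have hfinQ : Finite (D.O ⧸ J) := Finite.of_injective φ hφi
  let instFin : Fintype (D.O ⧸ J) := Fintype.ofFinite _
  have hcard : Fintype.card (D.O ⧸ J) = c ^ 2 := by
    rw [Fintype.card_of_bijective ⟨hφi, hφs⟩, Fintype.card_prod, ZMod.card]
    ring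
  have hmax : J.IsMaximal := by
    have hdom : IsDomain (D.O ⧸ J) := (Ideal.Quotient.isDomain_iff_prime J).2 hprime
    exact Ideal.Quotient.maximal_of_isField J (Finite.isField_of_domain _)
  let fld : Field (D.O ⧸ J) := Ideal.Quotient.field J
  refine ⟨⟨D.O ⧸ J, fld, instFin, (c : ℂ), natCast_mem D.O c, ?_, fun z =>
    if hz : z ∈ D.O then Ideal.Quotient.mk J ⟨z, hz⟩ else 0, ?_, ?_, ?_, ?_, ?_⟩, ?_⟩
  · rw [hcard, Complex.conj_natCast]
    push_cast
    ring
  · intro x hx y hy
    rw [dif_pos hx, dif_pos hy, dif_pos (D.O.add_mem hx hy)]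
    exact map_add (Ideal.Quotient.mk J) (⟨x, hx⟩ : D.O) ⟨y, hy⟩
  · intro x hx y hy
    rw [dif_pos hx, dif_pos hy, dif_pos (D.O.mul_mem hx hy)]
    exact map_mul (Ideal.Quotient.mk J) (⟨x, hx⟩ : D.O) ⟨y, hy⟩
  · rw [dif_pos D.O.one_mem]
    exact map_one (Ideal.Quotient.mk J)
  · intro t
    obtain ⟨x, rfl⟩ := Ideal.Quotient.mk_surjective t
    exact ⟨(x : ℂ), x.2, by rw [dif_pos x.2]⟩
  · intro x hx
    rw [dif_pos hx]
    rw [show (Ideal.Quotient.mk J ⟨x, hx⟩ = 0) ↔ (⟨x, hx⟩ : D.O) ∈ J from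
      Ideal.Quotient.eq_zero_iff_mem, hJ, Ideal.mem_span_singleton']
    constructor
    · rintro ⟨y, hy⟩
      refine ⟨(y : ℂ), y.2, ?_⟩
      have h1 := congrArg (fun t : D.O => (t : ℂ)) hy
      simp only [Subring.coe_mul, Subring.coe_natCast] at h1
      rw [← h1, mul_comm]
    · rintro ⟨y, hy, e⟩
      refine ⟨⟨y, hy⟩, Subtype.ext ?_⟩
      rw [Subring.coe_mul, Subring.coe_natCast]
      show y * (c : ℂ) = x
      rw [e, mul_comm]
  · show P0 < Fintype.card (D.O ⧸ J)
    rw [hcard]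
    nlinarith [hc.two_le]

end

end RNG
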