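import Pool.Agent.RNG.Ni

/-!
# RNG.Cg: representatives of the ideal classes

* `pow_pr`, `rp_ex`: the class group is finite: there is a `C` such that every ideal `I ≠ ⊥` contains `x ≠ 0` with
  `nn x ≤ C ni I` (pigeonhole: the elements `a + b ω`, `0 ≤ a, b ≤ √(ni I)`), so `I * I' = (x)` with `ni I' ≤ C`, and
  there are finitely many `I'` (`ni_fin`); `I ~ ci I'`.
* a representative prime to `M`: `ex_gen` for `ci I` and `(M)`: `ci I * I' = (x)`, `I'` prime to `M`, `I' ~ I` (`mul_ci`).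
* `ie_cp`: `span {x} * I = span {y} * J`. Take `z ∈ I` with `z ≡ 1` mod `N` (`ip_one`), `I * I' = (z)` (`ex_quo`). Then
  `y` divides `x z` (`span {x z} = span {x} * I * I' = span {y} * J * I'`): `x z = y x'`, `J * I' = span {x'}`, prime to `N`, and
  `span {z} * J = I * I' * J = span {x'} * I`.
* `class_sum`: the map `(I, x) ↦ b`, `I * b = (x)`, from the pairs `I ∈ S`, `0 ≠ x ∈ I`, is onto the nonzero ideals, and
  every fibre has `wn D` elements (`x` up to units; `I` is determined by the class of `b`).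
-/

open RNK

namespace RNG

noncomputable section

variable {D : RNP.OD} [IsDedekindDomain D.O]

omit [IsDedekindDomain D.O] in
theorem ie_refl (I : Ideal D.O) : Ie I I :=
  ⟨1, 1, one_ne_zero, one_ne_zero, rfl⟩

omit [IsDedekindDomain D.O] in
theorem ie_symm {I J : Ideal D.O} (h : Ie I J) : Ie J I := by
  obtain ⟨x, y, hx, hy, h⟩ := h
  exact ⟨y, x, hy, hx, h.symm⟩

omit [IsDedekindDomain D.O] in
theorem ie_trans {I J L : Ideal D.O} (h : Ie I J) (h' : Ie J L) : Ie I L := by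
  obtain ⟨x, y, hx, hy, h⟩ := h
  obtain ⟨x', y', hx', hy', h'⟩ := h'
  refine ⟨x' * x, y * y', mul_ne_zero hx' hx, mul_ne_zero hy hy', ?_⟩
  rw [← Ideal.span_singleton_mul_span_singleton, ← Ideal.span_singleton_mul_span_singleton,
    mul_assoc, h, mul_assoc, ← h', ← mul_assoc, ← mul_assoc,
    mul_comm (Ideal.span {x'}) (Ideal.span {y})]

omit [IsDedekindDomain D.O] in
theorem ie_mul {I I' J J' : Ideal D.O} (h : Ie I I') (h' : Ie J J') : Ie (I * J) (I' * J') := by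
  obtain ⟨x, y, hx, hy, h⟩ := h
  obtain ⟨x', y', hx', hy', h'⟩ := h'
  refine ⟨x * x', y * y', mul_ne_zero hx hx', mul_ne_zero hy hy', ?_⟩
  rw [← Ideal.span_singleton_mul_span_singleton, ← Ideal.span_singleton_mul_span_singleton,
    mul_mul_mul_comm, h, h', mul_mul_mul_comm]

omit [IsDedekindDomain D.O] in
private theorem span_ne {x : D.O} (hx : x ≠ 0) : Ideal.span {x} ≠ (⊥ : Ideal D.O) := by
  rw [Ne, Ideal.span_singleton_eq_bot]
  exact hx

omit [IsDedekindDomain D.O] in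
private theorem ci_ne {I : Ideal D.O} (hI : I ≠ ⊥) : ci I ≠ ⊥ := by
  rw [← ni_ne, ni_ci, ni_ne]
  exact hI

omit [IsDedekindDomain D.O] in
private theorem nat_ne {n : ℕ} (hn : n ≠ 0) : (n : D.O) ≠ 0 := by
  intro h
  have h1 := congrArg (fun x : D.O => (x : ℂ)) h
  have h2 : ((n : ℕ) : ℂ) = 0 := by simpa using h1
  exact hn (by exact_mod_cast h2)

omit [IsDedekindDomain D.O] in
private theorem mem_rt {I J : Ideal D.O} {x : D.O} (h : x ∈ I * J) : x ∈ I := by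
  have h1 : I * J ≤ I := Ideal.mul_le_inf.trans inf_le_left
  exact h1 h

omit [IsDedekindDomain D.O] in
private theorem mem_lt {I J : Ideal D.O} {x : D.O} (h : x ∈ I * J) : x ∈ J := by
  have h1 : I * J ≤ J := Ideal.mul_le_inf.trans inf_le_right
  exact h1 h

private theorem cancel_id {I J L : Ideal D.O} (hI : I ≠ ⊥) (h : I * J = I * L) : J = L := by
  rw [← Ideal.zero_eq_bot] at hI
  exact mul_left_cancel₀ hI h

private theorem pow_ne_bot {I : Ideal D.O} (hI : I ≠ ⊥) (n : ℕ) : I ^ n ≠ ⊥ := by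
  rw [← Ideal.zero_eq_bot] at hI ⊢
  exact pow_ne_zero n hI

/-- if `ci I * J = (x)` then `I ~ J` -/
private theorem ie_of_ci {I J : Ideal D.O} {x : D.O} (hI : I ≠ ⊥) (hx : x ≠ 0)
    (h : ci I * J = Ideal.span {x}) : Ie I J := by
  refine ⟨x, ((ni I : ℕ) : D.O), hx, nat_ne (ni_ne.2 hI), ?_⟩
  rw [← h, ← mul_ci, mul_comm (ci I * J) I, mul_assoc]

omit [IsDedekindDomain D.O] in
/-- a short element -/
private theorem short (D : RNP.OD) : ∃ C : ℕ, ∀ I : Ideal D.O, I ≠ ⊥ → ∃ x ∈ I, x ≠ 0 ∧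
    nn D x ≤ C * ni I := by
  obtain ⟨C, hC⟩ := exists_nat_ge ((1 + ‖UNI.om D.a‖) ^ 2)
  refine ⟨C, fun I hI => ?_⟩
  have hn := ni_ne.2 hI
  haveI : Finite (D.O ⧸ I) := (Nat.card_ne_zero.1 hn).2
  haveI : Fintype (D.O ⧸ I) := Fintype.ofFinite _
  set s := Nat.sqrt (ni I) with hs
  have hs1 : ni I < (s + 1) * (s + 1) := Nat.lt_succ_sqrt (ni I)
  have hs2 : s * s ≤ ni I := Nat.sqrt_le (ni I)
  let f : Fin (s + 1) × Fin (s + 1) → D.O ⧸ I := fun p =>
    Ideal.Quotient.mk I (el D ((p.1 : ℕ), (p.2 : ℕ)))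
  have hcard : Fintype.card (D.O ⧸ I) < Fintype.card (Fin (s + 1) × Fin (s + 1)) := by
    rw [Fintype.card_prod, Fintype.card_fin, ← Nat.card_eq_fintype_card]
    exact hs1
  obtain ⟨p, q, hpq, hf⟩ := Fintype.exists_ne_map_eq_of_card_lt f hcard
  set m : ℤ × ℤ := (((p.1 : ℕ) : ℤ) - ((q.1 : ℕ) : ℤ), ((p.2 : ℕ) : ℤ) - ((q.2 : ℕ) : ℤ)) with hm
  have he : el D m = el D ((p.1 : ℕ), (p.2 : ℕ)) - el D ((q.1 : ℕ), (q.2 : ℕ)) := by
    rw [eq_sub_iff_add_eq, ← el_add]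
    congr 1
    rw [hm]
    ext <;> simp
  have hmem : el D m ∈ I := by
    rw [he]
    exact Ideal.Quotient.eq.1 hf
  have hm0 : m ≠ 0 := by
    intro h0
    apply hpq
    have h1 : ((p.1 : ℕ) : ℤ) - ((q.1 : ℕ) : ℤ) = 0 := congrArg Prod.fst h0
    have h2 : ((p.2 : ℕ) : ℤ) - ((q.2 : ℕ) : ℤ) = 0 := congrArg Prod.snd h0
    ext
    · omega
    · omega
  refine ⟨el D m, hmem, ?_, ?_⟩
  · intro h0
    apply hm0
    have := congrArg (cod D) h0
    rwa [cod_el, ← el_zero, cod_el] at this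
  · have b1 : |m.1| ≤ s := by
      have := p.1.2
      have := q.1.2
      rw [hm, abs_le]
      constructor <;> simp only <;> omega
    have b2 : |m.2| ≤ s := by
      have := p.2.2
      have := q.2.2
      rw [hm, abs_le]
      constructor <;> simp only <;> omega
    have c1 : ‖((m.1 : ℤ) : ℂ)‖ ≤ s := by
      rw [Complex.norm_intCast]
      exact_mod_cast b1
    have c2 : ‖((m.2 : ℤ) : ℂ)‖ ≤ s := by
      rw [Complex.norm_intCast]
      exact_mod_cast b2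
    have h1 : ‖((el D m : D.O) : ℂ)‖ ≤ s * (1 + ‖UNI.om D.a‖) := by
      have h2 : ((el D m : D.O) : ℂ) = m.1 + m.2 * UNI.om D.a := rfl
      rw [h2]
      refine (norm_add_le _ _).trans ?_
      rw [norm_mul, mul_add, mul_one]
      exact add_le_add c1 (mul_le_mul_of_nonneg_right c2 (norm_nonneg _))
    have h3 : ((nn D (el D m) : ℕ) : ℝ) ≤ ((C * ni I : ℕ) : ℝ) := by
      rw [nn_real]
      have h4 : ‖((el D m : D.O) : ℂ)‖ ^ 2 ≤ (s * (1 + ‖UNI.om D.a‖)) ^ 2 :=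
        pow_le_pow_left₀ (norm_nonneg _) h1 2
      refine h4.trans ?_
      rw [mul_pow]
      push_cast
      have h5 : ((s : ℝ)) ^ 2 ≤ (ni I : ℝ) := by
        rw [sq]
        exact_mod_cast hs2
      calc (s : ℝ) ^ 2 * (1 + ‖UNI.om D.a‖) ^ 2 ≤ (ni I : ℝ) * C :=
            mul_le_mul h5 hC (by positivity) (by positivity)
        _ = (C : ℝ) * (ni I : ℝ) := mul_comm _ _
    exact_mod_cast h3

/-- finitely many classes -/
private theorem cls_fin (D : RNP.OD) [IsDedekindDomain D.O] :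
    ∃ T : Finset (Ideal D.O), (∀ I ∈ T, I ≠ ⊥) ∧ ∀ I : Ideal D.O, I ≠ ⊥ → ∃ J ∈ T, Ie I J := by
  classical
  obtain ⟨C, hC⟩ := short D
  refine ⟨((ni_fin (D := D) C).toFinset).image ci, ?_, ?_⟩
  · intro I hI
    obtain ⟨J, hJ, rfl⟩ := Finset.mem_image.1 hI
    exact ci_ne ((Set.Finite.mem_toFinset _).1 hJ).1
  · intro I hI
    obtain ⟨x, hx, hx0, hxn⟩ := hC I hI
    obtain ⟨J, hJ⟩ := ex_quo hx
    have hJ0 : J ≠ ⊥ := by
      rintro rfl
      rw [Ideal.mul_bot] at hJ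
      exact span_ne hx0 hJ.symm
    have hn : ni I * ni J = nn D x := by rw [← ni_mul, hJ, ni_span]
    have hI' : 0 < ni I := Nat.pos_of_ne_zero (ni_ne.2 hI)
    have hJn : ni J ≤ C := by
      have h1 : ni I * ni J ≤ ni I * C := by rw [hn, mul_comm (ni I) C]; exact hxn
      exact Nat.le_of_mul_le_mul_left h1 hI'
    refine ⟨ci J, Finset.mem_image.2 ⟨J, (Set.Finite.mem_toFinset _).2 ⟨hJ0, hJn⟩, rfl⟩, ?_⟩
    refine ⟨((ni J : ℕ) : D.O), x, nat_ne (ni_ne.2 hJ0), hx0, ?_⟩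
    rw [← mul_ci, ← hJ, mul_assoc, mul_assoc, mul_comm (ci J) I, ← mul_assoc, mul_comm J I,
      mul_assoc]

private def ieS (D : RNP.OD) : Setoid (Ideal D.O) :=
  ⟨Ie, ie_refl, fun h => ie_symm h, fun h h' => ie_trans h h'⟩

theorem rp_ex {M : ℕ} (hM : 0 < M) : Nonempty (Rp D M) := by
  classical
  obtain ⟨T, hT0, hT⟩ := cls_fin D
  have hM' : Ideal.span {(M : D.O)} ≠ ⊥ := span_ne (nat_ne hM.ne')
  have h1 : ∀ I : Ideal D.O, ∃ J : Ideal D.O, I ≠ ⊥ → Ip M J ∧ Ie I J := by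
    intro I
    by_cases hI : I = ⊥
    · exact ⟨⊥, fun h => absurd hI h⟩
    obtain ⟨x, hx, hx0, J, hJ, hc⟩ := ex_gen (ci_ne hI) hM'
    refine ⟨J, fun _ => ⟨⟨?_, hc⟩, ie_of_ci hI hx0 hJ⟩⟩
    rintro rfl
    rw [Ideal.mul_bot] at hJ
    exact span_ne hx0 hJ.symm
  choose j hj using h1
  let q : Ideal D.O → Quotient (ieS D) := fun I => Quotient.mk (ieS D) I
  have hq : ∀ I J : Ideal D.O, q I = q J ↔ Ie I J := fun I J => Quotient.eq
  set T' : Finset (Ideal D.O) := T.image j with hT'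
  let g : Quotient (ieS D) → Ideal D.O := fun κ =>
    if h : ∃ J ∈ T', q J = κ then Classical.choose h else ⊥
  have hg : ∀ J ∈ T', g (q J) ∈ T' ∧ q (g (q J)) = q J := by
    intro J hJ
    have h : ∃ J' ∈ T', q J' = q J := ⟨J, hJ, rfl⟩
    have e : g (q J) = Classical.choose h := dif_pos h
    rw [e]
    exact Classical.choose_spec h
  refine ⟨⟨T'.image (fun J => g (q J)), ?_, ?_, ?_⟩⟩
  · intro I hI
    obtain ⟨J, hJ, rfl⟩ := Finset.mem_image.1 hI
    obtain ⟨L, hL, hL'⟩ := Finset.mem_image.1 (hg J hJ).1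
    rw [← hL']
    exact (hj L (hT0 L hL)).1
  · intro I hI
    obtain ⟨L, hL, hIL⟩ := hT I hI
    have hLT : j L ∈ T' := Finset.mem_image_of_mem _ hL
    refine ⟨g (q (j L)), Finset.mem_image_of_mem _ hLT, ?_⟩
    refine ie_trans hIL (ie_trans (hj L (hT0 L hL)).2 ?_)
    exact (hq _ _).1 (hg _ hLT).2.symm
  · intro I hI J hJ hIJ
    obtain ⟨I', hI', rfl⟩ := Finset.mem_image.1 hI
    obtain ⟨J', hJ', rfl⟩ := Finset.mem_image.1 hJ
    have e := (hq _ _).2 hIJ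
    rw [(hg I' hI').2, (hg J' hJ').2] at e
    show g (q I') = g (q J')
    rw [e]

/-- a power of each ideal is principal -/
theorem pow_pr {I : Ideal D.O} (hI : I ≠ ⊥) : ∃ k : ℕ, 0 < k ∧ ∃ x : D.O, x ≠ 0 ∧
    I ^ k = Ideal.span {x} := by
  obtain ⟨S⟩ := rp_ex (D := D) (M := 1) one_pos
  have h1 : ∀ n : ℕ, ∃ J : {J // J ∈ S.s}, Ie (I ^ n) J.1 := by
    intro n
    obtain ⟨J, hJ, h⟩ := S.ex (I ^ n) (pow_ne_bot hI n)
    exact ⟨⟨J, hJ⟩, h⟩
  choose f hf using h1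
  obtain ⟨i, k, hik, hfe⟩ := Finite.exists_ne_map_eq_of_infinite f
  have key : ∀ i k : ℕ, i < k → f i = f k → ∃ k : ℕ, 0 < k ∧ ∃ x : D.O, x ≠ 0 ∧
      I ^ k = Ideal.span {x} := by
    intro i k hlt he
    obtain ⟨x, y, hx, hy, h⟩ := ie_trans (hf i) (ie_symm (he ▸ hf k))
    have hk : I ^ k = I ^ i * I ^ (k - i) := by rw [← pow_add]; congr 1; omega
    rw [hk, mul_comm (Ideal.span {x}) (I ^ i), mul_comm (Ideal.span {y}) (I ^ i * I ^ (k - i)),
      mul_assoc] at h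
    have h2 := cancel_id (pow_ne_bot hI i) h
    have hxy : x ∈ Ideal.span {y} := by
      have h3 : x ∈ Ideal.span {x} := Ideal.mem_span_singleton_self x
      rw [h2] at h3
      exact mem_lt h3
    obtain ⟨z, hz⟩ := Ideal.mem_span_singleton.1 hxy
    refine ⟨k - i, by omega, z, ?_, ?_⟩
    · rintro rfl
      exact hx (by rw [hz, mul_zero])
    · rw [hz, ← Ideal.span_singleton_mul_span_singleton, mul_comm (I ^ (k - i))] at h2
      exact (cancel_id (span_ne hy) h2).symm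
  rcases lt_or_gt_of_ne hik with h | h
  · exact key i k h hfe
  · exact key k i h hfe.symm

/-- representatives prime to `M` are representatives prime to `N ∣ M` -/
def Rp.dn {N M : ℕ} (h : N ∣ M) (S : Rp D M) : Rp D N where
  s := S.s
  cp I hI := ip_dvd h (S.cp I hI)
  ex := S.ex
  un := S.un

/-- the conjugates of representatives -/
theorem rp_ci {M : ℕ} (S : Rp D M) : ∃ S' : Rp D M, ∃ e : Ideal D.O ≃ Ideal D.O,
    (∀ I, e I = ci I) ∧ S'.s = S.s.map e.toEmbedding := by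
  let e : Ideal D.O ≃ Ideal D.O := ⟨ci, ci, ci_ci, ci_ci⟩
  have hmem : ∀ I, I ∈ S.s.map e.toEmbedding ↔ ci I ∈ S.s := by
    intro I
    rw [Finset.mem_map]
    constructor
    · rintro ⟨J, hJ, rfl⟩
      have : ci (ci J) = J := ci_ci J
      show ci (ci J) ∈ S.s
      rw [this]
      exact hJ
    · intro h
      exact ⟨ci I, h, ci_ci I⟩
  refine ⟨⟨S.s.map e.toEmbedding, ?_, ?_, ?_⟩, e, fun I => rfl, rfl⟩
  · intro I hI
    exact ci_ip.1 (S.cp _ ((hmem I).1 hI))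
  · intro I hI
    obtain ⟨J, hJ, h⟩ := S.ex (ci I) (ci_ne hI)
    refine ⟨ci J, (hmem _).2 (by rw [ci_ci]; exact hJ), ?_⟩
    have := ci_ie h
    rwa [ci_ci] at this
  · intro I hI J hJ h
    have := S.un _ ((hmem I).1 hI) _ ((hmem J).1 hJ) (ci_ie h)
    have h2 := congrArg ci this
    rwa [ci_ci, ci_ci] at h2

theorem ie_cp {N : ℕ} {I J : Ideal D.O} (hI : Ip N I) (hJ : Ip N J) (h : Ie I J) :
    ∃ x y : D.O, x ≠ 0 ∧ y ≠ 0 ∧ Cp N x ∧ Cp N y ∧
      Ideal.span {x} * I = Ideal.span {y} * J := by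
  obtain ⟨x, y, hx, hy, h⟩ := h
  obtain ⟨z, hz, w, hw⟩ := ip_one hI
  have hzc : Cp N z := ⟨1, -w, by rw [hw]; ring⟩
  by_cases hz0 : z = 0
  · have hu : ∀ v : D.O, Cp N v := by
      intro v
      refine ⟨0, -w, ?_⟩
      rw [hz0] at hw
      linear_combination hw
    exact ⟨x, y, hx, hy, hu x, hu y, h⟩
  obtain ⟨I', hI'⟩ := ex_quo hz
  have h1 : Ideal.span {x * z} = Ideal.span {y} * (J * I') := by
    rw [← Ideal.span_singleton_mul_span_singleton, ← hI', ← mul_assoc, h, mul_assoc]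
  have h2 : x * z ∈ Ideal.span {y} := by
    have h3 : x * z ∈ Ideal.span {x * z} := Ideal.mem_span_singleton_self _
    rw [h1] at h3
    exact mem_rt h3
  obtain ⟨x', hx'⟩ := Ideal.mem_span_singleton.1 h2
  have hx'0 : x' ≠ 0 := by
    rintro rfl
    rw [mul_zero] at hx'
    exact mul_ne_zero hx hz0 hx'
  have h4 : Ideal.span {x'} = J * I' := by
    rw [hx', ← Ideal.span_singleton_mul_span_singleton] at h1
    exact cancel_id (span_ne hy) h1
  have h5 : Ip N (Ideal.span {z}) := ip_span.2 ⟨hz0, hzc⟩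
  rw [← hI', ip_mul] at h5
  have h6 : Ip N (Ideal.span {x'}) := by
    rw [h4, ip_mul]
    exact ⟨hJ, h5.2⟩
  refine ⟨x', z, hx'0, hz0, (ip_span.1 h6).2, hzc, ?_⟩
  rw [h4, ← hI', mul_comm J I', mul_assoc, mul_comm J I, ← mul_assoc, mul_comm I' I]

/-! ### sums over ideals -/

/-- the representative in the class inverse to `b` and a generator of the product -/
private theorem inv_rep {M : ℕ} (S : Rp D M) (b : {b : Ideal D.O // b ≠ ⊥}) :
    ∃ p : Ideal D.O × D.O, p.1 ∈ S.s ∧ p.2 ≠ 0 ∧ p.1 * b.1 = Ideal.span {p.2} := by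
  obtain ⟨I, hI, x, y, hx, hy, h⟩ := S.ex (ci b.1) (ci_ne b.2)
  have hn : ((ni b.1 : ℕ) : D.O) ≠ 0 := nat_ne (ni_ne.2 b.2)
  have h1 : Ideal.span {y} * (I * b.1) = Ideal.span {x * ((ni b.1 : ℕ) : D.O)} := by
    rw [← Ideal.span_singleton_mul_span_singleton, ← mul_ci, ← mul_assoc, ← h, mul_comm b.1 (ci b.1),
      mul_assoc]
  have h2 : x * ((ni b.1 : ℕ) : D.O) ∈ Ideal.span {y} := by
    have h3 : x * ((ni b.1 : ℕ) : D.O) ∈ Ideal.span {x * ((ni b.1 : ℕ) : D.O)} :=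
      Ideal.mem_span_singleton_self _
    rw [← h1] at h3
    exact mem_rt h3
  obtain ⟨z, hz⟩ := Ideal.mem_span_singleton.1 h2
  refine ⟨(I, z), hI, ?_, ?_⟩
  · rintro h0
    have h0' : z = 0 := h0
    rw [h0', mul_zero] at hz
    exact mul_ne_zero hx hn hz
  · rw [hz, ← Ideal.span_singleton_mul_span_singleton] at h1
    exact cancel_id (span_ne hy) h1

private def irp {M : ℕ} (S : Rp D M) (b : {b : Ideal D.O // b ≠ ⊥}) : Ideal D.O × D.O :=
  Classical.choose (inv_rep S b)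

private theorem irp_spec {M : ℕ} (S : Rp D M) (b : {b : Ideal D.O // b ≠ ⊥}) :
    (irp S b).1 ∈ S.s ∧ (irp S b).2 ≠ 0 ∧ (irp S b).1 * b.1 = Ideal.span {(irp S b).2} :=
  Classical.choose_spec (inv_rep S b)

/-- the parametrisation of the pairs `(I, x)` -/
private def pm {M : ℕ} (S : Rp D M) (p : {b : Ideal D.O // b ≠ ⊥} × D.Oˣ) : Ideal D.O × D.O :=
  ((irp S p.1).1, (irp S p.1).2 * (p.2 : D.O))

private theorem pm_mul {M : ℕ} (S : Rp D M) (p : {b : Ideal D.O // b ≠ ⊥} × D.Oˣ) :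
    (pm S p).1 * p.1.1 = Ideal.span {(pm S p).2} := by
  show (irp S p.1).1 * p.1.1 = Ideal.span {(irp S p.1).2 * (p.2 : D.O)}
  rw [(irp_spec S p.1).2.2, Ideal.span_singleton_mul_right_unit p.2.isUnit]

private theorem pm_ne {M : ℕ} (S : Rp D M) (p : {b : Ideal D.O // b ≠ ⊥} × D.Oˣ) :
    (pm S p).2 ≠ 0 :=
  mul_ne_zero (irp_spec S p.1).2.1 p.2.ne_zero

private theorem pm_mem {M : ℕ} (S : Rp D M) (p : {b : Ideal D.O // b ≠ ⊥} × D.Oˣ) :
    (pm S p).1 ∈ S.s := (irp_spec S p.1).1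

private theorem s_ne {M : ℕ} (S : Rp D M) {I : Ideal D.O} (h : I ∈ S.s) : I ≠ ⊥ := (S.cp I h).1

private theorem pm_inj {M : ℕ} (S : Rp D M) : Function.Injective (pm S) := by
  intro p q h
  have h1 := pm_mul S p
  have h2 := pm_mul S q
  rw [h, ← h2] at h1
  have h3 : p.1.1 = q.1.1 := cancel_id (s_ne S (pm_mem S q)) h1
  have h4 : p.1 = q.1 := Subtype.ext h3
  have h5 : (irp S p.1).2 * (p.2 : D.O) = (irp S q.1).2 * (q.2 : D.O) := congrArg Prod.snd h
  rw [h4] at h5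
  have h6 := mul_left_cancel₀ (irp_spec S q.1).2.1 h5
  exact Prod.ext h4 (Units.ext h6)

private theorem pm_range {M : ℕ} (S : Rp D M) {I : Ideal D.O} {x : D.O} (hI : I ∈ S.s)
    (hx0 : x ≠ 0) (hx : x ∈ I) : (I, x) ∈ Set.range (pm S) := by
  obtain ⟨b, hb⟩ := ex_quo hx
  have hb0 : b ≠ ⊥ := by
    rintro rfl
    rw [Ideal.mul_bot] at hb
    exact span_ne hx0 hb.symm
  have hs := irp_spec S ⟨b, hb0⟩
  have e1 : Ie I (irp S ⟨b, hb0⟩).1 := by
    refine ⟨(irp S ⟨b, hb0⟩).2, x, hs.2.1, hx0, ?_⟩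
    rw [← hs.2.2, ← hb]
    show (irp S ⟨b, hb0⟩).1 * b * I = I * b * (irp S ⟨b, hb0⟩).1
    rw [mul_assoc, mul_comm b I, mul_comm]
  have e2 : I = (irp S ⟨b, hb0⟩).1 := S.un _ hI _ hs.1 e1
  have e3 : Ideal.span {x} = Ideal.span {(irp S ⟨b, hb0⟩).2} := by
    rw [← hs.2.2, ← hb, ← e2]
  obtain ⟨u, hu⟩ := (Ideal.span_singleton_eq_span_singleton.1 e3.symm)
  exact ⟨(⟨b, hb0⟩, u), Prod.ext e2.symm hu⟩

open Classical in
private def HH {M : ℕ} (S : Rp D M) (g : Ideal D.O → D.O → ℂ) (p : Ideal D.O × D.O) : ℂ :=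
  if p.1 ∈ S.s then g p.1 p.2 else 0

private theorem HH_pm {M : ℕ} (S : Rp D M) {G : Ideal D.O → ℂ} {g : Ideal D.O → D.O → ℂ}
    (h2 : ∀ I ∈ S.s, ∀ x b, x ≠ 0 → I * b = Ideal.span {x} → g I x = G b)
    (p : {b : Ideal D.O // b ≠ ⊥} × D.Oˣ) : HH S g (pm S p) = G p.1.1 := by
  rw [HH, if_pos (pm_mem S p)]
  exact h2 _ (pm_mem S p) _ _ (pm_ne S p) (pm_mul S p)

theorem wn_pos : 0 < wn D := by
  haveI := finU D
  exact Nat.card_pos

private theorem G_prod {G : Ideal D.O → ℂ} (hG : Summable G) :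
    Summable (fun p : {b : Ideal D.O // b ≠ ⊥} × D.Oˣ => G p.1.1) := by
  haveI := finU D
  haveI : Fintype D.Oˣ := Fintype.ofFinite _
  have h1 : Summable (fun b : {b : Ideal D.O // b ≠ ⊥} => G b.1) :=
    hG.comp_injective Subtype.val_injective
  have h2 : Summable (fun b : {b : Ideal D.O // b ≠ ⊥} => ‖G b.1‖) := h1.norm
  apply Summable.of_norm
  rw [summable_prod_of_nonneg (fun p => norm_nonneg _)]
  refine ⟨fun b => (hasSum_fintype _).summable, ?_⟩
  have h3 : (fun b : {b : Ideal D.O // b ≠ ⊥} => ∑' u : D.Oˣ, ‖G (b, u).1.1‖) =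
      fun b => (Fintype.card D.Oˣ : ℝ) * ‖G b.1‖ := by
    funext b
    rw [tsum_fintype]
    simp
  rw [h3]
  exact h2.mul_left _

/-- sums over all ideals as sums over elements of the representatives -/
theorem class_sum {M : ℕ} (S : Rp D M) {G : Ideal D.O → ℂ} (hG : Summable G) (h0 : G ⊥ = 0)
    {g : Ideal D.O → D.O → ℂ} (h1 : ∀ I ∈ S.s, ∀ x, (x = 0 ∨ x ∉ I) → g I x = 0)
    (h2 : ∀ I ∈ S.s, ∀ x b, x ≠ 0 → I * b = Ideal.span {x} → g I x = G b) :
    (∀ I ∈ S.s, Summable (g I)) ∧ ∑ I ∈ S.s, ∑' x, g I x = wn D * ∑' b, G b := by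
  classical
  haveI := finU D
  haveI : Fintype D.Oˣ := Fintype.ofFinite _
  have hsupp : ∀ p ∉ Set.range (pm S), HH S g p = 0 := by
    rintro ⟨I, x⟩ hp
    by_cases hI : I ∈ S.s
    · rw [HH, if_pos hI]
      apply h1 I hI
      by_contra hc
      push Not at hc
      exact hp (pm_range S hI hc.1 hc.2)
    · rw [HH, if_neg hI]
  have hF : (HH S g) ∘ (pm S) = fun p => G p.1.1 := by
    funext p
    exact HH_pm S h2 p
  have hHs : Summable (HH S g) := by
    rw [← (pm_inj S).summable_iff hsupp, hF]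
    exact G_prod hG
  have hI : ∀ I ∈ S.s, Summable (g I) := by
    intro I hI
    have h := hHs.prod_factor I
    have e : (fun x => HH S g (I, x)) = g I := by
      funext x
      rw [HH, if_pos hI]
    rwa [e] at h
  refine ⟨hI, ?_⟩
  have e1 : ∑' p, HH S g p = ∑ I ∈ S.s, ∑' x, g I x := by
    rw [hHs.tsum_prod, tsum_eq_sum (s := S.s)]
    · apply Finset.sum_congr rfl
      intro I hI
      apply tsum_congr
      intro x
      rw [HH, if_pos hI]
    · intro I hI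
      have : ∀ x, HH S g (I, x) = 0 := fun x => by rw [HH, if_neg hI]
      simp [this]
  have e2 : ∑' p, HH S g p = ∑' p : {b : Ideal D.O // b ≠ ⊥} × D.Oˣ, G p.1.1 := by
    rw [← (pm_inj S).tsum_eq (f := HH S g)]
    · exact tsum_congr fun p => HH_pm S h2 p
    · intro p hp
      by_contra hc
      exact hp (hsupp p hc)
  have e3 : ∑' p : {b : Ideal D.O // b ≠ ⊥} × D.Oˣ, G p.1.1 = wn D * ∑' b, G b := by
    rw [(G_prod hG).tsum_prod]
    have e4 : ∀ b : {b : Ideal D.O // b ≠ ⊥}, ∑' u : D.Oˣ, G (b, u).1.1 = (wn D : ℂ) * G b.1 := by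
      intro b
      rw [tsum_fintype, wn, Nat.card_eq_fintype_card]
      simp
    rw [tsum_congr e4, tsum_mul_left]
    congr 1
    rw [← Subtype.val_injective.tsum_eq (f := G)]
    intro b hb
    refine ⟨⟨b, ?_⟩, rfl⟩
    rintro rfl
    exact hb h0
  rw [← e1, e2, e3]

/-- the converse for the summability -/
theorem class_summable {M : ℕ} (S : Rp D M) {G : Ideal D.O → ℂ} (h0 : G ⊥ = 0)
    {g : Ideal D.O → D.O → ℂ} (h2 : ∀ I ∈ S.s, ∀ x b, x ≠ 0 → I * b = Ideal.span {x} → g I x = G b)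
    (hs : ∀ I ∈ S.s, Summable (g I)) : Summable G := by
  classical
  have hHs : Summable (HH S g) := by
    have e : HH S g = fun p => ∑ I ∈ S.s, (if p.1 = I then g I p.2 else 0) := by
      funext p
      rw [Finset.sum_ite_eq S.s p.1 (fun I => g I p.2), HH]
    rw [e]
    apply summable_sum
    intro I hI
    have hinj : Function.Injective (fun x : D.O => ((I, x) : Ideal D.O × D.O)) := by
      intro x y h
      exact congrArg Prod.snd h
    rw [← hinj.summable_iff]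
    · have e2 : (fun p : Ideal D.O × D.O => if p.1 = I then g I p.2 else 0) ∘
          (fun x : D.O => ((I, x) : Ideal D.O × D.O)) = g I := by
        funext x
        simp
      rw [e2]
      exact hs I hI
    · rintro ⟨J, x⟩ hp
      apply if_neg
      intro hJ
      exact hp ⟨x, Prod.ext hJ.symm rfl⟩
  have h3 : Summable (fun b : {b : Ideal D.O // b ≠ ⊥} => G b.1) := by
    have h4 := (hHs.comp_injective (pm_inj S)).comp_injective
      (i := fun b : {b : Ideal D.O // b ≠ ⊥} => ((b, (1 : D.Oˣ)) :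
        {b : Ideal D.O // b ≠ ⊥} × D.Oˣ)) (fun a b h => congrArg Prod.fst h)
    have e : (HH S g ∘ pm S) ∘ (fun b : {b : Ideal D.O // b ≠ ⊥} => ((b, (1 : D.Oˣ)) :
        {b : Ideal D.O // b ≠ ⊥} × D.Oˣ)) = fun b => G b.1 := by
      funext b
      exact HH_pm S h2 (b, 1)
    rwa [e] at h4
  rw [← Subtype.val_injective.summable_iff]
  · exact h3
  · intro b hb
    have : b = ⊥ := by
      by_contra hc
      exact hb ⟨⟨b, hc⟩, rfl⟩
    rw [this, h0]

end

end RNG
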