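import Pool.Agent.RN2.Defs
import Pool.Agent.RNP.Defs

/-!
# RNG: common definitions (MP_870c49_nt, rank one, all class numbers)

`D : RNP.OD` the order `O`, `b = toU D.a` the same order as `UNL.Par` (`A = 1`). The definitions are those of
`RN2.Defs`, without the Bezout property (`RN2.fk`, `RN2.gd` are used as they are).
Elements of `O` are elements `x : D.O` of the subring; `el D m` is the element with coordinates
`m : ℤ × ℤ`.
-/

namespace RNG

open RNK

noncomputable section

variable (D : RNP.OD)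

/-- the element of `O` with coordinates `m` -/
def el (m : ℤ × ℤ) : D.O := ⟨UNI.xx D.a m, m, rfl⟩

/-- the coordinates of an element of `O` -/
def cod (x : D.O) : ℤ × ℤ := Classical.choose x.2

theorem el_cod (x : D.O) : el D (cod D x) = x :=
  Subtype.ext (Classical.choose_spec x.2).symm

theorem xx_cod (x : D.O) : UNI.xx D.a (cod D x) = x := (Classical.choose_spec x.2).symm

/-- the norm, a natural number -/
def nn (x : D.O) : ℕ := Classical.choose (nrm_Ord x.2)

theorem nn_mul_cj (x : D.O) : (x : ℂ) * (starRingEnd ℂ) (x : ℂ) = nn D x :=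
  Classical.choose_spec (nrm_Ord x.2)

theorem nn_real (x : D.O) : ((nn D x : ℕ) : ℝ) = ‖(x : ℂ)‖ ^ 2 := by
  have h := nn_mul_cj D x
  rw [Complex.mul_conj, Complex.normSq_eq_norm_sq] at h
  exact_mod_cast h.symm

variable {D}

/-- the action of `O` on `(1/N) O / O` -/
def ac {N : ℕ} (x : D.O) (k : UNL.G N) : UNL.G N := UNL.sm (toU D.a) (cod D x) k

/-- `x` is prime to `N` -/
def Cp (N : ℕ) (x : D.O) : Prop := IsCoprime x (N : D.O)

/-- the pairing `exp (2 π i Im (z) / Im ω)`, trivial on `O` -/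
abbrev pss (D : RNP.OD) (z : ℂ) : ℂ := ps (toU D.a) z

/-- characters mod `N`, as functions on `O` which vanish off the elements prime to `N` -/
structure Chr (D : RNP.OD) (N : ℕ) where
  f : D.O → ℂ
  mul : ∀ x y, f (x * y) = f x * f y
  one : f 1 = 1
  per : ∀ x y : D.O, f (x + N * y) = f x
  zr : ∀ x, ¬ Cp N x → f x = 0

/-- the character is trivial on the units of `O` -/
def Chr.Tu {N : ℕ} (χ : Chr D N) : Prop := ∀ u : D.Oˣ, χ.f (u : D.O) = 1

/-- the character is not trivial -/
def Chr.Nt {N : ℕ} (χ : Chr D N) : Prop := ∃ x : D.O, Cp N x ∧ χ.f x ≠ 1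

/-- functions on `O` of period `N` -/
def Pe (N : ℕ) (a : D.O → ℂ) : Prop := ∀ x y : D.O, a (x + N * y) = a x

/-- the representative in `O` of a class mod `N` -/
def rp (D : RNP.OD) {N : ℕ} (k : UNL.G N) : D.O := el D ((k.1.val : ℤ), (k.2.val : ℤ))

open Classical in
/-- the principal character -/
def c0 (N : ℕ) (x : D.O) : ℂ := if Cp N x then 1 else 0

/-- the Dirichlet series `Σ a(x) N(x)^(-s)`; the term of `x = 0` is `0` -/
def Ds (a : D.O → ℂ) (s : ℂ) : ℂ := ∑' x : D.O, a x * ((nn D x : ℕ) : ℂ) ^ (-s)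

/-- the theta series -/
def th (N : ℕ) (a : D.O → ℂ) (t : ℝ) : ℂ :=
  ∑' x : D.O, a x * ((Real.exp (-(Real.pi * t / (N * (UNI.om D.a).im)) * nn D x) : ℝ) : ℂ)

/-- the finite Fourier transform -/
def du (N : ℕ) [NeZero N] (a : D.O → ℂ) (m : D.O) : ℂ :=
  1 / (N : ℂ) * ∑ k : UNL.G N, a (rp D k) * pss D ((m : ℂ) * UNL.tp (toU D.a) k)

end

end RNG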