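import Pool.Agent.RNG.Cg
import Pool.Agent.RNG.Gs

/-!
# RNG.Et: the character `η` of a Hecke character

* `Hk.hc`: `η(x) = ψ((x)) / x²` for `x` prime to `m`, `0` otherwise (`η(0) = 1` if `m` is a unit, i.e. `m = 1`). Periodic:
  let `z x ≡ 1` mod `m`; then `z x` and `z (x + m y)` are congruent to `1` mod `m` (nonzero if `m > 1`), so
  `ψ((z)) ψ((x)) = (z x)²`, `ψ((z)) ψ((x + m y)) = (z (x + m y))²` (`sq`, `mul`). For `m = 1` all `η(x) = 1`. `unit`: `(u) = (1)`,
  `ψ((1)) = 1` (`sq`). `prim`: from `prim` of `ψ`. `val`: `K` is a field.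
* `psi_nsq`: a power `I^k = (x)`; `|ψ(I)|^{2k} = |η(x)|² |x|⁴ = ni(I)^{2k}`.
* `psi_ci`: `ψ(I) ψ(ci I) = ψ((ni I)) = ni(I)²` (`sq`: `ni I` is an integer prime to `m`), and `psi_nsq`.
* `Eps_real`: the substitution `I ↦ ci I` (`ni_ci`, `psi_ci`). `Lps_conj`: `conj (ψ(I)⁻¹) = ψ(I) / ni(I)²`.
* `Eps_ne`: a completely multiplicative summable function on the ideals; take out finitely many primes.
-/

open RNK

namespace RNG

noncomputable section

variable {D : RNP.OD} [IsDedekindDomain D.O] {m : ℕ} [NeZero m]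

omit [IsDedekindDomain D.O] [NeZero m] in
private theorem et_cp {x : D.O} (ψ : Hk D m) (h : Cp m x) (hx : x ≠ 0) :
    ψ.eta x = ψ.f (Ideal.span {x}) / (x : ℂ) ^ 2 := by
  classical
  unfold Hk.eta
  rw [if_pos h, if_neg hx]

omit [IsDedekindDomain D.O] [NeZero m] in
private theorem et_zr {x : D.O} (ψ : Hk D m) (h : ¬ Cp m x) : ψ.eta x = 0 := by
  classical
  unfold Hk.eta
  rw [if_neg h]

omit [IsDedekindDomain D.O] [NeZero m] in
private theorem coe_ne {x : D.O} (hx : x ≠ 0) : (x : ℂ) ≠ 0 := fun h => hx (Subtype.ext h)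

omit [IsDedekindDomain D.O] [NeZero m] in
/-- if `m` is a unit the character is trivial -/
private theorem et_unit (ψ : Hk D m) (h : IsUnit (m : D.O)) (x : D.O) : ψ.eta x = 1 := by
  classical
  have hc : Cp m x := by
    obtain ⟨b, hb⟩ := h.exists_left_inv
    exact ⟨0, b, by rw [hb]; ring⟩
  by_cases hx : x = 0
  · unfold Hk.eta
    rw [if_pos hc, if_pos hx]
  · rw [et_cp ψ hc hx, ψ.sq x 0 hx hc h.dvd]
    exact div_self (pow_ne_zero 2 (coe_ne hx))

omit [IsDedekindDomain D.O] [NeZero m] in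
/-- elements prime to `m` are not zero if `m` is not a unit -/
private theorem et_ne0 (h : ¬ IsUnit (m : D.O)) {x : D.O} (hx : Cp m x) : x ≠ 0 := by
  rintro rfl
  exact h (isCoprime_zero_left.1 hx)

omit [IsDedekindDomain D.O] [NeZero m] in
private theorem et_span_mul (ψ : Hk D m) (x y : D.O) :
    ψ.f (Ideal.span {x * y}) = ψ.f (Ideal.span {x}) * ψ.f (Ideal.span {y}) := by
  rw [← Ideal.span_singleton_mul_span_singleton, ψ.mul]

omit [IsDedekindDomain D.O] [NeZero m] in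
private theorem et_cpm {x y : D.O} : Cp m (x * y) ↔ Cp m x ∧ Cp m y :=
  IsCoprime.mul_left_iff

omit [IsDedekindDomain D.O] [NeZero m] in
private theorem et_cpp {x : D.O} (y : D.O) : Cp m (x + (m : D.O) * y) ↔ Cp m x :=
  IsCoprime.add_mul_left_left_iff

/-- the character `η` -/
def Hk.hc (ψ : Hk D m) : Hc D m where
  f := ψ.eta
  mul x y := by
    by_cases hu : IsUnit (m : D.O)
    · rw [et_unit ψ hu, et_unit ψ hu, et_unit ψ hu, one_mul]
    · by_cases hxy : Cp m (x * y)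
      · obtain ⟨hx, hy⟩ := et_cpm.1 hxy
        have hx0 := et_ne0 hu hx
        have hy0 := et_ne0 hu hy
        rw [et_cp ψ hxy (mul_ne_zero hx0 hy0), et_cp ψ hx hx0, et_cp ψ hy hy0, et_span_mul]
        have h1 := coe_ne hx0
        have h2 := coe_ne hy0
        rw [Subring.coe_mul]
        field_simp
      · rw [et_zr ψ hxy]
        by_cases hx : Cp m x
        · have hy : ¬ Cp m y := fun hy => hxy (et_cpm.2 ⟨hx, hy⟩)
          rw [et_zr ψ hy, mul_zero]
        · rw [et_zr ψ hx, zero_mul]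
  one := by
    have hc : Cp m (1 : D.O) := isCoprime_one_left
    rw [et_cp ψ hc one_ne_zero, ψ.sq 1 1 one_ne_zero hc (by simp)]
    simp
  per x y := by
    by_cases hu : IsUnit (m : D.O)
    · rw [et_unit ψ hu, et_unit ψ hu]
    · by_cases hx : Cp m x
      · have hx' : Cp m (x + (m : D.O) * y) := (et_cpp y).2 hx
        have hx0 := et_ne0 hu hx
        have hx0' := et_ne0 hu hx'
        rw [et_cp ψ hx hx0, et_cp ψ hx' hx0']
        obtain ⟨z, b, hz⟩ := hx
        have hcz : Cp m z := ⟨x, b, by rw [← hz]; ring⟩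
        have hz0 := et_ne0 hu hcz
        have h1 : ψ.f (Ideal.span {z * x}) = ((z * x : D.O) : ℂ) ^ 2 := by
          refine ψ.sq (z * x) 1 (mul_ne_zero hz0 hx0) (et_cpm.2 ⟨hcz, ⟨z, b, hz⟩⟩) ?_
          refine ⟨-b, ?_⟩
          rw [Int.cast_one, ← hz]
          ring
        have h2 : ψ.f (Ideal.span {z * (x + m * y)}) = ((z * (x + m * y) : D.O) : ℂ) ^ 2 := by
          refine ψ.sq (z * (x + m * y)) 1 (mul_ne_zero hz0 hx0') (et_cpm.2 ⟨hcz, hx'⟩) ?_
          refine ⟨z * y - b, ?_⟩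
          rw [Int.cast_one, ← hz]
          ring
        rw [et_span_mul, Subring.coe_mul, mul_pow] at h1 h2
        have hzc := coe_ne hz0
        have hxc := coe_ne hx0
        have hxc' := coe_ne hx0'
        have hf : ψ.f (Ideal.span {z}) ≠ 0 := by
          intro h0
          rw [h0, zero_mul] at h1
          exact mul_ne_zero (pow_ne_zero 2 hzc) (pow_ne_zero 2 hxc) h1.symm
        rw [div_eq_div_iff (pow_ne_zero 2 hxc') (pow_ne_zero 2 hxc)]
        apply mul_left_cancel₀ hf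
        rw [← mul_assoc, ← mul_assoc, h1, h2]
        ring
      · have hx' : ¬ Cp m (x + (m : D.O) * y) := fun h => hx ((et_cpp y).1 h)
        rw [et_zr ψ hx, et_zr ψ hx']
  zr x hx := et_zr ψ hx
  val x := by
    classical
    unfold Hk.eta
    have hO : ∀ y : D.O, (y : ℂ) ∈ D.K := fun y => ⟨1, one_pos, by simp⟩
    split_ifs
    · exact D.K.one_mem
    · exact D.K.div_mem (ψ.val _) (D.K.pow_mem (hO x) 2)
    · exact D.K.zero_mem
  int n hn := by
    classical
    by_cases h0 : ((n : ℤ) : D.O) = 0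
    · unfold Hk.eta
      rw [if_pos hn, if_pos h0]
    · rw [et_cp ψ hn h0, ψ.sq _ n h0 hn (by simp)]
      exact div_self (pow_ne_zero 2 (coe_ne h0))
  unit u := by
    have hu0 : (u : D.O) ≠ 0 := u.ne_zero
    have hc : Cp m (u : D.O) := ⟨(u⁻¹ : D.Oˣ), 0, by simp⟩
    have h1 : ψ.f (Ideal.span {(u : D.O)}) = 1 := by
      rw [Ideal.span_singleton_eq_top.2 u.isUnit, ← Ideal.span_singleton_one]
      rw [ψ.sq 1 1 one_ne_zero isCoprime_one_left (by simp)]
      simp
    rw [et_cp ψ hc hu0, h1, div_mul_cancel₀ _ (pow_ne_zero 2 (coe_ne hu0))]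
  prim q q' h hq := by
    obtain ⟨x, hx0, hc, hx, hne⟩ := ψ.prim q q' h hq
    refine ⟨x, hc, hx, fun h1 => hne ?_⟩
    rw [et_cp ψ hc hx0, div_eq_one_iff_eq (pow_ne_zero 2 (coe_ne hx0))] at h1
    exact h1

variable (ψ : Hk D m)

theorem psi_bot : ψ.f ⊥ = 0 := by
  by_contra h
  exact ((ψ.ne _).1 h).1 rfl

theorem psi_span {x : D.O} (hx : x ≠ 0) :
    ψ.f (Ideal.span {x}) = ψ.hc.f x * (x : ℂ) ^ 2 := by
  show _ = ψ.eta x * (x : ℂ) ^ 2
  by_cases hc : Cp m x
  · rw [et_cp ψ hc hx, div_mul_cancel₀ _ (pow_ne_zero 2 (coe_ne hx))]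
  · rw [et_zr ψ hc, zero_mul]
    by_contra h
    exact hc (ip_span.1 ((ψ.ne _).1 h)).2

omit [NeZero m] in
private theorem ni_top' : ni (⊤ : Ideal D.O) = 1 := ni_top.2 rfl

omit [NeZero m] in
private theorem psi_top : ψ.f ⊤ = 1 := by
  rw [← Ideal.span_singleton_one, ψ.sq 1 1 one_ne_zero isCoprime_one_left (by simp)]
  simp

omit [NeZero m] in
private theorem psi_pow (I : Ideal D.O) (k : ℕ) : ψ.f (I ^ k) = ψ.f I ^ k := by
  induction k with
  | zero => rw [pow_zero, pow_zero, Ideal.one_eq_top, psi_top]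
  | succ k ih => rw [pow_succ, ψ.mul, ih, pow_succ]

omit [NeZero m] in
private theorem ni_pow (I : Ideal D.O) (k : ℕ) : ni (I ^ k) = ni I ^ k := by
  induction k with
  | zero => rw [pow_zero, pow_zero, Ideal.one_eq_top, ni_top']
  | succ k ih => rw [pow_succ, ni_mul, ih, pow_succ]

omit [NeZero m] in
private theorem ip_pow {I : Ideal D.O} (hI : Ip m I) (k : ℕ) : Ip m (I ^ k) := by
  induction k with
  | zero =>
    rw [pow_zero]
    exact ⟨by rw [Ideal.one_eq_top]; exact top_ne_bot, isCoprime_one_left⟩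
  | succ k ih => rw [pow_succ]; exact ip_mul.2 ⟨ih, hI⟩

theorem psi_norm {I : Ideal D.O} (hI : Ip m I) : ‖ψ.f I‖ = ni I := by
  obtain ⟨k, hk, x, hx, hkx⟩ := pow_pr hI.1
  have hc : Cp m x := (ip_span.1 (hkx ▸ ip_pow hI k)).2
  have h1 : ‖ψ.f I‖ ^ k = (ni I : ℝ) ^ k := by
    rw [← norm_pow, ← psi_pow, hkx, psi_span ψ hx, norm_mul, Hc.norm _ hc, one_mul, norm_pow,
      ← nn_real, ← ni_span, ← hkx, ni_pow]
    push_cast
    rfl
  exact (pow_left_inj₀ (norm_nonneg _) (Nat.cast_nonneg _) hk.ne').1 h1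

theorem psi_nsq {I : Ideal D.O} (hI : Ip m I) :
    ψ.f I * (starRingEnd ℂ) (ψ.f I) = ((ni I : ℕ) : ℂ) ^ 2 := by
  rw [Complex.mul_conj, Complex.normSq_eq_norm_sq, psi_norm ψ hI]
  push_cast
  rfl

theorem psi_ci (I : Ideal D.O) : ψ.f (ci I) = (starRingEnd ℂ) (ψ.f I) := by
  by_cases hI : Ip m I
  · have h0 : ψ.f I ≠ 0 := (ψ.ne I).2 hI
    have h1 : Ip m (I * ci I) := ip_mul.2 ⟨hI, ci_ip.2 hI⟩
    rw [mul_ci] at h1
    obtain ⟨h2, h3⟩ := ip_span.1 h1
    have h4 : ψ.f (Ideal.span {((ni I : ℕ) : D.O)}) = (((ni I : ℕ) : D.O) : ℂ) ^ 2 := by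
      refine ψ.sq _ (ni I : ℤ) h2 h3 ?_
      rw [Int.cast_natCast, sub_self]
      exact dvd_zero _
    have h5 := psi_nsq ψ hI
    rw [← mul_ci, ψ.mul] at h4
    have h6 : (((ni I : ℕ) : D.O) : ℂ) = ((ni I : ℕ) : ℂ) := by simp
    rw [h6, ← h5] at h4
    exact mul_left_cancel₀ h0 h4
  · have h1 : ψ.f I = 0 := by
      by_contra h
      exact hI ((ψ.ne I).1 h)
    have h2 : ψ.f (ci I) = 0 := by
      by_contra h
      exact hI (ci_ip.1 ((ψ.ne _).1 h))
    rw [h1, h2, map_zero]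

private theorem psi_le (I : Ideal D.O) : ‖ψ.f I‖ ≤ ni I := by
  by_cases hI : Ip m I
  · rw [psi_norm ψ hI]
  · have h1 : ψ.f I = 0 := by
      by_contra h
      exact hI ((ψ.ne I).1 h)
    rw [h1, norm_zero]
    exact Nat.cast_nonneg _

theorem psi_summable {s : ℝ} (hs : 2 < s) :
    Summable (fun I : Ideal D.O => ‖ψ.f I‖ * ((ni I : ℕ) : ℝ) ^ (-s)) := by
  refine Summable.of_nonneg_of_le (fun I => by positivity) (fun I => ?_)
    (ni_summable (D := D) (s := s - 1) (by linarith))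
  by_cases h : ni I = 0
  · have h1 : I = ⊥ := by
      by_contra h1
      exact ni_ne.2 h1 h
    rw [h1, psi_bot, norm_zero, zero_mul]
    positivity
  · have h1 : (0 : ℝ) < ni I := by exact_mod_cast Nat.pos_of_ne_zero h
    calc ‖ψ.f I‖ * ((ni I : ℕ) : ℝ) ^ (-s) ≤ ((ni I : ℕ) : ℝ) * ((ni I : ℕ) : ℝ) ^ (-s) :=
          mul_le_mul_of_nonneg_right (psi_le ψ I) (by positivity)
      _ = ((ni I : ℕ) : ℝ) ^ (-(s - 1)) := by
          rw [show -(s - 1) = 1 + -s by ring, Real.rpow_add h1, Real.rpow_one]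

private theorem ni_cube_summable :
    Summable (fun I : Ideal D.O => (((ni I : ℕ) : ℝ) ^ 3)⁻¹) := by
  have h := ni_summable (D := D) (s := 3) (by norm_num)
  refine h.congr fun I => ?_
  rw [Real.rpow_neg (Nat.cast_nonneg _)]
  congr 1
  exact Real.rpow_natCast _ 3

private theorem Lps_norm (I : Ideal D.O) :
    ‖(ψ.f I)⁻¹ / ((ni I : ℕ) : ℂ) ^ 2‖ ≤ (((ni I : ℕ) : ℝ) ^ 3)⁻¹ := by
  by_cases hI : Ip m I
  · rw [norm_div, norm_inv, psi_norm ψ hI, norm_pow, Complex.norm_natCast]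
    rw [div_eq_mul_inv, ← mul_inv]
    apply le_of_eq
    congr 1
    ring
  · have h1 : ψ.f I = 0 := by
      by_contra h
      exact hI ((ψ.ne I).1 h)
    rw [h1, inv_zero, zero_div, norm_zero]
    positivity

private theorem Eps_norm (I : Ideal D.O) :
    ‖ψ.f I / ((ni I : ℕ) : ℂ) ^ 4‖ ≤ (((ni I : ℕ) : ℝ) ^ 3)⁻¹ := by
  by_cases h : ni I = 0
  · rw [h, Nat.cast_zero, zero_pow (by norm_num), div_zero, norm_zero]
    positivity
  · have h1 : (0 : ℝ) < ni I := by exact_mod_cast Nat.pos_of_ne_zero h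
    rw [norm_div, norm_pow, Complex.norm_natCast, div_le_iff₀ (by positivity)]
    calc ‖ψ.f I‖ ≤ ni I := psi_le ψ I
      _ = (((ni I : ℕ) : ℝ) ^ 3)⁻¹ * ((ni I : ℕ) : ℝ) ^ 4 := by
        field_simp

theorem Lps_summable : Summable (fun I : Ideal D.O => (ψ.f I)⁻¹ / ((ni I : ℕ) : ℂ) ^ 2) :=
  Summable.of_norm_bounded ni_cube_summable (Lps_norm ψ)

theorem Eps_summable : Summable (fun I : Ideal D.O => ψ.f I / ((ni I : ℕ) : ℂ) ^ 4) :=
  Summable.of_norm_bounded ni_cube_summable (Eps_norm ψ)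

theorem Lps_conj : (starRingEnd ℂ) (Lps ψ) = Eps ψ := by
  unfold Lps Eps
  rw [Complex.conj_tsum]
  refine tsum_congr fun I => ?_
  by_cases hI : Ip m I
  · have h0 : ψ.f I ≠ 0 := (ψ.ne I).2 hI
    have h1 := psi_nsq ψ hI
    have h2 : ((ni I : ℕ) : ℂ) ≠ 0 := by
      intro h
      rw [h, zero_pow two_ne_zero, mul_eq_zero, map_eq_zero] at h1
      exact h0 (h1.elim id id)
    rw [map_div₀, map_pow, Complex.conj_natCast, map_inv₀]
    have h3 : (starRingEnd ℂ) (ψ.f I) ≠ 0 := by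
      rw [Ne, map_eq_zero]
      exact h0
    rw [show ((ni I : ℕ) : ℂ) ^ 4 = ((ni I : ℕ) : ℂ) ^ 2 * ((ni I : ℕ) : ℂ) ^ 2 by ring, ← h1]
    field_simp
  · have h1 : ψ.f I = 0 := by
      by_contra h
      exact hI ((ψ.ne I).1 h)
    rw [h1]
    simp

theorem Eps_real : (starRingEnd ℂ) (Eps ψ) = Eps ψ := by
  unfold Eps
  rw [Complex.conj_tsum]
  let e : Ideal D.O ≃ Ideal D.O := ⟨ci, ci, ci_ci, ci_ci⟩
  rw [← Equiv.tsum_eq e (fun I : Ideal D.O => ψ.f I / ((ni I : ℕ) : ℂ) ^ 4)]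
  refine tsum_congr fun I => ?_
  show _ = ψ.f (ci I) / ((ni (ci I) : ℕ) : ℂ) ^ 4
  rw [psi_ci, ni_ci, map_div₀, map_pow, Complex.conj_natCast]

/-! ### a completely multiplicative series is not zero -/

omit [NeZero m] in
open Classical in
private theorem sieve {G : Ideal D.O → ℂ} (hG : Summable G)
    (hmul : ∀ I J, G (I * J) = G I * G J) (hs : ∑' I, G I = 0) (T : Finset (Ideal D.O)) :
    (∀ P ∈ T, Prime P) →
    Summable (fun I : Ideal D.O => if ∀ P ∈ T, ¬ P ∣ I then G I else 0) ∧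
      ∑' I : Ideal D.O, (if ∀ P ∈ T, ¬ P ∣ I then G I else 0) = 0 := by
  induction T using Finset.induction_on with
  | empty =>
    intro _
    simpa using ⟨hG, hs⟩
  | insert P T hP ih =>
    intro hT
    have hPp : Prime P := hT P (Finset.mem_insert_self _ _)
    obtain ⟨h1, h2⟩ := ih fun Q hQ => hT Q (Finset.mem_insert_of_mem hQ)
    set f : Ideal D.O → ℂ := fun I => if ∀ Q ∈ T, ¬ Q ∣ I then G I else 0 with hf
    have hinj : Function.Injective (fun J : Ideal D.O => P * J) := mul_right_injective₀ hPp.ne_zero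
    set g : Ideal D.O → ℂ := fun I => if P ∣ I then f I else 0 with hg
    have hg1 : Summable g := by
      have h3 := h1.indicator {I | P ∣ I}
      refine h3.congr fun I => ?_
      by_cases h4 : P ∣ I
      · rw [Set.indicator_of_mem (show I ∈ {I | P ∣ I} from h4)]
        simp only [hg]
        rw [if_pos h4]
      · rw [Set.indicator_of_notMem (show I ∉ {I | P ∣ I} from h4)]
        simp only [hg]
        rw [if_neg h4]
    have hfP : ∀ J, f (P * J) = G P * f J := by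
      intro J
      have h3 : (∀ Q ∈ T, ¬ Q ∣ P * J) ↔ ∀ Q ∈ T, ¬ Q ∣ J := by
        refine forall₂_congr fun Q hQ => not_congr ⟨fun h => ?_, fun h => h.mul_left P⟩
        have hQp : Prime Q := hT Q (Finset.mem_insert_of_mem hQ)
        rcases hQp.dvd_or_dvd h with h4 | h4
        · exfalso
          have h5 : Q = P := associated_iff_eq.1 ((hQp.dvd_prime_iff_associated hPp).1 h4)
          exact hP (h5 ▸ hQ)
        · exact h4
      simp only [hf, h3, hmul]
      split_ifs <;> simp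
    have hg2 : ∑' I, g I = 0 := by
      have h3 : ∑' J, g (P * J) = ∑' I, g I := by
        refine hinj.tsum_eq fun I hI => ?_
        by_contra h
        apply hI
        simp only [hg]
        rw [if_neg]
        rintro ⟨J, rfl⟩
        exact h ⟨J, rfl⟩
      rw [← h3]
      have h4 : ∀ J, g (P * J) = G P * f J := by
        intro J
        simp only [hg]
        rw [if_pos (dvd_mul_right P J), hfP]
      simp_rw [h4]
      rw [tsum_mul_left, h2, mul_zero]
    have h3 : (fun I : Ideal D.O => if ∀ Q ∈ insert P T, ¬ Q ∣ I then G I else 0) =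
        fun I => f I - g I := by
      funext I
      simp only [hf, hg, Finset.forall_mem_insert]
      by_cases h4 : P ∣ I
      · simp [h4]
      · simp [h4]
    rw [h3]
    exact ⟨h1.sub hg1, by rw [h1.tsum_sub hg1, h2, hg2, sub_zero]⟩

omit [NeZero m] in
open Classical in
private theorem tsum_ne {G : Ideal D.O → ℂ} (hG : Summable (fun I => ‖G I‖)) (h0 : G ⊥ = 0)
    (h1 : G ⊤ = 1) (hmul : ∀ I J, G (I * J) = G I * G J) : ∑' I, G I ≠ 0 := by
  intro hs
  obtain ⟨F, hF⟩ := ((tendsto_tsum_compl_atTop_zero (fun I : Ideal D.O => ‖G I‖)).eventually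
    (gt_mem_nhds (show (0 : ℝ) < 1 by norm_num))).exists
  set X : ℕ := F.sup ni with hX
  set T : Finset (Ideal D.O) := (ni_fin (D := D) X).toFinset.filter Prime with hT
  obtain ⟨h2, h3⟩ := sieve hG.of_norm hmul hs T fun P hP => by
    rw [hT, Finset.mem_filter] at hP
    exact hP.2
  set f : Ideal D.O → ℂ := fun I => if ∀ Q ∈ T, ¬ Q ∣ I then G I else 0 with hf
  have h4 : HasSum f 0 := by rw [← h3]; exact h2.hasSum
  have h5 : HasSum (fun I : Ideal D.O => if I = ⊤ then (1 : ℂ) else 0) 1 := by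
    have := hasSum_ite_eq (⊤ : Ideal D.O) (1 : ℂ)
    exact this
  have h6 := h4.sub h5
  have h7 : Summable (fun I : Ideal D.O => Set.indicator {I | I ∉ F} (fun I => ‖G I‖) I) :=
    hG.indicator _
  have h8 : ∀ I : Ideal D.O, ‖f I - (if I = ⊤ then (1 : ℂ) else 0)‖ ≤
      Set.indicator {I | I ∉ F} (fun I => ‖G I‖) I := by
    intro I
    by_cases hI : I = ⊤
    · have h9 : ∀ Q ∈ T, ¬ Q ∣ I := by
        intro Q hQ hd
        rw [hT, Finset.mem_filter] at hQ
        rw [hI, ← Ideal.one_eq_top] at hd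
        exact hQ.2.not_isUnit (isUnit_of_dvd_one hd)
      have h10 : f I = 1 := by
        simp only [hf]
        rw [if_pos h9, hI, h1]
      rw [h10, if_pos hI, sub_self, norm_zero]
      exact Set.indicator_nonneg (fun _ _ => norm_nonneg _) _
    · rw [if_neg hI, sub_zero]
      by_cases hb : I = ⊥
      · have h10 : f I = 0 := by
          simp only [hf, hb, h0, ite_self]
        rw [h10, norm_zero]
        exact Set.indicator_nonneg (fun _ _ => norm_nonneg _) _
      · by_cases hIF : I ∈ F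
        · have h10 : f I = 0 := by
            simp only [hf]
            rw [if_neg]
            push Not
            obtain ⟨P, hP, hPI⟩ := WfDvdMonoid.exists_irreducible_factor
              (a := I) (by rwa [Ideal.isUnit_iff]) hb
            have hPp : Prime P := hP.prime
            refine ⟨P, ?_, hPI⟩
            rw [hT, Finset.mem_filter, Set.Finite.mem_toFinset]
            refine ⟨⟨hPp.ne_zero, ?_⟩, hPp⟩
            have h11 : ni I ≤ X := Finset.le_sup hIF
            refine le_trans ?_ h11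
            obtain ⟨J, rfl⟩ := hPI
            rw [ni_mul]
            refine Nat.le_mul_of_pos_right _ (Nat.pos_of_ne_zero (ni_ne.2 ?_))
            rintro rfl
            exact hb (Ideal.mul_bot P)
          rw [h10, norm_zero]
          exact Set.indicator_nonneg (fun _ _ => norm_nonneg _) _
        · rw [Set.indicator_of_mem (show I ∈ {I | I ∉ F} from hIF)]
          simp only [hf]
          split_ifs
          · exact le_rfl
          · rw [norm_zero]
            exact norm_nonneg _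
  have h9 := tsum_of_norm_bounded h7.hasSum h8
  rw [h6.tsum_eq, zero_sub, norm_neg, norm_one] at h9
  have h10 : ∑' I : {I : Ideal D.O // I ∉ F}, ‖G I‖ =
      ∑' I : Ideal D.O, Set.indicator {I | I ∉ F} (fun I => ‖G I‖) I :=
    tsum_subtype {I | I ∉ F} (fun I => ‖G I‖)
  rw [← h10] at h9
  exact absurd h9 (not_le.2 hF)

theorem Eps_ne : Eps ψ ≠ 0 := by
  unfold Eps
  refine tsum_ne ?_ ?_ ?_ ?_
  · exact (Eps_summable ψ).norm
  · rw [psi_bot, zero_div]
  · rw [psi_top, ni_top']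
    simp
  · intro I J
    rw [ψ.mul, ni_mul]
    push_cast
    rw [mul_pow, mul_div_mul_comm]

private theorem lps_term {I b : Ideal D.O} {x : D.O} (hIm : Ip m I) (hx : x ≠ 0)
    (hb : I * b = Ideal.span {x}) :
    ψ.f I * ((ni I : ℕ) : ℂ) ^ 2 * ((starRingEnd ℂ) (ψ.hc.f x) *
      ((x : ℂ) ^ 4 * (starRingEnd ℂ) (x : ℂ) ^ 2)⁻¹) = (ψ.f b)⁻¹ / ((ni b : ℕ) : ℂ) ^ 2 := by
  have hfI : ψ.f I ≠ 0 := (ψ.ne I).2 hIm
  have h1 : ψ.f I * ψ.f b = ψ.hc.f x * (x : ℂ) ^ 2 := by
    rw [← ψ.mul, hb, psi_span ψ hx]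
  have hxc := coe_ne hx
  have hxcc : (starRingEnd ℂ) (x : ℂ) ≠ 0 := by
    rw [Ne, map_eq_zero]
    exact hxc
  by_cases hc : Cp m x
  · have h2 : (starRingEnd ℂ) (ψ.hc.f x) * ψ.hc.f x = 1 := by
      rw [mul_comm, Complex.mul_conj, Complex.normSq_eq_norm_sq, Hc.norm _ hc]
      simp
    have hex : ψ.hc.f x ≠ 0 := right_ne_zero_of_mul_eq_one h2
    have hfb : ψ.f b ≠ 0 := by
      intro h0
      rw [h0, mul_zero] at h1
      exact mul_ne_zero hex (pow_ne_zero 2 hxc) h1.symm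
    have h3 : (x : ℂ) * (starRingEnd ℂ) (x : ℂ) = ((ni I : ℕ) : ℂ) * ((ni b : ℕ) : ℂ) := by
      rw [nn_mul_cj, ← ni_span, ← hb, ni_mul]
      push_cast
      rfl
    have h4 : ((ni I : ℕ) : ℂ) ≠ 0 := by
      exact_mod_cast ni_ne.2 hIm.1
    have h5 : ((ni b : ℕ) : ℂ) ≠ 0 := by
      intro h0
      rw [h0, mul_zero] at h3
      exact mul_ne_zero hxc hxcc h3
    have h6 : (starRingEnd ℂ) (ψ.hc.f x) = (x : ℂ) ^ 2 / (ψ.f I * ψ.f b) := by
      rw [h1, eq_div_iff (mul_ne_zero hex (pow_ne_zero 2 hxc)), ← mul_assoc, h2, one_mul]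
    rw [h6]
    have h7 : (x : ℂ) ^ 4 * (starRingEnd ℂ) (x : ℂ) ^ 2 = (x : ℂ) ^ 2 *
        (((ni I : ℕ) : ℂ) * ((ni b : ℕ) : ℂ)) ^ 2 := by
      rw [← h3]
      ring
    rw [h7]
    field_simp
  · have h2 : ψ.hc.f x = 0 := ψ.hc.zr x hc
    rw [h2, zero_mul] at h1
    have h3 : ψ.f b = 0 := (mul_eq_zero.1 h1).resolve_left hfI
    rw [h2, h3, map_zero]
    simp

open Classical in
/-- the line sum over the representatives -/
theorem lps_sum {M : ℕ} (hm : m ∣ M) (S : Rp D M) :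
    ∑ I ∈ S.s, ψ.f I * ((ni I : ℕ) : ℂ) ^ 2 * ∑' x : D.O, (if x ∈ I then
      ψ.hc.br.f x * ((x : ℂ) ^ 4 * (starRingEnd ℂ) (x : ℂ) ^ 2)⁻¹ else 0) =
      wn D * Lps ψ := by
  have h := (class_sum S (G := fun b : Ideal D.O => (ψ.f b)⁻¹ / ((ni b : ℕ) : ℂ) ^ 2)
    (Lps_summable ψ) (by rw [psi_bot, inv_zero, zero_div])
    (g := fun I x => ψ.f I * ((ni I : ℕ) : ℂ) ^ 2 * (if x ∈ I then
      ψ.hc.br.f x * ((x : ℂ) ^ 4 * (starRingEnd ℂ) (x : ℂ) ^ 2)⁻¹ else 0)) ?_ ?_).2
  · rw [← Lps] at h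
    rw [← h]
    refine Finset.sum_congr rfl fun I _ => ?_
    rw [tsum_mul_left]
  · rintro I - x (rfl | hx)
    · simp
    · simp only [if_neg hx, mul_zero]
  · intro I hI x b hx hb
    have hIm : Ip m I := ip_dvd hm (S.cp I hI)
    have hxI : x ∈ I := by
      have h1 : x ∈ I * b := by
        rw [hb]
        exact Ideal.mem_span_singleton_self x
      exact (Ideal.mul_le_left : I * b ≤ I) h1
    simp only [if_pos hxI]
    exact lps_term ψ hIm hx hb

end

end RNG
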