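import Pool.Agent.RNG.Cg
import Pool.Agent.RNE.Kd
import Pool.Agent.RN2.Defs

/-!
# RNG.Lig: the lattices `ℤ + ℤ (ω + j) / A` and the ideals `(A, ω + j)`

`p = (A, j)`, `Lt D N p`: `A > 0`, `A ∣ nm (j, 1) = |ω + j|²`, `A` prime to `N`; `lb D p` is the form `(A, t + 2 j, nm (j, 1) / A)`, its lattice is `ℤ + ℤ τ_p`,
`τ_p = (ω + j) / A`, `L_p ⊇ O`. `li D p = (A, ω + j) = A ℤ + (ω + j) ℤ`.
* `mm_li`: `mm b n = n.1 - n.2 τ̄_p`, so `A mm b n = A n.1 - n.2 (ω̄ + j)`, and `ci (li D p) = A ℤ + (ω̄ + j) ℤ`.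
* `ch_re`: `re p k = (k1 + j A' k2, A' k2)`, `A A' ≡ 1` mod `N`: `tp (toU D.a) (re p k) ≡ tp (lb D p) k` mod `L_p` (`A' k2 (ω + j) - k2 τ_p = k2 τ_p (A A' - 1) ∈ N L_p`); `ch b n` is
  `L_p`-periodic, `kap (lb D p) = A kap (toU D.a)`, `pss D z = exp (kap (toU D.a) (z - z̄))`.
* `re_sm`: multiplication by the element `d.1 + d.2 ω = (d.1 - j d.2) + d.2 A τ_p` (`UNL.alp b = A τ`); direct computation in `ZMod N`.
* `ex_li`: a nonzero ideal `I` has a `ℤ`-basis `a, b + c ω` with `c > 0` the smallest positive `ω`-coordinate, `a > 0` the smallest positive integer in `I`; `c ∣ a` (`a ω ∈ I`), `c ∣ b`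
  (`(b + c ω) ω = -c nm.. + (b + c t) ω`), so `I = c (A, ω + j)`; `A ∣ nm(j, 1)` since `(ω + j)(ω̄ + j) ∈ I / c`. `ni I = c² A` is prime to `N` (`ip_iff`).
* `ex`: representatives: `rp_ex` and `ex_li`; `li D p` is in the class of `I = (c) li D p`. Choose one `p` for each representative (`Classical.choose`); `un` from `un` of `Rp`.
-/

open RNK

namespace RNG

noncomputable section

variable {D : RNP.OD} {N : ℕ} {p : ℕ × ℤ}

/-! ### the form -/

private theorem lg_A (h : Lt D N p) : (lb D p).A = p.1 := by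
  rw [lb, dif_pos ⟨h.1, h.2.1⟩]

private theorem lg_B (h : Lt D N p) : (lb D p).B = D.a.t + 2 * p.2 := by
  rw [lb, dif_pos ⟨h.1, h.2.1⟩]

private theorem lg_C (h : Lt D N p) : (lb D p).C = UNI.nm D.a (p.2, 1) / p.1 := by
  rw [lb, dif_pos ⟨h.1, h.2.1⟩]

private theorem lg_AC (h : Lt D N p) :
    (p.1 : ℤ) * (lb D p).C = p.2 ^ 2 + D.a.t * p.2 + D.a.n := by
  rw [lg_C h, Int.mul_ediv_cancel' h.2.1]
  simp only [UNI.nm]
  ring

private theorem lg_sD (h : Lt D N p) : UNL.sD (lb D p) = Real.sqrt (4 * D.a.n - D.a.t ^ 2) := by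
  rw [UNL.sD]
  congr 1
  have h1 := lg_AC h
  have h2 : ((p.1 : ℕ) : ℝ) * ((lb D p).C : ℝ) = (p.2 : ℝ) ^ 2 + D.a.t * p.2 + D.a.n := by
    exact_mod_cast h1
  rw [lg_A h, lg_B h]
  push_cast
  linear_combination 4 * h2

private theorem lg_sD0 (D : RNP.OD) : UNL.sD (toU D.a) = Real.sqrt (4 * D.a.n - D.a.t ^ 2) := by
  rw [UNL.sD]
  simp [toU]

theorem lt_one (D : RNP.OD) (N : ℕ) : Lt D N (1, 0) :=
  ⟨one_pos, by simp, Nat.coprime_one_left N⟩

theorem lb_one (D : RNP.OD) : lb D (1, 0) = toU D.a := by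
  have h := lt_one D 1
  rw [lb, dif_pos ⟨h.1, h.2.1⟩]
  simp [toU, UNI.nm]

theorem re_one (k : UNL.G N) : re (1, 0) k = k := by
  refine Prod.ext ?_ ?_
  · simp [re]
  · simp [re, ZMod.inv_one]

theorem lb_A (h : Lt D N p) : (lb D p).A = p.1 := lg_A h

theorem lb_tau (h : Lt D N p) : ((p.1 : ℕ) : ℂ) * UNL.tau (lb D p) = UNI.om D.a + p.2 := by
  have h0 : ((p.1 : ℕ) : ℂ) ≠ 0 := by exact_mod_cast h.1.ne'
  rw [UNL.tau, lg_sD h, lg_A h, lg_B h, UNI.om]
  push_cast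
  field_simp
  ring

theorem lb_kap (h : Lt D N p) : UNL.kap (lb D p) = p.1 * UNL.kap (toU D.a) := by
  rw [UNL.kap, UNL.kap, lg_sD h, lg_sD0, lg_A h]
  simp only [toU]
  push_cast
  ring

/-! ### the ideal -/

/-- `(ω + j)²` -/
private theorem lg_sq (h : Lt D N p) :
    (UNI.om D.a + p.2) ^ 2 = (D.a.t + 2 * p.2) * (UNI.om D.a + p.2) -
      (p.1 : ℂ) * ((lb D p).C : ℂ) := by
  have h1 := om_sq D.a
  have h2 : ((p.1 : ℕ) : ℂ) * ((lb D p).C : ℂ) = (p.2 : ℂ) ^ 2 + D.a.t * p.2 + D.a.n := by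
    have h3 := lg_AC h
    exact_mod_cast h3
  linear_combination h1 + h2

private theorem lg_el (D : RNP.OD) (j : ℤ) : ((el D (j, 1) : D.O) : ℂ) = UNI.om D.a + j := by
  show UNI.xx D.a (j, 1) = _
  simp only [UNI.xx]
  push_cast
  ring

private theorem lg_x (x : D.O) : (x : ℂ) = (cod D x).1 + (cod D x).2 * UNI.om D.a :=
  (xx_cod D x).symm

theorem mem_li (h : Lt D N p) (x : D.O) :
    x ∈ li D p ↔ ∃ a b : ℤ, x = (a : D.O) * ((p.1 : ℕ) : D.O) + (b : D.O) * el D (p.2, 1) := by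
  rw [li, Ideal.mem_span_pair]
  constructor
  · rintro ⟨u, v, rfl⟩
    refine ⟨((cod D u).1 - p.2 * (cod D u).2) - (cod D v).2 * (lb D p).C,
      (cod D u).2 * p.1 + (cod D v).1 - p.2 * (cod D v).2 + (D.a.t + 2 * p.2) * (cod D v).2,
      Subtype.ext ?_⟩
    have h1 := lg_sq h
    simp only [Subring.coe_natCast, Subring.coe_add, Subring.coe_mul,
        Subring.coe_intCast, lg_el]
    push_cast
    rw [lg_x u, lg_x v]
    linear_combination ((cod D v).2 : ℂ) * h1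
  · rintro ⟨a, b, rfl⟩
    exact ⟨_, _, rfl⟩

private theorem lg_mem (D : RNP.OD) (p : ℕ × ℤ) : ((p.1 : ℕ) : D.O) ∈ li D p :=
  Ideal.subset_span (by simp)

private theorem lg_nat {n : ℕ} (hn : 0 < n) : ((n : ℕ) : D.O) ≠ 0 := by
  intro h1
  have h2 := congrArg (fun y : D.O => (y : ℂ)) h1
  simp only [Subring.coe_natCast, Subring.coe_zero] at h2
  have h3 : n = 0 := by exact_mod_cast h2
  exact hn.ne' h3

theorem li_ne (h : Lt D N p) : li D p ≠ ⊥ := by
  intro h1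
  have h2 := lg_mem D p
  rw [h1, Ideal.mem_bot] at h2
  exact lg_nat h.1 h2

/-- independence -/
private theorem lg_ind {x y : ℤ} {j : ℤ} (h : (x : ℂ) + y * (UNI.om D.a + j) = 0) :
    x = 0 ∧ y = 0 := by
  have h1 : el D (x + y * j, y) = 0 := by
    refine Subtype.ext ?_
    show UNI.xx D.a (x + y * j, y) = _
    simp only [UNI.xx]
    push_cast
    rw [← h]
    ring
  have h2 : cod D (el D (x + y * j, y)) = cod D (el D (0 : ℤ × ℤ)) := by
    rw [h1, el_zero]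
  rw [cod_el, cod_el] at h2
  have h3 : y = 0 := congrArg Prod.snd h2
  have h4 : x + y * j = 0 := congrArg Prod.fst h2
  rw [h3, zero_mul, add_zero] at h4
  exact ⟨h4, h3⟩

theorem ni_li (h : Lt D N p) : ni (li D p) = p.1 := by
  have : NeZero p.1 := ⟨h.1.ne'⟩
  unfold ni
  have hg : Function.Bijective
      (fun a : ZMod p.1 => Ideal.Quotient.mk (li D p) ((a.val : ℕ) : D.O)) := by
    constructor
    · intro a b hab
      have h1 : ((a.val : ℕ) : D.O) - ((b.val : ℕ) : D.O) ∈ li D p := Ideal.Quotient.eq.1 hab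
      rw [mem_li h] at h1
      obtain ⟨x, y, h1⟩ := h1
      have h2 := congrArg (fun y : D.O => (y : ℂ)) h1
      simp only [AddSubgroupClass.coe_sub, Subring.coe_natCast, Subring.coe_add, Subring.coe_mul,
        Subring.coe_intCast, lg_el] at h2
      have h3 : (((a.val : ℤ) - b.val - x * p.1 : ℤ) : ℂ) + ((-y : ℤ) : ℂ) *
          (UNI.om D.a + p.2) = 0 := by
        push_cast
        linear_combination h2
      have h4 := (lg_ind h3).1
      have h5 : (a.val : ℤ) = b.val + x * p.1 := by linarith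
      have h6 : (((a.val : ℤ)) : ZMod p.1) = ((b.val + x * p.1 : ℤ) : ZMod p.1) := by rw [h5]
      push_cast at h6
      rw [ZMod.natCast_zmod_val, ZMod.natCast_zmod_val, ZMod.natCast_self, mul_zero,
        add_zero] at h6
      exact h6
    · intro q
      obtain ⟨x, rfl⟩ := Ideal.Quotient.mk_surjective q
      refine ⟨(((cod D x).1 - p.2 * (cod D x).2 : ℤ) : ZMod p.1), ?_⟩
      refine Ideal.Quotient.eq.2 ?_
      rw [mem_li h]
      have h1 : (((((cod D x).1 - p.2 * (cod D x).2 : ℤ) : ZMod p.1).val : ℤ) : ZMod p.1) =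
          (((cod D x).1 - p.2 * (cod D x).2 : ℤ) : ZMod p.1) := by
        rw [Int.cast_natCast, ZMod.natCast_zmod_val]
      rw [ZMod.intCast_eq_intCast_iff_dvd_sub] at h1
      obtain ⟨z, hz⟩ := h1
      refine ⟨-z, -(cod D x).2, Subtype.ext ?_⟩
      simp only [AddSubgroupClass.coe_sub, Subring.coe_natCast, Subring.coe_add, Subring.coe_mul,
        Subring.coe_intCast, lg_el]
      rw [lg_x x]
      have h2 : (((((cod D x).1 - p.2 * (cod D x).2 : ℤ) : ZMod p.1).val : ℤ) : ℂ) =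
          ((cod D x).1 : ℂ) - p.2 * (cod D x).2 - p.1 * z := by
        have h3 : ((((cod D x).1 - p.2 * (cod D x).2 : ℤ) : ZMod p.1).val : ℤ) =
          (cod D x).1 - p.2 * (cod D x).2 - p.1 * z := by linarith
        rw [h3]
        push_cast
        ring
      rw [Int.cast_natCast] at h2
      rw [h2]
      push_cast
      ring
  rw [← Nat.card_congr (Equiv.ofBijective _ hg), Nat.card_zmod]

theorem ip_li (h : Lt D N p) : Ip N (li D p) := by
  refine ⟨li_ne h, ?_⟩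
  rw [Ideal.isCoprime_iff_exists]
  have h1 : IsCoprime (p.1 : ℤ) (N : ℤ) := Nat.isCoprime_iff_coprime.2 h.2.2
  obtain ⟨u, v, h2⟩ := h1
  refine ⟨(u : D.O) * ((p.1 : ℕ) : D.O), Ideal.mul_mem_left _ _ (lg_mem D p),
    (v : D.O) * ((N : ℕ) : D.O), Ideal.mul_mem_left _ _ (Ideal.mem_span_singleton_self _), ?_⟩
  have h3 := congrArg (fun z : ℤ => (z : D.O)) h2
  push_cast at h3
  exact h3

theorem mm_li (h : Lt D N p) : ∃ e : ℤ × ℤ ≃ {y : D.O // y ∈ ci (li D p)},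
    ∀ n, (((e n : D.O)) : ℂ) = ((p.1 : ℕ) : ℂ) * UNL.mm (lb D p) n := by
  have hm : ∀ n : ℤ × ℤ, cj (((n.1 : ℤ) : D.O) * ((p.1 : ℕ) : D.O) +
      ((-n.2 : ℤ) : D.O) * el D (p.2, 1)) ∈ ci (li D p) := by
    intro n
    show cj (cj _) ∈ li D p
    rw [cj_cj, mem_li h]
    exact ⟨_, _, rfl⟩
  let f : ℤ × ℤ → {y : D.O // y ∈ ci (li D p)} := fun n => ⟨_, hm n⟩
  have hf : ∀ n, (((f n : D.O)) : ℂ) = ((p.1 : ℕ) : ℂ) * UNL.mm (lb D p) n := by
    intro n
    have h1 : (((f n : D.O)) : ℂ) = (starRingEnd ℂ) (((((n.1 : ℤ) : D.O) * ((p.1 : ℕ) : D.O) +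
      ((-n.2 : ℤ) : D.O) * el D (p.2, 1) : D.O)) : ℂ) := rfl
    have h2 := congrArg (starRingEnd ℂ) (lb_tau h)
    rw [map_mul, Complex.conj_natCast] at h2
    rw [h1, UNL.mm]
    simp only [Subring.coe_natCast, Subring.coe_add, Subring.coe_mul,
        Subring.coe_intCast, lg_el, map_add, map_mul, Complex.conj_natCast, map_intCast] at h2 ⊢
    push_cast
    linear_combination (n.2 : ℂ) * h2
  refine ⟨Equiv.ofBijective f ⟨?_, ?_⟩, hf⟩
  · intro m n hmn
    have h1 : cj (((m.1 : ℤ) : D.O) * ((p.1 : ℕ) : D.O) + ((-m.2 : ℤ) : D.O) * el D (p.2, 1)) =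
        cj (((n.1 : ℤ) : D.O) * ((p.1 : ℕ) : D.O) + ((-n.2 : ℤ) : D.O) * el D (p.2, 1)) :=
      congrArg Subtype.val hmn
    have h2 := congrArg cj h1
    rw [cj_cj, cj_cj] at h2
    have h3 := congrArg (fun y : D.O => (y : ℂ)) h2
    simp only [Subring.coe_natCast, Subring.coe_add, Subring.coe_mul,
        Subring.coe_intCast, lg_el] at h3
    have h4 : (((m.1 - n.1) * p.1 : ℤ) : ℂ) + ((n.2 - m.2 : ℤ) : ℂ) *
        (UNI.om D.a + p.2) = 0 := by
      push_cast at h3 ⊢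
      linear_combination h3
    obtain ⟨h5, h6⟩ := lg_ind h4
    have h7 : (p.1 : ℤ) ≠ 0 := by exact_mod_cast h.1.ne'
    have h8 : m.1 - n.1 = 0 := (mul_eq_zero.1 h5).resolve_right h7
    exact Prod.ext (by linarith) (by linarith)
  · rintro ⟨y, hy⟩
    have h1 : cj y ∈ li D p := hy
    rw [mem_li h] at h1
    obtain ⟨a, b, h1⟩ := h1
    refine ⟨(a, -b), Subtype.ext ?_⟩
    show cj (((a : ℤ) : D.O) * ((p.1 : ℕ) : D.O) + ((-(-b) : ℤ) : D.O) * el D (p.2, 1)) = y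
    rw [neg_neg, ← h1, cj_cj]

/-! ### the points -/

theorem re_add (k l : UNL.G N) : re p (k + l) = re p k + re p l := by
  refine Prod.ext ?_ ?_
  · simp only [re, Prod.fst_add, Prod.snd_add]
    ring
  · simp only [re, Prod.snd_add]
    ring

theorem re_zero : re p (0 : UNL.G N) = 0 := by
  refine Prod.ext ?_ ?_ <;> simp [re]

theorem re_neg (k : UNL.G N) : re p (-k) = -re p k := by
  refine Prod.ext ?_ ?_
  · simp only [re, Prod.fst_neg, Prod.snd_neg]
    ring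
  · simp only [re, Prod.snd_neg]
    ring

theorem re_nsmul (n : ℕ) (k : UNL.G N) : re p (n • k) = n • re p k := by
  induction n with
  | zero => rw [zero_smul, zero_smul, re_zero]
  | succ n ih => rw [add_smul, add_smul, one_smul, one_smul, re_add, ih]

private theorem lg_inv (h : Lt D N p) : ((p.1 : ℕ) : ZMod N) * ((p.1 : ℕ) : ZMod N)⁻¹ = 1 :=
  ZMod.coe_mul_inv_eq_one p.1 h.2.2

theorem re_bij (h : Lt D N p) : Function.Bijective (re p : UNL.G N → UNL.G N) := by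
  have h0 := lg_inv h
  constructor
  · intro k l hkl
    have h1 : ((p.1 : ℕ) : ZMod N)⁻¹ * k.2 = ((p.1 : ℕ) : ZMod N)⁻¹ * l.2 :=
      congrArg Prod.snd hkl
    have h2 : k.1 + (p.2 : ZMod N) * ((p.1 : ℕ) : ZMod N)⁻¹ * k.2 =
        l.1 + (p.2 : ZMod N) * ((p.1 : ℕ) : ZMod N)⁻¹ * l.2 := congrArg Prod.fst hkl
    have h3 : k.2 = l.2 := by
      linear_combination ((p.1 : ℕ) : ZMod N) * h1 - (k.2 - l.2) * h0
    have h4 : k.1 = l.1 := by
      linear_combination h2 - (p.2 : ZMod N) * h1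
    exact Prod.ext h4 h3
  · intro l
    refine ⟨(l.1 - (p.2 : ZMod N) * l.2, ((p.1 : ℕ) : ZMod N) * l.2), Prod.ext ?_ ?_⟩
    · show l.1 - (p.2 : ZMod N) * l.2 + (p.2 : ZMod N) * ((p.1 : ℕ) : ZMod N)⁻¹ *
        (((p.1 : ℕ) : ZMod N) * l.2) = l.1
      linear_combination (p.2 : ZMod N) * l.2 * h0
    · show ((p.1 : ℕ) : ZMod N)⁻¹ * (((p.1 : ℕ) : ZMod N) * l.2) = l.2
      linear_combination l.2 * h0

private theorem lg_pss {x y : ℂ} (h : x - y ∈ D.O) : pss D x = pss D y := by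
  have e : x = y + (x - y) := by ring
  rw [e, pss_add, pss_O h, mul_one]

private theorem lg_dvd [NeZero N] {z : ℤ} (h : ((z : ℤ) : ZMod N) = 0) : ∃ w : ℤ, z = N * w :=
  (ZMod.intCast_zmod_eq_zero_iff_dvd z N).1 h

theorem ch_re [NeZero N] (h : Lt D N p) (n : ℤ × ℤ) (k : UNL.G N) :
    UNL.ch (lb D p) n (UNL.tp (lb D p) k) =
      pss D (((p.1 : ℕ) : ℂ) * UNL.mm (lb D p) n * UNL.tp (toU D.a) (re p k)) := by
  have hN : (N : ℂ) ≠ 0 := Nat.cast_ne_zero.2 (NeZero.ne N)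
  have hA : ((p.1 : ℕ) : ℂ) ≠ 0 := by exact_mod_cast h.1.ne'
  have h1 : UNL.ch (lb D p) n (UNL.tp (lb D p) k) =
      pss D (((p.1 : ℕ) : ℂ) * UNL.mm (lb D p) n * UNL.tp (lb D p) k) := by
    show Complex.exp _ = Complex.exp _
    congr 1
    rw [lb_kap h]
    simp only [map_mul, Complex.conj_natCast]
    push_cast
    ring
  rw [h1]
  apply lg_pss
  have h0 := lg_inv h
  obtain ⟨x, hx⟩ : ∃ x : ℤ, (k.1.val : ℤ) - ((re p k).1.val : ℤ) + p.2 * ((re p k).2.val : ℤ) =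
      N * x := by
    apply lg_dvd
    push_cast
    rw [ZMod.natCast_zmod_val, ZMod.natCast_zmod_val, ZMod.natCast_zmod_val]
    simp only [re]
    ring
  obtain ⟨y, hy⟩ : ∃ y : ℤ, (k.2.val : ℤ) - p.1 * ((re p k).2.val : ℤ) = N * y := by
    apply lg_dvd
    push_cast
    rw [ZMod.natCast_zmod_val, ZMod.natCast_zmod_val]
    simp only [re]
    linear_combination -k.2 * h0
  have hx' : (k.1.val : ℂ) - ((re p k).1.val : ℂ) + p.2 * ((re p k).2.val : ℂ) = N * x := by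
    exact_mod_cast hx
  have hy' : (k.2.val : ℂ) - p.1 * ((re p k).2.val : ℂ) = N * y := by
    exact_mod_cast hy
  have ht := lb_tau h
  have ht' := congrArg (starRingEnd ℂ) ht
  rw [map_mul, Complex.conj_natCast, map_add, map_intCast, cj_om] at ht'
  have hAC : ((p.1 : ℕ) : ℂ) * ((lb D p).C : ℂ) = (p.2 : ℂ) ^ 2 + D.a.t * p.2 + D.a.n := by
    have h3 := lg_AC h
    exact_mod_cast h3
  have hsq := om_sq D.a
  have hu : UNL.tp (lb D p) k - UNL.tp (toU D.a) (re p k) = x + y * UNL.tau (lb D p) := by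
    simp only [UNL.tp, tau_toU]
    field_simp
    have e1 : UNI.om D.a = ((p.1 : ℕ) : ℂ) * UNL.tau (lb D p) - p.2 := by rw [ht]; ring
    rw [e1]
    linear_combination hx' + UNL.tau (lb D p) * hy'
  refine ⟨(p.1 * n.1 * x - n.2 * x * (D.a.t + p.2) + n.1 * y * p.2 - n.2 * y * (lb D p).C,
    n.2 * x + n.1 * y), ?_⟩
  rw [← mul_sub, hu, UNL.mm]
  simp only [UNI.xx]
  push_cast
  apply mul_left_cancel₀ hA
  have e2 : UNL.tau (lb D p) = (UNI.om D.a + p.2) / ((p.1 : ℕ) : ℂ) := by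
    rw [← ht]
    field_simp
  have e3 : (starRingEnd ℂ) (UNL.tau (lb D p)) =
      (D.a.t - UNI.om D.a + p.2) / ((p.1 : ℕ) : ℂ) := by
    rw [← ht']
    field_simp
  rw [e3, e2]
  field_simp
  linear_combination (n.2 * y : ℂ) * hsq + (n.2 * y : ℂ) * hAC

/-- the coordinates of an element of `O` with respect to `1, ω + j` -/
def cdp (p : ℕ × ℤ) (d : ℤ × ℤ) : ℤ × ℤ := (d.1 - p.2 * d.2, d.2)

theorem de_cdp (h : Lt D N p) (d : ℤ × ℤ) :
    UNL.de (lb D p) (cdp p d) = UNL.de (toU D.a) d := by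
  have h1 : UNL.alp (lb D p) = UNI.om D.a + p.2 := by
    rw [UNL.alp, lb_A h, ← lb_tau h]
    push_cast
    rfl
  rw [de_toU, UNL.de, h1]
  simp only [cdp, UNI.xx]
  push_cast
  ring

theorem re_sm (h : Lt D N p) (d : ℤ × ℤ) (k : UNL.G N) :
    re p (UNL.sm (lb D p) (cdp p d) k) = UNL.sm (toU D.a) d (re p k) := by
  have h0 := lg_inv h
  have h1 : ((p.1 : ℕ) : ZMod N) * ((lb D p).C : ZMod N) =
      (p.2 : ZMod N) ^ 2 + D.a.t * p.2 + D.a.n := by
    have h2 := congrArg (fun z : ℤ => (z : ZMod N)) (lg_AC h)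
    push_cast at h2
    exact h2
  have hA : ((lb D p).A : ZMod N) = ((p.1 : ℕ) : ZMod N) := by
    rw [lb_A h]
    push_cast
    rfl
  have hB : ((lb D p).B : ZMod N) = (D.a.t : ZMod N) + 2 * p.2 := by
    rw [lg_B h]
    push_cast
    rfl
  refine Prod.ext ?_ ?_
  · simp only [re, UNL.sm, cdp, hA, hB, toU]
    push_cast
    linear_combination ((d.2 : ZMod N) * k.1 * p.2 + (lb D p).C * d.2 * k.2) * h0 -
      ((p.1 : ℕ) : ZMod N)⁻¹ * d.2 * k.2 * h1
  · simp only [re, UNL.sm, cdp, hA, hB, toU]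
    push_cast
    linear_combination ((d.2 : ZMod N) * k.1) * h0

/-! ### representatives -/

section ded

variable [IsDedekindDomain D.O] [NeZero N]

/-- the `ω`-coordinate as an additive map -/
private def lgS (D : RNP.OD) : D.O →+ ℤ where
  toFun x := (cod D x).2
  map_zero' := by
    have h : cod D (0 : D.O) = 0 := by rw [← el_zero, cod_el]
    rw [h]
    rfl
  map_add' x y := by
    have h : cod D (x + y) = cod D x + cod D y := by
      rw [← cod_el (D := D) (cod D x + cod D y), el_add, el_cod, el_cod]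
    rw [h]
    rfl

theorem ex_li {I : Ideal D.O} (hI : Ip N I) : ∃ c : ℕ, 0 < c ∧ Nat.Coprime c N ∧
    ∃ p : ℕ × ℤ, Lt D N p ∧ I = Ideal.span {((c : ℕ) : D.O)} * li D p := by
  have hN : 0 < N := Nat.pos_of_ne_zero (NeZero.ne N)
  obtain ⟨hI0, hco⟩ := (ip_iff hN).1 hI
  -- the integers in `I`
  obtain ⟨a, ha⟩ : ∃ a : ℕ, ∀ z : ℤ, ((z : ℤ) : D.O) ∈ I ↔ (a : ℤ) ∣ z := by
    obtain ⟨g, hg⟩ := (IsPrincipalIdealRing.principal (I.comap (Int.castRingHom D.O))).principal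
    refine ⟨g.natAbs, fun z => ?_⟩
    rw [Int.natAbs_dvd, ← Ideal.mem_span_singleton]
    show _ ↔ z ∈ Submodule.span ℤ {g}
    rw [← hg]
    rfl
  have hni : (a : ℤ) ∣ (ni I : ℤ) := by
    rw [← ha]
    have := ni_mem I
    rwa [Int.cast_natCast]
  have hni' : a ∣ ni I := by exact_mod_cast hni
  have ha0 : 0 < a := by
    rcases Nat.eq_zero_or_pos a with h | h
    · exfalso
      rw [h, zero_dvd_iff] at hni'
      exact ni_ne.2 hI0 hni'
    · exact h
  have haN : Nat.Coprime a N := Nat.Coprime.coprime_dvd_left hni' hco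
  -- the coordinates
  obtain ⟨c, hc⟩ : ∃ c : ℕ, ∀ z : ℤ, (∃ x ∈ I, (cod D x).2 = z) ↔ (c : ℤ) ∣ z := by
    obtain ⟨g, hg⟩ := (IsPrincipalIdealRing.principal
      (AddSubgroup.toIntSubmodule (AddSubgroup.map (lgS D) I.toAddSubgroup) : Ideal ℤ)).principal
    refine ⟨g.natAbs, fun z => ?_⟩
    rw [Int.natAbs_dvd, ← Ideal.mem_span_singleton]
    show _ ↔ z ∈ Submodule.span ℤ {g}
    rw [← hg]
    rfl
  have hcod : ∀ m : ℤ × ℤ, ((el D m : D.O) : ℂ) = m.1 + m.2 * UNI.om D.a := fun m => rfl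
  have hca : (c : ℤ) ∣ (a : ℤ) := by
    rw [← hc]
    refine ⟨el D (0, 1) * ((a : ℤ) : D.O), I.mul_mem_left _ ((ha a).2 dvd_rfl), ?_⟩
    have h1 : el D (0, 1) * ((a : ℤ) : D.O) = el D (0, (a : ℤ)) := by
      refine Subtype.ext ?_
      simp only [Subring.coe_mul, Subring.coe_intCast, hcod]
      push_cast
      ring
    rw [h1, cod_el]
  obtain ⟨β, hβ, hβc⟩ := (hc c).2 dvd_rfl
  have hc0 : 0 < c := by
    rcases Nat.eq_zero_or_pos c with h | h
    · exfalso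
      rw [h] at hca
      have h1 := zero_dvd_iff.1 hca
      have h2 : a = 0 := by exact_mod_cast h1
      exact ha0.ne' h2
    · exact h
  have hc0' : (c : ℤ) ≠ 0 := by exact_mod_cast hc0.ne'
  have hsq := om_sq D.a
  have hb : (c : ℤ) ∣ (cod D β).1 := by
    have h1 : (c : ℤ) ∣ (cod D β).1 + D.a.t * c := by
      rw [← hc]
      refine ⟨el D (0, 1) * β, I.mul_mem_left _ hβ, ?_⟩
      have h2 : el D (0, 1) * β = el D (-D.a.n * c, (cod D β).1 + D.a.t * c) := by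
        refine Subtype.ext ?_
        rw [Subring.coe_mul, lg_x β, hβc]
        simp only [hcod]
        push_cast
        linear_combination (c : ℂ) * hsq
      rw [h2, cod_el]
    exact (Int.dvd_add_left (Dvd.intro_left _ rfl)).1 h1
  obtain ⟨j, hj⟩ := hb
  obtain ⟨A, hA⟩ : ∃ A : ℕ, a = c * A := by
    have : c ∣ a := by exact_mod_cast hca
    exact this
  have hA0 : 0 < A := by
    rcases Nat.eq_zero_or_pos A with h | h
    · exfalso
      rw [h, mul_zero] at hA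
      exact ha0.ne' hA
    · exact h
  have hβ' : (β : ℂ) = c * (UNI.om D.a + j) := by
    rw [lg_x β, hβc, hj]
    push_cast
    ring
  have hnm : (A : ℤ) ∣ UNI.nm D.a (j, 1) := by
    have h1 : (a : ℤ) ∣ c * UNI.nm D.a (j, 1) := by
      rw [← ha]
      have h2 : ((c * UNI.nm D.a (j, 1) : ℤ) : D.O) = el D (D.a.t + j, -1) * β := by
        refine Subtype.ext ?_
        rw [Subring.coe_intCast, Subring.coe_mul, hβ', hcod]
        simp only [UNI.nm]
        push_cast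
        linear_combination (c : ℂ) * hsq
      rw [h2]
      exact I.mul_mem_left _ hβ
    rw [hA, Nat.cast_mul] at h1
    exact (mul_dvd_mul_iff_left hc0').1 h1
  have hLt : Lt D N (A, j) := ⟨hA0, hnm, Nat.Coprime.coprime_mul_left (by rwa [← hA])⟩
  refine ⟨c, hc0, Nat.Coprime.coprime_dvd_left (Dvd.intro _ hA.symm) haN, (A, j), hLt, ?_⟩
  ext x
  rw [Ideal.mem_span_singleton_mul]
  constructor
  · intro hx
    obtain ⟨y, hy⟩ := (hc (cod D x).2).1 ⟨x, hx, rfl⟩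
    have h1 : x - (y : D.O) * β ∈ I := I.sub_mem hx (I.mul_mem_left _ hβ)
    have h2 : x - (y : D.O) * β = (((cod D x).1 - y * (c * j) : ℤ) : D.O) := by
      refine Subtype.ext ?_
      rw [AddSubgroupClass.coe_sub, Subring.coe_mul, Subring.coe_intCast, Subring.coe_intCast,
        hβ', lg_x x, hy]
      push_cast
      ring
    rw [h2, ha] at h1
    obtain ⟨u, hu⟩ := h1
    refine ⟨(u : D.O) * ((A : ℕ) : D.O) + (y : D.O) * el D (j, 1), (mem_li hLt _).2 ⟨u, y, rfl⟩, ?_⟩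
    refine Subtype.ext ?_
    simp only [Subring.coe_natCast, Subring.coe_add, Subring.coe_mul,
        Subring.coe_intCast, lg_el]
    have h3 : ((cod D x).1 : ℂ) = y * (c * j) + c * A * u := by
      have h4 : (cod D x).1 = y * (c * j) + c * A * u := by
        rw [hA] at hu
        push_cast at hu
        linarith
      rw [h4]
      push_cast
      ring
    rw [lg_x x, h3, hy]
    push_cast
    ring
  · rintro ⟨z, hz, rfl⟩
    obtain ⟨u, y, rfl⟩ := (mem_li hLt _).1 hz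
    have h1 : ((c : ℕ) : D.O) * ((u : D.O) * ((A : ℕ) : D.O) + (y : D.O) * el D (j, 1)) =
        (u : D.O) * ((a : ℤ) : D.O) + (y : D.O) * β := by
      refine Subtype.ext ?_
      simp only [Subring.coe_natCast, Subring.coe_add, Subring.coe_mul,
        Subring.coe_intCast, lg_el]
      rw [hβ', hA]
      push_cast
      ring
    rw [h1]
    exact I.add_mem (I.mul_mem_left _ ((ha a).2 dvd_rfl)) (I.mul_mem_left _ hβ)

omit [IsDedekindDomain D.O] [NeZero N] in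
private theorem ie_li {I : Ideal D.O} {c : ℕ} (hc : 0 < c)
    (h : I = Ideal.span {((c : ℕ) : D.O)} * li D p) : Ie I (li D p) := by
  refine ⟨1, ((c : ℕ) : D.O), one_ne_zero, lg_nat hc, ?_⟩
  rw [Ideal.span_singleton_one, Ideal.top_mul, h]

theorem lr_ex (D : RNP.OD) [IsDedekindDomain D.O] (N : ℕ) [NeZero N] : Nonempty (Lr D N) := by
  classical
  obtain ⟨S⟩ := rp_ex (D := D) (M := N) (Nat.pos_of_ne_zero (NeZero.ne N))
  have h1 : ∀ I : S.s, ∃ p : ℕ × ℤ, Lt D N p ∧ Ie (I : Ideal D.O) (li D p) := by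
    intro I
    obtain ⟨c, hc, -, p, hp, h⟩ := ex_li (S.cp I I.2)
    exact ⟨p, hp, ie_li hc h⟩
  choose f hf using h1
  refine ⟨⟨Finset.univ.image f, ?_, ?_, ?_⟩⟩
  · intro p hp
    obtain ⟨I, -, rfl⟩ := Finset.mem_image.1 hp
    exact (hf I).1
  · intro I hI
    obtain ⟨J, hJ, h⟩ := S.ex I hI
    exact ⟨f ⟨J, hJ⟩, Finset.mem_image.2 ⟨⟨J, hJ⟩, Finset.mem_univ _, rfl⟩,
      ie_trans h (hf ⟨J, hJ⟩).2⟩
  · intro p hp q hq h
    obtain ⟨I, -, rfl⟩ := Finset.mem_image.1 hp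
    obtain ⟨J, -, rfl⟩ := Finset.mem_image.1 hq
    have h2 : Ie (I : Ideal D.O) (J : Ideal D.O) :=
      ie_trans (hf I).2 (ie_trans h (ie_symm (hf J).2))
    have h3 : I = J := Subtype.ext (S.un I I.2 J J.2 h2)
    rw [h3]

/-- the representatives `ci (li D p)` -/
def Lr.rp (Q : Lr D N) : Rp D N := by
  classical
  exact
  { s := Q.s.image (fun p => ci (li D p))
    cp := by
      intro I hI
      obtain ⟨p, hp, rfl⟩ := Finset.mem_image.1 hI
      exact ci_ip.2 (ip_li (Q.lt p hp))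
    ex := by
      intro I hI
      have h1 : ci I ≠ ⊥ := by
        rw [← ni_ne, ni_ci, ni_ne]
        exact hI
      obtain ⟨p, hp, h⟩ := Q.ex (ci I) h1
      refine ⟨ci (li D p), Finset.mem_image.2 ⟨p, hp, rfl⟩, ?_⟩
      have h2 := ci_ie h
      rwa [ci_ci] at h2
    un := by
      intro I hI J hJ h
      obtain ⟨p, hp, rfl⟩ := Finset.mem_image.1 hI
      obtain ⟨q, hq, rfl⟩ := Finset.mem_image.1 hJ
      have h2 := ci_ie h
      rw [ci_ci, ci_ci] at h2
      rw [Q.un p hp q hq h2] }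

theorem Lr.sum (Q : Lr D N) (F : Ideal D.O → ℂ) :
    ∑ I ∈ Q.rp.s, F I = ∑ p ∈ Q.s, F (ci (li D p)) := by
  classical
  have h1 : Q.rp.s = Q.s.image (fun p => ci (li D p)) := by
    unfold Lr.rp
    congr
  rw [h1, Finset.sum_image]
  intro p hp q hq h
  have h2 : li D p = li D q := by
    have h3 := congrArg ci h
    simpa only [ci_ci] using h3
  apply Q.un p hp q hq
  rw [h2]
  exact ie_refl _

end ded

end

end RNG
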