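import Pool.Agent.RNG.Hcx
import Pool.Agent.RNG.Lig

/-!
# RNG.Hgx: weights with distribution relations are closed on all lattices
-/

open RNK

namespace RNG

noncomputable section

variable {D : RNP.OD} {N : ℕ} [NeZero N]

private theorem hg_Rl {p : ℕ × ℤ} (hp : Lt D N p) (q : ℤ × ℤ) (c : UNL.G N → ℚ) (k : UNL.G N) :
    Rl (lb D p) (cdp p q) (fun m => c (re p m)) k = Rl (toU D.a) q c (re p k) := by
  classical
  have hb := re_bij (N := N) hp
  have h : (∃ m : UNL.G N, UNL.sm (lb D p) (cdp p q) m = k) ↔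
      ∃ m : UNL.G N, UNL.sm (toU D.a) q m = re p k := by
    constructor
    · rintro ⟨m, hm⟩
      exact ⟨re p m, by rw [← re_sm hp, hm]⟩
    · rintro ⟨m, hm⟩
      obtain ⟨m', rfl⟩ := hb.2 m
      refine ⟨m', hb.1 ?_⟩
      rw [re_sm hp, hm]
  unfold Rl
  show c (re p (UNL.sm (lb D p) (cdp p q) k)) - _ = _
  rw [re_sm hp]
  by_cases hk : ∃ m : UNL.G N, UNL.sm (lb D p) (cdp p q) m = k
  · rw [if_pos hk, if_pos (h.1 hk)]
  · rw [if_neg hk, if_neg (fun h' => hk (h.2 h'))]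

theorem cwt_re {W : UNL.G N → UNL.G N → ℤ} (hW : RNE.CWt (toU D.a) N W) {p : ℕ × ℤ}
    (hp : Lt D N p) : RNE.CWt (lb D p) N (fun k l => W (re p k) (re p l)) := by
  have hb := re_bij (N := N) hp
  obtain ⟨J, q, q', c, hq, c0, hA⟩ := hW.cl
  refine ⟨fun k l => ?_, fun k l => hW.anti _ _, fun l => ?_, fun k l h => ?_, J,
    fun j => cdp p (q j), fun j => cdp p (q' j), fun j l k => c j (re p l) (re p k), fun j => ?_,
    fun j l => ?_, fun l k => ?_⟩
  · rw [re_neg, hW.ev]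
  · rw [← hW.row (re p l)]
    exact hb.sum_comp (fun k => W k (re p l))
  · have h1 := hW.supp _ _ h
    apply hb.1
    rw [re_nsmul, h1, re_zero]
  · rw [de_cdp hp, de_cdp hp, hq]
  · show c j (re p l) (re p 0) = 0
    rw [re_zero]
    exact c0 j _
  · have e1 : ∀ k, Al (fun k l => W (re p k) (re p l)) l k = Al W (re p l) (re p k) := by
      intro k
      show ((W (re p k) (re p l) : ℤ) : ℚ) - W (re p k) (re p (k + l)) =
        (W (re p k) (re p l) : ℚ) - W (re p k) (re p k + re p l)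
      rw [re_add]
    rw [e1, e1, re_neg, hA]
    refine Finset.sum_congr rfl fun j _ => ?_
    rw [hg_Rl hp, hg_Rl hp, re_neg]

theorem closed_lb (hN : Even N) {W : UNL.G N → UNL.G N → ℤ} (hW : RNE.CWt (toU D.a) N W)
    {p : ℕ × ℤ} (hp : Lt D N p) {x : D.O} (hx : Cp N x)
    (Φ : (Additive (UNL.Gn (lb D p) N → ℂˣ)) [⋀^Fin 4]→ₗ[ℤ] ℂ) :
    UNL.bdry (lb D p) (fun k l => W (ac x (re p k)) (ac x (re p l))) Φ = 0 :=
  closed_b (lb D p) hN (cwt_re (CWt_tw hW hx) hp) Φ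

end

end RNG
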