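import Pool.Agent.RNG.Hlx
import Pool.Agent.RNG.Hvx
import Pool.Agent.RNG.Hgx

/-!
# RNG.Exx: a closed element whose regulator is not zero

`W = Ww D m c`, closed on all lattices (`closed_lb`, `Ww_CWt`). Value: `sum_psi`, `FTc_Ww`, `FH_ph`, `TT_FH` for the function `hh * Ph`, `KG_val`, `h_ls`, `val_psi`.
-/

open RNK MeasureTheory

namespace RNG

noncomputable section

variable {D : RNP.OD} {m : ℕ} [NeZero m]

/-! ### the function `Ph` -/

theorem in2_swap {I : Ideal D.O} {x y : ℂ} : In2 I (y, x) ↔ In2 I (x, y) := by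
  constructor
  · rintro ⟨a, ha, b, hb, e⟩
    exact ⟨b, hb, a, ha, Prod.ext (congrArg Prod.snd e) (congrArg Prod.fst e)⟩
  · rintro ⟨a, ha, b, hb, e⟩
    exact ⟨b, hb, a, ha, Prod.ext (congrArg Prod.snd e) (congrArg Prod.fst e)⟩

theorem in2_neg {I : Ideal D.O} {x y : ℂ} : In2 I (-x, y) ↔ In2 I (x, y) := by
  have key : ∀ {x y : ℂ}, In2 I (x, y) → In2 I (-x, y) := by
    rintro x y ⟨a, ha, b, hb, e⟩
    have e1 : x = a := congrArg Prod.fst e
    have e2 : y = b := congrArg Prod.snd e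
    refine ⟨-a, I.neg_mem ha, b, hb, Prod.ext ?_ e2⟩
    show -x = ((-a : D.O) : ℂ)
    rw [e1, Subring.coe_neg]
  constructor
  · intro h
    have h1 := key h
    rwa [neg_neg] at h1
  · exact key

theorem in2_add {I : Ideal D.O} {x y : ℂ} : In2 I (x + y, y) ↔ In2 I (x, y) := by
  constructor
  · rintro ⟨a, ha, b, hb, e⟩
    have e1 : x + y = a := congrArg Prod.fst e
    have e2 : y = b := congrArg Prod.snd e
    refine ⟨a - b, I.sub_mem ha hb, b, hb, Prod.ext ?_ e2⟩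
    show x = ((a - b : D.O) : ℂ)
    rw [AddSubgroupClass.coe_sub, ← e1, ← e2]
    ring
  · rintro ⟨a, ha, b, hb, e⟩
    have e1 : x = a := congrArg Prod.fst e
    have e2 : y = b := congrArg Prod.snd e
    refine ⟨a + b, I.add_mem ha hb, b, hb, Prod.ext ?_ e2⟩
    show x + y = ((a + b : D.O) : ℂ)
    rw [Subring.coe_add, ← e1, ← e2]

variable [IsDedekindDomain D.O] (ψ : Hk D m) {N : ℕ}

open Classical in
omit [NeZero m] [IsDedekindDomain D.O] in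
theorem ph_congr (R : Rp D N) {w w' : Vec} (h : ∀ I ∈ R.s, In2 I w ↔ In2 I w') :
    Ph ψ R w = Ph ψ R w' := by
  unfold Ph
  refine Finset.sum_congr rfl fun I hI => ?_
  congr 1
  exact if_congr (h I hI) rfl rfl

omit [NeZero m] [IsDedekindDomain D.O] in
/-- dilations by divisors of `N` -/
theorem ph_dil (R : Rp D N) {x y : D.O} (hx : x ∣ (N : D.O)) (hy : y ∣ (N : D.O)) {u v : ℂ}
    (hu : u ∈ D.O) (hv : v ∈ D.O) : Ph ψ R ((x : ℂ) * u, (y : ℂ) * v) = Ph ψ R (u, v) := by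
  refine ph_congr ψ R fun I hI => ?_
  obtain ⟨i, hi, z, e⟩ := ip_one (R.cp I hI)
  have key : ∀ {x : D.O}, x ∣ (N : D.O) → ∀ t : D.O, x * t ∈ I → t ∈ I := by
    rintro x ⟨x', hx'⟩ t ht
    have e1 : t = t * i - x' * z * (x * t) := by
      rw [e, hx']
      ring
    rw [e1]
    exact I.sub_mem (I.mul_mem_left _ hi) (I.mul_mem_left _ ht)
  constructor
  · rintro ⟨a, ha, b, hb, e'⟩
    have e1 : (x : ℂ) * u = a := congrArg Prod.fst e'
    have e2 : (y : ℂ) * v = b := congrArg Prod.snd e'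
    have e3 : x * ⟨u, hu⟩ = a := Subtype.ext e1
    have e4 : y * ⟨v, hv⟩ = b := Subtype.ext e2
    exact ⟨⟨u, hu⟩, key hx _ (e3 ▸ ha), ⟨v, hv⟩, key hy _ (e4 ▸ hb), rfl⟩
  · rintro ⟨a, ha, b, hb, e'⟩
    have e1 : u = a := congrArg Prod.fst e'
    have e2 : v = b := congrArg Prod.snd e'
    refine ⟨x * a, I.mul_mem_left _ ha, y * b, I.mul_mem_left _ hb, ?_⟩
    rw [e1, e2, Subring.coe_mul, Subring.coe_mul]

omit [NeZero m] [IsDedekindDomain D.O] in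
theorem FH_ph (R : Rp D N) {α β : D.O} (ha : α ≠ 0) (hb : β ≠ 0) (hαβ : α * β ∣ (N : D.O))
    {h : Vec → ℂ} (hO : ∀ w, h w ≠ 0 → RNP.O2 D w) (w : Vec) :
    FH (α : ℂ) (β : ℂ) h w * Ph ψ R w =
      FH (α : ℂ) (β : ℂ) (fun w => h w * Ph ψ R w) w := by
  have ha' : (α : ℂ) ≠ 0 := fun h => ha (Subtype.ext h)
  have hb' : (β : ℂ) ≠ 0 := fun h => hb (Subtype.ext h)
  have key : ∀ x y : D.O, (x : ℂ) ≠ 0 → (y : ℂ) ≠ 0 → x ∣ (N : D.O) → y ∣ (N : D.O) →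
      h (w.1 / (x : ℂ), w.2 / (y : ℂ)) * Ph ψ R w =
        h (w.1 / (x : ℂ), w.2 / (y : ℂ)) * Ph ψ R (w.1 / (x : ℂ), w.2 / (y : ℂ)) := by
    intro x y hx0 hy0 hx hy
    by_cases h0 : h (w.1 / (x : ℂ), w.2 / (y : ℂ)) = 0
    · rw [h0, zero_mul, zero_mul]
    · have h1 := hO _ h0
      rw [← ph_dil ψ R hx hy h1.1 h1.2]
      congr 2
      refine Prod.ext ?_ ?_
      · show w.1 = (x : ℂ) * (w.1 / (x : ℂ))
        rw [mul_div_cancel₀ _ hx0]
      · show w.2 = (y : ℂ) * (w.2 / (y : ℂ))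
        rw [mul_div_cancel₀ _ hy0]
  have hαN : α ∣ (N : D.O) := (dvd_mul_right α β).trans hαβ
  have hβN : β ∣ (N : D.O) := (dvd_mul_left β α).trans hαβ
  have k1 := key β α hb' ha' hβN hαN
  have hab' : ((α * β : D.O) : ℂ) ≠ 0 := by
    rw [Subring.coe_mul]
    exact mul_ne_zero ha' hb'
  have k2 := key (α * β) α hab' ha' hαβ hαN
  have k3 := key (α * β) β hab' hb' hαβ hβN
  rw [Subring.coe_mul] at k2 k3
  unfold FH
  linear_combination ((‖(α : ℂ)‖ ^ 2 * ‖(β : ℂ)‖ ^ 2 : ℝ) : ℂ) * k1 -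
    ((‖(α : ℂ)‖ ^ 4 * ‖(β : ℂ)‖ ^ 2 : ℝ) : ℂ) * k2 +
    ((‖(α : ℂ)‖ ^ 2 * ‖(β : ℂ)‖ ^ 4 : ℝ) : ℂ) * k3

/-! ### the value -/

theorem dL_ne {L : ℂ → ℂ}
    (hd : deriv L (-1) = -(6 * du m ψ.hc.f 1 * ((m * (UNI.om D.a).im / Real.pi) ^ 5 : ℝ)) *
      Eps ψ) : deriv L (-1) ≠ 0 := by
  have hm : (0 : ℝ) < m := Nat.cast_pos.2 (Nat.pos_of_ne_zero (NeZero.ne m))
  have hy := UNI.om_im_pos D.a
  have hx : 0 < m * (UNI.om D.a).im / Real.pi := div_pos (mul_pos hm hy) Real.pi_pos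
  rw [hd]
  refine mul_ne_zero (neg_ne_zero.2 (mul_ne_zero (mul_ne_zero (by norm_num) ψ.hc.tau_ne) ?_))
    (Eps_ne ψ)
  rw [Complex.ofReal_ne_zero]
  exact (pow_pos hx 5).ne'

theorem exists_ne {L : ℂ → ℂ}
    (hd : deriv L (-1) = -(6 * du m ψ.hc.f 1 * ((m * (UNI.om D.a).im / Real.pi) ^ 5 : ℝ)) *
      Eps ψ) :
    ∃ (N : ℕ) (_ : NeZero N), Even N ∧ m ∣ N ∧ ∃ W : UNL.G N → UNL.G N → ℤ,
      (∀ k l, W k l ≠ 0 → (N / 2) • k = 0 ∧ (N / 2) • l = 0) ∧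
      (∀ p : ℕ × ℤ, Lt D N p → ∀ x : D.O, Cp N x →
        ∀ Φ : (Additive (UNL.Gn (lb D p) N → ℂˣ)) [⋀^Fin 4]→ₗ[ℤ] ℂ,
        UNL.bdry (lb D p) (fun k l => W (ac x (re p k)) (ac x (re p l))) Φ = 0) ∧
      ∀ (Q : Lr D N) (S : Rs D N), ∑ p ∈ Q.s, ψ.f (li D p) / ((p.1 : ℕ) : ℂ) ^ 2 *
        ∑ d ∈ S.s, ψ.hc.f d * ∫ q : UNL.E × UNL.E,
        UNL.Gen.XReg (lb D p) (fun k l => W (ac d (re p k)) (ac d (re p l)))
          (UNL.cu (lb D p) q.1) (UNL.cu (lb D p) q.2) ≠ 0 := by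
  have hm : 0 < m := Nat.pos_of_ne_zero (NeZero.ne m)
  obtain ⟨c, N, hN0, hN, hmN, hl⟩ := lv_ex D hm
  have inst : NeZero N := ⟨hN0.ne'⟩
  have hW : RNE.CWt (toU D.a) N (Ww D m c) := Ww_CWt hl
  refine ⟨N, inst, hN, hmN, Ww D m c, fun k l h => ⟨hW.supp k l h, hW.supp l k ?_⟩,
    fun p hp x hx Φ => closed_lb hN hW hp hx Φ, fun Q S => ?_⟩
  · rw [hW.anti k l]
    exact neg_ne_zero.2 h
  · have hα : ((al D m : D.O) : ℂ) ∈ D.K := RNP.O_sub_K (al D m).2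
    have hβ : ((be D m : D.O) : ℂ) ∈ D.K := RNP.O_sub_K (be D m).2
    have ha0 := al_ne D hm
    have hb0 := be_ne D hm
    have ha : ((al D m : D.O) : ℂ) ≠ 0 := fun h => al_ne D hm (Subtype.ext h)
    have hb : ((be D m : D.O) : ℂ) ≠ 0 := fun h => be_ne D hm (Subtype.ext h)
    have hab : ((al D m : D.O) : ℂ) + ((be D m : D.O) : ℂ) = 1 := by
      have h := congrArg (fun x : D.O => (x : ℂ)) (al_be D m)
      simpa using h
    obtain ⟨χ, hχ⟩ : ∃ χ : Kc D m, χ = ψ.hc.br := ⟨_, rfl⟩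
    obtain ⟨R, hR⟩ : ∃ R : Rp D N, R = Q.rp := ⟨_, rfl⟩
    obtain ⟨κ, hκ, hκ'⟩ := h_ls ψ hl hmN S R
    obtain ⟨ρ₀, -, h0, h1⟩ := val_psi (N := N) ψ hd
    have hdvd : al D m * be D m ∣ (N : D.O) := by
      have h2 : nn D (al D m) * nn D (be D m) ∣ N := (Dvd.intro_left _ rfl).trans hl.dvd
      obtain ⟨r, hr⟩ := h2
      have h3 : ∀ x : D.O, x * cj x = ((nn D x : ℕ) : D.O) := by
        intro x
        refine Subtype.ext ?_
        show (x : ℂ) * (starRingEnd ℂ) (x : ℂ) = (((nn D x : ℕ) : D.O) : ℂ)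
        rw [nn_mul_cj]
        simp
      refine ⟨cj (al D m) * cj (be D m) * (r : D.O), ?_⟩
      rw [hr, Nat.cast_mul, Nat.cast_mul, ← h3, ← h3]
      ring
    set H : Vec → ℂ := fun w => hh χ c S w * Ph ψ R w with hH
    have hF : (fun w => FTc D (pw ψ.hc.br S fun k l => (Ww D m c k l : ℂ)) w * Ph ψ Q.rp w) =
        fun w => FH (al D m : ℂ) (be D m : ℂ) H w -
          FH (al D m : ℂ) (be D m : ℂ) H (w.2, w.1) := by
      funext w
      have hO : ∀ w, hh χ c S w ≠ 0 → RNP.O2 D w := by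
        intro w hw
        by_contra h3
        apply hw
        unfold hh FTc
        rw [if_neg h3]
      have e2 : Ph ψ R w = Ph ψ R (w.2, w.1) := by
        refine ph_congr ψ R fun I _ => ?_
        exact in2_swap (x := w.2) (y := w.1)
      rw [FTc_Ww ψ.hc.br hl S w, sub_mul, ← hR]
      congr 1
      · exact (hχ ▸ FH_ph ψ R ha0 hb0 hdvd hO w)
      · rw [e2]
        exact (hχ ▸ FH_ph ψ R ha0 hb0 hdvd hO (w.2, w.1))
    have hA : RNP.AdmE D H := by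
      have h2 := ph_adm ψ (h_adm χ hl hmN S) one_pos R
      refine (?_ : (fun w => hh χ c S w * Ph ψ R (((1 : ℕ) : ℂ) • w)) = H) ▸ h2
      funext w
      rw [Nat.cast_one, one_smul]
    have hs : ∀ x y, H (y, x) = H (x, y) := by
      intro x y
      show hh χ c S (y, x) * Ph ψ R (y, x) = hh χ c S (x, y) * Ph ψ R (x, y)
      rw [h_s χ S, ph_congr ψ R fun I _ => in2_swap (x := x) (y := y)]
    have hn : ∀ x y, H (-x, y) = H (x, y) := by
      intro x y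
      show hh χ c S (-x, y) * Ph ψ R (-x, y) = hh χ c S (x, y) * Ph ψ R (x, y)
      rw [h_n χ S, ph_congr ψ R fun I _ => in2_neg (x := x) (y := y)]
    have hu : ∀ x y, H (x + y, y) = H (x, y) := by
      intro x y
      show hh χ c S (x + y, y) * Ph ψ R (x + y, y) = hh χ c S (x, y) * Ph ψ R (x, y)
      rw [h_u χ S, ph_congr ψ R fun I _ => in2_add (x := x) (y := y)]
    have hz : RNP.ls H e1 = 0 := by
      unfold RNP.ls
      rw [← tsum_zero (α := ℂ) (β := ℂ)]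
      refine tsum_congr fun t => ?_
      show hh χ c S (t • e1) * Ph ψ R (t • e1) * _ = 0
      rw [h_zero' χ hl S, zero_mul, zero_mul]
    have hκ2 : RNP.ls H (1, (be D m : ℂ)) = κ * Lps ψ := by
      rw [← hκ', hH, hχ]
    rw [sum_psi ψ hN Q S hW.ev hW.anti hW.row hW.supp, hF,
      TT_FH hA hs hn hu hα hβ ha hb hab hz, hκ2, KG_val ha hb hab]
    obtain ⟨k, hk⟩ : ∃ k : ℂ, k = 2 * (((al D m : ℂ) * (be D m : ℂ))⁻¹) ^ 2 *
        (6 * ((starRingEnd ℂ) (be D m : ℂ) - (be D m : ℂ)) /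
          ((be D m : ℂ) * (starRingEnd ℂ) (be D m : ℂ) *
            ((al D m : ℂ) * (starRingEnd ℂ) (al D m : ℂ)))) * κ := ⟨_, rfl⟩
    have hca : (starRingEnd ℂ) ((al D m : D.O) : ℂ) ≠ 0 := (map_ne_zero _).2 ha
    have hcb : (starRingEnd ℂ) ((be D m : D.O) : ℂ) ≠ 0 := (map_ne_zero _).2 hb
    have him : (starRingEnd ℂ) ((be D m : D.O) : ℂ) - ((be D m : D.O) : ℂ) ≠ 0 := by
      intro h
      have h2 := congrArg Complex.im h
      have h3 : ((be D m : D.O) : ℂ).im = m * (UNI.om D.a).im := by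
        show (UNI.xx D.a (0, (m : ℤ))).im = _
        simp [UNI.xx]
      rw [Complex.sub_im, Complex.conj_im, h3, Complex.zero_im] at h2
      have h4 : (0 : ℝ) < m * (UNI.om D.a).im :=
        mul_pos (Nat.cast_pos.2 hm) (UNI.om_im_pos D.a)
      linarith
    have hk0 : k ≠ 0 := by
      rw [hk]
      refine mul_ne_zero (mul_ne_zero (mul_ne_zero two_ne_zero
        (pow_ne_zero _ (inv_ne_zero (mul_ne_zero ha hb)))) ?_) hκ
      exact div_ne_zero (mul_ne_zero (by norm_num) him)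
        (mul_ne_zero (mul_ne_zero hb hcb) (mul_ne_zero ha hca))
    have hk1 : 2 * (((al D m : ℂ) * (be D m : ℂ))⁻¹) ^ 2 *
        (6 * ((starRingEnd ℂ) (be D m : ℂ) - (be D m : ℂ)) /
          ((be D m : ℂ) * (starRingEnd ℂ) (be D m : ℂ) *
            ((al D m : ℂ) * (starRingEnd ℂ) (al D m : ℂ)))) * (κ * Lps ψ) =
        k * Lps ψ := by
      rw [hk]
      ring
    rw [hk1, h1 k]
    refine mul_ne_zero (mul_ne_zero (pow_ne_zero _ (mul_ne_zero two_ne_zero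
      (by exact_mod_cast Real.pi_ne_zero))) (mul_ne_zero h0 ((map_ne_zero _).2 hk0))) (dL_ne ψ hd)

end

end RNG
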