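import Pool.Agent.RNG.Xt
import Pool.Agent.RN2.De

/-!
# RNG.Xu: the relation between the values at `0` (stub; prove ALL sorries)

As in `RN2/De` (`c_zero`, its private lemmas `wc_sum`, `wc_relQ`, `wc_relR` with complex instead of rational `c`; copy them): `b = toU D.a`, `hat = ev q₀ δ` (`RN2.gn_ne`), `gc hat k = gd b δ k` (`RN2.gc_ev`),
`S_j = Σ_{m ∈ q_j G} c_j(m)`: `Σ_k Rc q_j c_j k gd δ k = S_j Cst hat q_j + c_j(0) δ(q_j)` (`UNL.dist_gc`), `Σ_k Rc q_j c_j k = (N(q_j) - 1) S_j`, and by `const_rel` (`RNK/Wk`) with `e = (M, 0)`: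
`(M² - 1) Cst q_j = (N(q_j) - 1) Cst e`. So `0 = Σ_k A k gd δ k = Σ_j S_j Cst q_j + Σ_j c_j(0) δ(q_j)` and `(M² - 1) Σ_j S_j Cst q_j = Cst e Σ_j (N(q_j) - 1) S_j = Cst e Σ_k A k = 0`.
-/

open RNK

namespace RNG

noncomputable section

/-! ### multiplication by an element dividing `N` -/

private theorem wc_lin (b : UNL.Par) {x y : ℤ} (h : (x : ℂ) + y * UNL.alp b = 0) :
    x = 0 ∧ y = 0 := by
  have h1 := congrArg (starRingEnd ℂ) h
  simp only [map_add, map_mul, map_intCast, map_zero] at h1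
  have h2 : (y : ℂ) * (UNL.alp b - (starRingEnd ℂ) (UNL.alp b)) = 0 := by
    linear_combination h - h1
  have h3 : UNL.alp b - (starRingEnd ℂ) (UNL.alp b) ≠ 0 := by
    have h4 := UNL.alp_sub b
    rw [UNL.cj] at h4
    rw [h4]
    refine mul_ne_zero ?_ Complex.I_ne_zero
    have h5 := UNL.sD_pos b
    exact_mod_cast h5.ne'
  have h4 : (y : ℂ) = 0 := (mul_eq_zero.1 h2).resolve_right h3
  rw [h4, zero_mul, add_zero] at h
  exact ⟨by exact_mod_cast h, by exact_mod_cast h4⟩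

private theorem wc_eqs (b : UNL.Par) {N : ℕ} {d d' : ℤ × ℤ}
    (h : UNL.de b d * UNL.de b d' = N) :
    d.1 * d'.1 - b.A * b.C * (d.2 * d'.2) = N ∧
      d.1 * d'.2 + d.2 * d'.1 + b.B * (d.2 * d'.2) = 0 := by
  have h1 := UNL.alp_sq b
  have h2 : ((d.1 * d'.1 - b.A * b.C * (d.2 * d'.2) - N : ℤ) : ℂ) +
      ((d.1 * d'.2 + d.2 * d'.1 + b.B * (d.2 * d'.2) : ℤ) : ℂ) * UNL.alp b = 0 := by
    simp only [UNL.de] at h
    push_cast at h1 ⊢
    linear_combination h - ((d.2 : ℂ) * d'.2) * h1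
  obtain ⟨h3, h4⟩ := wc_lin b h2
  exact ⟨by linarith, h4⟩

/-- the matrix of the multiplication -/
private def wcM (b : UNL.Par) (d : ℤ × ℤ) : UNL.M2 :=
  ⟨d.1, -(b.C * d.2), b.A * d.2, d.1 + b.B * d.2⟩

private theorem wcM_az (b : UNL.Par) (d : ℤ × ℤ) {N : ℕ} (k : UNL.G N) :
    (wcM b d).az k = UNL.sm b d k := by
  refine Prod.ext ?_ ?_
  · simp only [UNL.M2.az, wcM, UNL.sm]
    push_cast
    ring
  · simp only [UNL.M2.az, wcM, UNL.sm]
    push_cast
    ring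

private theorem wcM_det (b : UNL.Par) (d : ℤ × ℤ) : (wcM b d).det = Nd b d := by
  simp only [UNL.M2.det, wcM, Nd]
  ring

private theorem wcM_comp (b : UNL.Par) {N : ℕ} {d d' : ℤ × ℤ}
    (h : UNL.de b d * UNL.de b d' = N) (j : ℤ × ℤ) :
    (wcM b d).ai ((wcM b d').ai j) = (N : ℤ) • j := by
  obtain ⟨h1, h2⟩ := wc_eqs b h
  refine Prod.ext ?_ ?_
  · simp only [UNL.M2.ai, wcM, Prod.smul_fst, smul_eq_mul]
    linear_combination j.1 * h1 - b.C * j.2 * h2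
  · simp only [UNL.M2.ai, wcM, Prod.smul_snd, smul_eq_mul]
    linear_combination j.2 * h1 + (b.A * j.1 + b.B * j.2) * h2

private theorem wc_Nd_pos (b : UNL.Par) {N : ℕ} [NeZero N] {d d' : ℤ × ℤ}
    (h : UNL.de b d * UNL.de b d' = N) : 0 < Nd b d := by
  have hD := b.hD
  have h1 : 4 * Nd b d = (2 * d.1 + b.B * d.2) ^ 2 + (4 * b.A * b.C - b.B ^ 2) * d.2 ^ 2 := by
    simp only [Nd]
    ring
  by_contra hc
  have h2 : (2 * d.1 + b.B * d.2) ^ 2 + (4 * b.A * b.C - b.B ^ 2) * d.2 ^ 2 ≤ 0 := by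
    rw [← h1]
    linarith
  have h3 : 0 < 4 * b.A * b.C - b.B ^ 2 := by linarith
  have h4 : d.2 = 0 := by
    by_contra h5
    have h6 : 0 < d.2 ^ 2 := by positivity
    have h7 := mul_pos h3 h6
    have h8 := sq_nonneg (2 * d.1 + b.B * d.2)
    linarith
  have h5 : d.1 = 0 := by
    rw [h4] at h2
    have h6 : (2 * d.1) ^ 2 ≤ 0 := by nlinarith
    have h7 : (2 * d.1) ^ 2 = 0 := le_antisymm h6 (sq_nonneg _)
    have h8 := pow_eq_zero_iff (two_ne_zero) |>.1 h7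
    linarith
  have h6 : UNL.de b d = 0 := by
    simp only [UNL.de, h4, h5]
    simp
  rw [h6, zero_mul] at h
  have h7 : (N : ℂ) ≠ 0 := Nat.cast_ne_zero.2 (NeZero.ne N)
  exact h7 h.symm

private theorem wc_card_ker {N : ℕ} [NeZero N] (m m' : UNL.M2) (h : m.det ≠ 0)
    (hm : ∀ j : ℤ × ℤ, m.ai (m'.ai j) = (N : ℤ) • j) :
    Nat.card (m.azh N).ker = m.det.natAbs := by
  have h1 : Nat.card (m.azh N).ker * Nat.card (m.azh N).range = Nat.card (ZMod N × ZMod N) := by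
    rw [← AddSubgroup.index_ker]
    exact AddSubgroup.card_mul_index _
  have h2 : Nat.card (m.azh N).range * (m.azh N).range.index = Nat.card (ZMod N × ZMod N) :=
    AddSubgroup.card_mul_index _
  have h3 : 0 < Nat.card (m.azh N).range := Nat.card_pos
  have h4 : Nat.card (m.azh N).ker = (m.azh N).range.index := by
    refine Nat.eq_of_mul_eq_mul_left h3 ?_
    rw [h2, ← h1, mul_comm]
  rw [h4, ← m.index_range h, ← AddSubgroup.index_comap_of_surjective _ (UNL.M2.rd_surj N)]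
  congr 1
  ext v
  constructor
  · rintro ⟨k, hk⟩
    obtain ⟨k', rfl⟩ := UNL.M2.rd_surj N k
    rw [UNL.M2.azh_apply, UNL.M2.az_rd] at hk
    have h5 : UNL.M2.rd N (v - m.ai k') = 0 := by rw [map_sub, hk, sub_self]
    obtain ⟨j, hj⟩ := UNL.M2.rd_eq_zero.1 h5
    refine ⟨k' + m'.ai j, ?_⟩
    have h6 : m.ai (k' + m'.ai j) = m.ai k' + m.ai (m'.ai j) :=
      m.ail.map_add _ _
    rw [UNL.M2.ail_apply, h6, hm, ← hj]
    abel
  · rintro ⟨k, rfl⟩
    exact ⟨UNL.M2.rd N k, by rw [UNL.M2.azh_apply, UNL.M2.az_rd]; rfl⟩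

private theorem wc_fib (b : UNL.Par) {N : ℕ} [NeZero N] {q q' : ℤ × ℤ}
    (hq : UNL.de b q * UNL.de b q' = N) {m : UNL.G N} (hm : ∃ k, UNL.sm b q k = m) :
    ((Finset.univ.filter (fun k : UNL.G N => UNL.sm b q k = m)).card : ℤ) = Nd b q := by
  obtain ⟨k0, hk0⟩ := hm
  have h3 : (Finset.univ.filter (fun k : UNL.G N => UNL.sm b q k = m)).card =
      Nat.card ((wcM b q).azh N).ker := by
    rw [Nat.card_eq_fintype_card, ← Fintype.card_subtype]
    refine Fintype.card_congr ⟨fun k => ⟨k.1 - k0, ?_⟩, fun k => ⟨k.1 + k0, ?_⟩, ?_, ?_⟩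
    · rw [AddMonoidHom.mem_ker, map_sub, UNL.M2.azh_apply, UNL.M2.azh_apply, wcM_az, wcM_az, k.2,
        hk0, sub_self]
    · have := (AddMonoidHom.mem_ker.1 k.2)
      rw [← wcM_az, ← UNL.M2.azh_apply, map_add, this, UNL.M2.azh_apply, wcM_az, hk0, zero_add]
    · intro k; simp
    · intro k; simp
  have hp := wc_Nd_pos b hq
  rw [h3, wc_card_ker (wcM b q) (wcM b q') (by rw [wcM_det]; exact hp.ne') (wcM_comp b hq), wcM_det,
    Int.natAbs_of_nonneg hp.le]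

/-! ### the sum of a relation against a function -/

open Classical in
private theorem wc_sum (b : UNL.Par) {N : ℕ} [NeZero N] (q : ℤ × ℤ) (c : UNL.G N → ℂ)
    (g : UNL.G N → ℂ) :
    ∑ k : UNL.G N, Rc b q c k * g k =
      ∑ m ∈ Finset.univ.filter (fun m : UNL.G N => ∃ k, UNL.sm b q k = m),
        c m * ((∑ k ∈ Finset.univ.filter (fun k : UNL.G N => UNL.sm b q k = m), g k) - g m) := by
  have h1 : ∑ k : UNL.G N, c (UNL.sm b q k) * g k =
      ∑ m ∈ Finset.univ.filter (fun m : UNL.G N => ∃ k, UNL.sm b q k = m),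
        c m * ∑ k ∈ Finset.univ.filter (fun k : UNL.G N => UNL.sm b q k = m), g k := by
    rw [← Finset.sum_fiberwise Finset.univ (fun k : UNL.G N => UNL.sm b q k)
      (fun k => c (UNL.sm b q k) * g k)]
    rw [Finset.sum_filter]
    refine Finset.sum_congr rfl fun m _ => ?_
    split_ifs with hm
    · rw [Finset.mul_sum]
      refine Finset.sum_congr rfl fun k hk => ?_
      rw [(Finset.mem_filter.1 hk).2]
    · refine Finset.sum_eq_zero fun k hk => ?_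
      exact absurd ⟨k, (Finset.mem_filter.1 hk).2⟩ hm
  have h2 : ∑ k : UNL.G N, (if ∃ m : UNL.G N, UNL.sm b q m = k then c k else 0) * g k =
      ∑ m ∈ Finset.univ.filter (fun m : UNL.G N => ∃ k, UNL.sm b q k = m), c m * g m := by
    rw [Finset.sum_filter]
    refine Finset.sum_congr rfl fun m _ => ?_
    split_ifs with hm
    · rfl
    · rw [zero_mul]
  simp only [Rc, sub_mul, Finset.sum_sub_distrib, mul_sub]
  rw [h1, ← h2]
  congr!

open Classical in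
/-- the sum over the image -/
private def wcS (b : UNL.Par) {N : ℕ} [NeZero N] (q : ℤ × ℤ) (c : UNL.G N → ℂ) : ℂ :=
  ∑ m ∈ Finset.univ.filter (fun m : UNL.G N => ∃ k, UNL.sm b q k = m), c m

private theorem wc_relQ (b : UNL.Par) {N : ℕ} [NeZero N] {q q' : ℤ × ℤ}
    (hq : UNL.de b q * UNL.de b q' = N) (c : UNL.G N → ℂ) :
    ∑ k : UNL.G N, Rc b q c k = (((Nd b q : ℤ) : ℂ) - 1) * wcS b q c := by
  classical
  have h := wc_sum b q c (fun _ : UNL.G N => (1 : ℂ))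
  simp only [mul_one] at h
  rw [h, wcS, Finset.mul_sum]
  refine Finset.sum_congr rfl fun m hm => ?_
  have h1 := wc_fib b hq (m := m) (by simpa using (Finset.mem_filter.1 hm).2)
  rw [Finset.sum_const, nsmul_eq_mul, mul_one]
  have h2 : ((Finset.univ.filter (fun k : UNL.G N => UNL.sm b q k = m)).card : ℂ) =
      ((Nd b q : ℤ) : ℂ) := by
    rw [← h1]
    push_cast
    congr!
  rw [h2]
  ring

/-- the sum of a relation, with the term of `0` -/
private theorem wc_relR (b : UNL.Par) {N : ℕ} [NeZero N]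
    (hat : Additive (UNL.Gn b N → ℂˣ) →+ ℂ) {q q' : ℤ × ℤ}
    (hq : UNL.de b q * UNL.de b q' = N) (c : UNL.G N → ℂ) :
    ∑ k : UNL.G N, Rc b q c k * UNL.gc hat k = wcS b q c * Cst hat q +
      c 0 * UNL.co hat (fun _ _ => UNL.de b q) := by
  classical
  obtain ⟨CA, hCA⟩ := UNL.dist_gc hat q q' hq
  have hz : ∃ k, UNL.sm b q k = (0 : UNL.G N) := ⟨0, by simp [UNL.sm]⟩
  have h0 := hCA 0 hz
  rw [UNL.gc_zero, zero_add, if_pos rfl] at h0
  have hC : Cst hat q = CA := by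
    rw [Cst]
    refine sub_eq_of_eq_add ?_
    convert h0
  have hmem : (0 : UNL.G N) ∈ Finset.univ.filter (fun m : UNL.G N => ∃ k, UNL.sm b q k = m) :=
    Finset.mem_filter.2 ⟨Finset.mem_univ _, hz⟩
  rw [wc_sum b q c (fun k => UNL.gc hat k), wcS, Finset.sum_mul]
  rw [← Finset.add_sum_erase _ _ hmem, ← Finset.add_sum_erase _ (fun i => c i * Cst hat q) hmem]
  have h3 : ∀ m ∈ (Finset.univ.filter (fun m : UNL.G N => ∃ k, UNL.sm b q k = m)).erase 0,
      c m * ((∑ k ∈ Finset.univ.filter (fun k : UNL.G N => UNL.sm b q k = m), UNL.gc hat k) -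
        UNL.gc hat m) = c m * Cst hat q := by
    intro m hm
    obtain ⟨hm0, hm⟩ := Finset.mem_erase.1 hm
    have h1 := hCA m (by simpa using (Finset.mem_filter.1 hm).2)
    rw [if_neg hm0, add_zero] at h1
    have h2 : (∑ k ∈ Finset.univ.filter (fun k : UNL.G N => UNL.sm b q k = m), UNL.gc hat k) =
        UNL.gc hat m + CA := by
      convert h1
    rw [h2, hC, add_sub_cancel_left]
  rw [Finset.sum_congr rfl h3]
  have h4 : (∑ k ∈ Finset.univ.filter (fun k : UNL.G N => UNL.sm b q k = 0), UNL.gc hat k) =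
      CA + UNL.co hat (fun _ _ => UNL.de b q) := by
    convert h0
  rw [h4, UNL.gc_zero, sub_zero, hC]
  ring

variable {D : RNP.OD}

theorem de_c {M : ℕ} [NeZero M] (hM : 1 < M) {J : ℕ} {q : Fin J → D.O}
    (hq : ∀ j, ∃ q' : D.O, q j * q' = (M : D.O)) {c : Fin J → UNL.G M → ℂ} {A : UNL.G M → ℂ}
    (hA : ∀ k, A k = ∑ j, Rc (toU D.a) (cod D (q j)) (c j) k) (hs : ∑ k, A k = 0)
    (δ : Additive ℂˣ →+ ℂ) (hδ : ∑ k : UNL.G M, A k * RN2.gd (toU D.a) δ k = 0)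
    (h0 : ∀ j, ((q j : D.O) : ℂ) ≠ 0) :
    ∑ j, c j 0 * δ (Additive.ofMul (Units.mk0 ((q j : D.O) : ℂ) (h0 j))) = 0 := by
  have hM0 : 0 < M := Nat.pos_of_ne_zero (NeZero.ne M)
  have hde : ∀ q : D.O, UNL.de (toU D.a) (cod D q) = (q : ℂ) := fun q => by
    rw [de_toU, xx_cod]
  have hq' : ∀ j, ∃ y : D.O,
      UNL.de (toU D.a) (cod D (q j)) * UNL.de (toU D.a) (cod D y) = M := by
    intro j
    obtain ⟨y, hy⟩ := hq j
    refine ⟨y, ?_⟩
    rw [hde, hde]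
    have := congrArg (Subtype.val : D.O → ℂ) hy
    push_cast at this
    exact this
  obtain ⟨q1⟩ := RN2.gn_ne (toU D.a) M
  have hdl : ∀ j, UNL.co (RN2.ev q1 δ) (fun _ _ => UNL.de (toU D.a) (cod D (q j))) =
      δ (Additive.ofMul (Units.mk0 ((q j : D.O) : ℂ) (h0 j))) := by
    intro j
    rw [hde, RN2.ev_const q1 δ (h0 j)]
  have e0 : ∑ k : UNL.G M, A k * UNL.gc (RN2.ev q1 δ) k = 0 := by
    rw [← hδ]
    refine Finset.sum_congr rfl fun k _ => ?_
    rw [RN2.gc_ev]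
  have e1 : ∑ k : UNL.G M, A k * UNL.gc (RN2.ev q1 δ) k =
      ∑ j, ∑ k : UNL.G M, Rc (toU D.a) (cod D (q j)) (c j) k * UNL.gc (RN2.ev q1 δ) k := by
    rw [Finset.sum_comm]
    refine Finset.sum_congr rfl fun k _ => ?_
    rw [hA, Finset.sum_mul]
  have e2 : ∑ j, ∑ k : UNL.G M, Rc (toU D.a) (cod D (q j)) (c j) k = 0 := by
    rw [← hs, Finset.sum_comm]
    exact Finset.sum_congr rfl fun k _ => (hA k).symm
  have e3 : ∀ j, ∑ k : UNL.G M, Rc (toU D.a) (cod D (q j)) (c j) k *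
      UNL.gc (RN2.ev q1 δ) k =
      wcS (toU D.a) (cod D (q j)) (c j) * Cst (RN2.ev q1 δ) (cod D (q j)) +
        c j 0 * δ (Additive.ofMul (Units.mk0 ((q j : D.O) : ℂ) (h0 j))) := by
    intro j
    obtain ⟨y, hy⟩ := hq' j
    rw [wc_relR (toU D.a) (RN2.ev q1 δ) hy, hdl j]
  have e4 : ∀ j, ∑ k : UNL.G M, Rc (toU D.a) (cod D (q j)) (c j) k =
      (((Nd (toU D.a) (cod D (q j)) : ℤ) : ℂ) - 1) * wcS (toU D.a) (cod D (q j)) (c j) := by
    intro j
    obtain ⟨y, hy⟩ := hq' j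
    exact wc_relQ (toU D.a) hy _
  have hE : UNL.de (toU D.a) ((M : ℤ), 0) * UNL.de (toU D.a) (1, 0) = (M : ℂ) := by
    simp [UNL.de]
  have h5 : ∀ j, ((M : ℂ) ^ 2 - 1) * Cst (RN2.ev q1 δ) (cod D (q j)) =
      (((Nd (toU D.a) (cod D (q j)) : ℤ) : ℂ) - 1) * Cst (RN2.ev q1 δ) ((M : ℤ), 0) := by
    intro j
    obtain ⟨y, hy⟩ := hq' j
    have h6 := const_rel (RN2.ev q1 δ) ((M : ℤ), 0) (1, 0) (cod D (q j)) (cod D y) hE hy
    have h7 : Nd (toU D.a) ((M : ℤ), 0) = (M : ℤ) ^ 2 := by simp [Nd]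
    rw [h7, zsmul_eq_mul, zsmul_eq_mul] at h6
    push_cast at h6
    exact h6
  have h9 : ((M : ℂ) ^ 2 - 1) * ∑ j,
      wcS (toU D.a) (cod D (q j)) (c j) * Cst (RN2.ev q1 δ) (cod D (q j)) = 0 := by
    rw [Finset.mul_sum]
    have h10 : ∀ j, ((M : ℂ) ^ 2 - 1) *
        (wcS (toU D.a) (cod D (q j)) (c j) * Cst (RN2.ev q1 δ) (cod D (q j))) =
        (∑ k : UNL.G M, Rc (toU D.a) (cod D (q j)) (c j) k) *
          Cst (RN2.ev q1 δ) ((M : ℤ), 0) := by
      intro j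
      rw [e4 j]
      linear_combination wcS (toU D.a) (cod D (q j)) (c j) * h5 j
    rw [Finset.sum_congr rfl fun j _ => h10 j, ← Finset.sum_mul, e2, zero_mul]
  have h11 : ((M : ℂ) ^ 2 - 1) ≠ 0 := by
    have h12 : ((M : ℂ) ^ 2 - 1) = (((M ^ 2 - 1 : ℕ) : ℕ) : ℂ) := by
      rw [Nat.cast_sub (Nat.one_le_pow _ _ hM0)]
      push_cast
      ring
    rw [h12]
    refine Nat.cast_ne_zero.2 ?_
    have h13 : 1 < M ^ 2 := Nat.one_lt_pow two_ne_zero hM
    omega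
  have h12 := (mul_eq_zero.1 h9).resolve_left h11
  rw [e1, Finset.sum_congr rfl fun j _ => e3 j, Finset.sum_add_distrib, h12, zero_add] at e0
  exact e0

end

end RNG
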