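import Pool.Agent.RNG.Cg

/-!
# RNG.Xd: definitions (ray class characters, the operators `T_q`, relations between functions on `O`)
-/

open RNK

namespace RNG

noncomputable section

variable {D : RNP.OD}

/-- characters of the ray class group mod `F`, as functions on the ideals -/
structure Xc (D : RNP.OD) (F : Ideal D.O) where
  f : Ideal D.O → ℂ
  mul : ∀ I J, f (I * J) = f I * f J
  ne : ∀ I, f I ≠ 0 ↔ I ≠ ⊥ ∧ IsCoprime I F
  ray : ∀ x y : D.O, x ≠ 0 → y ≠ 0 → x - y ∈ F → f (Ideal.span {x}) = f (Ideal.span {y})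

/-- not trivial -/
def Xc.Nt {F : Ideal D.O} (ξ : Xc D F) : Prop := ∃ I, ξ.f I ≠ 0 ∧ ξ.f I ≠ 1

/-- the product with a character of the class group -/
def Xc.tw {F : Ideal D.O} (ξ : Xc D F) (ω : Xc D ⊤) : Xc D F where
  f I := ξ.f I * ω.f I
  mul I J := by rw [ξ.mul, ω.mul]; ring
  ne I := by
    rw [mul_ne_zero_iff, ξ.ne, ω.ne]
    constructor
    · rintro ⟨h, -⟩
      exact h
    · rintro ⟨h, h'⟩
      refine ⟨⟨h, h'⟩, h, ?_⟩
      rw [Ideal.isCoprime_iff_sup_eq, sup_top_eq]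
  ray x y hx hy h := by
    rw [ξ.ray x y hx hy h, ω.ray x y hx hy Submodule.mem_top]

open Classical in
/-- the function `y ↦ ξ((y) / G)`, periodic mod `G F` -/
def vv {F : Ideal D.O} (ξ : Xc D F) (G : Ideal D.O) (y : D.O) : ℂ :=
  if h : ∃ B : Ideal D.O, ∃ z : D.O, z ≠ 0 ∧ z - y ∈ G * F ∧ G * B = Ideal.span {z} then
    ξ.f (Classical.choose h) else 0

open Classical in
/-- the operator `T_q` -/
def Tf (q : D.O) (φ : D.O → ℂ) (y : D.O) : ℂ :=
  if h : ∃ z, y = q * z then ((nn D q : ℕ) : ℂ) * φ (Classical.choose h) else 0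

/-- the span of the functions `T_q φ - φ`, `φ` periodic -/
def Hsp (D : RNP.OD) : Submodule ℂ (D.O → ℂ) :=
  Submodule.span ℂ {g | ∃ q : D.O, q ≠ 0 ∧ ∃ M : ℕ, 0 < M ∧ ∃ φ : D.O → ℂ, Pe M φ ∧
    g = fun y => Tf q φ y - φ y}

/-- periodic functions of type `χ` -/
structure Tc {N : ℕ} (χ : Chr D N) (g : D.O → ℂ) : Prop where
  per : Pe N g
  eqv : ∀ x, Cp N x → ∀ y, g (x * y) = χ.f x * g y

/-- `χ` is defined mod `J` -/
structure Fac {N : ℕ} (χ : Chr D N) (J : Ideal D.O) : Prop where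
  le : Ideal.span {(N : D.O)} ≤ J
  one : ∀ x, Cp N x → x - 1 ∈ J → χ.f x = 1

/-- `F` is the conductor of `χ`, and `ξ` extends `χ` -/
structure Ext {N : ℕ} (χ : Chr D N) {F : Ideal D.O} (ξ : Xc D F) : Prop where
  fac : Fac χ F
  min : ∀ J, Fac χ J → J ≤ F
  ext : ∀ x, x ≠ 0 → Cp N x → ξ.f (Ideal.span {x}) = χ.f x

/-- the sum over an ideal with the heat factor -/
def Zt (B : Ideal D.O) (g : D.O → ℂ) (τ : ℝ) : ℂ := by
  classical
  exact ∑' y : D.O, (if y ∈ B then g y else 0) * ((Real.exp (-τ * nn D y) / nn D y : ℝ) : ℂ)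

/-- the sum over all ideals with the heat factor -/
def heat {F : Ideal D.O} (ξ : Xc D F) (τ : ℝ) : ℂ :=
  ∑' I : Ideal D.O, ξ.f I * ((Real.exp (-τ * ni I) / ni I : ℝ) : ℂ)

end

end RNG
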