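import Pool.Agent.RN2.Kf
import Pool.Agent.RNG.Xd

/-!
# RNG.Krg: Kronecker's limit formula for a general lattice

The proof of `RN2.kron` (`RN2/Kf`; most of its private lemmas are for a general `b : UNL.Par`) with `b` in place of
`toU D.a` and without the bijection of the frequencies with `O`. `gd b lg k = fk b (tp b k)` for `k ≠ 0` (see
`RN2.gd_lg` in `RN2/Bs`). The lower bound of the frequencies comes from `UNL.mm_sum3`.
-/

open RNK Filter Topology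

namespace RNG

noncomputable section

variable {N : ℕ} [NeZero N]

theorem gd_lg' (b : UNL.Par) (k : UNL.G N) : RN2.gd b RN2.lg k =
    ((if k = 0 then 0 else RN2.fk b (UNL.tp b k) : ℝ) : ℂ) := by
  unfold RN2.gd
  by_cases hk : k = 0
  · rw [dif_neg fun h => h.1 hk, if_pos hk]
    simp
  · have h0 : UNL.kl b (UNL.tp b k) 0 ≠ 0 := by
      apply UNL.kl_ne
      rw [zero_sub]
      exact UNL.ofl_neg' (UNL.ofl_tp b (Nat.pos_of_ne_zero (NeZero.ne N)) hk)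
    rw [dif_pos ⟨hk, h0⟩, if_neg hk]
    rfl

private theorem krg_per (b : UNL.Par) :
    @UQO.Per (UNL.PartB_lt b) ℂ (fun z => ((RN2.fk b z : ℝ) : ℂ)) := by
  intro u n
  exact congrArg (fun r : ℝ => (r : ℂ)) (RN2.fk_per b u n)

/-- the Fourier series of `fk`, with the heat factor -/
private def krg_S (b : UNL.Par) (τ : ℝ) (z : ℂ) : ℂ :=
  ∑' n : ℤ × ℤ, ((Real.exp (-τ * ‖UNL.mm b n‖ ^ 2) : ℝ) : ℂ) *
    (UNL.fc b (fun z => ((RN2.fk b z : ℝ) : ℂ)) n * UNL.ch b n z)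

private theorem krg_lim (b : UNL.Par) {z : ℂ} (hz : UNL.Ofl b z) :
    Tendsto (fun τ : ℝ => krg_S b τ z) (𝓝[>] 0) (𝓝 ((RN2.fk b z : ℝ) : ℂ)) := by
  letI := UNL.PartB_lt b
  have h := RN2.heat_lim (krg_per b) (RN2.fk_int b) (RN2.fk_cont b hz)
  refine h.congr fun τ => ?_
  unfold krg_S
  refine tsum_congr fun n => ?_
  rw [UNL.PartB_ch]
  have h2 : UNL.fc b (fun z => ((RN2.fk b z : ℝ) : ℂ)) n =
      UQO.fc (fun z => ((RN2.fk b z : ℝ) : ℂ)) n := by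
    unfold UNL.fc UQO.fc
    refine MeasureTheory.integral_congr_ae (Filter.Eventually.of_forall fun x => ?_)
    show _ * UNL.ch b (-n) (UNL.cu b x) = _ * UQO.ch (-n) (UQO.cu x)
    rw [UNL.PartB_ch]
    rfl
  rw [h2]
  rfl

private theorem krg_norm_ch (b : UNL.Par) (n : ℤ × ℤ) (u : ℂ) : ‖UNL.ch b n u‖ = 1 := by
  unfold UNL.ch
  rw [Complex.norm_exp]
  have : (((UNL.kap b : ℝ) : ℂ) * (UNL.mm b n * u - UNL.cj (UNL.mm b n * u))).re = 0 := by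
    rw [Complex.re_ofReal_mul, Complex.sub_re, Complex.conj_re, sub_self, mul_zero]
  rw [this, Real.exp_zero]

private theorem krg_gauss (b : UNL.Par) {τ : ℝ} (hτ : 0 < τ) :
    Summable (fun n : ℤ × ℤ => Real.exp (-τ * ‖UNL.mm b n‖ ^ 2)) := by
  letI := UNL.PartB_lt b
  exact RN2.gauss_summable hτ

private theorem krg_kap (b : UNL.Par) : 0 < UNL.kap b := by
  unfold UNL.kap
  have h1 := UNL.A_pos b
  have h2 := UNL.sD_pos b
  have h3 := Real.pi_pos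
  positivity

private theorem krg_ge (b : UNL.Par) : ∃ δ : ℝ, 0 < δ ∧ ∀ n : ℤ × ℤ, n ≠ 0 → δ ≤ ‖UNL.mm b n‖ ^ 2 := by
  set S : ℝ := ∑' p : ℤ × ℤ, ‖UNL.mm b p‖⁻¹ ^ 3 with hS
  have hS0 : 0 ≤ S := tsum_nonneg fun p => by positivity
  refine ⟨((1 + S) ^ 2)⁻¹, by positivity, fun n hn => ?_⟩
  have h0 : 0 < ‖UNL.mm b n‖ := norm_pos_iff.2 fun h => hn ((UNL.mm_eq_zero b).1 h)
  have h1 : ‖UNL.mm b n‖⁻¹ ^ 3 ≤ S := (UNL.mm_sum3 b).le_tsum n fun p _ => by positivity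
  have h2 : ‖UNL.mm b n‖⁻¹ ≤ 1 + S := by
    by_contra h
    push Not at h
    have hx : 1 ≤ ‖UNL.mm b n‖⁻¹ := by linarith
    have : ‖UNL.mm b n‖⁻¹ ≤ ‖UNL.mm b n‖⁻¹ ^ 3 := by
      have := pow_le_pow_right₀ hx (show 1 ≤ 3 by norm_num)
      rwa [pow_one] at this
    linarith
  have h3 : (1 + S)⁻¹ ≤ ‖UNL.mm b n‖ := by
    have := inv_anti₀ (inv_pos.2 h0) h2
    rwa [inv_inv] at this
  rw [← inv_pow]
  exact pow_le_pow_left₀ (by positivity) h3 2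

private theorem krg_sum (b : UNL.Par) {τ : ℝ} (hτ : 0 < τ) (z : ℂ) :
    Summable (fun n : ℤ × ℤ => ((Real.exp (-τ * ‖UNL.mm b n‖ ^ 2) : ℝ) : ℂ) *
      (UNL.fc b (fun z => ((RN2.fk b z : ℝ) : ℂ)) n * UNL.ch b n z)) := by
  set c : ℤ × ℤ → ℂ := UNL.fc b (fun z => ((RN2.fk b z : ℝ) : ℂ)) with hc
  have hκ := krg_kap b
  obtain ⟨δ, hδ, hge⟩ := krg_ge b
  have hb : ∀ n, ‖c n‖ ≤ ‖c 0‖ + 1 / (2 * UNL.kap b * δ) := by
    intro n
    by_cases hn : n = 0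
    · rw [hn]
      have : 0 ≤ 1 / (2 * UNL.kap b * δ) := by positivity
      linarith
    · have h1 := hge n hn
      have h2 : c n = -(1 / (2 * UNL.kap b * ((‖UNL.mm b n‖ ^ 2 : ℝ) : ℂ))) :=
        RN2.fk_fc b hn
      have h3 : ‖c n‖ = 1 / (2 * UNL.kap b * ‖UNL.mm b n‖ ^ 2) := by
        rw [h2, norm_neg, norm_div, norm_one, norm_mul, norm_mul, Complex.norm_real,
          Complex.norm_real, Real.norm_of_nonneg hκ.le,
          Real.norm_of_nonneg (sq_nonneg _)]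
        norm_num
      rw [h3]
      have h4 : 1 / (2 * UNL.kap b * ‖UNL.mm b n‖ ^ 2) ≤ 1 / (2 * UNL.kap b * δ) := by
        apply one_div_le_one_div_of_le (by positivity)
        exact mul_le_mul_of_nonneg_left h1 (by positivity)
      have := norm_nonneg (c 0)
      linarith
  refine Summable.of_norm_bounded
    ((krg_gauss b hτ).mul_right (‖c 0‖ + 1 / (2 * UNL.kap b * δ))) fun n => ?_
  rw [norm_mul, norm_mul, krg_norm_ch, mul_one, Complex.norm_real,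
    Real.norm_of_nonneg (Real.exp_nonneg _)]
  exact mul_le_mul_of_nonneg_left (hb n) (Real.exp_nonneg _)

private theorem krg_ch0 (b : UNL.Par) (u : ℂ) : UNL.ch b 0 u = 1 := by
  unfold UNL.ch
  rw [UNL.mm_zero]
  simp [UNL.cj]

theorem kron_b (b : UNL.Par) {A : UNL.G N → ℂ} (h0 : A 0 = 0) (hs : ∑ k, A k = 0) :
    Tendsto (fun τ : ℝ => ∑' n : ℤ × ℤ, (∑ k : UNL.G N, A k * UNL.ch b n (UNL.tp b k)) *
      ((Real.exp (-τ * ‖UNL.mm b n‖ ^ 2) / ‖UNL.mm b n‖ ^ 2 : ℝ) : ℂ)) (𝓝[>] 0)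
      (𝓝 (-(2 * UNL.kap b) * ∑ k : UNL.G N, A k * RN2.gd b RN2.lg k)) := by
  have hκ : ((UNL.kap b : ℝ) : ℂ) ≠ 0 := by
    exact_mod_cast (krg_kap b).ne'
  have h1 : Tendsto (fun τ => ∑ k : UNL.G N, A k * krg_S b τ (UNL.tp b k))
      (𝓝[>] 0) (𝓝 (∑ k, A k * RN2.gd b RN2.lg k)) := by
    refine tendsto_finsetSum _ fun k _ => ?_
    by_cases hk : k = 0
    · rw [hk, h0]
      simp only [zero_mul]
      exact tendsto_const_nhds
    · rw [gd_lg', if_neg hk]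
      exact (krg_lim b (UNL.Gen.tp_off b hk)).const_mul _
  have h2 := h1.const_mul (-(2 * UNL.kap b : ℂ))
  refine h2.congr' ?_
  filter_upwards [self_mem_nhdsWithin] with τ hτ
  have hτ : 0 < τ := hτ
  unfold krg_S
  have h3 : ∀ k : UNL.G N, A k * ∑' n : ℤ × ℤ,
      ((Real.exp (-τ * ‖UNL.mm b n‖ ^ 2) : ℝ) : ℂ) *
        (UNL.fc b (fun z => ((RN2.fk b z : ℝ) : ℂ)) n *
          UNL.ch b n (UNL.tp b k)) =
      ∑' n : ℤ × ℤ, A k * (((Real.exp (-τ * ‖UNL.mm b n‖ ^ 2) : ℝ) : ℂ) *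
        (UNL.fc b (fun z => ((RN2.fk b z : ℝ) : ℂ)) n *
          UNL.ch b n (UNL.tp b k))) := fun k => tsum_mul_left.symm
  rw [Finset.sum_congr rfl fun k _ => h3 k,
    ← Summable.tsum_finsetSum fun k _ => (krg_sum b hτ (UNL.tp b k)).mul_left (A k),
    ← tsum_mul_left]
  refine tsum_congr fun n => ?_
  by_cases hn : n = 0
  · have e1 : ∑ k : UNL.G N, A k * (((Real.exp (-τ * ‖UNL.mm b n‖ ^ 2) : ℝ) : ℂ) *
        (UNL.fc b (fun z => ((RN2.fk b z : ℝ) : ℂ)) n *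
          UNL.ch b n (UNL.tp b k))) = 0 := by
      have e2 : ∀ k : UNL.G N, A k * (((Real.exp (-τ * ‖UNL.mm b n‖ ^ 2) : ℝ) : ℂ) *
          (UNL.fc b (fun z => ((RN2.fk b z : ℝ) : ℂ)) n *
            UNL.ch b n (UNL.tp b k))) =
          A k * (((Real.exp (-τ * ‖UNL.mm b n‖ ^ 2) : ℝ) : ℂ) *
          UNL.fc b (fun z => ((RN2.fk b z : ℝ) : ℂ)) n) := by
        intro k
        rw [hn, krg_ch0, mul_one]
      rw [Finset.sum_congr rfl fun k _ => e2 k, ← Finset.sum_mul, hs, zero_mul]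
    have e3 : ∑ k : UNL.G N, A k * UNL.ch b n (UNL.tp b k) = 0 := by
      have e4 : ∀ k : UNL.G N, A k * UNL.ch b n (UNL.tp b k) = A k := by
        intro k
        rw [hn, krg_ch0, mul_one]
      rw [Finset.sum_congr rfl fun k _ => e4 k, hs]
    rw [e1, e3, mul_zero, zero_mul]
  · have h4 : (((‖UNL.mm b n‖ ^ 2 : ℝ)) : ℂ) ≠ 0 := by
      have h5 : ‖UNL.mm b n‖ ≠ 0 := norm_ne_zero_iff.2 fun h => hn ((UNL.mm_eq_zero b).1 h)
      have : (‖UNL.mm b n‖ ^ 2 : ℝ) ≠ 0 := pow_ne_zero 2 h5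
      exact_mod_cast this
    rw [Finset.mul_sum, Finset.sum_mul]
    refine Finset.sum_congr rfl fun k _ => ?_
    rw [RN2.fk_fc b hn, Complex.ofReal_div]
    field_simp

end

end RNG
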