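import Pool.Agent.RNG.Lig
import Pool.Agent.RNG.Krg
import Pool.Agent.RN2.Kr
import Pool.Agent.RNG.Xd

/-!
# RNG.Zcg: the sums over the ideals vanish for closed weights

`A = Al V l`, `ga V l (y) = Σ_k A(k) ψ(y tp k)`. `A 0 = 0` (`anti`, `ev`: `V 0 l - V 0 l`), `Σ_k A k = 0` (`row`, and `Σ_k V k (k + l) = 0`: see `wd_diag` in `RN2/Wd`).
* `Vc` for the weight `V' = V (x re p ·) (x re p ·)`, on `b = lb D p`: it is even, antisymmetric, has row sums `0` (`re_bij`, `Cp_inv`: `k ↦ x re p k` is a bijection which is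
  additive) and `(N/2) k = 0` on the support. `RN2.K_of_closed` for `V'`, `δ = lg`, at the index `c` with `x re p c = l`: `Σ_k A(x re p k) gd b δ k = 0`. With `x` and `p` fixed, by
  `kron_b` for `k ↦ A(x re p k)` the sum `Σ'_n (Σ_k A(x re p k) ch b n (tp k)) exp (-τ |mm n|²) / |mm n|²` tends to `0`. With `y = p.1 mm n ∈ ci (li D p)` (`mm_li`) and `ch_re`:
  `Σ_k A(x re p k) ψ(y tp (re p k)) = Σ_k A(k) ψ(y x' y.. )`: replace `re p k` by `k`, then `x k` by `k`: with `x x' ≡ 1` mod `N`: `= ga V l (x' y)`. So (`x'` instead of `x`)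
  `Zt (ci (li D p)) (fun y => ga V l (x y)) τ → 0` (`|mm n|² = nn y / p.1²`, replace `τ` by `τ p.1²`).
* For an ideal `B` prime to `N` and the representative `p` of the class of `ci B` we have `(a) B = (b) ci (li D p)`, `a`, `b` prime to `N` (`ie_cp`): `a y = b w`,
  `Zt B g τ = c⁻² Zt (ci (li D p)) (g (a⁻¹ b ·)) (c² τ)`, `c = |b / a|`.
* `closed_gd`: `p = (1, 0)`, `x = 1` (`lb_one`, `re_one`).
-/

open RNK Filter Topology

namespace RNG

noncomputable section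

variable {D : RNP.OD} {N : ℕ} [NeZero N]

/-- weights which are closed on the lattices of representatives of the classes -/
structure Vc (D : RNP.OD) {N : ℕ} [NeZero N] (V : UNL.G N → UNL.G N → ℤ) : Prop where
  hN : Even N
  ev : ∀ k l, V (-k) l = V k l
  anti : ∀ k l, V l k = -V k l
  row : ∀ l, ∑ k, V k l = 0
  supp : ∀ k l, V k l ≠ 0 → (N / 2) • k = 0
  cl : ∃ Q : Lr D N, (1, 0) ∈ Q.s ∧ ∀ p ∈ Q.s, ∀ x : D.O, Cp N x →
    ∀ Φ : (Additive (UNL.Gn (lb D p) N → ℂˣ)) [⋀^Fin 4]→ₗ[ℤ] ℂ,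
      UNL.bdry (lb D p) (fun k l => V (ac x (re p k)) (ac x (re p l))) Φ = 0

/-- the transform of `Al V l` -/
def ga (D : RNP.OD) (V : UNL.G N → UNL.G N → ℤ) (l : UNL.G N) (y : D.O) : ℂ :=
  ∑ k : UNL.G N, ((Al V l k : ℚ) : ℂ) * pss D ((y : ℂ) * UNL.tp (toU D.a) k)

variable {V : UNL.G N → UNL.G N → ℤ}

theorem ga_pe (V : UNL.G N → UNL.G N → ℤ) (l : UNL.G N) : Pe N (ga D V l) := by
  intro x y
  unfold ga
  refine Finset.sum_congr rfl fun k _ => ?_
  congr 1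
  have e : (((x + (N : D.O) * y : D.O)) : ℂ) * UNL.tp (toU D.a) k =
      (x : ℂ) * UNL.tp (toU D.a) k + (y : ℂ) * ((N : ℂ) * UNL.tp (toU D.a) k) := by
    push_cast
    ring
  rw [e, pss_add, pss_O (D.O.mul_mem y.2 (tp_N k)), mul_one]

theorem al_zero (h : Vc D V) (l : UNL.G N) : Al V l 0 = 0 := by
  have _ := h
  rw [Al, zero_add, sub_self]

private theorem zc_diag (h : Vc D V) (l : UNL.G N) : ∑ k, V k (k + l) = 0 := by
  have h1 : ∑ k, V k (k + l) = ∑ k, V (-(k + l)) (-(k + l) + l) := by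
    have := Equiv.sum_comp ((Equiv.neg (UNL.G N)).trans (Equiv.addRight (-l)))
      (fun k => V k (k + l))
    rw [← this]
    refine Finset.sum_congr rfl fun k _ => ?_
    simp only [Equiv.trans_apply, Equiv.neg_apply, Equiv.coe_addRight]
    rw [show -(k + l) = -k + -l by abel]
  have h2 : ∀ k, V (-(k + l)) (-(k + l) + l) = -V k (k + l) := by
    intro k
    rw [h.ev, show -(k + l) + l = -k by abel, h.anti, h.ev]
  have h3 : ∑ k, V k (k + l) = -∑ k, V k (k + l) := by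
    conv_lhs => rw [h1]
    rw [← Finset.sum_neg_distrib]
    exact Finset.sum_congr rfl fun k _ => h2 k
  omega

theorem al_sum (h : Vc D V) (l : UNL.G N) : ∑ k, Al V l k = 0 := by
  simp only [Al]
  rw [Finset.sum_sub_distrib]
  have h1 : ∑ k, (V k l : ℚ) = 0 := by exact_mod_cast h.row l
  have h2 : ∑ k, (V k (k + l) : ℚ) = 0 := by exact_mod_cast zc_diag h l
  rw [h1, h2, sub_zero]

theorem ga_mean (h : Vc D V) (l : UNL.G N) : ∑ k : UNL.G N, ga D V l (rp D k) = 0 := by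
  unfold ga
  rw [Finset.sum_comm]
  refine Finset.sum_eq_zero fun k _ => ?_
  rw [← Finset.mul_sum, orthk]
  by_cases hk : k = 0
  · rw [hk, al_zero h]
    simp
  · rw [if_neg hk, mul_zero]

private theorem zc_ar (g : ℂ) (c τ u : ℝ) :
    g * ((Real.exp (-τ * (c ^ 2 * u)) / (c ^ 2 * u) : ℝ) : ℂ) =
      (((c ^ 2)⁻¹ : ℝ) : ℂ) * (g * ((Real.exp (-(τ * c ^ 2) * u) / u : ℝ) : ℂ)) := by
  have h1 : Real.exp (-τ * (c ^ 2 * u)) / (c ^ 2 * u) =
      (c ^ 2)⁻¹ * (Real.exp (-(τ * c ^ 2) * u) / u) := by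
    rw [show -τ * (c ^ 2 * u) = -(τ * c ^ 2) * u by ring, div_mul_eq_div_div,
      ← div_eq_inv_mul, div_right_comm]
  rw [h1, Complex.ofReal_mul]
  ring

/-- the map `k ↦ x re p k` -/
private theorem zc_bij {p : ℕ × ℤ} (hp : Lt D N p) {x : D.O} (hx : Cp N x) :
    Function.Bijective (fun k : UNL.G N => ac x (re p k)) := by
  obtain ⟨y, -, hy⟩ := Cp_inv (N := N) hx
  have h1 : Function.Bijective (fun k : UNL.G N => ac x k) :=
    Function.bijective_iff_has_inverse.2 ⟨fun k => ac y k, fun k => (hy k).1, fun k => (hy k).2⟩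
  exact h1.comp (re_bij hp)

private theorem zc_zero {p : ℕ × ℤ} (x : D.O) : ac x (re p (0 : UNL.G N)) = 0 := by
  rw [re_zero, ac_zero]

private theorem zc_add {p : ℕ × ℤ} (x : D.O) (k l : UNL.G N) :
    ac x (re p (k + l)) = ac x (re p k) + ac x (re p l) := by
  rw [re_add, ac_addk]

private theorem zc_nsmul {p : ℕ × ℤ} (x : D.O) (n : ℕ) (k : UNL.G N) :
    ac x (re p (n • k)) = n • ac x (re p k) := by
  induction n with
  | zero => rw [zero_smul, zero_smul, zc_zero]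
  | succ n ih => rw [succ_nsmul, succ_nsmul, zc_add, ih]

private theorem zc_K (h : Vc D V) {p : ℕ × ℤ} (hp : Lt D N p) {x : D.O} (hx : Cp N x)
    (hcl : ∀ Φ : (Additive (UNL.Gn (lb D p) N → ℂˣ)) [⋀^Fin 4]→ₗ[ℤ] ℂ,
      UNL.bdry (lb D p) (fun k l => V (ac x (re p k)) (ac x (re p l))) Φ = 0)
    (δ : Additive ℂˣ →+ ℂ) (c : UNL.G N) :
    ∑ k : UNL.G N, ((Al V (ac x (re p c)) (ac x (re p k)) : ℚ) : ℂ) * RN2.gd (lb D p) δ k = 0 := by
  have hb := zc_bij (N := N) hp hx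
  have h1 := RN2.K_of_closed (b := lb D p) (N := N) h.hN
    (W := fun k l => V (ac x (re p k)) (ac x (re p l)))
    (fun k l => by
      show V (ac x (re p (-k))) _ = _
      rw [re_neg, ac_negk, h.ev])
    (fun k l => h.anti _ _)
    (fun l => by
      show ∑ k, V (ac x (re p k)) (ac x (re p l)) = 0
      rw [hb.sum_comp (fun k => V k (ac x (re p l)))]
      exact h.row _)
    (fun k l hkl => by
      have h2 := h.supp _ _ hkl
      rw [← zc_nsmul, ← zc_zero (p := p) x] at h2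
      exact hb.1 h2)
    hcl δ c
  rw [← h1]
  refine Finset.sum_congr rfl fun k _ => ?_
  congr 1
  show (((V (ac x (re p k)) (ac x (re p c)) : ℚ) -
    V (ac x (re p k)) (ac x (re p k) + ac x (re p c)) : ℚ) : ℂ) = _
  rw [← zc_add]
  push_cast
  rfl

theorem closed_gd (h : Vc D V) (l : UNL.G N) (δ : Additive ℂˣ →+ ℂ) :
    ∑ k : UNL.G N, ((Al V l k : ℚ) : ℂ) * RN2.gd (toU D.a) δ k = 0 := by
  obtain ⟨Q, hQ1, hQ⟩ := h.cl
  have h1 := zc_K h (lt_one D N) (x := 1) isCoprime_one_left (hQ _ hQ1 1 isCoprime_one_left) δ l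
  simp only [re_one, ac_one, lb_one] at h1
  exact h1

private theorem zc_ga {p : ℕ × ℤ} (hp : Lt D N p) {x x' : D.O} (hx' : Cp N x')
    (hxx : ∀ k : UNL.G N, ac x (ac x' k) = k) (l : UNL.G N) (n : ℤ × ℤ) (y : D.O)
    (hy : (y : ℂ) = ((p.1 : ℕ) : ℂ) * UNL.mm (lb D p) n) :
    ∑ k : UNL.G N, ((Al V l (ac x (re p k)) : ℚ) : ℂ) * UNL.ch (lb D p) n (UNL.tp (lb D p) k) =
      ga D V l (x' * y) := by
  have h1 : ∀ k : UNL.G N, ((Al V l (ac x (re p k)) : ℚ) : ℂ) *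
      UNL.ch (lb D p) n (UNL.tp (lb D p) k) =
      ((Al V l (ac x (re p k)) : ℚ) : ℂ) * pss D ((y : ℂ) * UNL.tp (toU D.a) (re p k)) := by
    intro k
    rw [ch_re hp, hy]
  rw [Finset.sum_congr rfl fun k _ => h1 k,
    (re_bij (N := N) hp).sum_comp (fun k => ((Al V l (ac x k) : ℚ) : ℂ) *
      pss D ((y : ℂ) * UNL.tp (toU D.a) k))]
  obtain ⟨z, -, hz⟩ := Cp_inv (N := N) hx'
  have hb : Function.Bijective (fun k : UNL.G N => ac x' k) :=
    Function.bijective_iff_has_inverse.2 ⟨fun k => ac z k, fun k => (hz k).1, fun k => (hz k).2⟩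
  rw [← hb.sum_comp (fun k => ((Al V l (ac x k) : ℚ) : ℂ) *
      pss D ((y : ℂ) * UNL.tp (toU D.a) k))]
  unfold ga
  refine Finset.sum_congr rfl fun k _ => ?_
  rw [hxx, pss_ac]
  congr 3
  push_cast
  ring

/-- the sum over an ideal as a sum over its elements -/
private theorem zt_sub (B : Ideal D.O) (g : D.O → ℂ) (τ : ℝ) :
    Zt B g τ = ∑' y : {y : D.O // y ∈ B}, g (y : D.O) *
      ((Real.exp (-τ * nn D (y : D.O)) / nn D (y : D.O) : ℝ) : ℂ) := by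
  classical
  unfold Zt
  rw [← Function.Injective.tsum_eq (Subtype.val_injective (p := fun y : D.O => y ∈ B))]
  · refine tsum_congr fun y => ?_
    rw [if_pos y.2]
  · intro y hy
    rw [Function.mem_support] at hy
    refine ⟨⟨y, ?_⟩, rfl⟩
    by_contra hc
    apply hy
    rw [if_neg hc, zero_mul]

/-- the sums over `ci (li D p)` -/
private theorem zc_li (h : Vc D V) (l : UNL.G N) {p : ℕ × ℤ} (hp : Lt D N p)
    (hcl : ∀ x : D.O, Cp N x → ∀ Φ : (Additive (UNL.Gn (lb D p) N → ℂˣ)) [⋀^Fin 4]→ₗ[ℤ] ℂ,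
      UNL.bdry (lb D p) (fun k l => V (ac x (re p k)) (ac x (re p l))) Φ = 0) {x : D.O}
    (hx : Cp N x) : Tendsto (Zt (ci (li D p)) (fun y => ga D V l (x * y))) (𝓝[>] 0) (𝓝 0) := by
  classical
  obtain ⟨x', hx', hxx⟩ := Cp_inv (N := N) hx
  have hb := zc_bij (N := N) hp hx'
  obtain ⟨c, hc⟩ := hb.2 l
  have hc : ac x' (re p c) = l := hc
  set A : UNL.G N → ℂ := fun k => ((Al V l (ac x' (re p k)) : ℚ) : ℂ) with hA
  have hA0 : A 0 = 0 := by
    show ((Al V l (ac x' (re p 0)) : ℚ) : ℂ) = 0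
    rw [zc_zero, al_zero h, Rat.cast_zero]
  have hAs : ∑ k, A k = 0 := by
    show ∑ k, ((Al V l (ac x' (re p k)) : ℚ) : ℂ) = 0
    rw [hb.sum_comp (fun k => ((Al V l k : ℚ) : ℂ))]
    have := al_sum h l
    exact_mod_cast this
  have h1 := kron_b (lb D p) hA0 hAs
  have h2 : ∑ k : UNL.G N, A k * RN2.gd (lb D p) RN2.lg k = 0 := by
    have := zc_K h hp hx' (hcl x' hx') RN2.lg c
    rw [hc] at this
    exact this
  rw [h2, mul_zero] at h1
  obtain ⟨e, he⟩ := mm_li hp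
  have hp0 : (0 : ℝ) < (p.1 : ℕ) := by exact_mod_cast hp.1
  -- the sums agree
  have h3 : ∀ τ : ℝ, Zt (ci (li D p)) (fun y => ga D V l (x * y)) τ =
      ((((p.1 : ℕ) : ℝ) ^ 2)⁻¹ : ℝ) * ∑' n : ℤ × ℤ,
        (∑ k : UNL.G N, A k * UNL.ch (lb D p) n (UNL.tp (lb D p) k)) *
        ((Real.exp (-(τ * ((p.1 : ℕ) : ℝ) ^ 2) * ‖UNL.mm (lb D p) n‖ ^ 2) /
          ‖UNL.mm (lb D p) n‖ ^ 2 : ℝ) : ℂ) := by
    intro τ
    unfold Zt
    rw [← tsum_mul_left]
    have e1 : (∑' y : D.O, (if y ∈ ci (li D p) then ga D V l (x * y) else 0) *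
        ((Real.exp (-τ * nn D y) / nn D y : ℝ) : ℂ)) =
        ∑' y : {y : D.O // y ∈ ci (li D p)}, ga D V l (x * (y : D.O)) *
        ((Real.exp (-τ * nn D (y : D.O)) / nn D (y : D.O) : ℝ) : ℂ) := by
      rw [← Function.Injective.tsum_eq (Subtype.val_injective (p := fun y : D.O => y ∈ ci (li D p)))]
      · refine tsum_congr fun y => ?_
        rw [if_pos y.2]
      · intro y hy
        rw [Function.mem_support] at hy
        refine ⟨⟨y, ?_⟩, rfl⟩
        by_contra hc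
        apply hy
        rw [if_neg hc, zero_mul]
    rw [e1, ← e.tsum_eq]
    refine tsum_congr fun n => ?_
    have e2 : ∑ k : UNL.G N, A k * UNL.ch (lb D p) n (UNL.tp (lb D p) k) =
        ga D V l (x * (e n : D.O)) :=
      zc_ga hp hx (fun k => (hxx k).1) l n (e n : D.O) (he n)
    have e3 : ((nn D (e n : D.O) : ℕ) : ℝ) = ((p.1 : ℕ) : ℝ) ^ 2 * ‖UNL.mm (lb D p) n‖ ^ 2 := by
      rw [nn_real, he n, norm_mul, Complex.norm_natCast, mul_pow]
    rw [e2, e3]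
    exact zc_ar _ _ _ _
  have h4 : Tendsto (fun τ : ℝ => τ * ((p.1 : ℕ) : ℝ) ^ 2) (𝓝[>] 0) (𝓝[>] 0) := by
    refine tendsto_nhdsWithin_iff.2 ⟨?_, ?_⟩
    · have : Tendsto (fun τ : ℝ => τ * ((p.1 : ℕ) : ℝ) ^ 2) (𝓝 0) (𝓝 (0 * ((p.1 : ℕ) : ℝ) ^ 2)) :=
        tendsto_id.mul_const _
      rw [zero_mul] at this
      exact this.mono_left nhdsWithin_le_nhds
    · filter_upwards [self_mem_nhdsWithin] with τ hτ
      have hτ : 0 < τ := hτ
      exact mul_pos hτ (pow_pos hp0 2)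
  have h5 := (h1.comp h4).const_mul ((((((p.1 : ℕ) : ℝ) ^ 2)⁻¹ : ℝ)) : ℂ)
  rw [mul_zero] at h5
  refine h5.congr fun τ => ?_
  rw [h3 τ]
  rfl

theorem closed_Z [IsDedekindDomain D.O] (h : Vc D V) (l : UNL.G N) {x : D.O} (hx : Cp N x)
    {B : Ideal D.O} (hB : Ip N B) :
    Tendsto (Zt B (fun y => ga D V l (x * y))) (𝓝[>] 0) (𝓝 0) := by
  classical
  obtain ⟨Q, -, hQ⟩ := h.cl
  obtain ⟨p, hpQ, hie⟩ := Q.ex (ci B) (ci_ip.2 hB).1
  have hp := Q.lt p hpQ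
  obtain ⟨a₀, b₀, ha0, hb0, hac, hbc, hab⟩ := ie_cp (ci_ip.2 hB) (ip_li hp) hie
  obtain ⟨a, ha⟩ : ∃ a, a = cj a₀ := ⟨_, rfl⟩
  obtain ⟨b, hb⟩ : ∃ b, b = cj b₀ := ⟨_, rfl⟩
  have hane : a ≠ 0 := fun h0 => ha0 (nn_eq_zero.1 (by
    rw [← nn_cj, ← ha, h0]
    exact nn_eq_zero.2 rfl))
  have hbne : b ≠ 0 := fun h0 => hb0 (nn_eq_zero.1 (by
    rw [← nn_cj, ← hb, h0]
    exact nn_eq_zero.2 rfl))
  have hac' : Cp N a := by
    rw [ha]
    exact Cp_cj.2 hac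
  have hbc' : Cp N b := by
    rw [hb]
    exact Cp_cj.2 hbc
  have hE : Ideal.span {a} * B = Ideal.span {b} * ci (li D p) := by
    have := congrArg ci hab
    rwa [ci_mul, ci_mul, ci_span, ci_span, ci_ci, ← ha, ← hb] at this
  obtain ⟨u, v, huv⟩ := hac'
  have huc : Cp N u := ⟨a, v, by rw [mul_comm a u]; exact huv⟩
  have hf1 : ∀ w : {w : D.O // w ∈ ci (li D p)}, ∃ y : {y : D.O // y ∈ B},
      a * (y : D.O) = b * (w : D.O) := by
    intro w
    have h1 : b * (w : D.O) ∈ Ideal.span {b} * ci (li D p) :=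
      Ideal.mem_span_singleton_mul.2 ⟨_, w.2, rfl⟩
    rw [← hE] at h1
    obtain ⟨y, hy, hy'⟩ := Ideal.mem_span_singleton_mul.1 h1
    exact ⟨⟨y, hy⟩, hy'⟩
  choose f hf using hf1
  have hfb : Function.Bijective f := by
    constructor
    · intro w w' hw
      have h1 := hf w
      rw [hw, hf w'] at h1
      exact Subtype.ext (mul_left_cancel₀ hbne h1.symm)
    · intro y
      have h1 : a * (y : D.O) ∈ Ideal.span {a} * B :=
        Ideal.mem_span_singleton_mul.2 ⟨_, y.2, rfl⟩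
      rw [hE] at h1
      obtain ⟨w, hw, hw'⟩ := Ideal.mem_span_singleton_mul.1 h1
      refine ⟨⟨w, hw⟩, Subtype.ext (mul_left_cancel₀ hane ?_)⟩
      rw [hf ⟨w, hw⟩]
      exact hw'
  have hna : (0 : ℝ) < nn D a := by
    exact_mod_cast Nat.pos_of_ne_zero (fun h0 => hane (nn_eq_zero.1 h0))
  have hnb : (0 : ℝ) < nn D b := by
    exact_mod_cast Nat.pos_of_ne_zero (fun h0 => hbne (nn_eq_zero.1 h0))
  obtain ⟨c, hc1, hc2⟩ : ∃ c : ℝ, 0 < c ∧ c ^ 2 = nn D b / nn D a :=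
    ⟨Real.sqrt (nn D b / nn D a), Real.sqrt_pos.2 (div_pos hnb hna),
      Real.sq_sqrt (div_pos hnb hna).le⟩
  have hnn : ∀ w, ((nn D (f w : D.O) : ℕ) : ℝ) = c ^ 2 * nn D (w : D.O) := by
    intro w
    have h1 : ((nn D (a * (f w : D.O)) : ℕ) : ℝ) = ((nn D (b * (w : D.O)) : ℕ) : ℝ) := by
      rw [hf w]
    rw [nn_mul, nn_mul] at h1
    push_cast at h1
    rw [hc2, div_mul_eq_mul_div, eq_div_iff hna.ne', mul_comm]
    exact h1
  have hga : ∀ w, ga D V l (x * (f w : D.O)) = ga D V l ((x * u * b) * (w : D.O)) := by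
    intro w
    have e : x * (f w : D.O) = (x * u * b) * (w : D.O) + (N : D.O) * (v * x * (f w : D.O)) := by
      linear_combination (-(x * (f w : D.O))) * huv + x * u * hf w
    rw [e, ga_pe]
  have h3 : ∀ τ : ℝ, Zt B (fun y => ga D V l (x * y)) τ = (((c ^ 2)⁻¹ : ℝ) : ℂ) *
      Zt (ci (li D p)) (fun y => ga D V l ((x * u * b) * y)) (τ * c ^ 2) := by
    intro τ
    rw [zt_sub, zt_sub, ← tsum_mul_left, ← (Equiv.ofBijective f hfb).tsum_eq]
    refine tsum_congr fun w => ?_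
    show ga D V l (x * (f w : D.O)) * ((Real.exp (-τ * nn D (f w : D.O)) /
      nn D (f w : D.O) : ℝ) : ℂ) = _
    rw [hga, hnn]
    exact zc_ar _ _ _ _
  have h4 : Tendsto (fun τ : ℝ => τ * c ^ 2) (𝓝[>] 0) (𝓝[>] 0) := by
    refine tendsto_nhdsWithin_iff.2 ⟨?_, ?_⟩
    · have : Tendsto (fun τ : ℝ => τ * c ^ 2) (𝓝 0) (𝓝 (0 * c ^ 2)) :=
        tendsto_id.mul_const _
      rw [zero_mul] at this
      exact this.mono_left nhdsWithin_le_nhds
    · filter_upwards [self_mem_nhdsWithin] with τ hτ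
      have hτ : 0 < τ := hτ
      exact mul_pos hτ (pow_pos hc1 2)
  have h5 := ((zc_li h l hp (hQ p hpQ) (Cp_mul.2 ⟨Cp_mul.2 ⟨hx, huc⟩, hbc'⟩)).comp h4).const_mul
    ((((c ^ 2)⁻¹ : ℝ)) : ℂ)
  rw [mul_zero] at h5
  refine h5.congr fun τ => ?_
  rw [h3 τ]
  rfl

end

end RNG
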