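import Pool.Agent.RNG.Xh
import Pool.Agent.RNG.Xu
import Pool.Agent.RNG.Zcg

/-!
# RNG.Xw: closed weights satisfy the distribution relations

`ga D V l ∈ Hsp` (`mem_all`, `closed_Z`), so it has a representation (`Hsp_rep`), as weights (`rep_wt`), the values at `0` satisfy `de_c` (`closed_gd`), so `ga D V l ∈ Hsp0`
(`Hsp0_of`), and `rep_wt` again gives the relations; a `ℚ`-linear projection of `ℂ` to `ℚ` makes them rational.
-/

open RNK Filter Topology

namespace RNG

noncomputable section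

variable {D : RNP.OD} [IsDedekindDomain D.O] {N : ℕ} [NeZero N] {V : UNL.G N → UNL.G N → ℤ}

private theorem xw_mem (h : Vc D V) (l : UNL.G N) : ga D V l ∈ Hsp D :=
  mem_all (ga_pe V l) (ga_mean h l) (fun _ hx _ hB => closed_Z h l hx hB)

omit [IsDedekindDomain D.O] in
private theorem xw_two (h : Vc D V) {M : ℕ} [NeZero M] (hd : N ∣ M) : 1 < M := by
  have h1 : 2 ∣ N := h.hN.two_dvd
  have h2 : 2 ≤ N := Nat.le_of_dvd (NeZero.pos N) h1
  have h3 : N ≤ M := Nat.le_of_dvd (NeZero.pos M) hd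
  omega

private theorem xw_mem0 (h : Vc D V) (l : UNL.G N) : ga D V l ∈ Hsp0 D := by
  classical
  obtain ⟨M', hM', J, q, φ, hr⟩ := Hsp_rep (xw_mem h l)
  obtain ⟨M₀, h0, hN0, hw⟩ := rep_wt (A := fun k => ((Al V l k : ℚ) : ℂ)) hr
  haveI : NeZero M₀ := ⟨h0.ne'⟩
  obtain ⟨hq, c, hc0, hA⟩ := hw M₀ inferInstance dvd_rfl
  refine Hsp0_of hr fun δ hqn => ?_
  have h1 : ∑ k : UNL.G M₀, upc (fun k => ((Al V l k : ℚ) : ℂ)) k = 0 := by
    have h2 := sum_dn hN0 (fun k : UNL.G N => ((Al V l k : ℚ) : ℂ))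
    unfold upc
    rw [h2, ← Rat.cast_sum, al_sum h, Rat.cast_zero]
  have h3 : ∑ k : UNL.G M₀, upc (fun k => ((Al V l k : ℚ) : ℂ)) k * RN2.gd (toU D.a) δ k = 0 := by
    have h4 := sum_dn hN0 (fun k : UNL.G N => ((Al V l k : ℚ) : ℂ) * RN2.gd (toU D.a) δ k)
    rw [closed_gd h l δ] at h4
    rw [← h4]
    refine Finset.sum_congr rfl fun k _ => ?_
    unfold upc
    by_cases hk : N • k = 0
    · rw [if_pos hk, if_pos hk, gd_dn (toU D.a) hN0 δ hk]
    · rw [if_neg hk, if_neg hk, zero_mul]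
  have h5 := de_c (xw_two h hN0) hq hA h1 δ h3 hqn
  rw [← h5]
  exact Finset.sum_congr rfl fun j _ => by rw [hc0]

/-- a projection to the rational numbers -/
private theorem xw_proj : ∃ π : ℂ →ₗ[ℚ] ℚ, ∀ r : ℚ, π (r : ℂ) = r := by
  obtain ⟨π, hπ⟩ := (Algebra.linearMap ℚ ℂ).exists_leftInverse_of_injective
    (LinearMap.ker_eq_bot.2 (algebraMap ℚ ℂ).injective)
  refine ⟨π, fun r => ?_⟩
  have h := LinearMap.congr_fun hπ r
  simpa using h

private theorem xw_rel (h : Vc D V) (l : UNL.G N) : ∃ M₀ : ℕ, 0 < M₀ ∧ N ∣ M₀ ∧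
    ∃ (J : ℕ) (q : Fin J → D.O), ∀ M : ℕ, ∀ _ : NeZero M, M₀ ∣ M →
      (∀ j, ∃ q' : D.O, q j * q' = (M : D.O)) ∧
      ∃ c : Fin J → UNL.G M → ℚ, (∀ j, c j 0 = 0) ∧
        ∀ k : UNL.G M, upc (fun k => ((Al V l k : ℚ) : ℂ)) k =
          ((∑ j, Rl (toU D.a) (cod D (q j)) (c j) k : ℚ) : ℂ) := by
  classical
  obtain ⟨π, hπ⟩ := xw_proj
  obtain ⟨M', hM', J, q, φ, hr, hm⟩ := Hsp0_rep (xw_mem0 h l)
  obtain ⟨M₀, h0, hN0, hw⟩ := rep_wt (A := fun k => ((Al V l k : ℚ) : ℂ)) hr
  refine ⟨M₀, h0, hN0, J, q, fun M hM hd => ?_⟩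
  obtain ⟨hq, c, hc0, hA⟩ := hw M hM hd
  refine ⟨hq, fun j k => π (c j k), fun j => ?_, fun k => ?_⟩
  · show π (c j 0) = 0
    rw [hc0, hm, map_zero]
  · obtain ⟨r, hr'⟩ : ∃ r : ℚ, upc (fun k => ((Al V l k : ℚ) : ℂ)) k = (r : ℂ) := by
      unfold upc
      split_ifs
      · exact ⟨_, rfl⟩
      · exact ⟨0, by simp⟩
    have h1 := hA k
    rw [hr'] at h1 ⊢
    have h2 := congrArg π h1
    rw [hπ, map_sum] at h2
    rw [h2]
    congr 1
    refine Finset.sum_congr rfl fun j _ => ?_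
    unfold Rc Rl
    rw [map_sub]
    congr 1
    split_ifs
    · rfl
    · rw [map_zero]

private theorem xw_common (f : UNL.G N → ℕ) (hf : ∀ l, 0 < f l) : ∃ M : ℕ, 0 < M ∧ N ∣ M ∧
    ∀ l, f l ∣ M := by
  refine ⟨N * ∏ l, f l, Nat.mul_pos (NeZero.pos N) (Finset.prod_pos fun l _ => hf l),
    dvd_mul_right _ _, fun l => ?_⟩
  exact (Finset.dvd_prod_of_mem f (Finset.mem_univ l)).trans (dvd_mul_left _ _)

theorem cwt_of_closed (h : Vc D V) : ∃ (M : ℕ) (_ : NeZero M), N ∣ M ∧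
    RNE.CWt (toU D.a) M (up V : UNL.G M → UNL.G M → ℤ) := by
  classical
  choose f hf1 hf2 J q hq using xw_rel h
  obtain ⟨M, hM, hNM, hd⟩ := xw_common f hf1
  haveI hM0 : NeZero M := ⟨hM.ne'⟩
  refine ⟨M, hM0, hNM, up_ev hNM h.ev, up_anti hNM h.anti, up_row hNM h.row,
    up_supp h.hN hNM h.supp, ?_⟩
  choose hqM c hc0 hc using fun l => hq l M hM0 (hd l)
  -- all relations together
  let I : Type := Σ l : UNL.G N, Fin (J l)
  let e : I ≃ Fin (Fintype.card I) := Fintype.equivFin I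
  choose q' hq' using hqM
  refine ⟨Fintype.card I, fun j => cod D (q (e.symm j).1 (e.symm j).2),
    fun j => cod D (q' (e.symm j).1 (e.symm j).2),
    fun j l k => if N • l = 0 ∧ (dn l : UNL.G N) = (e.symm j).1 then
      c (e.symm j).1 (e.symm j).2 k else 0, fun j => ?_, fun j l => ?_, fun l k => ?_⟩
  · have h1 := hq' (e.symm j).1 (e.symm j).2
    have h2 := congrArg (fun z : D.O => (z : ℂ)) h1
    simp only [MulMemClass.coe_mul] at h2
    rw [de_toU, de_toU, xx_cod, xx_cod]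
    simpa using h2
  · simp only
    split_ifs
    · exact hc0 _ _
    · rfl
  · have key : ∀ k : UNL.G M, Al (up V) l k = ∑ j : Fin (Fintype.card I),
        Rl (toU D.a) (cod D (q (e.symm j).1 (e.symm j).2))
          (fun k => if N • l = 0 ∧ (dn l : UNL.G N) = (e.symm j).1 then
            c (e.symm j).1 (e.symm j).2 k else 0) k := by
      intro k
      have h1 : (((Al (up V) l k : ℚ)) : ℂ) = ((∑ j : Fin (Fintype.card I),
        Rl (toU D.a) (cod D (q (e.symm j).1 (e.symm j).2))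
          (fun k => if N • l = 0 ∧ (dn l : UNL.G N) = (e.symm j).1 then
            c (e.symm j).1 (e.symm j).2 k else 0) k : ℚ) : ℂ) := by
        rw [up_Al hNM l k]
        have h2 : ∑ j : Fin (Fintype.card I),
            Rl (toU D.a) (cod D (q (e.symm j).1 (e.symm j).2))
              (fun k => if N • l = 0 ∧ (dn l : UNL.G N) = (e.symm j).1 then
                c (e.symm j).1 (e.symm j).2 k else 0) k = ∑ i : I,
            Rl (toU D.a) (cod D (q i.1 i.2))
              (fun k => if N • l = 0 ∧ (dn l : UNL.G N) = i.1 then c i.1 i.2 k else 0) k :=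
          Equiv.sum_comp e.symm (fun i : I => Rl (toU D.a) (cod D (q i.1 i.2))
              (fun k => if N • l = 0 ∧ (dn l : UNL.G N) = i.1 then c i.1 i.2 k else 0) k)
        rw [h2]
        have h3 : ∀ b : ℤ × ℤ, Rl (toU D.a) b (fun _ : UNL.G M => (0 : ℚ)) k = 0 := by
          intro b
          unfold Rl
          split_ifs <;> simp
        rw [Fintype.sum_sigma]
        by_cases hl : N • l = 0
        · rw [if_pos hl, hc (dn l) k, Finset.sum_eq_single (dn l : UNL.G N)]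
          · congr 1
            refine Finset.sum_congr rfl fun j _ => ?_
            congr 1
            funext k
            rw [if_pos ⟨hl, rfl⟩]
          · intro l' _ hl'
            refine Finset.sum_eq_zero fun j _ => ?_
            simp only [hl, true_and, if_neg (Ne.symm hl'), h3]
          · intro h4
            exact absurd (Finset.mem_univ _) h4
        · rw [if_neg hl]
          simp only [hl, false_and, if_false, h3]
          simp
      exact_mod_cast h1
    rw [key k, key (-k), ← Finset.sum_add_distrib]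

end

end RNG
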