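import Pool.Agent.RNG.Wfg
import Pool.Agent.RNG.Xw
import Pool.Agent.RN2.Fin

/-!
# RNG.Fing: the regulator integrals of all closed elements

`V = syW W` is closed on the lattices of the representatives, so `cwt_of_closed` and `int_psi` apply, and `∫ XReg (V) = 8 ∫ XReg (W)`.
-/

open RNK MeasureTheory

namespace RNG

noncomputable section

variable {D : RNP.OD} {m : ℕ} [NeZero m] {N : ℕ} [NeZero N]

/-- symmetrisation commutes with bijections which fix `0` and commute with `-` -/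
private theorem Fin_sy {Γ : Type*} [AddCommGroup Γ] [Fintype Γ] (W : Γ → Γ → ℤ) {f g : Γ → Γ}
    (h1 : ∀ x, f (g x) = x) (h2 : ∀ x, g (f x) = x) (hf : f 0 = 0) (hg : g 0 = 0)
    (hn : ∀ x, f (-x) = -f x) (k l : Γ) :
    RN2.syW (fun k l => W (f k) (f l)) k l = RN2.syW W (f k) (f l) := by
  classical
  have h0 : ∀ x : Γ, f x = 0 ↔ x = 0 := by
    intro x
    constructor
    · intro hx
      rw [← h2 x, hx, hg]
    · rintro rfl
      exact hf
  have hA : ∀ j x : Γ, RN2.syA (fun k l => W (f k) (f l)) j x = RN2.syA W (f j) (f x) := by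
    intro j x
    simp only [RN2.syA, hn]
  have hs : ∀ φ : Γ → ℤ, ∑ j ∈ Finset.univ.erase (0 : Γ), φ (f j) =
      ∑ j ∈ Finset.univ.erase (0 : Γ), φ j := by
    intro φ
    refine Finset.sum_nbij' f g ?_ ?_ ?_ ?_ ?_
    · intro x hx
      exact Finset.mem_erase.2 ⟨fun hc => Finset.ne_of_mem_erase hx ((h0 x).1 hc), Finset.mem_univ _⟩
    · intro x hx
      refine Finset.mem_erase.2 ⟨fun hc => Finset.ne_of_mem_erase hx ?_, Finset.mem_univ _⟩
      rw [← h1 x, hc, hf]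
    · intro x _
      exact h2 x
    · intro x _
      exact h1 x
    · intro x _
      rfl
  unfold RN2.syW
  by_cases hk : k = 0
  · by_cases hl : l = 0
    · rw [if_pos hk, if_pos hl, if_pos ((h0 k).2 hk), if_pos ((h0 l).2 hl)]
    · rw [if_pos hk, if_neg hl, if_pos ((h0 k).2 hk), if_neg (fun hc => hl ((h0 l).1 hc)),
        ← hs (fun j => RN2.syA W j (f l))]
      simp only [hA]
  · by_cases hl : l = 0
    · rw [if_neg hk, if_pos hl, if_neg (fun hc => hk ((h0 k).1 hc)), if_pos ((h0 l).2 hl),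
        ← hs (fun j => RN2.syA W (f k) j)]
      simp only [hA]
    · rw [if_neg hk, if_neg hl, if_neg (fun hc => hk ((h0 k).1 hc)),
        if_neg (fun hc => hl ((h0 l).1 hc))]
      exact hA k l


omit [NeZero m] in
theorem syW_re (W : UNL.G N → UNL.G N → ℤ) {d : D.O} (hd : Cp N d) {p : ℕ × ℤ} (hp : Lt D N p)
    (k l : UNL.G N) :
    RN2.syW (fun k l => W (ac d (re p k)) (ac d (re p l))) k l =
      RN2.syW W (ac d (re p k)) (ac d (re p l)) := by
  obtain ⟨y, -, hy⟩ := Cp_inv (N := N) hd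
  have hb := re_bij (N := N) hp
  set e := Equiv.ofBijective _ hb with he
  have h1 : ∀ x, re p (e.symm x) = x := fun x => e.apply_symm_apply x
  have h2 : ∀ x, e.symm (re p x) = x := fun x => e.symm_apply_apply x
  refine Fin_sy W (f := fun x => ac d (re p x)) (g := fun x => e.symm (ac y x)) (fun x => ?_)
    (fun x => ?_) ?_ ?_ (fun x => ?_) k l
  · show ac d (re p (e.symm (ac y x))) = x
    rw [h1]
    exact (hy x).2
  · show e.symm (ac y (ac d (re p x))) = x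
    rw [(hy (re p x)).1, h2]
  · show ac d (re p 0) = 0
    rw [re_zero, ac_zero]
  · show e.symm (ac y 0) = 0
    rw [ac_zero, ← re_zero (N := N) (p := p), h2, re_zero]
  · show ac d (re p (-x)) = -ac d (re p x)
    rw [re_neg, ac_negk]

omit [NeZero m] in
theorem vc_sy (hN : Even N) {W : UNL.G N → UNL.G N → ℤ}
    (hsupp : ∀ k l, k ≠ 0 → l ≠ 0 → W k l ≠ 0 → (N / 2) • k = 0 ∧ (N / 2) • l = 0)
    (Q : Lr D N) (hQ1 : (1, 0) ∈ Q.s) (hcl : ∀ p ∈ Q.s, ∀ x : D.O, Cp N x →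
      ∀ Φ : (Additive (UNL.Gn (lb D p) N → ℂˣ)) [⋀^Fin 4]→ₗ[ℤ] ℂ,
      UNL.bdry (lb D p) (fun k l => W (ac x (re p k)) (ac x (re p l))) Φ = 0) :
    Vc D (RN2.syW W) where
  hN := hN
  ev := RN2.sy_even W
  anti := RN2.sy_anti W
  row := RN2.sy_row W
  supp := RN2.sy_supp hsupp
  cl := by
    refine ⟨Q, hQ1, fun p hp x hx Φ => ?_⟩
    have h : (fun k l => RN2.syW W (ac x (re p k)) (ac x (re p l))) =
        RN2.syW (fun k l => W (ac x (re p k)) (ac x (re p l))) := by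
      funext k l
      exact (syW_re W hx (Q.lt p hp) k l).symm
    rw [h]
    exact RN2.sy_closed (hcl p hp x hx) Φ

variable [IsDedekindDomain D.O] (ψ : Hk D m)

theorem int_all (hN : Even N) (hm : m ∣ N) (Q : Lr D N) (hQ1 : (1, 0) ∈ Q.s) (S : Rs D N)
    {W : UNL.G N → UNL.G N → ℤ}
    (hsupp : ∀ k l, k ≠ 0 → l ≠ 0 → W k l ≠ 0 → (N / 2) • k = 0 ∧ (N / 2) • l = 0)
    (hcl : ∀ p ∈ Q.s, ∀ x : D.O, Cp N x →
      ∀ Φ : (Additive (UNL.Gn (lb D p) N → ℂˣ)) [⋀^Fin 4]→ₗ[ℤ] ℂ,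
      UNL.bdry (lb D p) (fun k l => W (ac x (re p k)) (ac x (re p l))) Φ = 0) {L : ℂ → ℂ}
    (hd : deriv L (-1) = -(6 * du m ψ.hc.f 1 * ((m * (UNI.om D.a).im / Real.pi) ^ 5 : ℝ)) *
      Eps ψ) :
    ∃ ρ ∈ D.K, ∑ p ∈ Q.s, ψ.f (li D p) / ((p.1 : ℕ) : ℂ) ^ 2 * ∑ d ∈ S.s, ψ.hc.f d *
      ∫ q : UNL.E × UNL.E, UNL.Gen.XReg (lb D p) (fun k l => W (ac d (re p k)) (ac d (re p l)))
        (UNL.cu (lb D p) q.1) (UNL.cu (lb D p) q.2) =
      (2 * Real.pi) ^ 3 * ρ * deriv L (-1) := by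
  have hV := vc_sy hN hsupp Q hQ1 hcl
  obtain ⟨ρ, hρ, h⟩ := int_psi ψ hN hm Q S hV.ev hV.anti hV.row hV.supp (cwt_of_closed hV) hd
  refine ⟨ρ / 8, D.K.div_mem hρ (RNP.O_sub_K (RNP.nat_O 8)), ?_⟩
  have h2 : ∑ p ∈ Q.s, ψ.f (li D p) / ((p.1 : ℕ) : ℂ) ^ 2 * ∑ d ∈ S.s, ψ.hc.f d *
      ∫ q : UNL.E × UNL.E, UNL.Gen.XReg (lb D p)
        (fun k l => RN2.syW W (ac d (re p k)) (ac d (re p l)))
        (UNL.cu (lb D p) q.1) (UNL.cu (lb D p) q.2) =
      8 * ∑ p ∈ Q.s, ψ.f (li D p) / ((p.1 : ℕ) : ℂ) ^ 2 * ∑ d ∈ S.s, ψ.hc.f d *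
      ∫ q : UNL.E × UNL.E, UNL.Gen.XReg (lb D p) (fun k l => W (ac d (re p k)) (ac d (re p l)))
        (UNL.cu (lb D p) q.1) (UNL.cu (lb D p) q.2) := by
    rw [Finset.mul_sum]
    refine Finset.sum_congr rfl fun p hp => ?_
    have h3 : ∀ d ∈ S.s, ψ.hc.f d * ∫ q : UNL.E × UNL.E, UNL.Gen.XReg (lb D p)
        (fun k l => RN2.syW W (ac d (re p k)) (ac d (re p l)))
        (UNL.cu (lb D p) q.1) (UNL.cu (lb D p) q.2) =
        8 * (ψ.hc.f d * ∫ q : UNL.E × UNL.E, UNL.Gen.XReg (lb D p)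
        (fun k l => W (ac d (re p k)) (ac d (re p l)))
        (UNL.cu (lb D p) q.1) (UNL.cu (lb D p) q.2)) := by
      intro d hds
      have h4 : (fun k l => RN2.syW W (ac d (re p k)) (ac d (re p l))) =
          RN2.syW (fun k l => W (ac d (re p k)) (ac d (re p l))) := by
        funext k l
        exact (syW_re W (S.cp d hds) (Q.lt p hp) k l).symm
      rw [h4, RN2.reg_sy]
      ring
    rw [Finset.sum_congr rfl h3, ← Finset.mul_sum]
    ring
  rw [h2] at h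
  have e8 : ((8 : ℕ) : ℂ) = 8 := by norm_num
  linear_combination (1 / 8 : ℂ) * h

end

end RNG
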