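import Pool.Agent.RNG.Ni
import Pool.Agent.RNP.Fc

/-!
# RNG.Ftg: Fourier transforms of weights of type `χ`

Adapt `RNK/Wr` (rational invariant weights) to weights `c` with values in `K` and
`χ(x) c(x k, x l) = c(k, l)` for `x` prime to `N`; `m ∣ N`.
* `FTc_eqv`: `FTc c (x w) = Σ c(k,l) ψ(w₁ tp(x k)) ψ(w₂ tp(x l))` (`pss_ac`), substitute `k = x⁻¹ k'`, `l = x⁻¹ l'`
  (`Cp_inv`): `c(x⁻¹ k', x⁻¹ l') = χ(x) c(k', l')`.
* `FTc_K`: for an integer `u` prime to `N` (`χ(u) = 1`, `χ.int`, `Cp m u` from `Cp N u`): `FTc c (u w) = FTc c w`.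
  Write `c = c₁ + ω c₂` with rational `c₁, c₂`; both are invariant under integers.
* `FTc_Fn`: finitely many values: periodicity on `O²` and `RNP.reps`.
* `pw_eqv`: `pw χ S c (k,l) = Σ_{d ∈ S} χ(d) c(d k, d l)`: `χ(x) pw(x k, x l) = Σ_d χ(d x) c(d x k, d x l)`, `rs_shift` for the
  function `h(r) = χ(r) c(r k, r l)` of period `N` (`m ∣ N`, `ac_per`).
-/

set_option linter.unusedSectionVars false
set_option linter.unusedVariables false

open RNK

namespace RNG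

noncomputable section

variable {D : RNP.OD} {m : ℕ} [NeZero m] (χ : Kc D m) {N : ℕ} [NeZero N]

omit [NeZero m] in
theorem FTc_O2 (c : UNL.G N → UNL.G N → ℂ) {w : Vec} (hw : RNP.O2 D w) :
    FTc D c w = ∑ k : UNL.G N, ∑ l : UNL.G N, c k l *
      (ps (toU D.a) (w.1 * UNL.tp (toU D.a) k) * ps (toU D.a) (w.2 * UNL.tp (toU D.a) l)) := by
  unfold FTc
  exact if_pos hw

omit [NeZero m] in
private theorem ft_O2s {w : Vec} (hw : RNP.O2 D w) (x : D.O) :
    RNP.O2 D ((x : ℂ) • w) :=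
  ⟨D.O.mul_mem x.2 hw.1, D.O.mul_mem x.2 hw.2⟩

private theorem ft_bij {x : D.O} (hx : Cp N x) :
    Function.Bijective (fun k : UNL.G N => ac x k) := by
  obtain ⟨y, -, hy⟩ := Cp_inv (N := N) hx
  refine Finite.injective_iff_bijective.1 ?_
  intro k k' h
  have h2 : ac y (ac x k) = ac y (ac x k') := congrArg (ac y) h
  rwa [(hy k).1, (hy k').1] at h2

theorem FTc_eqv (hm : m ∣ N) {c : UNL.G N → UNL.G N → ℂ} (hc : Eqv χ c) {x : D.O}
    (hx : Cp N x) {w : Vec} (hw : RNP.O2 D w) :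
    FTc D c ((x : ℂ) • w) = χ.f x * FTc D c w := by
  rw [FTc_O2 c (ft_O2s hw x), FTc_O2 c hw]
  have hps : ∀ (y : ℂ), y ∈ D.O → ∀ k : UNL.G N,
      ps (toU D.a) ((x : ℂ) * y * UNL.tp (toU D.a) k) =
        ps (toU D.a) (y * UNL.tp (toU D.a) (ac x k)) := by
    intro y hy k
    have h := pss_ac (N := N) x (⟨y, hy⟩ : D.O) k
    have e : (x : ℂ) * y * UNL.tp (toU D.a) k = y * x * UNL.tp (toU D.a) k := by ring
    rw [e]
    exact h.symm
  have h1 : ∀ k l : UNL.G N,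
      c k l * (ps (toU D.a) (((x : ℂ) • w).1 * UNL.tp (toU D.a) k) *
        ps (toU D.a) (((x : ℂ) • w).2 * UNL.tp (toU D.a) l)) =
      (fun k' l' : UNL.G N => χ.f x * (c k' l' *
        (ps (toU D.a) (w.1 * UNL.tp (toU D.a) k') *
          ps (toU D.a) (w.2 * UNL.tp (toU D.a) l'))))
        (ac x k) (ac x l) := by
    intro k l
    simp only [Prod.smul_fst, Prod.smul_snd, smul_eq_mul]
    rw [hps _ hw.1, hps _ hw.2, ← hc.eqv x hx k l]
    ring
  rw [Finset.sum_congr rfl fun k _ => Finset.sum_congr rfl fun l _ => h1 k l]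
  have hbij := ft_bij (D := D) (N := N) hx
  rw [hbij.sum_comp fun k' => ∑ l : UNL.G N,
    (fun k' l' : UNL.G N => χ.f x * (c k' l' *
        (ps (toU D.a) (w.1 * UNL.tp (toU D.a) k') *
          ps (toU D.a) (w.2 * UNL.tp (toU D.a) l')))) k' (ac x l)]
  rw [Finset.mul_sum]
  refine Finset.sum_congr rfl fun k' _ => ?_
  rw [Finset.mul_sum]
  exact hbij.sum_comp fun l' => χ.f x * (c k' l' *
        (ps (toU D.a) (w.1 * UNL.tp (toU D.a) k') *
          ps (toU D.a) (w.2 * UNL.tp (toU D.a) l')))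

/-! ### values in `K` -/

private theorem ft_gal {N : ℕ} [NeZero N] {ι : Type*} [Fintype ι] (c : ι → ℚ) (j : ι → ZMod N)
    (e : (ZMod N)ˣ → ι → ι) (he : ∀ u, Function.Bijective (e u)) (hc : ∀ u i, c (e u i) = c i)
    (hj : ∀ (u : (ZMod N)ˣ) i, j (e u i) = u * j i)
    {z : ℂ} (hz : IsPrimitiveRoot z N) : ∃ r : ℚ, ∑ i, (c i : ℂ) * z ^ (j i).val = r := by
  let K := CyclotomicField N ℚ
  have hne : NeZero ((N : ℕ) : ℚ) := ⟨by exact_mod_cast NeZero.ne N⟩
  have hcyc : IsCyclotomicExtension {N} ℚ K := CyclotomicField.isCyclotomicExtension N ℚ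
  have hfd : FiniteDimensional ℚ K := IsCyclotomicExtension.finiteDimensional {N} ℚ K
  have φ : K →ₐ[ℚ] ℂ := IsAlgClosed.lift
  have hN : 0 < N := Nat.pos_of_ne_zero (NeZero.ne N)
  obtain ⟨ζ, hζ, hφ⟩ : ∃ ζ : K, IsPrimitiveRoot ζ N ∧ φ ζ = z := by
    have h0 : IsPrimitiveRoot (IsCyclotomicExtension.zeta N ℚ K) N :=
      IsCyclotomicExtension.zeta_spec N ℚ K
    have h1 : IsPrimitiveRoot (φ (IsCyclotomicExtension.zeta N ℚ K)) N :=
      h0.map_of_injective φ.injective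
    obtain ⟨i, hi, hc, e⟩ := (h1.isPrimitiveRoot_iff).1 hz
    exact ⟨IsCyclotomicExtension.zeta N ℚ K ^ i, h0.pow_of_coprime i hc, by
      rw [map_pow, e]⟩
  let x : K := ∑ i, algebraMap ℚ K (c i) * ζ ^ (j i).val
  have hG : IsGalois ℚ K := IsCyclotomicExtension.isGalois {N} ℚ K
  have hx : ∀ σ : K ≃ₐ[ℚ] K, σ x = x := by
    intro σ
    have hs := hζ.autToPow_spec ℚ σ
    set u := hζ.autToPow ℚ σ with hu
    have h1 : σ x = ∑ i, algebraMap ℚ K (c i) * (ζ ^ (u : ZMod N).val) ^ (j i).val := by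
      simp only [x, map_sum, map_mul, map_pow, AlgEquiv.commutes]
      rw [hs]
    rw [h1]
    have h2 : ∀ i, (ζ ^ (u : ZMod N).val) ^ (j i).val = ζ ^ (j (e u i)).val := by
      intro i
      rw [hj, ZMod.val_mul, ← pow_mul]
      exact pow_eq_pow_mod _ hζ.pow_eq_one
    have h3 : ∀ i, algebraMap ℚ K (c i) * (ζ ^ (u : ZMod N).val) ^ (j i).val =
        algebraMap ℚ K (c (e u i)) * ζ ^ (j (e u i)).val := by
      intro i
      rw [h2, hc]
    rw [Finset.sum_congr rfl fun i _ => h3 i]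
    exact (he u).sum_comp fun i => algebraMap ℚ K (c i) * ζ ^ (j i).val
  have hb : x ∈ (⊥ : IntermediateField ℚ K) := (IsGalois.mem_bot_iff_fixed x).2 hx
  rw [IntermediateField.mem_bot] at hb
  obtain ⟨r, hr⟩ := hb
  refine ⟨r, ?_⟩
  have h4 : φ x = ∑ i, (c i : ℂ) * z ^ (j i).val := by
    simp only [x, map_sum, map_mul, map_pow, AlgHom.commutes, hφ]
    rfl
  rw [← h4, ← hr, AlgHom.commutes]
  rfl

/-- the exponent -/
private def ftJ (a : UNI.Par) {N : ℕ} (x y : ℤ × ℤ) (k l : UNL.G N) : ZMod N :=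
  x.1 * k.2 + x.2 * k.1 + a.t * x.2 * k.2 + (y.1 * l.2 + y.2 * l.1 + a.t * y.2 * l.2)

private theorem ft_N {N : ℕ} [NeZero N] : (N : ℂ) ≠ 0 := Nat.cast_ne_zero.2 (NeZero.ne N)

private theorem ft_tp (a : UNI.Par) {N : ℕ} [NeZero N] (k : UNL.G N) :
    UNL.tp (toU a) k = UNI.xx a ((k.1.val : ℤ), (k.2.val : ℤ)) / N := by
  simp only [UNL.tp, UNI.xx, tau_toU]
  push_cast
  ring

private theorem ft_xxU (a : UNI.Par) (d : ℤ × ℤ) : UNL.xx (toU a) d = UNI.xx a d := by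
  rw [UNL.xx, UNI.xx, tau_toU]

/-- `κ (z - z̄)` on `xx m / N` -/
private theorem ft_ps (a : UNI.Par) (m : ℤ × ℤ) (N : ℂ) (hN : (starRingEnd ℂ) N = N) :
    ps (toU a) (UNI.xx a m / N) = Complex.exp (2 * Real.pi * Complex.I * m.2 / N) := by
  unfold ps
  congr 1
  have h1 := UNL.two_A_tau (toU a)
  have h2 := UNL.two_A_ctau (toU a)
  have hA : ((toU a).A : ℂ) = 1 := by simp [toU]
  have hAr : ((toU a).A : ℝ) = 1 := by simp [toU]
  have hs := UNL.sD_pos (toU a)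
  have hs' : ((UNL.sD (toU a) : ℝ) : ℂ) ≠ 0 := by exact_mod_cast hs.ne'
  rw [hA, mul_one] at h1 h2
  have h3 : UNL.tau (toU a) - UNL.cj (UNL.tau (toU a)) =
      (UNL.sD (toU a) : ℂ) * Complex.I := by
    linear_combination (1 / 2 : ℂ) * h1 - (1 / 2 : ℂ) * h2
  rw [← ft_xxU]
  simp only [UNL.xx, map_div₀, map_add, map_mul, map_intCast, hN]
  have h4 : ((m.1 : ℂ) + m.2 * UNL.tau (toU a)) / N -
      ((m.1 : ℂ) + m.2 * (starRingEnd ℂ) (UNL.tau (toU a))) / N =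
      m.2 * ((UNL.sD (toU a) : ℂ) * Complex.I) / N := by
    rw [← h3]
    ring
  rw [h4]
  have h5 : ((UNL.kap (toU a) : ℝ) : ℂ) = 2 * Real.pi / (UNL.sD (toU a) : ℂ) := by
    rw [UNL.kap, hAr]
    push_cast
    ring
  rw [h5]
  field_simp

private theorem ft_val {N : ℕ} [NeZero N] (m : ℤ) :
    (((m : ZMod N).val : ℕ) : ℂ) = (m : ℂ) - N * ((m / N : ℤ) : ℂ) := by
  have h := ZMod.val_intCast (n := N) m
  have h2 := Int.mul_ediv_add_emod m N
  have h3 : (((m : ZMod N).val : ℕ) : ℤ) = m - N * (m / N) := by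
    rw [h]
    linarith
  have h4 := congrArg (Int.cast : ℤ → ℂ) h3
  push_cast at h4
  rw [h4]

private theorem ft_pow (a : UNI.Par) {N : ℕ} [NeZero N] (m : ℤ × ℤ) :
    ps (toU a) (UNI.xx a m / N) =
      Complex.exp (2 * Real.pi * Complex.I / N) ^ (m.2 : ZMod N).val := by
  have hN : (N : ℂ) ≠ 0 := ft_N
  rw [ft_ps a m N (map_natCast _ N), ← Complex.exp_nat_mul, ft_val,
    Complex.exp_eq_exp_iff_exists_int]
  refine ⟨m.2 / N, ?_⟩
  field_simp
  ring

private theorem ft_term (a : UNI.Par) {N : ℕ} [NeZero N] (x y : ℤ × ℤ) (k l : UNL.G N) :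
    ps (toU a) (UNI.xx a x * UNL.tp (toU a) k) * ps (toU a) (UNI.xx a y * UNL.tp (toU a) l) =
      Complex.exp (2 * Real.pi * Complex.I / N) ^ (ftJ a x y k l).val := by
  rw [← ps_add, ft_tp, ft_tp, ← mul_div_assoc, ← mul_div_assoc, ← xx_mul, ← xx_mul, ← add_div,
    ← xx_add, ft_pow]
  congr 2
  simp only [mulc, ftJ, Prod.snd_add]
  push_cast
  simp

/-- rationality for weights invariant under the integers prime to `N` -/
private theorem ft_rat {N : ℕ} [NeZero N] (a : UNI.Par) {c : UNL.G N → UNL.G N → ℚ}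
    (hinv : ∀ (u : (ZMod N)ˣ) (k l : UNL.G N),
      c ((u : ZMod N) * k.1, (u : ZMod N) * k.2) ((u : ZMod N) * l.1, (u : ZMod N) * l.2) = c k l)
    (x y : ℤ × ℤ) :
    ∃ r : ℚ, ∑ k : UNL.G N, ∑ l : UNL.G N, (c k l : ℂ) *
      (ps (toU a) (UNI.xx a x * UNL.tp (toU a) k) * ps (toU a) (UNI.xx a y * UNL.tp (toU a) l)) =
        r := by
  have hz : IsPrimitiveRoot (Complex.exp (2 * Real.pi * Complex.I / N)) N :=
    Complex.isPrimitiveRoot_exp N (NeZero.ne N)
  have hbij : ∀ u : (ZMod N)ˣ, Function.Bijective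
      (fun i : UNL.G N × UNL.G N =>
        ((((u : ZMod N) * i.1.1, (u : ZMod N) * i.1.2),
          ((u : ZMod N) * i.2.1, (u : ZMod N) * i.2.2)) : UNL.G N × UNL.G N)) := by
    intro u
    refine Finite.injective_iff_bijective.1 ?_
    intro i i' h
    simp only [Prod.mk.injEq] at h
    obtain ⟨⟨h1, h2⟩, h3, h4⟩ := h
    have hu : ∀ s t : ZMod N, (u : ZMod N) * s = (u : ZMod N) * t → s = t := by
      intro s t h
      have h5 := congrArg (fun r => ((u⁻¹ : (ZMod N)ˣ) : ZMod N) * r) h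
      simpa using h5
    exact Prod.ext (Prod.ext (hu _ _ h1) (hu _ _ h2)) (Prod.ext (hu _ _ h3) (hu _ _ h4))
  obtain ⟨r, hr⟩ := ft_gal (N := N) (ι := UNL.G N × UNL.G N) (fun i => c i.1 i.2)
    (fun i => ftJ a x y i.1 i.2)
    (fun u i => (((u : ZMod N) * i.1.1, (u : ZMod N) * i.1.2),
      ((u : ZMod N) * i.2.1, (u : ZMod N) * i.2.2))) hbij (fun u i => hinv u i.1 i.2)
    (fun u i => by simp only [ftJ]; ring) hz
  refine ⟨r, ?_⟩
  have h2 : ∑ i : UNL.G N × UNL.G N, (c i.1 i.2 : ℂ) *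
      Complex.exp (2 * Real.pi * Complex.I / N) ^ (ftJ a x y i.1 i.2).val =
      ∑ k : UNL.G N, ∑ l : UNL.G N, (c k l : ℂ) *
        Complex.exp (2 * Real.pi * Complex.I / N) ^ (ftJ a x y k l).val :=
    Fintype.sum_prod_type _
  rw [← hr, h2]
  refine Finset.sum_congr rfl fun k _ => Finset.sum_congr rfl fun l _ => ?_
  rw [ft_term]

/-- the imaginary part of `ω` is positive -/
private theorem ft_im (a : UNI.Par) : 0 < (UNI.om a).im := by
  have h1 := UNL.tau_im_pos (toU a)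
  rwa [tau_toU] at h1

/-- coordinates of the elements of `K` -/
private theorem ft_K {z : ℂ} (hz : z ∈ D.K) : ∃ q : ℚ × ℚ, z = (q.1 : ℂ) + (q.2 : ℂ) * UNI.om D.a := by
  obtain ⟨n, hn, m, hm⟩ := hz
  refine ⟨((m.1 : ℚ) / n, (m.2 : ℚ) / n), ?_⟩
  have hn' : (n : ℂ) ≠ 0 := by exact_mod_cast hn.ne'
  have hm' : (n : ℂ) * z = (m.1 : ℂ) + m.2 * UNI.om D.a := hm
  push_cast
  field_simp
  linear_combination hm'

/-- uniqueness of the coordinates -/
private theorem ft_uniq {q q' : ℚ × ℚ}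
    (h : (q.1 : ℂ) + (q.2 : ℂ) * UNI.om D.a = (q'.1 : ℂ) + (q'.2 : ℂ) * UNI.om D.a) : q = q' := by
  have hp := ft_im D.a
  have e : ∀ r : ℚ, ((r : ℚ) : ℂ) = (((r : ℚ) : ℝ) : ℂ) := fun r => by push_cast; rfl
  have h1 := congrArg Complex.im h
  rw [e, e, e, e] at h1
  simp only [Complex.add_im, Complex.ofReal_im, Complex.im_ofReal_mul, zero_add] at h1
  have h2 : ((q.2 : ℚ) : ℝ) = ((q'.2 : ℚ) : ℝ) := mul_right_cancel₀ hp.ne' h1
  have h3 : q.2 = q'.2 := by exact_mod_cast h2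
  rw [h3] at h
  have h4 : ((q.1 : ℚ) : ℂ) = ((q'.1 : ℚ) : ℂ) := add_right_cancel h
  have h5 : q.1 = q'.1 := by exact_mod_cast h4
  exact Prod.ext h5 h3

/-- the action of an integer -/
private theorem ft_ac_int (u : ℤ) (k : UNL.G N) :
    ac ((u : ℤ) : D.O) k = ((u : ZMod N) * k.1, (u : ZMod N) * k.2) := by
  have h1 : ((u : ℤ) : D.O) = el D (u, 0) := by
    refine Subtype.ext ?_
    show ((u : D.O) : ℂ) = UNI.xx D.a (u, 0)
    simp only [UNI.xx]
    push_cast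
    ring
  rw [h1, ac_el]
  refine Prod.ext ?_ ?_
  · simp [UNL.sm]
  · simp [UNL.sm]

theorem FTc_K (hm : m ∣ N) {c : UNL.G N → UNL.G N → ℂ} (hc : Eqv χ c) (w : Vec) :
    FTc D c w ∈ D.K := by
  by_cases hw : RNP.O2 D w
  swap
  · unfold FTc
    rw [if_neg hw]
    exact D.K.zero_mem
  rw [FTc_O2 c hw]
  obtain ⟨⟨x, hx⟩, y, hy⟩ := hw
  choose q hq using fun k l => ft_K (hc.val k l)
  have hinv : ∀ (u : (ZMod N)ˣ) (k l : UNL.G N),
      q ((u : ZMod N) * k.1, (u : ZMod N) * k.2) ((u : ZMod N) * l.1, (u : ZMod N) * l.2) =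
        q k l := by
    intro u k l
    have hcop := ZMod.val_coe_unit_coprime u
    have h1 : IsCoprime (((u : ZMod N).val : ℤ)) (N : ℤ) := Nat.isCoprime_iff_coprime.2 hcop
    have hcp : Cp N (((((u : ZMod N).val : ℕ) : ℤ) : ℤ) : D.O) := by
      obtain ⟨s, t, hst⟩ := h1
      refine ⟨(s : D.O), (t : D.O), ?_⟩
      have h2 := congrArg (Int.cast : ℤ → D.O) hst
      push_cast at h2 ⊢
      exact h2
    have hcm : Cp m (((((u : ZMod N).val : ℕ) : ℤ) : ℤ) : D.O) := by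
      unfold Cp at hcp ⊢
      exact IsCoprime.of_isCoprime_of_dvd_right hcp (Nat.cast_dvd_cast hm)
    have h4 := hc.eqv _ hcp k l
    rw [χ.int _ hcm, one_mul, ft_ac_int, ft_ac_int] at h4
    have h5 : ((((((u : ZMod N).val : ℕ) : ℤ)) : ZMod N)) = (u : ZMod N) := by
      rw [Int.cast_natCast, ZMod.natCast_zmod_val]
    rw [h5, hq, hq k l] at h4
    exact ft_uniq h4
  obtain ⟨r1, hr1⟩ := ft_rat D.a (c := fun k l => (q k l).1)
    (fun u k l => by show (q _ _).1 = _; rw [hinv]) x y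
  obtain ⟨r2, hr2⟩ := ft_rat D.a (c := fun k l => (q k l).2)
    (fun u k l => by show (q _ _).2 = _; rw [hinv]) x y
  have h6 : ∑ k : UNL.G N, ∑ l : UNL.G N, c k l *
      (ps (toU D.a) (w.1 * UNL.tp (toU D.a) k) * ps (toU D.a) (w.2 * UNL.tp (toU D.a) l)) =
      (r1 : ℂ) + (r2 : ℂ) * UNI.om D.a := by
    rw [← hr1, ← hr2, Finset.sum_mul, ← Finset.sum_add_distrib]
    refine Finset.sum_congr rfl fun k _ => ?_
    rw [Finset.sum_mul, ← Finset.sum_add_distrib]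
    refine Finset.sum_congr rfl fun l _ => ?_
    rw [hq k l, hx, hy]
    ring
  rw [h6]
  have hom : UNI.om D.a ∈ D.K := by
    refine ⟨1, one_pos, (0, 1), ?_⟩
    simp [UNI.xx]
  exact D.K.add_mem (SubfieldClass.ratCast_mem D.K r1)
    (D.K.mul_mem (SubfieldClass.ratCast_mem D.K r2) hom)

private theorem ft_ps_sub {x y : ℂ} (h : x - y ∈ D.O) : ps (toU D.a) x = ps (toU D.a) y := by
  have e : x = y + (x - y) := by ring
  rw [e, ps_add, ps_O h, mul_one]

private theorem ft_natO (n : ℕ) : (n : ℂ) ∈ D.O := natCast_mem _ n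

theorem FTc_Fn (hm : m ∣ N) {c : UNL.G N → UNL.G N → ℂ} (hc : Eqv χ c) :
    ∃ V : Finset ℂ, (∀ v ∈ V, v ∈ D.K) ∧ RNP.Fn D N V (FTc D c) := by
  classical
  have hper : ∀ w v, RNP.O2 D v → FTc D c (w + (N : ℂ) • v) = FTc D c w := by
    intro w v hv
    have hNv : RNP.O2 D ((N : ℂ) • v) :=
      ⟨D.O.mul_mem (ft_natO N) hv.1, D.O.mul_mem (ft_natO N) hv.2⟩
    by_cases hw : RNP.O2 D w
    · have hwv : RNP.O2 D (w + (N : ℂ) • v) :=
        ⟨D.O.add_mem hw.1 hNv.1, D.O.add_mem hw.2 hNv.2⟩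
      rw [FTc_O2 c hw, FTc_O2 c hwv]
      refine Finset.sum_congr rfl fun k _ => Finset.sum_congr rfl fun l _ => ?_
      have e1 : ps (toU D.a) ((w + (N : ℂ) • v).1 * UNL.tp (toU D.a) k) =
          ps (toU D.a) (w.1 * UNL.tp (toU D.a) k) := by
        apply ft_ps_sub
        have e : (w + (N : ℂ) • v).1 * UNL.tp (toU D.a) k - w.1 * UNL.tp (toU D.a) k =
            v.1 * ((N : ℂ) * UNL.tp (toU D.a) k) := by
          simp only [Prod.fst_add, Prod.smul_fst, smul_eq_mul]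
          ring
        rw [e]
        exact D.O.mul_mem hv.1 (tp_N k)
      have e2 : ps (toU D.a) ((w + (N : ℂ) • v).2 * UNL.tp (toU D.a) l) =
          ps (toU D.a) (w.2 * UNL.tp (toU D.a) l) := by
        apply ft_ps_sub
        have e : (w + (N : ℂ) • v).2 * UNL.tp (toU D.a) l - w.2 * UNL.tp (toU D.a) l =
            v.2 * ((N : ℂ) * UNL.tp (toU D.a) l) := by
          simp only [Prod.snd_add, Prod.smul_snd, smul_eq_mul]
          ring
        rw [e]
        exact D.O.mul_mem hv.2 (tp_N l)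
      rw [e1, e2]
    · have hw' : ¬ RNP.O2 D (w + (N : ℂ) • v) := by
        intro h
        apply hw
        have h1 := D.O.sub_mem h.1 hNv.1
        have h2 := D.O.sub_mem h.2 hNv.2
        refine ⟨?_, ?_⟩
        · have e : (w + (N : ℂ) • v).1 - ((N : ℂ) • v).1 = w.1 := by
            simp only [Prod.fst_add]
            ring
          rw [e] at h1
          exact h1
        · have e : (w + (N : ℂ) • v).2 - ((N : ℂ) • v).2 = w.2 := by
            simp only [Prod.snd_add]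
            ring
          rw [e] at h2
          exact h2
      unfold FTc
      rw [if_neg hw, if_neg hw']
  have hsupp : ∀ w, FTc D c w ≠ 0 → RNP.O2 D w := by
    intro w hw
    by_contra h
    apply hw
    unfold FTc
    rw [if_neg h]
  obtain ⟨S, hS, hS'⟩ := RNP.reps D (Nat.pos_of_ne_zero (NeZero.ne N))
  refine ⟨(S ×ˢ S).image (FTc D c), ?_, ?_, hsupp, hper⟩
  · intro v hv
    obtain ⟨w, -, rfl⟩ := Finset.mem_image.1 hv
    exact FTc_K χ hm hc w
  · intro w hw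
    have hO := hsupp w hw
    obtain ⟨r1, hr1, y1, hy1, e1⟩ := hS' w.1 hO.1
    obtain ⟨r2, hr2, y2, hy2, e2⟩ := hS' w.2 hO.2
    have e3 : w = (r1, r2) + (N : ℂ) • (y1, y2) := Prod.ext e1 e2
    rw [Finset.mem_image]
    refine ⟨(r1, r2), Finset.mem_product.2 ⟨hr1, hr2⟩, ?_⟩
    rw [e3, hper _ _ ⟨hy1, hy2⟩]

theorem pw_eqv (hm : m ∣ N) (S : Rs D N) {c : UNL.G N → UNL.G N → ℂ}
    (hc : ∀ k l, c k l ∈ D.K) : Eqv χ (pw χ S c) where
  val k l := by
    unfold pw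
    exact D.K.sum_mem fun d _ => D.K.mul_mem (χ.val d) (hc _ _)
  eqv x hx k l := by
    obtain ⟨N', hN'⟩ := hm
    have hper : Pe N (fun r : D.O => χ.f r * c (ac r k) (ac r l)) := by
      intro r z
      show χ.f (r + (N : D.O) * z) * c (ac (r + (N : D.O) * z) k) (ac (r + (N : D.O) * z) l) = _
      rw [ac_per, ac_per]
      have e : r + (N : D.O) * z = r + (m : D.O) * ((N' : D.O) * z) := by
        rw [← mul_assoc, ← Nat.cast_mul, ← hN']
      rw [e, χ.per]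
    have h1 := rs_shift S hx hper
    unfold pw
    rw [← h1, Finset.mul_sum]
    refine Finset.sum_congr rfl fun d _ => ?_
    show χ.f x * (χ.f d * c (ac d (ac x k)) (ac d (ac x l))) =
      χ.f (d * x) * c (ac (d * x) k) (ac (d * x) l)
    rw [χ.mul, ac_mul, ac_mul]
    ring

end

end RNG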