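import Pool.Agent.RNG.Bs
import Pool.Agent.K3R.LFunLattice

open RNK

namespace RNG

noncomputable section

variable {D : RNP.OD} {N : ℕ} [NeZero N]

theorem om_im_pos (D : RNP.OD) : 0 < (UNI.om D.a).im := by
  have h2 : ((D.a.t ^ 2 : ℤ) : ℝ) < ((4 * D.a.n : ℤ) : ℝ) := by exact_mod_cast D.a.h
  push_cast at h2
  have h1 : (0 : ℝ) < 4 * D.a.n - D.a.t ^ 2 := by linarith
  have h3 : (UNI.om D.a).im = Real.sqrt (4 * D.a.n - D.a.t ^ 2) / 2 := by
    simp only [UNI.om]
    rw [show (2 : ℂ) = ((2 : ℝ) : ℂ) by norm_num, Complex.div_ofReal_im]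
    simp
  rw [h3]
  exact div_pos (Real.sqrt_pos.2 h1) two_pos

/-! ### the lattice sums -/

section lat

open Complex

variable {x y : ℝ}

private def thG (x y t : ℝ) (α β : ℂ) (p : ℤ × ℤ) : ℂ :=
  cexp (((-(Real.pi * t / y) * LatL.Q x y p : ℝ) : ℂ) + 2 * Real.pi * α * p.1 +
    2 * Real.pi * β * p.2)

private def thS (x y t : ℝ) (α β : ℂ) (q : ℤ × ℤ) : ℂ :=
  cexp (-Real.pi * y * q.2 ^ 2 / t - Real.pi * t * y * q.1 ^ 2 + 2 * Real.pi * I * q.2 * q.1 * x
    - 2 * Real.pi * I * q.2 * α * y / t + 2 * Real.pi * q.1 * (β - α * x)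
    + Real.pi * y * α ^ 2 / t)

private theorem thG_sum (hy : 0 < y) {t : ℝ} (ht : 0 < t) (α β : ℂ) :
    Summable (thG x y t α β) := by
  have hp := Real.pi_pos
  have hd := LatL.del_pos (x := x) (y := y)
  have h := LatL.prod_summable
    (LatL.sum1b (a := Real.pi * t / y * LatL.del x y) (by positivity) (2 * Real.pi * α.re))
    (LatL.sum1b (a := Real.pi * t / y * LatL.del x y) (by positivity) (2 * Real.pi * β.re))
  refine Summable.of_norm_bounded h (fun p => ?_)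
  rw [thG, Complex.norm_exp, ← Real.exp_add]
  apply Real.exp_le_exp.mpr
  have e1 : (2 * Real.pi * α * p.1 : ℂ).re = 2 * Real.pi * α.re * p.1 := by
    rw [show (2 * Real.pi * α * p.1 : ℂ) = ((2 * Real.pi * p.1 : ℝ) : ℂ) * α by push_cast; ring,
      Complex.re_ofReal_mul]
    ring
  have e2 : (2 * Real.pi * β * p.2 : ℂ).re = 2 * Real.pi * β.re * p.2 := by
    rw [show (2 * Real.pi * β * p.2 : ℂ) = ((2 * Real.pi * p.2 : ℝ) : ℂ) * β by push_cast; ring,
      Complex.re_ofReal_mul]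
    ring
  rw [Complex.add_re, Complex.add_re, e1, e2, Complex.ofReal_re]
  have h1 := LatL.Q_lower (x := x) hy p
  have h2 : 0 < Real.pi * t / y := by positivity
  nlinarith [mul_le_mul_of_nonneg_left h1 h2.le]

private theorem thS_sum (hy : 0 < y) {t : ℝ} (ht : 0 < t) (α β : ℂ) :
    Summable (thS x y t α β) := by
  have hp := Real.pi_pos
  have h := (LatL.prod_summable
    (LatL.sum1b (a := Real.pi * t * y) (by positivity) (2 * Real.pi * (β - α * x).re))
    (LatL.sum1b (a := Real.pi * y / t) (by positivity) (2 * Real.pi * α.im * y / t))).mul_left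
    (Real.exp ((Real.pi * y * α ^ 2 / t : ℂ).re))
  refine Summable.of_norm_bounded h (fun q => le_of_eq ?_)
  rw [thS, Complex.norm_exp, ← Real.exp_add, ← Real.exp_add]
  congr 1
  have e1 : (-Real.pi * y * q.2 ^ 2 / t - Real.pi * t * y * q.1 ^ 2 : ℂ)
      = ((-Real.pi * y * q.2 ^ 2 / t - Real.pi * t * y * q.1 ^ 2 : ℝ) : ℂ) := by push_cast; ring
  have e2 : (2 * Real.pi * I * q.2 * α * y / t : ℂ)
      = ((2 * Real.pi * q.2 * y / t : ℝ) : ℂ) * (I * α) := by push_cast; ring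
  have e3 : (2 * Real.pi * I * q.2 * q.1 * x : ℂ) = ((2 * Real.pi * q.2 * q.1 * x : ℝ) : ℂ) * I := by
    push_cast; ring
  have e4 : (2 * Real.pi * q.1 * (β - α * x) : ℂ)
      = ((2 * Real.pi * q.1 : ℝ) : ℂ) * (β - α * x) := by push_cast; ring
  rw [e1, e2, e3, e4]
  simp only [Complex.add_re, Complex.sub_re, Complex.ofReal_re, Complex.ofReal_im,
    Complex.mul_re, Complex.I_re, Complex.I_im, zero_mul, one_mul, zero_sub, mul_zero]
  ring

private theorem th_row (hy : 0 < y) {t : ℝ} (ht : 0 < t) (α β : ℂ) (n : ℤ) :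
    ∑' m : ℤ, thG x y t α β (m, n) =
      (((Real.sqrt (t / y))⁻¹ : ℝ) : ℂ) * ∑' k : ℤ, thS x y t α β (n, k) := by
  have hty : 0 < t / y := by positivity
  have hyc : (y : ℂ) ≠ 0 := Complex.ofReal_ne_zero.mpr hy.ne'
  have htc : (t : ℂ) ≠ 0 := Complex.ofReal_ne_zero.mpr ht.ne'
  have key := Complex.tsum_exp_neg_quadratic (a := ((t / y : ℝ) : ℂ))
    (by rw [Complex.ofReal_re]; exact hty) (α - t * n * x / y)
  have e0 : (1 : ℂ) / ((t / y : ℝ) : ℂ) ^ (1 / 2 : ℂ) = (((Real.sqrt (t / y))⁻¹ : ℝ) : ℂ) := by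
    rw [Real.sqrt_eq_rpow, Complex.ofReal_inv, Complex.ofReal_cpow hty.le, one_div]
    norm_num
  rw [e0] at key
  set C : ℂ := cexp (-Real.pi * t * n ^ 2 * (x ^ 2 + y ^ 2) / y + 2 * Real.pi * β * n) with hC
  have e1 : ∀ m : ℤ, thG x y t α β (m, n) =
      C * cexp (-Real.pi * ((t / y : ℝ) : ℂ) * m ^ 2 +
        2 * Real.pi * (α - t * n * x / y) * m) := by
    intro m
    rw [thG, hC, ← Complex.exp_add]
    congr 1
    simp only [LatL.Q]
    push_cast
    field_simp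
    ring
  have e2 : ∀ k : ℤ, thS x y t α β (n, k) =
      C * cexp (-Real.pi / ((t / y : ℝ) : ℂ) * (k + I * (α - t * n * x / y)) ^ 2) := by
    intro k
    rw [thS, hC, ← Complex.exp_add]
    congr 1
    push_cast
    have hI : I ^ 2 = -1 := Complex.I_sq
    field_simp
    ring_nf
    rw [hI]
    ring
  rw [tsum_congr e1, tsum_congr e2, tsum_mul_left, tsum_mul_left, key]
  ring

private theorem thG_eq (hy : 0 < y) {t : ℝ} (ht : 0 < t) (α β : ℂ) :
    ∑' p, thG x y t α β p = (((Real.sqrt (t / y))⁻¹ : ℝ) : ℂ) * ∑' q, thS x y t α β q := by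
  have h1 := thG_sum (x := x) hy ht α β
  have h2 : Summable (fun c : ℤ × ℤ => thG x y t α β ((Equiv.prodComm ℤ ℤ) c)) :=
    (Equiv.prodComm ℤ ℤ).summable_iff.mpr h1
  rw [← (Equiv.prodComm ℤ ℤ).tsum_eq, h2.tsum_prod, (thS_sum hy ht α β).tsum_prod,
    ← tsum_mul_left]
  exact tsum_congr fun n => th_row hy ht α β n

private theorem thS_inv (hy : 0 < y) {t : ℝ} (ht : 0 < t) (α β : ℂ) (q : ℤ × ℤ) :
    thS x y t α β (LatL.sw q) = cexp (Real.pi * y * α ^ 2 / t +
      Real.pi * (β - α * x) ^ 2 / (y * t)) *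
      thS x y t⁻¹ (-I * (β - α * x) / (y * t)) (-I * (β - α * x) / (y * t) * x + I * α * y / t) q := by
  have hyc : (y : ℂ) ≠ 0 := Complex.ofReal_ne_zero.mpr hy.ne'
  have htc : (t : ℂ) ≠ 0 := Complex.ofReal_ne_zero.mpr ht.ne'
  rw [thS, thS, ← Complex.exp_add]
  congr 1
  simp only [LatL.sw, Equiv.coe_fn_mk]
  push_cast
  have hI : I ^ 2 = -1 := Complex.I_sq
  field_simp
  ring_nf
  rw [hI]
  ring

private theorem thG_fe (hy : 0 < y) {t : ℝ} (ht : 0 < t) (α β : ℂ) :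
    ∑' p, thG x y t α β p = (t : ℂ)⁻¹ * cexp (Real.pi * y * α ^ 2 / t +
      Real.pi * (β - α * x) ^ 2 / (y * t)) *
      ∑' p, thG x y t⁻¹ (-I * (β - α * x) / (y * t))
        (-I * (β - α * x) / (y * t) * x + I * α * y / t) p := by
  have hti : 0 < t⁻¹ := inv_pos.mpr ht
  have htc : (t : ℂ) ≠ 0 := Complex.ofReal_ne_zero.mpr ht.ne'
  rw [thG_eq hy ht, thG_eq hy hti, ← LatL.sw.tsum_eq (thS x y t α β),
    tsum_congr (fun q => thS_inv hy ht α β q), tsum_mul_left, ← mul_assoc, ← mul_assoc]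
  congr 1
  have h1 : Real.sqrt (t / y) = t * Real.sqrt (t⁻¹ / y) := by
    rw [show t / y = t ^ 2 * (t⁻¹ / y) by field_simp, Real.sqrt_mul (by positivity),
      Real.sqrt_sq ht.le]
  rw [h1, mul_inv]
  push_cast
  ring

/-- Poisson summation for a shifted lattice -/
private theorem th_pois (hy : 0 < y) {t : ℝ} (ht : 0 < t) (z : ℂ) :
    ∑' p : ℤ × ℤ, ((Real.exp (-(Real.pi * t / y) * ‖LatL.lat x y p + z‖ ^ 2) : ℝ) : ℂ) =
      (t : ℂ)⁻¹ * ∑' p : ℤ × ℤ, ((Real.exp (-(Real.pi * t⁻¹ / y) * LatL.Q x y p) : ℝ) : ℂ) *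
        cexp (2 * Real.pi * I * (((starRingEnd ℂ) (LatL.lat x y p) * z).im / y : ℝ)) := by
  have hyc : (y : ℂ) ≠ 0 := Complex.ofReal_ne_zero.mpr hy.ne'
  have htc : (t : ℂ) ≠ 0 := Complex.ofReal_ne_zero.mpr ht.ne'
  have h := thG_fe (x := x) hy ht (-(t * z.re / y : ℝ)) (-(t * (z.re * x + z.im * y) / y : ℝ))
  have e1 : ∀ p : ℤ × ℤ, ((Real.exp (-(Real.pi * t / y) * ‖LatL.lat x y p + z‖ ^ 2) : ℝ) : ℂ) =
      ((Real.exp (-(Real.pi * t / y) * ‖z‖ ^ 2) : ℝ) : ℂ) *
        thG x y t (-(t * z.re / y : ℝ)) (-(t * (z.re * x + z.im * y) / y : ℝ)) p := by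
    intro p
    rw [thG, Complex.ofReal_exp, Complex.ofReal_exp, ← Complex.exp_add]
    congr 1
    rw [← Complex.normSq_eq_norm_sq, ← Complex.normSq_eq_norm_sq, Complex.normSq_apply,
      Complex.normSq_apply]
    simp only [LatL.lat, LatL.Q, Complex.add_re, Complex.add_im, Complex.mul_re, Complex.mul_im,
      Complex.ofReal_re, Complex.ofReal_im, Complex.I_re, Complex.I_im, mul_zero, mul_one,
      add_zero, zero_add, sub_zero]
    push_cast
    field_simp
    ring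
  rw [tsum_congr e1, tsum_mul_left, h, ← mul_assoc, ← mul_assoc]
  have e2 : ((Real.exp (-(Real.pi * t / y) * ‖z‖ ^ 2) : ℝ) : ℂ) * (t : ℂ)⁻¹ *
      cexp (Real.pi * y * (-(t * z.re / y : ℝ) : ℂ) ^ 2 / t +
        Real.pi * ((-(t * (z.re * x + z.im * y) / y : ℝ) : ℂ) - (-(t * z.re / y : ℝ) : ℂ) * x) ^ 2 /
        (y * t)) = (t : ℂ)⁻¹ := by
    rw [mul_comm ((Real.exp _ : ℝ) : ℂ), mul_assoc, Complex.ofReal_exp, ← Complex.exp_add]
    conv_rhs => rw [← mul_one (t : ℂ)⁻¹]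
    congr 1
    rw [← Complex.exp_zero]
    congr 1
    rw [← Complex.normSq_eq_norm_sq, Complex.normSq_apply]
    push_cast
    field_simp
    ring
  rw [e2]
  congr 1
  refine tsum_congr fun p => ?_
  rw [thG, Complex.ofReal_exp, ← Complex.exp_add]
  congr 1
  have e3 : ((starRingEnd ℂ) (LatL.lat x y p) * z).im =
      (p.1 + p.2 * x) * z.im - p.2 * y * z.re := by
    simp only [LatL.lat, map_add, map_mul, Complex.conj_ofReal, Complex.conj_I, Complex.add_re,
      Complex.add_im, Complex.mul_re, Complex.mul_im, Complex.neg_re, Complex.neg_im,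
      Complex.ofReal_re, Complex.ofReal_im, Complex.I_re, Complex.I_im]
    ring
  rw [e3]
  push_cast
  field_simp
  ring

end lat

/-! ### the order -/

private theorem tt_lat (m : ℤ × ℤ) :
    ((el D m : D.O) : ℂ) = LatL.lat (UNI.om D.a).re (UNI.om D.a).im m := by
  show UNI.xx D.a m = _
  refine Complex.ext ?_ ?_
  · simp [UNI.xx, LatL.lat]
  · simp [UNI.xx, LatL.lat]

private theorem tt_nn (m : ℤ × ℤ) :
    ((nn D (el D m) : ℕ) : ℝ) = LatL.Q (UNI.om D.a).re (UNI.om D.a).im m := by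
  rw [nn_real, tt_lat, LatL.Q_eq]

private theorem tt_gauss {c : ℝ} (hc : 0 < c) :
    Summable (fun x : D.O => Real.exp (-c * nn D x)) := by
  rw [← (elE D).summable_iff]
  refine (LatL.sum_gauss (x := (UNI.om D.a).re) (om_im_pos D) hc).congr fun p => ?_
  rw [← tt_nn]
  rfl

/-- summability of the theta series of a bounded function -/
theorem th_summable {a : D.O → ℂ} (ha : ∃ C : ℝ, ∀ x, ‖a x‖ ≤ C) {c : ℝ} (hc : 0 < c) :
    Summable (fun x : D.O => a x * ((Real.exp (-c * nn D x) : ℝ) : ℂ)) := by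
  obtain ⟨C, hC⟩ := ha
  refine Summable.of_norm_bounded ((tt_gauss (D := D) hc).mul_left C) fun x => ?_
  rw [norm_mul, Complex.norm_real, Real.norm_of_nonneg (Real.exp_pos _).le]
  exact mul_le_mul_of_nonneg_right (hC x) (Real.exp_pos _).le

/-- summability of the Dirichlet series of a bounded function -/
theorem Ds_summable {a : D.O → ℂ} (ha : ∃ C : ℝ, ∀ x, ‖a x‖ ≤ C) {s : ℂ} (hs : 1 < s.re) :
    Summable (fun x : D.O => a x * ((nn D x : ℕ) : ℂ) ^ (-s)) := by
  obtain ⟨C, hC⟩ := ha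
  have h1 : Summable (fun x : D.O => ((nn D x : ℕ) : ℝ) ^ (-s.re)) := by
    rw [← (elE D).summable_iff]
    refine (LatL.summable_Q_rpow (x := (UNI.om D.a).re) (om_im_pos D) hs).congr fun p => ?_
    rw [← tt_nn]
    rfl
  refine Summable.of_norm_bounded (h1.mul_left C) fun x => ?_
  rw [norm_mul]
  have h2 : ‖((nn D x : ℕ) : ℂ) ^ (-s)‖ = ((nn D x : ℕ) : ℝ) ^ (-s.re) := by
    rcases Nat.eq_zero_or_pos (nn D x) with h | h
    · rw [h]
      have h3 : (-s) ≠ 0 := by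
        intro h4
        have h5 := congrArg Complex.re h4
        rw [Complex.neg_re, Complex.zero_re] at h5
        linarith
      rw [Nat.cast_zero, Nat.cast_zero, Complex.zero_cpow h3, norm_zero,
        Real.zero_rpow (by linarith)]
    · rw [Complex.norm_natCast_cpow_of_pos h, Complex.neg_re]
  rw [h2]
  exact mul_le_mul_of_nonneg_right (hC x) (Real.rpow_nonneg (Nat.cast_nonneg _) _)

theorem Pe_bdd {a : D.O → ℂ} (ha : Pe N a) : ∃ C : ℝ, ∀ x, ‖a x‖ ≤ C := by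
  refine ⟨∑ k : UNL.G N, ‖a (rp D k)‖, fun x => ?_⟩
  obtain ⟨y, hy⟩ := rp_cls (N := N) x
  have h1 : a x = a (rp D (cls N x)) := by
    conv_lhs => rw [hy]
    exact ha _ _
  rw [h1]
  exact Finset.single_le_sum (f := fun k : UNL.G N => ‖a (rp D k)‖) (fun _ _ => norm_nonneg _)
    (Finset.mem_univ _)

theorem du_pe (a : D.O → ℂ) : Pe N (du N a) := by
  intro m y
  unfold du
  congr 1
  refine Finset.sum_congr rfl fun k _ => ?_
  congr 1
  have h1 : (((m + (N : D.O) * y : D.O)) : ℂ) * UNL.tp (toU D.a) k =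
      (m : ℂ) * UNL.tp (toU D.a) k + (y : ℂ) * ((N : ℂ) * UNL.tp (toU D.a) k) := by
    push_cast
    ring
  rw [h1, pss_add, pss_O (D.O.mul_mem y.2 (tp_N k)), mul_one]

private def tt_cj (D : RNP.OD) : D.O ≃ D.O where
  toFun x := ⟨(starRingEnd ℂ) (x : ℂ), cj_Ord x.2⟩
  invFun x := ⟨(starRingEnd ℂ) (x : ℂ), cj_Ord x.2⟩
  left_inv _ := Subtype.ext (Complex.conj_conj _)
  right_inv _ := Subtype.ext (Complex.conj_conj _)

private theorem tt_nncj (x : D.O) : nn D (tt_cj D x) = nn D x := by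
  have h : ((nn D (tt_cj D x) : ℕ) : ℝ) = ((nn D x : ℕ) : ℝ) := by
    rw [nn_real, nn_real]
    show ‖(starRingEnd ℂ) (x : ℂ)‖ ^ 2 = _
    rw [Complex.norm_conj]
  exact_mod_cast h

private theorem tt_sD (D : RNP.OD) : UNL.sD (toU D.a) = 2 * (UNI.om D.a).im := by
  have h1 : UNL.sD (toU D.a) = Real.sqrt (4 * D.a.n - D.a.t ^ 2) := by
    simp only [UNL.sD, toU]
    congr 1
    push_cast
    ring
  have h3 : (UNI.om D.a).im = Real.sqrt (4 * D.a.n - D.a.t ^ 2) / 2 := by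
    simp only [UNI.om]
    rw [show (2 : ℂ) = ((2 : ℝ) : ℂ) by norm_num, Complex.div_ofReal_im]
    simp
  rw [h1, h3]
  ring

private theorem tt_ps (z : ℂ) : pss D z =
    Complex.exp (2 * Real.pi * Complex.I * (z.im / (UNI.om D.a).im : ℝ)) := by
  have hy := om_im_pos D
  have hyc : ((UNI.om D.a).im : ℂ) ≠ 0 := Complex.ofReal_ne_zero.mpr hy.ne'
  show ps (toU D.a) z = _
  unfold ps UNL.kap
  congr 1
  have h1 : z - (starRingEnd ℂ) z = 2 * Complex.I * (z.im : ℂ) := by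
    rw [Complex.sub_conj]
    push_cast
    ring
  rw [h1, tt_sD]
  simp only [toU]
  push_cast
  field_simp

/-- Poisson summation on `O` -/
private theorem tt_pois {T : ℝ} (hT : 0 < T) (z : ℂ) :
    ∑' x : D.O, ((Real.exp (-(Real.pi * T / (UNI.om D.a).im) * ‖(x : ℂ) + z‖ ^ 2) : ℝ) : ℂ) =
      (T : ℂ)⁻¹ * ∑' x : D.O, ((Real.exp (-(Real.pi * T⁻¹ / (UNI.om D.a).im) * nn D x) : ℝ) : ℂ) *
        pss D ((x : ℂ) * z) := by
  have h := th_pois (x := (UNI.om D.a).re) (om_im_pos D) hT z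
  rw [← (elE D).tsum_eq, ← (tt_cj D).tsum_eq (fun x : D.O =>
    ((Real.exp (-(Real.pi * T⁻¹ / (UNI.om D.a).im) * nn D x) : ℝ) : ℂ) * pss D ((x : ℂ) * z)),
    ← (elE D).tsum_eq (fun x : D.O => ((Real.exp (-(Real.pi * T⁻¹ / (UNI.om D.a).im) *
      nn D (tt_cj D x)) : ℝ) : ℂ) * pss D (((tt_cj D x : D.O) : ℂ) * z))]
  have e1 : ∀ p : ℤ × ℤ, (((elE D) p : D.O) : ℂ) =
      LatL.lat (UNI.om D.a).re (UNI.om D.a).im p := tt_lat
  have e2 : ∀ p : ℤ × ℤ, ((nn D (tt_cj D ((elE D) p)) : ℕ) : ℝ) =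
      LatL.Q (UNI.om D.a).re (UNI.om D.a).im p := fun p => by
    rw [tt_nncj]
    exact tt_nn p
  have e3 : ∀ p : ℤ × ℤ, ((tt_cj D ((elE D) p) : D.O) : ℂ) =
      (starRingEnd ℂ) (LatL.lat (UNI.om D.a).re (UNI.om D.a).im p) := fun p => by
    rw [← e1]
    rfl
  simp only [e1, e2, e3, tt_ps]
  exact h

/-- classes and multiples of `N` -/
private def tt_eq (D : RNP.OD) (N : ℕ) [NeZero N] : UNL.G N × D.O ≃ D.O :=
  Equiv.ofBijective (fun q => rp D q.1 + (N : D.O) * q.2) (by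
    have hN : (N : D.O) ≠ 0 := by
      intro h
      have h2 := congrArg (Subtype.val) h
      have h3 : ((N : ℕ) : ℂ) = 0 := by
        have : (((N : D.O)) : ℂ) = ((N : ℕ) : ℂ) := by push_cast; rfl
        rw [← this, h]
        rfl
      exact Nat.cast_ne_zero.2 (NeZero.ne N) h3
    constructor
    · rintro ⟨k, x⟩ ⟨l, y⟩ h
      simp only at h
      have h1 : k = l := by
        rw [← cls_rp (D := D) k, ← cls_rp (D := D) l, cls_eq]
        exact ⟨y - x, by linear_combination h⟩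
      subst h1
      have h2 : (N : D.O) * x = (N : D.O) * y := add_left_cancel h
      have h3 := mul_left_cancel₀ hN h2
      rw [h3]
    · intro x
      obtain ⟨y, hy⟩ := rp_cls (N := N) x
      exact ⟨(cls N x, y), hy.symm⟩)

theorem th_fe {a : D.O → ℂ} (ha : Pe N a) {t : ℝ} (ht : 0 < t) :
    th N a (1 / t) = (t : ℂ) * th N (du N a) t := by
  have hy := om_im_pos D
  have hNp : (0 : ℝ) < N := Nat.cast_pos.2 (Nat.pos_of_ne_zero (NeZero.ne N))
  have hNc : (N : ℂ) ≠ 0 := Nat.cast_ne_zero.2 (NeZero.ne N)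
  have hpi := Real.pi_pos
  have hT : 0 < (N : ℝ) / t := by positivity
  have hc : 0 < Real.pi * t / (N * (UNI.om D.a).im) := by positivity
  have hc' : 0 < Real.pi * (1 / t) / (N * (UNI.om D.a).im) := by positivity
  have hs := th_summable (Pe_bdd ha) hc'
  have hs2 := (tt_eq D N).summable_iff.2 hs
  have e1 : th N a (1 / t) = ∑ k : UNL.G N, ∑' x : D.O, a (rp D k) *
      ((Real.exp (-(Real.pi * ((N : ℝ) / t) / (UNI.om D.a).im) *
        ‖(x : ℂ) + UNL.tp (toU D.a) k‖ ^ 2) : ℝ) : ℂ) := by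
    unfold th
    rw [← (tt_eq D N).tsum_eq]
    refine Eq.trans hs2.tsum_prod ?_
    rw [tsum_fintype]
    refine Finset.sum_congr rfl fun k _ => tsum_congr fun x => ?_
    show a (rp D k + (N : D.O) * x) * _ = _
    rw [ha]
    congr 3
    have h1 : ((nn D (rp D k + (N : D.O) * x) : ℕ) : ℝ) =
        N ^ 2 * ‖(x : ℂ) + UNL.tp (toU D.a) k‖ ^ 2 := by
      rw [nn_real, tp_rp]
      have h2 : ((rp D k + (N : D.O) * x : D.O) : ℂ) =
          (N : ℂ) * ((x : ℂ) + ((rp D k : D.O) : ℂ) / N) := by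
        push_cast
        field_simp
        ring
      rw [h2, norm_mul, mul_pow, Complex.norm_natCast]
    show -(Real.pi * (1 / t) / (N * (UNI.om D.a).im)) *
      ((nn D (rp D k + (N : D.O) * x) : ℕ) : ℝ) = _
    rw [h1]
    field_simp
  have e2 : ∀ k : UNL.G N, ∑' x : D.O, a (rp D k) *
      ((Real.exp (-(Real.pi * ((N : ℝ) / t) / (UNI.om D.a).im) *
        ‖(x : ℂ) + UNL.tp (toU D.a) k‖ ^ 2) : ℝ) : ℂ) =
      ∑' x : D.O, (t : ℂ) * ((1 / (N : ℂ) * (a (rp D k) *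
        pss D ((x : ℂ) * UNL.tp (toU D.a) k))) *
        ((Real.exp (-(Real.pi * t / (N * (UNI.om D.a).im)) * nn D x) : ℝ) : ℂ)) := by
    intro k
    rw [tsum_mul_left, tt_pois hT, ← mul_assoc, ← tsum_mul_left]
    refine tsum_congr fun x => ?_
    have h1 : Real.pi * ((N : ℝ) / t)⁻¹ / (UNI.om D.a).im =
        Real.pi * t / (N * (UNI.om D.a).im) := by
      field_simp
    rw [h1]
    push_cast
    field_simp
  have e3 : ∀ k : UNL.G N, Summable fun x : D.O => (t : ℂ) * ((1 / (N : ℂ) * (a (rp D k) *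
        pss D ((x : ℂ) * UNL.tp (toU D.a) k))) *
        ((Real.exp (-(Real.pi * t / (N * (UNI.om D.a).im)) * nn D x) : ℝ) : ℂ)) := by
    intro k
    refine Summable.mul_left _ (th_summable ⟨‖1 / (N : ℂ)‖ * ‖a (rp D k)‖, fun x => ?_⟩ hc)
    rw [norm_mul, norm_mul, pss_norm, mul_one]
  rw [e1, Finset.sum_congr rfl fun k _ => e2 k, ← Summable.tsum_finsetSum fun k _ => e3 k]
  unfold th
  rw [← tsum_mul_left]
  refine tsum_congr fun x => ?_
  rw [← Finset.mul_sum, ← Finset.sum_mul, ← Finset.mul_sum]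
  rfl

private theorem tt_nn0 : nn D (0 : D.O) = 0 := by
  rw [nn_eq_zero]

/-- the theta series converges exponentially fast to its constant term -/
theorem th_top {a : D.O → ℂ} (ha : Pe N a) : ∃ C c : ℝ, 0 < c ∧ ∀ t : ℝ, 1 ≤ t →
    ‖th N a t - a 0‖ ≤ C * Real.exp (-c * t) := by
  classical
  have hy := om_im_pos D
  have hNp : (0 : ℝ) < N := Nat.cast_pos.2 (Nat.pos_of_ne_zero (NeZero.ne N))
  have hpi := Real.pi_pos
  set κ : ℝ := Real.pi / (N * (UNI.om D.a).im) with hκ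
  have hκp : 0 < κ := by positivity
  obtain ⟨B, hB⟩ := Pe_bdd ha
  refine ⟨(∑' x : D.O, B * Real.exp (-κ * nn D x)) * Real.exp κ, κ, hκp, fun t ht => ?_⟩
  have ht0 : 0 < t := by linarith
  have hc : 0 < Real.pi * t / (N * (UNI.om D.a).im) := by positivity
  have hct : Real.pi * t / (N * (UNI.om D.a).im) = κ * t := by
    rw [hκ]
    ring
  have hs := th_summable (Pe_bdd ha) hc
  have h1 : th N a t - a 0 = ∑' x : D.O, (if x = 0 then 0 else a x *
      ((Real.exp (-(Real.pi * t / (N * (UNI.om D.a).im)) * nn D x) : ℝ) : ℂ)) := by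
    unfold th
    rw [hs.tsum_eq_add_tsum_ite 0, tt_nn0]
    simp
  rw [h1]
  have hg := (tt_gauss (D := D) hκp).mul_left B
  have h2 := hg.mul_right (Real.exp (-κ * (t - 1)))
  have h3 : ‖∑' x : D.O, (if x = 0 then 0 else a x *
      ((Real.exp (-(Real.pi * t / (N * (UNI.om D.a).im)) * nn D x) : ℝ) : ℂ))‖ ≤
      ∑' x : D.O, B * Real.exp (-κ * nn D x) * Real.exp (-κ * (t - 1)) := by
    refine tsum_of_norm_bounded h2.hasSum fun x => ?_
    have hB0 : 0 ≤ B := (norm_nonneg _).trans (hB 0)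
    by_cases hx : x = 0
    · rw [if_pos hx, norm_zero]
      positivity
    · rw [if_neg hx, norm_mul, Complex.norm_real, Real.norm_of_nonneg (Real.exp_pos _).le,
        mul_assoc, ← Real.exp_add, hct]
      refine mul_le_mul (hB x) (Real.exp_le_exp.2 ?_) (Real.exp_pos _).le hB0
      have h4 : (1 : ℝ) ≤ nn D x := by
        have : 1 ≤ nn D x := Nat.one_le_iff_ne_zero.2 fun h => hx (nn_eq_zero.1 h)
        exact_mod_cast this
      have h5 : 0 ≤ κ * ((t - 1) * ((nn D x : ℝ) - 1)) :=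
        mul_nonneg hκp.le (mul_nonneg (by linarith) (by linarith))
      nlinarith
  refine h3.trans (le_of_eq ?_)
  rw [tsum_mul_right, mul_assoc, ← Real.exp_add]
  congr 2
  ring

theorem th_cont {a : D.O → ℂ} (ha : Pe N a) : ContinuousOn (th N a) (Set.Ioi 0) := by
  intro u hu
  have hu' : 0 < u := hu
  have hy := om_im_pos D
  have hNp : (0 : ℝ) < N := Nat.cast_pos.2 (Nat.pos_of_ne_zero (NeZero.ne N))
  have hpi := Real.pi_pos
  obtain ⟨B, hB⟩ := Pe_bdd ha
  have hB0 : 0 ≤ B := (norm_nonneg _).trans (hB 0)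
  have hc : 0 < Real.pi * (u / 2) / (N * (UNI.om D.a).im) := by positivity
  have h : ContinuousOn (th N a) (Set.Ioi (u / 2)) := by
    refine continuousOn_tsum (u := fun x : D.O => B *
      Real.exp (-(Real.pi * (u / 2) / (N * (UNI.om D.a).im)) * nn D x)) (fun x => ?_)
      ((tt_gauss (D := D) hc).mul_left B) ?_
    · refine ContinuousOn.mul continuousOn_const ?_
      exact Continuous.continuousOn (by fun_prop)
    · intro x v hv
      have hv' : u / 2 < v := hv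
      rw [norm_mul, Complex.norm_real, Real.norm_of_nonneg (Real.exp_pos _).le]
      refine mul_le_mul (hB x) (Real.exp_le_exp.2 ?_) (Real.exp_pos _).le hB0
      rw [neg_mul, neg_mul, neg_le_neg_iff]
      refine mul_le_mul_of_nonneg_right ?_ (Nat.cast_nonneg _)
      gcongr
  exact (h.continuousAt (Ioi_mem_nhds (by linarith))).continuousWithinAt

end

end RNG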