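import Pool.Agent.RNG.Hd
import Pool.Agent.RNG.Bs
import Pool.Agent.RNG.Th

/-!
# RNG.Ni: norms and conjugates of ideals

`O = D.O = ℤ ⊕ ℤ ω`. `ni I = Nat.card (O ⧸ I)` (`0` for `I = ⊥`, the quotient is infinite).
-/

open RNK

namespace RNG

noncomputable section

variable {D : RNP.OD}

/-! ### the conjugation -/

theorem cj_cj (x : D.O) : cj (cj x) = x :=
  Subtype.ext (Complex.conj_conj _)

theorem cj_mul (x y : D.O) : cj (x * y) = cj x * cj y :=
  Subtype.ext (by simp [cj])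

theorem cj_add (x y : D.O) : cj (x + y) = cj x + cj y :=
  Subtype.ext (by simp [cj])

theorem cj_nat (n : ℕ) : cj (n : D.O) = n :=
  Subtype.ext (by simp [cj])

theorem nn_cj (x : D.O) : nn D (cj x) = nn D x := by
  have h : ((nn D (cj x) : ℕ) : ℝ) = ((nn D x : ℕ) : ℝ) := by
    rw [nn_real, nn_real]
    simp [cj]
  exact_mod_cast h

/-- the conjugation as an automorphism of the ring -/
private def cjR (D : RNP.OD) : D.O ≃+* D.O where
  toFun := cj
  invFun := cj
  left_inv := cj_cj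
  right_inv := cj_cj
  map_mul' := cj_mul
  map_add' := cj_add

private theorem cjR_apply (x : D.O) : cjR D x = cj x := rfl

private theorem Cp_cj' {N : ℕ} {x : D.O} (h : Cp N x) : Cp N (cj x) := by
  have h1 := IsCoprime.map h (cjR D : D.O →+* D.O)
  rw [map_natCast] at h1
  exact h1

theorem Cp_cj {N : ℕ} {x : D.O} : Cp N (cj x) ↔ Cp N x := by
  refine ⟨fun h => ?_, Cp_cj'⟩
  have := Cp_cj' h
  rwa [cj_cj] at this

private theorem ci_comap (I : Ideal D.O) : ci I = I.comap (cjR D) := rfl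

private theorem mem_ci {I : Ideal D.O} {x : D.O} : x ∈ ci I ↔ cj x ∈ I := Iff.rfl

private theorem ci_map (I : Ideal D.O) : ci I = I.map (cjR D) := by
  rw [ci_comap, ← Ideal.map_symm]
  rfl

theorem ci_ci (I : Ideal D.O) : ci (ci I) = I := by
  ext x
  rw [mem_ci, mem_ci, cj_cj]

theorem ci_mul (I J : Ideal D.O) : ci (I * J) = ci I * ci J := by
  rw [ci_map, ci_map, ci_map, Ideal.map_mul]

theorem ci_span (x : D.O) : ci (Ideal.span {x}) = Ideal.span {cj x} := by
  rw [ci_map, Ideal.map_span, Set.image_singleton]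
  rfl

private theorem ci_bot : ci (⊥ : Ideal D.O) = ⊥ := by
  rw [ci_map, Ideal.map_bot]

private theorem ci_ne {I : Ideal D.O} (h : I ≠ ⊥) : ci I ≠ ⊥ := by
  intro h1
  apply h
  rw [← ci_ci I, h1, ci_bot]

private theorem ci_ip' {N : ℕ} {I : Ideal D.O} (h : Ip N I) : Ip N (ci I) := by
  refine ⟨ci_ne h.1, ?_⟩
  have h1 := h.2
  rw [Ideal.isCoprime_iff_sup_eq] at h1 ⊢
  have h2 := congrArg (Ideal.map (cjR D : D.O →+* D.O)) h1
  rw [Ideal.map_sup, Ideal.map_top, Ideal.map_span, Set.image_singleton] at h2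
  have h3 : (cjR D : D.O →+* D.O) (N : D.O) = (N : D.O) := map_natCast _ _
  rw [h3] at h2
  rw [ci_map]
  exact h2

theorem ci_ip {N : ℕ} {I : Ideal D.O} : Ip N (ci I) ↔ Ip N I := by
  refine ⟨fun h => ?_, ci_ip'⟩
  have := ci_ip' h
  rwa [ci_ci] at this

private theorem cj_ne {x : D.O} (h : x ≠ 0) : cj x ≠ 0 := by
  intro h1
  apply h
  rw [← cj_cj x, h1]
  exact Subtype.ext (by simp [cj])

theorem ci_ie {I J : Ideal D.O} (h : Ie I J) : Ie (ci I) (ci J) := by
  obtain ⟨x, y, hx, hy, h⟩ := h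
  refine ⟨cj x, cj y, cj_ne hx, cj_ne hy, ?_⟩
  rw [← ci_span, ← ci_span, ← ci_mul, ← ci_mul, h]

theorem ni_ci (I : Ideal D.O) : ni (ci I) = ni I := by
  unfold ni
  refine Nat.card_congr ((Ideal.quotientEquiv I (ci I) (cjR D) ?_).symm.toEquiv)
  exact ci_map I

/-! ### the norm of an ideal -/

private theorem ni_cod {x : D.O} {m : ℤ × ℤ} (h : (x : ℂ) = UNI.xx D.a m) : cod D x = m := by
  have h1 : x = el D m := Subtype.ext h
  rw [h1, cod_el]

/-- the coordinates -/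
private def niE (D : RNP.OD) : D.O ≃ₗ[ℤ] (Fin 2 → ℤ) where
  toFun x := ![(cod D x).1, (cod D x).2]
  invFun v := el D (v 0, v 1)
  map_add' x y := by
    have h : cod D (x + y) = cod D x + cod D y :=
      ni_cod (by rw [xx_add, xx_cod, xx_cod]; rfl)
    rw [h]
    funext i
    fin_cases i <;> rfl
  map_smul' c x := by
    have h : cod D (c • x) = c • cod D x := by
      apply ni_cod
      have h1 : (x : ℂ) = UNI.xx D.a (cod D x) := (xx_cod D x).symm
      rw [zsmul_eq_mul, Subring.coe_mul, h1]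
      simp only [UNI.xx, Prod.smul_fst, Prod.smul_snd, smul_eq_mul]
      push_cast
      ring
    rw [h]
    funext i
    fin_cases i <;> rfl
  left_inv x := el_cod D x
  right_inv v := by
    funext i
    fin_cases i
    · exact congrArg Prod.fst (cod_el (D := D) (v 0, v 1))
    · exact congrArg Prod.snd (cod_el (D := D) (v 0, v 1))

private def niB (D : RNP.OD) : Module.Basis (Fin 2) ℤ D.O := Module.Basis.ofEquivFun (niE D)

instance freeO (D : RNP.OD) : Module.Free ℤ D.O := Module.Free.of_basis (niB D)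

instance finO (D : RNP.OD) : Module.Finite ℤ D.O := Module.Finite.of_basis (niB D)

private theorem nn_nm (x : D.O) : ((nn D x : ℕ) : ℤ) = UNI.nm D.a (cod D x) := by
  have h1 := nn_mul_cj D x
  have h2 : UNI.xx D.a (cod D x) * (starRingEnd ℂ) (UNI.xx D.a (cod D x)) =
      (UNI.nm D.a (cod D x) : ℤ) := by
    simp only [UNI.xx, map_add, map_mul, map_intCast, cj_om, UNI.nm]
    push_cast
    linear_combination (-((cod D x).2 : ℂ) ^ 2) * om_sq D.a
  rw [xx_cod, h1] at h2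
  exact_mod_cast h2

private theorem det_mul (x : D.O) :
    LinearMap.det (LinearMap.mulLeft ℤ x) = ((nn D x : ℕ) : ℤ) := by
  rw [nn_nm, ← LinearMap.det_toMatrix (niB D), Matrix.det_fin_two]
  have hb : ∀ (i j : Fin 2), LinearMap.toMatrix (niB D) (niB D) (LinearMap.mulLeft ℤ x) i j =
      niE D (x * (niE D).symm (Pi.single j 1)) i := by
    intro i j
    rw [LinearMap.toMatrix_apply]
    simp [niB]
  have h0 : (niE D).symm (Pi.single (0 : Fin 2) 1) = el D (1, 0) := by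
    show el D ((Pi.single (0 : Fin 2) (1 : ℤ) : Fin 2 → ℤ) 0, (Pi.single (0 : Fin 2) (1 : ℤ) : Fin 2 → ℤ) 1) = _
    rfl
  have h1 : (niE D).symm (Pi.single (1 : Fin 2) 1) = el D (0, 1) := rfl
  have hm : ∀ m, cod D (x * el D m) = mulc D.a (cod D x) m := fun m =>
    ni_cod (by rw [xx_mul, xx_cod]; rfl)
  have e : ∀ (y : D.O), niE D y = ![(cod D y).1, (cod D y).2] := fun y => rfl
  simp only [hb, h0, h1, e, hm, mulc, UNI.nm]
  simp
  ring

theorem ni_span (x : D.O) : ni (Ideal.span {x}) = nn D x := by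
  by_cases hx : x = 0
  · subst hx
    have h1 : nn D (0 : D.O) = 0 := nn_eq_zero.2 rfl
    rw [h1]
    unfold ni
    have h2 : Infinite (D.O ⧸ Ideal.span {(0 : D.O)}) := by
      have h3 : Ideal.span {(0 : D.O)} = ⊥ := by simp
      rw [h3]
      have h4 : Infinite D.O := Infinite.of_injective (elE D) (elE D).injective
      exact Infinite.of_injective (Ideal.Quotient.mk (⊥ : Ideal D.O)) fun a b hab => by
        rw [Ideal.Quotient.eq, Ideal.mem_bot, sub_eq_zero] at hab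
        exact hab
    exact Nat.card_eq_zero_of_infinite
  · let N : Submodule ℤ D.O := (Ideal.span {x}).restrictScalars ℤ
    have hinj : Function.Injective (fun y : D.O => x * y) := mul_right_injective₀ hx
    let f : D.O →+ N :=
      { toFun := fun y => ⟨x * y, Ideal.mem_span_singleton'.2 ⟨y, mul_comm y x⟩⟩
        map_zero' := Subtype.ext (mul_zero x)
        map_add' := fun y z => Subtype.ext (mul_add x y z) }
    have hf : Function.Bijective f := by
      constructor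
      · intro y z h
        exact hinj (congrArg Subtype.val h)
      · rintro ⟨z, hz⟩
        obtain ⟨y, rfl⟩ := Ideal.mem_span_singleton'.1 hz
        exact ⟨y, Subtype.ext (mul_comm x y)⟩
    have h1 := Submodule.natAbs_det_equiv N (AddEquiv.ofBijective f hf)
    have h2 : N.subtype ∘ₗ AddMonoidHom.toIntLinearMap
        ((AddEquiv.ofBijective f hf : D.O ≃+ N) : D.O →+ N) = LinearMap.mulLeft ℤ x := by
      ext y
      rfl
    rw [h2, det_mul, Int.natAbs_natCast] at h1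
    rw [h1]
    rfl

theorem ni_ne {I : Ideal D.O} : ni I ≠ 0 ↔ I ≠ ⊥ := by
  constructor
  · intro h h1
    apply h
    rw [h1, ← Ideal.span_zero, ← Set.singleton_zero, ni_span]
    exact nn_eq_zero.2 rfl
  · intro h
    obtain ⟨x, hx, hx0⟩ := Submodule.exists_mem_ne_zero_of_ne_bot h
    have h1 : ni (Ideal.span {x}) ≠ 0 := by
      rw [ni_span]
      exact fun h => hx0 (nn_eq_zero.1 h)
    have h2 : Finite (D.O ⧸ Ideal.span {x}) := Nat.finite_of_card_ne_zero h1
    have h3 : Ideal.span {x} ≤ I := (Ideal.span_singleton_le_iff_mem I).2 hx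
    have h4 : Finite (D.O ⧸ I) := Finite.of_surjective (Ideal.Quotient.factor h3)
      (Ideal.Quotient.factor_surjective h3)
    exact Nat.card_pos.ne'

theorem ni_top {I : Ideal D.O} : ni I = 1 ↔ I = ⊤ := by
  unfold ni
  rw [Nat.card_eq_one_iff_unique, Ideal.Quotient.subsingleton_iff]
  exact ⟨fun h => h.1, fun h => ⟨h, ⟨0⟩⟩⟩

theorem ni_mem (I : Ideal D.O) : ((ni I : ℕ) : D.O) ∈ I := by
  have h1 : ni I • (1 : D.O ⧸ I) = 0 := card_nsmul_eq_zero'
  rw [← Ideal.Quotient.eq_zero_iff_mem, map_natCast]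
  rwa [nsmul_eq_mul, mul_one] at h1

private theorem cop_iff {N : ℕ} {I : Ideal D.O} :
    IsCoprime I (Ideal.span {(N : D.O)}) ↔ ∃ x ∈ I, ∃ y : D.O, x = 1 + N * y := by
  rw [Ideal.isCoprime_iff_exists]
  constructor
  · rintro ⟨x, hx, z, hz, h⟩
    obtain ⟨y, rfl⟩ := Ideal.mem_span_singleton'.1 hz
    exact ⟨x, hx, -y, by rw [← h]; ring⟩
  · rintro ⟨x, hx, y, rfl⟩
    exact ⟨1 + N * y, hx, -(N * y), by
      rw [neg_mem_iff]
      exact Ideal.mul_mem_right _ _ (Ideal.mem_span_singleton_self _), by ring⟩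

theorem ip_iff {N : ℕ} {I : Ideal D.O} (hN : 0 < N) : Ip N I ↔ I ≠ ⊥ ∧ Nat.Coprime (ni I) N := by
  refine and_congr_right fun hI => ?_
  have hfin : Finite (D.O ⧸ I) := Nat.finite_of_card_ne_zero (ni_ne.2 hI)
  constructor
  · intro h
    rw [Nat.coprime_iff_gcd_eq_one]
    by_contra hne
    obtain ⟨p, hp, hpd⟩ := Nat.exists_prime_and_dvd hne
    have h1 : p ∣ ni I := hpd.trans (Nat.gcd_dvd_left _ _)
    have h2 : p ∣ N := hpd.trans (Nat.gcd_dvd_right _ _)
    have := Fact.mk hp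
    obtain ⟨z, hz⟩ := exists_prime_addOrderOf_dvd_card' (G := D.O ⧸ I) p h1
    obtain ⟨x, hx, y, hy⟩ := cop_iff.1 h
    have h3 : (N : D.O ⧸ I) * z = 0 := by
      obtain ⟨k, rfl⟩ := h2
      have h4 : p • z = 0 := by rw [← hz]; exact addOrderOf_nsmul_eq_zero z
      rw [Nat.cast_mul, mul_comm (p : D.O ⧸ I), mul_assoc, ← nsmul_eq_mul, ← nsmul_eq_mul] 
      rw [h4, smul_zero]
    have h4 : z = 0 := by
      have h5 : (Ideal.Quotient.mk I x) = 0 := Ideal.Quotient.eq_zero_iff_mem.2 hx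
      rw [hy, map_add, map_one, map_mul, map_natCast] at h5
      calc z = (1 + (N : D.O ⧸ I) * Ideal.Quotient.mk I y) * z - Ideal.Quotient.mk I y * ((N : D.O ⧸ I) * z) := by ring
        _ = 0 := by rw [h5, h3]; ring
    rw [h4, addOrderOf_zero] at hz
    exact hp.one_lt.ne hz
  · intro h
    rw [cop_iff]
    have h1 := Nat.isCoprime_iff_coprime.2 h
    obtain ⟨a, b, hab⟩ := h1
    refine ⟨(a : D.O) * (ni I : ℕ), I.mul_mem_left _ (ni_mem I), -b, ?_⟩
    have h2 : ((a * (ni I : ℕ) + b * (N : ℕ) : ℤ) : D.O) = ((1 : ℤ) : D.O) := by rw [hab]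
    push_cast at h2
    linear_combination h2

theorem ip_span {N : ℕ} {x : D.O} : Ip N (Ideal.span {x}) ↔ x ≠ 0 ∧ Cp N x := by
  unfold Ip Cp
  rw [Ideal.isCoprime_span_singleton_iff, Ne, Ideal.span_singleton_eq_bot]

theorem ip_mul {N : ℕ} {I J : Ideal D.O} : Ip N (I * J) ↔ Ip N I ∧ Ip N J := by
  unfold Ip
  rw [Ne, Ideal.mul_eq_bot, not_or, IsCoprime.mul_left_iff]
  tauto

theorem ip_dvd {N M : ℕ} (h : N ∣ M) {I : Ideal D.O} (hI : Ip M I) : Ip N I := by
  obtain ⟨k, rfl⟩ := h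
  refine ⟨hI.1, ?_⟩
  have h1 := hI.2
  rw [Nat.cast_mul, ← Ideal.span_singleton_mul_span_singleton] at h1
  exact h1.of_mul_right_left

/-- an ideal prime to `N` contains an element `≡ 1` mod `N` -/
theorem ip_one {N : ℕ} {I : Ideal D.O} (h : Ip N I) : ∃ x ∈ I, ∃ y : D.O, x = 1 + N * y :=
  cop_iff.1 h.2

section ded

variable [IsDedekindDomain D.O]

private theorem ni_abs (I : Ideal D.O) : ni I = Ideal.absNorm I := by
  rw [Ideal.absNorm_apply, Submodule.cardQuot_apply]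
  rfl

theorem ni_mul (I J : Ideal D.O) : ni (I * J) = ni I * ni J := by
  rw [ni_abs, ni_abs, ni_abs, map_mul]

theorem ni_fin (M : ℕ) : {I : Ideal D.O | I ≠ ⊥ ∧ ni I ≤ M}.Finite := by
  refine (Ideal.finite_setOfPred_absNorm_le (S := D.O) M).subset fun I hI => ?_
  have h := hI.2
  rw [ni_abs] at h
  exact h

/-- ideals of the same norm, one contained in the other one -/
private theorem eq_of_ni {I J : Ideal D.O} (h : I ≤ J) (hI : I ≠ ⊥) (hn : ni I = ni J) :
    I = J := by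
  obtain ⟨K, hK⟩ := Ideal.dvd_iff_le.2 h
  have h1 : ni I ≠ 0 := ni_ne.2 hI
  have h2 : ni I = ni J * ni K := by rw [hK, ni_mul]
  have h3 : ni K = 1 := by
    rw [← hn] at h2
    exact (Nat.eq_of_mul_eq_mul_left (Nat.pos_of_ne_zero h1) (by rw [mul_one]; exact h2)).symm
  rw [hK, ni_top.1 h3, Ideal.mul_top]

private theorem ni_dvd {I : Ideal D.O} {x : D.O} (hx : x ∈ I) : ni I ∣ nn D x := by
  obtain ⟨K, hK⟩ := Ideal.dvd_iff_le.2 ((Ideal.span_singleton_le_iff_mem I).2 hx)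
  rw [← ni_span, hK, ni_mul]
  exact dvd_mul_right _ _

/-- if `u` is a root of `X² - n t X + n² c`, then `n` divides `u` -/
private theorem dvd_of_root {n : ℕ} (hn : n ≠ 0) {u t c : D.O}
    (h : u * u - (n : D.O) * t * u + (n : D.O) * (n : D.O) * c = 0) : (n : D.O) ∣ u := by
  let K := FractionRing D.O
  have hn0 : (n : D.O) ≠ 0 := Nat.cast_ne_zero.2 hn
  have hK : algebraMap D.O K (n : D.O) ≠ 0 := by
    intro h0
    exact hn0 ((IsFractionRing.injective D.O K) (by rw [h0, map_zero]))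
  set z : K := algebraMap D.O K u / algebraMap D.O K (n : D.O) with hz
  have h1 : z * z - algebraMap D.O K t * z + algebraMap D.O K c = 0 := by
    have h2 := congrArg (algebraMap D.O K) h
    simp only [map_add, map_sub, map_mul, map_zero] at h2
    have h3 : algebraMap D.O K u = z * algebraMap D.O K (n : D.O) := by
      rw [hz, div_mul_cancel₀ _ hK]
    rw [h3] at h2
    have h4 : (algebraMap D.O K (n : D.O)) ^ 2 *
        (z * z - algebraMap D.O K t * z + algebraMap D.O K c) = 0 := by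
      linear_combination h2
    exact (mul_eq_zero.1 h4).resolve_left (pow_ne_zero 2 hK)
  have h2 : IsIntegral D.O z := by
    refine ⟨Polynomial.X ^ 2 + (Polynomial.C (-t) * Polynomial.X + Polynomial.C c), ?_, ?_⟩
    · refine Polynomial.monic_X_pow_add ?_
      refine (Polynomial.degree_add_le _ _).trans_lt (max_lt ?_ ?_)
      · exact (Polynomial.degree_C_mul_X_le _).trans_lt (by norm_num)
      · exact Polynomial.degree_C_le.trans_lt (by norm_num)
    · simp only [Polynomial.eval₂_add, Polynomial.eval₂_mul,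
        Polynomial.eval₂_C, Polynomial.eval₂_pow, Polynomial.eval₂_X]
      rw [map_neg]
      linear_combination h1
  obtain ⟨w, hw⟩ := IsIntegrallyClosed.algebraMap_eq_of_integral (R := D.O) h2
  refine ⟨w, (IsFractionRing.injective D.O K) ?_⟩
  rw [map_mul, hw, hz, mul_div_cancel₀ _ hK]

omit [IsDedekindDomain D.O] in
private theorem nn_cj_mul (x : D.O) : x * cj x = ((nn D x : ℕ) : D.O) :=
  Subtype.ext (by
    rw [Subring.coe_mul]
    show (x : ℂ) * (starRingEnd ℂ) (x : ℂ) = _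
    rw [nn_mul_cj]
    simp)

private theorem mem_mul_ci {I : Ideal D.O} (hI : I ≠ ⊥) {x y : D.O} (hx : x ∈ I) (hy : y ∈ I) :
    ((ni I : ℕ) : D.O) ∣ x * cj y := by
  obtain ⟨a, ha⟩ := ni_dvd hx
  obtain ⟨b, hb⟩ := ni_dvd hy
  obtain ⟨c, hc⟩ := ni_dvd (I.add_mem hx hy)
  have h1 := nn_cj_mul x
  have h2 := nn_cj_mul y
  have h3 := nn_cj_mul (x + y)
  rw [ha] at h1
  rw [hb] at h2
  rw [hc, cj_add] at h3
  push_cast at h1 h2 h3
  refine dvd_of_root (ni_ne.2 hI) (t := (c : D.O) - a - b) (c := (a : D.O) * b) ?_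
  linear_combination (x * cj y) * h3 - (x * cj y) * h1 - (x * cj y) * h2 - (x * cj x) * h2 -
    ((ni I : ℕ) : D.O) * b * h1

theorem mul_ci (I : Ideal D.O) : I * ci I = Ideal.span {((ni I : ℕ) : D.O)} := by
  by_cases hI : I = ⊥
  · have h1 : ni I = 0 := by
      by_contra h
      exact ni_ne.1 h hI
    rw [h1, hI]
    simp
  · refine eq_of_ni ?_ ?_ ?_
    · rw [Ideal.mul_le]
      intro x hx y hy
      rw [Ideal.mem_span_singleton]
      have h1 := mem_mul_ci hI hx (mem_ci.1 hy)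
      rwa [cj_cj] at h1
    · rw [Ne, Ideal.mul_eq_bot, not_or]
      exact ⟨hI, ci_ne hI⟩
    · rw [ni_mul, ni_ci, ni_span]
      have h1 : ((nn D ((ni I : ℕ) : D.O) : ℕ) : ℝ) = ((ni I * ni I : ℕ) : ℝ) := by
        rw [nn_real]
        simp
        ring
      exact_mod_cast h1.symm

/-- `I` divides `(x)` if `x ∈ I` -/
theorem ex_quo {I : Ideal D.O} {x : D.O} (hx : x ∈ I) : ∃ J, I * J = Ideal.span {x} := by
  obtain ⟨K, hK⟩ := Ideal.dvd_iff_le.2 ((Ideal.span_singleton_le_iff_mem I).2 hx)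
  exact ⟨K, hK.symm⟩

theorem ex_gen {I J : Ideal D.O} (hI : I ≠ ⊥) (hJ : J ≠ ⊥) :
    ∃ x ∈ I, x ≠ 0 ∧ ∃ I' : Ideal D.O, I * I' = Ideal.span {x} ∧ IsCoprime I' J := by
  have h0 : I * J ≠ 0 := by
    rw [Ideal.zero_eq_bot, Ne, Ideal.mul_eq_bot, not_or]
    exact ⟨hI, hJ⟩
  obtain ⟨a, ha⟩ := IsDedekindDomain.exists_sup_span_eq (Ideal.mul_le_left : I * J ≤ I) h0
  by_cases ha0 : a = 0
  · obtain ⟨x, hx, hx0⟩ := Submodule.exists_mem_ne_zero_of_ne_bot hI
    obtain ⟨K, hK⟩ := ex_quo hx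
    refine ⟨x, hx, hx0, K, hK, ?_⟩
    have h1 : I * J = I := by
      rw [ha0] at ha
      simpa using ha
    have h2 : J = ⊤ := by
      have h3 : I * J = I * 1 := by rw [mul_one]; exact h1
      rw [← Ideal.one_eq_top]
      exact mul_left_cancel₀ (by rwa [Ideal.zero_eq_bot]) h3
    rw [h2, ← Ideal.one_eq_top]
    exact isCoprime_one_right
  · have hm : a ∈ I := by
      have h1 : Ideal.span {a} ≤ I := by
        conv_rhs => rw [← ha]
        exact le_sup_right
      exact (Ideal.span_singleton_le_iff_mem I).1 h1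
    obtain ⟨K, hK⟩ := ex_quo hm
    refine ⟨a, hm, ha0, K, hK, ?_⟩
    rw [← hK, ← Ideal.mul_sup] at ha
    have h2 : J ⊔ K = ⊤ := by
      have h3 : I * (J ⊔ K) = I * 1 := by rw [mul_one]; exact ha
      rw [← Ideal.one_eq_top]
      exact mul_left_cancel₀ (by rwa [Ideal.zero_eq_bot]) h3
    rw [Ideal.isCoprime_iff_sup_eq, sup_comm]
    exact h2

open Classical UniqueFactorizationMonoid in
/-- elements of stable range one modulo `N` -/
private theorem stable {N : ℕ} (hN : 0 < N) {a c : D.O}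
    (h : ∃ r u v : D.O, r * a + u * c + v * N = 1) : ∃ t : D.O, Cp N (a + t * c) := by
  have hN0 : Ideal.span {(N : D.O)} ≠ ⊥ := by
    rw [Ne, Ideal.span_singleton_eq_bot]
    exact Nat.cast_ne_zero.2 hN.ne'
  set F : Finset (Ideal D.O) := (normalizedFactors (Ideal.span {(N : D.O)})).toFinset with hF
  have hmF : ∀ m : Ideal D.O, m ∈ F ↔ m.IsPrime ∧ Ideal.span {(N : D.O)} ≤ m := by
    intro m
    rw [hF, Multiset.mem_toFinset, Ideal.mem_normalizedFactors_iff hN0]
  have hmax : ∀ m ∈ F, m.IsMaximal := by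
    intro m hm
    obtain ⟨h1, h2⟩ := (hmF m).1 hm
    exact h1.isMaximal fun h0 => hN0 (le_bot_iff.1 (h0 ▸ h2))
  set S := F.filter fun m => a ∉ m with hS
  set S' := F.filter fun m => a ∈ m with hS'
  have hcop : IsCoprime (∏ m ∈ S, m) (∏ m ∈ S', m) := by
    refine IsCoprime.prod_left fun m hm => IsCoprime.prod_right fun m' hm' => ?_
    rw [hS, Finset.mem_filter] at hm
    rw [hS', Finset.mem_filter] at hm'
    rw [Ideal.isCoprime_iff_sup_eq]
    exact (hmax m hm.1).coprime_of_ne (hmax m' hm'.1) fun e => hm.2 (e ▸ hm'.2)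
  obtain ⟨j, hj, j', hj', hjj⟩ := Ideal.isCoprime_iff_exists.1 hcop
  refine ⟨j, ?_⟩
  unfold Cp
  rw [← Ideal.isCoprime_span_singleton_iff, Ideal.isCoprime_iff_sup_eq]
  by_contra hne
  obtain ⟨m, hm, hle⟩ := Ideal.exists_le_maximal _ hne
  have hNm : (N : D.O) ∈ m := hle (Ideal.mem_sup_right (Ideal.mem_span_singleton_self _))
  have ham : a + j * c ∈ m := hle (Ideal.mem_sup_left (Ideal.mem_span_singleton_self _))
  have hmf : m ∈ F := (hmF m).2 ⟨hm.isPrime, (Ideal.span_singleton_le_iff_mem m).2 hNm⟩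
  by_cases ha : a ∈ m
  · have h1 : j' ∈ m := by
      have h2 : m ∈ S' := by rw [hS', Finset.mem_filter]; exact ⟨hmf, ha⟩
      exact (Ideal.le_of_dvd (Finset.dvd_prod_of_mem (fun m : Ideal D.O => m) h2)) hj'
    have h3 : j * c ∈ m := by
      have := m.sub_mem ham ha
      rwa [add_sub_cancel_left] at this
    have h4 : c ∈ m := by
      have h5 : c = j * c + c * j' := by linear_combination (-c) * hjj
      rw [h5]
      exact m.add_mem h3 (m.mul_mem_left _ h1)
    obtain ⟨r, u, v, h6⟩ := h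
    apply hm.ne_top
    rw [Ideal.eq_top_iff_one, ← h6]
    exact m.add_mem (m.add_mem (m.mul_mem_left _ ha) (m.mul_mem_left _ h4)) (m.mul_mem_left _ hNm)
  · have h1 : j ∈ m := by
      have h2 : m ∈ S := by rw [hS, Finset.mem_filter]; exact ⟨hmf, ha⟩
      exact (Ideal.le_of_dvd (Finset.dvd_prod_of_mem (fun m : Ideal D.O => m) h2)) hj
    apply ha
    have := m.sub_mem ham (m.mul_mem_right c h1)
    rwa [add_sub_cancel_right] at this

theorem lift_cp {I : Ideal D.O} {N : ℕ} (hN : 0 < N) (hI : Ideal.span {(N : D.O)} ≤ I) {x : D.O}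
    (hx : IsCoprime (Ideal.span {x}) I) : ∃ x' : D.O, Cp N x' ∧ x' - x ∈ I := by
  obtain ⟨u, hu, i, hi, h1⟩ := Ideal.isCoprime_iff_exists.1 hx
  obtain ⟨r, rfl⟩ := Ideal.mem_span_singleton'.1 hu
  obtain ⟨t, ht⟩ := stable hN (a := x) (c := i) ⟨r, 1, 0, by linear_combination h1⟩
  refine ⟨x + t * i, ht, ?_⟩
  rw [add_sub_cancel_left]
  exact I.mul_mem_left _ hi

/-- if `x, y` generate the same ideal mod `N`, they are multiples of each other mod `N` by elements prime to `N` -/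
theorem same_gcd {N : ℕ} (hN : 0 < N) {x y : D.O}
    (h : Ideal.span {x} ⊔ Ideal.span {(N : D.O)} = Ideal.span {y} ⊔ Ideal.span {(N : D.O)}) :
    ∃ u : D.O, Cp N u ∧ ∃ z : D.O, y = u * x + N * z := by
  have hy : y ∈ Ideal.span {x} ⊔ Ideal.span {(N : D.O)} := by
    rw [h]
    exact Ideal.mem_sup_left (Ideal.mem_span_singleton_self _)
  have hx : x ∈ Ideal.span {y} ⊔ Ideal.span {(N : D.O)} := by
    rw [← h]
    exact Ideal.mem_sup_left (Ideal.mem_span_singleton_self _)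
  obtain ⟨p, hp, q, hq, h1⟩ := Submodule.mem_sup.1 hy
  obtain ⟨a, rfl⟩ := Ideal.mem_span_singleton'.1 hp
  obtain ⟨z1, rfl⟩ := Ideal.mem_span_singleton'.1 hq
  obtain ⟨p, hp, q, hq, h2⟩ := Submodule.mem_sup.1 hx
  obtain ⟨b, rfl⟩ := Ideal.mem_span_singleton'.1 hp
  obtain ⟨z2, rfl⟩ := Ideal.mem_span_singleton'.1 hq
  obtain ⟨t, ht⟩ := stable hN (a := a) (c := 1 - b * a) ⟨b, 1, 0, by ring⟩
  refine ⟨a + t * (1 - b * a), ht, z1 - t * (z2 + b * z1), ?_⟩
  linear_combination (t * b - 1) * h1 + t * h2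

omit [IsDedekindDomain D.O] in
/-- small elements of ideals -/
private theorem ex_small (D : RNP.OD) : ∃ C : ℕ, 0 < C ∧ ∀ I : Ideal D.O, I ≠ ⊥ →
    ∃ x ∈ I, x ≠ 0 ∧ nn D x ≤ C * ni I := by
  classical
  refine ⟨1 + D.a.t.natAbs + D.a.n.natAbs, by omega, fun I hI => ?_⟩
  have hn := ni_ne.2 hI
  have hfin : Finite (D.O ⧸ I) := Nat.finite_of_card_ne_zero hn
  have : Fintype (D.O ⧸ I) := Fintype.ofFinite _
  set n := ni I with hnd
  set k := Nat.sqrt n with hk
  let A : Finset (ℕ × ℕ) := Finset.range (k + 1) ×ˢ Finset.range (k + 1)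
  have hcard : (Finset.univ : Finset (D.O ⧸ I)).card < A.card := by
    rw [Finset.card_univ, ← Nat.card_eq_fintype_card, Finset.card_product, Finset.card_range]
    exact Nat.lt_succ_sqrt n
  obtain ⟨p, hp, q, hq, hpq, he⟩ := Finset.exists_ne_map_eq_of_card_lt_of_maps_to hcard
    (f := fun p : ℕ × ℕ => Ideal.Quotient.mk I (el D ((p.1 : ℤ), (p.2 : ℤ))))
    (fun _ _ => Finset.mem_coe.2 (Finset.mem_univ _))
  have hx : el D ((p.1 : ℤ), (p.2 : ℤ)) - el D ((q.1 : ℤ), (q.2 : ℤ)) =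
      el D ((p.1 : ℤ) - q.1, (p.2 : ℤ) - q.2) := by
    rw [sub_eq_iff_eq_add, ← el_add]
    congr 1
    exact Prod.ext (by simp) (by simp)
  refine ⟨_, (Ideal.Quotient.eq.1 he), ?_, ?_⟩
  · rw [hx]
    intro h0
    have h1 : ((p.1 : ℤ) - q.1, (p.2 : ℤ) - q.2) = (0 : ℤ × ℤ) := by
      rw [← cod_el (D := D) ((p.1 : ℤ) - q.1, (p.2 : ℤ) - q.2), h0, ← el_zero, cod_el]
    apply hpq
    have h2 := congrArg Prod.fst h1
    have h3 := congrArg Prod.snd h1
    simp only [Prod.fst_zero, Prod.snd_zero] at h2 h3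
    exact Prod.ext (by omega) (by omega)
  · rw [hx]
    have h1 := nn_nm (el D ((p.1 : ℤ) - q.1, (p.2 : ℤ) - q.2))
    rw [cod_el] at h1
    simp only [A, Finset.mem_product, Finset.mem_range] at hp hq
    set u : ℤ := (p.1 : ℤ) - q.1 with hu
    set v : ℤ := (p.2 : ℤ) - q.2 with hv
    have hu1 : |u| ≤ k := abs_le.2 ⟨by omega, by omega⟩
    have hv1 : |v| ≤ k := abs_le.2 ⟨by omega, by omega⟩
    have hkn : (k : ℤ) * k ≤ n := by exact_mod_cast Nat.sqrt_le n
    have hk0 : (0 : ℤ) ≤ k := Int.natCast_nonneg k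
    have hU : u ^ 2 ≤ (k : ℤ) * k := by
      rw [← sq_abs, sq]
      exact mul_le_mul hu1 hu1 (abs_nonneg _) hk0
    have hV : v ^ 2 ≤ (k : ℤ) * k := by
      rw [← sq_abs, sq]
      exact mul_le_mul hv1 hv1 (abs_nonneg _) hk0
    have hUV : |u * v| ≤ (k : ℤ) * k := by
      rw [abs_mul]
      exact mul_le_mul hu1 hv1 (abs_nonneg _) hk0
    have hT : D.a.t * u * v ≤ |D.a.t| * ((k : ℤ) * k) := by
      rw [mul_assoc]
      refine (le_abs_self _).trans ?_
      rw [abs_mul]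
      exact mul_le_mul_of_nonneg_left hUV (abs_nonneg _)
    have hNN : D.a.n * v ^ 2 ≤ |D.a.n| * ((k : ℤ) * k) := by
      refine (le_abs_self _).trans ?_
      rw [abs_mul, abs_of_nonneg (sq_nonneg v)]
      exact mul_le_mul_of_nonneg_left hV (abs_nonneg _)
    have h2 : ((nn D (el D (u, v)) : ℕ) : ℤ) ≤
        ((1 + D.a.t.natAbs + D.a.n.natAbs) * n : ℕ) := by
      rw [h1]
      push_cast
      simp only [UNI.nm]
      have h3 : (1 + |D.a.t| + |D.a.n|) * ((k : ℤ) * k) ≤ (1 + |D.a.t| + |D.a.n|) * n :=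
        mul_le_mul_of_nonneg_left hkn (by positivity)
      nlinarith
    exact_mod_cast h2

theorem ni_summable {s : ℝ} (hs : 1 < s) :
    Summable (fun I : Ideal D.O => ((ni I : ℕ) : ℝ) ^ (-s)) := by
  obtain ⟨C, hC, hsm⟩ := ex_small D
  -- the elements
  have hex : ∀ I : {I : Ideal D.O // I ≠ ⊥}, ∃ x : D.O, ∃ J : Ideal D.O,
      x ≠ 0 ∧ nn D x ≤ C * ni I.1 ∧ I.1 * J = Ideal.span {x} := by
    intro I
    obtain ⟨x, hx, hx0, hxn⟩ := hsm I.1 I.2
    obtain ⟨J, hJ⟩ := ex_quo hx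
    exact ⟨x, J, hx0, hxn, hJ⟩
  choose x J hx0 hxn hJ using hex
  have hJ0 : ∀ I, J I ≠ ⊥ := by
    intro I h
    have h1 := hJ I
    rw [h, Ideal.mul_bot] at h1
    exact hx0 I (Ideal.span_singleton_eq_bot.1 h1.symm)
  have hJn : ∀ I, ni (J I) ≤ C := by
    intro I
    have h1 := hxn I
    rw [← ni_span, ← hJ, ni_mul, mul_comm C] at h1
    exact Nat.le_of_mul_le_mul_left h1 (Nat.pos_of_ne_zero (ni_ne.2 I.2))
  have hfin : Finite {J : Ideal D.O | J ≠ ⊥ ∧ ni J ≤ C} := (ni_fin C).to_subtype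
  let φ : {I : Ideal D.O // I ≠ ⊥} → {J : Ideal D.O | J ≠ ⊥ ∧ ni J ≤ C} × D.O :=
    fun I => (⟨J I, hJ0 I, hJn I⟩, x I)
  have hφ : Function.Injective φ := by
    intro I I' h
    have h1 : J I = J I' := congrArg (fun p => ((p.1 : {J : Ideal D.O | J ≠ ⊥ ∧ ni J ≤ C}) :
      Ideal D.O)) h
    have h2 : x I = x I' := congrArg Prod.snd h
    have h3 : I.1 * J I = I'.1 * J I := by
      rw [hJ I, h1, hJ I', h2]
    exact Subtype.ext (mul_right_cancel₀ (by rw [Ideal.zero_eq_bot]; exact hJ0 I) h3)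
  have hsum : Summable (fun y : D.O => ((nn D y : ℕ) : ℝ) ^ (-s)) := by
    have h1 := (Ds_summable (D := D) (a := fun _ => (1 : ℂ)) ⟨1, fun _ => by simp⟩
      (s := (s : ℂ)) (by simpa using hs)).norm
    refine h1.congr fun y => ?_
    rw [one_mul]
    by_cases hy : nn D y = 0
    · rw [hy]
      have h2 : -s ≠ 0 := by linarith
      have h3 : (-(s : ℂ)) ≠ 0 := by
        rw [neg_ne_zero]
        exact_mod_cast (by linarith : s ≠ 0)
      rw [Nat.cast_zero, Nat.cast_zero, Real.zero_rpow h2, Complex.zero_cpow h3, norm_zero]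
    · have h2 : (0 : ℝ) < ((nn D y : ℕ) : ℝ) := by exact_mod_cast Nat.pos_of_ne_zero hy
      have h3 : ((nn D y : ℕ) : ℂ) = (((nn D y : ℕ) : ℝ) : ℂ) := by simp
      rw [h3, Complex.norm_cpow_eq_rpow_re_of_pos h2]
      simp
  have hsum2 : Summable (fun p : {J : Ideal D.O | J ≠ ⊥ ∧ ni J ≤ C} × D.O =>
      (C : ℝ) ^ s * ((nn D p.2 : ℕ) : ℝ) ^ (-s)) := by
    rw [summable_prod_of_nonneg fun p => by positivity]
    exact ⟨fun _ => hsum.mul_left _, Summable.of_finite⟩
  have h3 := hsum2.comp_injective hφ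
  have h4 : Summable (fun I : {I : Ideal D.O // I ≠ ⊥} => ((ni I.1 : ℕ) : ℝ) ^ (-s)) := by
    refine Summable.of_nonneg_of_le (fun I => by positivity) (fun I => ?_) h3
    have hn : (0 : ℝ) < ((ni I.1 : ℕ) : ℝ) := by
      exact_mod_cast Nat.pos_of_ne_zero (ni_ne.2 I.2)
    have hnx : (0 : ℝ) < ((nn D (x I) : ℕ) : ℝ) := by
      exact_mod_cast Nat.pos_of_ne_zero fun h => hx0 I (nn_eq_zero.1 h)
    have hC0 : (0 : ℝ) < C := by exact_mod_cast hC
    show ((ni I.1 : ℕ) : ℝ) ^ (-s) ≤ (C : ℝ) ^ s * ((nn D (x I) : ℕ) : ℝ) ^ (-s)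
    have h5 : ((nn D (x I) : ℕ) : ℝ) ≤ C * ((ni I.1 : ℕ) : ℝ) := by exact_mod_cast hxn I
    have h6 : (C * ((ni I.1 : ℕ) : ℝ)) ^ (-s) ≤ ((nn D (x I) : ℕ) : ℝ) ^ (-s) :=
      Real.rpow_le_rpow_of_nonpos hnx h5 (by linarith)
    calc ((ni I.1 : ℕ) : ℝ) ^ (-s) = (C : ℝ) ^ s * (C * ((ni I.1 : ℕ) : ℝ)) ^ (-s) := by
          rw [Real.mul_rpow hC0.le hn.le, ← mul_assoc, ← Real.rpow_add hC0, add_neg_cancel,
            Real.rpow_zero, one_mul]
      _ ≤ _ := mul_le_mul_of_nonneg_left h6 (by positivity)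
  refine (Function.Injective.summable_iff (f := fun I : Ideal D.O => ((ni I : ℕ) : ℝ) ^ (-s))
    (Subtype.val_injective (p := fun I : Ideal D.O => I ≠ ⊥)) fun I hI => ?_).1 h4
  have h5 : I = ⊥ := by
    by_contra h
    exact hI ⟨⟨I, h⟩, rfl⟩
  have h6 : ni I = 0 := by
    by_contra h
    exact ni_ne.1 h h5
  show ((ni I : ℕ) : ℝ) ^ (-s) = 0
  rw [h6, Nat.cast_zero, Real.zero_rpow (by linarith)]

end ded

end

end RNG
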