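import Pool.Agent.RNG.Gs
import Pool.Agent.RNG.Ni

/-!
# RNG.Gi: the finite Fourier transform of `η 1_I`

`η : Hc D m` (primitive), `I` an ideal prime to `m`, `A = ni I`, `M = m A`; the function `a(x) = η(x) [x ∈ I]` has period `M`
(`A ∈ I`). `F(x) = Σ_{k mod M, rp k ∈ I} η(rp k) ψ(x rp k / M)` (`ψ = pss D`, `tp k = rp k / M`).
* shift `k` by `m k'`, `k' ∈ I`: `η` and the condition do not change, so `F(x) = F(x) ψ(x k' / A)` for all `k' ∈ I`. If
  `F(x) ≠ 0` then `x k' / A ∈ O` (`ps_perfect`), so `x I ⊆ A O = I * ci I` (`mul_ci`) and `x ∈ ci I`.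
* Let `x ∈ ci I`, `z = a₀ x / A ∈ O` for a fixed `a₀ ∈ I`, `a₀ ≡ 1` mod `m` (`ip_one`). For `y ∈ I` we have
  `ψ(x y / M) = ψ(z y / m)`. The map `G M → G m × O / I` is a surjective homomorphism, its fibres have `A` elements, so
  `F(x) = A Σ_{k₀ mod m} η(k₀) ψ(z k₀ / m) = A m du m η z = A m conj(η(z)) du m η 1` (`Hc.du_mul`), and
  `A z = a₀ x ≡ x` mod `m`, `η(A) = 1`, so `η(z) = η(x)`.
-/

open RNK

namespace RNG

noncomputable section

variable {D : RNP.OD}

section aux

variable {N : ℕ} [NeZero N]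

private theorem gi_cod_add (x y : D.O) : cod D (x + y) = cod D x + cod D y := by
  have h1 : x + y = el D (cod D x + cod D y) := by rw [el_add, el_cod, el_cod]
  rw [h1, cod_el]

omit [NeZero N] in
private theorem gi_cls_add (x y : D.O) : cls N (x + y) = cls N x + cls N y := by
  rw [cls, cls, cls, gi_cod_add]
  refine Prod.ext ?_ ?_ <;> simp

/-- the sum over the classes of a periodic function is invariant under shifts -/
private theorem gi_shift {φ : D.O → ℂ} (hφ : Pe N φ) (c : D.O) :
    ∑ k : UNL.G N, φ (rp D k + c) = ∑ k : UNL.G N, φ (rp D k) := by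
  refine Eq.trans ?_ (Equiv.sum_comp (Equiv.addRight (cls N c)) (fun k : UNL.G N => φ (rp D k)))
  refine Finset.sum_congr rfl fun k _ => ?_
  show φ (rp D k + c) = φ (rp D (k + cls N c))
  obtain ⟨z, hz⟩ := rp_cls (N := N) (rp D k + c)
  rw [gi_cls_add, cls_rp] at hz
  rw [hz, hφ]

private theorem gi_pss_sub {x y : ℂ} (h : x - y ∈ D.O) : pss D x = pss D y := by
  have e : x = y + (x - y) := by ring
  rw [e, pss_add, pss_O h, mul_one]

end aux

section fib

variable {m : ℕ} [NeZero m]

/-- the class mod `m` and mod `I` of a class mod `M` -/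
private def gi_g (I : Ideal D.O) {M : ℕ} [NeZero M] (hM : m ∣ M) (hI : ((M : ℕ) : D.O) ∈ I) :
    UNL.G M →+ UNL.G m × (D.O ⧸ I) where
  toFun k := (cls m (rp D k), Ideal.Quotient.mk I (rp D k))
  map_zero' := by
    have h1 : rp D (0 : UNL.G M) = 0 := by
      have : rp D (0 : UNL.G M) = el D 0 := by
        simp [rp]
        rfl
      rw [this, el_zero]
    rw [h1, map_zero]
    have h2 : cls m (0 : D.O) = 0 := by
      have h3 := gi_cls_add (N := m) (0 : D.O) 0
      rw [add_zero] at h3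
      exact left_eq_add.1 h3
    rw [h2]
    rfl
  map_add' k l := by
    obtain ⟨z, hz⟩ := rp_cls (N := M) (rp D k + rp D l)
    rw [gi_cls_add, cls_rp, cls_rp] at hz
    obtain ⟨q, hq⟩ := hM
    refine Prod.ext ?_ ?_
    · show cls m (rp D (k + l)) = cls m (rp D k) + cls m (rp D l)
      rw [← gi_cls_add, hz]
      refine (cls_eq.2 ⟨(q : D.O) * z, ?_⟩).symm
      have hq' : ((M : ℕ) : D.O) = (m : D.O) * (q : D.O) := by
        rw [hq, Nat.cast_mul]
      rw [hq', mul_assoc]
    · show Ideal.Quotient.mk I (rp D (k + l)) =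
        Ideal.Quotient.mk I (rp D k) + Ideal.Quotient.mk I (rp D l)
      rw [← map_add, hz, map_add, Ideal.Quotient.eq_zero_iff_mem.2 (I.mul_mem_right z hI), add_zero]

end fib

section main

variable [IsDedekindDomain D.O] {m : ℕ} [NeZero m]

open Classical in
theorem pe_I (η : Hc D m) {I : Ideal D.O} :
    Pe (m * ni I) (fun x : D.O => if x ∈ I then η.f x else 0) := by
  intro x y
  have h1 : (((m * ni I : ℕ)) : D.O) * y ∈ I := by
    rw [Nat.cast_mul]
    exact I.mul_mem_right y (I.mul_mem_left _ (ni_mem I))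
  have h2 : x + (((m * ni I : ℕ)) : D.O) * y ∈ I ↔ x ∈ I := by
    constructor
    · intro h
      have h3 := I.sub_mem h h1
      rwa [add_sub_cancel_right] at h3
    · intro h
      exact I.add_mem h h1
  have h3 : η.f (x + (((m * ni I : ℕ)) : D.O) * y) = η.f x := by
    rw [Nat.cast_mul, mul_assoc, η.per]
  show (if x + (((m * ni I : ℕ)) : D.O) * y ∈ I then η.f (x + (((m * ni I : ℕ)) : D.O) * y) else 0) =
    if x ∈ I then η.f x else 0
  rw [h3]
  simp only [h2]

open Classical in
/-- the sum over `I` mod `M` of a function of period `m` -/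
private theorem gi_count {I : Ideal D.O} (hI : Ip m I) [NeZero (m * ni I)] {θ : D.O → ℂ}
    (hθ : Pe m θ) :
    ∑ k : UNL.G (m * ni I), (if rp D k ∈ I then θ (rp D k) else 0) =
      (ni I : ℂ) * ∑ k : UNL.G m, θ (rp D k) := by
  have hA : ni I ≠ 0 := ni_ne.2 hI.1
  have hfin : Finite (D.O ⧸ I) := Nat.finite_of_card_ne_zero hA
  have hft : Fintype (D.O ⧸ I) := Fintype.ofFinite _
  have hMI : (((m * ni I : ℕ)) : D.O) ∈ I := by
    rw [Nat.cast_mul]
    exact I.mul_mem_left _ (ni_mem I)
  set g := gi_g (m := m) I (M := m * ni I) (Dvd.intro _ rfl) hMI with hg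
  have hg1 : ∀ k, (g k).1 = cls m (rp D k) := fun k => rfl
  have hg2 : ∀ k, (g k).2 = Ideal.Quotient.mk I (rp D k) := fun k => rfl
  obtain ⟨a₀, ha, y₀, hy⟩ := ip_one hI
  have hsurj : Function.Surjective g := by
    rintro ⟨k₀, q⟩
    obtain ⟨y, rfl⟩ := Ideal.Quotient.mk_surjective q
    set w : D.O := a₀ * rp D k₀ + (1 - a₀) * y with hw
    obtain ⟨z, hz⟩ := rp_cls (N := m * ni I) w
    refine ⟨cls (m * ni I) w, Prod.ext ?_ ?_⟩
    · rw [hg1]
      show _ = k₀
      have h1 : cls m (rp D (cls (m * ni I) w)) = cls m (rp D k₀) := by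
        refine cls_eq.2 ⟨y₀ * rp D k₀ - y₀ * y - (ni I : D.O) * z, ?_⟩
        have h2 : rp D (cls (m * ni I) w) = w - ((m * ni I : ℕ) : D.O) * z := by
          rw [eq_sub_iff_add_eq]
          exact hz.symm
        rw [h2, hw, hy]
        push_cast
        ring
      rw [h1, cls_rp]
    · rw [hg2]
      show _ = Ideal.Quotient.mk I y
      rw [Ideal.Quotient.eq]
      have h2 : rp D (cls (m * ni I) w) = w - ((m * ni I : ℕ) : D.O) * z := by
        rw [eq_sub_iff_add_eq]
        exact hz.symm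
      rw [h2]
      have h3 : w - ((m * ni I : ℕ) : D.O) * z - y =
          a₀ * (rp D k₀ - y) - ((m * ni I : ℕ) : D.O) * z := by
        rw [hw]
        ring
      rw [h3]
      exact I.sub_mem (I.mul_mem_right _ ha) (I.mul_mem_right _ hMI)
  have hfib : ∀ p : UNL.G m × (D.O ⧸ I),
      (Finset.univ.filter fun k => g k = p).card = ni I := by
    have hc : ∀ p : UNL.G m × (D.O ⧸ I), (Finset.univ.filter fun k => g k = p).card =
        (Finset.univ.filter fun k => g k = 0).card := by
      intro p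
      exact AddMonoidHom.card_fiber_eq_of_mem_range g (hsurj p) (hsurj 0)
    have h1 : Fintype.card (UNL.G (m * ni I)) =
        ∑ p : UNL.G m × (D.O ⧸ I), (Finset.univ.filter fun k => g k = p).card := by
      rw [← Finset.card_univ]
      exact Finset.card_eq_sum_card_fiberwise (fun _ _ => Finset.mem_univ _)
    rw [Finset.sum_congr rfl fun p _ => hc p, Finset.sum_const, Finset.card_univ, smul_eq_mul,
      Fintype.card_prod, Fintype.card_prod, Fintype.card_prod, ZMod.card, ZMod.card,
      ← Nat.card_eq_fintype_card (α := D.O ⧸ I)] at h1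
    have h2 : Nat.card (D.O ⧸ I) = ni I := rfl
    rw [h2] at h1
    have h3 : (Finset.univ.filter fun k => g k = 0).card = ni I := by
      have h4 : (m * m * ni I) * (Finset.univ.filter fun k => g k = 0).card =
          (m * m * ni I) * ni I := by
        rw [← h1]
        ring
      exact Nat.eq_of_mul_eq_mul_left
        (Nat.pos_of_ne_zero (mul_ne_zero (mul_ne_zero (NeZero.ne m) (NeZero.ne m)) hA)) h4
    intro p
    rw [hc p, h3]
  have hterm : ∀ k : UNL.G (m * ni I), (if rp D k ∈ I then θ (rp D k) else 0) =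
      if (g k).2 = 0 then θ (rp D (g k).1) else 0 := by
    intro k
    have h1 : (g k).2 = 0 ↔ rp D k ∈ I := by
      rw [hg2, Ideal.Quotient.eq_zero_iff_mem]
    have h2 : θ (rp D (g k).1) = θ (rp D k) := by
      rw [hg1]
      obtain ⟨z, hz⟩ := rp_cls (N := m) (rp D k)
      conv_rhs => rw [hz, hθ]
    rw [h2]
    simp only [h1]
  rw [Finset.sum_congr rfl fun k _ => hterm k,
    ← Finset.sum_fiberwise_of_maps_to (s := Finset.univ) (t := Finset.univ) (g := g)
      (fun _ _ => Finset.mem_univ _)]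
  have hin : ∀ p : UNL.G m × (D.O ⧸ I), ∑ k ∈ Finset.univ.filter (fun k => g k = p),
      (if (g k).2 = 0 then θ (rp D (g k).1) else 0) =
      (ni I : ℂ) * if p.2 = 0 then θ (rp D p.1) else 0 := by
    intro p
    have h1 : ∀ k ∈ Finset.univ.filter (fun k => g k = p),
        (if (g k).2 = 0 then θ (rp D (g k).1) else 0) = if p.2 = 0 then θ (rp D p.1) else 0 := by
      intro k hk
      rw [(Finset.mem_filter.1 hk).2]
    rw [Finset.sum_congr rfl h1, Finset.sum_const, hfib, nsmul_eq_mul]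
  rw [Finset.sum_congr rfl fun p _ => hin p, ← Finset.mul_sum, Fintype.sum_prod_type]
  congr 1
  refine Finset.sum_congr rfl fun k _ => ?_
  simp

open Classical in
theorem du_I (η : Hc D m) {I : Ideal D.O} (hI : Ip m I) [NeZero (m * ni I)] (x : D.O) :
    du (m * ni I) (fun x : D.O => if x ∈ I then η.f x else 0) x =
      du m η.f 1 * (if x ∈ ci I then (starRingEnd ℂ) (η.f x) else 0) := by
  have hA : ni I ≠ 0 := ni_ne.2 hI.1
  have hA' : (ni I : ℂ) ≠ 0 := Nat.cast_ne_zero.2 hA
  have hm : (m : ℂ) ≠ 0 := Nat.cast_ne_zero.2 (NeZero.ne m)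
  have hAn : NeZero (ni I) := ⟨hA⟩
  have hper : ∀ y : D.O, ∀ z : D.O, pss D ((x : ℂ) * (((y + ((m * ni I : ℕ) : D.O) * z : D.O) : ℂ) /
      ((m * ni I : ℕ) : ℂ))) = pss D ((x : ℂ) * ((y : ℂ) / ((m * ni I : ℕ) : ℂ))) := by
    intro y z
    apply gi_pss_sub
    have e : (x : ℂ) * (((y + ((m * ni I : ℕ) : D.O) * z : D.O) : ℂ) / ((m * ni I : ℕ) : ℂ)) -
        (x : ℂ) * ((y : ℂ) / ((m * ni I : ℕ) : ℂ)) = (x : ℂ) * z := by
      simp only [Subring.coe_add, Subring.coe_mul, Subring.coe_natCast]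
      push_cast
      field_simp
      ring
    rw [e]
    exact D.O.mul_mem x.2 z.2
  have hdu : du (m * ni I) (fun x : D.O => if x ∈ I then η.f x else 0) x =
      1 / ((m * ni I : ℕ) : ℂ) * ∑ k : UNL.G (m * ni I), (fun y : D.O =>
        (if y ∈ I then η.f y else 0) * pss D ((x : ℂ) * ((y : ℂ) / ((m * ni I : ℕ) : ℂ)))) (rp D k) := by
    unfold du
    congr 1
    refine Finset.sum_congr rfl fun k _ => ?_
    rw [tp_rp]
  rw [hdu]
  by_cases hx : x ∈ ci I
  · rw [if_pos hx]
    obtain ⟨a₀, ha, y₀, hy⟩ := ip_one hI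
    have hmul : ∀ v ∈ I, ∃ z : D.O, v * x = (ni I : D.O) * z := by
      intro v hv
      have h1 : v * x ∈ I * ci I := Ideal.mul_mem_mul hv hx
      rw [mul_ci] at h1
      exact Ideal.mem_span_singleton.1 h1
    obtain ⟨z, hz⟩ := hmul a₀ ha
    have hzc : (a₀ : ℂ) * x = (ni I : ℂ) * z := by
      have := congrArg (fun t : D.O => (t : ℂ)) hz
      simpa using this
    have hθ : Pe m (fun y : D.O => η.f y * pss D ((z : ℂ) * ((y : ℂ) / (m : ℂ)))) := by
      intro y w
      show η.f (y + (m : D.O) * w) * pss D ((z : ℂ) * (((y + (m : D.O) * w : D.O) : ℂ) / (m : ℂ))) =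
        η.f y * pss D ((z : ℂ) * ((y : ℂ) / (m : ℂ)))
      rw [η.per]
      congr 1
      apply gi_pss_sub
      have e : (z : ℂ) * (((y + (m : D.O) * w : D.O) : ℂ) / (m : ℂ)) -
          (z : ℂ) * ((y : ℂ) / (m : ℂ)) = (z : ℂ) * w := by
        simp only [Subring.coe_add, Subring.coe_mul, Subring.coe_natCast]
        field_simp
        ring
      rw [e]
      exact D.O.mul_mem z.2 w.2
    have hkey : ∀ y ∈ I, pss D ((x : ℂ) * ((y : ℂ) / ((m * ni I : ℕ) : ℂ))) =
        pss D ((z : ℂ) * ((y : ℂ) / (m : ℂ))) := by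
      intro y hyI
      apply gi_pss_sub
      have hv : y₀ * y ∈ I := I.mul_mem_left _ hyI
      obtain ⟨u, hu⟩ := hmul _ hv
      have huc : ((y₀ : ℂ) * y) * x = (ni I : ℂ) * u := by
        have := congrArg (fun t : D.O => (t : ℂ)) hu
        simpa using this
      have hyc : (a₀ : ℂ) = 1 + (m : ℂ) * y₀ := by
        have := congrArg (fun t : D.O => (t : ℂ)) hy
        simpa using this
      have e : (x : ℂ) * ((y : ℂ) / ((m * ni I : ℕ) : ℂ)) - (z : ℂ) * ((y : ℂ) / (m : ℂ)) =
          ((-u : D.O) : ℂ) := by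
        have h1 : (z : ℂ) = (a₀ : ℂ) * x / (ni I : ℂ) := by
          rw [hzc]
          field_simp
        have h2 : (u : ℂ) = ((y₀ : ℂ) * y) * x / (ni I : ℂ) := by
          rw [huc]
          field_simp
        rw [Subring.coe_neg, h1, h2, hyc]
        push_cast
        field_simp
        ring
      rw [e]
      exact (-u : D.O).2
    have hsum : ∑ k : UNL.G (m * ni I), (fun y : D.O =>
        (if y ∈ I then η.f y else 0) * pss D ((x : ℂ) * ((y : ℂ) / ((m * ni I : ℕ) : ℂ)))) (rp D k) =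
        (ni I : ℂ) * ∑ k : UNL.G m, η.f (rp D k) * pss D ((z : ℂ) * ((rp D k : ℂ) / (m : ℂ))) := by
      rw [← gi_count hI hθ]
      refine Finset.sum_congr rfl fun k _ => ?_
      show (if rp D k ∈ I then η.f (rp D k) else 0) *
        pss D ((x : ℂ) * ((rp D k : ℂ) / ((m * ni I : ℕ) : ℂ))) =
        if rp D k ∈ I then η.f (rp D k) * pss D ((z : ℂ) * ((rp D k : ℂ) / (m : ℂ))) else 0
      by_cases hk : rp D k ∈ I
      · rw [if_pos hk, if_pos hk, hkey _ hk]
      · rw [if_neg hk, if_neg hk, zero_mul]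
    rw [hsum]
    have hz' : 1 / (m : ℂ) * ∑ k : UNL.G m, η.f (rp D k) * pss D ((z : ℂ) * ((rp D k : ℂ) / (m : ℂ))) =
        du m η.f z := by
      unfold du
      congr 1
      refine Finset.sum_congr rfl fun k _ => ?_
      rw [tp_rp]
    have h5 : 1 / ((m * ni I : ℕ) : ℂ) * ((ni I : ℂ) * ∑ k : UNL.G m,
        η.f (rp D k) * pss D ((z : ℂ) * ((rp D k : ℂ) / (m : ℂ)))) = du m η.f z := by
      rw [← hz']
      push_cast
      field_simp
    rw [h5, η.du_mul, mul_comm]
    congr 2
    -- `η z = η x`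
    have hcA : Cp m (((ni I : ℤ)) : D.O) := by
      have h1 : Nat.Coprime (ni I) m := ((ip_iff (Nat.pos_of_ne_zero (NeZero.ne m))).1 hI).2
      have h2 : IsCoprime ((ni I : ℤ)) (m : ℤ) := Nat.isCoprime_iff_coprime.2 h1
      have h3 := h2.map (Int.castRingHom D.O)
      simpa [Cp] using h3
    have h6 : η.f (((ni I : ℤ)) : D.O) = 1 := η.int _ hcA
    have h7 : (((ni I : ℤ)) : D.O) * z = x + (m : D.O) * (y₀ * x) := by
      have : (((ni I : ℤ)) : D.O) = (ni I : D.O) := by simp
      rw [this, ← hz, hy]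
      ring
    have h8 : η.f ((((ni I : ℤ)) : D.O) * z) = η.f z := by rw [η.mul, h6, one_mul]
    rw [← h8, h7, η.per]
  · rw [if_neg hx, mul_zero]
    set φ : D.O → ℂ := fun y : D.O =>
      (if y ∈ I then η.f y else 0) * pss D ((x : ℂ) * ((y : ℂ) / ((m * ni I : ℕ) : ℂ))) with hφ
    have hφp : Pe (m * ni I) φ := by
      intro y w
      have h1 := pe_I η (I := I) y w
      show (if y + ((m * ni I : ℕ) : D.O) * w ∈ I then η.f (y + ((m * ni I : ℕ) : D.O) * w) else 0) *
        pss D ((x : ℂ) * (((y + ((m * ni I : ℕ) : D.O) * w : D.O) : ℂ) / ((m * ni I : ℕ) : ℂ))) =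
        (if y ∈ I then η.f y else 0) * pss D ((x : ℂ) * ((y : ℂ) / ((m * ni I : ℕ) : ℂ)))
      rw [hper]
      congr 1
    by_cases h0 : ∑ k : UNL.G (m * ni I), φ (rp D k) = 0
    · rw [h0, mul_zero]
    · exfalso
      apply hx
      have h1 : ∀ v ∈ I, pss D ((x : ℂ) * ((v : ℂ) / (ni I : ℂ))) = 1 := by
        intro v hv
        have h2 := gi_shift hφp ((m : D.O) * v)
        have h3 : ∀ k : UNL.G (m * ni I), φ (rp D k + (m : D.O) * v) =
            φ (rp D k) * pss D ((x : ℂ) * ((v : ℂ) / (ni I : ℂ))) := by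
          intro k
          have hmem : (rp D k + (m : D.O) * v ∈ I) ↔ (rp D k ∈ I) := by
            constructor
            · intro h
              have h4 := I.sub_mem h (I.mul_mem_left (m : D.O) hv)
              rwa [add_sub_cancel_right] at h4
            · intro h
              exact I.add_mem h (I.mul_mem_left _ hv)
          show (if rp D k + (m : D.O) * v ∈ I then η.f (rp D k + (m : D.O) * v) else 0) *
            pss D ((x : ℂ) * (((rp D k + (m : D.O) * v : D.O) : ℂ) / ((m * ni I : ℕ) : ℂ))) =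
            (if rp D k ∈ I then η.f (rp D k) else 0) *
            pss D ((x : ℂ) * ((rp D k : ℂ) / ((m * ni I : ℕ) : ℂ))) *
            pss D ((x : ℂ) * ((v : ℂ) / (ni I : ℂ)))
          rw [η.per, mul_assoc, ← pss_add]
          have e : (x : ℂ) * (((rp D k + (m : D.O) * v : D.O) : ℂ) / ((m * ni I : ℕ) : ℂ)) =
              (x : ℂ) * ((rp D k : ℂ) / ((m * ni I : ℕ) : ℂ)) + (x : ℂ) * ((v : ℂ) / (ni I : ℂ)) := by
            simp only [Subring.coe_add, Subring.coe_mul, Subring.coe_natCast]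
            push_cast
            field_simp
          rw [e]
          simp only [hmem]
        rw [Finset.sum_congr rfl fun k _ => h3 k, ← Finset.sum_mul] at h2
        exact mul_left_cancel₀ h0 (by rw [h2, mul_one])
      have h2 : ∀ v ∈ I, ∃ y : D.O, x * v = (ni I : D.O) * y := by
        intro v hv
        have h3 : ∀ k : UNL.G (ni I), ps (toU D.a) (((x * v : D.O) : ℂ) * UNL.tp (toU D.a) k) = 1 := by
          intro k
          have h4 := h1 (v * rp D k) (I.mul_mem_right _ hv)
          rw [tp_rp]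
          have e : ((x * v : D.O) : ℂ) * ((rp D k : ℂ) / (ni I : ℂ)) =
              (x : ℂ) * (((v * rp D k : D.O) : ℂ) / (ni I : ℂ)) := by
            simp only [Subring.coe_mul]
            ring
          rw [e]
          exact h4
        obtain ⟨y, hy, hxy⟩ := ps_perfect (x * v : D.O).2 h3
        refine ⟨⟨y, hy⟩, Subtype.ext ?_⟩
        rw [hxy]
        simp
      have h3 : Ideal.span {x} * I ≤ ci I * I := by
        rw [mul_comm (ci I) I, mul_ci, Ideal.span_singleton_mul_le_iff]
        intro v hv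
        obtain ⟨y, hy⟩ := h2 v hv
        rw [hy]
        exact Ideal.mul_mem_right _ _ (Ideal.mem_span_singleton_self _)
      have h4 : Ideal.span {x} ≤ ci I := by
        have h5 := Ideal.dvd_iff_le.2 h3
        exact Ideal.dvd_iff_le.1 ((mul_dvd_mul_iff_right hI.1).1 h5)
      exact h4 (Ideal.mem_span_singleton_self x)

end main

end

end RNG
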