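import Pool.Agent.RNG.Th2

/-!
# RNG.Lg: L-functions of periodic functions, weight two

Adapted from `RNE/Lf` (there `a` is a character). `a : O → ℂ` of period `N`, `b = du N a` (of period `N`: `du_pe`), `y = Im ω`.
`th2 N a (1/t) = t³ th2c N b t` (`th2_fe`) and `th2c N b = th2 N b'` with `b'(x) = b(x̄)`, both decrease exponentially
(`th2_top`). The strong pair with `f = th2 N a`, `g = th2 N b'`, `k = 3`, `ε = 1`:
`Λ(s) = ∫ th2 N a t t^{s-1} dt = Γ(s) (π / (N y))^(-s) L(s)`, `Λ(3 - s) = Λ_g(s)`,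
`Λ_g(4) = Γ(4) (π / (N y))⁻⁴ Σ b(x) x̄² nn(x)⁻⁴`. So `L(s) = (π / (N y))^s Γ(s)⁻¹ Λ(s)` is entire, `L(-1) = 0` and
`L'(-1) = (π / (N y))⁻¹ (1/Γ)'(-1) Λ(-1) = -(N y / π) Λ_g(4) = -(N y / π) 6 (N y / π)⁴ Σ b(x) x̄² nn(x)⁻⁴`.
-/

open RNK Set Filter Topology Asymptotics

namespace RNG

noncomputable section

variable {D : RNP.OD} {N : ℕ} [NeZero N]

private def lg_cj (D : RNP.OD) : D.O ≃ D.O where
  toFun x := cj x
  invFun x := cj x
  left_inv _ := Subtype.ext (Complex.conj_conj _)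
  right_inv _ := Subtype.ext (Complex.conj_conj _)

private theorem lg_nn_cj (x : D.O) : nn D (cj x) = nn D x := by
  have h1 := nn_real D x
  have h2 := nn_real D (cj x)
  have h3 : ‖((cj x : D.O) : ℂ)‖ = ‖(x : ℂ)‖ := Complex.norm_conj (x : ℂ)
  rw [h3, ← h1] at h2
  exact_mod_cast h2

private theorem lg_cj_add (x y : D.O) : cj (x + (N : D.O) * y) = cj x + (N : D.O) * cj y := by
  refine Subtype.ext ?_
  show (starRingEnd ℂ) ((x + (N : D.O) * y : D.O) : ℂ) = ((cj x + (N : D.O) * cj y : D.O) : ℂ)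
  have h1 : ((cj x : D.O) : ℂ) = (starRingEnd ℂ) (x : ℂ) := rfl
  have h2 : ((cj y : D.O) : ℂ) = (starRingEnd ℂ) (y : ℂ) := rfl
  push_cast
  rw [h1, h2, map_add, map_mul, Complex.conj_natCast]

/-- the dual function -/
private def lg_b (N : ℕ) [NeZero N] (a : D.O → ℂ) (x : D.O) : ℂ := du N a (cj x)

private theorem lg_b_pe (a : D.O → ℂ) : Pe N (lg_b N a) := by
  intro x y
  unfold lg_b
  rw [lg_cj_add]
  exact du_pe a _ _

private theorem lg_th2c (a : D.O → ℂ) (t : ℝ) :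
    th2c N (du N a) t = th2 N (lg_b N a) t := by
  unfold th2c th2
  rw [← (lg_cj D).tsum_eq]
  refine tsum_congr fun x => ?_
  show du N a (cj x) * (starRingEnd ℂ) ((cj x : D.O) : ℂ) ^ 2 *
    ((Real.exp (-(Real.pi * t / (N * (UNI.om D.a).im)) * nn D (cj x)) : ℝ) : ℂ) = _
  have h1 : (starRingEnd ℂ) ((cj x : D.O) : ℂ) = (x : ℂ) := Complex.conj_conj (x : ℂ)
  rw [lg_nn_cj, h1]
  rfl

private theorem lg_bigO {a : D.O → ℂ} (ha : Pe N a) (r : ℝ) :
    (fun t : ℝ => th2 N a t) =O[atTop] (fun t : ℝ => t ^ r) := by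
  obtain ⟨C, c, hc, h⟩ := th2_top ha (N := N) (D := D)
  have h1 : (fun t : ℝ => th2 N a t) =O[atTop] (fun t : ℝ => Real.exp (-c * t)) := by
    refine Asymptotics.IsBigO.of_bound C ?_
    filter_upwards [eventually_ge_atTop 1] with t ht
    rw [Real.norm_eq_abs, abs_of_pos (Real.exp_pos _)]
    exact h t ht
  exact h1.trans (isLittleO_exp_neg_mul_rpow_atTop hc r).isBigO

/-- the pair of functions with functional equation -/
private def lgP {a : D.O → ℂ} (ha : Pe N a) : WeakFEPair ℂ where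
  f := fun t => th2 N a t
  g := fun t => th2 N (lg_b N a) t
  k := 3
  ε := 1
  f₀ := 0
  g₀ := 0
  hf_int := (th2_cont ha).locallyIntegrableOn measurableSet_Ioi
  hg_int := (th2_cont (lg_b_pe a)).locallyIntegrableOn measurableSet_Ioi
  hk := by norm_num
  hε := one_ne_zero
  h_feq := fun t ht => by
    have ht' : 0 < t := ht
    rw [th2_fe ha ht', lg_th2c, smul_eq_mul, one_mul]
    congr 1
    rw [← Complex.ofReal_pow]
    congr 1
    rw [← Real.rpow_natCast]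
    norm_num
  hf_top := fun r => by simpa using lg_bigO ha r
  hg_top := fun r => by simpa using lg_bigO (lg_b_pe a) r

private theorem lgP_strong {a : D.O → ℂ} (ha : Pe N a) : IsStrongFEPair (lgP ha) := ⟨rfl, rfl⟩

private theorem lg_Lam_diff {a : D.O → ℂ} (ha : Pe N a) : Differentiable ℂ (lgP ha).Λ :=
  (lgP_strong ha).differentiable_Λ

private theorem lg_Lam_fe {a : D.O → ℂ} (ha : Pe N a) (s : ℂ) :
    (lgP ha).Λ (3 - s) = mellin (th2 N (lg_b N a)) s := by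
  have h := (lgP ha).functional_equation s
  have e1 : (lgP ha).symm.Λ = mellin (lgP ha).symm.f := (lgP_strong ha).symm.Λ_eq
  rw [e1] at h
  have h3 : (lgP ha).ε = 1 := rfl
  have h4 : (((lgP ha).k : ℝ) : ℂ) = 3 := by
    have : (lgP ha).k = 3 := rfl
    rw [this]; norm_num
  rw [h3, h4, one_smul] at h
  exact h

private theorem lg_summable {a : D.O → ℂ} (ha : Pe N a) {v : ℝ} (hv : 0 < v) {s : ℂ}
    (hs : 2 < s.re) :
    Summable fun x : D.O => ‖a x * (x : ℂ) ^ 2‖ / (v * (nn D x : ℝ)) ^ s.re := by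
  obtain ⟨B, hB⟩ := Pe_bdd ha
  have hB0 : 0 ≤ B := (norm_nonneg _).trans (hB 0)
  have h0 : Summable (fun x : D.O => (1 : ℂ) * ((nn D x : ℕ) : ℂ) ^ (-((s.re - 1 : ℝ) : ℂ))) :=
    Ds_summable (D := D) (a := fun _ => (1 : ℂ)) ⟨1, fun _ => by simp⟩
      (s := ((s.re - 1 : ℝ) : ℂ)) (by rw [Complex.ofReal_re]; linarith)
  refine Summable.of_nonneg_of_le (fun x => by positivity) (fun x => ?_)
    (h0.norm.mul_left (B * (v ^ s.re)⁻¹))
  rw [one_mul, norm_mul, norm_pow, ← nn_real D x]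
  have hb := hB x
  rcases Nat.eq_zero_or_pos (nn D x) with h | h
  · rw [h, Nat.cast_zero, mul_zero, zero_div]
    positivity
  · have hn : (0 : ℝ) < (nn D x : ℝ) := Nat.cast_pos.2 h
    rw [Complex.norm_natCast_cpow_of_pos h, Complex.neg_re, Complex.ofReal_re,
      show -(s.re - 1) = 1 - s.re by ring, Real.rpow_sub hn, Real.rpow_one,
      Real.mul_rpow hv.le hn.le]
    have h1 : ‖a x‖ * (nn D x : ℝ) / (v ^ s.re * (nn D x : ℝ) ^ s.re) ≤
        B * (nn D x : ℝ) / (v ^ s.re * (nn D x : ℝ) ^ s.re) := by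
      gcongr
    refine h1.trans (le_of_eq ?_)
    have h2 : (0 : ℝ) < v ^ s.re := Real.rpow_pos_of_pos hv _
    have h3 : (0 : ℝ) < (nn D x : ℝ) ^ s.re := Real.rpow_pos_of_pos hn _
    field_simp

private theorem lg_x0 {x : D.O} (h : nn D x = 0) : (x : ℂ) = 0 := by
  have h1 := nn_real D x
  rw [h, Nat.cast_zero] at h1
  have h2 : ‖(x : ℂ)‖ = 0 := by
    have := h1.symm
    exact pow_eq_zero_iff (two_ne_zero) |>.mp this
  exact norm_eq_zero.1 h2

private theorem lg_v (D : RNP.OD) (N : ℕ) [NeZero N] : 0 < Real.pi / (N * (UNI.om D.a).im) := by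
  have hy := om_im_pos D
  have hm : (0 : ℝ) < N := Nat.cast_pos.2 (Nat.pos_of_ne_zero (NeZero.ne N))
  have hp := Real.pi_pos
  positivity

private theorem lg_hasSum {a : D.O → ℂ} (ha : Pe N a) {s : ℂ} (hs : 2 < s.re) :
    HasSum (fun x : D.O => Complex.Gamma s * (a x * (x : ℂ) ^ 2) /
      ((Real.pi / (N * (UNI.om D.a).im) * (nn D x : ℝ) : ℝ) : ℂ) ^ s)
      (mellin (th2 N a) s) := by
  have hv := lg_v D N
  haveI : Countable D.O := (elE D).symm.injective.countable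
  refine hasSum_mellin (a := fun x : D.O => a x * (x : ℂ) ^ 2)
    (p := fun x => Real.pi / (N * (UNI.om D.a).im) * (nn D x : ℝ))
    (F := th2 N a) (s := s) ?_ (by linarith) ?_ ?_
  · intro x
    rcases Nat.eq_zero_or_pos (nn D x) with h | h
    · left
      simp [lg_x0 h]
    · right
      have hn : (0 : ℝ) < (nn D x : ℝ) := Nat.cast_pos.2 h
      positivity
  · intro t ht
    have ht' : 0 < t := ht
    have hc : 0 < Real.pi * t / (N * (UNI.om D.a).im) := by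
      have := mul_pos hv ht'
      rwa [show Real.pi / (N * (UNI.om D.a).im) * t = Real.pi * t / (N * (UNI.om D.a).im) by
        ring] at this
    have h1 := (th2_summable (D := D) (a := a) (Pe_bdd ha)
      (c := Real.pi * t / (N * (UNI.om D.a).im)) hc).hasSum
    refine LatL.hsC h1 fun x => ?_
    congr 3
    ring
  · exact lg_summable ha hv hs

private theorem lg_term {v : ℝ} (hv : 0 < v) {s : ℂ} (hs : 0 < s.re) (c : ℂ) (n : ℕ) :
    Complex.Gamma s * c / ((v * (n : ℝ) : ℝ) : ℂ) ^ s * (v : ℂ) ^ s * (Complex.Gamma s)⁻¹ =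
      c / ((n : ℕ) : ℂ) ^ s := by
  have h0 : (v : ℂ) ≠ 0 := by
    rw [Complex.ofReal_ne_zero]; exact hv.ne'
  have hG : Complex.Gamma s ≠ 0 := Complex.Gamma_ne_zero_of_re_pos hs
  have h1 : (v : ℂ) ^ s ≠ 0 := by
    rw [Complex.cpow_def_of_ne_zero h0]; exact Complex.exp_ne_zero _
  have e : ((v * (n : ℝ) : ℝ) : ℂ) ^ s = (v : ℂ) ^ s * ((n : ℕ) : ℂ) ^ s := by
    rw [← Complex.ofReal_natCast, ← Complex.mul_cpow_ofReal_nonneg hv.le (Nat.cast_nonneg _),
      ← Complex.ofReal_mul]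
  rw [e]
  by_cases h2 : ((n : ℕ) : ℂ) ^ s = 0
  · rw [h2]; simp
  · field_simp

private theorem lg_hasSum_L {a : D.O → ℂ} (ha : Pe N a) {s : ℂ} (hs : 2 < s.re) :
    HasSum (fun x : D.O => a x * (x : ℂ) ^ 2 / ((nn D x : ℕ) : ℂ) ^ s)
      (mellin (th2 N a) s * ((Real.pi / (N * (UNI.om D.a).im) : ℝ) : ℂ) ^ s *
        (Complex.Gamma s)⁻¹) := by
  have h := ((lg_hasSum ha hs).mul_right
    (((Real.pi / (N * (UNI.om D.a).im) : ℝ) : ℂ) ^ s)).mul_right (Complex.Gamma s)⁻¹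
  exact LatL.hsC h fun x => (lg_term (lg_v D N) (by linarith) _ _).symm

/-- the L-function -/
private def lgL {a : D.O → ℂ} (ha : Pe N a) (s : ℂ) : ℂ :=
  (lgP ha).Λ s * ((Real.pi / (N * (UNI.om D.a).im) : ℝ) : ℂ) ^ s * (Complex.Gamma s)⁻¹

private theorem lgL_diff {a : D.O → ℂ} (ha : Pe N a) : Differentiable ℂ (lgL ha) := by
  have hv := lg_v D N
  have h0 : ((Real.pi / (N * (UNI.om D.a).im) : ℝ) : ℂ) ≠ 0 := by
    rw [Complex.ofReal_ne_zero]; exact hv.ne'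
  refine ((lg_Lam_diff ha).mul ?_).mul Complex.differentiable_one_div_Gamma
  intro s
  exact (differentiableAt_id.const_cpow (Or.inl h0))

private theorem lgL_hasSum {a : D.O → ℂ} (ha : Pe N a) {s : ℂ} (hs : 2 < s.re) :
    HasSum (fun x : D.O => a x * (x : ℂ) ^ 2 / ((nn D x : ℕ) : ℂ) ^ s) (lgL ha s) := by
  have e2 : (lgP ha).Λ = mellin (lgP ha).f := (lgP_strong ha).Λ_eq
  have h := lg_hasSum_L ha hs
  unfold lgL
  rw [e2]
  exact h

private theorem lg_G1 : Complex.Gamma (-1 : ℂ) = 0 := by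
  have := Complex.Gamma_neg_nat_eq_zero 1
  simpa using this

private theorem lg_G4 : Complex.Gamma (4 : ℂ) = 6 := by
  have := Complex.Gamma_nat_eq_factorial 3
  have h3 : ((3 : ℕ) : ℂ) + 1 = 4 := by norm_num
  rw [h3] at this
  rw [this]
  norm_num [Nat.factorial]

private theorem lgL_zero {a : D.O → ℂ} (ha : Pe N a) : lgL ha (-1) = 0 := by
  unfold lgL
  rw [lg_G1, inv_zero, mul_zero]

private theorem lgL_deriv {a : D.O → ℂ} (ha : Pe N a) :
    HasDerivAt (lgL ha) (-(6 * ((N * (UNI.om D.a).im / Real.pi) ^ 5 : ℝ)) *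
      (mellin (th2 N (lg_b N a)) 4 * ((Real.pi / (N * (UNI.om D.a).im) : ℝ) : ℂ) ^ (4 : ℂ) *
        (Complex.Gamma 4)⁻¹)) (-1) := by
  have hv := lg_v D N
  have h0 : ((Real.pi / (N * (UNI.om D.a).im) : ℝ) : ℂ) ≠ 0 := by
    rw [Complex.ofReal_ne_zero]; exact hv.ne'
  have hg : DifferentiableAt ℂ (fun s : ℂ => (lgP ha).Λ s *
      ((Real.pi / (N * (UNI.om D.a).im) : ℝ) : ℂ) ^ s) (-1) := by
    refine (lg_Lam_diff ha (-1)).mul ?_
    exact (differentiableAt_id.const_cpow (Or.inl h0))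
  have h1 := hg.hasDerivAt.mul LatL.hasDerivAt_invGamma
  refine (h1 : HasDerivAt (lgL ha) _ (-1)).congr_deriv ?_
  have hfe : (lgP ha).Λ (-1) = mellin (th2 N (lg_b N a)) 4 := by
    have := lg_Lam_fe ha 4
    rw [← this]; norm_num
  rw [lg_G1, inv_zero, mul_zero, zero_add, hfe, lg_G4]
  have e1 : ((Real.pi / (N * (UNI.om D.a).im) : ℝ) : ℂ) ^ (-1 : ℂ) =
      (((N * (UNI.om D.a).im / Real.pi : ℝ)) : ℂ) := by
    rw [Complex.cpow_neg_one, ← Complex.ofReal_inv, inv_div]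
  have e4 : ((Real.pi / (N * (UNI.om D.a).im) : ℝ) : ℂ) ^ (4 : ℂ) =
      ((((N * (UNI.om D.a).im / Real.pi) ^ 4)⁻¹ : ℝ) : ℂ) := by
    rw [show (4 : ℂ) = ((4 : ℕ) : ℂ) by norm_num, Complex.cpow_natCast, ← Complex.ofReal_pow]
    congr 1
    rw [← inv_pow, inv_div]
  rw [e1, e4]
  have hx : 0 < N * (UNI.om D.a).im / Real.pi := by
    have := inv_pos.2 hv
    rwa [inv_div] at this
  generalize N * (UNI.om D.a).im / Real.pi = v at *
  have hx' : (v : ℂ) ≠ 0 := by rw [Complex.ofReal_ne_zero]; exact hx.ne'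
  push_cast
  field_simp

theorem La_gen {a : D.O → ℂ} (ha : Pe N a) : ∃ L : ℂ → ℂ, Differentiable ℂ L ∧
    (∀ s : ℂ, 2 < s.re → HasSum (fun x : D.O => a x * (x : ℂ) ^ 2 / ((nn D x : ℕ) : ℂ) ^ s)
      (L s)) ∧ L (-1) = 0 ∧
    deriv L (-1) = -(6 * ((N * (UNI.om D.a).im / Real.pi) ^ 5 : ℝ)) *
      ∑' x : D.O, du N a x * (starRingEnd ℂ) (x : ℂ) ^ 2 / ((nn D x : ℕ) : ℂ) ^ 4 := by
  refine ⟨lgL ha, lgL_diff ha, fun s hs => lgL_hasSum ha hs, lgL_zero ha, ?_⟩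
  rw [(lgL_deriv ha).deriv]
  congr 1
  have h := (lg_hasSum_L (lg_b_pe (N := N) a) (s := 4) (by norm_num)).tsum_eq
  rw [← h, ← (lg_cj D).tsum_eq (fun x : D.O => du N a x * (starRingEnd ℂ) (x : ℂ) ^ 2 /
    ((nn D x : ℕ) : ℂ) ^ 4)]
  refine tsum_congr fun x => ?_
  show _ = du N a (cj x) * (starRingEnd ℂ) ((cj x : D.O) : ℂ) ^ 2 / ((nn D (cj x) : ℕ) : ℂ) ^ 4
  have h1 : (starRingEnd ℂ) ((cj x : D.O) : ℂ) = (x : ℂ) := Complex.conj_conj (x : ℂ)
  rw [lg_nn_cj, h1, show (4 : ℂ) = ((4 : ℕ) : ℂ) by norm_num, Complex.cpow_natCast]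
  rfl

end

end RNG
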