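import Pool.Agent.RNG.Gi
import Pool.Agent.RNG.Lg
import Pool.Agent.RNG.Et

/-!
# RNG.Lp: the L-function of a Hecke character

Let `S : Rp D m` be representatives (`rp_ex`), `η = ψ.hc`, `A_I = ni I`, `a_I(x) = η(x) [x ∈ I]` (period `m A_I`, `pe_I`) and `L_I` the
function of `La_gen`. `L(s) = (1/wn) Σ_I ψ(I)⁻¹ A_I^s L_I(s)`: for `x ∈ I`, `I * b = (x)`: `ψ(b) = ψ(I)⁻¹ η(x) x²` (`psi_span`, `mul`;
both sides are `0` if `x` is not prime to `m`), `ni b = nn x / A_I`; `class_sum` with `G(b) = ψ(b) / ni(b)^s` (`psi_summable`; `ni ⊥ = 0`, `ψ ⊥ = 0`).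
`L_I(-1) = 0`, so `L'(-1) = (1/wn) Σ_I ψ(I)⁻¹ A_I⁻¹ L_I'(-1)`. By `du_I`, with `τ = du m η 1`, `y = Im ω`:
`L_I'(-1) = -6 (m A_I y / π)⁵ τ Σ_{x ∈ ci I} conj(η(x)) x̄² nn(x)⁻⁴ = -6 (m A_I y / π)⁵ τ Σ_{x ∈ I} η(x) x² nn(x)⁻⁴`
(substitute `x ↦ x̄`, `Hc.cjf`: `conj η(x̄) = η(x)`). So `L'(-1) = -6 τ (m y / π)⁵ (1/wn) Σ_I ψ(I)⁻¹ A_I⁴ Σ_{x ∈ I} η(x) x² nn(x)⁻⁴ =
-6 τ (m y / π)⁵ Eps ψ` (`class_sum` with `G(b) = ψ(b) / ni(b)⁴`).
-/

open RNK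

namespace RNG

noncomputable section

variable {D : RNP.OD} [IsDedekindDomain D.O] {m : ℕ} [NeZero m]

open Classical in
/-- `η(x) [x ∈ I]` -/
private def lp_a (ψ : Hk D m) (I : Ideal D.O) (x : D.O) : ℂ := if x ∈ I then ψ.hc.f x else 0

omit [IsDedekindDomain D.O] [NeZero m] in
private theorem lp_mem {I b : Ideal D.O} {x : D.O} (hb : I * b = Ideal.span {x}) : x ∈ I := by
  have h1 : x ∈ (Ideal.span {x} : Ideal D.O) := Ideal.mem_span_singleton_self x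
  rw [← hb] at h1
  exact Submodule.mul_induction_on h1 (fun u hu v hv => I.mul_mem_right v hu)
    (fun u v hu hv => I.add_mem hu hv)

/-- `class_sum` for `ψ(b) / h(ni b)`, `h` multiplicative -/
private theorem lp_cs (ψ : Hk D m) (S : Rp D m) {h : ℕ → ℂ} (hm : ∀ a b, h (a * b) = h a * h b)
    (hn : ∀ a, a ≠ 0 → h a ≠ 0) (hs : Summable fun b : Ideal D.O => ψ.f b / h (ni b)) :
    ∑ I ∈ S.s, ∑' x : D.O, (ψ.f I)⁻¹ * h (ni I) * (lp_a ψ I x * (x : ℂ) ^ 2 / h (nn D x)) =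
      wn D * ∑' b : Ideal D.O, ψ.f b / h (ni b) := by
  refine (class_sum S hs (by rw [psi_bot, zero_div]) (g := fun I x =>
    (ψ.f I)⁻¹ * h (ni I) * (lp_a ψ I x * (x : ℂ) ^ 2 / h (nn D x))) ?_ ?_).2
  · rintro I hI x (hx | hx)
    · rw [hx, ZeroMemClass.coe_zero, zero_pow two_ne_zero, mul_zero, zero_div, mul_zero]
    · rw [lp_a, if_neg hx, zero_mul, zero_div, mul_zero]
  · intro I hI x b hx hb
    have hIp := S.cp I hI
    have hxI : x ∈ I := lp_mem hb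
    have h1 : ψ.f I ≠ 0 := (ψ.ne I).2 hIp
    have h2 : ψ.f I * ψ.f b = ψ.hc.f x * (x : ℂ) ^ 2 := by
      rw [← ψ.mul, hb, psi_span ψ hx]
    have h3 : nn D x = ni I * ni b := by
      rw [← ni_span, ← hb, ni_mul]
    have h4 : h (ni I) ≠ 0 := hn _ (ni_ne.2 hIp.1)
    have h5 : h (ni b) ≠ 0 := by
      refine hn _ fun h0 => ?_
      rw [h0, mul_zero] at h3
      exact hx (nn_eq_zero.1 h3)
    show (ψ.f I)⁻¹ * h (ni I) * (lp_a ψ I x * (x : ℂ) ^ 2 / h (nn D x)) = ψ.f b / h (ni b)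
    rw [lp_a, if_pos hxI, ← h2, h3, hm]
    field_simp

private def lp_cj (D : RNP.OD) : D.O ≃ D.O where
  toFun x := cj x
  invFun x := cj x
  left_inv _ := Subtype.ext (Complex.conj_conj _)
  right_inv _ := Subtype.ext (Complex.conj_conj _)

private theorem lp_du (ψ : Hk D m) {I : Ideal D.O} (hI : Ip m I) [NeZero (m * ni I)] :
    ∑' x : D.O, du (m * ni I) (lp_a ψ I) x * (starRingEnd ℂ) (x : ℂ) ^ 2 / ((nn D x : ℕ) : ℂ) ^ 4 =
      du m ψ.hc.f 1 * ∑' x : D.O, (lp_a ψ I x * (x : ℂ) ^ 2 / ((nn D x : ℕ) : ℂ) ^ 4) := by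
  rw [← (lp_cj D).tsum_eq, ← tsum_mul_left]
  refine tsum_congr fun x => ?_
  show du (m * ni I) (lp_a ψ I) (cj x) * (starRingEnd ℂ) ((cj x : D.O) : ℂ) ^ 2 /
    ((nn D (cj x) : ℕ) : ℂ) ^ 4 = _
  have h1 : (starRingEnd ℂ) ((cj x : D.O) : ℂ) = (x : ℂ) := Complex.conj_conj (x : ℂ)
  have h2 : du (m * ni I) (lp_a ψ I) (cj x) = du m ψ.hc.f 1 * lp_a ψ I x := by
    refine (du_I ψ.hc hI (cj x)).trans ?_
    have h3 : cj x ∈ ci I ↔ x ∈ I := by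
      show cj (cj x) ∈ I ↔ x ∈ I
      rw [cj_cj]
    rw [lp_a, ψ.hc.cjf, Complex.conj_conj]
    congr 1
    by_cases hx : x ∈ I
    · rw [if_pos hx, if_pos (h3.2 hx)]
    · rw [if_neg hx, if_neg (fun h => hx (h3.1 h))]
  rw [h1, h2, nn_cj]
  ring

theorem Lpsi (ψ : Hk D m) : ∃ L : ℂ → ℂ, Differentiable ℂ L ∧
    (∀ s : ℂ, 2 < s.re → HasSum (fun I : Ideal D.O => ψ.f I / ((ni I : ℕ) : ℂ) ^ s) (L s)) ∧
    deriv L (-1) = -(6 * du m ψ.hc.f 1 * ((m * (UNI.om D.a).im / Real.pi) ^ 5 : ℝ)) * Eps ψ := by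
  obtain ⟨S⟩ := rp_ex (D := D) (M := m) (Nat.pos_of_ne_zero (NeZero.ne m))
  have hw : (wn D : ℂ) ≠ 0 := Nat.cast_ne_zero.2 (wn_pos (D := D)).ne'
  have key : ∀ I : Ideal D.O, ∃ L : ℂ → ℂ, Ip m I → Differentiable ℂ L ∧
      (∀ s : ℂ, 2 < s.re → HasSum (fun x : D.O => lp_a ψ I x * (x : ℂ) ^ 2 / ((nn D x : ℕ) : ℂ) ^ s)
        (L s)) ∧ L (-1) = 0 ∧
      deriv L (-1) = -(6 * (((m : ℝ) * (ni I : ℝ) * (UNI.om D.a).im / Real.pi) ^ 5 : ℝ)) *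
        (du m ψ.hc.f 1 * ∑' x : D.O, (lp_a ψ I x * (x : ℂ) ^ 2 / ((nn D x : ℕ) : ℂ) ^ 4)) := by
    intro I
    by_cases hI : Ip m I
    · have hz : NeZero (m * ni I) := ⟨Nat.mul_ne_zero (NeZero.ne m) (ni_ne.2 hI.1)⟩
      obtain ⟨L, h1, h2, h3, h4⟩ := La_gen (D := D) (N := m * ni I) (a := lp_a ψ I)
        (pe_I ψ.hc (I := I))
      refine ⟨L, fun _ => ⟨h1, h2, h3, ?_⟩⟩
      rw [h4, lp_du ψ hI]
      push_cast
      ring
    · exact ⟨0, fun h => absurd h hI⟩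
  choose L hL using key
  have hc : ∀ I ∈ S.s, ((ni I : ℕ) : ℂ) ≠ 0 := fun I hI =>
    Nat.cast_ne_zero.2 (ni_ne.2 (S.cp I hI).1)
  refine ⟨fun s => 1 / (wn D : ℂ) * ∑ I ∈ S.s, (ψ.f I)⁻¹ * ((ni I : ℕ) : ℂ) ^ s * L I s, ?_, ?_, ?_⟩
  · refine (Differentiable.fun_sum fun I hI => ?_).const_mul _
    have h1 : Differentiable ℂ (fun s : ℂ => ((ni I : ℕ) : ℂ) ^ s) :=
      differentiable_id.const_cpow (Or.inl (hc I hI))
    exact (h1.const_mul _).mul (hL I (S.cp I hI)).1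
  · intro s hs
    have hsum : Summable fun b : Ideal D.O => ψ.f b / ((ni b : ℕ) : ℂ) ^ s := by
      refine Summable.of_norm_bounded (psi_summable ψ hs) fun b => ?_
      by_cases hb : ni b = 0
      · have : b = ⊥ := by
          by_contra h
          exact ni_ne.2 h hb
        rw [this, psi_bot]
        simp
      · rw [norm_div, Complex.norm_natCast_cpow_of_pos (Nat.pos_of_ne_zero hb),
          Real.rpow_neg (Nat.cast_nonneg _), div_eq_mul_inv]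
    have h1 := lp_cs ψ S (h := fun n => ((n : ℕ) : ℂ) ^ s)
      (fun a b => by rw [Nat.cast_mul, Complex.natCast_mul_natCast_cpow])
      (fun a ha => by
        rw [Ne, Complex.cpow_eq_zero_iff]
        exact fun h => ha (Nat.cast_eq_zero.1 h.1)) hsum
    have h2 : ∑ I ∈ S.s, (ψ.f I)⁻¹ * ((ni I : ℕ) : ℂ) ^ s * L I s =
        wn D * ∑' b : Ideal D.O, ψ.f b / ((ni b : ℕ) : ℂ) ^ s := by
      rw [← h1]
      refine Finset.sum_congr rfl fun I hI => ?_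
      rw [← ((hL I (S.cp I hI)).2.1 s hs).tsum_eq, ← tsum_mul_left]
    show HasSum _ (1 / (wn D : ℂ) * ∑ I ∈ S.s, (ψ.f I)⁻¹ * ((ni I : ℕ) : ℂ) ^ s * L I s)
    rw [h2, ← mul_assoc, one_div, inv_mul_cancel₀ hw, one_mul]
    exact hsum.hasSum
  · have h1 := lp_cs ψ S (h := fun n => ((n : ℕ) : ℂ) ^ 4)
      (fun a b => by rw [Nat.cast_mul, mul_pow])
      (fun a ha => pow_ne_zero _ (Nat.cast_ne_zero.2 ha)) (Eps_summable ψ)
    have h2 : ∀ I ∈ S.s, HasDerivAt (fun s => (ψ.f I)⁻¹ * ((ni I : ℕ) : ℂ) ^ s * L I s)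
        ((ψ.f I)⁻¹ * ((ni I : ℕ) : ℂ)⁻¹ * deriv (L I) (-1)) (-1) := by
      intro I hI
      have h3 : Differentiable ℂ (fun s : ℂ => (ψ.f I)⁻¹ * ((ni I : ℕ) : ℂ) ^ s) :=
        (differentiable_id.const_cpow (Or.inl (hc I hI))).const_mul _
      have h4 := (h3 (-1)).hasDerivAt.mul ((hL I (S.cp I hI)).1 (-1)).hasDerivAt
      rw [(hL I (S.cp I hI)).2.2.1, mul_zero, zero_add] at h4
      have h5 : ((ni I : ℕ) : ℂ) ^ (-1 : ℂ) = ((ni I : ℕ) : ℂ)⁻¹ := Complex.cpow_neg_one _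
      rw [h5] at h4
      exact h4
    have h3 := (HasDerivAt.fun_sum h2).const_mul (1 / (wn D : ℂ))
    rw [h3.deriv]
    have h4 : ∑ I ∈ S.s, (ψ.f I)⁻¹ * ((ni I : ℕ) : ℂ)⁻¹ * deriv (L I) (-1) =
        -(6 * du m ψ.hc.f 1 * ((m * (UNI.om D.a).im / Real.pi) ^ 5 : ℝ)) *
          (wn D * ∑' b : Ideal D.O, ψ.f b / ((ni b : ℕ) : ℂ) ^ 4) := by
      rw [← h1, Finset.mul_sum]
      refine Finset.sum_congr rfl fun I hI => ?_
      rw [(hL I (S.cp I hI)).2.2.2, tsum_mul_left]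
      have h5 := hc I hI
      push_cast
      field_simp
    rw [h4]
    have h6 : Eps ψ = ∑' b : Ideal D.O, ψ.f b / ((ni b : ℕ) : ℂ) ^ 4 := rfl
    rw [h6]
    field_simp

end

end RNG
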