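import Pool.Agent.RNG.Ftg
import Pool.Agent.RN2.Defs
import Pool.Agent.RNG.Ni

/-!
# RNG.Upg: raising the level of a weight 

`N ∣ M`. `k ∈ G M` with `N • k = 0`: the coordinates of `k` are `(M / N) t`, `(M / N) t'`, `0 ≤ t, t' < N`, and `dn k = (t, t')`; `tp k = tp (dn k)` exactly. `dn` is an additive bijection from the
`N`-torsion of `G M` to `G N` which commutes with `ac x`, `UNL.sm b d`. `up V` is `V (dn k) (dn l)` on the `N`-torsion and `0` elsewhere, `upc` the same for functions of one variable.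
* `pw_up`: both sides are sums over representatives of the classes prime to `M` resp. `N`; reduction mod `N` maps `(O/M)ˣ` onto `(O/N)ˣ` (`lift_cp`) with fibres of constant size.
-/

open RNK

namespace RNG

noncomputable section

variable {D : RNP.OD} {N M : ℕ} [NeZero N] [NeZero M]

open Classical in
/-- a function of level `N` as a function of level `M` -/
def upc {N M : ℕ} (A : UNL.G N → ℂ) (k : UNL.G M) : ℂ :=
  if N • k = 0 then A (dn k) else 0

/-! ### the embedding of `G N` into `G M` -/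

/-- multiplication by `M / N` from `ZMod N` to `ZMod M` -/
private def u1 (N M : ℕ) (h : N ∣ M) : ZMod N →+ ZMod M :=
  ZMod.lift N ⟨(AddMonoidHom.mulRight ((M / N : ℕ) : ZMod M)).comp (Int.castAddHom (ZMod M)), by
    show ((N : ℤ) : ZMod M) * ((M / N : ℕ) : ZMod M) = 0
    rw [Int.cast_natCast, ← Nat.cast_mul, Nat.mul_div_cancel' h, ZMod.natCast_self]⟩

omit [NeZero N] [NeZero M] in
private theorem u1_int (h : N ∣ M) (i : ℤ) :
    u1 N M h (i : ZMod N) = (i : ZMod M) * ((M / N : ℕ) : ZMod M) := by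
  unfold u1
  rw [ZMod.lift_coe]
  rfl

omit [NeZero N] [NeZero M] in
private theorem u1_mul (h : N ∣ M) (i : ℤ) (a : ZMod N) :
    u1 N M h ((i : ZMod N) * a) = (i : ZMod M) * u1 N M h a := by
  rw [← zsmul_eq_mul, map_zsmul, zsmul_eq_mul]

private theorem ne0 (h : N ∣ M) : 0 < M / N :=
  Nat.div_pos (Nat.le_of_dvd (Nat.pos_of_ne_zero (NeZero.ne M)) h)
    (Nat.pos_of_ne_zero (NeZero.ne N))

private theorem u1_val (h : N ∣ M) (a : ZMod N) : (u1 N M h a).val = a.val * (M / N) := by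
  have h1 : u1 N M h a = ((a.val * (M / N) : ℕ) : ZMod M) := by
    have h2 := u1_int h (a.val : ℤ)
    rw [Int.cast_natCast, ZMod.natCast_zmod_val] at h2
    rw [h2]
    push_cast
    rfl
  rw [h1, ZMod.val_natCast_of_lt]
  calc a.val * (M / N) < N * (M / N) := Nat.mul_lt_mul_of_pos_right (ZMod.val_lt a) (ne0 h)
    _ = M := Nat.mul_div_cancel' h

private theorem u1_inj (h : N ∣ M) : Function.Injective (u1 N M h) := by
  intro a b hab
  have h1 := congrArg ZMod.val hab
  rw [u1_val, u1_val] at h1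
  exact ZMod.val_injective N (Nat.eq_of_mul_eq_mul_right (ne0 h) h1)

/-- torsion points -/
private theorem val_tor (h : N ∣ M) {t : ZMod M} (ht : N • t = 0) :
    ∃ s : ℕ, s < N ∧ t.val = s * (M / N) := by
  have h1 : ((N * t.val : ℕ) : ZMod M) = 0 := by
    rw [Nat.cast_mul, ZMod.natCast_zmod_val, ← nsmul_eq_mul]
    exact ht
  rw [ZMod.natCast_eq_zero_iff] at h1
  have hNpos : 0 < N := Nat.pos_of_ne_zero (NeZero.ne N)
  have h2 : M / N ∣ t.val := by
    obtain ⟨e, rfl⟩ := h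
    rw [Nat.mul_div_cancel_left e hNpos]
    exact Nat.dvd_of_mul_dvd_mul_left hNpos h1
  obtain ⟨s, hs⟩ := h2
  refine ⟨s, ?_, by rw [hs, mul_comm]⟩
  have h3 : t.val < M := ZMod.val_lt t
  rw [hs] at h3
  have h4 : M = (M / N) * N := by rw [mul_comm]; exact (Nat.mul_div_cancel' h).symm
  rw [h4] at h3
  have h5 : M / N * s < M / N * N := by
    have h6 : M / N * N / N = M / N := Nat.mul_div_cancel _ hNpos
    rwa [h6] at h3
  exact Nat.lt_of_mul_lt_mul_left h5

private def Up (N M : ℕ) (h : N ∣ M) : UNL.G N →+ UNL.G M := (u1 N M h).prodMap (u1 N M h)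

omit [NeZero N] [NeZero M] in
private theorem Up_apply (h : N ∣ M) (j : UNL.G N) : Up N M h j = (u1 N M h j.1, u1 N M h j.2) :=
  rfl

private theorem Up_inj (h : N ∣ M) : Function.Injective (Up N M h) := by
  intro a b hab
  rw [Up_apply, Up_apply, Prod.mk.injEq] at hab
  exact Prod.ext (u1_inj h hab.1) (u1_inj h hab.2)

omit [NeZero N] [NeZero M] in
private theorem Up_tor (h : N ∣ M) (j : UNL.G N) : N • Up N M h j = 0 := by
  rw [← map_nsmul]
  have h1 : N • j = 0 := by
    refine Prod.ext ?_ ?_ <;> simp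
  rw [h1, map_zero]

private theorem dn_Up (h : N ∣ M) (j : UNL.G N) : (dn (Up N M h j) : UNL.G N) = j := by
  unfold dn
  rw [Up_apply]
  simp only [u1_val, Nat.mul_div_cancel _ (ne0 h), ZMod.natCast_zmod_val]

private theorem Up_dn (h : N ∣ M) {k : UNL.G M} (hk : N • k = 0) :
    Up N M h (dn k : UNL.G N) = k := by
  have h1 : N • k.1 = 0 := congrArg Prod.fst hk
  have h2 : N • k.2 = 0 := congrArg Prod.snd hk
  have key : ∀ t : ZMod M, N • t = 0 → u1 N M h ((t.val / (M / N) : ℕ) : ZMod N) = t := by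
    intro t ht
    obtain ⟨s, hs, hv⟩ := val_tor h ht
    apply ZMod.val_injective M
    rw [u1_val, hv, Nat.mul_div_cancel _ (ne0 h), ZMod.val_natCast_of_lt hs]
  exact Prod.ext (key k.1 h1) (key k.2 h2)

theorem dn_tp (b : UNL.Par) (h : N ∣ M) {k : UNL.G M} (hk : N • k = 0) :
    UNL.tp b (dn k : UNL.G N) = UNL.tp b k := by
  conv_rhs => rw [← Up_dn h hk]
  rw [Up_apply]
  unfold UNL.tp
  simp only [u1_val]
  have hN : (N : ℂ) ≠ 0 := Nat.cast_ne_zero.2 (NeZero.ne N)
  have he : ((M / N : ℕ) : ℂ) ≠ 0 := Nat.cast_ne_zero.2 (ne0 h).ne'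
  have hM : (M : ℂ) = (N : ℂ) * ((M / N : ℕ) : ℂ) := by
    rw [← Nat.cast_mul, Nat.mul_div_cancel' h]
  rw [hM]
  push_cast
  field_simp

theorem dn_zero (h : N ∣ M) {k : UNL.G M} (hk : N • k = 0) : (dn k : UNL.G N) = 0 ↔ k = 0 := by
  constructor
  · intro h0
    rw [← Up_dn h hk, h0, map_zero]
  · intro h0
    apply Up_inj h
    rw [Up_dn h hk, h0, map_zero]

theorem dn_add (h : N ∣ M) {k l : UNL.G M} (hk : N • k = 0) (hl : N • l = 0) :
    (dn (k + l) : UNL.G N) = dn k + dn l := by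
  apply Up_inj h
  rw [map_add, Up_dn h hk, Up_dn h hl, Up_dn h (by rw [smul_add, hk, hl, add_zero])]

theorem dn_neg (h : N ∣ M) {k : UNL.G M} (hk : N • k = 0) :
    (dn (-k) : UNL.G N) = -dn k := by
  apply Up_inj h
  rw [map_neg, Up_dn h hk, Up_dn h (by rw [smul_neg, hk, neg_zero])]

theorem ac_nk (n : ℕ) (x : D.O) {k : UNL.G M} (hk : n • k = 0) : n • ac x k = 0 := by
  have h1 : ∀ n : ℕ, ac x (n • k) = n • ac x k := by
    intro n
    induction n with
    | zero => rw [zero_smul, zero_smul, ac_zero]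
    | succ n ih => rw [succ_nsmul, succ_nsmul, ac_addk, ih]
  rw [← h1, hk, ac_zero]

omit [NeZero N] [NeZero M] in
private theorem Up_ac (h : N ∣ M) (x : D.O) (j : UNL.G N) :
    Up N M h (ac x j) = ac x (Up N M h j) := by
  unfold ac UNL.sm
  rw [Up_apply, Up_apply]
  refine Prod.ext ?_ ?_
  · show u1 N M h _ = _
    have e1 : (((cod D x).1 : ℤ) : ZMod N) * j.1 -
        (((toU D.a).C : ℤ) : ZMod N) * (((cod D x).2 : ℤ) : ZMod N) * j.2 =
        (((cod D x).1 : ℤ) : ZMod N) * j.1 -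
          (((toU D.a).C * (cod D x).2 : ℤ) : ZMod N) * j.2 := by
      push_cast; ring
    rw [e1, map_sub, u1_mul, u1_mul]
    push_cast
    ring
  · show u1 N M h _ = _
    have e1 : (((cod D x).1 : ℤ) : ZMod N) * j.2 + (((cod D x).2 : ℤ) : ZMod N) *
        ((((toU D.a).A : ℤ) : ZMod N) * j.1 + (((toU D.a).B : ℤ) : ZMod N) * j.2) =
        (((cod D x).1 + (cod D x).2 * (toU D.a).B : ℤ) : ZMod N) * j.2 +
          (((cod D x).2 * (toU D.a).A : ℤ) : ZMod N) * j.1 := by
      push_cast; ring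
    rw [e1, map_add, u1_mul, u1_mul]
    push_cast
    ring

theorem dn_ac (h : N ∣ M) (x : D.O) {k : UNL.G M} (hk : N • k = 0) :
    (dn (ac x k) : UNL.G N) = ac x (dn k : UNL.G N) := by
  apply Up_inj h
  rw [Up_ac, Up_dn h hk, Up_dn h (ac_nk N x hk)]

theorem dn_surj (h : N ∣ M) (j : UNL.G N) : ∃ k : UNL.G M, N • k = 0 ∧ dn k = j :=
  ⟨Up N M h j, Up_tor h j, dn_Up h j⟩

open Classical in
theorem sum_dn {R : Type*} [AddCommMonoid R] (h : N ∣ M) (F : UNL.G N → R) :
    ∑ k : UNL.G M, (if N • k = 0 then F (dn k) else 0) = ∑ k : UNL.G N, F k := by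
  rw [← Finset.sum_filter]
  refine Finset.sum_nbij' (fun k => dn k) (fun j => Up N M h j) (fun k _ => Finset.mem_univ _)
    (fun j _ => ?_) (fun k hk => ?_) (fun j _ => dn_Up h j) (fun k _ => rfl)
  · rw [Finset.mem_filter]
    exact ⟨Finset.mem_univ _, Up_tor h j⟩
  · rw [Finset.mem_filter] at hk
    exact Up_dn h hk.2

theorem gd_dn (b : UNL.Par) (h : N ∣ M) (δ : Additive ℂˣ →+ ℂ) {k : UNL.G M} (hk : N • k = 0) :
    RN2.gd b δ k = RN2.gd b δ (dn k : UNL.G N) := by
  unfold RN2.gd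
  have h1 : (dn k : UNL.G N) ≠ 0 ↔ k ≠ 0 := not_congr (dn_zero h hk)
  simp only [dn_tp b h hk, h1]

/-- the transform does not change -/
theorem tr_up (h : N ∣ M) (A : UNL.G N → ℂ) (y : D.O) :
    ∑ k : UNL.G M, upc A k * pss D ((y : ℂ) * UNL.tp (toU D.a) k) =
      ∑ k : UNL.G N, A k * pss D ((y : ℂ) * UNL.tp (toU D.a) k) := by
  classical
  rw [← sum_dn h]
  refine Finset.sum_congr rfl fun k _ => ?_
  unfold upc
  by_cases hk : N • k = 0
  · rw [if_pos hk, if_pos hk, dn_tp _ h hk]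
  · rw [if_neg hk, if_neg hk, zero_mul]

/-! ### weights -/

variable {V : UNL.G N → UNL.G N → ℤ}

theorem up_ev (h : N ∣ M) (ev : ∀ k l, V (-k) l = V k l) (k l : UNL.G M) :
    up V (-k) l = up V k l := by
  unfold up
  have h1 : N • -k = 0 ↔ N • k = 0 := by rw [smul_neg, neg_eq_zero]
  by_cases hc : N • k = 0 ∧ N • l = 0
  · rw [if_pos hc, if_pos ⟨h1.2 hc.1, hc.2⟩, dn_neg h hc.1, ev]
  · rw [if_neg hc, if_neg fun h2 => hc ⟨h1.1 h2.1, h2.2⟩]

theorem up_anti (h : N ∣ M) (anti : ∀ k l, V l k = -V k l) (k l : UNL.G M) :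
    up V l k = -up V k l := by
  unfold up
  by_cases hc : N • k = 0 ∧ N • l = 0
  · rw [if_pos hc, if_pos ⟨hc.2, hc.1⟩, anti]
  · rw [if_neg hc, if_neg fun h2 => hc ⟨h2.2, h2.1⟩, neg_zero]

theorem up_row (h : N ∣ M) (row : ∀ l, ∑ k, V k l = 0) (l : UNL.G M) :
    ∑ k, up V k l = 0 := by
  classical
  by_cases hl : N • l = 0
  · have h1 : ∀ k : UNL.G M, up V k l = if N • k = 0 then V (dn k) (dn l) else 0 := by
      intro k
      unfold up
      by_cases hk : N • k = 0
      · rw [if_pos ⟨hk, hl⟩, if_pos hk]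
      · rw [if_neg fun h2 => hk h2.1, if_neg hk]
    rw [Finset.sum_congr rfl fun k _ => h1 k, sum_dn h (fun k => V k (dn l))]
    exact row _
  · refine Finset.sum_eq_zero fun k _ => ?_
    unfold up
    rw [if_neg fun h2 => hl h2.2]

theorem up_supp (hN : Even N) (h : N ∣ M) (supp : ∀ k l, V k l ≠ 0 → (N / 2) • k = 0)
    (k l : UNL.G M) (hk : up V k l ≠ 0) : (M / 2) • k = 0 := by
  unfold up at hk
  split_ifs at hk with hc
  · have h1 := supp _ _ hk
    have h2 : (N / 2) • k = 0 := by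
      rw [← Up_dn h hc.1, ← map_nsmul, h1, map_zero]
    obtain ⟨e, rfl⟩ := h
    obtain ⟨n, rfl⟩ := hN
    have e1 : (n + n) / 2 = n := by omega
    have e2 : (n + n) * e / 2 = e * n := by
      have : (n + n) * e = 2 * (e * n) := by ring
      rw [this, Nat.mul_div_cancel_left _ (by norm_num)]
    rw [e1] at h2
    rw [e2, mul_smul, h2, smul_zero]
  · exact absurd rfl hk

open Classical in
theorem up_Al (h : N ∣ M) (l k : UNL.G M) :
    ((Al (up V) l k : ℚ) : ℂ) = if N • l = 0 then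
      upc (fun k => ((Al V (dn l) k : ℚ) : ℂ)) k else 0 := by
  unfold Al upc up
  by_cases hk : N • k = 0
  · by_cases hl : N • l = 0
    · have hkl : N • (k + l) = 0 := by rw [smul_add, hk, hl, add_zero]
      rw [if_pos ⟨hk, hl⟩, if_pos ⟨hk, hkl⟩, if_pos hl, if_pos hk, dn_add h hk hl]
    · have hkl : ¬ N • (k + l) = 0 := by rwa [smul_add, hk, zero_add]
      rw [if_neg fun h2 => hl h2.2, if_neg fun h2 => hkl h2.2, if_neg hl]
      simp
  · rw [if_neg fun h2 => hk h2.1, if_neg fun h2 => hk h2.1, if_neg hk]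
    simp

/-- sums of functions of the reduced weights -/
private theorem sum2_dn (h : N ∣ M) (F : UNL.G N → UNL.G N → ℂ) (φ : UNL.G M → UNL.G M → ℂ)
    (h0 : ∀ k l, ¬ (N • k = 0 ∧ N • l = 0) → φ k l = 0)
    (h1 : ∀ k l, N • k = 0 → N • l = 0 → φ k l = F (dn k) (dn l)) :
    ∑ k, ∑ l, φ k l = ∑ k, ∑ l, F k l := by
  classical
  rw [← sum_dn h (fun k => ∑ l, F k l)]
  refine Finset.sum_congr rfl fun k _ => ?_
  by_cases hk : N • k = 0
  · rw [if_pos hk, ← sum_dn h (fun l => F (dn k) l)]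
    refine Finset.sum_congr rfl fun l _ => ?_
    by_cases hl : N • l = 0
    · rw [if_pos hl, h1 k l hk hl]
    · rw [if_neg hl, h0 k l fun h2 => hl h2.2]
  · rw [if_neg hk]
    exact Finset.sum_eq_zero fun l _ => h0 k l fun h2 => hk h2.1

theorem FTc_up (h : N ∣ M) (w : Vec) :
    FTc D (fun k l : UNL.G M => ((up V k l : ℤ) : ℂ)) w =
      FTc D (fun k l : UNL.G N => ((V k l : ℤ) : ℂ)) w := by
  unfold FTc
  by_cases hw : RNP.O2 D w
  · rw [if_pos hw, if_pos hw]
    refine sum2_dn h _ _ (fun k l hc => ?_) fun k l hk hl => ?_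
    · have e1 : up V k l = 0 := by
        unfold up
        rw [if_neg hc]
      beta_reduce
      rw [e1, Int.cast_zero, zero_mul]
    · have e1 : up V k l = V (dn k) (dn l) := by
        unfold up
        rw [if_pos ⟨hk, hl⟩]
      beta_reduce
      rw [e1, dn_tp _ h hk, dn_tp _ h hl]
  · rw [if_neg hw, if_neg hw]

/-- averages over the classes prime to `N` and to `M` -/
private theorem rs_avg [IsDedekindDomain D.O] (h : N ∣ M) (S : Rs D N) (S' : Rs D M)
    {g : D.O → ℂ} (hg : Pe N g) :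
    (S.s.card : ℂ) * ∑ d ∈ S'.s, g d = (S'.s.card : ℂ) * ∑ d ∈ S.s, g d := by
  have hgM : Pe M g := by
    intro x y
    obtain ⟨e, rfl⟩ := h
    have e1 : x + ((N * e : ℕ) : D.O) * y = x + (N : D.O) * ((e : D.O) * y) := by
      push_cast; ring
    rw [e1]
    exact hg _ _
  have hcp : ∀ x : D.O, Cp M x → Cp N x := by
    intro x hx
    obtain ⟨e, rfl⟩ := h
    unfold Cp at hx ⊢
    rw [Nat.cast_mul] at hx
    exact hx.of_mul_right_left
  have h1 : ∑ x ∈ S'.s, ∑ d ∈ S.s, g (d * x) = (S'.s.card : ℂ) * ∑ d ∈ S.s, g d := by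
    rw [Finset.sum_congr rfl fun x hx => rs_shift S (hcp x (S'.cp x hx)) hg, Finset.sum_const,
      nsmul_eq_mul]
  have h2 : ∑ d ∈ S.s, ∑ x ∈ S'.s, g (d * x) = (S.s.card : ℂ) * ∑ d ∈ S'.s, g d := by
    have h3 : ∀ d ∈ S.s, ∑ x ∈ S'.s, g (d * x) = ∑ x ∈ S'.s, g x := by
      intro d hd
      have hle : Ideal.span {(M : D.O)} ≤ Ideal.span {(N : D.O)} := by
        rw [Ideal.span_singleton_le_span_singleton]
        exact_mod_cast Nat.cast_dvd_cast h
      obtain ⟨d', hd', hdd⟩ := lift_cp (Nat.pos_of_ne_zero (NeZero.ne M)) hle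
        (x := d) (by
          rw [Ideal.isCoprime_span_singleton_iff]
          exact S.cp d hd)
      obtain ⟨z, hz⟩ := Ideal.mem_span_singleton'.1 hdd
      rw [← rs_shift S' hd' hgM]
      refine Finset.sum_congr rfl fun x _ => ?_
      have e1 : x * d' = d * x + (N : D.O) * (z * x) := by
        linear_combination (-x) * hz
      rw [e1]
      exact (hg _ _).symm
    rw [Finset.sum_congr rfl h3, Finset.sum_const, nsmul_eq_mul]
  rw [← h1, ← h2, Finset.sum_comm]

theorem pw_up [IsDedekindDomain D.O] {m : ℕ} [NeZero m] (χ : Kc D m) (hm : m ∣ N) (h : N ∣ M)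
    (S : Rs D N) (S' : Rs D M) (w : Vec) :
    (S.s.card : ℂ) * FTc D (pw χ S' fun k l : UNL.G M => ((up V k l : ℤ) : ℂ)) w =
      (S'.s.card : ℂ) * FTc D (pw χ S fun k l : UNL.G N => ((V k l : ℤ) : ℂ)) w := by
  unfold FTc
  by_cases hw : RNP.O2 D w
  · rw [if_pos hw, if_pos hw]
    have hcpN : ∀ d ∈ S'.s, ∀ k : UNL.G M, N • ac d k = 0 → N • k = 0 := by
      intro d hd k hk
      obtain ⟨u, v, huv⟩ := S'.cp d hd
      have h1 : ac u (ac d k) = k := by
        rw [← ac_mul]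
        have e1 : u * d = 1 + (M : D.O) * (-v) := by linear_combination huv
        rw [e1, ac_per, ac_one]
      rw [← h1]
      exact ac_nk N u hk
    rw [sum2_dn h (fun k l => (∑ d ∈ S'.s, χ.f d * ((V (ac d k) (ac d l) : ℤ) : ℂ)) *
      (ps (toU D.a) (w.1 * UNL.tp (toU D.a) k) * ps (toU D.a) (w.2 * UNL.tp (toU D.a) l)))
      _ (fun k l hc => ?_) fun k l hk hl => ?_]
    · rw [Finset.mul_sum, Finset.mul_sum]
      refine Finset.sum_congr rfl fun k _ => ?_
      rw [Finset.mul_sum, Finset.mul_sum]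
      refine Finset.sum_congr rfl fun l _ => ?_
      have hper : Pe N (fun d : D.O => χ.f d * ((V (ac d k) (ac d l) : ℤ) : ℂ)) := by
        intro r z
        show χ.f (r + (N : D.O) * z) * ((V (ac (r + (N : D.O) * z) k)
          (ac (r + (N : D.O) * z) l) : ℤ) : ℂ) = _
        rw [ac_per, ac_per]
        obtain ⟨N', hN'⟩ := hm
        have e : r + (N : D.O) * z = r + (m : D.O) * ((N' : D.O) * z) := by
          rw [← mul_assoc, ← Nat.cast_mul, ← hN']
        rw [e, χ.per]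
      have h2 := rs_avg h S S' hper
      rw [← mul_assoc, h2, mul_assoc]
      rfl
    · have h1 : pw χ S' (fun k l : UNL.G M => ((up V k l : ℤ) : ℂ)) k l = 0 := by
        unfold pw
        refine Finset.sum_eq_zero fun d hd => ?_
        have h2 : up V (ac d k) (ac d l) = 0 := by
          unfold up
          rw [if_neg fun h3 => hc ⟨hcpN d hd k h3.1, hcpN d hd l h3.2⟩]
        beta_reduce
        rw [h2, Int.cast_zero, mul_zero]
      rw [h1, zero_mul]
    · rw [dn_tp _ h hk, dn_tp _ h hl]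
      congr 1
      unfold pw
      refine Finset.sum_congr rfl fun d hd => ?_
      have h2 : up V (ac d k) (ac d l) = V (ac d (dn k)) (ac d (dn l)) := by
        unfold up
        rw [if_pos ⟨ac_nk N d hk, ac_nk N d hl⟩, dn_ac h d hk, dn_ac h d hl]
      beta_reduce
      rw [h2]
  · rw [if_neg hw, if_neg hw, mul_zero, mul_zero]

end

end RNG
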