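import Pool.Agent.RNG.Lig
import Pool.Agent.RNG.Ftg
import Pool.Agent.RNE.Wr

/-!
# RNG.Wrg: the regulator integral on the lattice `ℤ + ℤ (ω + j) / A` as a lattice sum

The proof of `RNE.reg_TT` (`RNE/Wr`) with `b = lb D p` and the weight `V' = V (re p ·) (re p ·)` (even, antisymmetric, row sums `0`, support: `re_bij`, `re_neg`, `re_nsmul`).
`UNL.reg_val b`: `∫ Reg = -(4 i N⁶ / (kap b)²) Σ' Wd b V' m m' KK (mm m) (mm m')`, `kap b = A kap (toU D.a)`. By `ch_re` `Wd b V' m m' = FTc D V (A mm m, A mm m')` (replace `re p k` by `k`),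
the `A mm m` are the elements of `ci (li D p)` (`mm_li`), `KK (A x) (A y) = A⁻⁶ KK x y`. So the sum is `A⁶ Σ_{w ∈ (ci (li D p))²} FTc D V w KK w = -A⁶ conj TT (..)` (as in `wr_sum`:
`KG_std`, the values of `FTc D V` are real: `wr_real`), `∫ XReg = N⁴ ∫ Reg`, and `A⁶ / A² = A⁴`.
-/

open RNK MeasureTheory

namespace RNG

noncomputable section

variable {D : RNP.OD} {N : ℕ} [NeZero N]

private theorem wg_neg {y : ℂ} (hy : y ∈ D.O) (k : UNL.G N) :
    ps (toU D.a) (y * UNL.tp (toU D.a) (-k)) =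
      (starRingEnd ℂ) (ps (toU D.a) (y * UNL.tp (toU D.a) k)) := by
  have h1 : ps (toU D.a) (y * UNL.tp (toU D.a) (k + -k)) =
      ps (toU D.a) (y * UNL.tp (toU D.a) k) * ps (toU D.a) (y * UNL.tp (toU D.a) (-k)) :=
    pss_addk (⟨y, hy⟩ : D.O) k (-k)
  have h2 : ps (toU D.a) (y * UNL.tp (toU D.a) (k + -k)) = 1 := by
    rw [add_neg_cancel]
    have h3 : UNL.tp (toU D.a) (0 : UNL.G N) = 0 := by
      simp [UNL.tp]
    rw [h3, mul_zero]
    exact ps_O D.O.zero_mem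
  have h4 : ‖ps (toU D.a) (y * UNL.tp (toU D.a) k)‖ = 1 := pss_norm (D := D) _
  have h5 : ps (toU D.a) (y * UNL.tp (toU D.a) k) ≠ 0 := by
    intro h
    rw [h, norm_zero] at h4
    exact zero_ne_one h4
  rw [h2] at h1
  have h6 : ps (toU D.a) (y * UNL.tp (toU D.a) k) *
      (starRingEnd ℂ) (ps (toU D.a) (y * UNL.tp (toU D.a) k)) = 1 := by
    rw [Complex.mul_conj, Complex.normSq_eq_norm_sq, h4]
    norm_num
  exact mul_left_cancel₀ h5 (h1.symm.trans h6.symm)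

/-- the values of the Fourier transform are real -/
private theorem wg_real {V : UNL.G N → UNL.G N → ℤ}
    (ev : ∀ k l, V (-k) l = V k l) (anti : ∀ k l, V l k = -V k l) (w : Vec) :
    (starRingEnd ℂ) (FTc D (fun k l : UNL.G N => (V k l : ℂ)) w) =
      FTc D (fun k l : UNL.G N => (V k l : ℂ)) w := by
  by_cases hw : RNP.O2 D w
  · have ev2 : ∀ k l, V (-k) (-l) = V k l := by
      intro k l
      rw [ev, anti (-l) k, ev, anti k l, neg_neg]
    rw [FTc, if_pos hw, map_sum, ← Equiv.sum_comp (Equiv.neg (UNL.G N))]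
    refine Finset.sum_congr rfl fun k _ => ?_
    rw [map_sum, ← Equiv.sum_comp (Equiv.neg (UNL.G N))]
    refine Finset.sum_congr rfl fun l _ => ?_
    simp only [Equiv.neg_apply]
    rw [ev2, map_mul, map_mul, wg_neg hw.1, wg_neg hw.2, Complex.conj_conj, Complex.conj_conj,
      map_intCast]
  · rw [FTc, if_neg hw, map_zero]

/-- the kernel is homogeneous -/
private theorem wg_KK {A : ℕ} (hA : 0 < A) (x y : ℂ) :
    UNL.KK x y = (A : ℂ) ^ 6 * UNL.KK ((A : ℂ) * x) ((A : ℂ) * y) := by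
  have hA0 : (A : ℂ) ≠ 0 := Nat.cast_ne_zero.2 hA.ne'
  have hc : ∀ z : ℂ, (starRingEnd ℂ) ((A : ℂ) * z) = (A : ℂ) * (starRingEnd ℂ) z := by
    intro z
    rw [map_mul, Complex.conj_natCast]
  have e1 : UNL.KK ((A : ℂ) * x) ((A : ℂ) * y) =
      ((A : ℂ) ^ 4 * ((x * (starRingEnd ℂ) y - (starRingEnd ℂ) x * y) *
        ((starRingEnd ℂ) x ^ 2 + (starRingEnd ℂ) x * (starRingEnd ℂ) y + (starRingEnd ℂ) y ^ 2))) /
      ((A : ℂ) ^ 10 * (x * (starRingEnd ℂ) x * (y * (starRingEnd ℂ) y) *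
        ((x - y) * (starRingEnd ℂ) (x - y)) * ((starRingEnd ℂ) x ^ 2 * (starRingEnd ℂ) y ^ 2))) := by
    show (((A : ℂ) * x) * (starRingEnd ℂ) ((A : ℂ) * y) - (starRingEnd ℂ) ((A : ℂ) * x) * ((A : ℂ) * y)) *
      ((starRingEnd ℂ) ((A : ℂ) * x) ^ 2 + (starRingEnd ℂ) ((A : ℂ) * x) * (starRingEnd ℂ) ((A : ℂ) * y) +
        (starRingEnd ℂ) ((A : ℂ) * y) ^ 2) /
      (((A : ℂ) * x) * (starRingEnd ℂ) ((A : ℂ) * x) * (((A : ℂ) * y) * (starRingEnd ℂ) ((A : ℂ) * y)) *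
        ((((A : ℂ) * x) - ((A : ℂ) * y)) * (starRingEnd ℂ) (((A : ℂ) * x) - ((A : ℂ) * y))) *
        ((starRingEnd ℂ) ((A : ℂ) * x) ^ 2 * (starRingEnd ℂ) ((A : ℂ) * y) ^ 2)) = _
    rw [← mul_sub, hc, hc, hc]
    congr 1 <;> ring
  rw [e1]
  have e2 : (A : ℂ) ^ 10 = (A : ℂ) ^ 6 * (A : ℂ) ^ 4 := by ring
  rw [e2, mul_assoc ((A : ℂ) ^ 6), mul_div_assoc', mul_div_mul_left _ _ (pow_ne_zero 6 hA0),
    mul_div_mul_left _ _ (pow_ne_zero 4 hA0)]
  rfl

open Classical in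
private theorem wg_sum {V : UNL.G N → UNL.G N → ℤ}
    (ev : ∀ k l, V (-k) l = V k l) (anti : ∀ k l, V l k = -V k l) {p : ℕ × ℤ} (hp : Lt D N p) :
    ∑' x : (ℤ × ℤ) × (ℤ × ℤ), UNL.Wd (lb D p) (fun k l => V (re p k) (re p l)) x.1 x.2 *
      UNL.KK (UNL.mm (lb D p) x.1) (UNL.mm (lb D p) x.2) =
    -(((p.1 : ℕ) : ℂ) ^ 6 * (starRingEnd ℂ) (TT (fun w => FTc D (fun k l => (V k l : ℂ)) w *
          (if In2 (ci (li D p)) w then 1 else 0)) e2 e1 v11 v11)) := by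
  obtain ⟨e, he⟩ := mm_li hp
  have hA : (((p.1 : ℕ) : ℂ)) ≠ 0 := Nat.cast_ne_zero.2 hp.1.ne'
  let g : (ℤ × ℤ) × (ℤ × ℤ) → Vec := fun x =>
    (((p.1 : ℕ) : ℂ) * UNL.mm (lb D p) x.1, ((p.1 : ℕ) : ℂ) * UNL.mm (lb D p) x.2)
  have hg : ∀ x, g x = ((((e x.1 : D.O)) : ℂ), (((e x.2 : D.O)) : ℂ)) := by
    intro x
    show (((p.1 : ℕ) : ℂ) * UNL.mm (lb D p) x.1, ((p.1 : ℕ) : ℂ) * UNL.mm (lb D p) x.2) = _
    rw [he, he]
  have hgi : Function.Injective g := by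
    intro x y h
    rw [hg, hg] at h
    simp only [Prod.mk.injEq] at h
    have h1 : e x.1 = e y.1 := Subtype.ext (Subtype.ext h.1)
    have h2 : e x.2 = e y.2 := Subtype.ext (Subtype.ext h.2)
    exact Prod.ext (e.injective h1) (e.injective h2)
  have hI : ∀ x, In2 (ci (li D p)) (g x) := by
    intro x
    rw [hg]
    exact ⟨_, (e x.1).2, _, (e x.2).2, rfl⟩
  have hO : ∀ x, RNP.O2 D (g x) := by
    intro x
    rw [hg]
    exact ⟨((e x.1 : D.O)).2, ((e x.2 : D.O)).2⟩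
  have hsupp : Function.support (fun w : Vec =>
      FTc D (fun k l : UNL.G N => (V k l : ℂ)) w * (if In2 (ci (li D p)) w then 1 else 0) *
        KG e2 e1 v11 v11 w) ⊆ Set.range g := by
    intro w hw
    have h1 := right_ne_zero_of_mul (left_ne_zero_of_mul hw)
    have h2 : In2 (ci (li D p)) w := by
      by_contra h
      exact h1 (if_neg h)
    obtain ⟨x, hx, y, hy, rfl⟩ := h2
    refine ⟨(e.symm ⟨x, hx⟩, e.symm ⟨y, hy⟩), ?_⟩
    rw [hg]
    simp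
  rw [TT, ← hgi.tsum_eq hsupp, Complex.conj_tsum, ← tsum_mul_left, ← tsum_neg]
  refine tsum_congr fun x => ?_
  have h1 : FTc D (fun k l : UNL.G N => (V k l : ℂ)) (g x) =
      UNL.Wd (lb D p) (fun k l => V (re p k) (re p l)) x.1 x.2 := by
    rw [FTc, if_pos (hO x)]
    have hb := re_bij (N := N) hp
    have h2 : ∀ k l : UNL.G N, ((V (re p k) (re p l) : ℤ) : ℂ) *
        (UNL.ch (lb D p) x.1 (UNL.tp (lb D p) k) * UNL.ch (lb D p) x.2 (UNL.tp (lb D p) l)) =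
        (fun k' l' : UNL.G N => ((V k' l' : ℤ) : ℂ) *
          (ps (toU D.a) ((g x).1 * UNL.tp (toU D.a) k') *
            ps (toU D.a) ((g x).2 * UNL.tp (toU D.a) l'))) (re p k) (re p l) := by
      intro k l
      rw [ch_re hp, ch_re hp]
    unfold UNL.Wd
    rw [Finset.sum_congr rfl fun k _ => Finset.sum_congr rfl fun l _ => h2 k l]
    rw [hb.sum_comp fun k' => ∑ l : UNL.G N,
      (fun k' l' : UNL.G N => ((V k' l' : ℤ) : ℂ) *
          (ps (toU D.a) ((g x).1 * UNL.tp (toU D.a) k') *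
            ps (toU D.a) ((g x).2 * UNL.tp (toU D.a) l'))) k' (re p l)]
    refine Finset.sum_congr rfl fun k' _ => ?_
    exact (hb.sum_comp fun l' => ((V k' l' : ℤ) : ℂ) *
          (ps (toU D.a) ((g x).1 * UNL.tp (toU D.a) k') *
            ps (toU D.a) ((g x).2 * UNL.tp (toU D.a) l'))).symm
  have h3 : g x = (((p.1 : ℕ) : ℂ) * UNL.mm (lb D p) x.1,
      ((p.1 : ℕ) : ℂ) * UNL.mm (lb D p) x.2) := rfl
  rw [if_pos (hI x), mul_one, map_mul, wg_real ev anti, h1, h3, KG_std, map_neg,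
    Complex.conj_conj, wg_KK hp.1 (UNL.mm (lb D p) x.1) (UNL.mm (lb D p) x.2)]
  ring

open Classical in
theorem reg_p (hN : Even N) {V : UNL.G N → UNL.G N → ℤ}
    (ev : ∀ k l, V (-k) l = V k l) (anti : ∀ k l, V l k = -V k l) (row : ∀ l, ∑ k, V k l = 0)
    (supp : ∀ k l, V k l ≠ 0 → (N / 2) • k = 0) {p : ℕ × ℤ} (hp : Lt D N p) :
    ∫ q : UNL.E × UNL.E, UNL.Gen.XReg (lb D p) (fun k l => V (re p k) (re p l))
        (UNL.cu (lb D p) q.1) (UNL.cu (lb D p) q.2) =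
      4 * Complex.I * (N : ℂ) ^ 10 / ((UNL.kap (toU D.a) : ℝ) : ℂ) ^ 2 * ((p.1 : ℕ) : ℂ) ^ 4 *
        (starRingEnd ℂ) (TT (fun w => FTc D (fun k l => (V k l : ℂ)) w *
          (if In2 (ci (li D p)) w then 1 else 0)) e2 e1 v11 v11) := by
  have hb := re_bij (N := N) hp
  have ev' : ∀ k l : UNL.G N, V (re p (-k)) (re p l) = V (re p k) (re p l) := by
    intro k l
    rw [re_neg, ev]
  have anti' : ∀ k l : UNL.G N, V (re p l) (re p k) = -V (re p k) (re p l) :=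
    fun k l => anti _ _
  have row' : ∀ l : UNL.G N, ∑ k : UNL.G N, V (re p k) (re p l) = 0 := by
    intro l
    rw [← row (re p l)]
    exact hb.sum_comp fun k => V k (re p l)
  have supp' : ∀ k l : UNL.G N, V (re p k) (re p l) ≠ 0 → (N / 2) • k = 0 := by
    intro k l h
    have h1 := supp _ _ h
    rw [← re_nsmul] at h1
    exact hb.1 (h1.trans re_zero.symm)
  obtain ⟨h1, h2⟩ := UNL.reg_val (lb D p) N hN (fun k l => V (re p k) (re p l)) ev' anti' row' supp'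
  rw [wg_sum ev anti hp] at h2
  have h3 := fun s t : UNL.G N => UNL.Gen.int_tr (lb D p)
    (UNL.Gen.Reg_per2 (lb D p) (fun k l : UNL.G N => V (re p k) (re p l)))
    (UNL.tp (lb D p) s) (UNL.tp (lb D p) t) h1
  simp only [UNL.Gen.XReg_eq]
  rw [integral_finsetSum _ fun s _ => integrable_finsetSum _ fun t _ => (h3 s t).1]
  have e : ∀ s : UNL.G N, ∫ q : UNL.E × UNL.E, ∑ t : UNL.G N,
      UNL.Reg (lb D p) (fun k l : UNL.G N => V (re p k) (re p l))
        (UNL.cu (lb D p) q.1 + UNL.tp (lb D p) s)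
        (UNL.cu (lb D p) q.2 + UNL.tp (lb D p) t) =
      (N : ℂ) ^ 2 * ∫ q : UNL.E × UNL.E,
        UNL.Reg (lb D p) (fun k l : UNL.G N => V (re p k) (re p l))
          (UNL.cu (lb D p) q.1) (UNL.cu (lb D p) q.2) := by
    intro s
    rw [integral_finsetSum _ fun t _ => (h3 s t).1]
    rw [Finset.sum_congr rfl fun t _ => (h3 s t).2]
    rw [Finset.sum_const, Finset.card_univ, Fintype.card_prod, ZMod.card, nsmul_eq_mul]
    push_cast
    ring
  rw [Finset.sum_congr rfl fun s _ => e s]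
  rw [Finset.sum_const, Finset.card_univ, Fintype.card_prod, ZMod.card, nsmul_eq_mul, h2,
    lb_kap hp]
  have hA : (((p.1 : ℕ) : ℂ)) ≠ 0 := Nat.cast_ne_zero.2 hp.1.ne'
  have hk : (((UNL.kap (toU D.a) : ℝ)) : ℂ) ≠ 0 := by
    have h4 : 0 < UNL.kap (toU D.a) := by
      unfold UNL.kap
      have h5 := UNL.A_pos (toU D.a)
      have h6 := UNL.sD_pos (toU D.a)
      positivity
    exact_mod_cast h4.ne'
  push_cast
  field_simp
  try ring

end

end RNG
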