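import Pool.Agent.RNG.Wxg
import Pool.Agent.RNG.Wrg
import Pool.Agent.RNG.Upg
import Pool.Agent.RNG.Lp

/-!
# RNG.Wfg: the regulator integrals of a closed weight on all lattices

`sum_psi`: `reg_p` for all lattices, `Σ_p ψ(li p) A_p² 1_{(ci (li p))²}` is the conjugate of `Ph`; `int_psi`: the value.
-/

open RNK MeasureTheory

namespace RNG

noncomputable section

variable {D : RNP.OD} {m : ℕ} [NeZero m] {N : ℕ} [NeZero N]

omit [NeZero m] in
theorem twist {W : UNL.G N → UNL.G N → ℤ}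
    (ev : ∀ k l, W (-k) l = W k l) (anti : ∀ k l, W l k = -W k l) (row : ∀ l, ∑ k, W k l = 0)
    (supp : ∀ k l, W k l ≠ 0 → (N / 2) • k = 0) {d : D.O} (hd : Cp N d) :
    (∀ k l, W (ac d (-k)) (ac d l) = W (ac d k) (ac d l)) ∧
    (∀ k l, W (ac d l) (ac d k) = -W (ac d k) (ac d l)) ∧
    (∀ l, ∑ k, W (ac d k) (ac d l) = 0) ∧
    (∀ k l, W (ac d k) (ac d l) ≠ 0 → (N / 2) • k = 0) := by
  obtain ⟨d', -, hd'⟩ := Cp_inv hd
  refine ⟨fun k l => ?_, fun k l => anti _ _, fun l => ?_, fun k l h => ?_⟩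
  · rw [ac_negk, ev]
  · let e : UNL.G N ≃ UNL.G N :=
      { toFun := ac d
        invFun := ac d'
        left_inv := fun k => (hd' k).1
        right_inv := fun k => (hd' k).2 }
    rw [← row (ac d l)]
    exact e.sum_comp (fun k => W k (ac d l))
  · have h1 := supp _ _ h
    have h2 : ∀ n : ℕ, ac d (n • k) = n • ac d k := by
      intro n
      induction n with
      | zero => rw [zero_smul, zero_smul, ac_zero]
      | succ n ih => rw [succ_nsmul, succ_nsmul, ac_addk, ih]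
    rw [← (hd' ((N / 2) • k)).1, h2, h1, ac_zero]

open Classical in
/-- the indicator function of `O²` -/
private def wfI (D : RNP.OD) (w : Vec) : ℂ := if RNP.O2 D w then 1 else 0

private theorem wf_ind : RNP.AdmE D (wfI D) := by
  refine ⟨1, one_pos, ?_, ?_, ?_⟩
  · intro w
    unfold wfI
    split_ifs
    · exact D.K.one_mem
    · exact D.K.zero_mem
  · intro w hw
    rw [Nat.cast_one, one_smul]
    by_contra h
    exact hw (by unfold wfI; rw [if_neg h])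
  · intro w v hv
    have h : RNP.O2 D (w + ((1 : ℕ) : ℂ) • v) ↔ RNP.O2 D w := by
      rw [Nat.cast_one, one_smul]
      constructor
      · intro h
        refine ⟨?_, ?_⟩
        · have h1 := D.O.sub_mem h.1 hv.1
          simpa using h1
        · have h1 := D.O.sub_mem h.2 hv.2
          simpa using h1
      · intro h
        exact ⟨D.O.add_mem h.1 hv.1, D.O.add_mem h.2 hv.2⟩
    unfold wfI
    by_cases hw : RNP.O2 D w
    · rw [if_pos hw, if_pos (h.2 hw)]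
    · rw [if_neg hw, if_neg (fun h1 => hw (h.1 h1))]

private theorem wf_sm (c : UNL.G N → UNL.G N → ℂ) :
    Summable fun w => FTc D c w * KG e2 e1 v11 v11 w := by
  have h1 := (RNP.TT_summable (wf_ind (D := D)) (RNP.Cu_e2 (D := D))
    (RNP.Cu_e1 (D := D)) (RNP.Cu_v11 (D := D))
    (⟨D.K.one_mem, D.K.one_mem⟩ : RNP.K2 D v11)).norm
  refine Summable.of_norm_bounded (g := fun w => (∑ k : UNL.G N, ∑ l : UNL.G N, ‖c k l‖) *
    ‖wfI D w * KG e2 e1 v11 v11 w‖) (h1.mul_left _) fun w => ?_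
  rw [norm_mul, norm_mul, ← mul_assoc]
  refine mul_le_mul_of_nonneg_right ?_ (norm_nonneg _)
  unfold FTc wfI
  by_cases h : RNP.O2 D w
  · rw [if_pos h, if_pos h, norm_one, mul_one]
    refine (norm_sum_le _ _).trans (Finset.sum_le_sum fun k _ =>
      (norm_sum_le _ _).trans (Finset.sum_le_sum fun l _ => ?_))
    have e1 : ∀ z : ℂ, ‖ps (toU D.a) z‖ = 1 := fun z => pss_norm (D := D) z
    rw [norm_mul, norm_mul, e1, e1, mul_one, mul_one]
  · rw [if_neg h, if_neg h, norm_zero, mul_zero]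

omit [NeZero m] in
private theorem wf_pw (η : Hc D m) (S : Rs D N) (W : UNL.G N → UNL.G N → ℤ) (w : Vec) :
    FTc D (pw η.br S fun k l => (W k l : ℂ)) w = ∑ d ∈ S.s, (starRingEnd ℂ) (η.f d) *
      FTc D (fun k l => ((W (ac d k) (ac d l) : ℤ) : ℂ)) w := by
  unfold FTc
  by_cases h : RNP.O2 D w
  · simp only [if_pos h]
    simp only [pw, Finset.sum_mul]
    have e1 : ∀ k : UNL.G N, ∑ l : UNL.G N, ∑ d ∈ S.s,
        η.br.f d * (W (ac d k) (ac d l) : ℂ) *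
          (ps (toU D.a) (w.1 * UNL.tp (toU D.a) k) * ps (toU D.a) (w.2 * UNL.tp (toU D.a) l)) =
        ∑ d ∈ S.s, ∑ l : UNL.G N, η.br.f d * (W (ac d k) (ac d l) : ℂ) *
          (ps (toU D.a) (w.1 * UNL.tp (toU D.a) k) * ps (toU D.a) (w.2 * UNL.tp (toU D.a) l)) :=
      fun k => Finset.sum_comm
    rw [Finset.sum_congr rfl fun k _ => e1 k, Finset.sum_comm]
    refine Finset.sum_congr rfl fun d _ => ?_
    rw [Finset.mul_sum]
    refine Finset.sum_congr rfl fun k _ => ?_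
    rw [Finset.mul_sum]
    refine Finset.sum_congr rfl fun l _ => ?_
    show (starRingEnd ℂ) (η.f d) * _ * _ = _
    ring
  · simp only [if_neg h, mul_zero, Finset.sum_const_zero]


/-- the transform of a weight is bounded and lives on `O²` -/
private theorem wf_smI (c : UNL.G N → UNL.G N → ℂ) (P : Vec → ℂ) (hP : ∃ C : ℝ, ∀ w, ‖P w‖ ≤ C) :
    Summable fun w => FTc D c w * P w * KG e2 e1 v11 v11 w := by
  obtain ⟨C, hC⟩ := hP
  refine Summable.of_norm_bounded (g := fun w => C * ‖FTc D c w * KG e2 e1 v11 v11 w‖)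
    ((wf_sm c).norm.mul_left _) fun w => ?_
  have e : FTc D c w * P w * KG e2 e1 v11 v11 w = P w * (FTc D c w * KG e2 e1 v11 v11 w) := by
    ring
  rw [e, norm_mul]
  exact mul_le_mul_of_nonneg_right (hC w) (norm_nonneg _)

open Classical in
private theorem wf_one (I : Ideal D.O) : ∃ C : ℝ, ∀ w : Vec, ‖(if In2 I w then 1 else 0 : ℂ)‖ ≤ C := by
  refine ⟨1, fun w => ?_⟩
  split_ifs
  · rw [norm_one]
  · rw [norm_zero]
    exact zero_le_one

section ded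

variable [IsDedekindDomain D.O] (ψ : Hk D m)

open Classical in
/-- the regulators in terms of the lattice sum of the `χ`-part of the weight -/
theorem sum_psi (hN : Even N) (Q : Lr D N) (S : Rs D N)
    {W : UNL.G N → UNL.G N → ℤ} (ev : ∀ k l, W (-k) l = W k l)
    (anti : ∀ k l, W l k = -W k l) (row : ∀ l, ∑ k, W k l = 0)
    (supp : ∀ k l, W k l ≠ 0 → (N / 2) • k = 0) :
    ∑ p ∈ Q.s, ψ.f (li D p) / ((p.1 : ℕ) : ℂ) ^ 2 * ∑ d ∈ S.s, ψ.hc.f d * ∫ q : UNL.E × UNL.E,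
      UNL.Gen.XReg (lb D p) (fun k l => W (ac d (re p k)) (ac d (re p l)))
        (UNL.cu (lb D p) q.1) (UNL.cu (lb D p) q.2) =
      4 * Complex.I * (N : ℂ) ^ 10 / ((UNL.kap (toU D.a) : ℝ) : ℂ) ^ 2 *
        (starRingEnd ℂ) (TT (fun w => FTc D (pw ψ.hc.br S fun k l => (W k l : ℂ)) w *
          Ph ψ Q.rp w) e2 e1 v11 v11) := by
  have hd : ∀ p ∈ Q.s, ∀ d ∈ S.s, ∫ q : UNL.E × UNL.E,
      UNL.Gen.XReg (lb D p) (fun k l => W (ac d (re p k)) (ac d (re p l)))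
        (UNL.cu (lb D p) q.1) (UNL.cu (lb D p) q.2) =
      4 * Complex.I * (N : ℂ) ^ 10 / ((UNL.kap (toU D.a) : ℝ) : ℂ) ^ 2 * ((p.1 : ℕ) : ℂ) ^ 4 *
        (starRingEnd ℂ) (TT (fun w => FTc D (fun k l => ((W (ac d k) (ac d l) : ℤ) : ℂ)) w *
          (if In2 (ci (li D p)) w then 1 else 0)) e2 e1 v11 v11) := by
    intro p hp d hd
    obtain ⟨t1, t2, t3, t4⟩ := twist (D := D) ev anti row supp (S.cp d hd)
    exact reg_p (D := D) hN t1 t2 t3 t4 (Q.lt p hp)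
  have hT : TT (fun w => FTc D (pw ψ.hc.br S fun k l => (W k l : ℂ)) w * Ph ψ Q.rp w)
      e2 e1 v11 v11 = ∑ p ∈ Q.s, ψ.f (ci (li D p)) * ((p.1 : ℕ) : ℂ) ^ 2 *
        ∑ d ∈ S.s, (starRingEnd ℂ) (ψ.hc.f d) *
        TT (fun w => FTc D (fun k l => ((W (ac d k) (ac d l) : ℤ) : ℂ)) w *
          (if In2 (ci (li D p)) w then 1 else 0)) e2 e1 v11 v11 := by
    unfold TT
    have h0 : ∀ w : Vec, Ph ψ Q.rp w = ∑ p ∈ Q.s, ψ.f (ci (li D p)) * ((p.1 : ℕ) : ℂ) ^ 2 *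
        (if In2 (ci (li D p)) w then 1 else 0) := by
      intro w
      unfold Ph
      rw [Q.sum (fun I => ψ.f I * ((ni I : ℕ) : ℂ) ^ 2 * (if In2 I w then 1 else 0))]
      refine Finset.sum_congr rfl fun p hp => ?_
      rw [ni_ci, ni_li (Q.lt p hp)]
    have h1 : ∀ w : Vec, FTc D (pw ψ.hc.br S fun k l => (W k l : ℂ)) w * Ph ψ Q.rp w *
        KG e2 e1 v11 v11 w =
        ∑ p ∈ Q.s, ∑ d ∈ S.s, ψ.f (ci (li D p)) * ((p.1 : ℕ) : ℂ) ^ 2 *
          (starRingEnd ℂ) (ψ.hc.f d) *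
          (FTc D (fun k l => ((W (ac d k) (ac d l) : ℤ) : ℂ)) w *
            (if In2 (ci (li D p)) w then 1 else 0) * KG e2 e1 v11 v11 w) := by
      intro w
      rw [wf_pw, h0, Finset.mul_sum, Finset.sum_mul]
      refine Finset.sum_congr rfl fun p _ => ?_
      rw [Finset.sum_mul, Finset.sum_mul]
      refine Finset.sum_congr rfl fun d _ => ?_
      ring
    rw [tsum_congr h1, Summable.tsum_finsetSum fun p _ =>
      summable_sum fun d _ => (wf_smI _ _ (wf_one _)).mul_left _]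
    refine Finset.sum_congr rfl fun p _ => ?_
    rw [Summable.tsum_finsetSum fun d _ => (wf_smI _ _ (wf_one _)).mul_left _, Finset.mul_sum]
    refine Finset.sum_congr rfl fun d _ => ?_
    rw [tsum_mul_left]
    ring
  rw [hT, map_sum, Finset.mul_sum]
  refine Finset.sum_congr rfl fun p hp => ?_
  have hA : ((p.1 : ℕ) : ℂ) ≠ 0 := Nat.cast_ne_zero.2 (Q.lt p hp).1.ne'
  rw [Finset.sum_congr rfl fun d hd' => by rw [hd p hp d hd'], map_mul, map_sum, map_mul,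
    psi_ci, Complex.conj_conj, map_pow, Complex.conj_natCast, Finset.mul_sum, Finset.mul_sum,
    Finset.mul_sum]
  refine Finset.sum_congr rfl fun d _ => ?_
  rw [map_mul, Complex.conj_conj]
  field_simp

/-- from a value of the lattice sum to a value of the regulators -/
theorem val_psi {L : ℂ → ℂ}
    (hd : deriv L (-1) = -(6 * du m ψ.hc.f 1 * ((m * (UNI.om D.a).im / Real.pi) ^ 5 : ℝ)) *
      Eps ψ) : ∃ ρ₀ ∈ D.K, ρ₀ ≠ 0 ∧ ∀ k : ℂ,
    4 * Complex.I * (N : ℂ) ^ 10 / ((UNL.kap (toU D.a) : ℝ) : ℂ) ^ 2 *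
      (starRingEnd ℂ) (k * Lps ψ) =
      (2 * Real.pi) ^ 3 * (ρ₀ * (starRingEnd ℂ) k) * deriv L (-1) := by
  have hτ := ψ.hc.tau_K
  have hτ0 := ψ.hc.tau_ne
  set τ : ℂ := du m ψ.hc.f 1 with hτd
  have hLa : (starRingEnd ℂ) (Lps ψ) = Eps ψ := Lps_conj ψ
  set y : ℝ := (UNI.om D.a).im with hy
  have hy0 : 0 < y := UNI.om_im_pos D.a
  have hAr : ((toU D.a).A : ℝ) = 1 := by simp [toU]
  have hA : ((toU D.a).A : ℂ) = 1 := by simp [toU]
  have hsy : UNL.sD (toU D.a) = 2 * y := by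
    have h1 := UNL.tau_im (toU D.a)
    rw [tau_toU, hAr, ← hy] at h1
    rw [h1]
    ring
  have hsq : ((y : ℝ) : ℂ) ^ 2 ∈ D.K := by
    have h1 := UNL.sD_sq (toU D.a)
    rw [hsy] at h1
    have e : ((y : ℝ) : ℂ) ^ 2 =
        ((4 * (toU D.a).A * (toU D.a).C - (toU D.a).B ^ 2 : ℤ) : ℂ) / ((4 : ℕ) : ℂ) := by
      have h2 : ((y ^ 2 : ℝ) : ℂ) = ((4 * ((toU D.a).A : ℝ) * (toU D.a).C -
          ((toU D.a).B : ℝ) ^ 2 : ℝ) : ℂ) / 4 := by
        rw [← h1]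
        push_cast
        ring
      rw [← Complex.ofReal_pow, h2]
      push_cast
      ring
    rw [e]
    exact D.K.div_mem (RNP.O_sub_K (RNP.int_O _)) (RNP.O_sub_K (RNP.nat_O 4))
  have hI : ((y : ℝ) : ℂ) * Complex.I ∈ D.K := by
    have h4 := UNL.two_A_tau (toU D.a)
    have h5 : UNL.tau (toU D.a) ∈ D.K := by
      rw [tau_toU]
      exact RNP.O_sub_K (D := D) ⟨(0, 1), by simp [UNI.xx]⟩
    have e : ((y : ℝ) : ℂ) * Complex.I =
        UNL.tau (toU D.a) - ((toU D.a).B : ℂ) / ((2 : ℕ) : ℂ) := by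
      rw [hA, hsy] at h4
      push_cast at h4 ⊢
      linear_combination -(1 / 2 : ℂ) * h4
    rw [e]
    exact D.K.sub_mem h5 (D.K.div_mem (RNP.O_sub_K (RNP.int_O _)) (RNP.O_sub_K (RNP.nat_O 2)))
  have hyc : ((y : ℝ) : ℂ) ≠ 0 := by exact_mod_cast hy0.ne'
  have hpi : (Real.pi : ℂ) ≠ 0 := by exact_mod_cast Real.pi_ne_zero
  have hm : (m : ℂ) ≠ 0 := Nat.cast_ne_zero.2 (NeZero.ne m)
  have hN : (N : ℂ) ≠ 0 := Nat.cast_ne_zero.2 (NeZero.ne N)
  have hkap : ((UNL.kap (toU D.a) : ℝ) : ℂ) = Real.pi / ((y : ℝ) : ℂ) := by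
    unfold UNL.kap
    rw [hAr, hsy]
    push_cast
    field_simp
  refine ⟨-((N : ℂ) ^ 10 * (((y : ℝ) : ℂ) * Complex.I)) /
    (((12 : ℕ) : ℂ) * τ * (m : ℂ) ^ 5 * (((y : ℝ) : ℂ) ^ 2) ^ 2), ?_, ?_, ?_⟩
  · refine D.K.div_mem (D.K.neg_mem (D.K.mul_mem (pow_mem (RNP.O_sub_K (RNP.nat_O N)) 10) hI))
      (D.K.mul_mem (D.K.mul_mem (D.K.mul_mem (RNP.O_sub_K (RNP.nat_O 12)) hτ)
        (pow_mem (RNP.O_sub_K (RNP.nat_O m)) 5)) (pow_mem hsq 2))
  · refine div_ne_zero (neg_ne_zero.2 (mul_ne_zero (pow_ne_zero _ hN)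
      (mul_ne_zero hyc Complex.I_ne_zero))) ?_
    exact mul_ne_zero (mul_ne_zero (mul_ne_zero (by norm_num) hτ0) (pow_ne_zero _ hm))
      (pow_ne_zero _ (pow_ne_zero _ hyc))
  · intro k
    rw [hd, map_mul, hLa, hkap]
    push_cast
    field_simp
    ring

theorem int_psi (hN : Even N) (hm : m ∣ N) (Q : Lr D N) (S : Rs D N)
    {W : UNL.G N → UNL.G N → ℤ} (ev : ∀ k l, W (-k) l = W k l)
    (anti : ∀ k l, W l k = -W k l) (row : ∀ l, ∑ k, W k l = 0)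
    (supp : ∀ k l, W k l ≠ 0 → (N / 2) • k = 0)
    (hW : ∃ (M : ℕ) (_ : NeZero M), N ∣ M ∧ RNE.CWt (toU D.a) M (up W : UNL.G M → UNL.G M → ℤ))
    {L : ℂ → ℂ}
    (hd : deriv L (-1) = -(6 * du m ψ.hc.f 1 * ((m * (UNI.om D.a).im / Real.pi) ^ 5 : ℝ)) *
      Eps ψ) :
    ∃ ρ ∈ D.K, ∑ p ∈ Q.s, ψ.f (li D p) / ((p.1 : ℕ) : ℂ) ^ 2 * ∑ d ∈ S.s, ψ.hc.f d *
      ∫ q : UNL.E × UNL.E, UNL.Gen.XReg (lb D p) (fun k l => W (ac d (re p k)) (ac d (re p l)))
        (UNL.cu (lb D p) q.1) (UNL.cu (lb D p) q.2) =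
      (2 * Real.pi) ^ 3 * ρ * deriv L (-1) := by
  obtain ⟨M, hM0, hNM, hWM⟩ := hW
  obtain ⟨S', -, -, -⟩ := chars D M
  obtain ⟨R⟩ := rp_ex (D := D) (NeZero.pos M)
  obtain ⟨k, hk, e⟩ := tri_W ψ (hm.trans hNM) S' R hWM
  obtain ⟨ρ₀, h0, -, h1⟩ := val_psi (N := N) ψ hd
  have hc1 : (S.s.card : ℂ) ≠ 0 := Nat.cast_ne_zero.2 (card_pos S).ne'
  have hc2 : (S'.s.card : ℂ) ≠ 0 := Nat.cast_ne_zero.2 (card_pos S').ne'
  have g1 : ∀ w, FTc D (pw ψ.hc.br S fun k l => (W k l : ℂ)) w =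
      (S.s.card : ℂ) / S'.s.card *
        FTc D (pw ψ.hc.br S' fun k l : UNL.G M => ((up W k l : ℤ) : ℂ)) w := by
    intro w
    have h2 := pw_up (V := W) ψ.hc.br hm hNM S S' w
    field_simp
    linear_combination -h2
  have hE : Eqv ψ.hc.br (pw ψ.hc.br S fun k l => (W k l : ℂ)) :=
    pw_eqv ψ.hc.br hm S fun k l => intCast_mem D.K _
  obtain ⟨V0, hV0, hf⟩ := FTc_Fn ψ.hc.br hm hE
  have g2 : TT (fun w => FTc D (pw ψ.hc.br S fun k l => (W k l : ℂ)) w * Ph ψ Q.rp w)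
      e2 e1 v11 v11 = (S.s.card : ℂ) / S'.s.card * (k * Lps ψ) := by
    rw [tt_change0 ψ hm hV0 hf (fun x hx w hw => FTc_eqv ψ.hc.br hm hE hx hw) Q.rp
      (R.dn hNM) RNP.Cu_e2 RNP.Cu_e1 RNP.Cu_v11 RNP.Cu_v11.1, ← e]
    unfold TT
    rw [← tsum_mul_left]
    refine tsum_congr fun w => ?_
    show FTc D (pw ψ.hc.br S fun k l => (W k l : ℂ)) w * Ph ψ R w * _ = _
    rw [g1]
    ring
  refine ⟨ρ₀ * (starRingEnd ℂ) ((S.s.card : ℂ) / S'.s.card * k), D.K.mul_mem h0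
    (RNP.cj_K (D.K.mul_mem (D.K.div_mem (natCast_mem D.K _) (natCast_mem D.K _)) hk)), ?_⟩
  rw [sum_psi ψ hN Q S ev anti row supp, g2, ← mul_assoc _ k, h1]

end ded

end

end RNG
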