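import Pool.Agent.RNG.Hwx
import Pool.Agent.RNG.Wfg
import Pool.Agent.RNK.Wn
import Pool.Agent.RNK.Wc

/-!
# RNG.Hcx: the weight `Ww` is closed (the proof of `RNE/Hc`)
-/

open RNK

namespace RNG

section closed

open UNI (sh)
open UNL (nz Lx av gc nz_mem gc_mem nz_sum)

noncomputable section

/-! ### multiplication by an element dividing `N` -/

private theorem hc_lin (b : UNL.Par) {x y : ℤ} (h : (x : ℂ) + y * UNL.alp b = 0) :
    x = 0 ∧ y = 0 := by
  have h1 := congrArg (starRingEnd ℂ) h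
  simp only [map_add, map_mul, map_intCast, map_zero] at h1
  have h2 : (y : ℂ) * (UNL.alp b - (starRingEnd ℂ) (UNL.alp b)) = 0 := by
    linear_combination h - h1
  have h3 : UNL.alp b - (starRingEnd ℂ) (UNL.alp b) ≠ 0 := by
    have h4 := UNL.alp_sub b
    rw [UNL.cj] at h4
    rw [h4]
    refine mul_ne_zero ?_ Complex.I_ne_zero
    have h5 := UNL.sD_pos b
    exact_mod_cast h5.ne'
  have h4 : (y : ℂ) = 0 := (mul_eq_zero.1 h2).resolve_right h3
  rw [h4, zero_mul, add_zero] at h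
  exact ⟨by exact_mod_cast h, by exact_mod_cast h4⟩

private theorem hc_eqs (b : UNL.Par) {N : ℕ} {d d' : ℤ × ℤ}
    (h : UNL.de b d * UNL.de b d' = N) :
    d.1 * d'.1 - b.A * b.C * (d.2 * d'.2) = N ∧
      d.1 * d'.2 + d.2 * d'.1 + b.B * (d.2 * d'.2) = 0 := by
  have h1 := UNL.alp_sq b
  have h2 : ((d.1 * d'.1 - b.A * b.C * (d.2 * d'.2) - N : ℤ) : ℂ) +
      ((d.1 * d'.2 + d.2 * d'.1 + b.B * (d.2 * d'.2) : ℤ) : ℂ) * UNL.alp b = 0 := by
    simp only [UNL.de] at h
    push_cast at h1 ⊢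
    linear_combination h - ((d.2 : ℂ) * d'.2) * h1
  obtain ⟨h3, h4⟩ := hc_lin b h2
  exact ⟨by linarith, h4⟩

/-- the matrix of the multiplication -/
private def hcM (b : UNL.Par) (d : ℤ × ℤ) : UNL.M2 :=
  ⟨d.1, -(b.C * d.2), b.A * d.2, d.1 + b.B * d.2⟩

private theorem hcM_az (b : UNL.Par) (d : ℤ × ℤ) {N : ℕ} (k : UNL.G N) :
    (hcM b d).az k = UNL.sm b d k := by
  refine Prod.ext ?_ ?_
  · simp only [UNL.M2.az, hcM, UNL.sm]
    push_cast
    ring
  · simp only [UNL.M2.az, hcM, UNL.sm]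
    push_cast
    ring

private theorem hcM_det (b : UNL.Par) (d : ℤ × ℤ) : (hcM b d).det = Nd b d := by
  simp only [UNL.M2.det, hcM, Nd]
  ring

private theorem hcM_comp (b : UNL.Par) {N : ℕ} {d d' : ℤ × ℤ}
    (h : UNL.de b d * UNL.de b d' = N) (j : ℤ × ℤ) :
    (hcM b d).ai ((hcM b d').ai j) = (N : ℤ) • j := by
  obtain ⟨h1, h2⟩ := hc_eqs b h
  refine Prod.ext ?_ ?_
  · simp only [UNL.M2.ai, hcM, Prod.smul_fst, smul_eq_mul]
    linear_combination j.1 * h1 - b.C * j.2 * h2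
  · simp only [UNL.M2.ai, hcM, Prod.smul_snd, smul_eq_mul]
    linear_combination j.2 * h1 + (b.A * j.1 + b.B * j.2) * h2

private theorem hc_Nd_pos (b : UNL.Par) {N : ℕ} [NeZero N] {d d' : ℤ × ℤ}
    (h : UNL.de b d * UNL.de b d' = N) : 0 < Nd b d := by
  have hD := b.hD
  have h1 : 4 * Nd b d = (2 * d.1 + b.B * d.2) ^ 2 + (4 * b.A * b.C - b.B ^ 2) * d.2 ^ 2 := by
    simp only [Nd]
    ring
  by_contra hc
  have h2 : (2 * d.1 + b.B * d.2) ^ 2 + (4 * b.A * b.C - b.B ^ 2) * d.2 ^ 2 ≤ 0 := by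
    rw [← h1]
    linarith
  have h3 : 0 < 4 * b.A * b.C - b.B ^ 2 := by linarith
  have h4 : d.2 = 0 := by
    by_contra h5
    have h6 : 0 < d.2 ^ 2 := by positivity
    have h7 := mul_pos h3 h6
    have h8 := sq_nonneg (2 * d.1 + b.B * d.2)
    linarith
  have h5 : d.1 = 0 := by
    rw [h4] at h2
    have h6 : (2 * d.1) ^ 2 ≤ 0 := by nlinarith
    have h7 : (2 * d.1) ^ 2 = 0 := le_antisymm h6 (sq_nonneg _)
    have h8 := pow_eq_zero_iff (two_ne_zero) |>.1 h7
    linarith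
  have h6 : UNL.de b d = 0 := by
    simp only [UNL.de, h4, h5]
    simp
  rw [h6, zero_mul] at h
  have h7 : (N : ℂ) ≠ 0 := Nat.cast_ne_zero.2 (NeZero.ne N)
  exact h7 h.symm

private theorem hc_card_ker {N : ℕ} [NeZero N] (m m' : UNL.M2) (h : m.det ≠ 0)
    (hm : ∀ j : ℤ × ℤ, m.ai (m'.ai j) = (N : ℤ) • j) :
    Nat.card (m.azh N).ker = m.det.natAbs := by
  have h1 : Nat.card (m.azh N).ker * Nat.card (m.azh N).range = Nat.card (ZMod N × ZMod N) := by
    rw [← AddSubgroup.index_ker]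
    exact AddSubgroup.card_mul_index _
  have h2 : Nat.card (m.azh N).range * (m.azh N).range.index = Nat.card (ZMod N × ZMod N) :=
    AddSubgroup.card_mul_index _
  have h3 : 0 < Nat.card (m.azh N).range := Nat.card_pos
  have h4 : Nat.card (m.azh N).ker = (m.azh N).range.index := by
    refine Nat.eq_of_mul_eq_mul_left h3 ?_
    rw [h2, ← h1, mul_comm]
  rw [h4, ← m.index_range h, ← AddSubgroup.index_comap_of_surjective _ (UNL.M2.rd_surj N)]
  congr 1
  ext v
  constructor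
  · rintro ⟨k, hk⟩
    obtain ⟨k', rfl⟩ := UNL.M2.rd_surj N k
    rw [UNL.M2.azh_apply, UNL.M2.az_rd] at hk
    have h5 : UNL.M2.rd N (v - m.ai k') = 0 := by rw [map_sub, hk, sub_self]
    obtain ⟨j, hj⟩ := UNL.M2.rd_eq_zero.1 h5
    refine ⟨k' + m'.ai j, ?_⟩
    have h6 : m.ai (k' + m'.ai j) = m.ai k' + m.ai (m'.ai j) :=
      m.ail.map_add _ _
    rw [UNL.M2.ail_apply, h6, hm, ← hj]
    abel
  · rintro ⟨k, rfl⟩
    exact ⟨UNL.M2.rd N k, by rw [UNL.M2.azh_apply, UNL.M2.az_rd]; rfl⟩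

private theorem hc_fib (b : UNL.Par) {N : ℕ} [NeZero N] {q q' : ℤ × ℤ}
    (hq : UNL.de b q * UNL.de b q' = N) {m : UNL.G N} (hm : ∃ k, UNL.sm b q k = m) :
    ((Finset.univ.filter (fun k : UNL.G N => UNL.sm b q k = m)).card : ℤ) = Nd b q := by
  obtain ⟨k0, hk0⟩ := hm
  have h3 : (Finset.univ.filter (fun k : UNL.G N => UNL.sm b q k = m)).card =
      Nat.card ((hcM b q).azh N).ker := by
    rw [Nat.card_eq_fintype_card, ← Fintype.card_subtype]
    refine Fintype.card_congr ⟨fun k => ⟨k.1 - k0, ?_⟩, fun k => ⟨k.1 + k0, ?_⟩, ?_, ?_⟩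
    · rw [AddMonoidHom.mem_ker, map_sub, UNL.M2.azh_apply, UNL.M2.azh_apply, hcM_az, hcM_az, k.2,
        hk0, sub_self]
    · have := (AddMonoidHom.mem_ker.1 k.2)
      rw [← hcM_az, ← UNL.M2.azh_apply, map_add, this, UNL.M2.azh_apply, hcM_az, hk0, zero_add]
    · intro k; simp
    · intro k; simp
  have hp := hc_Nd_pos b hq
  rw [h3, hc_card_ker (hcM b q) (hcM b q') (by rw [hcM_det]; exact hp.ne') (hcM_comp b hq), hcM_det,
    Int.natAbs_of_nonneg hp.le]

/-! ### the sum of a relation against a function -/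

open Classical in
private theorem hc_sum (b : UNL.Par) {N : ℕ} [NeZero N] {R : Type*} [AddCommGroup R] [Module ℚ R]
    (q : ℤ × ℤ) (c : UNL.G N → ℚ) (g : UNL.G N → R) :
    ∑ k : UNL.G N, Rl b q c k • g k =
      ∑ m ∈ Finset.univ.filter (fun m : UNL.G N => ∃ k, UNL.sm b q k = m),
        c m • ((∑ k ∈ Finset.univ.filter (fun k : UNL.G N => UNL.sm b q k = m), g k) - g m) := by
  have h1 : ∑ k : UNL.G N, c (UNL.sm b q k) • g k =
      ∑ m ∈ Finset.univ.filter (fun m : UNL.G N => ∃ k, UNL.sm b q k = m),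
        c m • ∑ k ∈ Finset.univ.filter (fun k : UNL.G N => UNL.sm b q k = m), g k := by
    rw [← Finset.sum_fiberwise Finset.univ (fun k : UNL.G N => UNL.sm b q k)
      (fun k => c (UNL.sm b q k) • g k)]
    rw [Finset.sum_filter]
    refine Finset.sum_congr rfl fun m _ => ?_
    split_ifs with hm
    · rw [Finset.smul_sum]
      refine Finset.sum_congr rfl fun k hk => ?_
      rw [(Finset.mem_filter.1 hk).2]
    · refine Finset.sum_eq_zero fun k hk => ?_
      exact absurd ⟨k, (Finset.mem_filter.1 hk).2⟩ hm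
  have h2 : ∑ k : UNL.G N, (if ∃ m : UNL.G N, UNL.sm b q m = k then c k else 0) • g k =
      ∑ m ∈ Finset.univ.filter (fun m : UNL.G N => ∃ k, UNL.sm b q k = m), c m • g m := by
    rw [Finset.sum_filter]
    refine Finset.sum_congr rfl fun m _ => ?_
    split_ifs with hm
    · rfl
    · rw [zero_smul]
  simp only [Rl, sub_smul, Finset.sum_sub_distrib, smul_sub]
  rw [h1, ← h2]
  congr!

open Classical in
/-- the sum over the image -/
private def hcS (b : UNL.Par) {N : ℕ} [NeZero N] (q : ℤ × ℤ) (c : UNL.G N → ℚ) : ℚ :=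
  ∑ m ∈ Finset.univ.filter (fun m : UNL.G N => ∃ k, UNL.sm b q k = m), c m

private theorem hc_relQ (b : UNL.Par) {N : ℕ} [NeZero N] {q q' : ℤ × ℤ}
    (hq : UNL.de b q * UNL.de b q' = N) (c : UNL.G N → ℚ) :
    ∑ k : UNL.G N, Rl b q c k = ((Nd b q : ℤ) - 1 : ℚ) * hcS b q c := by
  classical
  have h := hc_sum b q c (fun _ : UNL.G N => (1 : ℚ))
  simp only [smul_eq_mul, mul_one] at h
  rw [h, hcS, Finset.mul_sum]
  refine Finset.sum_congr rfl fun m hm => ?_
  have h1 := hc_fib b hq (m := m) (by simpa using (Finset.mem_filter.1 hm).2)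
  rw [Finset.sum_const, nsmul_eq_mul, mul_one]
  have h2 : ((Finset.univ.filter (fun k : UNL.G N => UNL.sm b q k = m)).card : ℚ) =
      ((Nd b q : ℤ) : ℚ) := by
    rw [← h1]
    push_cast
    congr!
  rw [h2]
  ring

private theorem hc_relR (b : UNL.Par) {N : ℕ} [NeZero N] {R : Type*} [Ring R] [Algebra ℚ R]
    (hat : Additive (UNL.Gn b N → ℂˣ) →+ R) {q q' : ℤ × ℤ}
    (hq : UNL.de b q * UNL.de b q' = N) (c : UNL.G N → ℚ) (c0 : c 0 = 0) :
    ∑ k : UNL.G N, Rl b q c k • UNL.gc hat k = hcS b q c • Cst hat q := by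
  classical
  obtain ⟨CA, hCA⟩ := UNL.dist_gc hat q q' hq
  have h0 := hCA 0 ⟨0, by simp [UNL.sm]⟩
  rw [UNL.gc_zero, zero_add, if_pos rfl] at h0
  have hC : Cst hat q = CA := by
    rw [Cst]
    refine sub_eq_of_eq_add ?_
    convert h0
  rw [hc_sum b q c (fun k => UNL.gc hat k), hcS, Finset.sum_smul]
  refine Finset.sum_congr rfl fun m hm => ?_
  by_cases hm0 : m = 0
  · rw [hm0, c0, zero_smul, zero_smul]
  · have h1 := hCA m (by simpa using (Finset.mem_filter.1 hm).2)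
    rw [if_neg hm0, add_zero] at h1
    have h2 : (∑ k ∈ Finset.univ.filter (fun k : UNL.G N => UNL.sm b q k = m), UNL.gc hat k) =
        UNL.gc hat m + CA := by
      convert h1
    rw [h2, hC, add_sub_cancel_left]

/-! ### the total mass -/

private theorem hc_diag {b : UNL.Par} {N : ℕ} [NeZero N] {W : UNL.G N → UNL.G N → ℤ}
    (hW : RNE.CWt b N W) (l : UNL.G N) : ∑ k : UNL.G N, W k (k + l) = 0 := by
  have ev2 : ∀ x y, W x (-y) = W x y := fun x y => by
    rw [hW.anti (-y) x, hW.ev, ← hW.anti y x]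
  have h1 : ∑ k : UNL.G N, W k (k + l) = -∑ k : UNL.G N, W (k + l) k := by
    rw [← Finset.sum_neg_distrib]
    exact Finset.sum_congr rfl fun k _ => hW.anti (k + l) k
  have h2 : ∑ k : UNL.G N, W (k + l) k = ∑ k : UNL.G N, W k (k + l) := by
    rw [← Equiv.sum_comp ((Equiv.neg (UNL.G N)).trans (Equiv.addRight (-l)))
      (fun k : UNL.G N => W (k + l) k)]
    refine Finset.sum_congr rfl fun k _ => ?_
    have e1 : ((Equiv.neg (UNL.G N)).trans (Equiv.addRight (-l))) k = -(k + l) := by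
      simp
      abel
    rw [e1, ev2]
    have e2 : -(k + l) + l = -k := by abel
    rw [e2, hW.ev]
  rw [h2] at h1
  linarith

private theorem hc_Al {b : UNL.Par} {N : ℕ} [NeZero N] {W : UNL.G N → UNL.G N → ℤ}
    (hW : RNE.CWt b N W) (l : UNL.G N) : ∑ k : UNL.G N, Al W l k = 0 := by
  simp only [Al, Finset.sum_sub_distrib]
  have h1 := hW.row l
  have h2 := hc_diag hW l
  have h3 : ∑ k : UNL.G N, (W k l : ℚ) = 0 := by exact_mod_cast h1
  have h4 : ∑ k : UNL.G N, (W k (k + l) : ℚ) = 0 := by exact_mod_cast h2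
  rw [h3, h4, sub_zero]

/-- the even part against an even function -/
private theorem hc_even {N : ℕ} [NeZero N] {R : Type*} [AddCommGroup R] [Module ℚ R]
    (A : UNL.G N → ℚ) {g : UNL.G N → R} (gn : ∀ k, g (-k) = g k) :
    ∑ k : UNL.G N, (A k + A (-k)) • g k = (2 : ℚ) • ∑ k : UNL.G N, A k • g k := by
  have h : ∑ k : UNL.G N, A (-k) • g k = ∑ k : UNL.G N, A k • g k := by
    rw [← Equiv.sum_comp (Equiv.neg (UNL.G N)) (fun k => A k • g k)]
    exact Finset.sum_congr rfl fun k _ => by rw [Equiv.neg_apply, gn]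
  simp only [add_smul, Finset.sum_add_distrib, h, two_smul]

private theorem hc_exp {b : UNL.Par} {N : ℕ} [NeZero N] {W : UNL.G N → UNL.G N → ℤ}
    {R : Type*} [AddCommGroup R] [Module ℚ R] {J : ℕ} {q : Fin J → ℤ × ℤ}
    {c : Fin J → UNL.G N → UNL.G N → ℚ}
    (hA : ∀ l k, Al W l k + Al W l (-k) = ∑ j, (Rl b (q j) (c j l) k + Rl b (q j) (c j l) (-k)))
    {g : UNL.G N → R} (gn : ∀ k, g (-k) = g k) (l : UNL.G N) :
    ∑ k : UNL.G N, Al W l k • g k = ∑ j, ∑ k : UNL.G N, Rl b (q j) (c j l) k • g k := by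
  have h1 : (2 : ℚ) • ∑ k : UNL.G N, Al W l k • g k =
      (2 : ℚ) • ∑ j, ∑ k : UNL.G N, Rl b (q j) (c j l) k • g k := by
    rw [← hc_even _ gn]
    simp only [hA, Finset.sum_smul]
    rw [Finset.sum_comm, Finset.smul_sum]
    exact Finset.sum_congr rfl fun j _ => hc_even _ gn
  exact smul_right_injective R (two_ne_zero : (2 : ℚ) ≠ 0) h1

private theorem hc_K_gen {b : UNL.Par} {N : ℕ} [NeZero N] {W : UNL.G N → UNL.G N → ℤ} (hW : RNE.CWt b N W)
    {R : Type*} [Ring R] [Algebra ℚ R] (hat : Additive (UNL.Gn b N → ℂˣ) →+ R)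
    (l : UNL.G N) : ∑ k : UNL.G N, (W k l - W k (k + l)) • UNL.gc hat k = 0 := by
  have hN0 : 0 < N := Nat.pos_of_ne_zero (NeZero.ne N)
  obtain ⟨J, q, q', c, hq, c0, hA⟩ := hW.cl
  have e0 : ∑ k : UNL.G N, (W k l - W k (k + l)) • gc hat k =
      ∑ k : UNL.G N, Al W l k • gc hat k := by
    refine Finset.sum_congr rfl fun k _ => ?_
    rw [Al, ← Int.cast_sub, Int.cast_smul_eq_zsmul]
  rw [e0]
  by_cases hN1 : N = 1
  · subst hN1
    refine Finset.sum_eq_zero fun k _ => ?_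
    rw [Subsingleton.elim k 0, UNL.gc_zero, smul_zero]
  have h2N : 2 ≤ N := by omega
  have e1 := hc_exp hA (UNL.gc_neg hat hN0) l
  have e2 := hc_exp (R := ℚ) hA (g := fun _ => 1) (fun _ => rfl) l
  simp only [smul_eq_mul, mul_one] at e2
  rw [hc_Al hW l] at e2
  have e3 : ∀ j, ∑ k : UNL.G N, Rl b (q j) (c j l) k • gc hat k =
      hcS b (q j) (c j l) • Cst hat (q j) := fun j => hc_relR b hat (hq j) _ (c0 j l)
  have e4 : ∀ j, ∑ k : UNL.G N, Rl b (q j) (c j l) k =
      ((Nd b (q j) : ℤ) - 1 : ℚ) * hcS b (q j) (c j l) := fun j => hc_relQ b (hq j) _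
  simp only [e4] at e2
  rw [e1]
  simp only [e3]
  have hE : UNL.de b ((N : ℤ), 0) * UNL.de b (1, 0) = (N : ℂ) := by
    simp [UNL.de]
  have h5 : ∀ j, (((N : ℚ) ^ 2 - 1)) • Cst hat (q j) =
      ((Nd b (q j) : ℤ) - 1 : ℚ) • Cst hat ((N : ℤ), 0) := by
    intro j
    have h6 := const_rel hat ((N : ℤ), 0) (1, 0) (q j) (q' j) hE (hq j)
    have h7 : Nd b ((N : ℤ), 0) = (N : ℤ) ^ 2 := by simp [Nd]
    rw [h7] at h6
    have h8 : (((N : ℤ) ^ 2 - 1 : ℤ) : ℚ) • Cst hat (q j) =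
        ((Nd b (q j) - 1 : ℤ) : ℚ) • Cst hat ((N : ℤ), 0) := by
      rw [Int.cast_smul_eq_zsmul, Int.cast_smul_eq_zsmul]
      exact h6
    push_cast at h8
    exact h8
  have h9 : ((N : ℚ) ^ 2 - 1) • ∑ j, hcS b (q j) (c j l) • Cst hat (q j) = 0 := by
    rw [Finset.smul_sum]
    have h10 : ∀ j, ((N : ℚ) ^ 2 - 1) • (hcS b (q j) (c j l) • Cst hat (q j)) =
        (((Nd b (q j) : ℤ) - 1 : ℚ) * hcS b (q j) (c j l)) • Cst hat ((N : ℤ), 0) := by
      intro j
      rw [smul_comm, h5 j, smul_smul, mul_comm]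
    simp only [h10]
    rw [← Finset.sum_smul, ← e2, zero_smul]
  have h11 : ((N : ℚ) ^ 2 - 1) ≠ 0 := by
    have h12 : (2 : ℚ) ≤ N := by exact_mod_cast h2N
    nlinarith
  exact (smul_eq_zero.1 h9).resolve_left h11

private theorem hc_closed {b : UNL.Par} {N : ℕ} [NeZero N] (hN : Even N)
    {W : UNL.G N → UNL.G N → ℤ} (hW : RNE.CWt b N W)
    (Φ : (Additive (UNL.Gn b N → ℂˣ)) [⋀^Fin 4]→ₗ[ℤ] ℂ) : UNL.bdry b W Φ = 0 := by
  obtain ⟨R, iR, iA, hat, lam, hsq, hlam⟩ := UNI.ext_ring Φ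
  have hN0 : 0 < N := Nat.pos_of_ne_zero (NeZero.ne N)
  have h1 : ∀ s t : UNL.G N, UNL.xi b (W : UNL.G N → UNL.G N → ℤ) (fun F g h =>
      Φ ![UNL.cl b N (UNL.tr b s t (fun u v => 1 - F u v)), UNL.cl b N (UNL.tr b s t F),
        UNL.cl b N (UNL.tr b s t g), UNL.cl b N (UNL.tr b s t h)]) =
      lam (UNI.dl W (sh (nz (Lx hat (fun u _ => u))) s) (sh (nz (Lx hat (fun _ v => v))) t)
      (sh (nz (Lx hat (fun u v => u - v))) (s - t)) (sh (nz (Lx hat (fun u v => u + v))) (s + t))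
      (gc hat) (av (Lx hat (fun u v => u + v)) + av (Lx hat (fun u v => u - v)) -
        2 * av (Lx hat (fun u _ => u)) - 2 * av (Lx hat (fun _ v => v)))) := by
    intro s t
    rw [← UNL.xi_dl hat hsq, ← UNL.xi_map]
    simp only [UNL.co, hlam]
  unfold UNL.bdry
  simp_rw [h1]
  simp only [← map_sum]
  have h2 : ∀ eps : R, ∑ s : UNL.G N, ∑ t : UNL.G N,
      UNI.dl W (sh (nz (Lx hat (fun u _ => u))) s) (sh (nz (Lx hat (fun _ v => v))) t)
      (sh (nz (Lx hat (fun u v => u - v))) (s - t)) (sh (nz (Lx hat (fun u v => u + v))) (s + t))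
      (gc hat) eps = 0 := by
    intro eps
    refine UNI.form (UNL.Lt hat).toAddSubgroup (fun x hx => UNL.Lt_sq hat hsq hx)
      _ _ _ _ _ (fun k => nz_mem hat _ k) (fun k => nz_mem hat _ k) (fun k => nz_mem hat _ k)
      (fun k => gc_mem hat k) eps (nz_sum _) (nz_sum _) (nz_sum _) (UNL.gc_neg hat hN0) W
      hW.ev hW.anti hW.row ?_ (hc_K_gen hW hat)
    intro k l h
    have h2 := hW.supp k l h
    obtain ⟨M, hM⟩ := hN
    have key : ∀ x : ZMod N, ((N / 2 : ℕ) : ZMod N) * x = 0 → ∃ y : ZMod N, x = y + y := by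
      intro x hx
      have h3 : ((N / 2 * x.val : ℕ) : ZMod N) = 0 := by
        push_cast
        rw [ZMod.natCast_zmod_val]
        exact hx
      rw [ZMod.natCast_eq_zero_iff] at h3
      have h4 : N / 2 = M := by omega
      rw [h4] at h3
      have hM0 : 0 < M := by omega
      have h5 : M * 2 ∣ M * x.val := by
        have : M * 2 = N := by omega
        rw [this]
        exact h3
      obtain ⟨y, hy⟩ := (Nat.mul_dvd_mul_iff_left hM0).1 h5
      refine ⟨(y : ZMod N), ?_⟩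
      have h6 : x = ((x.val : ℕ) : ZMod N) := (ZMod.natCast_zmod_val x).symm
      rw [h6, hy]
      push_cast
      ring
    have e1 : ((N / 2 : ℕ) : ZMod N) * k.1 = 0 := by
      have := congrArg Prod.fst h2
      simpa using this
    have e2 : ((N / 2 : ℕ) : ZMod N) * k.2 = 0 := by
      have := congrArg Prod.snd h2
      simpa using this
    obtain ⟨y1, hy1⟩ := key _ e1
    obtain ⟨y2, hy2⟩ := key _ e2
    exact ⟨(y1, y2), Prod.ext hy1 hy2⟩
  rw [h2]
  exact map_zero lam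


end

end closed

variable {D : RNP.OD} {N : ℕ} [NeZero N]

theorem closed_b (b : UNL.Par) (hN : Even N) {W : UNL.G N → UNL.G N → ℤ} (hW : RNE.CWt b N W)
    (Φ : (Additive (UNL.Gn b N → ℂˣ)) [⋀^Fin 4]→ₗ[ℤ] ℂ) : UNL.bdry b W Φ = 0 :=
  hc_closed hN hW Φ

theorem closed_t (hN : Even N) {W : UNL.G N → UNL.G N → ℤ} (hW : RNE.CWt (toU D.a) N W)
    (Φ : (Additive (UNL.Gn (toU D.a) N → ℂˣ)) [⋀^Fin 4]→ₗ[ℤ] ℂ) :
    UNL.bdry (toU D.a) W Φ = 0 :=
  hc_closed hN hW Φ

/-! ### the twisted weights -/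

private theorem hc_sm_comm (b : UNL.Par) (d e : ℤ × ℤ) (k : UNL.G N) :
    UNL.sm b d (UNL.sm b e k) = UNL.sm b e (UNL.sm b d k) := by
  unfold UNL.sm
  ext
  · push_cast
    ring
  · push_cast
    ring

private theorem hc_Rl_tw {q : ℤ × ℤ} {d : D.O} (hd : Cp N d) (c : UNL.G N → ℚ)
    (k : UNL.G N) : Rl (toU D.a) q (fun m => c (ac d m)) k =
      Rl (toU D.a) q c (ac d k) := by
  classical
  obtain ⟨e, -, he⟩ := Cp_inv hd
  have h : (∃ m : UNL.G N, UNL.sm (toU D.a) q m = ac d k) ↔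
      ∃ m : UNL.G N, UNL.sm (toU D.a) q m = k := by
    constructor
    · rintro ⟨m, hm⟩
      refine ⟨ac e m, ?_⟩
      have h1 : UNL.sm (toU D.a) q (ac e m) = ac e (UNL.sm (toU D.a) q m) :=
        hc_sm_comm _ _ _ _
      rw [h1, hm]
      exact (he k).1
    · rintro ⟨m, hm⟩
      refine ⟨ac d m, ?_⟩
      have h1 : UNL.sm (toU D.a) q (ac d m) = ac d (UNL.sm (toU D.a) q m) :=
        hc_sm_comm _ _ _ _
      rw [h1, hm]
  have h2 : UNL.sm (toU D.a) q (ac d k) = ac d (UNL.sm (toU D.a) q k) :=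
    hc_sm_comm _ _ _ _
  unfold Rl
  rw [h2]
  by_cases hk : ∃ m : UNL.G N, UNL.sm (toU D.a) q m = k
  · rw [if_pos hk, if_pos (h.2 hk)]
  · rw [if_neg hk, if_neg (fun h' => hk (h.1 h'))]

theorem CWt_tw {W : UNL.G N → UNL.G N → ℤ} (hW : RNE.CWt (toU D.a) N W) {d : D.O}
    (hd : Cp N d) : RNE.CWt (toU D.a) N (fun k l => W (ac d k) (ac d l)) := by
  obtain ⟨t1, t2, t3, t4⟩ := twist hW.ev hW.anti hW.row hW.supp hd
  refine ⟨t1, fun k l => t2 k l, t3, t4, ?_⟩
  obtain ⟨J, q, q', c, hq, c0, hA⟩ := hW.cl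
  refine ⟨J, q, q', fun j l k => c j (ac d l) (ac d k), hq, ?_, ?_⟩
  · intro j l
    show c j (ac d l) (ac d 0) = 0
    rw [ac_zero]
    exact c0 j _
  · intro l k
    have e1 : ∀ k, Al (fun k l => W (ac d k) (ac d l)) l k =
        Al W (ac d l) (ac d k) := by
      intro k
      show ((W (ac d k) (ac d l) : ℤ) : ℚ) - W (ac d k) (ac d (k + l)) =
        (W (ac d k) (ac d l) : ℚ) - W (ac d k) (ac d k + ac d l)
      rw [ac_addk]
    rw [e1, e1, ac_negk, hA]
    refine Finset.sum_congr rfl fun j _ => ?_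
    rw [hc_Rl_tw hd, hc_Rl_tw hd, ac_negk]

/-! ### the explicit weight -/

/-- the abstract form of the relation -/
private theorem hc_abs {Γ : Type*} [AddCommGroup Γ]
    (A B : Γ →+ Γ) (hAB : ∀ k, A k + B k = k) (H : Γ → Γ → ℤ)
    (hs : ∀ k l, H k l = H l k) (hn : ∀ k l, H (-k) l = H k l) (ha : ∀ k l, H k (k + l) = H k l)
    (hsupp : ∀ k l, H k l ≠ 0 → ∃ m, A (B m) = k)
    (W : Γ → Γ → ℤ) (hW : ∀ k l, W k l =
      (H (B k) (A l) - H (A (B k)) (A l) + H (A (B k)) (B l)) -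
      (H (B l) (A k) - H (A (B l)) (A k) + H (A (B l)) (B k))) :
    ∃ cA cB : Γ → Γ → ℤ, (∀ d, cA d 0 = 0) ∧ (∀ d, cB d 0 = 0) ∧
      (∀ d k, cA d k ≠ 0 → ∃ m, A m = k) ∧ (∀ d k, cB d k ≠ 0 → ∃ m, B m = k) ∧
      ∀ d k, (W k d - W k (k + d)) + (W (-k) d - W (-k) (-k + d)) =
        (cA d (A k) - cA d k + (cA d (A (-k)) - cA d (-k))) +
        (cB d (B k) - cB d k + (cB d (B (-k)) - cB d (-k))) := by
  have hB' : ∀ k, B k = k - A k := fun k => eq_sub_iff_add_eq'.2 (hAB k)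
  have hcom : ∀ k, B (A k) = A (B k) := by
    intro k
    rw [hB' (A k), hB' k, map_sub]
  have hn2 : ∀ k l, H k (-l) = H k l := fun k l => by rw [hs, hn, hs]
  have ha2 : ∀ k l, H k (l - k) = H k l := fun k l => by rw [← ha k (l - k), add_sub_cancel]
  -- supports
  have sA : ∀ k l, H k l ≠ 0 → ∃ m, A m = k := fun k l h => by
    obtain ⟨m, hm⟩ := hsupp k l h
    exact ⟨B m, hm⟩
  have sB : ∀ k l, H k l ≠ 0 → ∃ m, B m = k := fun k l h => by
    obtain ⟨m, hm⟩ := hsupp k l h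
    exact ⟨A m, by rw [hcom, hm]⟩
  have sAB : ∀ k l, H (A k) l ≠ 0 → ∃ m, B m = k := fun k l h => by
    obtain ⟨m, hm⟩ := hsupp _ l h
    have h0 : A (k - B m) = 0 := by rw [map_sub, hm, sub_self]
    have h1 := hAB (k - B m)
    rw [h0, zero_add] at h1
    refine ⟨k - B m + m, ?_⟩
    rw [map_add, h1, sub_add_cancel]
  have c1 : ∀ k d, H (B k) (A (k + d)) = H (B k) (k + A d) := by
    intro k d
    rw [← ha (B k) (A (k + d)), map_add, ← add_assoc, add_comm (B k) (A k), hAB]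
  have c4 : ∀ k d, H (B (k + d)) (A k) = H (A k) (k + B d) := by
    intro k d
    rw [hs, ← ha (A k) (B (k + d)), map_add, ← add_assoc, hAB]
  have q1 : ∀ l d, H (A (-l) + A (B d)) (-l) = H (B l + A (B d)) l := by
    intro l d
    rw [hn2, hs, map_neg, ← ha l (-A l + A (B d)), hs, hB' l]
    congr 1
    abel
  have e : ∀ k d, W k (k + d) = H (B k) (k + A d) - H (B (A k)) (A k + A d)
        + H (A (B k)) (B k + B d) - H (A k) (k + B d)
        + H (B (A k) + A (B d)) (A k) - H (A (B k) + A (B d)) (B k) := by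
    intro k d
    rw [hW, c1, c4, hcom k]
    simp only [map_add]
    ring
  refine ⟨fun d l => -H l (A d) + H l (A (B d)) + H (B l) (l + A d) - H (B l + A (B d)) l,
    fun d l => H l (A d) - H (A l) (A d) + H (A l) (B d) - H l (A (B d)) - H (A l) (l + B d)
      + H (A l + A (B d)) l, ?_, ?_, ?_, ?_, ?_⟩
  · intro d
    simp only [map_zero, zero_add]
    rw [hs (A (B d)) 0]
    ring
  · intro d
    simp only [map_zero, zero_add]
    rw [hs (A (B d)) 0]
    ring
  · intro d k h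
    by_contra hc
    apply h
    have z1 : ∀ x, H k x = 0 := fun x => by
      by_contra h1
      exact hc (sA k x h1)
    have z2 : H (B k) (k + A d) = 0 := by
      by_contra h1
      rw [hs] at h1
      obtain ⟨m, hm⟩ := sA _ _ h1
      exact hc ⟨m - d, by rw [map_sub, hm, add_sub_cancel_right]⟩
    have z3 : H (B k + A (B d)) k = 0 := by rw [hs, z1]
    simp only [z1, z2, z3]
    ring
  · intro d k h
    by_contra hc
    apply h
    have z1 : ∀ x, H k x = 0 := fun x => by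
      by_contra h1
      exact hc (sB k x h1)
    have z4 : ∀ x, H (A k) x = 0 := fun x => by
      by_contra h1
      exact hc (sAB k x h1)
    have z3 : H (A k + A (B d)) k = 0 := by rw [hs, z1]
    simp only [z1, z4, z3]
    ring
  · intro d k
    have p1 := q1 k d
    have p2 := q1 (-k) d
    rw [neg_neg] at p2
    rw [e, e, hW, hW]
    simp only [map_neg, hcom, hn, hn2] at p1 p2 ⊢
    have f1 : ∀ x y, H x (y) = H x y := fun x y => rfl
    have g1 := hs (B d) (A k)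
    have g2 := hs (A (B d)) (A k)
    have g3 := hs (A (B d)) (B k)
    linarith

private theorem hc_Rl (b : UNL.Par) {N : ℕ} (q : ℤ × ℤ) (c : UNL.G N → ℤ)
    (hc : ∀ k, c k ≠ 0 → ∃ m, UNL.sm b q m = k) (k : UNL.G N) :
    Rl b q (fun l => (c l : ℚ)) k = ((c (UNL.sm b q k) - c k : ℤ) : ℚ) := by
  unfold Rl
  by_cases h : c k = 0
  · simp only [h, Int.cast_zero, ite_self, sub_zero]
  · rw [if_pos (hc k h)]
    push_cast
    ring


/-- the action as a homomorphism -/
private noncomputable def hc_ac (N : ℕ) [NeZero N] (x : D.O) : UNL.G N →+ UNL.G N where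
  toFun := ac x
  map_zero' := ac_zero x
  map_add' := ac_addk x

private theorem hc_ac_apply (x : D.O) (k : UNL.G N) : hc_ac N x k = ac x k := rfl

private theorem hc_ac0 (k : UNL.G N) : ac (0 : D.O) k = 0 := by
  have h := ac_add (0 : D.O) 0 k
  rw [add_zero] at h
  exact left_eq_add.1 h

private theorem hc_acn (n : ℕ) (k : UNL.G N) : ac ((n : ℕ) : D.O) k = n • k := by
  induction n with
  | zero => rw [Nat.cast_zero, hc_ac0, zero_smul]
  | succ n ih => rw [Nat.cast_succ, ac_add, ih, ac_one, succ_nsmul]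

/-- sums over a homomorphism -/
private theorem hc_fibh {Γ : Type*} [AddCommGroup Γ] [Fintype Γ] (φ : Γ →+ Γ) (F : Γ → ℤ)
    (hF : ∀ k, F k ≠ 0 → ∃ m, φ m = k) (h0 : ∑ k, F k = 0) : ∑ k, F (φ k) = 0 := by
  classical
  have h1 : ∑ k, F (φ k) = ∑ y, ((Finset.univ.filter (fun k => φ k = 0)).card : ℤ) * F y := by
    rw [← Finset.sum_fiberwise Finset.univ (fun k => φ k) (fun k => F (φ k))]
    refine Finset.sum_congr rfl fun y _ => ?_
    have h2 : ∑ k ∈ Finset.univ.filter (fun k => φ k = y), F (φ k) =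
        ((Finset.univ.filter (fun k => φ k = y)).card : ℤ) * F y := by
      rw [Finset.sum_congr rfl fun k hk => by rw [(Finset.mem_filter.1 hk).2], Finset.sum_const,
        nsmul_eq_mul]
    rw [h2]
    by_cases hy : F y = 0
    · rw [hy, mul_zero, mul_zero]
    · obtain ⟨m, hm⟩ := hF y hy
      rw [AddMonoidHom.card_fiber_eq_of_mem_range φ (x := y) (y := 0) ⟨m, hm⟩ ⟨0, map_zero φ⟩]
  rw [h1, ← Finset.mul_sum, h0, mul_zero]

variable {m c : ℕ}

private theorem hc_neg2 (k l : UNL.G N) : Hw m c k (-l) = Hw m c k l := by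
  rw [Hw_symm, Hw_neg, Hw_symm]

private theorem hc_rowx (h : Lv D m c N) {x y : D.O} (hxy : x * y = al D m * be D m)
    (l : UNL.G N) : ∑ k : UNL.G N, Hw m c (ac x k) l = 0 := by
  refine hc_fibh (hc_ac N x) (fun k => Hw m c k l) ?_ (Hw_row h l)
  intro k hk
  obtain ⟨-, k', hk'⟩ := Hw_supp h hk
  refine ⟨ac y k', ?_⟩
  rw [hc_ac_apply, ← ac_mul, hxy, hk']

private theorem hc_cj (x : D.O) : cj x * x = ((nn D x : ℕ) : D.O) := by
  refine Subtype.ext ?_
  show (starRingEnd ℂ) (x : ℂ) * (x : ℂ) = (((nn D x : ℕ) : D.O) : ℂ)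
  rw [mul_comm, nn_mul_cj]
  push_cast
  rfl

private theorem hc_zero (h : Lv D m c N) {x y : D.O} (hxy : y * x = al D m * be D m)
    {k l : UNL.G N} (hk : Hw m c (ac x k) l ≠ 0) : (N / 2) • k = 0 := by
  obtain ⟨h1, -⟩ := Hw_supp h hk
  have h2 : (m * c) • ac (al D m * be D m) k = 0 := by
    rw [← hxy, ac_mul]
    have h3 := map_nsmul (hc_ac N y) (m * c) (ac x k)
    rw [h1, map_zero, hc_ac_apply] at h3
    exact h3.symm
  have h4 : (m * c) • ((nn D (al D m) * nn D (be D m)) • k) = 0 := by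
    have h5 : cj (al D m) * cj (be D m) * (al D m * be D m) =
        (((nn D (al D m) * nn D (be D m) : ℕ)) : D.O) := by
      have h6 := hc_cj (al D m)
      have h7 := hc_cj (be D m)
      push_cast
      rw [← h6, ← h7]
      ring
    have h8 := map_nsmul (hc_ac N (cj (al D m) * cj (be D m))) (m * c)
      (ac (al D m * be D m) k)
    rw [h2, map_zero, hc_ac_apply, ← ac_mul, h5, hc_acn] at h8
    exact h8.symm
  obtain ⟨w, hw⟩ := h.dvd
  have h9 : N / 2 = w * ((m * c) * (nn D (al D m) * nn D (be D m))) := by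
    have h10 : N = 2 * (w * ((m * c) * (nn D (al D m) * nn D (be D m)))) := by
      rw [hw]
      ring
    omega
  rw [h9, mul_smul, mul_smul, h4, smul_zero]

private theorem hc_de {x : D.O} (hx : nn D x ∣ N) : ∃ q' : ℤ × ℤ,
    UNL.de (toU D.a) (cod D x) * UNL.de (toU D.a) q' = N := by
  obtain ⟨w, hw⟩ := hx
  refine ⟨cod D (cj x * (w : D.O)), ?_⟩
  rw [de_toU, de_toU, xx_cod, xx_cod]
  have h1 := congrArg (fun y : D.O => (y : ℂ)) (hc_cj x)
  simp only [Subring.coe_mul] at h1 ⊢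
  have h2 : ((w : D.O) : ℂ) = (w : ℂ) := by push_cast; rfl
  have h3 : (((nn D x : ℕ) : D.O) : ℂ) = ((nn D x : ℕ) : ℂ) := by push_cast; rfl
  rw [h3] at h1
  rw [h2, hw]
  push_cast
  linear_combination (w : ℂ) * h1

theorem Ww_CWt {m c : ℕ} (h : Lv D m c N) : RNE.CWt (toU D.a) N (Ww D m c) := by
  have hba : be D m * al D m = al D m * be D m := mul_comm _ _
  have hab : al D m * be D m = al D m * be D m := rfl
  have h1 : (1 : D.O) * (al D m * be D m) = al D m * be D m := one_mul _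
  have h1' : (al D m * be D m) * (1 : D.O) = al D m * be D m := mul_one _
  refine ⟨?_, ?_, ?_, ?_, ?_⟩
  · intro k l
    simp only [Ww, Vw, ac_negk, Hw_neg, hc_neg2]
  · intro k l
    simp only [Ww]
    ring
  · intro l
    simp only [Ww, Vw, Finset.sum_sub_distrib, Finset.sum_add_distrib]
    rw [hc_rowx h hba, hc_rowx h h1', hc_rowx h h1']
    have e1 : ∀ y : D.O, ∑ k : UNL.G N, Hw m c (ac y l) (ac (al D m) k) = 0 := fun y => by
      simp only [Hw_symm (ac y l)]
      exact hc_rowx h hab _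
    have e2 : ∀ y : D.O, ∑ k : UNL.G N, Hw m c (ac y l) (ac (be D m) k) = 0 := fun y => by
      simp only [Hw_symm (ac y l)]
      exact hc_rowx h hba _
    rw [e1, e1, e2]
    ring
  · intro k l hk
    by_contra hc
    apply hk
    have z1 : ∀ y, Hw m c (ac (be D m) k) y = 0 := fun y => by
      by_contra hn
      exact hc (hc_zero h hab hn)
    have z2 : ∀ y, Hw m c (ac (al D m * be D m) k) y = 0 := fun y => by
      by_contra hn
      exact hc (hc_zero h h1 hn)
    have z3 : ∀ y, Hw m c (ac (al D m) k) y = 0 := fun y => by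
      by_contra hn
      exact hc (hc_zero h hba hn)
    simp only [Ww, Vw, z1, z2, Hw_symm _ (ac (al D m) k), Hw_symm _ (ac (be D m) k), z3]
    ring
  · have hA : nn D (al D m) ∣ N :=
      (Dvd.intro_left (2 * m * c * nn D (be D m)) (by ring)).trans h.dvd
    have hB : nn D (be D m) ∣ N :=
      (Dvd.intro_left (2 * m * c * nn D (al D m)) (by ring)).trans h.dvd
    obtain ⟨qa, ha⟩ := hc_de (N := N) hA
    obtain ⟨qb, hb⟩ := hc_de (N := N) hB
    obtain ⟨cA, cB, a1, a2, a3, a4, a5⟩ := hc_abs (hc_ac N (al D m)) (hc_ac N (be D m))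
      (by
        intro k
        rw [hc_ac_apply, hc_ac_apply, ← ac_add, al_be, ac_one]) (Hw m c) Hw_symm Hw_neg
      Hw_add
      (by
        intro k l hk
        obtain ⟨-, k', hk'⟩ := Hw_supp h hk
        refine ⟨k', ?_⟩
        rw [hc_ac_apply, hc_ac_apply, ← ac_mul, hk']) (Ww D m c)
      (by
        intro k l
        simp only [hc_ac_apply, ← ac_mul, Ww, Vw])
    simp only [hc_ac_apply] at a3 a4 a5
    refine ⟨2, ![cod D (al D m), cod D (be D m)], ![qa, qb],
      ![fun d k => (cA d k : ℚ), fun d k => (cB d k : ℚ)], ?_, ?_, ?_⟩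
    · intro j
      fin_cases j
      · exact ha
      · exact hb
    · intro j l
      fin_cases j
      · simp [a1]
      · simp [a2]
    · intro l k
      rw [Fin.sum_univ_two]
      simp only [Matrix.cons_val_zero, Matrix.cons_val_one]
      rw [hc_Rl (toU D.a) (cod D (al D m)) (cA l) (a3 l),
        hc_Rl (toU D.a) (cod D (al D m)) (cA l) (a3 l),
        hc_Rl (toU D.a) (cod D (be D m)) (cB l) (a4 l),
        hc_Rl (toU D.a) (cod D (be D m)) (cB l) (a4 l)]
      unfold Al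
      exact_mod_cast a5 l k

end RNG
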