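import Pool.Agent.RNG.Cd
import Pool.Agent.RNP.Ci
import Pool.Agent.RNE.Kd

/-!
# RNG.Hd: definitions (Hecke characters, ideals, representatives of the classes)

`D : RNP.OD` the order `O = ℤ + ℤ ω`; it is assumed to be a Dedekind domain in the theorems. `ψ : Hk D m`: a Hecke
character with values in `K`, conductor `(m)`, `ψ((x)) = x²` if `x` is prime to `m` and congruent to an integer
mod `m`. `η(x) = ψ((x)) / x²` is a character mod `m`.
-/

open RNK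

namespace RNG

noncomputable section

/-- complex conjugation on `O` -/
def cj {D : RNP.OD} (x : D.O) : D.O := ⟨(starRingEnd ℂ) (x : ℂ), cj_Ord x.2⟩

/-- the characters of the newforms -/
structure Hc (D : RNP.OD) (m : ℕ) extends Chr D m where
  val : ∀ x, f x ∈ D.K
  int : ∀ n : ℤ, Cp m ((n : ℤ) : D.O) → f ((n : ℤ) : D.O) = 1
  unit : ∀ u : D.Oˣ, f (u : D.O) * (((u : D.O)) : ℂ) ^ 2 = 1
  prim : ∀ q q' : Ideal D.O, q * q' = Ideal.span {(m : D.O)} → q ≠ ⊤ →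
    ∃ x : D.O, Cp m x ∧ x - 1 ∈ q' ∧ f x ≠ 1

/-- primitive characters mod `m` with values in `K`, trivial on the integers -/
structure Kc (D : RNP.OD) (m : ℕ) extends Chr D m where
  val : ∀ x, f x ∈ D.K
  int : ∀ n : ℤ, Cp m ((n : ℤ) : D.O) → f ((n : ℤ) : D.O) = 1
  prim : ∀ q q' : Ideal D.O, q * q' = Ideal.span {(m : D.O)} → q ≠ ⊤ →
    ∃ x : D.O, Cp m x ∧ x - 1 ∈ q' ∧ f x ≠ 1

variable {D : RNP.OD} {m : ℕ}

/-- the complex conjugate of a character -/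
def Hc.br (η : Hc D m) : Kc D m where
  f x := (starRingEnd ℂ) (η.f x)
  mul x y := by rw [η.mul, map_mul]
  one := by rw [η.one, map_one]
  per x y := by rw [η.per]
  zr x hx := by rw [η.zr x hx, map_zero]
  val x := RNP.cj_K (η.val x)
  int n hn := by rw [η.int n hn, map_one]
  prim q q' h hq := by
    obtain ⟨y, hy, hy2, hy'⟩ := η.prim q q' h hq
    refine ⟨y, hy, hy2, fun h1 => hy' ?_⟩
    have h2 := congrArg (starRingEnd ℂ) h1
    rwa [Complex.conj_conj, map_one] at h2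

/-- the mean of `conj(χ(r)) f(r w)` over representatives of the classes prime to `M` -/
def avg (χ : Kc D m) {M : ℕ} (S : Rs D M) (f : Vec → ℂ) (w : Vec) : ℂ :=
  1 / (S.s.card : ℂ) * ∑ r ∈ S.s, (starRingEnd ℂ) (χ.f r) * f ((r : ℂ) • w)

/-- `c` is the mean for all sufficiently divisible `M` -/
def IsMean (χ : Kc D m) (f : Vec → ℂ) (w : Vec) (c : ℂ) : Prop :=
  ∃ M₀ : ℕ, 0 < M₀ ∧ ∀ M : ℕ, 0 < M → M₀ ∣ M → ∀ S : Rs D M, avg χ S f w = c

open Classical in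
/-- the projection to the `χ`-part -/
def Pf (χ : Kc D m) (f : Vec → ℂ) (w : Vec) : ℂ :=
  if h : ∃ c, IsMean χ f w c then Classical.choose h else 0

open Classical in
/-- the Fourier transform of a complex weight, on `O²` -/
def FTc (D : RNP.OD) {N : ℕ} [NeZero N] (c : UNL.G N → UNL.G N → ℂ) (w : Vec) : ℂ :=
  if RNP.O2 D w then ∑ k : UNL.G N, ∑ l : UNL.G N,
    c k l * (ps (toU D.a) (w.1 * UNL.tp (toU D.a) k) * ps (toU D.a) (w.2 * UNL.tp (toU D.a) l))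
  else 0

/-- weights with values in `K` of type `χ` -/
structure Eqv (χ : Kc D m) {N : ℕ} (c : UNL.G N → UNL.G N → ℂ) : Prop where
  val : ∀ k l, c k l ∈ D.K
  eqv : ∀ x : D.O, Cp N x → ∀ k l, χ.f x * c (ac x k) (ac x l) = c k l

/-- the `χ`-part of a weight -/
def pw (χ : Kc D m) {N : ℕ} (S : Rs D N) (c : UNL.G N → UNL.G N → ℂ) (k l : UNL.G N) : ℂ :=
  ∑ d ∈ S.s, χ.f d * c (ac d k) (ac d l)

/-! ### ideals -/

/-- the norm of an ideal -/
def ni (I : Ideal D.O) : ℕ := Nat.card (D.O ⧸ I)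

/-- nonzero ideals prime to `N` -/
def Ip (N : ℕ) (I : Ideal D.O) : Prop := I ≠ ⊥ ∧ IsCoprime I (Ideal.span {(N : D.O)})

/-- `I` and `J` are in the same class -/
def Ie (I J : Ideal D.O) : Prop :=
  ∃ x y : D.O, x ≠ 0 ∧ y ≠ 0 ∧ Ideal.span {x} * I = Ideal.span {y} * J

/-- the conjugate ideal -/
def ci (I : Ideal D.O) : Ideal D.O where
  carrier := {x | cj x ∈ I}
  add_mem' := by
    intro a b ha hb
    have e : cj (a + b) = cj a + cj b := Subtype.ext (by simp [cj])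
    show cj (a + b) ∈ I
    rw [e]
    exact I.add_mem ha hb
  zero_mem' := by
    have e : cj (0 : D.O) = 0 := Subtype.ext (by simp [cj])
    show cj (0 : D.O) ∈ I
    rw [e]
    exact I.zero_mem
  smul_mem' := by
    intro c x hx
    have e : cj (c * x) = cj c * cj x := Subtype.ext (by simp [cj])
    show cj (c * x) ∈ I
    rw [e]
    exact I.mul_mem_left _ hx

/-- `w ∈ I²` -/
def In2 (I : Ideal D.O) (w : Vec) : Prop := ∃ x ∈ I, ∃ y ∈ I, w = ((x : ℂ), (y : ℂ))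

/-- representatives, prime to `M`, of the ideal classes -/
structure Rp (D : RNP.OD) (M : ℕ) where
  s : Finset (Ideal D.O)
  cp : ∀ I ∈ s, Ip M I
  ex : ∀ I : Ideal D.O, I ≠ ⊥ → ∃ J ∈ s, Ie I J
  un : ∀ I ∈ s, ∀ J ∈ s, Ie I J → I = J

/-! ### Hecke characters -/

/-- Hecke characters -/
structure Hk (D : RNP.OD) (m : ℕ) where
  f : Ideal D.O → ℂ
  mul : ∀ I J, f (I * J) = f I * f J
  ne : ∀ I, f I ≠ 0 ↔ Ip m I
  val : ∀ I, f I ∈ D.K
  sq : ∀ (x : D.O) (k : ℤ), x ≠ 0 → Cp m x → (m : D.O) ∣ x - k →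
    f (Ideal.span {x}) = (x : ℂ) ^ 2
  prim : ∀ q q' : Ideal D.O, q * q' = Ideal.span {(m : D.O)} → q ≠ ⊤ →
    ∃ x : D.O, x ≠ 0 ∧ Cp m x ∧ x - 1 ∈ q' ∧ f (Ideal.span {x}) ≠ (x : ℂ) ^ 2

open Classical in
/-- the character `η(x) = ψ((x)) / x²` -/
def Hk.eta (ψ : Hk D m) (x : D.O) : ℂ :=
  if Cp m x then (if x = 0 then 1 else ψ.f (Ideal.span {x}) / (x : ℂ) ^ 2) else 0

/-- `Σ ψ(I)⁻¹ N(I)⁻²` -/
def Lps (ψ : Hk D m) : ℂ := ∑' I : Ideal D.O, (ψ.f I)⁻¹ / ((ni I : ℕ) : ℂ) ^ 2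

/-- `Σ ψ(I) N(I)⁻⁴` -/
def Eps (ψ : Hk D m) : ℂ := ∑' I : Ideal D.O, ψ.f I / ((ni I : ℕ) : ℂ) ^ 4

open Classical in
/-- the function `Σ_I ψ(I) N(I)² 1_{I²}`, the sum over the representatives -/
def Ph (ψ : Hk D m) {M : ℕ} (S : Rp D M) (w : Vec) : ℂ :=
  ∑ I ∈ S.s, ψ.f I * ((ni I : ℕ) : ℂ) ^ 2 * (if In2 I w then 1 else 0)

/-- the number of units -/
def wn (D : RNP.OD) : ℕ := Nat.card D.Oˣ

/-! ### the lattices `ℤ + ℤ (ω + j) / A` -/

/-- `A ℤ + (ω + j) ℤ` is an ideal, `A` prime to `N`; `p = (A, j)` -/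
def Lt (D : RNP.OD) (N : ℕ) (p : ℕ × ℤ) : Prop :=
  0 < p.1 ∧ (p.1 : ℤ) ∣ UNI.nm D.a (p.2, 1) ∧ Nat.Coprime p.1 N

/-- this ideal -/
def li (D : RNP.OD) (p : ℕ × ℤ) : Ideal D.O := Ideal.span {((p.1 : ℕ) : D.O), el D (p.2, 1)}

open Classical in
/-- the lattice `ℤ + ℤ (ω + j) / A` -/
def lb (D : RNP.OD) (p : ℕ × ℤ) : UNL.Par :=
  if h : 0 < p.1 ∧ (p.1 : ℤ) ∣ UNI.nm D.a (p.2, 1) then
    ⟨p.1, D.a.t + 2 * p.2, UNI.nm D.a (p.2, 1) / p.1, by exact_mod_cast h.1, by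
      rw [mul_assoc, Int.mul_ediv_cancel' h.2]
      have := D.a.h
      simp only [UNI.nm]
      nlinarith⟩
  else toU D.a

/-- the index in `(1/N) O / O` of the point `k` of `(1/N) L / L`, `L = ℤ + ℤ (ω + j) / A`, `A` prime to `N` -/
def re {N : ℕ} (p : ℕ × ℤ) (k : UNL.G N) : UNL.G N :=
  (k.1 + p.2 * (p.1 : ZMod N)⁻¹ * k.2, (p.1 : ZMod N)⁻¹ * k.2)

/-- representatives `(A, j)` of the ideal classes -/
structure Lr (D : RNP.OD) (N : ℕ) where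
  s : Finset (ℕ × ℤ)
  lt : ∀ p ∈ s, Lt D N p
  ex : ∀ I : Ideal D.O, I ≠ ⊥ → ∃ p ∈ s, Ie I (li D p)
  un : ∀ p ∈ s, ∀ q ∈ s, Ie (li D p) (li D q) → p = q

/-! ### change of the level -/

/-- a point of order dividing `N` as an element of `(1/N) O / O` -/
def dn {N M : ℕ} (k : UNL.G M) : UNL.G N :=
  (((k.1.val / (M / N) : ℕ) : ZMod N), ((k.2.val / (M / N) : ℕ) : ZMod N))

open Classical in
/-- a weight of level `N` as a weight of level `M` -/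
def up {N M : ℕ} (V : UNL.G N → UNL.G N → ℤ) (k l : UNL.G M) : ℤ :=
  if N • k = 0 ∧ N • l = 0 then V (dn k) (dn l) else 0

end

end RNG
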