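import Pool.Agent.RNG.Hd

/-!
# RNG.Hdx: the weights of the nonvanishing theorem (definitions)

`β = m ω`, `α = 1 - m ω`; `c` an inert prime which does not divide `m`. `Hw(k,l)`, `k, l ∈ G N = (1/N) O / O`:
`HH c (m k) (m l)` if `c k` and `c l` are multiples of the point `1/m`, and `0` otherwise. `Ww` is built from `Hw` as
`UNL.Wt` from `HH c`. It is closed, and so are all `Ww(d k, d l)`.
-/

open RNK

namespace RNG

noncomputable section

/-- `α = 1 - m ω` -/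
def al (D : RNP.OD) (m : ℕ) : D.O := el D (1, -(m : ℤ))

/-- `β = m ω` -/
def be (D : RNP.OD) (m : ℕ) : D.O := el D (0, (m : ℤ))

/-- the point `1 / m` -/
def pm (m : ℕ) {N : ℕ} : UNL.G N := (((N / m : ℕ) : ZMod N), 0)

/-- multiple of the point `1 / m` -/
def Mu (m : ℕ) {N : ℕ} (k : UNL.G N) : Prop := ∃ a : ℤ, k = a • (pm m : UNL.G N)

open Classical in
/-- the invariant function -/
def Hw (m c : ℕ) {N : ℕ} (k l : UNL.G N) : ℤ :=
  if Mu m (c • k) ∧ Mu m (c • l) then UNL.HH c (m • k) (m • l) else 0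

/-- half of the weight -/
def Vw (D : RNP.OD) (m c : ℕ) {N : ℕ} (k l : UNL.G N) : ℤ :=
  Hw m c (ac (be D m) k) (ac (al D m) l) -
    Hw m c (ac (al D m * be D m) k) (ac (al D m) l) +
    Hw m c (ac (al D m * be D m) k) (ac (be D m) l)

/-- the weight -/
def Ww (D : RNP.OD) (m c : ℕ) {N : ℕ} (k l : UNL.G N) : ℤ := Vw D m c k l - Vw D m c l k

/-- the conditions on the level and on `c` -/
structure Lv (D : RNP.OD) (m c N : ℕ) : Prop where
  m0 : 0 < m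
  prime : c.Prime
  inert : ∀ x : ℤ × ℤ, (c : ℤ) ∣ UNI.nm D.a x → (c : ℤ) ∣ x.1 ∧ (c : ℤ) ∣ x.2
  ndvd : ¬ c ∣ m
  dvd : 2 * m * c * (nn D (al D m) * nn D (be D m)) ∣ N

/-- the combination of dilations of a function on `ℂ²` -/
def FH (α β : ℂ) (h : Vec → ℂ) (w : Vec) : ℂ :=
  ((‖α‖ ^ 2 * ‖β‖ ^ 2 : ℝ) : ℂ) * h (w.1 / β, w.2 / α) -
    ((‖α‖ ^ 4 * ‖β‖ ^ 2 : ℝ) : ℂ) * h (w.1 / (α * β), w.2 / α) +
    ((‖α‖ ^ 2 * ‖β‖ ^ 4 : ℝ) : ℂ) * h (w.1 / (α * β), w.2 / β)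

end

end RNG
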