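import Pool.Agent.RNG.Hwx
import Pool.Agent.RNG.Ftg
import Pool.Agent.RNK.Wx

/-!
# RNG.Hfx: the Fourier transforms of `Hw` and `Ww` (`RNE/Hf`)
-/

open RNK

namespace RNG

noncomputable section

variable {D : RNP.OD} {m : ℕ} [NeZero m] (χ : Kc D m) {c N : ℕ} [NeZero N]

/-- the frequency of an element of `O` -/
private def hfr (x : D.O) : ℤ × ℤ :=
  ((cod D x).1 + D.a.t * (cod D x).2, (cod D x).2)

omit [NeZero N] in
private theorem hf_mm (x : D.O) : UNL.mm (toU D.a) (hfr x) = (x : ℂ) := by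
  have h := xx_cod D x
  rw [UNL.mm, tau_toU, cj_om, hfr]
  rw [← h]
  simp only [UNI.xx]
  push_cast
  ring

open ZMod in
private theorem hf_ps (x : D.O) (k : UNL.G N) :
    ps (toU D.a) ((x : ℂ) * UNL.tp (toU D.a) k) = stdAddChar (UNL.M2.pr N (hfr x) k) := by
  rw [← UNL.ch_tp (toU D.a), UNL.ch, hf_mm]
  rfl

/-- the matrix of the multiplication by `p` -/
private def hfM (p : D.O) : UNL.M2 :=
  ⟨(cod D p).1, -(D.a.n * (cod D p).2), (cod D p).2,
    (cod D p).1 + D.a.t * (cod D p).2⟩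

omit [NeZero N] in
private theorem hfM_az (p : D.O) (k : UNL.G N) : (hfM p).az k = ac p k := by
  rw [ac]
  refine Prod.ext ?_ ?_
  · simp only [UNL.M2.az, hfM, UNL.sm, toU]
    push_cast
    ring
  · simp only [UNL.M2.az, hfM, UNL.sm, toU]
    push_cast
    ring

private theorem hfM_det (p : D.O) : (hfM p).det = (nn D p : ℤ) := by
  have h1 := nn_mul_cj D p
  have h2 : (((hfM p).det : ℤ) : ℂ) = ((nn D p : ℤ) : ℂ) := by
    rw [Int.cast_natCast, ← h1, ← xx_cod D p]
    simp only [UNI.xx, map_add, map_mul, map_intCast, cj_om, UNL.M2.det, hfM]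
    push_cast
    linear_combination ((cod D p).2 : ℂ) ^ 2 * om_sq D.a
  exact_mod_cast h2

private theorem hf_cod {x : D.O} {e : ℤ × ℤ} (h : x = el D e) : cod D x = e := by
  rw [h, cod_el]

private theorem hf_mul (p x : D.O) : hfr (p * x) = (hfM p).du (hfr x) := by
  have h : cod D (p * x) = mulc D.a (cod D p) (cod D x) := by
    refine hf_cod (Subtype.ext ?_)
    show ((p * x : D.O) : ℂ) = UNI.xx D.a _
    rw [xx_mul, xx_cod, xx_cod]
    rfl
  rw [hfr, h]
  refine Prod.ext ?_ ?_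
  · simp only [mulc, UNL.M2.du, hfM, hfr]
    ring
  · simp only [mulc, UNL.M2.du, hfM, hfr]
    ring

private theorem hf_surj (r : ℤ × ℤ) : ∃ x : D.O, hfr x = r := by
  refine ⟨el D (r.1 - D.a.t * r.2, r.2), ?_⟩
  rw [hfr, cod_el]
  refine Prod.ext ?_ ?_
  · show r.1 - D.a.t * r.2 + D.a.t * r.2 = r.1
    ring
  · rfl

private theorem hf_inj {x y : D.O} (h : hfr x = hfr y) : x = y := by
  apply Subtype.ext
  rw [← hf_mm, ← hf_mm, h]

/-- the sum over one variable -/
private theorem hf_one {M : ℕ} {p : D.O} (hp : p ≠ 0) (hd : M * nn D p ∣ N)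
    {F : UNL.G N → ℂ} (hF : ∀ k, M • k ≠ 0 → F k = 0) (x : D.O) :
    ∑ k : UNL.G N, F (ac p k) * ps (toU D.a) ((x : ℂ) * UNL.tp (toU D.a) k) =
      (nn D p : ℂ) * @ite _ ((x : ℂ) / (p : ℂ) ∈ D.O) (Classical.propDecidable _)
        (∑ k : UNL.G N, F k * ps (toU D.a) ((x : ℂ) / (p : ℂ) * UNL.tp (toU D.a) k)) 0 := by
  classical
  have hpc : (p : ℂ) ≠ 0 := fun h => hp (Subtype.ext h)
  have hpos : 0 < (hfM p).det := by
    rw [hfM_det]
    have : nn D p ≠ 0 := fun h => hp (nn_eq_zero.1 h)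
    exact_mod_cast Nat.pos_of_ne_zero this
  have hdz : (M : ℤ) * (hfM p).det ∣ (N : ℤ) := by
    rw [hfM_det]
    exact_mod_cast hd
  by_cases hx : (x : ℂ) / (p : ℂ) ∈ D.O
  · rw [if_pos hx]
    obtain ⟨x', hx'⟩ : ∃ x' : D.O, (x' : ℂ) = (x : ℂ) / (p : ℂ) := ⟨⟨_, hx⟩, rfl⟩
    have hxe : x = p * x' := by
      apply Subtype.ext
      show (x : ℂ) = (p : ℂ) * (x' : ℂ)
      rw [hx']
      field_simp
    rw [← hx']
    have h1 : ∀ k : UNL.G N, F (ac p k) * ps (toU D.a) ((x : ℂ) * UNL.tp (toU D.a) k) =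
        (fun k => F k * ps (toU D.a) ((x' : ℂ) * UNL.tp (toU D.a) k)) ((hfM p).az k) := by
      intro k
      simp only
      rw [hfM_az, hf_ps, hf_ps, hxe, hf_mul, UNL.M2.pr_du, hfM_az]
    have h2 := (hfM p).sum_az (F := fun k => F k * ps (toU D.a) ((x' : ℂ) * UNL.tp (toU D.a) k))
      hpos hdz (fun k hk => by rw [hF k hk, zero_mul])
    rw [Finset.sum_congr rfl fun k _ => h1 k]
    refine h2.trans ?_
    rw [hfM_det, Int.cast_natCast]
  · rw [if_neg hx, mul_zero]
    have h1 : ∀ k : UNL.G N, F (ac p k) * ps (toU D.a) ((x : ℂ) * UNL.tp (toU D.a) k) =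
        F ((hfM p).az k) * ZMod.stdAddChar (UNL.M2.pr N (hfr x) k) := by
      intro k
      rw [hfM_az, hf_ps]
    rw [Finset.sum_congr rfl fun k _ => h1 k]
    refine UNL.sum_trans hpos ((Dvd.intro_left _ rfl).trans hdz) ?_ F
    rintro ⟨r, hr⟩
    apply hx
    obtain ⟨x', rfl⟩ := hf_surj (D := D) r
    rw [← hf_mul] at hr
    have h2 := hf_inj hr
    rw [h2]
    have : ((p * x' : D.O) : ℂ) / (p : ℂ) = (x' : ℂ) := by
      show (p : ℂ) * (x' : ℂ) / (p : ℂ) = x'
      field_simp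
    rw [this]
    exact x'.2

/-- the sum over two variables -/
private theorem hf_two {M : ℕ} {p q : D.O} (hp : p ≠ 0) (hq : q ≠ 0)
    (hd : M * nn D p ∣ N) (hd' : M * nn D q ∣ N)
    {g : UNL.G N → UNL.G N → ℂ} (hg : ∀ k l, g k l ≠ 0 → M • k = 0 ∧ M • l = 0) (w : Vec) :
    FTc D (fun k l : UNL.G N => g (ac p k) (ac q l)) w =
      (nn D p : ℂ) * (nn D q : ℂ) * FTc D g (w.1 / (p : ℂ), w.2 / (q : ℂ)) := by
  classical
  have hpc : (p : ℂ) ≠ 0 := fun h => hp (Subtype.ext h)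
  have hqc : (q : ℂ) ≠ 0 := fun h => hq (Subtype.ext h)
  by_cases hw : RNP.O2 D w
  · rw [FTc_O2 _ hw]
    obtain ⟨x, hx⟩ : ∃ x : D.O, (x : ℂ) = w.1 := ⟨⟨w.1, hw.1⟩, rfl⟩
    obtain ⟨y, hy⟩ : ∃ y : D.O, (y : ℂ) = w.2 := ⟨⟨w.2, hw.2⟩, rfl⟩
    rw [← hx, ← hy]
    have h1 : ∀ k : UNL.G N, ∑ l : UNL.G N, g (ac p k) (ac q l) *
        (ps (toU D.a) ((x : ℂ) * UNL.tp (toU D.a) k) *
          ps (toU D.a) ((y : ℂ) * UNL.tp (toU D.a) l)) =
        (fun k' => ∑ l : UNL.G N, g k' (ac q l) *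
          ps (toU D.a) ((y : ℂ) * UNL.tp (toU D.a) l)) (ac p k) *
            ps (toU D.a) ((x : ℂ) * UNL.tp (toU D.a) k) := by
      intro k
      simp only
      rw [Finset.sum_mul]
      exact Finset.sum_congr rfl fun l _ => by ring
    rw [Finset.sum_congr rfl fun k _ => h1 k]
    refine (hf_one (F := fun k' => ∑ l : UNL.G N, g k' (ac q l) *
      ps (toU D.a) ((y : ℂ) * UNL.tp (toU D.a) l)) hp hd (fun k hk => by
        refine Finset.sum_eq_zero fun l _ => ?_
        by_contra hne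
        exact hk (hg _ _ (left_ne_zero_of_mul hne)).1) x).trans ?_
    have h2 : ∀ k : UNL.G N, (fun k' => ∑ l : UNL.G N, g k' (ac q l) *
          ps (toU D.a) ((y : ℂ) * UNL.tp (toU D.a) l)) k =
        (nn D q : ℂ) * @ite _ ((y : ℂ) / (q : ℂ) ∈ D.O) (Classical.propDecidable _)
        (∑ l : UNL.G N, g k l * ps (toU D.a) ((y : ℂ) / (q : ℂ) * UNL.tp (toU D.a) l)) 0 := by
      intro k
      simp only
      exact hf_one (F := fun l => g k l) hq hd' (fun l hl => by
        by_contra hne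
        exact hl (hg _ _ hne).2) y
    simp only at h2
    by_cases hx1 : (x : ℂ) / (p : ℂ) ∈ D.O
    · by_cases hy1 : (y : ℂ) / (q : ℂ) ∈ D.O
      · rw [FTc_O2 (w := ((x : ℂ) / (p : ℂ), (y : ℂ) / (q : ℂ))) _ ⟨hx1, hy1⟩, if_pos hx1,
          mul_assoc]
        congr 1
        rw [Finset.mul_sum]
        refine Finset.sum_congr rfl fun k _ => ?_
        rw [h2 k, if_pos hy1, Finset.mul_sum, Finset.sum_mul, Finset.mul_sum]
        exact Finset.sum_congr rfl fun l _ => by ring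
      · have h0 : FTc D g ((x : ℂ) / (p : ℂ), (y : ℂ) / (q : ℂ)) = 0 :=
          if_neg fun h => hy1 h.2
        rw [h0, mul_zero, if_pos hx1]
        refine mul_eq_zero_of_right _ (Finset.sum_eq_zero fun k _ => ?_)
        rw [h2 k, if_neg hy1, mul_zero, zero_mul]
    · have h0 : FTc D g ((x : ℂ) / (p : ℂ), (y : ℂ) / (q : ℂ)) = 0 :=
        if_neg fun h => hx1 h.1
      rw [h0, mul_zero, if_neg hx1, mul_zero]
  · have h0 : FTc D g (w.1 / (p : ℂ), w.2 / (q : ℂ)) = 0 := by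
      refine if_neg fun h => hw ⟨?_, ?_⟩
      · have h1 := D.O.mul_mem h.1 p.2
        simp only at h1
        rwa [div_mul_cancel₀ _ hpc] at h1
      · have h1 := D.O.mul_mem h.2 q.2
        simp only at h1
        rwa [div_mul_cancel₀ _ hqc] at h1
    rw [h0, mul_zero]
    exact if_neg hw

/-! ### linearity -/

omit [NeZero m] in
private theorem hf_FT0 {g : UNL.G N → UNL.G N → ℂ} {w : Vec} (hw : ¬ RNP.O2 D w) :
    FTc D g w = 0 := if_neg hw

private theorem hf_sub (f g : UNL.G N → UNL.G N → ℂ) (w : Vec) :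
    FTc D (fun k l => f k l - g k l) w = FTc D f w - FTc D g w := by
  by_cases hw : RNP.O2 D w
  · rw [FTc_O2 _ hw, FTc_O2 _ hw, FTc_O2 _ hw]
    simp only [sub_mul, Finset.sum_sub_distrib]
  · rw [hf_FT0 hw, hf_FT0 hw, hf_FT0 hw, sub_zero]

private theorem hf_add (f g : UNL.G N → UNL.G N → ℂ) (w : Vec) :
    FTc D (fun k l => f k l + g k l) w = FTc D f w + FTc D g w := by
  by_cases hw : RNP.O2 D w
  · rw [FTc_O2 _ hw, FTc_O2 _ hw, FTc_O2 _ hw]
    simp only [add_mul, Finset.sum_add_distrib]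
  · rw [hf_FT0 hw, hf_FT0 hw, hf_FT0 hw, add_zero]

private theorem hf_swap (f : UNL.G N → UNL.G N → ℂ) (w : Vec) :
    FTc D (fun k l => f l k) w = FTc D f (w.2, w.1) := by
  by_cases hw : RNP.O2 D w
  · have hw' : RNP.O2 D (w.2, w.1) := ⟨hw.2, hw.1⟩
    rw [FTc_O2 _ hw, FTc_O2 _ hw', Finset.sum_comm]
    refine Finset.sum_congr rfl fun k _ => Finset.sum_congr rfl fun l _ => ?_
    ring
  · have hw' : ¬ RNP.O2 D (w.2, w.1) := fun h => hw ⟨h.2, h.1⟩
    rw [hf_FT0 hw, hf_FT0 hw']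

private theorem hf_cm (d p : D.O) (k : UNL.G N) :
    ac d (ac p k) = ac p (ac d k) := by
  rw [← ac_mul, ← ac_mul, mul_comm]

omit [NeZero m] in
private theorem hf_pw (S : Rs D N) (k l : UNL.G N) :
    pw χ S (fun k l => (Ww D m c k l : ℂ)) k l =
      (pw χ S (fun k l => (Hw m c k l : ℂ)) (ac (be D m) k) (ac (al D m) l) -
        pw χ S (fun k l => (Hw m c k l : ℂ)) (ac (al D m * be D m) k) (ac (al D m) l) +
        pw χ S (fun k l => (Hw m c k l : ℂ)) (ac (al D m * be D m) k) (ac (be D m) l)) -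
      (pw χ S (fun k l => (Hw m c k l : ℂ)) (ac (be D m) l) (ac (al D m) k) -
        pw χ S (fun k l => (Hw m c k l : ℂ)) (ac (al D m * be D m) l) (ac (al D m) k) +
        pw χ S (fun k l => (Hw m c k l : ℂ)) (ac (al D m * be D m) l) (ac (be D m) k)) := by
  unfold pw
  simp only [← Finset.sum_sub_distrib, ← Finset.sum_add_distrib]
  refine Finset.sum_congr rfl fun d _ => ?_
  simp only [Ww, Vw, hf_cm d]
  push_cast
  ring

omit [NeZero m] in
private theorem hf_nsmul (d : D.O) (n : ℕ) (k : UNL.G N) :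
    ac d (n • k) = n • ac d k := by
  induction n with
  | zero => rw [zero_smul, zero_smul, ac_zero]
  | succ n ih => rw [add_smul, add_smul, one_smul, one_smul, ac_addk, ih]

omit [NeZero m] in
private theorem hf_supp (h : Lv D m c N) (S : Rs D N) (k l : UNL.G N)
    (hne : pw χ S (fun k l => (Hw m c k l : ℂ)) k l ≠ 0) :
    (m * c) • k = 0 ∧ (m * c) • l = 0 := by
  obtain ⟨d, hd, hd0⟩ := Finset.exists_ne_zero_of_sum_ne_zero hne
  have h1 : Hw m c (ac d k) (ac d l) ≠ 0 := by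
    intro h0
    apply hd0
    simp only
    rw [h0, Int.cast_zero, mul_zero]
  have h2 : Hw m c (ac d l) (ac d k) ≠ 0 := by
    rw [← Hw_symm]
    exact h1
  obtain ⟨y, -, hy⟩ := Cp_inv (S.cp d hd)
  have key : ∀ k : UNL.G N, (m * c) • ac d k = 0 → (m * c) • k = 0 := by
    intro k hk
    rw [← hf_nsmul] at hk
    have h3 := (hy ((m * c) • k)).1
    rw [hk, ac_zero] at h3
    exact h3.symm
  exact ⟨key k (Hw_supp h h1).1, key l (Hw_supp h h2).1⟩

theorem FTc_Ww (h : Lv D m c N) (S : Rs D N) (w : Vec) :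
    FTc D (pw χ S fun k l => (Ww D m c k l : ℂ)) w =
      FH (al D m : ℂ) (be D m : ℂ) (FTc D (pw χ S fun k l => (Hw m c k l : ℂ))) w -
      FH (al D m : ℂ) (be D m : ℂ) (FTc D (pw χ S fun k l => (Hw m c k l : ℂ))) (w.2, w.1) := by
  have ha := al_ne D h.m0
  have hb := be_ne D h.m0
  have hab : al D m * be D m ≠ 0 := mul_ne_zero ha hb
  have hN := h.dvd
  have d1 : m * c * nn D (al D m) ∣ N :=
    (Dvd.intro (2 * nn D (be D m)) (by ring)).trans hN
  have d2 : m * c * nn D (be D m) ∣ N :=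
    (Dvd.intro (2 * nn D (al D m)) (by ring)).trans hN
  have d3 : m * c * nn D (al D m * be D m) ∣ N := by
    rw [nn_mul]
    exact (Dvd.intro 2 (by ring)).trans hN
  have hg := hf_supp χ h S
  have e : (pw χ S fun k l => (Ww D m c k l : ℂ)) = fun k l =>
      (fun k l => pw χ S (fun k l => (Hw m c k l : ℂ)) (ac (be D m) k) (ac (al D m) l) -
        pw χ S (fun k l => (Hw m c k l : ℂ)) (ac (al D m * be D m) k) (ac (al D m) l) +
        pw χ S (fun k l => (Hw m c k l : ℂ)) (ac (al D m * be D m) k) (ac (be D m) l)) k l -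
      (fun k l => (fun k l => pw χ S (fun k l => (Hw m c k l : ℂ)) (ac (be D m) k) (ac (al D m) l) -
        pw χ S (fun k l => (Hw m c k l : ℂ)) (ac (al D m * be D m) k) (ac (al D m) l) +
        pw χ S (fun k l => (Hw m c k l : ℂ)) (ac (al D m * be D m) k) (ac (be D m) l)) l k) k l := by
    funext k l
    exact hf_pw χ S k l
  have key : ∀ w : Vec, FTc D (fun k l => pw χ S (fun k l => (Hw m c k l : ℂ))
        (ac (be D m) k) (ac (al D m) l) -
        pw χ S (fun k l => (Hw m c k l : ℂ)) (ac (al D m * be D m) k) (ac (al D m) l) +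
        pw χ S (fun k l => (Hw m c k l : ℂ)) (ac (al D m * be D m) k) (ac (be D m) l)) w =
      FH (al D m : ℂ) (be D m : ℂ) (FTc D (pw χ S fun k l => (Hw m c k l : ℂ))) w := by
    intro w
    rw [hf_add, hf_sub, hf_two hb ha d2 d1 hg, hf_two hab ha d3 d1 hg, hf_two hab hb d3 d2 hg, FH,
      nn_mul]
    have n1 : ((nn D (al D m) : ℕ) : ℂ) = ((‖(al D m : ℂ)‖ ^ 2 : ℝ) : ℂ) := by
      rw [← nn_real]
      simp
    have n2 : ((nn D (be D m) : ℕ) : ℂ) = ((‖(be D m : ℂ)‖ ^ 2 : ℝ) : ℂ) := by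
      rw [← nn_real]
      simp
    have e1 : ((al D m * be D m : D.O) : ℂ) = (al D m : ℂ) * (be D m : ℂ) := rfl
    rw [e1]
    push_cast
    rw [n1, n2]
    push_cast
    ring
  rw [e, hf_sub, hf_swap (fun k l => pw χ S (fun k l => (Hw m c k l : ℂ))
        (ac (be D m) k) (ac (al D m) l) -
        pw χ S (fun k l => (Hw m c k l : ℂ)) (ac (al D m * be D m) k) (ac (al D m) l) +
        pw χ S (fun k l => (Hw m c k l : ℂ)) (ac (al D m * be D m) k) (ac (be D m) l)),
    key, key]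

/-! ### the function `Hw` -/

omit [NeZero m] [NeZero N] in
private theorem hf_pm0 (hm : m ∣ N) : m • (pm m : UNL.G N) = 0 := by
  refine Prod.ext ?_ ?_
  · show m • (((N / m : ℕ) : ZMod N)) = 0
    rw [nsmul_eq_mul, ← Nat.cast_mul, Nat.mul_div_cancel' hm, ZMod.natCast_self]
  · show m • (0 : ZMod N) = 0
    rw [smul_zero]

omit [NeZero m] in
private theorem hf_pmo (hm : m ∣ N) {a : ℤ} (h : a • (pm m : UNL.G N) = 0) : (m : ℤ) ∣ a := by
  have h1 := congrArg Prod.fst h
  have h2 : ((a * ((N / m : ℕ) : ℤ) : ℤ) : ZMod N) = 0 := by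
    rw [Int.cast_mul, Int.cast_natCast, ← zsmul_eq_mul]
    exact h1
  rw [ZMod.intCast_zmod_eq_zero_iff_dvd] at h2
  obtain ⟨q, hq⟩ := hm
  have hN : N ≠ 0 := NeZero.ne N
  have hm0 : m ≠ 0 := by
    rintro rfl
    rw [zero_mul] at hq
    exact hN hq
  have hq0 : q ≠ 0 := by
    rintro rfl
    rw [mul_zero] at hq
    exact hN hq
  have e : N / m = q := by rw [hq, Nat.mul_div_cancel_left _ (Nat.pos_of_ne_zero hm0)]
  rw [e, hq] at h2
  push_cast at h2
  exact Int.dvd_of_mul_dvd_mul_right (by exact_mod_cast hq0) h2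

omit [NeZero m] in
/-- the multiples of `1 / m` after multiplication with `c` -/
private theorem hf_mu (hc : c.Prime) (hcm : ¬ c ∣ m) (hm0 : 0 < m) (hm : m ∣ N) (k : UNL.G N) :
    (Mu m (c • k) → ∃ a ∈ Finset.range m, c • (k - a • (pm m : UNL.G N)) = 0 ∧
      ∀ b ∈ Finset.range m, c • (k - b • (pm m : UNL.G N)) = 0 → b = a) ∧
    ∀ a : ℕ, c • (k - a • (pm m : UNL.G N)) = 0 → Mu m (c • k) := by
  have hcop : IsCoprime (c : ℤ) (m : ℤ) :=
    (Prime.coprime_iff_not_dvd (Nat.prime_iff_prime_int.1 hc)).2 (fun h => hcm (by exact_mod_cast h))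
  constructor
  · rintro ⟨b, hb⟩
    have hcop' := hcop
    obtain ⟨u, v, huv⟩ := hcop'
    have hmz : (0 : ℤ) < m := by exact_mod_cast hm0
    have r0 : 0 ≤ (u * b) % (m : ℤ) := Int.emod_nonneg _ hmz.ne'
    have r1 : (u * b) % (m : ℤ) < m := Int.emod_lt_of_pos _ hmz
    have r2 : (u * b) % (m : ℤ) + m * ((u * b) / m) = u * b := Int.emod_add_mul_ediv _ _
    obtain ⟨a, ha⟩ := Int.eq_ofNat_of_zero_le r0
    have hpm : (m : ℤ) • (pm m : UNL.G N) = 0 := by rw [natCast_zsmul]; exact hf_pm0 hm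
    have h4 : (c : ℤ) • (k - (a : ℤ) • (pm m : UNL.G N)) = 0 := by
      have e1 : (c : ℤ) * a = b + m * (-(v * b) - c * ((u * b) / m)) := by
        rw [ha] at r2
        have : (a : ℤ) = u * b - m * ((u * b) / m) := by linarith
        rw [this]
        linear_combination b * huv
      rw [smul_sub, natCast_zsmul, hb, smul_smul, e1, add_smul, mul_comm (m : ℤ),
        mul_smul, hpm, smul_zero, add_zero, sub_self]
    refine ⟨a, ?_, ?_, ?_⟩
    · rw [Finset.mem_range]
      rw [ha] at r1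
      exact_mod_cast r1
    · rw [natCast_zsmul, natCast_zsmul] at h4
      exact h4
    · intro b' hb' hb'c
      have e2 : ((c : ℤ) * ((a : ℤ) - b')) • (pm m : UNL.G N) = 0 := by
        have h3 : (c : ℤ) • (k - (b' : ℤ) • (pm m : UNL.G N)) = 0 := by
          rw [natCast_zsmul, natCast_zsmul]
          exact hb'c
        have h5 : (c : ℤ) • (((a : ℤ) - b') • (pm m : UNL.G N)) = 0 := by
          have : ((a : ℤ) - b') • (pm m : UNL.G N) =
              (k - (b' : ℤ) • (pm m : UNL.G N)) - (k - (a : ℤ) • (pm m : UNL.G N)) := by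
            rw [sub_smul]
            abel
          rw [this, smul_sub, h3, h4, sub_zero]
        rw [mul_smul]
        exact h5
      have h6 := hf_pmo hm e2
      have h7 : (m : ℤ) ∣ (a : ℤ) - b' := hcop.symm.dvd_of_dvd_mul_left h6
      rw [Finset.mem_range] at hb'
      have h8 : a < m := by
        rw [ha] at r1
        exact_mod_cast r1
      have h9 := Int.eq_zero_of_abs_lt_dvd h7 (by
        rw [abs_lt]
        constructor
        · have : (b' : ℤ) < m := by exact_mod_cast hb'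
          linarith [Int.natCast_nonneg a]
        · have : (a : ℤ) < m := by exact_mod_cast h8
          linarith [Int.natCast_nonneg b'])
      omega
  · intro a ha
    refine ⟨c * a, ?_⟩
    rw [smul_sub, sub_eq_zero] at ha
    rw [ha, mul_smul, natCast_zsmul, natCast_zsmul]

open Classical in
omit [NeZero m] in
private theorem hf_sum (hc : c.Prime) (hcm : ¬ c ∣ m) (hm0 : 0 < m) (hm : m ∣ N)
    (F : UNL.G N → ℂ) :
    ∑ k : UNL.G N, (if Mu m (c • k) then F k else 0) =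
      ∑ a ∈ Finset.range m, ∑ k : UNL.G N, if c • k = 0 then F (k + a • (pm m : UNL.G N)) else 0 := by
  have h1 : ∀ k : UNL.G N, (if Mu m (c • k) then F k else 0) =
      ∑ a ∈ Finset.range m, if c • (k - a • (pm m : UNL.G N)) = 0 then F k else 0 := by
    intro k
    obtain ⟨h2, h3⟩ := hf_mu (N := N) hc hcm hm0 hm k
    by_cases hk : Mu m (c • k)
    · obtain ⟨a, ha, ha1, ha2⟩ := h2 hk
      rw [if_pos hk, Finset.sum_eq_single_of_mem a ha, if_pos ha1]
      intro b hb hba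
      rw [if_neg]
      exact fun h => hba (ha2 b hb h)
    · rw [if_neg hk]
      symm
      refine Finset.sum_eq_zero fun a _ => ?_
      rw [if_neg]
      exact fun h => hk (h3 a h)
  rw [Finset.sum_congr rfl fun k _ => h1 k, Finset.sum_comm]
  refine Finset.sum_congr rfl fun a _ => ?_
  rw [← Equiv.sum_comp (Equiv.addRight (a • (pm m : UNL.G N)))]
  refine Finset.sum_congr rfl fun k _ => ?_
  rw [Equiv.coe_addRight, add_sub_cancel_right]

omit [NeZero m] [NeZero N] in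
private theorem hf_HH (hc : c.Prime) (hcm : ¬ c ∣ m) {k l : UNL.G N} (hk : c • k = 0)
    (hl : c • l = 0) : UNL.HH c (m • k) (m • l) = UNL.HH c k l := by
  have hp : Prime (c : ℤ) := Nat.prime_iff_prime_int.1 hc
  have hcm' : ¬ (c : ℤ) ∣ (m : ℤ) := fun h => hcm (by exact_mod_cast h)
  have hk' : c • (m • k) = 0 := by rw [smul_comm, hk, smul_zero]
  have hl' : c • (m • l) = 0 := by rw [smul_comm, hl, smul_zero]
  refine UNL.HH_congr (by simp only [hk, hl, hk', hl']) ?_ ?_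
  · constructor
    · rintro ⟨x, y, hxy, h⟩
      refine ⟨x * m, y * m, fun h' => hxy ⟨(hp.dvd_or_dvd h'.1).resolve_right hcm',
        (hp.dvd_or_dvd h'.2).resolve_right hcm'⟩, ?_⟩
      rw [mul_smul, mul_smul, natCast_zsmul, natCast_zsmul]
      exact h
    · rintro ⟨x, y, hxy, h⟩
      refine ⟨x, y, hxy, ?_⟩
      rw [smul_comm x m k, smul_comm y m l, ← smul_add, h, smul_zero]
  · constructor
    · rintro ⟨h1, h2⟩
      exact ⟨UNL.tors_prime hc hcm' hk (by rw [natCast_zsmul]; exact h1),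
        UNL.tors_prime hc hcm' hl (by rw [natCast_zsmul]; exact h2)⟩
    · rintro ⟨h1, h2⟩
      rw [h1, h2, smul_zero]
      exact ⟨rfl, rfl⟩

omit [NeZero m] in
/-- the character at the multiples of `1 / m` -/
private theorem hf_psm (x : D.O) (k : UNL.G N) (a : ℕ) :
    ps (toU D.a) ((x : ℂ) * UNL.tp (toU D.a) (k + a • (pm m : UNL.G N))) =
      ps (toU D.a) ((x : ℂ) * UNL.tp (toU D.a) k) *
        (ps (toU D.a) ((x : ℂ) * UNL.tp (toU D.a) (pm m : UNL.G N))) ^ a := by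
  induction a with
  | zero => rw [zero_smul, add_zero, pow_zero, mul_one]
  | succ a ih =>
    have h := pss_addk x (k + a • (pm m : UNL.G N)) (pm m : UNL.G N)
    have e : k + (a + 1) • (pm m : UNL.G N) = k + a • (pm m : UNL.G N) + (pm m : UNL.G N) := by
      rw [add_smul, one_smul, add_assoc]
    rw [e]
    refine h.trans ?_
    show ps (toU D.a) _ * ps (toU D.a) _ = _
    rw [ih, pow_succ, mul_assoc]

omit [NeZero m] in
private theorem hf_geo (hm : m ∣ N) (x : D.O) :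
    ∑ a ∈ Finset.range m, (ps (toU D.a) ((x : ℂ) * UNL.tp (toU D.a) (pm m : UNL.G N))) ^ a =
      @ite _ ((m : ℤ) ∣ (cod D x).2) (Classical.propDecidable _) (m : ℂ) 0 := by
  classical
  have h0 := hf_ps x (pm m : UNL.G N)
  have e0 : UNL.M2.pr N (hfr x) (pm m : UNL.G N) = (((cod D x).2 * ((N / m : ℕ) : ℤ) : ℤ) : ZMod N) := by
    show ((hfr x).1 : ZMod N) * 0 + ((cod D x).2 : ZMod N) * ((N / m : ℕ) : ZMod N) = _
    rw [mul_zero, zero_add, Int.cast_mul, Int.cast_natCast]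
  set ζ := ps (toU D.a) ((x : ℂ) * UNL.tp (toU D.a) (pm m : UNL.G N)) with hζ
  have h1 : ζ ^ m = 1 := by
    have h2 := hf_psm (m := m) (N := N) x 0 m
    rw [hf_pm0 hm, add_zero, ← hζ] at h2
    have h3 : ps (toU D.a) ((x : ℂ) * UNL.tp (toU D.a) (0 : UNL.G N)) ≠ 0 := Complex.exp_ne_zero _
    exact (mul_left_cancel₀ h3 ((mul_one _).trans h2)).symm
  by_cases hd : (m : ℤ) ∣ (cod D x).2
  · rw [if_pos hd]
    have h4 : ζ = 1 := by
      rw [h0, e0]
      obtain ⟨z, hz⟩ := hd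
      have h5 : (((cod D x).2 * ((N / m : ℕ) : ℤ) : ℤ) : ZMod N) = 0 := by
        rw [hz, mul_comm (m : ℤ) z, mul_assoc, ← Nat.cast_mul, Nat.mul_div_cancel' hm]
        push_cast
        rw [ZMod.natCast_self, mul_zero]
      rw [h5, AddChar.map_zero_eq_one]
    simp [h4]
  · rw [if_neg hd]
    have h4 : ζ ≠ 1 := by
      intro h5
      apply hd
      rw [h0, e0] at h5
      have h6 : (((cod D x).2 * ((N / m : ℕ) : ℤ) : ℤ) : ZMod N) = 0 := by
        refine ZMod.injective_stdAddChar ?_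
        rw [h5, AddChar.map_zero_eq_one]
      refine hf_pmo hm (N := N) ?_
      refine Prod.ext ?_ ?_
      · show (cod D x).2 • (((N / m : ℕ) : ZMod N)) = 0
        rw [Int.cast_mul, Int.cast_natCast] at h6
        rw [zsmul_eq_mul]
        exact h6
      · show (cod D x).2 • (0 : ZMod N) = 0
        rw [smul_zero]
    have h7 := geom_sum_eq h4 m
    rw [h7, h1, sub_self, zero_div]

open Classical in
omit [NeZero m] in
theorem FTc_Hw (h : Lv D m c N) (x y : D.O) :
    FTc D (fun k l : UNL.G N => (Hw m c k l : ℂ)) ((x : ℂ), (y : ℂ)) =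
      if (m : ℤ) ∣ (cod D x).2 ∧ (m : ℤ) ∣ (cod D y).2 ∧
        ¬ (c : ℤ) ∣ (cod D x).1 * (cod D y).2 - (cod D x).2 * (cod D y).1
      then (m : ℂ) ^ 2 * (c : ℂ) ^ 3 else 0 := by
  have hm : m ∣ N := (Dvd.intro (2 * c * (nn D (al D m) * nn D (be D m)))
    (by ring)).trans h.dvd
  have hcN : c ∣ N := (Dvd.intro (2 * m * (nn D (al D m) * nn D (be D m)))
    (by ring)).trans h.dvd
  set ζ := ps (toU D.a) ((x : ℂ) * UNL.tp (toU D.a) (pm m : UNL.G N)) with hζ
  set ξ := ps (toU D.a) ((y : ℂ) * UNL.tp (toU D.a) (pm m : UNL.G N)) with hξ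
  rw [FTc_O2 _ ⟨x.2, y.2⟩]
  simp only
  have hs := fun F => hf_sum (N := N) h.prime h.ndvd h.m0 hm F
  have h1 : ∀ k : UNL.G N, ∑ l : UNL.G N, (Hw m c k l : ℂ) *
      (ps (toU D.a) ((x : ℂ) * UNL.tp (toU D.a) k) *
        ps (toU D.a) ((y : ℂ) * UNL.tp (toU D.a) l)) =
      if Mu m (c • k) then (fun k => ∑ b ∈ Finset.range m, ∑ l : UNL.G N, if c • l = 0 then
        (UNL.HH c (m • k) (m • l) : ℂ) * (ps (toU D.a) ((x : ℂ) * UNL.tp (toU D.a) k) *
        (ps (toU D.a) ((y : ℂ) * UNL.tp (toU D.a) l) * ξ ^ b)) else 0) k else 0 := by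
    intro k
    split_ifs with hk
    · have h2 := hs (fun l => (UNL.HH c (m • k) (m • l) : ℂ) *
        (ps (toU D.a) ((x : ℂ) * UNL.tp (toU D.a) k) *
        ps (toU D.a) ((y : ℂ) * UNL.tp (toU D.a) l)))
      simp only
      rw [← Finset.sum_congr rfl fun b _ => Finset.sum_congr rfl fun l _ => ?_]
      · refine Eq.trans (Finset.sum_congr rfl fun l _ => ?_) h2
        unfold Hw
        by_cases hl : Mu m (c • l)
        · rw [if_pos ⟨hk, hl⟩, if_pos hl]
        · rw [if_neg (fun h => hl h.2), if_neg hl, Int.cast_zero, zero_mul]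
      · rw [hf_psm, smul_add, smul_comm m b, hf_pm0 hm, smul_zero, add_zero]
    · refine Finset.sum_eq_zero fun l _ => ?_
      unfold Hw
      rw [if_neg (fun h => hk h.1), Int.cast_zero, zero_mul]
  rw [Finset.sum_congr rfl fun k _ => h1 k, hs]
  have h3 : ∀ a ∈ Finset.range m, (∑ k : UNL.G N, if c • k = 0 then
      (fun k => ∑ b ∈ Finset.range m, ∑ l : UNL.G N, if c • l = 0 then
        (UNL.HH c (m • k) (m • l) : ℂ) * (ps (toU D.a) ((x : ℂ) * UNL.tp (toU D.a) k) *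
        (ps (toU D.a) ((y : ℂ) * UNL.tp (toU D.a) l) * ξ ^ b)) else 0) (k + a • (pm m : UNL.G N))
        else 0) =
      ζ ^ a * ((∑ b ∈ Finset.range m, ξ ^ b) * ∑ k : UNL.G N, ∑ l : UNL.G N, (UNL.HH c k l : ℂ) *
        (ZMod.stdAddChar (UNL.M2.pr N (hfr x) k) * ZMod.stdAddChar (UNL.M2.pr N (hfr y) l))) := by
    intro a _
    rw [Finset.mul_sum, Finset.mul_sum]
    refine Finset.sum_congr rfl fun k _ => ?_
    by_cases hk : c • k = 0
    · rw [if_pos hk]
      simp only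
      rw [Finset.sum_mul, Finset.mul_sum]
      refine Finset.sum_congr rfl fun b _ => ?_
      rw [Finset.mul_sum, Finset.mul_sum]
      refine Finset.sum_congr rfl fun l _ => ?_
      by_cases hl : c • l = 0
      · rw [if_pos hl, hf_psm, smul_add, smul_comm m a, hf_pm0 hm, smul_zero, add_zero,
          hf_HH h.prime h.ndvd hk hl, ← hζ, hf_ps x k, hf_ps y l]
        ring
      · rw [if_neg hl, UNL.HH_zero_of_right _ hl, Int.cast_zero]
        ring
    · rw [if_neg hk]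
      have : ∑ l : UNL.G N, (UNL.HH c k l : ℂ) *
        (ZMod.stdAddChar (UNL.M2.pr N (hfr x) k) * ZMod.stdAddChar (UNL.M2.pr N (hfr y) l)) = 0 := by
        refine Finset.sum_eq_zero fun l _ => ?_
        rw [UNL.HH_zero_of_left _ hk, Int.cast_zero, zero_mul]
      rw [this]
      ring
  rw [Finset.sum_congr rfl h3, ← Finset.sum_mul, UNL.HH_dft0 h.prime hcN, hf_geo hm,
    hf_geo hm]
  have e : UNL.dt (hfr x) (hfr y) =
      (cod D x).1 * (cod D y).2 - (cod D x).2 * (cod D y).1 := by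
    simp only [UNL.dt, hfr]
    ring
  rw [e]
  by_cases h4 : (m : ℤ) ∣ (cod D x).2
  · by_cases h5 : (m : ℤ) ∣ (cod D y).2
    · by_cases h6 : (c : ℤ) ∣ (cod D x).1 * (cod D y).2 - (cod D x).2 * (cod D y).1
      · rw [if_pos h4, if_pos h5, if_neg (fun h => h.2.2 h6), UNL.ind_pos h6]
        simp
      · rw [if_pos h4, if_pos h5, if_pos ⟨h4, h5, h6⟩, UNL.ind_neg h6]
        push_cast
        ring
    · rw [if_pos h4, if_neg h5, if_neg (fun h => h5 h.2.1)]
      ring
  · rw [if_neg h4, zero_mul, if_neg (fun h => h4 h.1)]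

end

end RNG
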