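import Pool.Agent.RNG.Hdx
import Pool.Agent.RNG.Bs

/-!
# RNG.Hix: an inert prime which does not divide `m`, and the level (`RNE/Hi`)
-/

open RNK

namespace RNG

open UNI in
theorem inert' (a : UNI.Par) (m P : ℕ) (hm : 0 < m) : ∃ c : ℕ, c.Prime ∧ P < c ∧ ¬ c ∣ m ∧
    ∀ x : ℤ × ℤ, (c : ℤ) ∣ UNI.nm a x → (c : ℤ) ∣ x.1 ∧ (c : ℤ) ∣ x.2 := by
  obtain ⟨t, n, h⟩ := a
  set d : ℤ := 4 * n - t ^ 2 with hd
  have hd0 : 0 < d := by rw [hd]; linarith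
  obtain ⟨M, hM⟩ : ∃ M : ℕ, M = m * P.factorial := ⟨_, rfl⟩
  have hM0 : 0 < M := by rw [hM]; exact Nat.mul_pos hm (Nat.factorial_pos P)
  have hM1 : (0 : ℤ) < (M : ℤ) ^ 2 := by positivity
  have hdM : 0 < d * (M : ℤ) ^ 2 := by positivity
  obtain ⟨b, hb⟩ : ∃ b : ℕ, (b : ℤ) = 4 * (d * (M : ℤ) ^ 2) - 1 :=
    ⟨(4 * (d * (M : ℤ) ^ 2) - 1).toNat, Int.toNat_of_nonneg (by omega)⟩
  have hb4 : b % 4 = 3 := by omega
  have hodd : Odd b := Nat.odd_iff.2 (by omega)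
  have hnc : ∀ c : ℕ, c.Prime → c ∣ b → ¬ c ∣ M := by
    intro c hc hcb hcM
    have h1 : (c : ℤ) ∣ 4 * (d * (M : ℤ) ^ 2) := by
      have h2 : (c : ℤ) ∣ (M : ℤ) := Int.natCast_dvd_natCast.2 hcM
      exact Dvd.dvd.mul_left (Dvd.dvd.mul_left (dvd_pow h2 two_ne_zero) _) _
    have h3 : (c : ℤ) ∣ 1 := by
      have h4 := dvd_sub h1 (Int.natCast_dvd_natCast.2 hcb)
      rw [hb] at h4
      simpa using h4
    have h5 : c ∣ 1 := by exact_mod_cast h3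
    exact hc.one_lt.ne' (Nat.dvd_one.1 h5)
  have hJ : jacobiSym (-d) b = -1 := by
    have h1 : jacobiSym (-1) b = -1 := by
      rw [jacobiSym.at_neg_one hodd, ZMod.χ₄_nat_three_mod_four hb4]
    have hcop : (2 * (M : ℤ)).gcd b = 1 := by
      rw [← Int.isCoprime_iff_gcd_eq_one]
      refine ⟨2 * d * M, -1, ?_⟩
      rw [hb]
      ring
    have h4 : jacobiSym ((2 * (M : ℤ)) ^ 2) b = 1 := jacobiSym.sq_one' hcop
    have h2 : jacobiSym (4 * (d * (M : ℤ) ^ 2)) b = 1 := by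
      rw [jacobiSym.mod_left' (a₂ := 1), jacobiSym.one_left]
      rw [show (4 * (d * (M : ℤ) ^ 2) : ℤ) = 1 + b by rw [hb]; ring]
      exact Int.add_emod_right 1 b
    have h3 : jacobiSym d b = 1 := by
      rw [show (4 : ℤ) * (d * (M : ℤ) ^ 2) = (2 * (M : ℤ)) ^ 2 * d by ring, jacobiSym.mul_left, h4,
        one_mul] at h2
      exact h2
    rw [show -d = -1 * d by ring, jacobiSym.mul_left, h1, h3]
    norm_num
  obtain ⟨c, hc, hcb, hJc⟩ := jacobiSym.eq_neg_one_at_prime_divisor_of_eq_neg_one hJ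
  have : Fact c.Prime := ⟨hc⟩
  have hns : ¬ IsSquare ((-d : ℤ) : ZMod c) := ZMod.nonsquare_of_jacobiSym_eq_neg_one hJc
  have hcM := hnc c hc hcb
  refine ⟨c, hc, ?_, fun h0 => hcM (by rw [hM]; exact Dvd.dvd.mul_right h0 _), fun m hmm => ?_⟩
  · by_contra h0
    exact hcM (by rw [hM]; exact Dvd.dvd.mul_left ((Nat.Prime.dvd_factorial hc).2 (not_lt.1 h0)) _)
  obtain ⟨x, z⟩ := m
  simp only [nm] at hmm ⊢
  have e1 : (((x ^ 2 + t * x * z + n * z ^ 2 : ℤ)) : ZMod c) = 0 :=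
    (ZMod.intCast_zmod_eq_zero_iff_dvd _ c).2 hmm
  have hz : (c : ℤ) ∣ z := by
    by_contra hz
    have hz0 : (z : ZMod c) ≠ 0 := fun h0 => hz ((ZMod.intCast_zmod_eq_zero_iff_dvd _ c).1 h0)
    apply hns
    refine ⟨((2 * x + t * z : ℤ) : ZMod c) * (z : ZMod c)⁻¹, ?_⟩
    have e2 : ((-d : ℤ) : ZMod c) * (z : ZMod c) ^ 2 = ((2 * x + t * z : ℤ) : ZMod c) ^ 2 := by
      have e3 : ((2 * x + t * z : ℤ) : ZMod c) ^ 2 - ((-d : ℤ) : ZMod c) * (z : ZMod c) ^ 2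
          = 4 * (((x ^ 2 + t * x * z + n * z ^ 2 : ℤ)) : ZMod c) := by
        rw [hd]
        push_cast
        ring
      rw [e1, mul_zero] at e3
      exact (sub_eq_zero.1 e3).symm
    field_simp
    linear_combination e2
  refine ⟨?_, hz⟩
  have hx2 : (c : ℤ) ∣ x ^ 2 := by
    have h5 : x ^ 2 = (x ^ 2 + t * x * z + n * z ^ 2) - z * (t * x + n * z) := by ring
    rw [h5]
    exact dvd_sub hmm (Dvd.dvd.mul_right hz _)
  exact (Nat.prime_iff_prime_int.1 hc).dvd_of_dvd_pow hx2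

private theorem hi_ne (D : RNP.OD) {k : ℤ × ℤ} (hk : k ≠ 0) : el D k ≠ 0 := by
  intro h0
  apply hk
  rw [← cod_el (D := D) k, h0, ← el_zero (D := D), cod_el]

theorem al_ne (D : RNP.OD) {m : ℕ} (hm : 0 < m) : al D m ≠ 0 := by
  refine hi_ne D fun h => ?_
  have := congrArg Prod.fst h
  simp at this

theorem be_ne (D : RNP.OD) {m : ℕ} (hm : 0 < m) : be D m ≠ 0 := by
  refine hi_ne D fun h => ?_
  have := congrArg Prod.snd h
  simp at this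
  omega

theorem al_be (D : RNP.OD) (m : ℕ) : al D m + be D m = 1 := by
  rw [al, be, ← el_add]
  apply Subtype.ext
  simp [el, UNI.xx]

theorem lv_ex (D : RNP.OD) {m : ℕ} (hm : 0 < m) : ∃ c N : ℕ, 0 < N ∧ Even N ∧ m ∣ N ∧
    Lv D m c N := by
  obtain ⟨c, hc, -, hcm, hin⟩ := inert' D.a m 0 hm
  have h1 : 0 < nn D (al D m) := Nat.pos_of_ne_zero fun h => al_ne D hm (nn_eq_zero.1 h)
  have h2 : 0 < nn D (be D m) := Nat.pos_of_ne_zero fun h => be_ne D hm (nn_eq_zero.1 h)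
  refine ⟨c, 2 * m * c * (nn D (al D m) * nn D (be D m)), ?_, ?_, ?_,
    ⟨hm, hc, hin, hcm, dvd_rfl⟩⟩
  · have := hc.pos
    positivity
  · rw [mul_assoc, mul_assoc]
    exact even_two_mul _
  · exact Dvd.dvd.mul_right (Dvd.dvd.mul_right (Dvd.intro_left _ rfl) _) _

end RNG
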