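import Pool.Agent.RNG.Ni
import Pool.Agent.RNP.Fc

/-!
# RNG.Pg: the projection to the `χ`-part of a function on `K²` (stub; prove ALL sorries)

`f` admissible: `Adm D₀ M f`, `D₀ = D`: values in `K`, support in `(1/M) O²`, period `M O²`.
* `mean_ex`: let `w ∈ ℂ²`. If `w ∉ K²` then `f (r w) = 0` for all `r ≠ 0` in `O` (its support is in `K²`), mean `0`. If
  `n w ∈ O²`, `n > 0` natural, put `M₀ = M n m`. For `M₀ ∣ M'` the function `h(r) = conj χ(r) f(r w)` on `O` is periodic mod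
  `M₀` (`M₀ y w = M (m y) (n w)`), and the mean over representatives of the classes prime to `M'` is the mean over
  the classes prime to `M₀`: all fibres of `(O/M')ˣ → (O/M₀)ˣ` have the same number of elements (a surjective
  homomorphism; the lifting is the private lemma `sl_lift` in `RNK/Sl`). Simplest: show that the mean for `M'` equals the
  mean for `M₀`: `Σ_{r mod M'} h(r) = (1/|S₀|) Σ_{s ∈ S₀} Σ_{r mod M'} h(r s')`, `s' ≡ s` mod `M₀` prime to `M'`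
  (`rs_shift` for `M'`), `= (1/|S₀|) Σ_r Σ_s h(r s) = Σ_r (mean of h over S₀)` (`rs_shift` for `M₀`, `r` prime to `M₀`).
* `Pf_spec`: from `mean_ex` and uniqueness of the mean (`Rs D M` is nonempty, `chars`; two values of `M₀` have
  a common multiple).
* `Pf_add`, `Pf_smul`, `Pf_act`: `avg` is linear in `f`, and `avg (f ∘ g) w = avg f (g w)` (`g (r w) = r g w`); take a common
  multiple of the `M₀`s.
* `Pf_adm`: values: `Pf = avg` for some `M'`, `conj χ(r) ∈ K`. Support: if `Pf f w ≠ 0` then for `M'` divisible by `M₀`,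
  by `M` and by `n M` (`n w ∈ O²`) some `r` prime to `M'` has `f (r w) ≠ 0`, so `M r w ∈ O²`; with `a r + b M' = 1`:
  `M w = a M r w + b M' M w ∈ O²`. Period: `f (r (w + M v)) = f (r w + M (r v)) = f (r w)`. `Pf_supp`: the same.
* `Pf_eqv`: for `w ∈ (1/M) O²` and `x` prime to `M m`: take `M' = (M m)^j` large (same prime divisors, a multiple of
  `M · M · m` and a valid modulus by the proof of `mean_ex` (the values at `w` and `x w` only need `M₀ = M M m`)),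
  `x` is prime to `M'`, `rs_shift`: `avg f (x w) = (1/|S|) Σ conj χ(r) f (r x w) = χ(x) (1/|S|) Σ conj χ(r x) f (r x w)`,
  using `χ(x) conj χ(x) = 1`.
* `Pf_id`: `M = N`, `m ∣ N`: for `w ∈ O²` all `f (r w) = χ(r) f w` (`r` prime to `M'`, so to `N`), the mean is `f w`.
-/

open RNK

namespace RNG

noncomputable section

variable {D : RNP.OD} [IsDedekindDomain D.O] {m : ℕ} [NeZero m] (χ : Kc D m)


/-! ### elements prime to a modulus -/

private theorem pe_cp_dvd {M M' : ℕ} (h : M ∣ M') {x : D.O} (hx : Cp M' x) : Cp M x := by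
  obtain ⟨k, rfl⟩ := h
  unfold Cp at hx ⊢
  rw [Nat.cast_mul] at hx
  exact IsCoprime.of_mul_right_left hx

/-- lifting of an element prime to `M` to an element prime to `M'` -/
private theorem pe_lift {M M' : ℕ} (hM' : 0 < M') {s : D.O} (hs : Cp M s) :
    ∃ z : D.O, Cp M' (s + (M : D.O) * z) := by
  rcases Nat.eq_zero_or_pos M with h0 | h0
  · refine ⟨0, ?_⟩
    subst h0
    have h1 : IsUnit s := by
      have h2 : IsCoprime s ((0 : ℕ) : D.O) := hs
      rw [Nat.cast_zero] at h2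
      exact isCoprime_zero_right.1 h2
    rw [mul_zero, add_zero]
    obtain ⟨u, hu⟩ := h1.exists_left_inv
    exact ⟨u, 0, by rw [hu]; ring⟩
  · have hI : Ideal.span {((M * M' : ℕ) : D.O)} ≤ Ideal.span {(M : D.O)} := by
      rw [Ideal.span_singleton_le_span_singleton, Nat.cast_mul]
      exact dvd_mul_right _ _
    obtain ⟨x', h1, h2⟩ := lift_cp (Nat.mul_pos h0 hM') hI
      ((Ideal.isCoprime_span_singleton_iff s (M : D.O)).2 hs)
    obtain ⟨z, hz⟩ := Ideal.mem_span_singleton.1 h2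
    refine ⟨z, ?_⟩
    have h3 : s + (M : D.O) * z = x' := by
      rw [← hz]
      ring
    rw [h3]
    exact pe_cp_dvd (dvd_mul_left _ _) h1

private theorem pe_cp_mul {M M' : ℕ} {x : D.O} (h : Cp M x) (h' : Cp M' x) :
    Cp (M * M') x := by
  unfold Cp at h h' ⊢
  rw [Nat.cast_mul]
  exact IsCoprime.mul_right h h'

private theorem pe_two_ne {M : ℕ} (hM : 2 ∣ M) {r : D.O} (hr : Cp M r) : r ≠ 0 := by
  rintro rfl
  have h1 : IsUnit ((M : ℕ) : D.O) := isCoprime_zero_left.1 hr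
  obtain ⟨k, rfl⟩ := hM
  rw [Nat.cast_mul] at h1
  have h2 : IsUnit ((2 : ℕ) : D.O) := isUnit_of_mul_isUnit_left h1
  have h3 := nn_eq_one.2 h2
  have h4 := nn_real D ((2 : ℕ) : D.O)
  rw [h3] at h4
  have h5 : ((((2 : ℕ) : D.O)) : ℂ) = 2 := by
    push_cast
    rfl
  rw [h5] at h4
  norm_num at h4

/-- representatives -/
private theorem pe_rs (D : RNP.OD) {M : ℕ} (hM : 0 < M) : Nonempty (Rs D M) := by
  haveI : NeZero M := ⟨hM.ne'⟩
  obtain ⟨S, -⟩ := chars D M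
  exact ⟨S⟩

/-- the mean of a periodic function does not depend on the modulus -/
private theorem pe_mean {M M' : ℕ} (hM : 0 < M) (hM' : 0 < M') (hd : M ∣ M') {h : D.O → ℂ}
    (hh : Pe M h) (S : Rs D M) (S' : Rs D M') :
    1 / (S'.s.card : ℂ) * ∑ r ∈ S'.s, h r = 1 / (S.s.card : ℂ) * ∑ s ∈ S.s, h s := by
  classical
  haveI : NeZero M := ⟨hM.ne'⟩
  haveI : NeZero M' := ⟨hM'.ne'⟩
  have hc : (S.s.card : ℂ) ≠ 0 := by exact_mod_cast (card_pos S).ne'
  have hc' : (S'.s.card : ℂ) ≠ 0 := by exact_mod_cast (card_pos S').ne'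
  have hh' : Pe M' h := by
    intro x y
    obtain ⟨k, rfl⟩ := hd
    have e : x + ((M * k : ℕ) : D.O) * y = x + (M : D.O) * ((k : D.O) * y) := by
      rw [Nat.cast_mul]
      ring
    rw [e, hh]
  have hl : ∀ s : D.O, ∃ z : D.O, s ∈ S.s → Cp M' (s + (M : D.O) * z) := by
    intro s
    by_cases hs : s ∈ S.s
    · obtain ⟨z, hz⟩ := pe_lift (M := M) hM' (S.cp s hs)
      exact ⟨z, fun _ => hz⟩
    · exact ⟨0, fun h => absurd h hs⟩
  choose z hz using hl
  have h1 : ∑ s ∈ S.s, ∑ r ∈ S'.s, h (r * (s + (M : D.O) * z s)) =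
      (S.s.card : ℂ) * ∑ r ∈ S'.s, h r := by
    rw [Finset.sum_congr rfl fun s hs => rs_shift S' (hz s hs) hh', Finset.sum_const,
      nsmul_eq_mul]
  have h2 : ∑ s ∈ S.s, ∑ r ∈ S'.s, h (r * (s + (M : D.O) * z s)) =
      (S'.s.card : ℂ) * ∑ s ∈ S.s, h s := by
    rw [Finset.sum_comm]
    have h3 : ∀ r ∈ S'.s, ∑ s ∈ S.s, h (r * (s + (M : D.O) * z s)) = ∑ s ∈ S.s, h s := by
      intro r hr
      rw [← rs_shift S (pe_cp_dvd hd (S'.cp r hr)) hh]
      refine Finset.sum_congr rfl fun s _ => ?_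
      have e : r * (s + (M : D.O) * z s) = s * r + (M : D.O) * (r * z s) := by ring
      rw [e, hh]
    rw [Finset.sum_congr rfl h3, Finset.sum_const, nsmul_eq_mul]
  rw [h1] at h2
  field_simp
  linear_combination h2

/-! ### the character -/

private theorem pe_mul_br {x : D.O} (hx : ‖χ.f x‖ = 1) : χ.f x * (starRingEnd ℂ) (χ.f x) = 1 := by
  rw [Complex.mul_conj, Complex.normSq_eq_norm_sq, hx]
  simp

theorem Kc.norm {x : D.O} (hx : Cp m x) : ‖χ.f x‖ = 1 := by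
  have h3 : ∀ n : ℕ, χ.f (x ^ n) = χ.f x ^ n := by
    intro n
    induction n with
    | zero => rw [pow_zero, pow_zero, χ.one]
    | succ n ih => rw [pow_succ, χ.mul, ih, pow_succ]
  obtain ⟨i, j, hij, he⟩ := Finite.exists_ne_map_eq_of_infinite
    (fun k : ℕ => fun g : UNL.G m => ac (x ^ k) g)
  have hne : χ.f x ≠ 0 := by
    obtain ⟨a, b, hab⟩ := hx
    intro h0
    have h1 : χ.f (a * x) = 1 := by
      have e : a * x = 1 + (m : D.O) * (-b) := by
        rw [← hab]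
        ring
      rw [e, χ.per, χ.one]
    rw [χ.mul, h0, mul_zero] at h1
    exact zero_ne_one h1
  have key : ∀ i j : ℕ, i < j → (fun g : UNL.G m => ac (x ^ i) g) =
      (fun g : UNL.G m => ac (x ^ j) g) → ‖χ.f x‖ = 1 := by
    intro i j hij he
    obtain ⟨z, hz⟩ := ac_eq.1 (fun k => congrFun he k)
    have h5 : χ.f x ^ i = χ.f x ^ j := by
      rw [← h3, ← h3, hz, χ.per]
    have h6 : χ.f x ^ (j - i) = 1 := by
      have h7 : χ.f x ^ i * χ.f x ^ (j - i) = χ.f x ^ i * 1 := by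
        rw [← pow_add, Nat.add_sub_cancel' hij.le, mul_one, h5]
      exact mul_left_cancel₀ (pow_ne_zero _ hne) h7
    exact Complex.norm_eq_one_of_pow_eq_one h6 (by omega)
  rcases lt_or_gt_of_ne hij with h | h
  · exact key i j h he
  · exact key j i h he.symm

/-! ### means -/

omit [NeZero m] in
private theorem pe_uniq {f : Vec → ℂ} {w : Vec} {c c' : ℂ} (h : IsMean χ f w c)
    (h' : IsMean χ f w c') : c = c' := by
  obtain ⟨M, hM, h⟩ := h
  obtain ⟨M', hM', h'⟩ := h'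
  have hp : 0 < M * M' := Nat.mul_pos hM hM'
  obtain ⟨S⟩ := pe_rs D hp
  rw [← h _ hp (dvd_mul_right M M') S, ← h' _ hp (dvd_mul_left M' M) S]

omit [NeZero m] in
private theorem pe_zero {f : Vec → ℂ} {w : Vec} {M₀ : ℕ} (h0 : 0 < M₀)
    (h : ∀ r : D.O, Cp M₀ r → f ((r : ℂ) • w) = 0) : IsMean χ f w 0 := by
  refine ⟨M₀, h0, fun M _ hd S => ?_⟩
  unfold avg
  rw [Finset.sum_eq_zero fun r hr => ?_, mul_zero]
  rw [h r (pe_cp_dvd hd (S.cp r hr)), mul_zero]

omit [NeZero m] in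
private theorem pe_notK {M : ℕ} {f : Vec → ℂ} (hf : RNP.Adm D M f) {w : Vec}
    (hw : ¬ RNP.K2 D w) : IsMean χ f w 0 := by
  refine pe_zero χ (M₀ := 2) two_pos fun r hr => ?_
  by_contra h1
  apply hw
  have h2 := RNP.O2_K2 (hf.supp _ h1)
  have hr0 : (r : ℂ) ≠ 0 := fun h => pe_two_ne dvd_rfl hr (Subtype.ext h)
  have hM0 : (M : ℂ) ≠ 0 := by exact_mod_cast hf.pos.ne'
  have hrK : ((r : ℂ))⁻¹ ∈ D.K := D.K.inv_mem (RNP.O_sub_K (D := D) r.2)
  have hMK : ((M : ℂ))⁻¹ ∈ D.K := D.K.inv_mem (natCast_mem _ M)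
  have h3 := RNP.K2_smul (D := D) hrK (RNP.K2_smul (D := D) hMK h2)
  rwa [smul_smul ((M : ℂ))⁻¹, inv_mul_cancel₀ hM0, one_smul, smul_smul, inv_mul_cancel₀ hr0,
    one_smul] at h3

omit [NeZero m] in
private theorem pe_per {M n : ℕ} {f : Vec → ℂ} (hf : RNP.Adm D M f) {w : Vec}
    (hw : RNP.O2 D ((n : ℂ) • w)) :
    Pe (M * n * m) (fun r : D.O => (starRingEnd ℂ) (χ.f r) * f ((r : ℂ) • w)) := by
  intro x y
  have e1 : x + ((M * n * m : ℕ) : D.O) * y = x + (m : D.O) * (((M * n : ℕ) : D.O) * y) := by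
    push_cast
    ring
  have e2 : (((x + ((M * n * m : ℕ) : D.O) * y : D.O)) : ℂ) • w =
      (x : ℂ) • w + (M : ℂ) • (((m : ℂ) * (y : ℂ)) • ((n : ℂ) • w)) := by
    rw [smul_smul, smul_smul, ← add_smul]
    congr 1
    push_cast
    ring
  have h1 : χ.f (x + ((M * n * m : ℕ) : D.O) * y) = χ.f x := by
    rw [e1, χ.per]
  have h2 : f ((((x + ((M * n * m : ℕ) : D.O) * y : D.O)) : ℂ) • w) = f ((x : ℂ) • w) := by
    rw [e2]
    exact hf.per _ _ (RNP.O2_smul (D := D) (D.O.mul_mem (natCast_mem _ m) y.2) hw)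
  show (starRingEnd ℂ) (χ.f (x + ((M * n * m : ℕ) : D.O) * y)) *
    f ((((x + ((M * n * m : ℕ) : D.O) * y : D.O)) : ℂ) • w) = _
  rw [h1, h2]

/-- the mean from one modulus -/
private theorem pe_val {M n : ℕ} (hn : 0 < n) {f : Vec → ℂ} (hf : RNP.Adm D M f) {w : Vec}
    (hw : RNP.O2 D ((n : ℂ) • w)) (S : Rs D (M * n * m)) :
    IsMean χ f w (avg χ S f w) := by
  have hp : 0 < M * n * m := Nat.mul_pos (Nat.mul_pos hf.pos hn) (Nat.pos_of_ne_zero (NeZero.ne m))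
  refine ⟨M * n * m, hp, fun M' hM' hd S' => ?_⟩
  exact pe_mean hp hM' hd (pe_per χ hf hw) S S'

theorem mean_ex {f : Vec → ℂ} (hf : RNP.AdmE D f) (w : Vec) : ∃ c, IsMean χ f w c := by
  obtain ⟨M, hf⟩ := hf
  by_cases hw : RNP.K2 D w
  · obtain ⟨n, hn, h1⟩ := RNP.clear (D := D) hw
    have hp : 0 < M * n * m :=
      Nat.mul_pos (Nat.mul_pos hf.pos hn) (Nat.pos_of_ne_zero (NeZero.ne m))
    obtain ⟨S⟩ := pe_rs D hp
    exact ⟨_, pe_val χ hn hf h1 S⟩
  · exact ⟨0, pe_notK χ hf hw⟩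

theorem Pf_spec {f : Vec → ℂ} (hf : RNP.AdmE D f) (w : Vec) :
    IsMean χ f w (Pf χ f w) := by
  have h := mean_ex χ hf w
  unfold Pf
  rw [dif_pos h]
  exact Classical.choose_spec h

private theorem pe_eq {f : Vec → ℂ} (hf : RNP.AdmE D f) {w : Vec} {c : ℂ}
    (h : IsMean χ f w c) : Pf χ f w = c := pe_uniq χ (Pf_spec χ hf w) h

theorem Pf_add {f g : Vec → ℂ} (hf : RNP.AdmE D f) (hg : RNP.AdmE D g) :
    Pf χ (fun w => f w + g w) = fun w => Pf χ f w + Pf χ g w := by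
  funext w
  refine pe_eq χ (RNP.AdmE_add (D := D) hf hg) ?_
  obtain ⟨M, hM, h⟩ := Pf_spec χ hf w
  obtain ⟨M', hM', h'⟩ := Pf_spec χ hg w
  refine ⟨M * M', Nat.mul_pos hM hM', fun L hL hd S => ?_⟩
  rw [← h L hL ((dvd_mul_right M M').trans hd) S, ← h' L hL ((dvd_mul_left M' M).trans hd) S]
  unfold avg
  rw [← mul_add, ← Finset.sum_add_distrib]
  congr 1
  refine Finset.sum_congr rfl fun r _ => ?_
  ring

theorem Pf_smul {f : Vec → ℂ} (hf : RNP.AdmE D f) {k : ℂ} (hk : k ∈ D.K) :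
    Pf χ (fun w => k * f w) = fun w => k * Pf χ f w := by
  funext w
  refine pe_eq χ (RNP.AdmE_smul (D := D) hk hf) ?_
  obtain ⟨M, hM, h⟩ := Pf_spec χ hf w
  refine ⟨M, hM, fun L hL hd S => ?_⟩
  rw [← h L hL hd S]
  unfold avg
  have h1 : ∀ r : D.O, (starRingEnd ℂ) (χ.f r) * (k * f ((r : ℂ) • w)) =
      k * ((starRingEnd ℂ) (χ.f r) * f ((r : ℂ) • w)) := fun r => by ring
  rw [Finset.sum_congr rfl fun r _ => h1 r, ← Finset.mul_sum]
  ring

theorem Pf_act {f : Vec → ℂ} (hf : RNP.AdmE D f) {g : Mat} (hg : RNP.GK D g) :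
    Pf χ (fun w => f (g.act w)) = fun w => Pf χ f (g.act w) := by
  funext w
  refine pe_eq χ (RNP.AdmE_act (D := D) hg hf) ?_
  obtain ⟨M, hM, h⟩ := Pf_spec χ hf (g.act w)
  refine ⟨M, hM, fun L hL hd S => ?_⟩
  rw [← h L hL hd S]
  unfold avg
  congr 1
  refine Finset.sum_congr rfl fun r _ => ?_
  show (starRingEnd ℂ) (χ.f r) * f (g.act ((r : ℂ) • w)) = _
  rw [RNP.act_smul]

private theorem pe_cop {M : ℕ} {r : D.O} (hr : Cp M r) :
    RNP.Cop D (r : ℂ) (M : ℂ) := by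
  obtain ⟨a, b, hab⟩ := hr
  refine ⟨r.2, natCast_mem _ M, a, a.2, b, b.2, ?_⟩
  have h1 := congrArg (fun y : D.O => (y : ℂ)) hab
  simpa using h1

/-- if `f` is supported on `(1/k) O²` so is the projection -/
private theorem pe_sup {M k : ℕ} {f : Vec → ℂ} (hf : RNP.Adm D M f)
    (hs : ∀ w, f w ≠ 0 → RNP.O2 D ((k : ℂ) • w)) {w : Vec} (hw : Pf χ f w ≠ 0) :
    RNP.O2 D ((k : ℂ) • w) := by
  by_contra hcon
  apply hw
  by_cases hK : RNP.K2 D w
  · obtain ⟨n, hn, h1⟩ := RNP.clear (D := D) hK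
    refine pe_eq χ ⟨M, hf⟩ (pe_zero χ hn fun r hr => ?_)
    by_contra h2
    apply hcon
    refine RNP.cop_O2 (D := D) (pe_cop hr) ?_ ?_
    · have h3 := hs _ h2
      rwa [smul_comm] at h3
    · rw [smul_comm]
      exact RNP.O2_smul (D := D) (natCast_mem _ k) h1
  · exact pe_eq χ ⟨M, hf⟩ (pe_notK χ hf hK)

theorem Pf_adm {M : ℕ} {f : Vec → ℂ} (hf : RNP.Adm D M f) :
    RNP.Adm D M (Pf χ f) := by
  constructor
  · exact hf.pos
  · intro w
    obtain ⟨M₀, hM₀, h⟩ := Pf_spec χ ⟨M, hf⟩ w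
    obtain ⟨S⟩ := pe_rs D hM₀
    rw [← h M₀ hM₀ dvd_rfl S]
    unfold avg
    refine D.K.mul_mem ?_ ?_
    · exact D.K.div_mem D.K.one_mem (natCast_mem _ _)
    · refine Subfield.sum_mem _ fun r _ => D.K.mul_mem ?_ (hf.val _)
      exact RNP.cj_K (D := D) (χ.val r)
  · intro w hw
    exact pe_sup χ hf hf.supp hw
  · intro w v hv
    refine pe_eq χ ⟨M, hf⟩ ?_
    obtain ⟨M₀, hM₀, h⟩ := Pf_spec χ ⟨M, hf⟩ w
    refine ⟨M₀, hM₀, fun L hL hd S => ?_⟩
    rw [← h L hL hd S]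
    unfold avg
    congr 1
    refine Finset.sum_congr rfl fun r _ => ?_
    congr 1
    rw [smul_add, smul_comm]
    exact hf.per _ _ (RNP.O2_smul (D := D) r.2 hv)

theorem Pf_eqv {M : ℕ} {f : Vec → ℂ} (hf : RNP.Adm D M f) {w : Vec}
    (hw : RNP.O2 D ((M : ℂ) • w)) {x : D.O} (hx : Cp (M * m) x) :
    Pf χ f ((x : ℂ) • w) = χ.f x * Pf χ f w := by
  have hmp : 0 < m := Nat.pos_of_ne_zero (NeZero.ne m)
  have hp : 0 < M * M * m := Nat.mul_pos (Nat.mul_pos hf.pos hf.pos) hmp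
  haveI : NeZero (M * M * m) := ⟨hp.ne'⟩
  obtain ⟨S⟩ := pe_rs D hp
  have hxw : RNP.O2 D ((M : ℂ) • ((x : ℂ) • w)) := by
    rw [smul_comm]
    exact RNP.O2_smul (D := D) x.2 hw
  have h1 := pe_eq χ ⟨M, hf⟩ (pe_val χ hf.pos hf hw S)
  have h2 := pe_eq χ ⟨M, hf⟩ (pe_val χ hf.pos hf hxw S)
  rw [h1, h2]
  have hxm : Cp m x := pe_cp_dvd (dvd_mul_left m M) hx
  have hxM : Cp M x := pe_cp_dvd (dvd_mul_right M m) hx
  have hx' : Cp (M * M * m) x := pe_cp_mul (pe_cp_mul hxM hxM) hxm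
  have h3 := rs_shift S hx' (pe_per χ hf hw)
  have h4 : χ.f x * (starRingEnd ℂ) (χ.f x) = 1 := pe_mul_br χ (Kc.norm χ hxm)
  unfold avg
  rw [← h3]
  have h5 : ∀ r : D.O, (starRingEnd ℂ) (χ.f (r * x)) * f (((r * x : D.O) : ℂ) • w) =
      (starRingEnd ℂ) (χ.f x) * ((starRingEnd ℂ) (χ.f r) * f ((r : ℂ) • ((x : ℂ) • w))) := by
    intro r
    rw [χ.mul, map_mul, smul_smul, Subring.coe_mul]
    ring
  rw [Finset.sum_congr rfl fun r _ => h5 r, ← Finset.mul_sum]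
  linear_combination (-(1 / (S.s.card : ℂ) * ∑ r ∈ S.s,
    (starRingEnd ℂ) (χ.f r) * f ((r : ℂ) • ((x : ℂ) • w)))) * h4

/-- functions of type `χ` are not changed -/
theorem Pf_id {N : ℕ} (hN : 0 < N) (hm : m ∣ N) {V : Finset ℂ} (hV : ∀ v ∈ V, v ∈ D.K)
    {f : Vec → ℂ} (hf : RNP.Fn D N V f)
    (he : ∀ x : D.O, Cp N x → ∀ w, RNP.O2 D w →
      f ((x : ℂ) • w) = χ.f x * f w) : Pf χ f = f := by
  have ha : RNP.Adm D N f := RNP.Fn_Adm (D := D) hN hV hf
  funext w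
  by_cases hw : RNP.O2 D w
  · refine pe_eq χ ⟨N, ha⟩ ⟨N, hN, fun M hM hd S => ?_⟩
    haveI : NeZero M := ⟨hM.ne'⟩
    have hc : (S.s.card : ℂ) ≠ 0 := by exact_mod_cast (card_pos S).ne'
    unfold avg
    have h1 : ∀ r ∈ S.s, (starRingEnd ℂ) (χ.f r) * f ((r : ℂ) • w) = f w := by
      intro r hr
      have hrN : Cp N r := pe_cp_dvd hd (S.cp r hr)
      have h4 : χ.f r * (starRingEnd ℂ) (χ.f r) = 1 :=
        pe_mul_br χ (Kc.norm χ (pe_cp_dvd hm hrN))
      rw [he r hrN w hw]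
      linear_combination (f w) * h4
    rw [Finset.sum_congr rfl h1, Finset.sum_const, nsmul_eq_mul]
    field_simp
  · have h1 : f w = 0 := by
      by_contra h
      exact hw (hf.supp w h)
    rw [h1]
    by_contra h2
    apply hw
    have h3 := pe_sup χ (k := 1) ha (fun v hv => by
      rw [Nat.cast_one, one_smul]
      exact hf.supp v hv) h2
    rwa [Nat.cast_one, one_smul] at h3

end

end RNG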