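import Pool.Agent.RNG.Et
import Pool.Agent.RNG.Pg
import Pool.Agent.RNP.CiA
import Pool.Agent.RNP.Ls

/-!
# RNG.Phi: the function `Ph` and changes of the representatives

`χ = ψ.hc.br`. `Ph ψ S w = Σ_I ψ(I) ni(I)² [w ∈ I²]`, bounded, `K`-valued, periodic.
* `ph_adm`: `f` admissible, `f w * Ph ψ S (M w)` is admissible: support in that of `f`; period: a multiple of the period of `f` and
  of `M ∏ ni I`.
* `tt_change` (and `ls_change`): let `f` be admissible of level `M`: `f (x w) = χ(x) f w` for `x` prime to `M m` and `M w ∈ O²`. Let `I, J` be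
  ideals prime to `M m`, `x I = y J`, `x, y` prime to `M m` (`ie_cp`). Then
  `ψ(I) ni(I)² TT (f 1_{(1/M) I²}) = ψ(J) ni(J)² TT (f 1_{(1/M) J²})`: substitute `w = (y / x) w'`: `M w ∈ I²` iff `M w' ∈ J²`.. ;
  for `M w' ∈ J²`, `M w = (y/x) M w' ∈ I²`: `χ(x) f(w) = f(x w) = f(y w') = χ(y) f(w')`; `KG` is homogeneous: `KG c1 c2 c3 p (t w) =
  t⁻⁴ t̄⁻² KG c1 c2 c3 p w` (see `RNP/Kn` or `RNK/Kn`, and `TT_act`, `TT_scal` in `RNP/CiA`); `ψ(I) η(x) x² = ψ(J) η(y) y²`,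
  `ni(I) nn(x) = ni(J) nn(y)`, `η χ = 1`. So the sum over the representatives does not depend on them.
* `ph_level`: `M ∣ M'`, `f` supported on `(1/M) O²`, `I` prime to `M' m`: for `M w ∈ O²`: `M w ∈ I²` iff `M' w ∈ I²` (`M' / M` is prime to `I`).
* `ph_act`: `g ∈ GL₂(K)`. For `M'` a multiple of `M`, of the denominators of `g` and `g⁻¹`, and of the level of `f ∘ g`, and `I` prime to
  `M' m n`, `n` = product of the denominators and the numerator norm of `det`: for `w` with `M' w ∈ O²` and `M (g w) ∈ O²`: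
  `M' w ∈ I²` iff `M' (g w) ∈ I²`.
-/

open RNK

namespace RNG

noncomputable section

variable {D : RNP.OD} [IsDedekindDomain D.O] {m : ℕ} [NeZero m] (ψ : Hk D m)

/-! ### `I²` -/

omit [IsDedekindDomain D.O] in
private theorem ph_in2 {I : Ideal D.O} {u : Vec} :
    In2 I u ↔ ∃ (h1 : u.1 ∈ D.O) (h2 : u.2 ∈ D.O), (⟨u.1, h1⟩ : D.O) ∈ I ∧ (⟨u.2, h2⟩ : D.O) ∈ I := by
  constructor
  · rintro ⟨x, hx, y, hy, rfl⟩
    exact ⟨x.2, y.2, hx, hy⟩
  · rintro ⟨h1, h2, h3, h4⟩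
    exact ⟨_, h3, _, h4, rfl⟩

omit [IsDedekindDomain D.O] in
private theorem ph_O2 {I : Ideal D.O} {u : Vec} (h : In2 I u) : RNP.O2 D u := by
  obtain ⟨x, hx, y, hy, rfl⟩ := h
  exact ⟨x.2, y.2⟩

omit [IsDedekindDomain D.O] in
private theorem ph_add {I : Ideal D.O} {u v : Vec} (h : In2 I u) (h' : In2 I v) :
    In2 I (u + v) := by
  obtain ⟨x, hx, y, hy, rfl⟩ := h
  obtain ⟨x', hx', y', hy', rfl⟩ := h'
  exact ⟨x + x', I.add_mem hx hx', y + y', I.add_mem hy hy', by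
    ext <;> simp⟩

omit [IsDedekindDomain D.O] in
private theorem ph_smul {I : Ideal D.O} {u : Vec} (a : D.O) (h : In2 I u) :
    In2 I ((a : ℂ) • u) := by
  obtain ⟨x, hx, y, hy, rfl⟩ := h
  exact ⟨a * x, I.mul_mem_left _ hx, a * y, I.mul_mem_left _ hy, by
    ext <;> simp⟩

omit [IsDedekindDomain D.O] in
private theorem ph_smul' {I : Ideal D.O} {u : Vec} {a : D.O} (ha : a ∈ I) (h : RNP.O2 D u) :
    In2 I ((a : ℂ) • u) :=
  ⟨a * ⟨u.1, h.1⟩, I.mul_mem_right _ ha, a * ⟨u.2, h.2⟩, I.mul_mem_right _ ha, by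
    ext <;> simp⟩

omit [IsDedekindDomain D.O] in
private theorem ph_mat {I : Ideal D.O} {u : Vec} {g : Mat} (hg : RNP.MO D g) (h : In2 I u) :
    In2 I (g.act u) := by
  obtain ⟨x, hx, y, hy, rfl⟩ := h
  obtain ⟨⟨ha, hb, hc, hd⟩, -⟩ := hg
  refine ⟨⟨g.a, ha⟩ * x + ⟨g.b, hb⟩ * y, I.add_mem (I.mul_mem_left _ hx) (I.mul_mem_left _ hy),
    ⟨g.c, hc⟩ * x + ⟨g.d, hd⟩ * y, I.add_mem (I.mul_mem_left _ hx) (I.mul_mem_left _ hy), ?_⟩
  ext
  · simp [Mat.act]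
  · simp [Mat.act]

omit [IsDedekindDomain D.O] in
/-- cancellation of an element prime to `I` -/
private theorem ph_can {I : Ideal D.O} {a : D.O} (ha : ∃ x ∈ I, ∃ y : D.O, x = 1 + a * y) {u : Vec}
    (hu : RNP.O2 D u) (h : In2 I ((a : ℂ) • u)) : In2 I u := by
  obtain ⟨x, hx, y, hxy⟩ := ha
  have h1 := ph_add (ph_smul' hx hu) (ph_smul (-y) h)
  have e : (x : ℂ) • u + (((-y : D.O)) : ℂ) • ((a : ℂ) • u) = u := by
    rw [hxy, smul_smul, ← add_smul]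
    have e1 : (((1 + a * y : D.O)) : ℂ) + (((-y : D.O)) : ℂ) * (a : ℂ) = 1 := by
      push_cast
      ring
    rw [e1, one_smul]
  rwa [e] at h1

omit [IsDedekindDomain D.O] in
private theorem ph_cross {I J : Ideal D.O} {x y : D.O} (hx : x ≠ 0)
    (h : Ideal.span {x} * I = Ideal.span {y} * J) {u : Vec} (hu : In2 J u) :
    In2 I (((y : ℂ) / (x : ℂ)) • u) := by
  have hx' : (x : ℂ) ≠ 0 := fun h => hx (Subtype.ext h)
  obtain ⟨a, ha, b, hb, rfl⟩ := hu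
  have key : ∀ c ∈ J, ∃ c' ∈ I, ((y : ℂ) / (x : ℂ)) * (c : ℂ) = (c' : ℂ) := by
    intro c hc
    have h1 : y * c ∈ Ideal.span {x} * I := by
      rw [h]
      exact Ideal.mul_mem_mul (Ideal.mem_span_singleton_self y) hc
    obtain ⟨c', hc', h2⟩ := Ideal.mem_span_singleton_mul.1 h1
    refine ⟨c', hc', ?_⟩
    have h3 : (x : ℂ) * (c' : ℂ) = (y : ℂ) * (c : ℂ) := by
      have := congrArg (fun z : D.O => (z : ℂ)) h2
      simpa using this
    field_simp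
    linear_combination -h3
  obtain ⟨a', ha', h1⟩ := key a ha
  obtain ⟨b', hb', h2⟩ := key b hb
  exact ⟨a', ha', b', hb', by
    ext
    · simpa using h1
    · simpa using h2⟩

/-! ### admissibility -/

open Classical in
omit [IsDedekindDomain D.O] in
private theorem ph_one {f : Vec → ℂ} (hf : RNP.AdmE D f) (s : ℕ) {I : Ideal D.O}
    (hI : I ≠ ⊥) :
    RNP.AdmE D (fun w => f w * (if In2 I ((s : ℂ) • w) then 1 else 0)) := by
  obtain ⟨L, hf⟩ := hf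
  have hn : 0 < ni I := Nat.pos_of_ne_zero (ni_ne.2 hI)
  have hf' := RNP.Adm_up hf (dvd_mul_right L (ni I)) (Nat.mul_pos hf.pos hn)
  refine ⟨L * ni I, ?_⟩
  constructor
  · exact hf'.pos
  · intro w
    refine D.K.mul_mem (hf'.val w) ?_
    split_ifs
    · exact D.K.one_mem
    · exact D.K.zero_mem
  · intro w hw
    exact hf'.supp w (left_ne_zero_of_mul hw)
  · intro w v hv
    show f (w + ((L * ni I : ℕ) : ℂ) • v) *
      (if In2 I ((s : ℂ) • (w + ((L * ni I : ℕ) : ℂ) • v)) then 1 else 0) = _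
    rw [hf'.per w v hv]
    have h1 : In2 I ((s : ℂ) • (((L * ni I : ℕ) : ℂ) • v)) := by
      have h2 : (((s * L : ℕ) : D.O) * ((ni I : ℕ) : D.O)) ∈ I :=
        I.mul_mem_left _ (ni_mem I)
      have h3 := ph_smul' h2 hv
      have e : (s : ℂ) • (((L * ni I : ℕ) : ℂ) • v) =
          ((((s * L : ℕ) : D.O) * ((ni I : ℕ) : D.O) : D.O) : ℂ) • v := by
        rw [smul_smul]
        congr 1
        push_cast
        ring
      rw [e]
      exact h3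
    have h4 : In2 I ((s : ℂ) • (w + ((L * ni I : ℕ) : ℂ) • v)) ↔ In2 I ((s : ℂ) • w) := by
      rw [smul_add]
      constructor
      · intro h
        have h5 := ph_add h (ph_smul (-1) h1)
        have e : (s : ℂ) • w + (s : ℂ) • (((L * ni I : ℕ) : ℂ) • v) +
            (((-1 : D.O)) : ℂ) • ((s : ℂ) • (((L * ni I : ℕ) : ℂ) • v)) = (s : ℂ) • w := by
          have e1 : (((-1 : D.O)) : ℂ) = -1 := by push_cast; rfl
          rw [e1, neg_one_smul]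
          abel
        rwa [e] at h5
      · intro h
        exact ph_add h h1
    simp only [h4]

private theorem ph_dvd {N N' : ℕ} (h : N ∣ N') {x : D.O} (hx : Cp N' x) : Cp N x := by
  obtain ⟨k, rfl⟩ := h
  unfold Cp at hx ⊢
  rw [Nat.cast_mul] at hx
  exact IsCoprime.of_mul_right_left hx

private theorem ph_eta {x : D.O} (hx : Cp m x) : ψ.hc.f x * ψ.hc.br.f x = 1 := by
  have h1 := Kc.norm ψ.hc.br hx
  have h2 : ψ.hc.br.f x = (starRingEnd ℂ) (ψ.hc.f x) := rfl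
  rw [h2] at h1 ⊢
  rw [RCLike.norm_conj] at h1
  rw [Complex.mul_conj, Complex.normSq_eq_norm_sq, h1]
  simp

open Classical in
/-- the change of one representative -/
private theorem ph_key {α : Type*} [AddCommGroup α] [Module ℂ α] (e : α → Vec)
    (he : ∀ (t : ℂ) (a : α), e (t • a) = t • e a) (k : α → ℂ)
    (hk : ∀ t : ℂ, t ≠ 0 → ∀ a, k (t • a) = (t ^ 4 * (starRingEnd ℂ) t ^ 2)⁻¹ * k a)
    {s N : ℕ} (hN : m ∣ N) {f : Vec → ℂ}
    (hf : ∀ w, RNP.O2 D ((s : ℂ) • w) → ∀ x : D.O, Cp N x →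
      f ((x : ℂ) • w) = ψ.hc.br.f x * f w)
    {I J : Ideal D.O} (hI : Ip N I) (hJ : Ip N J) (h : Ie I J) :
    ∑' a, ψ.f I * ((ni I : ℕ) : ℂ) ^ 2 * (f (e a) *
        (if In2 I ((s : ℂ) • e a) then 1 else 0) * k a) =
      ∑' a, ψ.f J * ((ni J : ℕ) : ℂ) ^ 2 * (f (e a) *
        (if In2 J ((s : ℂ) • e a) then 1 else 0) * k a) := by
  obtain ⟨x, y, hx, hy, hcx, hcy, hs⟩ := ie_cp hI hJ h
  have hx' : (x : ℂ) ≠ 0 := fun h => hx (Subtype.ext h)
  have hy' : (y : ℂ) ≠ 0 := fun h => hy (Subtype.ext h)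
  have ht : (y : ℂ) / (x : ℂ) ≠ 0 := div_ne_zero hy' hx'
  rw [← (MulAction.toPerm (Units.mk0 _ ht) : Equiv.Perm α).tsum_eq]
  refine tsum_congr fun a => ?_
  have ha : (MulAction.toPerm (Units.mk0 _ ht) : Equiv.Perm α) a = ((y : ℂ) / (x : ℂ)) • a := rfl
  rw [ha, he, hk _ ht]
  have hiff : In2 I ((s : ℂ) • (((y : ℂ) / (x : ℂ)) • e a)) ↔ In2 J ((s : ℂ) • e a) := by
    rw [smul_comm]
    constructor
    · intro h1
      have h2 := ph_cross hy hs.symm h1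
      rwa [smul_smul, div_mul_div_cancel₀ hy', div_self hx', one_smul] at h2
    · intro h1
      exact ph_cross hx hs h1
  by_cases hc : In2 J ((s : ℂ) • e a)
  · rw [if_pos hc, if_pos (hiff.2 hc)]
    have o1 := ph_O2 hc
    have o2 := ph_O2 (hiff.2 hc)
    have f1 := hf _ o2 x hcx
    have f2 := hf _ o1 y hcy
    have e1 : (x : ℂ) • (((y : ℂ) / (x : ℂ)) • e a) = (y : ℂ) • e a := by
      rw [smul_smul]
      congr 1
      field_simp
    rw [e1, f2] at f1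
    have g1 := ph_eta ψ (ph_dvd hN hcx)
    have g2 := ph_eta ψ (ph_dvd hN hcy)
    have p1 : ψ.f (Ideal.span {x}) * ψ.f I = ψ.f (Ideal.span {y}) * ψ.f J := by
      rw [← ψ.mul, ← ψ.mul, hs]
    rw [psi_span ψ hx, psi_span ψ hy] at p1
    have n1 : nn D x * ni I = nn D y * ni J := by
      rw [← ni_span, ← ni_span, ← ni_mul, ← ni_mul, hs]
    have n2 : ((x : ℂ) * (starRingEnd ℂ) (x : ℂ)) * ((ni I : ℕ) : ℂ) =
        ((y : ℂ) * (starRingEnd ℂ) (y : ℂ)) * ((ni J : ℕ) : ℂ) := by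
      rw [nn_mul_cj, nn_mul_cj]
      exact_mod_cast n1
    have cx : (starRingEnd ℂ) (x : ℂ) ≠ 0 := (map_ne_zero (starRingEnd ℂ)).2 hx'
    have cy : (starRingEnd ℂ) (y : ℂ) ≠ 0 := (map_ne_zero (starRingEnd ℂ)).2 hy'
    rw [map_div₀]
    generalize (starRingEnd ℂ) (x : ℂ) = X' at *
    generalize (starRingEnd ℂ) (y : ℂ) = Y' at *
    generalize (x : ℂ) = X at *
    generalize (y : ℂ) = Y at *
    generalize ((ni I : ℕ) : ℂ) = nI at *
    generalize ((ni J : ℕ) : ℂ) = nJ at *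
    generalize ψ.f I = pI at *
    generalize ψ.f J = pJ at *
    generalize ψ.hc.br.f x = cx' at *
    generalize ψ.hc.br.f y = cy' at *
    generalize ψ.hc.f x = dx at *
    generalize ψ.hc.f y = dy at *
    generalize f ((Y / X) • e a) = F at *
    generalize f (e a) = G at *
    generalize k a = κ at *
    have q1 : X ^ 2 * pI = cx' * dy * Y ^ 2 * pJ := by
      linear_combination cx' * p1 - (X ^ 2 * pI) * g1
    have q2 : (X * X' * nI) ^ 2 = (Y * Y' * nJ) ^ 2 := by rw [n2]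
    have q3 : pI * nI ^ 2 * F * (X ^ 4 * X' ^ 2) = pJ * nJ ^ 2 * G * (Y ^ 4 * Y' ^ 2) := by
      have r1 : pI * nI ^ 2 * F * (X ^ 4 * X' ^ 2) = (X ^ 2 * pI) * (X * X' * nI) ^ 2 * F := by
        ring
      rw [r1, q1, q2]
      linear_combination (-(dy * Y ^ 2 * pJ * (Y * Y' * nJ) ^ 2)) * f1 +
        (pJ * nJ ^ 2 * G * (Y ^ 4 * Y' ^ 2)) * g2
    field_simp
    linear_combination κ * q3
  · rw [if_neg hc, if_neg (fun h => hc (hiff.1 h))]
    simp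

omit [IsDedekindDomain D.O] in
/-- sums over representatives -/
private theorem ph_rep {N : ℕ} (S S' : Rp D N) {G : Ideal D.O → ℂ}
    (h : ∀ I J, Ip N I → Ip N J → Ie I J → G I = G J) :
    ∑ I ∈ S.s, G I = ∑ I ∈ S'.s, G I := by
  have hch : ∀ I, ∃ J, I ∈ S.s → J ∈ S'.s ∧ Ie I J := by
    intro I
    by_cases hI : I ∈ S.s
    · obtain ⟨J, h1, h2⟩ := S'.ex I (S.cp I hI).1
      exact ⟨J, fun _ => ⟨h1, h2⟩⟩
    · exact ⟨⊥, fun h => absurd h hI⟩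
  choose r hr using hch
  refine Finset.sum_bij (fun I _ => r I) (fun I hI => (hr I hI).1) ?_ ?_ ?_
  · intro I hI J hJ hIJ
    have h1 := (hr I hI).2
    have h2 := (hr J hJ).2
    have h3 : r I = r J := hIJ
    rw [h3] at h1
    exact S.un I hI J hJ (ie_trans h1 (ie_symm h2))
  · intro J hJ
    obtain ⟨I, h1, h2⟩ := S.ex J (S'.cp J hJ).1
    refine ⟨I, h1, ?_⟩
    exact (S'.un J hJ (r I) (hr I h1).1 (ie_trans h2 (hr I h1).2)).symm
  · intro I hI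
    exact h I (r I) (S.cp I hI) (S'.cp _ (hr I hI).1) (hr I hI).2

open Classical in
omit [IsDedekindDomain D.O] in
private theorem ph_ex {M : ℕ} (S : Rp D M) (c v : ℂ) (w : Vec) :
    c * Ph ψ S w * v = ∑ I ∈ S.s, ψ.f I * ((ni I : ℕ) : ℂ) ^ 2 *
      (c * (if In2 I w then 1 else 0) * v) := by
  unfold Ph
  rw [Finset.mul_sum, Finset.sum_mul]
  refine Finset.sum_congr rfl fun I _ => ?_
  ring

private theorem ph_TT {s N : ℕ} (hN : m ∣ N) {f : Vec → ℂ} (hA : RNP.AdmE D f)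
    (hf : ∀ w, RNP.O2 D ((s : ℂ) • w) → ∀ x : D.O, Cp N x →
      f ((x : ℂ) • w) = ψ.hc.br.f x * f w)
    (S S' : Rp D N) {x y z p : Vec} (hx : RNP.Cu D x) (hy : RNP.Cu D y) (hz : RNP.Cu D z)
    (hp : RNP.K2 D p) :
    TT (fun w => f w * Ph ψ S ((s : ℂ) • w)) x y z p =
      TT (fun w => f w * Ph ψ S' ((s : ℂ) • w)) x y z p := by
  classical
  have h1 : ∀ S : Rp D N, TT (fun w => f w * Ph ψ S ((s : ℂ) • w)) x y z p =
      ∑ I ∈ S.s, ∑' w, ψ.f I * ((ni I : ℕ) : ℂ) ^ 2 * (f w *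
        (if In2 I ((s : ℂ) • w) then 1 else 0) * KG x y z p w) := by
    intro S
    unfold TT
    have h2 : ∀ w, (fun w => f w * Ph ψ S ((s : ℂ) • w)) w * KG x y z p w =
        ∑ I ∈ S.s, ψ.f I * ((ni I : ℕ) : ℂ) ^ 2 * (f w *
        (if In2 I ((s : ℂ) • w) then 1 else 0) * KG x y z p w) := by
      intro w
      show f w * Ph ψ S ((s : ℂ) • w) * KG x y z p w = _
      rw [ph_ex]
    rw [tsum_congr h2]
    refine Summable.tsum_finsetSum fun I hI => ?_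
    exact (RNP.TT_summable (ph_one hA s (S.cp I hI).1) hx hy hz hp).mul_left _
  rw [h1, h1]
  refine ph_rep S S' fun I J hI hJ h => ?_
  exact ph_key ψ (fun w : Vec => w) (fun _ _ => rfl) (fun w => KG x y z p w)
    (fun t ht a => KG_hom ht x y z p a) hN hf hI hJ h

private theorem ph_ls {s N : ℕ} (hN : m ∣ N) {f : Vec → ℂ} (hA : RNP.AdmE D f)
    (hf : ∀ w, RNP.O2 D ((s : ℂ) • w) → ∀ x : D.O, Cp N x →
      f ((x : ℂ) • w) = ψ.hc.br.f x * f w)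
    (S S' : Rp D N) {c : Vec} (hc : RNP.Cu D c) :
    RNP.ls (fun w => f w * Ph ψ S ((s : ℂ) • w)) c =
      RNP.ls (fun w => f w * Ph ψ S' ((s : ℂ) • w)) c := by
  classical
  have h1 : ∀ S : Rp D N, RNP.ls (fun w => f w * Ph ψ S ((s : ℂ) • w)) c =
      ∑ I ∈ S.s, ∑' t : ℂ, ψ.f I * ((ni I : ℕ) : ℂ) ^ 2 * (f (t • c) *
        (if In2 I ((s : ℂ) • (t • c)) then 1 else 0) * (t ^ 4 * (starRingEnd ℂ) t ^ 2)⁻¹) := by
    intro S
    unfold RNP.ls
    have h2 : ∀ t : ℂ, (fun w => f w * Ph ψ S ((s : ℂ) • w)) (t • c) *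
          (t ^ 4 * (starRingEnd ℂ) t ^ 2)⁻¹ =
        ∑ I ∈ S.s, ψ.f I * ((ni I : ℕ) : ℂ) ^ 2 * (f (t • c) *
        (if In2 I ((s : ℂ) • (t • c)) then 1 else 0) * (t ^ 4 * (starRingEnd ℂ) t ^ 2)⁻¹) := by
      intro t
      show f (t • c) * Ph ψ S ((s : ℂ) • (t • c)) * (t ^ 4 * (starRingEnd ℂ) t ^ 2)⁻¹ = _
      rw [ph_ex]
    rw [tsum_congr h2]
    refine Summable.tsum_finsetSum fun I hI => ?_
    exact (RNP.ls_summable (ph_one hA s (S.cp I hI).1) hc).mul_left _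
  rw [h1, h1]
  refine ph_rep S S' fun I J hI hJ h => ?_
  refine ph_key ψ (fun t : ℂ => t • c) (fun t a => ?_)
    (fun t => (t ^ 4 * (starRingEnd ℂ) t ^ 2)⁻¹) (fun t ht a => ?_) hN hf hI hJ h
  · show (t • a) • c = t • (a • c)
    rw [smul_assoc]
  · show ((t • a) ^ 4 * (starRingEnd ℂ) (t • a) ^ 2)⁻¹ = _
    rw [smul_eq_mul, map_mul, ← mul_inv]
    congr 1
    ring

omit [IsDedekindDomain D.O] in
/-- denominators of matrices -/
private theorem ph_den {g : Mat} (hg : RNP.GK D g) :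
    ∃ n : ℕ, 0 < n ∧ ∀ (I : Ideal D.O) (u : Vec), In2 I u → In2 I ((n : ℂ) • g.act u) := by
  obtain ⟨n1, h1, h2⟩ := RNP.clear (D := D) (w := (g.a, g.b)) ⟨hg.1.1, hg.1.2.1⟩
  obtain ⟨n2, h3, h4⟩ := RNP.clear (D := D) (w := (g.c, g.d)) ⟨hg.1.2.2.1, hg.1.2.2.2⟩
  have a1 : (n1 : ℂ) * g.a ∈ D.O := h2.1
  have a2 : (n1 : ℂ) * g.b ∈ D.O := h2.2
  have a3 : (n2 : ℂ) * g.c ∈ D.O := h4.1
  have a4 : (n2 : ℂ) * g.d ∈ D.O := h4.2
  refine ⟨n1 * n2, Nat.mul_pos h1 h3, fun I u hu => ?_⟩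
  obtain ⟨x, hx, y, hy, rfl⟩ := hu
  refine ⟨((n2 : ℕ) : D.O) * (⟨_, a1⟩ * x + ⟨_, a2⟩ * y),
    I.mul_mem_left _ (I.add_mem (I.mul_mem_left _ hx) (I.mul_mem_left _ hy)),
    ((n1 : ℕ) : D.O) * (⟨_, a3⟩ * x + ⟨_, a4⟩ * y),
    I.mul_mem_left _ (I.add_mem (I.mul_mem_left _ hx) (I.mul_mem_left _ hy)), ?_⟩
  ext
  · simp [Mat.act]
    ring
  · simp [Mat.act]
    ring

omit [IsDedekindDomain D.O] in
private theorem ph_ipone {N n : ℕ} (h : n ∣ N) {I : Ideal D.O} (hI : Ip N I) :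
    ∃ x ∈ I, ∃ y : D.O, x = 1 + ((n : ℕ) : D.O) * y :=
  ip_one (ip_dvd h hI)

omit [IsDedekindDomain D.O] in
private theorem ph_cong {M : ℕ} (S : Rp D M) {w w' : Vec}
    (h : ∀ I ∈ S.s, In2 I w ↔ In2 I w') : Ph ψ S w = Ph ψ S w' := by
  classical
  unfold Ph
  refine Finset.sum_congr rfl fun I hI => ?_
  by_cases hc : In2 I w'
  · rw [if_pos hc, if_pos ((h I hI).2 hc)]
  · rw [if_neg hc, if_neg fun h' => hc ((h I hI).1 h')]

theorem ph_K {M : ℕ} (S : Rp D M) (w : Vec) : Ph ψ S w ∈ D.K := by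
  unfold Ph
  refine Subfield.sum_mem _ fun I _ => D.K.mul_mem (D.K.mul_mem (ψ.val I) ?_) ?_
  · exact pow_mem (natCast_mem _ _) 2
  · split_ifs
    · exact D.K.one_mem
    · exact D.K.zero_mem

/-- `Ph` is invariant under `GL₂(O)` -/
theorem ph_GO {M : ℕ} (S : Rp D M) {g : Mat} (hg : RNP.GO D g) (w : Vec) :
    Ph ψ S (g.act w) = Ph ψ S w := by
  refine ph_cong ψ S fun I _ => ⟨fun h => ?_, fun h => ph_mat hg.1 h⟩
  have h1 := ph_mat (RNP.GO_inv hg).1 h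
  rwa [RNP.inv_act hg.1.2] at h1

theorem ph_adm {M : ℕ} {f : Vec → ℂ} (hf : RNP.AdmE D f) {M' : ℕ} (hM' : 0 < M') (S : Rp D M) :
    RNP.AdmE D (fun w => f w * Ph ψ S ((M' : ℂ) • w)) := by
  classical
  have _ := hM'
  have h1 : (fun w => f w * Ph ψ S ((M' : ℂ) • w)) = fun w => ∑ I ∈ S.s,
      ψ.f I * ((ni I : ℕ) : ℂ) ^ 2 * (f w * (if In2 I ((M' : ℂ) • w) then 1 else 0)) := by
    funext w
    have h2 := ph_ex ψ S (f w) 1 ((M' : ℂ) • w)
    simpa using h2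
  rw [h1]
  refine RNP.AdmE_sum S.s fun I hI => RNP.AdmE_smul ?_ (ph_one hf M' (S.cp I hI).1)
  exact D.K.mul_mem (ψ.val I) (pow_mem (natCast_mem _ _) 2)

/-- functions of type `χ` -/
def Ty (χ : Kc D m) (M : ℕ) (f : Vec → ℂ) : Prop :=
  ∀ w, RNP.O2 D ((M : ℂ) • w) → ∀ x : D.O, Cp (M * m) x → f ((x : ℂ) • w) = χ.f x * f w

theorem tt_change {M : ℕ} {f : Vec → ℂ} (hf : RNP.Adm D M f) (he : Ty ψ.hc.br M f)
    (S S' : Rp D (M * m)) {x y z p : Vec} (hx : RNP.Cu D x) (hy : RNP.Cu D y) (hz : RNP.Cu D z)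
    (hp : RNP.K2 D p) :
    TT (fun w => f w * Ph ψ S ((M : ℂ) • w)) x y z p =
      TT (fun w => f w * Ph ψ S' ((M : ℂ) • w)) x y z p :=
  ph_TT ψ (dvd_mul_left m M) ⟨M, hf⟩ he S S' hx hy hz hp

theorem ls_change {M : ℕ} {f : Vec → ℂ} (hf : RNP.Adm D M f) (he : Ty ψ.hc.br M f)
    (S S' : Rp D (M * m)) {c : Vec} (hc : RNP.Cu D c) :
    RNP.ls (fun w => f w * Ph ψ S ((M : ℂ) • w)) c =
      RNP.ls (fun w => f w * Ph ψ S' ((M : ℂ) • w)) c :=
  ph_ls ψ (dvd_mul_left m M) ⟨M, hf⟩ he S S' hc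

theorem ph_level {M M' : ℕ} (h : M ∣ M') (hM' : 0 < M') {f : Vec → ℂ} (hf : RNP.Adm D M f)
    (S : Rp D (M' * m)) (w : Vec) :
    f w * Ph ψ S ((M' : ℂ) • w) = f w * Ph ψ S ((M : ℂ) • w) := by
  have _ := hM'
  by_cases h0 : f w = 0
  · rw [h0, zero_mul, zero_mul]
  · have h1 := hf.supp w h0
    congr 1
    obtain ⟨k, rfl⟩ := h
    refine ph_cong ψ S fun I hI => ?_
    have e : (((M * k : ℕ) : ℂ)) • w = (((k : ℕ) : D.O) : ℂ) • ((M : ℂ) • w) := by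
      rw [smul_smul]
      congr 1
      push_cast
      ring
    rw [e]
    constructor
    · intro h2
      exact ph_can (ph_ipone ((dvd_mul_left k M).trans (dvd_mul_right _ m)) (S.cp I hI)) h1 h2
    · intro h2
      exact ph_smul _ h2

/-- the level can be raised -/
theorem ph_act {M : ℕ} {f : Vec → ℂ} (hf : RNP.Adm D M f) {g : Mat} (hg : RNP.GK D g) :
    ∃ M' : ℕ, M ∣ M' ∧ RNP.Adm D M' f ∧ RNP.Adm D M' (fun w => f (g.act w)) ∧
      ∃ n : ℕ, 0 < n ∧ ∀ S : Rp D (M' * m * n), ∀ w, f (g.act w) *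
        Ph ψ S ((M' : ℂ) • g.act w) = f (g.act w) * Ph ψ S ((M' : ℂ) • w) := by
  obtain ⟨L, hL⟩ := RNP.AdmE_act (D := D) hg ⟨M, hf⟩
  obtain ⟨n1, h1, h2⟩ := ph_den (D := D) hg
  obtain ⟨n2, h3, h4⟩ := ph_den (D := D) (RNP.GK_inv hg)
  have hp : 0 < M * L := Nat.mul_pos hf.pos hL.pos
  have hf' := RNP.Adm_up hf (dvd_mul_right M L) hp
  have hL' := RNP.Adm_up hL (dvd_mul_left L M) hp
  refine ⟨M * L, dvd_mul_right M L, hf', hL', n1 * n2, Nat.mul_pos h1 h3, fun S w => ?_⟩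
  by_cases h0 : f (g.act w) = 0
  · rw [h0, zero_mul, zero_mul]
  · have o1 := hf'.supp _ h0
    have o2 := hL'.supp w h0
    congr 1
    refine ph_cong ψ S fun I hI => ⟨fun h => ?_, fun h => ?_⟩
    · refine ph_can (a := ((n2 : ℕ) : D.O)) (ph_ipone ((dvd_mul_left n2 n1).trans
        (dvd_mul_left _ _)) (S.cp I hI)) o2 ?_
      have h5 := h4 I _ h
      rw [RNP.act_smul, RNP.inv_act hg.2] at h5
      have e : (((((n2 : ℕ) : D.O)) : ℂ)) = (n2 : ℂ) := by push_cast; rfl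
      rw [e]
      exact h5
    · refine ph_can (a := ((n1 : ℕ) : D.O)) (ph_ipone ((dvd_mul_right n1 n2).trans
        (dvd_mul_left _ _)) (S.cp I hI)) o1 ?_
      have h5 := h2 I _ h
      rw [RNP.act_smul] at h5
      have e : (((((n1 : ℕ) : D.O)) : ℂ)) = (n1 : ℂ) := by push_cast; rfl
      rw [e]
      exact h5

/-- functions on `O²` of level `N` and type `χ` -/
theorem tt_change0 {N : ℕ} [NeZero N] (hm : m ∣ N) {V : Finset ℂ} (hV : ∀ v ∈ V, v ∈ D.K)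
    {f : Vec → ℂ} (hf : RNP.Fn D N V f)
    (he : ∀ x : D.O, Cp N x → ∀ w, RNP.O2 D w → f ((x : ℂ) • w) = ψ.hc.br.f x * f w)
    (S S' : Rp D N) {x y z p : Vec} (hx : RNP.Cu D x) (hy : RNP.Cu D y) (hz : RNP.Cu D z)
    (hp : RNP.K2 D p) :
    TT (fun w => f w * Ph ψ S w) x y z p = TT (fun w => f w * Ph ψ S' w) x y z p := by
  have h1 := ph_TT ψ (s := 1) hm
    (RNP.Fn_AdmE (D := D) (Nat.pos_of_ne_zero (NeZero.ne N)) hV hf) (fun w hw r hr => by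
      rw [Nat.cast_one, one_smul] at hw
      exact he r hr w hw) S S' hx hy hz hp
  simpa only [Nat.cast_one, one_smul] using h1

end

end RNG
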