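import Pool.Agent.RNG.Lsp
import Pool.Agent.RNG.Bpg
import Pool.Agent.RNP.Tv

/-!
# RNG.Tp: the twisted symbol of a Hecke character
-/

open RNK

namespace RNG

noncomputable section

variable {D : RNP.OD} [IsDedekindDomain D.O] {m : ℕ} [NeZero m] (ψ : Hk D m)

theorem Pf_ty {χ : Kc D m} {M : ℕ} {f : Vec → ℂ} (hf : RNP.Adm D M f) : Ty χ M (Pf χ f) :=
  fun _ hw _ hx => Pf_eqv χ hf hw hx

private theorem tp_pos {M : ℕ} {f : Vec → ℂ} (hf : RNP.Adm D M f) : 0 < M * m :=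
  Nat.mul_pos hf.pos (Nat.pos_of_ne_zero (NeZero.ne m))

/-- raising the level -/
private theorem tp_up {M M' : ℕ} {f : Vec → ℂ} (hf : RNP.Adm D M f) (h : M ∣ M')
    (hM' : 0 < M') (S : Rp D (M * m)) (S' : Rp D (M' * m)) {x y z p : Vec} (hx : RNP.Cu D x)
    (hy : RNP.Cu D y) (hz : RNP.Cu D z) (hp : RNP.K2 D p) :
    TT (fun w => Pf ψ.hc.br f w * Ph ψ S ((M : ℂ) • w)) x y z p =
      TT (fun w => Pf ψ.hc.br f w * Ph ψ S' ((M' : ℂ) • w)) x y z p := by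
  have hP := Pf_adm ψ.hc.br hf
  have hd : M * m ∣ M' * m := Nat.mul_dvd_mul_right h m
  rw [tt_change ψ hP (Pf_ty hf) S (S'.dn hd) hx hy hz hp]
  congr 1
  funext w
  exact (ph_level ψ h hM' hP S' w).symm

/-- the presentation `f ↦ Pf f * Ph` -/
def twP : RNP.Tw D (Lps ψ) where
  ι := Unit
  fin := inferInstance
  R f P := ∃ (M : ℕ) (S : Rp D (M * m)), RNP.Adm D M f ∧
    P = fun _ w => Pf ψ.hc.br f w * Ph ψ S ((M : ℂ) • w)
  adm := by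
    rintro f P ⟨M, S, hM, rfl⟩ i
    exact ph_adm ψ ⟨M, Pf_adm _ hM⟩ hM.pos S
  ex := by
    rintro f ⟨M, hM⟩
    obtain ⟨S⟩ := rp_ex (D := D) (tp_pos (m := m) hM)
    exact ⟨_, M, S, hM, rfl⟩
  uniq := by
    rintro f P Q ⟨M, S, hM, rfl⟩ ⟨M', S', hM', rfl⟩ x y z p hx hy hz hp
    have h0 : 0 < M * M' := Nat.mul_pos hM.pos hM'.pos
    obtain ⟨S''⟩ := rp_ex (D := D) (M := M * M' * m)
      (Nat.mul_pos h0 (Nat.pos_of_ne_zero (NeZero.ne m)))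
    simp only [Finset.univ_unique, Finset.sum_singleton]
    rw [tp_up ψ hM (dvd_mul_right M M') h0 S S'' hx hy hz hp,
      tp_up ψ hM' (dvd_mul_left M' M) h0 S' S'' hx hy hz hp]
  add := by
    rintro f g ⟨M, hM⟩ ⟨M', hM'⟩
    have h0 : 0 < M * M' := Nat.mul_pos hM.pos hM'.pos
    have h1 := RNP.Adm_up hM (dvd_mul_right M M') h0
    have h2 := RNP.Adm_up hM' (dvd_mul_left M' M) h0
    obtain ⟨S⟩ := rp_ex (D := D) (tp_pos (m := m) h1)
    have h3 : RNP.Adm D (M * M') (fun w => f w + g w) := by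
      refine ⟨h0, fun w => D.K.add_mem (h1.val w) (h2.val w), fun w hw => ?_, fun w v hv => ?_⟩
      · by_cases hf : f w = 0
        · have hg : g w ≠ 0 := by
            intro hg
            apply hw
            rw [hf, hg, add_zero]
          exact h2.supp w hg
        · exact h1.supp w hf
      · rw [h1.per w v hv, h2.per w v hv]
    refine ⟨_, _, ⟨M * M', S, h1, rfl⟩, ⟨M * M', S, h2, rfl⟩, M * M', S, h3, ?_⟩
    funext _ w
    rw [Pf_add _ ⟨_, h1⟩ ⟨_, h2⟩]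
    ring
  smul := by
    rintro f P ⟨M, S, hM, rfl⟩ k hk
    have h3 : RNP.Adm D M (fun w => k * f w) := by
      refine ⟨hM.pos, fun w => D.K.mul_mem hk (hM.val w), fun w hw => hM.supp w ?_, fun w v hv => ?_⟩
      · intro h
        apply hw
        rw [h, mul_zero]
      · rw [hM.per w v hv]
    refine ⟨M, S, h3, ?_⟩
    funext _ w
    rw [Pf_smul _ ⟨_, hM⟩ hk]
    ring
  act := by
    rintro f ⟨M₁, hM₁⟩ g hg
    obtain ⟨M₂, hM₂⟩ := RNP.AdmE_act (D := D) hg ⟨M₁, hM₁⟩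
    have h0 : 0 < M₁ * M₂ := Nat.mul_pos hM₁.pos hM₂.pos
    have hM := RNP.Adm_up hM₁ (dvd_mul_right M₁ M₂) h0
    have hM' := RNP.Adm_up hM₂ (dvd_mul_left M₂ M₁) h0
    obtain ⟨M', h1, h2, h3, n, hn, h4⟩ := ph_act ψ (Pf_adm ψ.hc.br hM) hg
    have hp : 0 < M' * m * n :=
      Nat.mul_pos (Nat.mul_pos h2.pos (Nat.pos_of_ne_zero (NeZero.ne m))) hn
    obtain ⟨S⟩ := rp_ex (D := D) hp
    refine ⟨_, ⟨M', S.dn (dvd_mul_right _ n), RNP.Adm_up hM h1 h2.pos, rfl⟩,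
      M', S.dn (dvd_mul_right _ n), RNP.Adm_up hM' h1 h2.pos, ?_⟩
    funext _ w
    rw [Pf_act _ ⟨M₁, hM₁⟩ hg]
    exact h4 S w
  line := by
    rintro f P ⟨M, S, hM, rfl⟩ c hc
    obtain ⟨k, hk, e⟩ := ls_psi ψ (Pf_adm ψ.hc.br hM) (Pf_ty hM) S hc
    refine ⟨k, hk, ?_⟩
    simpa using e

/-- sums over the classes mod a multiple -/
private theorem tp_sum {N N' : ℕ} [NeZero N] [NeZero N'] (h : N ∣ N') {g : ℤ × ℤ → ℂ}
    (hg : ∀ u v : ℤ × ℤ, g (u.1 + N * v.1, u.2 + N * v.2) = g u)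
    (h0 : ∑ k : ZMod N × ZMod N, g ((k.1.val : ℤ), (k.2.val : ℤ)) = 0) :
    ∑ k : ZMod N' × ZMod N', g ((k.1.val : ℤ), (k.2.val : ℤ)) = 0 := by
  classical
  let φ₀ : ZMod N' →+ ZMod N := (ZMod.castHom h (ZMod N)).toAddMonoidHom
  let φ : ZMod N' × ZMod N' →+ ZMod N × ZMod N := φ₀.prodMap φ₀
  have hs0 : Function.Surjective φ₀ := ZMod.ringHom_surjective (ZMod.castHom h (ZMod N))
  have hs : Function.Surjective φ := Function.Surjective.prodMap hs0 hs0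
  have hv : ∀ k : ZMod N', ∃ c : ℤ, (k.val : ℤ) = ((φ₀ k).val : ℤ) + N * c := by
    intro k
    have h1 : (((k.val : ℤ) - ((φ₀ k).val : ℤ) : ℤ) : ZMod N) = 0 := by
      push_cast
      rw [ZMod.natCast_zmod_val]
      show ((k.val : ℕ) : ZMod N) - (ZMod.castHom h (ZMod N)) k = 0
      rw [ZMod.castHom_apply, ← ZMod.natCast_val k, sub_self]
    obtain ⟨c, hc⟩ := (ZMod.intCast_zmod_eq_zero_iff_dvd _ _).1 h1
    exact ⟨c, by linarith⟩
  have h2 : ∀ k : ZMod N' × ZMod N', g ((k.1.val : ℤ), (k.2.val : ℤ)) =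
      g (((φ k).1.val : ℤ), ((φ k).2.val : ℤ)) := by
    intro k
    obtain ⟨c, hc⟩ := hv k.1
    obtain ⟨d, hd⟩ := hv k.2
    rw [hc, hd]
    exact hg (((φ k).1.val : ℤ), ((φ k).2.val : ℤ)) (c, d)
  rw [Finset.sum_congr rfl fun k _ => h2 k,
    ← Finset.sum_fiberwise Finset.univ (fun k => φ k)
      (fun k => g (((φ k).1.val : ℤ), ((φ k).2.val : ℤ)))]
  have h3 : ∀ y : ZMod N × ZMod N, ∑ k ∈ Finset.univ.filter (fun k => φ k = y),
      g (((φ k).1.val : ℤ), ((φ k).2.val : ℤ)) =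
        ((Finset.univ.filter (fun k => φ k = 0)).card : ℂ) * g ((y.1.val : ℤ), (y.2.val : ℤ)) := by
    intro y
    obtain ⟨m, hm⟩ := hs y
    rw [Finset.sum_congr rfl fun k hk => by rw [(Finset.mem_filter.1 hk).2], Finset.sum_const,
      nsmul_eq_mul,
      AddMonoidHom.card_fiber_eq_of_mem_range φ (x := y) (y := 0) ⟨m, hm⟩ ⟨0, map_zero φ⟩]
  rw [Finset.sum_congr rfl fun y _ => h3 y, ← Finset.mul_sum, h0, mul_zero]

/-- `N w ∈ I²` iff `w ∈ I²`, `I` prime to `N` -/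
theorem in2_scal {N : ℕ} {I : Ideal D.O} (hI : Ip N I) {w : Vec} (hw : RNP.O2 D w) :
    In2 I ((N : ℂ) • w) ↔ In2 I w := by
  obtain ⟨i, hi, y, e⟩ := ip_one hI
  have key : ∀ z : D.O, (N : D.O) * z ∈ I → z ∈ I := by
    intro z hz
    have e1 : z = z * i - y * ((N : D.O) * z) := by
      rw [e]
      ring
    rw [e1]
    exact I.sub_mem (I.mul_mem_left _ hi) (I.mul_mem_left _ hz)
  obtain ⟨w1, w2⟩ := w
  obtain ⟨hw1, hw2⟩ := hw
  constructor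
  · rintro ⟨a, ha, b, hb, h⟩
    have ea : a = (N : D.O) * ⟨w1, hw1⟩ := by
      apply Subtype.ext
      have := congrArg Prod.fst h
      simp only [Prod.smul_mk, smul_eq_mul] at this
      push_cast
      exact this.symm
    have eb : b = (N : D.O) * ⟨w2, hw2⟩ := by
      apply Subtype.ext
      have := congrArg Prod.snd h
      simp only [Prod.smul_mk, smul_eq_mul] at this
      push_cast
      exact this.symm
    exact ⟨⟨w1, hw1⟩, key _ (ea ▸ ha), ⟨w2, hw2⟩, key _ (eb ▸ hb), rfl⟩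
  · rintro ⟨a, ha, b, hb, h⟩
    refine ⟨(N : D.O) * a, I.mul_mem_left _ ha, (N : D.O) * b, I.mul_mem_left _ hb, ?_⟩
    rw [h]
    simp

open Classical in
theorem ph_scal {N : ℕ} (S : Rp D (N * m)) {w : Vec} (hw : RNP.O2 D w) :
    Ph ψ S ((N : ℂ) • w) = Ph ψ S w := by
  unfold Ph
  refine Finset.sum_congr rfl fun I hI => ?_
  congr 1
  have h := in2_scal (ip_dvd (dvd_mul_right N m) (S.cp I hI)) hw
  by_cases h1 : In2 I w
  · rw [if_pos h1, if_pos (h.2 h1)]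
  · rw [if_neg h1, if_neg (fun h2 => h1 (h.1 h2))]

/-- the lattice sum of a function of type `χ` times `Ph` -/
theorem tri_psi {N : ℕ} [NeZero N] (hm : m ∣ N)
    {V : Finset ℂ} (hV : ∀ v ∈ V, v ∈ D.K) {f : Vec → ℂ} (hf : RNP.Fn D N V f)
    (he : ∀ x : D.O, Cp N x → ∀ w, RNP.O2 D w → f ((x : ℂ) • w) = ψ.hc.br.f x * f w)
    (h1 : ∀ x y, f (-x, y) = f (x, y)) (h2 : ∀ x y, f (y, x) = -f (x, y))
    {J : ℕ} {q : Fin J → ℂ} (hq : ∀ j, q j ∈ D.O ∧ q j ≠ 0) {φ : Fin J → Vec → ℂ}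
    (hφ : ∀ j, RNP.Fn D N V (φ j))
    (hav : ∀ j, ∀ y ∈ D.O,
      ∑ k : ZMod N × ZMod N, φ j (UNI.xx D.a ((k.1.val : ℤ), (k.2.val : ℤ)), y) = 0)
    {θ : Vec → ℂ} (hθ : RNP.Fn D N V θ) (ho : ∀ x y, θ (-x, y) = -θ (x, y))
    (hc : ∀ x y, f (x, y) - f (x + y, y) =
      ∑ j, (Tq (q j) (φ j) (x, y) - φ j (x, y)) + θ (x, y)) (S : Rp D N) :
    ∃ k ∈ D.K, TT (fun w => f w * Ph ψ S w) e2 e1 v11 v11 = k * Lps ψ := by
  obtain ⟨N', hd, hN', C, hC⟩ := bp_mul (D := D) (NeZero.pos N)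
  haveI : NeZero N' := ⟨hN'.ne'⟩
  have hav' : ∀ j, ∀ y ∈ D.O,
      ∑ k : ZMod N' × ZMod N', φ j (UNI.xx D.a ((k.1.val : ℤ), (k.2.val : ℤ)), y) = 0 := by
    intro j y hy
    refine tp_sum hd (g := fun u => φ j (UNI.xx D.a u, y)) ?_ (hav j y hy)
    intro u v
    have e : ((UNI.xx D.a (u.1 + N * v.1, u.2 + N * v.2), y) : Vec) =
        (UNI.xx D.a u, y) + (N : ℂ) • ((UNI.xx D.a v, 0) : Vec) := by
      refine Prod.ext ?_ ?_
      · simp only [Prod.fst_add, Prod.smul_fst, smul_eq_mul, UNI.xx]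
        push_cast
        ring
      · simp
    show φ j (UNI.xx D.a (u.1 + N * v.1, u.2 + N * v.2), y) = φ j (UNI.xx D.a u, y)
    rw [e]
    exact (hφ j).per _ _ ⟨⟨v, rfl⟩, D.O.zero_mem⟩
  obtain ⟨k, hk, e⟩ := RNP.tri_val (twP ψ) (pd_inf D) hC hV
    (RNP.Fn_up hf hd (Finset.Subset.refl V)) h1 h2 hq
    (fun j => RNP.Fn_up (hφ j) hd (Finset.Subset.refl V)) hav'
    (RNP.Fn_up hθ hd (Finset.Subset.refl V)) ho hc
  refine ⟨k, hk, ?_⟩
  rw [← e]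
  have hA : RNP.Adm D N f := RNP.Fn_Adm (NeZero.pos N) hV hf
  obtain ⟨S'⟩ := rp_ex (D := D) (M := N * m)
    (Nat.mul_pos (NeZero.pos N) (Nat.pos_of_ne_zero (NeZero.ne m)))
  have h3 : (twP ψ).R f (fun _ w => Pf ψ.hc.br f w * Ph ψ S' ((N : ℂ) • w)) :=
    ⟨N, S', hA, rfl⟩
  have h4 := (twP ψ).V_eq h3 (x := e2) (y := e1) (z := v11) (p := v11)
    RNP.Cu_e2 RNP.Cu_e1 RNP.Cu_v11 RNP.Cu_v11.1
  rw [h4, Pf_id ψ.hc.br (NeZero.pos N) hm hV hf he]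
  have h5 := tt_change0 ψ hm hV hf he S (S'.dn (dvd_mul_right N m)) (x := e2) (y := e1) (z := v11)
    (p := v11) RNP.Cu_e2 RNP.Cu_e1 RNP.Cu_v11 RNP.Cu_v11.1
  rw [h5]
  show _ = ∑ _i : Unit, TT (fun w => f w * Ph ψ S' ((N : ℂ) • w)) e2 e1 v11 v11
  simp only [Finset.univ_unique, Finset.sum_singleton]
  congr 1
  funext w
  by_cases hw : f w = 0
  · rw [hw, zero_mul, zero_mul]
  · congr 1
    exact (ph_scal ψ S' (hf.supp w hw)).symm

end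

end RNG
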