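import Pool.Agent.RNG.Hix
import Pool.Agent.UNL.PartW

/-!
# RNG.Hwx: the invariant function (`RNE/Hw`)
-/

open RNK

namespace RNG

variable {D : RNP.OD} {m c N : ℕ} [NeZero N]

private theorem Mu_neg {k : UNL.G N} (h : Mu m k) : Mu m (-k) := by
  obtain ⟨a, ha⟩ := h
  exact ⟨-a, by rw [neg_smul, ha]⟩

private theorem Mu_add {k l : UNL.G N} (h : Mu m k) (h' : Mu m l) : Mu m (k + l) := by
  obtain ⟨a, ha⟩ := h
  obtain ⟨b, hb⟩ := h'
  exact ⟨a + b, by rw [add_smul, ha, hb]⟩

theorem Hw_symm (k l : UNL.G N) : Hw m c k l = Hw m c l k := by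
  unfold Hw
  by_cases h : Mu m (c • k) ∧ Mu m (c • l)
  · rw [if_pos h, if_pos h.symm, UNL.HH_symm]
  · rw [if_neg h, if_neg (fun h' => h h'.symm)]

theorem Hw_neg (k l : UNL.G N) : Hw m c (-k) l = Hw m c k l := by
  have key : Mu m (c • -k) ↔ Mu m (c • k) := by
    constructor
    · intro h
      have := Mu_neg h
      rwa [smul_neg, neg_neg] at this
    · intro h
      rw [smul_neg]
      exact Mu_neg h
  unfold Hw
  by_cases h : Mu m (c • k) ∧ Mu m (c • l)
  · rw [if_pos h, if_pos ⟨key.2 h.1, h.2⟩, smul_neg, UNL.HH_neg]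
  · rw [if_neg h, if_neg (fun h' => h ⟨key.1 h'.1, h'.2⟩)]

theorem Hw_add (k l : UNL.G N) : Hw m c k (k + l) = Hw m c k l := by
  unfold Hw
  by_cases h : Mu m (c • k) ∧ Mu m (c • l)
  · rw [if_pos h, if_pos ⟨h.1, by rw [smul_add]; exact Mu_add h.1 h.2⟩, smul_add, UNL.HH_add]
  · rw [if_neg h, if_neg]
    rintro ⟨h1, h2⟩
    refine h ⟨h1, ?_⟩
    have h3 := Mu_add (Mu_neg h1) h2
    rwa [smul_add, neg_add_cancel_left] at h3

private theorem ac_natk (n : ℕ) (k : UNL.G N) : ac ((n : ℕ) : D.O) k = n • k := by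
  have h0 : ac (0 : D.O) k = 0 := by
    have h := ac_add (0 : D.O) 0 k
    rw [add_zero] at h
    exact left_eq_add.1 h
  induction n with
  | zero => rw [Nat.cast_zero, h0, zero_smul]
  | succ n ih => rw [Nat.cast_succ, ac_add, ih, ac_one, succ_nsmul]

private theorem mul_cj_nn (x : D.O) : x * cj x = ((nn D x : ℕ) : D.O) := by
  apply Subtype.ext
  show (x : ℂ) * (starRingEnd ℂ) (x : ℂ) = _
  rw [nn_mul_cj]
  simp

/-- the torsion of order `a` in `G (a * b)` consists of multiples of `b` -/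
private theorem tors_div {a b : ℕ} (hN : a * b = N) (k : UNL.G N) (h : a • k = 0) :
    ∃ k' : UNL.G N, b • k' = k := by
  have hN0 : N ≠ 0 := NeZero.ne N
  have ha : 0 < a := Nat.pos_of_ne_zero fun h0 => hN0 (by rw [← hN, h0, zero_mul])
  have key : ∀ x : ZMod N, a • x = 0 → ∃ y : ZMod N, b • y = x := by
    intro x hx
    have h1 : ((a * x.val : ℕ) : ZMod N) = 0 := by
      rw [Nat.cast_mul, ZMod.natCast_zmod_val, ← nsmul_eq_mul]
      exact hx
    rw [ZMod.natCast_eq_zero_iff] at h1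
    have h1' : a * b ∣ a * x.val := by rw [hN]; exact h1
    obtain ⟨t, ht⟩ := Nat.dvd_of_mul_dvd_mul_left ha h1'
    refine ⟨(t : ZMod N), ?_⟩
    rw [nsmul_eq_mul, ← Nat.cast_mul, ← ht, ZMod.natCast_zmod_val]
  obtain ⟨y1, h1⟩ := key k.1 (congrArg Prod.fst h)
  obtain ⟨y2, h2⟩ := key k.2 (congrArg Prod.snd h)
  exact ⟨(y1, y2), Prod.ext h1 h2⟩

theorem Hw_supp (h : Lv D m c N) {k l : UNL.G N} (hk : Hw m c k l ≠ 0) :
    (m * c) • k = 0 ∧ ∃ k' : UNL.G N, ac (al D m * be D m) k' = k := by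
  have h1 : UNL.HH c (m • k) (m • l) ≠ 0 := by
    unfold Hw at hk
    by_cases hc : Mu m (c • k) ∧ Mu m (c • l)
    · rwa [if_pos hc] at hk
    · rw [if_neg hc] at hk
      exact absurd rfl hk
  have h2 : (m * c) • k = 0 := by
    rw [mul_comm, mul_smul]
    exact (UNL.HH_supp c h1).1
  refine ⟨h2, ?_⟩
  obtain ⟨M, hM⟩ := h.dvd
  have h3 : (m * c) * (2 * (nn D (al D m) * nn D (be D m)) * M) = N := by
    rw [hM]; ring
  obtain ⟨k', hk'⟩ := tors_div h3 k h2
  refine ⟨ac (cj (al D m * be D m)) ((2 * M) • k'), ?_⟩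
  rw [← ac_mul, mul_cj_nn, ac_natk, nn_mul, ← mul_smul, ← hk']
  congr 1
  ring

theorem Hw_row (h : Lv D m c N) (l : UNL.G N) : ∑ k : UNL.G N, Hw m c k l = 0 := by
  classical
  have hc := h.prime
  have hcN : c ∣ N := by
    refine Dvd.dvd.trans ?_ h.dvd
    exact ⟨2 * m * (nn D (al D m) * nn D (be D m)), by ring⟩
  have hmN : m ∣ N := by
    refine Dvd.dvd.trans ?_ h.dvd
    exact ⟨2 * c * (nn D (al D m) * nn D (be D m)), by ring⟩
  by_cases hl : Mu m (c • l)
  swap
  · refine Finset.sum_eq_zero fun k _ => ?_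
    unfold Hw
    rw [if_neg fun h' => hl h'.2]
  have hpm : m • (pm m : UNL.G N) = 0 := by
    refine Prod.ext ?_ ?_
    · show m • (((N / m : ℕ) : ZMod N)) = 0
      rw [nsmul_eq_mul, ← Nat.cast_mul, Nat.mul_div_cancel' hmN, ZMod.natCast_self]
    · show m • (0 : ZMod N) = 0
      rw [smul_zero]
  have hMu : ∀ k : UNL.G N, Mu m k → m • k = 0 := by
    rintro k ⟨a, rfl⟩
    rw [smul_comm, hpm, smul_zero]
  set y : UNL.G N := m • l with hy
  set g : UNL.G N → ℤ := fun k => if Mu m (c • k) then UNL.HH c (m • k) y else 0 with hg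
  have hg1 : ∀ k : UNL.G N, Hw m c k l = g k := by
    intro k
    simp only [hg]
    unfold Hw
    by_cases h1 : Mu m (c • k)
    · rw [if_pos ⟨h1, hl⟩, if_pos h1]
    · rw [if_neg fun h' => h1 h'.1, if_neg h1]
  rw [Finset.sum_congr rfl fun k _ => hg1 k]
  set T : Finset (UNL.G N) := Finset.univ.filter (fun t => c • t = 0) with hT
  have hrow : ∑ z ∈ T, UNL.HH c z y = 0 := by
    rw [hT, Finset.sum_filter]
    have h1 : ∑ z : UNL.G N, UNL.HH c z y = 0 := by
      rw [← UNL.HH_row c hc N hcN y]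
      exact Finset.sum_congr rfl fun k _ => UNL.HH_symm c k y
    refine Eq.trans (Finset.sum_congr rfl fun z _ => ?_) h1
    by_cases hz : c • z = 0
    · rw [if_pos hz]
    · rw [if_neg hz, UNL.HH_zero_of_left _ hz]
  -- the shifted sums
  have hsh : ∀ t ∈ T, ∑ k : UNL.G N, g k =
      ∑ k : UNL.G N, (if Mu m (c • k) then UNL.HH c (m • k + m • t) y else 0) := by
    intro t ht
    have ht' : c • t = 0 := (Finset.mem_filter.1 ht).2
    rw [← Equiv.sum_comp (Equiv.addRight t) g]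
    refine Finset.sum_congr rfl fun k _ => ?_
    simp only [hg, Equiv.coe_addRight, smul_add, ht', add_zero]
  have hin : ∀ k : UNL.G N,
      ∑ t ∈ T, (if Mu m (c • k) then UNL.HH c (m • k + m • t) y else 0) = 0 := by
    intro k
    by_cases hk : Mu m (c • k)
    swap
    · exact Finset.sum_eq_zero fun t _ => if_neg hk
    simp only [if_pos hk]
    have hmk : c • (m • k) = 0 := by
      rw [smul_comm]; exact hMu _ hk
    have hinj : Set.InjOn (fun t : UNL.G N => m • k + m • t) T := by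
      intro t ht t' ht' he
      have ht1 : c • t = 0 := (Finset.mem_filter.1 ht).2
      have ht2 : c • t' = 0 := (Finset.mem_filter.1 ht').2
      have he' : m • t = m • t' := add_left_cancel he
      have hco : Nat.Coprime m c := ((Nat.Prime.coprime_iff_not_dvd hc).2 h.ndvd).symm
      have hd1 : (m : ℤ) • (t - t') = 0 := by
        rw [natCast_zsmul, smul_sub, he', sub_self]
      have hd2 : (c : ℤ) • (t - t') = 0 := by
        rw [natCast_zsmul, smul_sub, ht1, ht2, sub_self]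
      obtain ⟨u, v, huv⟩ := Nat.isCoprime_iff_coprime.2 hco
      have h3 : ((u * m + v * c : ℤ)) • (t - t') = 0 := by
        rw [add_smul, mul_smul, mul_smul, hd1, hd2, smul_zero, smul_zero, add_zero]
      rw [huv, one_smul] at h3
      exact sub_eq_zero.1 h3
    have himg : T.image (fun t : UNL.G N => m • k + m • t) = T := by
      refine Finset.eq_of_subset_of_card_le ?_ (Finset.card_image_of_injOn hinj).ge
      intro z hz
      obtain ⟨t, ht, rfl⟩ := Finset.mem_image.1 hz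
      have ht1 : c • t = 0 := (Finset.mem_filter.1 ht).2
      refine Finset.mem_filter.2 ⟨Finset.mem_univ _, ?_⟩
      rw [smul_add, hmk, zero_add, smul_comm, ht1, smul_zero]
    have h5 := Finset.sum_image (f := fun z => UNL.HH c z y) hinj
    rw [himg, hrow] at h5
    exact h5.symm
  have hfin : (T.card : ℤ) * ∑ k : UNL.G N, g k = 0 := by
    rw [← nsmul_eq_mul, ← Finset.sum_const, Finset.sum_congr rfl hsh, Finset.sum_comm]
    exact Finset.sum_eq_zero fun k _ => hin k
  have hcard : (T.card : ℤ) ≠ 0 := by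
    have : 0 < T.card := Finset.card_pos.2 ⟨0, Finset.mem_filter.2 ⟨Finset.mem_univ _, smul_zero _⟩⟩
    exact_mod_cast this.ne'
  exact (mul_eq_zero.1 hfin).resolve_left hcard

end RNG
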