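import Pool.Agent.RNG.Phi

/-!
# RNG.Lsp: the line sums

`P` admissible of level `M` and type `χ = ψ.hc.br` (`Ty`), `c` a cusp. Compare `RNE/Mo` (class number one).
1. `lps_euler`: one prime at a time.
2. By `ls_change` the representatives may be replaced by others, prime to a large number. `H(s) = P ((s / n) c)` is a function
   on `O` of period `M'` and type `χ` (`LH`), and for `H(s) ≠ 0`: `M (s / n) c ∈ I²` iff `s ∈ I`.
3. Basis functions `ed`: for an ideal `d` with `m d ∣ M'` choose `s₁ ∈ d`, `(s₁) = d h`, `h` prime to `M'`, `y ∈ h`, `y ≡ 1` mod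
   `M'`; for `s ∈ d` put `ed(s) = χ(y s / s₁)`. The sum over the representatives of `ed` is a multiple of `Lps ψ`
   (`class_sum`, `ed_term`).
4. If `H(s₁) ≠ 0` then `m d ∣ M'` (`ls_cond`, the conductor). Induction on the number of the ideals `g ∣ M'` below the
   support: subtract `H(s₁) ed` (`LV_main`).
-/

open RNK

namespace RNG

noncomputable section

variable {D : RNP.OD} [IsDedekindDomain D.O] {m : ℕ} [NeZero m] (ψ : Hk D m)

/-! ### the Euler factors -/

private def lsT (b : Ideal D.O) : ℂ := (ψ.f b)⁻¹ / ((ni b : ℕ) : ℂ) ^ 2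

omit [NeZero m] in
private theorem lsT_mul (b c : Ideal D.O) : lsT ψ (b * c) = lsT ψ b * lsT ψ c := by
  simp only [lsT, ψ.mul, ni_mul, mul_inv, Nat.cast_mul]
  ring

omit [IsDedekindDomain D.O] [NeZero m] in
private theorem lsT_K (b : Ideal D.O) : lsT ψ b ∈ D.K :=
  D.K.div_mem (D.K.inv_mem (ψ.val b)) (D.K.pow_mem (natCast_mem _ _) 2)

private theorem lsT_summable : Summable (lsT ψ) := Lps_summable ψ

omit [NeZero m] in
open Classical in
private theorem lsT_dvd {p : Ideal D.O} (hp : p ≠ ⊥) (Q : Ideal D.O → Prop) :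
    ∑' b : Ideal D.O, (if Q b ∧ p ∣ b then lsT ψ b else 0) =
      ∑' c : Ideal D.O, (if Q (p * c) then lsT ψ (p * c) else 0) := by
  have hinj : Function.Injective fun c : Ideal D.O => p * c :=
    fun a b h => mul_left_cancel₀ (by simpa using hp) h
  rw [← hinj.tsum_eq]
  · refine tsum_congr fun c => ?_
    simp
  · intro b hb
    simp only [Function.mem_support, ne_eq, ite_eq_right_iff, not_forall] at hb
    obtain ⟨⟨-, c, rfl⟩, -⟩ := hb
    exact ⟨c, rfl⟩

open Classical in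
/-- the sum over the ideals prime to `J` -/
theorem lps_euler {J : Ideal D.O} (hJ : J ≠ ⊥) : ∃ k ∈ D.K,
    ∑' b : Ideal D.O, (if IsCoprime b J then (ψ.f b)⁻¹ / ((ni b : ℕ) : ℂ) ^ 2 else 0) =
      k * Lps ψ := by
  have key : ∀ J : Ideal D.O, J ≠ ⊥ → ∃ k ∈ D.K,
      ∑' b : Ideal D.O, (if IsCoprime b J then lsT ψ b else 0) = k * Lps ψ := by
    intro J
    refine UniqueFactorizationMonoid.induction_on_prime J (fun h => absurd rfl h) ?_ ?_
    · intro x hx _
      refine ⟨1, D.K.one_mem, ?_⟩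
      rw [one_mul]
      refine tsum_congr fun b => ?_
      rw [if_pos (IsCoprime.of_isCoprime_of_dvd_right (isCoprime_one_right (x := b)) hx.dvd)]
      rfl
    · intro a p ha hp ih _
      obtain ⟨k, hk, e⟩ := ih ha
      have hp0 : p ≠ ⊥ := hp.ne_zero
      have hpm : p.IsPrime := (Ideal.prime_iff_isPrime hp0).1 hp
      have hmax : p.IsMaximal := hpm.isMaximal hp0
      by_cases hpa : p ∣ a
      · refine ⟨k, hk, ?_⟩
        rw [← e]
        refine tsum_congr fun b => ?_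
        have h1 : IsCoprime b (p * a) ↔ IsCoprime b a :=
          ⟨fun h => h.of_mul_right_right, fun h =>
            IsCoprime.mul_right (IsCoprime.of_isCoprime_of_dvd_right h hpa) h⟩
        simp only [h1]
      · have hcop : ∀ b : Ideal D.O, ¬ IsCoprime b p ↔ p ∣ b := by
          intro b
          rw [Ideal.isCoprime_iff_sup_eq, Ideal.dvd_iff_le]
          constructor
          · intro h
            by_contra h2
            apply h
            have h3 : p < b ⊔ p := lt_of_le_of_ne le_sup_right fun h4 => h2 (h4 ▸ le_sup_left)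
            exact hmax.1.2 _ h3
          · intro h h2
            rw [sup_eq_right.2 h] at h2
            exact hpm.ne_top h2
        have hpa' : IsCoprime p a := by
          have h1 := (not_congr (hcop a)).2 hpa
          rw [not_not] at h1
          exact h1.symm
        refine ⟨k - lsT ψ p * k, D.K.sub_mem hk (D.K.mul_mem (lsT_K ψ p) hk), ?_⟩
        have s1 : Summable fun b : Ideal D.O => if IsCoprime b a then lsT ψ b else 0 :=
          (lsT_summable ψ).indicator {b | IsCoprime b a} |>.congr fun b => by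
            simp [Set.indicator_apply]
        have s2 : Summable fun b : Ideal D.O => if IsCoprime b a ∧ p ∣ b then lsT ψ b else 0 :=
          (lsT_summable ψ).indicator {b | IsCoprime b a ∧ p ∣ b} |>.congr fun b => by
            simp [Set.indicator_apply]
        have h2 : ∑' b : Ideal D.O, (if IsCoprime b (p * a) then lsT ψ b else 0) =
            ∑' b : Ideal D.O, (if IsCoprime b a then lsT ψ b else 0) -
            ∑' b : Ideal D.O, (if IsCoprime b a ∧ p ∣ b then lsT ψ b else 0) := by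
          rw [← Summable.tsum_sub s1 s2]
          refine tsum_congr fun b => ?_
          have h3 : IsCoprime b (p * a) ↔ IsCoprime b a ∧ ¬ p ∣ b := by
            rw [← hcop b, not_not, IsCoprime.mul_right_iff]
            exact and_comm
          by_cases h4 : IsCoprime b a <;> by_cases h5 : p ∣ b <;> simp [h3, h4, h5]
        rw [h2, lsT_dvd ψ hp0 (fun b => IsCoprime b a), e]
        have h6 : ∑' c : Ideal D.O, (if IsCoprime (p * c) a then lsT ψ (p * c) else 0) =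
            lsT ψ p * (k * Lps ψ) := by
          rw [← e, ← tsum_mul_left]
          refine tsum_congr fun c => ?_
          have h7 : IsCoprime (p * c) a ↔ IsCoprime c a :=
            ⟨fun h => h.of_mul_left_right, fun h => IsCoprime.mul_left hpa' h⟩
          by_cases h8 : IsCoprime c a
          · rw [if_pos (h7.2 h8), if_pos h8, lsT_mul]
          · rw [if_neg (fun h => h8 (h7.1 h)), if_neg h8, mul_zero]
        rw [h6]
        ring
  exact key J hJ

/-! ### the basis functions -/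

/-- the data of a basis function of period `M` -/
private structure Bd (D : RNP.OD) (m M : ℕ) (d h : Ideal D.O) (y s₁ : D.O) : Prop where
  ne : s₁ ≠ 0
  y0 : y ≠ 0
  eq : d * h = Ideal.span {s₁}
  cp : Ip M h
  my : y ∈ h
  y1 : ∃ z : D.O, y = 1 + M * z
  dv : Ideal.span {(M : D.O)} ≤ d * Ideal.span {(m : D.O)}

open Classical in
/-- the basis function -/
private def ed (d : Ideal D.O) (y s₁ s : D.O) : ℂ :=
  if h : s ∈ d ∧ ∃ r : D.O, y * s = r * s₁ then ψ.hc.br.f (Classical.choose h.2) else 0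

variable {M : ℕ} {d h : Ideal D.O} {y s₁ : D.O}

omit [IsDedekindDomain D.O] [NeZero m] in
private theorem Bd.ex (b : Bd D m M d h y s₁) {s : D.O} (hs : s ∈ d) :
    ∃ r : D.O, y * s = r * s₁ := by
  have h1 : y * s ∈ d * h := by
    rw [mul_comm y s]
    exact Ideal.mul_mem_mul hs b.my
  rw [b.eq, Ideal.mem_span_singleton] at h1
  obtain ⟨r, hr⟩ := h1
  exact ⟨r, by rw [hr, mul_comm]⟩

omit [IsDedekindDomain D.O] [NeZero m] in
private theorem ed_eq (b : Bd D m M d h y s₁) {s r : D.O} (hs : s ∈ d) (hr : y * s = r * s₁) :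
    ed ψ d y s₁ s = ψ.hc.br.f r := by
  have h1 : s ∈ d ∧ ∃ r : D.O, y * s = r * s₁ := ⟨hs, r, hr⟩
  unfold ed
  rw [dif_pos h1]
  congr 1
  have h2 := Classical.choose_spec h1.2
  exact mul_right_cancel₀ b.ne (h2.symm.trans hr)

omit [IsDedekindDomain D.O] [NeZero m] in
private theorem ed_zero {s : D.O} (hs : s ∉ d) : ed ψ d y s₁ s = 0 := by
  unfold ed
  rw [dif_neg]
  exact fun h => hs h.1

omit [IsDedekindDomain D.O] [NeZero m] in
private theorem ed_K (s : D.O) : ed ψ d y s₁ s ∈ D.K := by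
  unfold ed
  split_ifs
  · exact ψ.hc.br.val _
  · exact D.K.zero_mem

omit [IsDedekindDomain D.O] [NeZero m] in
private theorem Bd.md (b : Bd D m M d h y s₁) : (M : D.O) ∈ d := by
  have h1 : (M : D.O) ∈ Ideal.span {(M : D.O)} := Ideal.mem_span_singleton_self _
  have h2 : (M : D.O) ∈ d * Ideal.span {(m : D.O)} := b.dv h1
  have h3 : d * Ideal.span {(m : D.O)} ≤ d := Ideal.mul_le_left
  exact h3 h2

omit [IsDedekindDomain D.O] [NeZero m] in
private theorem ed_per (b : Bd D m M d h y s₁) (s v : D.O) :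
    ed ψ d y s₁ (s + M * v) = ed ψ d y s₁ s := by
  have hv : (M : D.O) * v ∈ d := d.mul_mem_right _ b.md
  by_cases hs : s ∈ d
  · obtain ⟨r, hr⟩ := b.ex hs
    -- `y M v = m w s₁`
    have h1 : y * (M * v) ∈ (d * Ideal.span {(m : D.O)}) * h := by
      have h1 : (M : D.O) ∈ Ideal.span {(M : D.O)} := Ideal.mem_span_singleton_self _
      have h0 : (M : D.O) ∈ d * Ideal.span {(m : D.O)} := b.dv h1
      have h2 : (M : D.O) * v ∈ d * Ideal.span {(m : D.O)} := Ideal.mul_mem_right _ _ h0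
      rw [mul_comm y (M * v)]
      exact Ideal.mul_mem_mul h2 b.my
    have h2 : (d * Ideal.span {(m : D.O)}) * h = Ideal.span {(m : D.O) * s₁} := by
      rw [mul_assoc, mul_comm (Ideal.span {(m : D.O)}), ← mul_assoc, b.eq, mul_comm,
        Ideal.span_singleton_mul_span_singleton]
    rw [h2, Ideal.mem_span_singleton] at h1
    obtain ⟨w, hw⟩ := h1
    have h3 : y * (s + M * v) = (r + m * w) * s₁ := by
      rw [mul_add, hr, hw]
      ring
    rw [ed_eq ψ b (d.add_mem hs hv) h3, ed_eq ψ b hs hr, ψ.hc.br.per]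
  · rw [ed_zero ψ hs, ed_zero ψ]
    intro h1
    apply hs
    have h2 := d.sub_mem h1 hv
    rwa [add_sub_cancel_right] at h2

omit [IsDedekindDomain D.O] [NeZero m] in
private theorem ed_ty (b : Bd D m M d h y s₁) {x : D.O} (hx : Cp M x) (s : D.O) :
    ed ψ d y s₁ (x * s) = ψ.hc.br.f x * ed ψ d y s₁ s := by
  by_cases hs : s ∈ d
  · obtain ⟨r, hr⟩ := b.ex hs
    have h3 : y * (x * s) = (x * r) * s₁ := by
      rw [mul_left_comm, hr]
      ring
    rw [ed_eq ψ b (d.mul_mem_left _ hs) h3, ed_eq ψ b hs hr, ψ.hc.br.mul]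
  · rw [ed_zero ψ hs, ed_zero ψ, mul_zero]
    intro h1
    apply hs
    obtain ⟨u, v, e⟩ := hx
    have h2 : s = u * (x * s) + (v * s) * M := by
      linear_combination (-s) * e
    rw [h2]
    exact d.add_mem (d.mul_mem_left _ h1) (d.mul_mem_left _ b.md)

omit [IsDedekindDomain D.O] [NeZero m] in
private theorem ed_one (b : Bd D m M d h y s₁) (hm : m ∣ M) : ed ψ d y s₁ s₁ = 1 := by
  have hs : s₁ ∈ d := by
    have h1 : s₁ ∈ d * h := by
      rw [b.eq]
      exact Ideal.mem_span_singleton_self _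
    have h2 : d * h ≤ d := Ideal.mul_le_left
    exact h2 h1
  rw [ed_eq ψ b hs (r := y) rfl]
  obtain ⟨z, hz⟩ := b.y1
  obtain ⟨k, rfl⟩ := hm
  have h1 : y = 1 + m * (k * z) := by
    rw [hz]
    push_cast
    ring
  rw [h1, ψ.hc.br.per, ψ.hc.br.one]

/-! ### the sums -/

open Classical in
/-- the terms of the sum of `H` over `I` -/
private def lsG (H : D.O → ℂ) (I : Ideal D.O) (s : D.O) : ℂ :=
  if s ∈ I then H s * ((s : ℂ) ^ 4 * (starRingEnd ℂ) (s : ℂ) ^ 2)⁻¹ else 0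

/-- the conclusion -/
private def LV {N : ℕ} (S : Rp D N) (H : D.O → ℂ) : Prop :=
  (∀ I ∈ S.s, Summable (lsG H I)) ∧
    ∃ k ∈ D.K, ∑ I ∈ S.s, ψ.f I * ((ni I : ℕ) : ℂ) ^ 2 * ∑' s, lsG H I s = k * Lps ψ

omit [IsDedekindDomain D.O] in
private theorem cc_ne {x : D.O} (h : x ≠ 0) : (x : ℂ) ≠ 0 := fun h1 => h (Subtype.ext h1)

omit [IsDedekindDomain D.O] in
private theorem nn_cc (x : D.O) : (x : ℂ) * (starRingEnd ℂ) (x : ℂ) = ((nn D x : ℕ) : ℂ) :=
  nn_mul_cj D x

private theorem ed_term (b : Bd D m M d h y s₁) (hm : m ∣ M) (hM : 0 < M) {I c : Ideal D.O}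
    (hI : Ip M I) {x : D.O} (hx : x ≠ 0) (e : I * (d * c) = Ideal.span {x}) :
    ψ.f I * ((ni I : ℕ) : ℂ) ^ 2 *
      (ed ψ d y s₁ x * ((x : ℂ) ^ 4 * (starRingEnd ℂ) (x : ℂ) ^ 2)⁻¹) =
      ψ.f h / ((s₁ : ℂ) ^ 2 * ((ni d : ℕ) : ℂ) ^ 2) * lsT ψ c := by
  have hd0 : d ≠ ⊥ := by
    intro h0
    have h1 := b.md
    rw [h0, Ideal.mem_bot] at h1
    exact hM.ne' (by exact_mod_cast congrArg (fun z : D.O => (z : ℂ)) h1)
  have hxd : x ∈ d := by
    have h1 : x ∈ I * (d * c) := by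
      rw [e]
      exact Ideal.mem_span_singleton_self _
    have h2 : I * (d * c) ≤ d * c := Ideal.mul_le_right
    have h3 : d * c ≤ d := Ideal.mul_le_left
    exact h3 (h2 h1)
  obtain ⟨r, hr⟩ := b.ex hxd
  rw [ed_eq ψ b hxd hr]
  have hr0 : r ≠ 0 := by
    rintro rfl
    rw [zero_mul] at hr
    exact (mul_ne_zero b.y0 hx) hr
  -- the ideals
  have hE : Ideal.span {y} * I * c = Ideal.span {r} * h := by
    have h1 : d * (Ideal.span {y} * I * c) = d * (Ideal.span {r} * h) := by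
      calc d * (Ideal.span {y} * I * c) = Ideal.span {y} * (I * (d * c)) := by ring
        _ = Ideal.span {r * s₁} := by
          rw [e, Ideal.span_singleton_mul_span_singleton, hr]
        _ = d * (Ideal.span {r} * h) := by
          rw [← Ideal.span_singleton_mul_span_singleton, ← b.eq]
          ring
    exact mul_left_cancel₀ (by simpa using hd0) h1
  have hE1 : ψ.f (Ideal.span {y}) * ψ.f I * ψ.f c = ψ.f (Ideal.span {r}) * ψ.f h := by
    rw [← ψ.mul, ← ψ.mul, ← ψ.mul, hE]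
  have hy : ψ.f (Ideal.span {y}) = (y : ℂ) ^ 2 := by
    obtain ⟨z, hz⟩ := b.y1
    obtain ⟨k, hk⟩ := hm
    have h1 : y = 1 + (m : D.O) * (k * z) := by
      rw [hz, hk]
      push_cast
      ring
    refine ψ.sq y 1 b.y0 ⟨1, -(k * z), ?_⟩ ⟨k * z, ?_⟩
    · rw [h1]
      ring
    · rw [h1]
      push_cast
      ring
  have hη : ψ.f (Ideal.span {r}) = ψ.hc.f r * (r : ℂ) ^ 2 := psi_span ψ hr0
  have hN3 : (x : ℂ) * (starRingEnd ℂ) (x : ℂ) =
      ((ni I : ℕ) : ℂ) * (((ni d : ℕ) : ℂ) * ((ni c : ℕ) : ℂ)) := by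
    rw [nn_cc, ← ni_span, ← e, ni_mul, ni_mul]
    push_cast
    rfl
  have hIm : Ip m I := ip_dvd hm hI
  have hhm : Ip m h := ip_dvd hm b.cp
  have hψh : ψ.f h ≠ 0 := (ψ.ne h).2 hhm
  have hχ : ψ.hc.br.f r = (starRingEnd ℂ) (ψ.hc.f r) := rfl
  rw [hχ]
  by_cases hc : ψ.f c = 0
  · rw [hc, mul_zero] at hE1
    have h1 : ψ.f (Ideal.span {r}) = 0 := by
      rcases mul_eq_zero.1 hE1.symm with h1 | h1
      · exact h1
      · exact absurd h1 hψh
    rw [hη] at h1
    have h2 : ψ.hc.f r = 0 := by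
      rcases mul_eq_zero.1 h1 with h2 | h2
      · exact h2
      · exact absurd h2 (pow_ne_zero 2 (cc_ne hr0))
    rw [h2, map_zero, lsT, hc]
    simp
  · have hcI : Ip m c := (ψ.ne c).1 hc
    have hr1 : ψ.f (Ideal.span {r}) ≠ 0 := by
      intro h1
      rw [h1, zero_mul] at hE1
      have h2 : ψ.f (Ideal.span {y}) ≠ 0 := by
        rw [hy]
        exact pow_ne_zero 2 (cc_ne b.y0)
      exact (mul_ne_zero (mul_ne_zero h2 ((ψ.ne I).2 hIm)) hc) hE1
    have hrI : Ip m (Ideal.span {r}) := (ψ.ne _).1 hr1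
    have hee : ψ.hc.f r * (starRingEnd ℂ) (ψ.hc.f r) = 1 := by
      have h1 := psi_nsq ψ hrI
      rw [hη, ni_span, ← nn_cc, map_mul, map_pow] at h1
      have h2 : ((r : ℂ) * (starRingEnd ℂ) (r : ℂ)) ^ 2 ≠ 0 := by
        refine pow_ne_zero 2 (mul_ne_zero (cc_ne hr0) ?_)
        exact (map_ne_zero _).2 (cc_ne hr0)
      refine mul_right_cancel₀ h2 ?_
      linear_combination h1
    have hS : (s₁ : ℂ) ≠ 0 := cc_ne b.ne
    have hX : (x : ℂ) ≠ 0 := cc_ne hx
    have hX' : (starRingEnd ℂ) (x : ℂ) ≠ 0 := (map_ne_zero _).2 hX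
    have hY : (y : ℂ) ≠ 0 := cc_ne b.y0
    have hnd : ((ni d : ℕ) : ℂ) ≠ 0 := by exact_mod_cast ni_ne.2 hd0
    have hnc : ((ni c : ℕ) : ℂ) ≠ 0 := by exact_mod_cast ni_ne.2 hcI.1
    have hYX : (y : ℂ) * x = r * s₁ := by exact_mod_cast congrArg (fun z : D.O => (z : ℂ)) hr
    rw [hy, hη] at hE1
    have h3 : ψ.f I * (starRingEnd ℂ) (ψ.hc.f r) * (s₁ : ℂ) ^ 2 * ψ.f c =
        ψ.f h * (x : ℂ) ^ 2 := by
      refine mul_left_cancel₀ (pow_ne_zero 2 hY) ?_
      linear_combination ((starRingEnd ℂ) (ψ.hc.f r) * (s₁ : ℂ) ^ 2) * hE1 +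
        ((r : ℂ) ^ 2 * ψ.f h * (s₁ : ℂ) ^ 2) * hee -
        ψ.f h * ((y : ℂ) * x + r * s₁) * hYX
    rw [lsT]
    field_simp
    have h4 : (x : ℂ) ^ 2 * (starRingEnd ℂ) (x : ℂ) ^ 2 =
        (((ni I : ℕ) : ℂ) * (((ni d : ℕ) : ℂ) * ((ni c : ℕ) : ℂ))) ^ 2 := by
      rw [← hN3]
      ring
    linear_combination (((ni I : ℕ) : ℂ) ^ 2 * ((ni d : ℕ) : ℂ) ^ 2 * ((ni c : ℕ) : ℂ) ^ 2) * h3 -
      (ψ.f h * (x : ℂ) ^ 2) * h4

omit [IsDedekindDomain D.O] [NeZero m] in
private theorem Bd.d0 (b : Bd D m M d h y s₁) (hM : 0 < M) : d ≠ ⊥ := by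
  intro h0
  have h1 := b.md
  rw [h0, Ideal.mem_bot] at h1
  exact hM.ne' (by exact_mod_cast congrArg (fun z : D.O => (z : ℂ)) h1)

private theorem LV_ed (b : Bd D m M d h y s₁) (hm : m ∣ M) (hM : 0 < M) (S : Rp D M) :
    LV ψ S (ed ψ d y s₁) := by
  classical
  have hd0 := b.d0 hM
  have hinj : Function.Injective fun c : Ideal D.O => d * c :=
    fun a b h => mul_left_cancel₀ (by simpa using hd0) h
  set kd : ℂ := ψ.f h / ((s₁ : ℂ) ^ 2 * ((ni d : ℕ) : ℂ) ^ 2) with hkd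
  have hkK : kd ∈ D.K := D.K.div_mem (ψ.val h)
    (D.K.mul_mem (D.K.pow_mem (RNP.O_sub_K s₁.2) 2) (D.K.pow_mem (natCast_mem _ _) 2))
  set G : Ideal D.O → ℂ := Function.extend (fun c => d * c) (fun c => kd * lsT ψ c) 0 with hG
  have hGe : ∀ c, G (d * c) = kd * lsT ψ c := fun c => hinj.extend_apply _ _ c
  have hGn : ∀ b, b ∉ Set.range (fun c : Ideal D.O => d * c) → G b = 0 := by
    intro b hb
    rw [hG, Function.extend_apply' _ _ _ (by simpa using hb)]
    rfl
  have hGs : Summable G := by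
    rw [← hinj.summable_iff hGn]
    exact ((lsT_summable ψ).mul_left kd).congr fun c => (hGe c).symm
  have hG0 : G ⊥ = 0 := by
    have h1 := hGe ⊥
    rw [Ideal.mul_bot] at h1
    rw [h1, lsT, psi_bot, inv_zero, zero_div, mul_zero]
  have hGt : ∑' b, G b = kd * Lps ψ := by
    rw [← hinj.tsum_eq]
    · rw [tsum_congr hGe, tsum_mul_left]
      rfl
    · intro c hc
      by_contra h1
      exact hc (hGn c h1)
  obtain ⟨h1, h2⟩ := class_sum S hGs hG0
    (g := fun I x => ψ.f I * ((ni I : ℕ) : ℂ) ^ 2 * lsG (ed ψ d y s₁) I x) (by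
      intro I hI x hx
      rcases hx with rfl | hx
      · simp [lsG]
      · simp [lsG, hx]) (by
      intro I hI x c hx e
      have hxI : x ∈ I := by
        have h3 : x ∈ I * c := by
          rw [e]
          exact Ideal.mem_span_singleton_self _
        have h4 : I * c ≤ I := Ideal.mul_le_left
        exact h4 h3
      simp only [lsG, if_pos hxI]
      by_cases hc : ∃ c', c = d * c'
      · obtain ⟨c', rfl⟩ := hc
        rw [ed_term ψ b hm hM (S.cp I hI) hx e, hGe]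
      · have h3 : x ∉ d := by
          intro h3
          apply hc
          have h4 : d ∣ I * c := by
            rw [e, Ideal.dvd_span_singleton]
            exact h3
          have h5 : IsCoprime d I := by
            have h6 : IsCoprime I (Ideal.span {(M : D.O)}) := (S.cp I hI).2
            have h7 : d ∣ Ideal.span {(M : D.O)} := by
              rw [Ideal.dvd_span_singleton]
              exact b.md
            exact (IsCoprime.of_isCoprime_of_dvd_right h6 h7).symm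
          exact h5.dvd_of_dvd_mul_left h4
        rw [ed_zero ψ h3, zero_mul, mul_zero, hGn]
        rintro ⟨c', rfl⟩
        exact hc ⟨c', rfl⟩)
  have hc0 : ∀ I ∈ S.s, ψ.f I * ((ni I : ℕ) : ℂ) ^ 2 ≠ 0 := by
    intro I hI
    have h3 := ip_dvd hm (S.cp I hI)
    exact mul_ne_zero ((ψ.ne I).2 h3) (pow_ne_zero 2 (by exact_mod_cast ni_ne.2 h3.1))
  refine ⟨fun I hI => (summable_mul_left_iff (hc0 I hI)).1 (h1 I hI), wn D * kd, ?_, ?_⟩
  · exact D.K.mul_mem (natCast_mem _ _) hkK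
  · rw [mul_assoc, ← hGt, ← h2]
    refine Finset.sum_congr rfl fun I _ => ?_
    rw [tsum_mul_left]

omit [IsDedekindDomain D.O] [NeZero m] in
private theorem LV_zero {N : ℕ} (S : Rp D N) : LV ψ S (fun _ => 0) := by
  have h : ∀ I : Ideal D.O, lsG (fun _ : D.O => (0 : ℂ)) I = fun _ => 0 := by
    intro I
    funext s
    simp [lsG]
  refine ⟨fun I _ => ?_, 0, D.K.zero_mem, ?_⟩
  · rw [h]
    exact summable_zero
  · simp [h]

omit [IsDedekindDomain D.O] [NeZero m] in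
private theorem LV_add {N : ℕ} (S : Rp D N) {H G : D.O → ℂ} {k : ℂ} (hk : k ∈ D.K)
    (hH : LV ψ S (fun s => H s - k * G s)) (hG : LV ψ S G) : LV ψ S H := by
  obtain ⟨s1, k1, hk1, e1⟩ := hH
  obtain ⟨s2, k2, hk2, e2⟩ := hG
  have e : ∀ I : Ideal D.O, lsG H I = fun s => lsG (fun s => H s - k * G s) I s +
      k * lsG G I s := by
    intro I
    funext s
    simp only [lsG]
    split_ifs <;> ring
  refine ⟨fun I hI => ?_, k1 + k * k2, D.K.add_mem hk1 (D.K.mul_mem hk hk2), ?_⟩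
  · rw [e I]
    exact (s1 I hI).add ((s2 I hI).mul_left k)
  · have h1 : ∀ I ∈ S.s, ψ.f I * ((ni I : ℕ) : ℂ) ^ 2 * ∑' s, lsG H I s =
        ψ.f I * ((ni I : ℕ) : ℂ) ^ 2 * ∑' s, lsG (fun s => H s - k * G s) I s +
        k * (ψ.f I * ((ni I : ℕ) : ℂ) ^ 2 * ∑' s, lsG G I s) := by
      intro I hI
      rw [e I, Summable.tsum_add (s1 I hI) ((s2 I hI).mul_left k), tsum_mul_left]
      ring
    rw [Finset.sum_congr rfl h1, Finset.sum_add_distrib, ← Finset.mul_sum, e1, e2]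
    ring

/-! ### the decomposition -/

/-- functions on `O` of period `M` and type `χ` -/
private structure LH (M : ℕ) (H : D.O → ℂ) : Prop where
  val : ∀ s, H s ∈ D.K
  per : ∀ s v : D.O, H (s + M * v) = H s
  ty : ∀ x : D.O, Cp M x → ∀ s, H (x * s) = ψ.hc.br.f x * H s

omit [IsDedekindDomain D.O] in
/-- an element `≠ 0` of `I` congruent to `1` -/
private theorem ls_one {N : ℕ} (hN : 0 < N) {I : Ideal D.O} (h : Ip N I) :
    ∃ x ∈ I, x ≠ 0 ∧ ∃ y : D.O, x = 1 + N * y := by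
  obtain ⟨x, hx, y, e⟩ := ip_one h
  by_cases h0 : x = 0
  · obtain ⟨z, hz, hz0⟩ := Submodule.exists_mem_ne_zero_of_ne_bot h.1
    refine ⟨x + N * z, I.add_mem hx (I.mul_mem_left _ hz), ?_, y + z, by rw [e]; ring⟩
    rw [h0, zero_add]
    refine mul_ne_zero ?_ hz0
    exact_mod_cast hN.ne'
  · exact ⟨x, hx, h0, y, e⟩

omit [NeZero m] in
/-- the conductor -/
private theorem ls_cond (hm : m ∣ M) (hM : 0 < M) {H : D.O → ℂ} (hH : LH ψ M H)
    {d d' : Ideal D.O} (hd : d * d' = Ideal.span {(M : D.O)}) {s₁ : D.O} (hs : s₁ ∈ d)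
    (h1 : H s₁ ≠ 0) : d' ≤ Ideal.span {(m : D.O)} := by
  by_contra hne
  obtain ⟨q, hq⟩ : d' ⊔ Ideal.span {(m : D.O)} ∣ Ideal.span {(m : D.O)} :=
    Ideal.dvd_iff_le.2 le_sup_right
  have hqt : q ≠ ⊤ := by
    rintro rfl
    apply hne
    rw [Ideal.mul_top] at hq
    rw [hq]
    exact le_sup_left
  obtain ⟨x, hx, hx1, hx2⟩ := ψ.hc.br.prim q (d' ⊔ Ideal.span {(m : D.O)})
    (by rw [mul_comm]; exact hq.symm) hqt
  obtain ⟨a, ha, b, hb, hab⟩ := Submodule.mem_sup.1 hx1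
  obtain ⟨b', rfl⟩ := Ideal.mem_span_singleton.1 hb
  have hMJ : Ideal.span {(M : D.O)} ≤ d' ⊓ Ideal.span {(m : D.O)} := by
    refine le_inf ?_ ?_
    · rw [← hd]
      exact Ideal.mul_le_right
    · rw [Ideal.span_singleton_le_span_singleton]
      exact Nat.cast_dvd_cast hm
  have hcop : IsCoprime (Ideal.span {1 + a}) (d' ⊓ Ideal.span {(m : D.O)}) := by
    have c1 : IsCoprime (Ideal.span {1 + a}) d' := by
      rw [Ideal.isCoprime_iff_sup_eq, Ideal.eq_top_iff_one]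
      have h3 : (1 + a) + (-a) ∈ Ideal.span {1 + a} ⊔ d' :=
        Submodule.add_mem_sup (Ideal.mem_span_singleton_self (1 + a)) (d'.neg_mem ha)
      have h2 : (1 + a) + (-a) = (1 : D.O) := by ring
      rwa [h2] at h3
    have c2 : IsCoprime (Ideal.span {1 + a}) (Ideal.span {(m : D.O)}) := by
      obtain ⟨u, v, e⟩ := hx
      rw [Ideal.isCoprime_span_singleton_iff]
      refine ⟨u, v + u * b', ?_⟩
      linear_combination e + u * hab
    have c3 := IsCoprime.mul_right c1 c2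
    rw [Ideal.isCoprime_iff_sup_eq] at c3 ⊢
    rw [eq_top_iff, ← c3]
    exact sup_le_sup_left Ideal.mul_le_inf _
  obtain ⟨x', hx', hx'J⟩ := lift_cp hM hMJ hcop
  have h2 : (x' - 1) * s₁ ∈ d * d' := by
    rw [mul_comm (x' - 1) s₁]
    refine Ideal.mul_mem_mul hs ?_
    have h3 : x' - 1 = (x' - (1 + a)) + a := by ring
    rw [h3]
    exact d'.add_mem hx'J.1 ha
  rw [hd, Ideal.mem_span_singleton] at h2
  obtain ⟨z, hz⟩ := h2
  have h4 : H (x' * s₁) = H s₁ := by
    have h5 : x' * s₁ = s₁ + M * z := by linear_combination hz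
    rw [h5, hH.per]
  rw [hH.ty x' hx'] at h4
  have h6 : ψ.hc.br.f x' = 1 := by
    refine mul_right_cancel₀ h1 ?_
    rw [h4, one_mul]
  obtain ⟨w, hw⟩ := Ideal.mem_span_singleton.1 hx'J.2
  have h7 : x' = x + m * (w - b') := by linear_combination hw + hab
  rw [h7, ψ.hc.br.per] at h6
  exact hx2 h6

omit [NeZero m] in
private theorem ls_bd (hm : m ∣ M) (hM : 0 < M) {H : D.O → ℂ} (hH : LH ψ M H) {s₀ : D.O}
    (h0 : H s₀ ≠ 0) : ∃ (h : Ideal D.O) (y s₁ : D.O),
      Bd D m M (Ideal.span {s₀} ⊔ Ideal.span {(M : D.O)}) h y s₁ ∧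
      Ideal.span {s₁} ⊔ Ideal.span {(M : D.O)} = Ideal.span {s₀} ⊔ Ideal.span {(M : D.O)} ∧
      H s₁ ≠ 0 := by
  set d := Ideal.span {s₀} ⊔ Ideal.span {(M : D.O)} with hd
  have hMd : (M : D.O) ∈ d := Ideal.mem_sup_right (Ideal.mem_span_singleton_self _)
  have hM0 : (M : D.O) ≠ 0 := by exact_mod_cast hM.ne'
  have hd0 : d ≠ ⊥ := by
    intro h
    rw [h, Ideal.mem_bot] at hMd
    exact hM0 hMd
  have hJ : Ideal.span {(M : D.O)} ≠ ⊥ := by
    rw [Ne, Ideal.span_singleton_eq_bot]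
    exact hM0
  obtain ⟨s₁, hs₁, hs0, h, e, hc⟩ := ex_gen hd0 hJ
  have hh0 : h ≠ ⊥ := by
    rintro rfl
    rw [Ideal.mul_bot] at e
    exact hs0 (Ideal.span_singleton_eq_bot.1 e.symm)
  obtain ⟨y, hy, hy0, z, ez⟩ := ls_one hM (I := h) ⟨hh0, hc⟩
  obtain ⟨d', hd'⟩ := ex_quo hMd
  have hg : Ideal.span {s₁} ⊔ Ideal.span {(M : D.O)} = d := by
    rw [← e, ← hd', ← Ideal.mul_sup]
    have h1 : IsCoprime h d' := by
      rw [← hd'] at hc
      exact hc.of_mul_right_right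
    rw [Ideal.isCoprime_iff_sup_eq.1 h1, Ideal.mul_top]
  have hH1 : H s₁ ≠ 0 := by
    obtain ⟨u, hu, z, ez⟩ := same_gcd hM (x := s₁) (y := s₀) hg
    intro h1
    apply h0
    rw [ez, hH.per, hH.ty u hu, h1, mul_zero]
  refine ⟨h, y, s₁, ⟨hs0, hy0, e, ⟨hh0, hc⟩, hy, ⟨z, ez⟩, ?_⟩, hg, hH1⟩
  rw [← hd']
  exact Ideal.mul_mono_right (ls_cond ψ hm hM hH hd' hs₁ hH1)

private theorem ls_fin (hM : 0 < M) : {g : Ideal D.O | Ideal.span {(M : D.O)} ≤ g}.Finite := by
  have hM0 : (M : D.O) ≠ 0 := by exact_mod_cast hM.ne'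
  refine (ni_fin (D := D) (ni (Ideal.span {(M : D.O)}))).subset fun g hg => ?_
  obtain ⟨q, hq⟩ := Ideal.dvd_iff_le.2 hg
  have h0 : Ideal.span {(M : D.O)} ≠ ⊥ := by
    rw [Ne, Ideal.span_singleton_eq_bot]
    exact hM0
  refine ⟨?_, ?_⟩
  · rintro rfl
    rw [Ideal.bot_mul] at hq
    exact h0 hq
  · have h1 : ni (Ideal.span {(M : D.O)}) = ni g * ni q := by rw [hq, ni_mul]
    refine Nat.le_of_dvd (Nat.pos_of_ne_zero (ni_ne.2 h0)) ⟨ni q, h1⟩

private theorem LV_main (hm : m ∣ M) (hM : 0 < M) (S : Rp D M) (n : ℕ) : ∀ H : D.O → ℂ,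
    LH ψ M H → {g : Ideal D.O | Ideal.span {(M : D.O)} ≤ g ∧
      ∃ s, H s ≠ 0 ∧ g ≤ Ideal.span {s} ⊔ Ideal.span {(M : D.O)}}.ncard ≤ n → LV ψ S H := by
  have hfin : ∀ H : D.O → ℂ, {g : Ideal D.O | Ideal.span {(M : D.O)} ≤ g ∧
      ∃ s, H s ≠ 0 ∧ g ≤ Ideal.span {s} ⊔ Ideal.span {(M : D.O)}}.Finite := fun H =>
    (ls_fin hM).subset fun g hg => hg.1
  have hz : ∀ H : D.O → ℂ, (∀ s, H s = 0) → LV ψ S H := by
    intro H h
    have e : H = fun _ => 0 := funext h
    rw [e]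
    exact LV_zero ψ S
  induction n with
  | zero =>
    intro H hH hc
    apply hz H
    intro s
    by_contra h1
    have h2 : Ideal.span {s} ⊔ Ideal.span {(M : D.O)} ∈
        {g : Ideal D.O | Ideal.span {(M : D.O)} ≤ g ∧
          ∃ s, H s ≠ 0 ∧ g ≤ Ideal.span {s} ⊔ Ideal.span {(M : D.O)}} :=
      ⟨le_sup_right, s, h1, le_rfl⟩
    rw [(Set.ncard_eq_zero (hfin H)).1 (Nat.le_zero.1 hc)] at h2
    exact h2
  | succ n ih =>
    intro H hH hc
    by_cases hne : ∀ s, H s = 0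
    · exact hz H hne
    push Not at hne
    obtain ⟨t₀, ht₀⟩ := hne
    have hTfin : {g : Ideal D.O | ∃ s, H s ≠ 0 ∧
        g = Ideal.span {s} ⊔ Ideal.span {(M : D.O)}}.Finite :=
      (ls_fin hM).subset fun g hg => by
        obtain ⟨s, -, rfl⟩ := hg
        show Ideal.span {(M : D.O)} ≤ Ideal.span {s} ⊔ Ideal.span {(M : D.O)}
        exact le_sup_right
    obtain ⟨d, hd⟩ := hTfin.exists_maximal ⟨_, t₀, ht₀, rfl⟩
    obtain ⟨s₀, hs₀, hds⟩ := hd.1
    obtain ⟨h, y, s₁, b, hg, hH1⟩ := ls_bd ψ hm hM hH hs₀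
    rw [← hds] at b hg
    have hK := hH.val s₁
    refine LV_add ψ S (G := ed ψ d y s₁) hK (ih _ ⟨?_, ?_, ?_⟩ ?_) (LV_ed ψ b hm hM S)
    · intro s
      exact D.K.sub_mem (hH.val s) (D.K.mul_mem hK (ed_K ψ s))
    · intro s v
      show H (s + M * v) - H s₁ * ed ψ d y s₁ (s + M * v) = H s - H s₁ * ed ψ d y s₁ s
      rw [hH.per, ed_per ψ b]
    · intro x hx s
      show H (x * s) - H s₁ * ed ψ d y s₁ (x * s) =
        ψ.hc.br.f x * (H s - H s₁ * ed ψ d y s₁ s)
      rw [hH.ty x hx, ed_ty ψ b hx]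
      ring
    · -- the support shrinks
      have hor : ∀ s, H s - H s₁ * ed ψ d y s₁ s ≠ 0 → H s ≠ 0 ∨ s ∈ d := by
        intro s hs
        by_contra h1
        push Not at h1
        apply hs
        rw [h1.1, ed_zero ψ h1.2, mul_zero, sub_zero]
      have hle : ∀ s ∈ d, Ideal.span {s} ⊔ Ideal.span {(M : D.O)} ≤ d := by
        intro s hs
        refine sup_le ?_ ?_
        · rw [Ideal.span_singleton_le_iff_mem]
          exact hs
        · rw [Ideal.span_singleton_le_iff_mem]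
          exact b.md
      have hsub : {g : Ideal D.O | Ideal.span {(M : D.O)} ≤ g ∧
          ∃ s, H s - H s₁ * ed ψ d y s₁ s ≠ 0 ∧
            g ≤ Ideal.span {s} ⊔ Ideal.span {(M : D.O)}} ⊂
          {g : Ideal D.O | Ideal.span {(M : D.O)} ≤ g ∧
          ∃ s, H s ≠ 0 ∧ g ≤ Ideal.span {s} ⊔ Ideal.span {(M : D.O)}} := by
        rw [Set.ssubset_iff_of_subset]
        · refine ⟨d, ⟨?_, s₀, hs₀, hds.le⟩, ?_⟩
          · rw [hds]
            exact le_sup_right
          · rintro ⟨-, s, hs, hds'⟩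
            have heq : Ideal.span {s₁} ⊔ Ideal.span {(M : D.O)} =
                Ideal.span {s} ⊔ Ideal.span {(M : D.O)} := by
              rw [hg]
              refine le_antisymm hds' ?_
              rcases hor s hs with h1 | h1
              · exact hd.2 ⟨s, h1, rfl⟩ hds'
              · exact hle s h1
            obtain ⟨u, hu, z, ez⟩ := same_gcd hM heq
            apply hs
            rw [ez, hH.per, hH.ty u hu, ed_per ψ b, ed_ty ψ b hu, ed_one ψ b hm]
            ring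
        · rintro g ⟨hg1, s, hs, hg2⟩
          rcases hor s hs with h1 | h1
          · exact ⟨hg1, s, h1, hg2⟩
          · refine ⟨hg1, s₀, hs₀, ?_⟩
            rw [← hds]
            exact hg2.trans (hle s h1)
      have h9 := Set.ncard_lt_ncard hsub (hfin H)
      omega

/-! ### the line -/

omit [IsDedekindDomain D.O] in
private theorem ls_mem {N k : ℕ} {I : Ideal D.O} (hI : Ip N I) (hk : k ∣ N) {x : D.O}
    (h : (k : D.O) * x ∈ I) : x ∈ I := by
  obtain ⟨q, rfl⟩ := hk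
  have h1 := hI.2
  rw [Ideal.isCoprime_iff_exists] at h1
  obtain ⟨i, hi, j, hj, e⟩ := h1
  obtain ⟨z, rfl⟩ := Ideal.mem_span_singleton.1 hj
  have h2 : x = x * i + (q * z) * ((k : D.O) * x) := by
    have e' : i + ((k : D.O) * (q : D.O)) * z = 1 := by
      rw [← e]
      push_cast
      ring
    linear_combination (-x) * e'
  rw [h2]
  exact I.add_mem (I.mul_mem_left _ hi) (I.mul_mem_left _ h)

omit [IsDedekindDomain D.O] in
private theorem ls_clear {w : Vec} (hw : RNP.K2 D w) :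
    ∃ n : ℕ, 0 < n ∧ RNP.O2 D ((n : ℂ) • w) := by
  obtain ⟨n1, h1, h1'⟩ := mem_Fld.1 hw.1
  obtain ⟨n2, h2, h2'⟩ := mem_Fld.1 hw.2
  refine ⟨n1 * n2, Nat.mul_pos h1 h2, ?_, ?_⟩
  · have e : ((n1 * n2 : ℕ) : ℂ) * w.1 = n2 * (n1 * w.1) := by
      push_cast
      ring
    show ((n1 * n2 : ℕ) : ℂ) * w.1 ∈ D.O
    rw [e]
    exact D.O.mul_mem (RNP.nat_O n2) h1'
  · have e : ((n1 * n2 : ℕ) : ℂ) * w.2 = n1 * (n2 * w.2) := by
      push_cast
      ring
    show ((n1 * n2 : ℕ) : ℂ) * w.2 ∈ D.O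
    rw [e]
    exact D.O.mul_mem (RNP.nat_O n1) h2'

theorem ls_psi {M : ℕ} {P : Vec → ℂ} (hP : RNP.Adm D M P) (he : Ty ψ.hc.br M P)
    (S : Rp D (M * m)) {c : Vec} (hc : RNP.Cu D c) :
    ∃ k ∈ D.K, RNP.ls (fun w => P w * Ph ψ S ((M : ℂ) • w)) c = k * Lps ψ := by
  classical
  have hM := hP.pos
  have hm := Nat.pos_of_ne_zero (NeZero.ne m)
  obtain ⟨n0, hn0, hc0⟩ := ls_clear hc.1
  -- the denominator
  have hn1 : ∃ n1 : ℕ, 0 < n1 ∧ ∀ t : ℂ, P (t • c) ≠ 0 → ((n1 * M : ℕ) : ℂ) * t ∈ D.O := by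
    have key : ∀ ci : ℂ, ci ∈ D.K → ci ≠ 0 → ∃ n1 : ℕ, 0 < n1 ∧ ∀ t : ℂ,
        (M : ℂ) * (t * ci) ∈ D.O → ((n1 * M : ℕ) : ℂ) * t ∈ D.O := by
      intro ci hci hci0
      obtain ⟨n1, hn1, h1⟩ := mem_Fld.1 (D.K.inv_mem hci)
      refine ⟨n1, hn1, fun t ht => ?_⟩
      have h2 := D.O.mul_mem h1 ht
      have e : (n1 : ℂ) * ci⁻¹ * ((M : ℂ) * (t * ci)) = ((n1 * M : ℕ) : ℂ) * t := by
        push_cast
        field_simp
      rwa [e] at h2
    by_cases h1 : c.1 = 0
    · have h2 : c.2 ≠ 0 := fun h2 => hc.2 (Prod.ext h1 h2)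
      obtain ⟨n1, hn1, h3⟩ := key c.2 hc.1.2 h2
      exact ⟨n1, hn1, fun t ht => h3 t (hP.supp _ ht).2⟩
    · obtain ⟨n1, hn1, h3⟩ := key c.1 hc.1.1 h1
      exact ⟨n1, hn1, fun t ht => h3 t (hP.supp _ ht).1⟩
  obtain ⟨n1, hn1, hden⟩ := hn1
  obtain ⟨n, hn, hden'⟩ : ∃ n : ℕ, 0 < n ∧ ∀ t : ℂ, P (t • c) ≠ 0 → (n : ℂ) * t ∈ D.O :=
    ⟨n1 * M, Nat.mul_pos hn1 hM, hden⟩
  have hn' : (n : ℂ) ≠ 0 := by exact_mod_cast hn.ne'
  -- a coordinate
  obtain ⟨a1, ha1⟩ : ∃ a : D.O, (a : ℂ) = n0 * c.1 := ⟨⟨_, hc0.1⟩, rfl⟩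
  obtain ⟨a2, ha2⟩ : ∃ a : D.O, (a : ℂ) = n0 * c.2 := ⟨⟨_, hc0.2⟩, rfl⟩
  have hn0' : (n0 : ℂ) ≠ 0 := by exact_mod_cast hn0.ne'
  set ν : ℕ := if a1 = 0 then nn D a2 else nn D a1 with hν
  have hν0 : 0 < ν := by
    have h1 : ∀ a : D.O, a ≠ 0 → 0 < nn D a := by
      intro a ha
      rw [Nat.pos_iff_ne_zero, ← ni_span, ni_ne, Ne, Ideal.span_singleton_eq_bot]
      exact ha
    rw [hν]
    split_ifs with h2
    · refine h1 a2 ?_
      rintro rfl
      apply hc.2
      have e1 : (n0 : ℂ) * c.1 = 0 := by rw [← ha1, h2]; rfl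
      have e2 : (n0 : ℂ) * c.2 = 0 := by rw [← ha2]; rfl
      exact Prod.ext ((mul_eq_zero.1 e1).resolve_left hn0') ((mul_eq_zero.1 e2).resolve_left hn0')
    · exact h1 a1 h2
  set M' : ℕ := M * m * (n * n0) with hM'
  have hM'0 : 0 < M' := Nat.mul_pos (Nat.mul_pos hM hm) (Nat.mul_pos hn hn0)
  obtain ⟨S0⟩ := rp_ex (D := D) (M := M' * ν) (Nat.mul_pos hM'0 hν0)
  have hd1 : M * m ∣ M' * ν := Dvd.intro _ (by rw [hM']; ring : M * m * (n * n0 * ν) = M' * ν)
  have hd2 : M' ∣ M' * ν := Dvd.intro _ rfl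
  have hd3 : n * n0 ∣ M' * ν := Dvd.intro_left (M * m * ν) (by rw [hM']; ring)
  have hd4 : M * ν ∣ M' * ν := Dvd.intro (m * (n * n0)) (by rw [hM']; ring)
  rw [ls_change ψ hP he S (S0.dn hd1) hc]
  set H : D.O → ℂ := fun s => P (((s : ℂ) / n) • c) with hHdef
  have hH : LH ψ M' H := by
    refine ⟨fun s => hP.val _, ?_, ?_⟩
    · intro s v
      show P ((((s + M' * v : D.O) : ℂ) / n) • c) = P (((s : ℂ) / n) • c)
      have e : (((s + M' * v : D.O) : ℂ) / n) • c =
          ((s : ℂ) / n) • c + (M : ℂ) • (((m : ℂ) * v) • ((n0 : ℂ) • c)) := by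
        rw [smul_smul, smul_smul, ← add_smul]
        congr 1
        rw [hM']
        push_cast
        field_simp
      rw [e]
      exact hP.per _ _ (RNP.O2_smul (D.O.mul_mem (RNP.nat_O m) v.2) hc0)
    · intro x hx s
      show P ((((x * s : D.O) : ℂ) / n) • c) = ψ.hc.br.f x * P (((s : ℂ) / n) • c)
      have e : (((x * s : D.O) : ℂ) / n) • c = (x : ℂ) • (((s : ℂ) / n) • c) := by
        rw [smul_smul]
        congr 1
        push_cast
        ring
      rw [e]
      have hxm : Cp (M * m) x := by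
        obtain ⟨u, v, e1⟩ := hx
        refine ⟨u, v * ((n * n0 : ℕ) : D.O), ?_⟩
        rw [← e1, hM']
        push_cast
        ring
      by_cases h1 : RNP.O2 D ((M : ℂ) • (((s : ℂ) / n) • c))
      · exact he _ h1 x hxm
      · have h2 : P (((s : ℂ) / n) • c) = 0 := by
          by_contra h2
          exact h1 (hP.supp _ h2)
        rw [h2, mul_zero]
        by_contra h3
        apply h1
        have h4 := hP.supp _ h3
        rw [smul_comm] at h4
        have h5 : RNP.O2 D ((M' : ℂ) • ((M : ℂ) • (((s : ℂ) / n) • c))) := by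
          have e2 : (M' : ℂ) • ((M : ℂ) • (((s : ℂ) / n) • c)) =
              ((M : ℂ) * M * m * s) • ((n0 : ℂ) • c) := by
            rw [smul_smul, smul_smul, smul_smul]
            congr 1
            rw [hM']
            push_cast
            field_simp
          rw [e2]
          exact RNP.O2_smul (D.O.mul_mem (D.O.mul_mem (D.O.mul_mem (RNP.nat_O M) (RNP.nat_O M))
            (RNP.nat_O m)) s.2) hc0
        obtain ⟨u, v, e1⟩ := hx
        have e3 : (u : ℂ) * x + v * M' = 1 := by exact_mod_cast congrArg (fun z : D.O => (z : ℂ)) e1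
        have e4 : (M : ℂ) • (((s : ℂ) / n) • c) =
            (u : ℂ) • ((x : ℂ) • ((M : ℂ) • (((s : ℂ) / n) • c))) +
            (v : ℂ) • ((M' : ℂ) • ((M : ℂ) • (((s : ℂ) / n) • c))) := by
          rw [smul_smul (u : ℂ), smul_smul (v : ℂ), ← add_smul, e3, one_smul]
        rw [e4]
        exact RNP.O2_add (RNP.O2_smul u.2 h4) (RNP.O2_smul v.2 h5)
  obtain ⟨hs, k, hk, ek⟩ := LV_main ψ (M := M') ((Dvd.intro_left M rfl).mul_right _) hM'0
    (S0.dn hd2) _ H hH le_rfl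
  refine ⟨(n : ℂ) ^ 6 * k, D.K.mul_mem (D.K.pow_mem (natCast_mem _ n) 6) hk, ?_⟩
  rw [mul_assoc ((n : ℂ) ^ 6) k, ← ek]
  -- the condition
  have hin : ∀ I ∈ S0.s, ∀ s : D.O, H s ≠ 0 →
      (In2 I ((M : ℂ) • (((s : ℂ) / n) • c)) ↔ s ∈ I) := by
    intro I hI s hs0
    have hIp := S0.cp I hI
    have hw := hP.supp _ hs0
    obtain ⟨x1, hx1⟩ : ∃ x : D.O, (x : ℂ) = M * ((s : ℂ) / n * c.1) := ⟨⟨_, hw.1⟩, rfl⟩
    obtain ⟨x2, hx2⟩ : ∃ x : D.O, (x : ℂ) = M * ((s : ℂ) / n * c.2) := ⟨⟨_, hw.2⟩, rfl⟩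
    have f1 : ((n * n0 : ℕ) : D.O) * x1 = M * s * a1 := by
      apply Subtype.ext
      push_cast
      rw [hx1, ha1]
      field_simp
    have f2 : ((n * n0 : ℕ) : D.O) * x2 = M * s * a2 := by
      apply Subtype.ext
      push_cast
      rw [hx2, ha2]
      field_simp
    have hnn : ∀ a : D.O, a * cj a = ((nn D a : ℕ) : D.O) := by
      intro a
      apply Subtype.ext
      push_cast
      exact nn_mul_cj D a
    constructor
    · rintro ⟨x, hx, y, hy, e⟩
      have e1 : x1 = x := Subtype.ext (by rw [hx1]; exact congrArg Prod.fst e)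
      have e2 : x2 = y := Subtype.ext (by rw [hx2]; exact congrArg Prod.snd e)
      rw [← e1] at hx
      rw [← e2] at hy
      refine ls_mem hIp hd4 ?_
      by_cases h2 : a1 = 0
      · have e3 : ((M * ν : ℕ) : D.O) * s = ((n * n0 : ℕ) : D.O) * cj a2 * x2 := by
          have e4 : ν = nn D a2 := by rw [hν, if_pos h2]
          rw [e4, Nat.cast_mul, ← hnn]
          linear_combination (-cj a2) * f2
        rw [e3]
        exact I.mul_mem_left _ hy
      · have e3 : ((M * ν : ℕ) : D.O) * s = ((n * n0 : ℕ) : D.O) * cj a1 * x1 := by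
          have e4 : ν = nn D a1 := by rw [hν, if_neg h2]
          rw [e4, Nat.cast_mul, ← hnn]
          linear_combination (-cj a1) * f1
        rw [e3]
        exact I.mul_mem_left _ hx
    · intro hsI
      refine ⟨x1, ls_mem hIp hd3 ?_, x2, ls_mem hIp hd3 ?_, ?_⟩
      · rw [f1]
        exact I.mul_mem_right _ (I.mul_mem_left _ hsI)
      · rw [f2]
        exact I.mul_mem_right _ (I.mul_mem_left _ hsI)
      · rw [hx1, hx2]
        rfl
  -- the sum over the line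
  have hφ : Function.Injective fun s : D.O => (s : ℂ) / n := by
    intro s t h
    apply Subtype.ext
    exact (div_left_inj' hn').1 h
  unfold RNP.ls
  rw [← hφ.tsum_eq]
  · have hterm : ∀ s : D.O, (P (((s : ℂ) / n) • c) *
        Ph ψ (S0.dn hd1) ((M : ℂ) • (((s : ℂ) / n) • c))) *
        (((s : ℂ) / n) ^ 4 * (starRingEnd ℂ) ((s : ℂ) / n) ^ 2)⁻¹ =
        ∑ I ∈ S0.s, (n : ℂ) ^ 6 * (ψ.f I * ((ni I : ℕ) : ℂ) ^ 2 * lsG H I s) := by
      intro s
      have h6 : (((s : ℂ) / n) ^ 4 * (starRingEnd ℂ) ((s : ℂ) / n) ^ 2)⁻¹ =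
          (n : ℂ) ^ 6 * ((s : ℂ) ^ 4 * (starRingEnd ℂ) (s : ℂ) ^ 2)⁻¹ := by
        rw [map_div₀, map_natCast, div_pow, div_pow, div_mul_div_comm, ← pow_add, inv_div]
        rw [div_eq_mul_inv]
      rw [h6]
      by_cases h0 : H s = 0
      · have h0' : P (((s : ℂ) / n) • c) = 0 := h0
        rw [h0']
        simp only [zero_mul]
        symm
        apply Finset.sum_eq_zero
        intro I _
        simp [lsG, h0]
      · have h7 : Ph ψ (S0.dn hd1) ((M : ℂ) • (((s : ℂ) / n) • c)) =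
            ∑ I ∈ S0.s, ψ.f I * ((ni I : ℕ) : ℂ) ^ 2 * (if s ∈ I then 1 else 0) := by
          unfold Ph
          refine Finset.sum_congr rfl fun I hI => ?_
          congr 1
          have h8 := hin I hI s h0
          by_cases h9 : s ∈ I
          · rw [if_pos h9, if_pos (h8.2 h9)]
          · rw [if_neg h9, if_neg fun h => h9 (h8.1 h)]
        rw [h7, Finset.mul_sum, Finset.sum_mul]
        refine Finset.sum_congr rfl fun I hI => ?_
        simp only [lsG, hHdef]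
        split_ifs <;> ring
    have hterm' : ∀ s : D.O, (fun t : ℂ => (P (t • c) * Ph ψ (S0.dn hd1) ((M : ℂ) • (t • c))) *
        (t ^ 4 * (starRingEnd ℂ) t ^ 2)⁻¹) ((s : ℂ) / n) =
        ∑ I ∈ S0.s, (n : ℂ) ^ 6 * (ψ.f I * ((ni I : ℕ) : ℂ) ^ 2 * lsG H I s) := hterm
    rw [tsum_congr hterm', Summable.tsum_finsetSum]
    · rw [Finset.mul_sum]
      refine Finset.sum_congr rfl fun I hI => ?_
      rw [tsum_mul_left, tsum_mul_left]
    · intro I hI
      exact ((hs I hI).mul_left _).mul_left _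
  · intro t ht
    have h1 : P (t • c) ≠ 0 := by
      intro h1
      apply ht
      show (P (t • c) * _) * _ = 0
      rw [h1, zero_mul, zero_mul]
    refine ⟨⟨(n : ℂ) * t, hden' t h1⟩, ?_⟩
    show (n : ℂ) * t / n = t
    field_simp

end

end RNG
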