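import Pool.Agent.RNG.Hd
import Pool.Agent.RNG.Th

/-!
# RNG.Th2: theta series of weight two (port of RNE.Lt)
-/

open RNK

namespace RNG

noncomputable section


/-- the theta series of weight two -/
def th2 {D : RNP.OD} (N : ℕ) (a : D.O → ℂ) (t : ℝ) : ℂ :=
  ∑' x : D.O, a x * (x : ℂ) ^ 2 *
    ((Real.exp (-(Real.pi * t / (N * (UNI.om D.a).im)) * nn D x) : ℝ) : ℂ)

/-- the dual theta series of weight two -/
def th2c {D : RNP.OD} (N : ℕ) (a : D.O → ℂ) (t : ℝ) : ℂ :=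
  ∑' x : D.O, a x * (starRingEnd ℂ) (x : ℂ) ^ 2 *
    ((Real.exp (-(Real.pi * t / (N * (UNI.om D.a).im)) * nn D x) : ℝ) : ℂ)

variable {D : RNP.OD} {N : ℕ} [NeZero N]


/-! ### the lattice sums -/

section lat

open Complex

variable {x y : ℝ}

private def ltG (x y t : ℝ) (α β : ℂ) (p : ℤ × ℤ) : ℂ :=
  cexp (((-(Real.pi * t / y) * LatL.Q x y p : ℝ) : ℂ) + 2 * Real.pi * α * p.1 +
    2 * Real.pi * β * p.2)

private def ltS (x y t : ℝ) (α β : ℂ) (q : ℤ × ℤ) : ℂ :=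
  cexp (-Real.pi * y * q.2 ^ 2 / t - Real.pi * t * y * q.1 ^ 2 + 2 * Real.pi * I * q.2 * q.1 * x
    - 2 * Real.pi * I * q.2 * α * y / t + 2 * Real.pi * q.1 * (β - α * x)
    + Real.pi * y * α ^ 2 / t)

private theorem ltG_sum (hy : 0 < y) {t : ℝ} (ht : 0 < t) (α β : ℂ) :
    Summable (ltG x y t α β) := by
  have hp := Real.pi_pos
  have hd := LatL.del_pos (x := x) (y := y)
  have h := LatL.prod_summable
    (LatL.sum1b (a := Real.pi * t / y * LatL.del x y) (by positivity) (2 * Real.pi * α.re))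
    (LatL.sum1b (a := Real.pi * t / y * LatL.del x y) (by positivity) (2 * Real.pi * β.re))
  refine Summable.of_norm_bounded h (fun p => ?_)
  rw [ltG, Complex.norm_exp, ← Real.exp_add]
  apply Real.exp_le_exp.mpr
  have e1 : (2 * Real.pi * α * p.1 : ℂ).re = 2 * Real.pi * α.re * p.1 := by
    rw [show (2 * Real.pi * α * p.1 : ℂ) = ((2 * Real.pi * p.1 : ℝ) : ℂ) * α by push_cast; ring,
      Complex.re_ofReal_mul]
    ring
  have e2 : (2 * Real.pi * β * p.2 : ℂ).re = 2 * Real.pi * β.re * p.2 := by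
    rw [show (2 * Real.pi * β * p.2 : ℂ) = ((2 * Real.pi * p.2 : ℝ) : ℂ) * β by push_cast; ring,
      Complex.re_ofReal_mul]
    ring
  rw [Complex.add_re, Complex.add_re, e1, e2, Complex.ofReal_re]
  have h1 := LatL.Q_lower (x := x) hy p
  have h2 : 0 < Real.pi * t / y := by positivity
  nlinarith [mul_le_mul_of_nonneg_left h1 h2.le]

private theorem ltS_sum (hy : 0 < y) {t : ℝ} (ht : 0 < t) (α β : ℂ) :
    Summable (ltS x y t α β) := by
  have hp := Real.pi_pos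
  have h := (LatL.prod_summable
    (LatL.sum1b (a := Real.pi * t * y) (by positivity) (2 * Real.pi * (β - α * x).re))
    (LatL.sum1b (a := Real.pi * y / t) (by positivity) (2 * Real.pi * α.im * y / t))).mul_left
    (Real.exp ((Real.pi * y * α ^ 2 / t : ℂ).re))
  refine Summable.of_norm_bounded h (fun q => le_of_eq ?_)
  rw [ltS, Complex.norm_exp, ← Real.exp_add, ← Real.exp_add]
  congr 1
  have e1 : (-Real.pi * y * q.2 ^ 2 / t - Real.pi * t * y * q.1 ^ 2 : ℂ)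
      = ((-Real.pi * y * q.2 ^ 2 / t - Real.pi * t * y * q.1 ^ 2 : ℝ) : ℂ) := by push_cast; ring
  have e2 : (2 * Real.pi * I * q.2 * α * y / t : ℂ)
      = ((2 * Real.pi * q.2 * y / t : ℝ) : ℂ) * (I * α) := by push_cast; ring
  have e3 : (2 * Real.pi * I * q.2 * q.1 * x : ℂ) = ((2 * Real.pi * q.2 * q.1 * x : ℝ) : ℂ) * I := by
    push_cast; ring
  have e4 : (2 * Real.pi * q.1 * (β - α * x) : ℂ)
      = ((2 * Real.pi * q.1 : ℝ) : ℂ) * (β - α * x) := by push_cast; ring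
  rw [e1, e2, e3, e4]
  simp only [Complex.add_re, Complex.sub_re, Complex.ofReal_re, Complex.ofReal_im,
    Complex.mul_re, Complex.I_re, Complex.I_im, zero_mul, one_mul, zero_sub, mul_zero]
  ring

private theorem lt_row (hy : 0 < y) {t : ℝ} (ht : 0 < t) (α β : ℂ) (n : ℤ) :
    ∑' m : ℤ, ltG x y t α β (m, n) =
      (((Real.sqrt (t / y))⁻¹ : ℝ) : ℂ) * ∑' k : ℤ, ltS x y t α β (n, k) := by
  have hty : 0 < t / y := by positivity
  have hyc : (y : ℂ) ≠ 0 := Complex.ofReal_ne_zero.mpr hy.ne'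
  have htc : (t : ℂ) ≠ 0 := Complex.ofReal_ne_zero.mpr ht.ne'
  have key := Complex.tsum_exp_neg_quadratic (a := ((t / y : ℝ) : ℂ))
    (by rw [Complex.ofReal_re]; exact hty) (α - t * n * x / y)
  have e0 : (1 : ℂ) / ((t / y : ℝ) : ℂ) ^ (1 / 2 : ℂ) = (((Real.sqrt (t / y))⁻¹ : ℝ) : ℂ) := by
    rw [Real.sqrt_eq_rpow, Complex.ofReal_inv, Complex.ofReal_cpow hty.le, one_div]
    norm_num
  rw [e0] at key
  set C : ℂ := cexp (-Real.pi * t * n ^ 2 * (x ^ 2 + y ^ 2) / y + 2 * Real.pi * β * n) with hC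
  have e1 : ∀ m : ℤ, ltG x y t α β (m, n) =
      C * cexp (-Real.pi * ((t / y : ℝ) : ℂ) * m ^ 2 +
        2 * Real.pi * (α - t * n * x / y) * m) := by
    intro m
    rw [ltG, hC, ← Complex.exp_add]
    congr 1
    simp only [LatL.Q]
    push_cast
    field_simp
    ring
  have e2 : ∀ k : ℤ, ltS x y t α β (n, k) =
      C * cexp (-Real.pi / ((t / y : ℝ) : ℂ) * (k + I * (α - t * n * x / y)) ^ 2) := by
    intro k
    rw [ltS, hC, ← Complex.exp_add]
    congr 1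
    push_cast
    have hI : I ^ 2 = -1 := Complex.I_sq
    field_simp
    ring_nf
    rw [hI]
    ring
  rw [tsum_congr e1, tsum_congr e2, tsum_mul_left, tsum_mul_left, key]
  ring

private theorem ltG_eq (hy : 0 < y) {t : ℝ} (ht : 0 < t) (α β : ℂ) :
    ∑' p, ltG x y t α β p = (((Real.sqrt (t / y))⁻¹ : ℝ) : ℂ) * ∑' q, ltS x y t α β q := by
  have h1 := ltG_sum (x := x) hy ht α β
  have h2 : Summable (fun c : ℤ × ℤ => ltG x y t α β ((Equiv.prodComm ℤ ℤ) c)) :=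
    (Equiv.prodComm ℤ ℤ).summable_iff.mpr h1
  rw [← (Equiv.prodComm ℤ ℤ).tsum_eq, h2.tsum_prod, (ltS_sum hy ht α β).tsum_prod,
    ← tsum_mul_left]
  exact tsum_congr fun n => lt_row hy ht α β n

private theorem ltS_inv (hy : 0 < y) {t : ℝ} (ht : 0 < t) (α β : ℂ) (q : ℤ × ℤ) :
    ltS x y t α β (LatL.sw q) = cexp (Real.pi * y * α ^ 2 / t +
      Real.pi * (β - α * x) ^ 2 / (y * t)) *
      ltS x y t⁻¹ (-I * (β - α * x) / (y * t)) (-I * (β - α * x) / (y * t) * x + I * α * y / t) q := by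
  have hyc : (y : ℂ) ≠ 0 := Complex.ofReal_ne_zero.mpr hy.ne'
  have htc : (t : ℂ) ≠ 0 := Complex.ofReal_ne_zero.mpr ht.ne'
  rw [ltS, ltS, ← Complex.exp_add]
  congr 1
  simp only [LatL.sw, Equiv.coe_fn_mk]
  push_cast
  have hI : I ^ 2 = -1 := Complex.I_sq
  field_simp
  ring_nf
  rw [hI]
  ring

private theorem ltG_fe (hy : 0 < y) {t : ℝ} (ht : 0 < t) (α β : ℂ) :
    ∑' p, ltG x y t α β p = (t : ℂ)⁻¹ * cexp (Real.pi * y * α ^ 2 / t +
      Real.pi * (β - α * x) ^ 2 / (y * t)) *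
      ∑' p, ltG x y t⁻¹ (-I * (β - α * x) / (y * t))
        (-I * (β - α * x) / (y * t) * x + I * α * y / t) p := by
  have hti : 0 < t⁻¹ := inv_pos.mpr ht
  have htc : (t : ℂ) ≠ 0 := Complex.ofReal_ne_zero.mpr ht.ne'
  rw [ltG_eq hy ht, ltG_eq hy hti, ← LatL.sw.tsum_eq (ltS x y t α β),
    tsum_congr (fun q => ltS_inv hy ht α β q), tsum_mul_left, ← mul_assoc, ← mul_assoc]
  congr 1
  have h1 : Real.sqrt (t / y) = t * Real.sqrt (t⁻¹ / y) := by
    rw [show t / y = t ^ 2 * (t⁻¹ / y) by field_simp, Real.sqrt_mul (by positivity),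
      Real.sqrt_sq ht.le]
  rw [h1, mul_inv]
  push_cast
  ring


/-! ### differentiation of exponential series -/

private def ltF {ι : Type*} (a b : ι → ℂ) (u : ℂ) : ℂ := ∑' p, a p * cexp (u * b p)

private theorem ltF_deriv {ι : Type*} {a b : ι → ℂ}
    (hs : ∀ R : ℝ, Summable fun p => ‖a p‖ * Real.exp (R * ‖b p‖)) (u : ℂ) :
    HasDerivAt (ltF a b) (ltF (fun p => a p * b p) b u) u := by
  obtain ⟨R, hR⟩ : ∃ R, R = ‖u‖ + 1 := ⟨_, rfl⟩
  have hU : IsOpen (Metric.ball (0 : ℂ) R) := Metric.isOpen_ball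
  have huU : u ∈ Metric.ball (0 : ℂ) R := by
    rw [mem_ball_zero_iff, hR]
    linarith
  have hterm : ∀ (p : ι) (v : ℂ), HasDerivAt (fun v : ℂ => a p * cexp (v * b p))
      (a p * b p * cexp (v * b p)) v := by
    intro p v
    have h1 : HasDerivAt (fun v : ℂ => v * b p) (b p) v := by
      simpa using (hasDerivAt_id v).mul_const (b p)
    refine (h1.cexp.const_mul (a p)).congr_deriv ?_
    ring
  have hd : ∀ p : ι, DifferentiableOn ℂ (fun v : ℂ => a p * cexp (v * b p)) (Metric.ball (0 : ℂ) R) :=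
    fun p v _ => (hterm p v).differentiableAt.differentiableWithinAt
  have hb : ∀ (p : ι) (v : ℂ), v ∈ Metric.ball (0 : ℂ) R →
      ‖a p * cexp (v * b p)‖ ≤ ‖a p‖ * Real.exp (R * ‖b p‖) := by
    intro p v hv
    rw [norm_mul, Complex.norm_exp]
    refine mul_le_mul_of_nonneg_left (Real.exp_le_exp.mpr ?_) (norm_nonneg _)
    refine (Complex.re_le_norm _).trans ?_
    rw [norm_mul]
    exact mul_le_mul_of_nonneg_right (mem_ball_zero_iff.mp hv).le (norm_nonneg _)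
  have h1 := Complex.hasSum_deriv_of_summable_norm (hs R) hd hU hb huU
  have h2 := (Complex.differentiableOn_tsum_of_summable_norm (hs R) hd hU hb).differentiableAt
    (hU.mem_nhds huU)
  have h3 : ltF (fun p => a p * b p) b u = deriv (ltF a b) u := by
    unfold ltF
    rw [← tsum_congr (fun p => (hterm p u).deriv)]
    exact h1.tsum_eq
  rw [h3]
  exact h2.hasDerivAt

private theorem ltF_summ {ι : Type*} {a b : ι → ℂ}
    (hs : ∀ R : ℝ, Summable fun p => ‖a p‖ * Real.exp (R * ‖b p‖)) :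
    ∀ R : ℝ, Summable fun p => ‖a p * b p‖ * Real.exp (R * ‖b p‖) := by
  intro R
  refine Summable.of_nonneg_of_le (fun p => by positivity) (fun p => ?_) (hs (R + 1))
  rw [norm_mul, mul_assoc]
  refine mul_le_mul_of_nonneg_left ?_ (norm_nonneg _)
  have h1 : ‖b p‖ ≤ Real.exp ‖b p‖ := (by linarith : ‖b p‖ ≤ ‖b p‖ + 1).trans (Real.add_one_le_exp _)
  calc ‖b p‖ * Real.exp (R * ‖b p‖) ≤ Real.exp ‖b p‖ * Real.exp (R * ‖b p‖) :=
        mul_le_mul_of_nonneg_right h1 (Real.exp_pos _).le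
    _ = Real.exp ((R + 1) * ‖b p‖) := by
        rw [← Real.exp_add]
        congr 1
        ring

/-- second derivatives of equal series -/
private theorem ltF_two {ι κ : Type*} {a b : ι → ℂ} {a' b' : κ → ℂ}
    (hs : ∀ R : ℝ, Summable fun p => ‖a p‖ * Real.exp (R * ‖b p‖))
    (hs' : ∀ R : ℝ, Summable fun p => ‖a' p‖ * Real.exp (R * ‖b' p‖))
    (h : ∀ u, ltF a b u = ltF a' b' u) : ∑' p, a p * b p ^ 2 = ∑' p, a' p * b' p ^ 2 := by
  have h1 : ∀ u, ltF (fun p => a p * b p) b u = ltF (fun p => a' p * b' p) b' u := by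
    intro u
    have e1 := ltF_deriv hs u
    have e2 := ltF_deriv hs' u
    rw [show ltF a b = ltF a' b' from funext h] at e1
    exact e1.unique e2
  have h2 : ∀ u, ltF (fun p => a p * b p * b p) b u = ltF (fun p => a' p * b' p * b' p) b' u := by
    intro u
    have e1 := ltF_deriv (ltF_summ hs) u
    have e2 := ltF_deriv (ltF_summ hs') u
    rw [show ltF (fun p => a p * b p) b = ltF (fun p => a' p * b' p) b' from funext h1] at e1
    exact e1.unique e2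
  have h3 := h2 0
  unfold ltF at h3
  simp only [zero_mul, Complex.exp_zero, mul_one] at h3
  refine (tsum_congr fun p => ?_).trans (h3.trans (tsum_congr fun p => ?_))
  · ring
  · ring

/-- the generating function of a shifted lattice -/
private theorem lt_gen (hy : 0 < y) {t : ℝ} (ht : 0 < t) (z u : ℂ) :
    ∑' p : ℤ × ℤ, ((Real.exp (-(Real.pi * t / y) * ‖LatL.lat x y p + z‖ ^ 2) : ℝ) : ℂ) *
        cexp (u * (-(Real.pi * t / y : ℝ) * (LatL.lat x y p + z))) =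
      ∑' p : ℤ × ℤ, ((t : ℂ)⁻¹ * ((Real.exp (-(Real.pi * t⁻¹ / y) * LatL.Q x y p) : ℝ) : ℂ) *
        cexp (2 * Real.pi * I * (((starRingEnd ℂ) (LatL.lat x y p) * z).im / y : ℝ))) *
        cexp (u * (-(Real.pi / y : ℝ) * LatL.lat x y p)) := by
  have hyc : (y : ℂ) ≠ 0 := Complex.ofReal_ne_zero.mpr hy.ne'
  have htc : (t : ℂ) ≠ 0 := Complex.ofReal_ne_zero.mpr ht.ne'
  obtain ⟨α, hα⟩ : ∃ α : ℂ, α = -(t / y) * (z.re + u / 2) := ⟨_, rfl⟩
  obtain ⟨β, hβ⟩ : ∃ β : ℂ, β = -(t / y) * (z.re * x + z.im * y + u * (x + I * y) / 2) := ⟨_, rfl⟩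
  have h := ltG_fe (x := x) hy ht α β
  have e1 : ∀ p : ℤ × ℤ, ((Real.exp (-(Real.pi * t / y) * ‖LatL.lat x y p + z‖ ^ 2) : ℝ) : ℂ) *
        cexp (u * (-(Real.pi * t / y : ℝ) * (LatL.lat x y p + z))) =
      cexp (-(Real.pi * t / y) * (((‖z‖ ^ 2 : ℝ) : ℂ) + u * z)) * ltG x y t α β p := by
    intro p
    rw [ltG, Complex.ofReal_exp, ← Complex.exp_add, ← Complex.exp_add]
    congr 1
    have hz : z = (z.re : ℂ) + z.im * I := (Complex.re_add_im z).symm
    rw [hα, hβ, ← Complex.normSq_eq_norm_sq, ← Complex.normSq_eq_norm_sq, Complex.normSq_apply,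
      Complex.normSq_apply]
    simp only [LatL.lat, LatL.Q, Complex.add_re, Complex.add_im, Complex.mul_re, Complex.mul_im,
      Complex.ofReal_re, Complex.ofReal_im, Complex.I_re, Complex.I_im, mul_zero, mul_one,
      add_zero, zero_add, sub_zero]
    conv_lhs => rw [show u * (-(Real.pi * t / y : ℝ) * (((p.1 + p.2 * x : ℝ) : ℂ) + ((p.2 * y : ℝ) : ℂ) * I + z)) =
      u * (-(Real.pi * t / y : ℝ) * (((p.1 + p.2 * x : ℝ) : ℂ) + ((p.2 * y : ℝ) : ℂ) * I + (z.re + z.im * I))) by rw [← hz]]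
    conv_rhs => rw [show u * z = u * (z.re + z.im * I) by rw [← hz]]
    push_cast
    field_simp
    ring
  rw [tsum_congr e1, tsum_mul_left, h, ← mul_assoc, ← mul_assoc]
  have e2 : cexp (-(Real.pi * t / y) * (((‖z‖ ^ 2 : ℝ) : ℂ) + u * z)) * (t : ℂ)⁻¹ *
      cexp (Real.pi * y * α ^ 2 / t + Real.pi * (β - α * x) ^ 2 / (y * t)) = (t : ℂ)⁻¹ := by
    rw [mul_comm (cexp _) (t : ℂ)⁻¹, mul_assoc, ← Complex.exp_add]
    conv_rhs => rw [← mul_one (t : ℂ)⁻¹]
    congr 1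
    rw [← Complex.exp_zero]
    congr 1
    have hz : z = (z.re : ℂ) + z.im * I := (Complex.re_add_im z).symm
    conv_lhs => rw [show u * z = u * (z.re + z.im * I) by rw [← hz]]
    rw [hα, hβ, ← Complex.normSq_eq_norm_sq, Complex.normSq_apply]
    push_cast
    have hI : I ^ 2 = -1 := Complex.I_sq
    field_simp
    ring_nf
    rw [hI]
    ring
  rw [e2, ← tsum_mul_left]
  refine tsum_congr fun p => ?_
  rw [ltG, Complex.ofReal_exp]
  conv_rhs => rw [mul_assoc, mul_assoc, ← Complex.exp_add, ← Complex.exp_add]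
  congr 2
  have e3 : ((starRingEnd ℂ) (LatL.lat x y p) * z).im =
      (p.1 + p.2 * x) * z.im - p.2 * y * z.re := by
    simp only [LatL.lat, map_add, map_mul, Complex.conj_ofReal, Complex.conj_I, Complex.add_re,
      Complex.add_im, Complex.mul_re, Complex.mul_im, Complex.neg_re, Complex.neg_im,
      Complex.ofReal_re, Complex.ofReal_im, Complex.I_re, Complex.I_im]
    ring
  rw [e3, hα, hβ]
  simp only [LatL.lat]
  push_cast
  have hI : I ^ 2 = -1 := Complex.I_sq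
  field_simp
  ring_nf
  rw [hI]
  ring

private theorem lt_low (z w : ℂ) {c R : ℝ} (hc : 0 < c) :
    -c * ‖w + z‖ ^ 2 + R * (c * ‖w + z‖) ≤ -(c / 4) * ‖w‖ ^ 2 + (c * R ^ 2 + c * ‖z‖ ^ 2) := by
  have h1 : ‖w‖ ≤ ‖w + z‖ + ‖z‖ := by
    calc ‖w‖ = ‖(w + z) - z‖ := by rw [add_sub_cancel_right]
      _ ≤ ‖w + z‖ + ‖z‖ := norm_sub_le _ _
  have h2 := norm_nonneg w
  have h3 := norm_nonneg z
  have h4 := norm_nonneg (w + z)
  have h5 : ‖w‖ ^ 2 ≤ 2 * ‖w + z‖ ^ 2 + 2 * ‖z‖ ^ 2 := by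
    nlinarith [sq_nonneg (‖w + z‖ - ‖z‖)]
  have h6 : R * ‖w + z‖ ≤ ‖w + z‖ ^ 2 / 4 + R ^ 2 := by nlinarith [sq_nonneg (‖w + z‖ / 2 - R)]
  have h7 : -‖w + z‖ ^ 2 + R * ‖w + z‖ ≤ -(1 / 4) * ‖w‖ ^ 2 + (R ^ 2 + ‖z‖ ^ 2) := by nlinarith
  have h8 := mul_le_mul_of_nonneg_left h7 hc.le
  nlinarith

/-- Poisson summation of weight two for a shifted lattice -/
private theorem lt_pois2 (hy : 0 < y) {t : ℝ} (ht : 0 < t) (z : ℂ) :
    ∑' p : ℤ × ℤ, (LatL.lat x y p + z) ^ 2 *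
        ((Real.exp (-(Real.pi * t / y) * ‖LatL.lat x y p + z‖ ^ 2) : ℝ) : ℂ) =
      ((t : ℂ)⁻¹) ^ 3 * ∑' p : ℤ × ℤ, LatL.lat x y p ^ 2 *
        ((Real.exp (-(Real.pi * t⁻¹ / y) * LatL.Q x y p) : ℝ) : ℂ) *
        cexp (2 * Real.pi * I * (((starRingEnd ℂ) (LatL.lat x y p) * z).im / y : ℝ)) := by
  have hpi := Real.pi_pos
  have hyc : (y : ℂ) ≠ 0 := Complex.ofReal_ne_zero.mpr hy.ne'
  have htc : (t : ℂ) ≠ 0 := Complex.ofReal_ne_zero.mpr ht.ne'
  have hpc : (Real.pi : ℂ) ≠ 0 := Complex.ofReal_ne_zero.mpr hpi.ne'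
  have hc : 0 < Real.pi * t / y := by positivity
  have hc2 : 0 < Real.pi * t⁻¹ / y := by positivity
  have hs : ∀ R : ℝ, Summable fun p : ℤ × ℤ =>
      ‖((Real.exp (-(Real.pi * t / y) * ‖LatL.lat x y p + z‖ ^ 2) : ℝ) : ℂ)‖ *
        Real.exp (R * ‖-((Real.pi * t / y : ℝ) : ℂ) * (LatL.lat x y p + z)‖) := by
    intro R
    refine Summable.of_nonneg_of_le (fun p => by positivity) (fun p => ?_)
      ((LatL.sum_gauss (x := x) hy (c := Real.pi * t / y / 4) (by positivity)).mul_right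
        (Real.exp (Real.pi * t / y * R ^ 2 + Real.pi * t / y * ‖z‖ ^ 2)))
    rw [Complex.norm_real, Real.norm_of_nonneg (Real.exp_pos _).le, norm_mul, norm_neg, Complex.norm_real,
      Real.norm_of_nonneg hc.le, ← Real.exp_add, ← Real.exp_add, LatL.Q_eq]
    exact Real.exp_le_exp.mpr (lt_low z (LatL.lat x y p) hc)
  have hs' : ∀ R : ℝ, Summable fun p : ℤ × ℤ =>
      ‖(t : ℂ)⁻¹ * ((Real.exp (-(Real.pi * t⁻¹ / y) * LatL.Q x y p) : ℝ) : ℂ) *
        cexp (2 * Real.pi * I * (((starRingEnd ℂ) (LatL.lat x y p) * z).im / y : ℝ))‖ *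
        Real.exp (R * ‖-((Real.pi / y : ℝ) : ℂ) * LatL.lat x y p‖) := by
    intro R
    refine Summable.of_nonneg_of_le (fun p => by positivity) (fun p => ?_)
      ((LatL.sum_gauss (x := x) hy (c := Real.pi * t⁻¹ / y / 4) (by positivity)).mul_right
        (t⁻¹ * Real.exp (Real.pi * t⁻¹ / y * (R * t) ^ 2 + Real.pi * t⁻¹ / y * ‖(0 : ℂ)‖ ^ 2)))
    have h1 : ‖cexp (2 * Real.pi * I * (((starRingEnd ℂ) (LatL.lat x y p) * z).im / y : ℝ))‖ = 1 := by
      rw [show (2 * Real.pi * I * (((starRingEnd ℂ) (LatL.lat x y p) * z).im / y : ℝ) : ℂ) =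
        ((2 * Real.pi * (((starRingEnd ℂ) (LatL.lat x y p) * z).im / y) : ℝ) : ℂ) * I by push_cast; ring]
      exact Complex.norm_exp_ofReal_mul_I _
    have h2 := lt_low 0 (LatL.lat x y p) (R := R * t) hc2
    rw [norm_mul, norm_mul, h1, mul_one, Complex.norm_real, Real.norm_of_nonneg (Real.exp_pos _).le, norm_mul, norm_neg,
      Complex.norm_real, Real.norm_of_nonneg (by positivity : 0 ≤ Real.pi / y), norm_inv, Complex.norm_real,
      Real.norm_of_nonneg ht.le, mul_assoc, ← Real.exp_add, mul_comm (Real.exp _) (t⁻¹ * _), mul_assoc, ← Real.exp_add]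
    refine mul_le_mul_of_nonneg_left (Real.exp_le_exp.mpr ?_) (by positivity)
    rw [LatL.Q_eq]
    rw [add_zero] at h2
    have h3 : R * t * (Real.pi * t⁻¹ / y * ‖LatL.lat x y p‖) = R * (Real.pi / y * ‖LatL.lat x y p‖) := by
      field_simp
    rw [h3] at h2
    linarith
  have h := ltF_two hs hs' (fun u => by
    unfold ltF
    exact lt_gen (x := x) hy ht z u)
  have e1 : ∑' p : ℤ × ℤ, ((Real.exp (-(Real.pi * t / y) * ‖LatL.lat x y p + z‖ ^ 2) : ℝ) : ℂ) *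
      (-((Real.pi * t / y : ℝ) : ℂ) * (LatL.lat x y p + z)) ^ 2 = ((Real.pi * t / y : ℝ) : ℂ) ^ 2 *
      ∑' p : ℤ × ℤ, (LatL.lat x y p + z) ^ 2 *
        ((Real.exp (-(Real.pi * t / y) * ‖LatL.lat x y p + z‖ ^ 2) : ℝ) : ℂ) := by
    rw [← tsum_mul_left]
    refine tsum_congr fun p => ?_
    ring
  have e2 : ∑' p : ℤ × ℤ, ((t : ℂ)⁻¹ * ((Real.exp (-(Real.pi * t⁻¹ / y) * LatL.Q x y p) : ℝ) : ℂ) *
        cexp (2 * Real.pi * I * (((starRingEnd ℂ) (LatL.lat x y p) * z).im / y : ℝ))) *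
        (-((Real.pi / y : ℝ) : ℂ) * LatL.lat x y p) ^ 2 = ((Real.pi * t / y : ℝ) : ℂ) ^ 2 * (((t : ℂ)⁻¹) ^ 3 *
      ∑' p : ℤ × ℤ, LatL.lat x y p ^ 2 *
        ((Real.exp (-(Real.pi * t⁻¹ / y) * LatL.Q x y p) : ℝ) : ℂ) *
        cexp (2 * Real.pi * I * (((starRingEnd ℂ) (LatL.lat x y p) * z).im / y : ℝ))) := by
    rw [← tsum_mul_left, ← tsum_mul_left]
    refine tsum_congr fun p => ?_
    obtain ⟨E, hE⟩ : ∃ E, E = ((Real.exp (-(Real.pi * t⁻¹ / y) * LatL.Q x y p) : ℝ) : ℂ) := ⟨_, rfl⟩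
    obtain ⟨G, hG⟩ : ∃ G, G = cexp (2 * Real.pi * I * (((starRingEnd ℂ) (LatL.lat x y p) * z).im / y : ℝ)) := ⟨_, rfl⟩
    rw [← hE, ← hG]
    push_cast
    field_simp
  rw [e1, e2] at h
  refine mul_left_cancel₀ (pow_ne_zero 2 ?_) h
  rw [Complex.ofReal_ne_zero]
  positivity

end lat

/-! ### the order -/

private theorem lt_lat (m : ℤ × ℤ) :
    ((el D m : D.O) : ℂ) = LatL.lat (UNI.om D.a).re (UNI.om D.a).im m := by
  show UNI.xx D.a m = _
  refine Complex.ext ?_ ?_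
  · simp [UNI.xx, LatL.lat]
  · simp [UNI.xx, LatL.lat]

private theorem lt_nn (m : ℤ × ℤ) :
    ((nn D (el D m) : ℕ) : ℝ) = LatL.Q (UNI.om D.a).re (UNI.om D.a).im m := by
  rw [nn_real, lt_lat, LatL.Q_eq]

private theorem lt_gauss {c : ℝ} (hc : 0 < c) :
    Summable (fun x : D.O => Real.exp (-c * nn D x)) := by
  rw [← (elE D).summable_iff]
  refine (LatL.sum_gauss (x := (UNI.om D.a).re) (om_im_pos D) hc).congr fun p => ?_
  rw [← lt_nn]
  rfl

private def lt_cj (D : RNP.OD) : D.O ≃ D.O where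
  toFun x := ⟨(starRingEnd ℂ) (x : ℂ), cj_Ord x.2⟩
  invFun x := ⟨(starRingEnd ℂ) (x : ℂ), cj_Ord x.2⟩
  left_inv _ := Subtype.ext (Complex.conj_conj _)
  right_inv _ := Subtype.ext (Complex.conj_conj _)

private theorem lt_nncj (x : D.O) : nn D (lt_cj D x) = nn D x := by
  have h : ((nn D (lt_cj D x) : ℕ) : ℝ) = ((nn D x : ℕ) : ℝ) := by
    rw [nn_real, nn_real]
    show ‖(starRingEnd ℂ) (x : ℂ)‖ ^ 2 = _
    rw [Complex.norm_conj]
  exact_mod_cast h

private theorem lt_sD (D : RNP.OD) : UNL.sD (toU D.a) = 2 * (UNI.om D.a).im := by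
  have h1 : UNL.sD (toU D.a) = Real.sqrt (4 * D.a.n - D.a.t ^ 2) := by
    simp only [UNL.sD, toU]
    congr 1
    push_cast
    ring
  have h3 : (UNI.om D.a).im = Real.sqrt (4 * D.a.n - D.a.t ^ 2) / 2 := by
    simp only [UNI.om]
    rw [show (2 : ℂ) = ((2 : ℝ) : ℂ) by norm_num, Complex.div_ofReal_im]
    simp
  rw [h1, h3]
  ring

private theorem lt_ps (z : ℂ) : pss D z =
    Complex.exp (2 * Real.pi * Complex.I * (z.im / (UNI.om D.a).im : ℝ)) := by
  have hy := om_im_pos D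
  have hyc : ((UNI.om D.a).im : ℂ) ≠ 0 := Complex.ofReal_ne_zero.mpr hy.ne'
  show ps (toU D.a) z = _
  unfold ps UNL.kap
  congr 1
  have h1 : z - (starRingEnd ℂ) z = 2 * Complex.I * (z.im : ℂ) := by
    rw [Complex.sub_conj]
    push_cast
    ring
  rw [h1, lt_sD]
  simp only [toU]
  push_cast
  field_simp

/-- classes and multiples of `N` -/
private def lt_eq (D : RNP.OD) (N : ℕ) [NeZero N] : UNL.G N × D.O ≃ D.O :=
  Equiv.ofBijective (fun q => rp D q.1 + (N : D.O) * q.2) (by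
    have hN : (N : D.O) ≠ 0 := by
      intro h
      have h2 := congrArg (Subtype.val) h
      have h3 : ((N : ℕ) : ℂ) = 0 := by
        have : (((N : D.O)) : ℂ) = ((N : ℕ) : ℂ) := by push_cast; rfl
        rw [← this, h]
        rfl
      exact Nat.cast_ne_zero.2 (NeZero.ne N) h3
    constructor
    · rintro ⟨k, x⟩ ⟨l, y⟩ h
      simp only at h
      have h1 : k = l := by
        rw [← cls_rp (D := D) k, ← cls_rp (D := D) l, cls_eq]
        exact ⟨y - x, by linear_combination h⟩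
      subst h1
      have h2 : (N : D.O) * x = (N : D.O) * y := add_left_cancel h
      have h3 := mul_left_cancel₀ hN h2
      rw [h3]
    · intro x
      obtain ⟨y, hy⟩ := rp_cls (N := N) x
      exact ⟨(cls N x, y), hy.symm⟩)


/-- Poisson summation of weight two on `O` -/
private theorem lt_pois {T : ℝ} (hT : 0 < T) (z : ℂ) :
    ∑' x : D.O, ((x : ℂ) + z) ^ 2 *
      ((Real.exp (-(Real.pi * T / (UNI.om D.a).im) * ‖(x : ℂ) + z‖ ^ 2) : ℝ) : ℂ) =
      ((T : ℂ)⁻¹) ^ 3 * ∑' x : D.O, (starRingEnd ℂ) (x : ℂ) ^ 2 *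
        ((Real.exp (-(Real.pi * T⁻¹ / (UNI.om D.a).im) * nn D x) : ℝ) : ℂ) *
        pss D ((x : ℂ) * z) := by
  have h := lt_pois2 (x := (UNI.om D.a).re) (om_im_pos D) hT z
  rw [← (elE D).tsum_eq, ← (lt_cj D).tsum_eq (fun x : D.O => (starRingEnd ℂ) (x : ℂ) ^ 2 *
    ((Real.exp (-(Real.pi * T⁻¹ / (UNI.om D.a).im) * nn D x) : ℝ) : ℂ) * pss D ((x : ℂ) * z)),
    ← (elE D).tsum_eq (fun x : D.O => (starRingEnd ℂ) ((lt_cj D x : D.O) : ℂ) ^ 2 *
      ((Real.exp (-(Real.pi * T⁻¹ / (UNI.om D.a).im) *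
      nn D (lt_cj D x)) : ℝ) : ℂ) * pss D (((lt_cj D x : D.O) : ℂ) * z))]
  have e1 : ∀ p : ℤ × ℤ, (((elE D) p : D.O) : ℂ) =
      LatL.lat (UNI.om D.a).re (UNI.om D.a).im p := lt_lat
  have e2 : ∀ p : ℤ × ℤ, ((nn D (lt_cj D ((elE D) p)) : ℕ) : ℝ) =
      LatL.Q (UNI.om D.a).re (UNI.om D.a).im p := fun p => by
    rw [lt_nncj]
    exact lt_nn p
  have e3 : ∀ p : ℤ × ℤ, ((lt_cj D ((elE D) p) : D.O) : ℂ) =
      (starRingEnd ℂ) (LatL.lat (UNI.om D.a).re (UNI.om D.a).im p) := fun p => by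
    rw [← e1]
    rfl
  simp only [e1, e2, e3, lt_ps, Complex.conj_conj]
  exact h

omit [NeZero N] in
private theorem lt_gauss1 {c : ℝ} (hc : 0 < c) :
    Summable (fun x : D.O => (nn D x : ℝ) * Real.exp (-c * nn D x)) := by
  refine Summable.of_nonneg_of_le (fun x => by positivity) (fun x => LatL.bound_one hc)
    ((lt_gauss (D := D) (half_pos hc)).mul_left (2 / c))

omit [NeZero N] in
theorem th2_summable {a : D.O → ℂ} (ha : ∃ C : ℝ, ∀ x, ‖a x‖ ≤ C) {c : ℝ} (hc : 0 < c) :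
    Summable (fun x : D.O => a x * (x : ℂ) ^ 2 * ((Real.exp (-c * nn D x) : ℝ) : ℂ)) := by
  obtain ⟨C, hC⟩ := ha
  refine Summable.of_norm_bounded ((lt_gauss1 (D := D) hc).mul_left C) fun x => ?_
  rw [norm_mul, norm_mul, norm_pow, ← nn_real, Complex.norm_real, Real.norm_of_nonneg (Real.exp_pos _).le, mul_assoc]
  exact mul_le_mul_of_nonneg_right (hC x) (by positivity)

omit [NeZero N] in
theorem th2c_summable {a : D.O → ℂ} (ha : ∃ C : ℝ, ∀ x, ‖a x‖ ≤ C) {c : ℝ} (hc : 0 < c) :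
    Summable (fun x : D.O => a x * (starRingEnd ℂ) (x : ℂ) ^ 2 *
      ((Real.exp (-c * nn D x) : ℝ) : ℂ)) := by
  obtain ⟨C, hC⟩ := ha
  refine Summable.of_norm_bounded ((lt_gauss1 (D := D) hc).mul_left C) fun x => ?_
  rw [norm_mul, norm_mul, norm_pow, Complex.norm_conj, ← nn_real, Complex.norm_real,
    Real.norm_of_nonneg (Real.exp_pos _).le, mul_assoc]
  exact mul_le_mul_of_nonneg_right (hC x) (by positivity)

theorem th2_fe {a : D.O → ℂ} (ha : Pe N a) {t : ℝ} (ht : 0 < t) :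
    th2 N a (1 / t) = (t : ℂ) ^ 3 * th2c N (du N a) t := by
  have hy := om_im_pos D
  have hNp : (0 : ℝ) < N := Nat.cast_pos.2 (Nat.pos_of_ne_zero (NeZero.ne N))
  have hNc : (N : ℂ) ≠ 0 := Nat.cast_ne_zero.2 (NeZero.ne N)
  have htc : (t : ℂ) ≠ 0 := Complex.ofReal_ne_zero.mpr ht.ne'
  have hpi := Real.pi_pos
  have hT : 0 < (N : ℝ) / t := by positivity
  have hc : 0 < Real.pi * t / (N * (UNI.om D.a).im) := by positivity
  have hc' : 0 < Real.pi * (1 / t) / (N * (UNI.om D.a).im) := by positivity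
  have hs := th2_summable (Pe_bdd ha) hc'
  have hs2 := (lt_eq D N).summable_iff.2 hs
  have e1 : th2 N a (1 / t) = ∑ k : UNL.G N, ∑' x : D.O, (a (rp D k) * (N : ℂ) ^ 2) *
      (((x : ℂ) + UNL.tp (toU D.a) k) ^ 2 *
      ((Real.exp (-(Real.pi * ((N : ℝ) / t) / (UNI.om D.a).im) *
        ‖(x : ℂ) + UNL.tp (toU D.a) k‖ ^ 2) : ℝ) : ℂ)) := by
    unfold th2
    rw [← (lt_eq D N).tsum_eq]
    refine Eq.trans hs2.tsum_prod ?_
    rw [tsum_fintype]
    refine Finset.sum_congr rfl fun k _ => tsum_congr fun x => ?_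
    have h2 : ((rp D k + (N : D.O) * x : D.O) : ℂ) =
        (N : ℂ) * ((x : ℂ) + UNL.tp (toU D.a) k) := by
      rw [tp_rp]
      push_cast
      field_simp
      ring
    have h1 : ((nn D (rp D k + (N : D.O) * x) : ℕ) : ℝ) =
        N ^ 2 * ‖(x : ℂ) + UNL.tp (toU D.a) k‖ ^ 2 := by
      rw [nn_real, h2, norm_mul, mul_pow, Complex.norm_natCast]
    show a (rp D k + (N : D.O) * x) * ((rp D k + (N : D.O) * x : D.O) : ℂ) ^ 2 *
      ((Real.exp (-(Real.pi * (1 / t) / (N * (UNI.om D.a).im)) *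
      ((nn D (rp D k + (N : D.O) * x) : ℕ) : ℝ)) : ℝ) : ℂ) = _
    rw [ha, h1, h2]
    have h3 : -(Real.pi * (1 / t) / (N * (UNI.om D.a).im)) * (N ^ 2 * ‖(x : ℂ) + UNL.tp (toU D.a) k‖ ^ 2) =
        -(Real.pi * ((N : ℝ) / t) / (UNI.om D.a).im) * ‖(x : ℂ) + UNL.tp (toU D.a) k‖ ^ 2 := by
      field_simp
    rw [h3]
    ring
  have e2 : ∀ k : UNL.G N, ∑' x : D.O, (a (rp D k) * (N : ℂ) ^ 2) *
      (((x : ℂ) + UNL.tp (toU D.a) k) ^ 2 *
      ((Real.exp (-(Real.pi * ((N : ℝ) / t) / (UNI.om D.a).im) *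
        ‖(x : ℂ) + UNL.tp (toU D.a) k‖ ^ 2) : ℝ) : ℂ)) =
      ∑' x : D.O, (t : ℂ) ^ 3 * ((1 / (N : ℂ) * (a (rp D k) *
        pss D ((x : ℂ) * UNL.tp (toU D.a) k))) * (starRingEnd ℂ) (x : ℂ) ^ 2 *
        ((Real.exp (-(Real.pi * t / (N * (UNI.om D.a).im)) * nn D x) : ℝ) : ℂ)) := by
    intro k
    rw [tsum_mul_left, lt_pois hT, ← mul_assoc, ← tsum_mul_left]
    refine tsum_congr fun x => ?_
    have h1 : Real.pi * ((N : ℝ) / t)⁻¹ / (UNI.om D.a).im =
        Real.pi * t / (N * (UNI.om D.a).im) := by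
      field_simp
    rw [h1]
    obtain ⟨X, hX⟩ : ∃ X, X = ((Real.exp (-(Real.pi * t / (N * (UNI.om D.a).im)) * nn D x) : ℝ) : ℂ) := ⟨_, rfl⟩
    rw [← hX]
    push_cast
    field_simp
  have e3 : ∀ k : UNL.G N, Summable fun x : D.O => (t : ℂ) ^ 3 * ((1 / (N : ℂ) * (a (rp D k) *
        pss D ((x : ℂ) * UNL.tp (toU D.a) k))) * (starRingEnd ℂ) (x : ℂ) ^ 2 *
        ((Real.exp (-(Real.pi * t / (N * (UNI.om D.a).im)) * nn D x) : ℝ) : ℂ)) := by
    intro k
    refine Summable.mul_left _ (th2c_summable ⟨‖1 / (N : ℂ)‖ * ‖a (rp D k)‖, fun x => ?_⟩ hc)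
    rw [norm_mul, norm_mul, pss_norm, mul_one]
  rw [e1, Finset.sum_congr rfl fun k _ => e2 k, ← Summable.tsum_finsetSum fun k _ => e3 k]
  unfold th2c
  rw [← tsum_mul_left]
  refine tsum_congr fun x => ?_
  rw [← Finset.mul_sum, ← Finset.sum_mul, ← Finset.sum_mul, ← Finset.mul_sum]
  rfl

/-- the theta series decreases exponentially fast -/
theorem th2_top {a : D.O → ℂ} (ha : Pe N a) : ∃ C c : ℝ, 0 < c ∧ ∀ t : ℝ, 1 ≤ t →
    ‖th2 N a t‖ ≤ C * Real.exp (-c * t) := by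
  have hy := om_im_pos D
  have hNp : (0 : ℝ) < N := Nat.cast_pos.2 (Nat.pos_of_ne_zero (NeZero.ne N))
  have hpi := Real.pi_pos
  set κ : ℝ := Real.pi / (N * (UNI.om D.a).im) with hκ
  have hκp : 0 < κ := by positivity
  obtain ⟨B, hB⟩ := Pe_bdd ha
  have hB0 : 0 ≤ B := (norm_nonneg _).trans (hB 0)
  refine ⟨(∑' x : D.O, B * (nn D x * Real.exp (-κ * nn D x))) * Real.exp κ, κ, hκp, fun t ht => ?_⟩
  have hct : Real.pi * t / (N * (UNI.om D.a).im) = κ * t := by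
    rw [hκ]
    ring
  have h2 := ((lt_gauss1 (D := D) hκp).mul_left B).mul_right (Real.exp (-κ * (t - 1)))
  have h3 : ‖th2 N a t‖ ≤
      ∑' x : D.O, B * (nn D x * Real.exp (-κ * nn D x)) * Real.exp (-κ * (t - 1)) := by
    unfold th2
    refine tsum_of_norm_bounded h2.hasSum fun x => ?_
    rw [norm_mul, norm_mul, norm_pow, ← nn_real, Complex.norm_real, Real.norm_of_nonneg (Real.exp_pos _).le, hct]
    by_cases hx : x = 0
    · have h0 : nn D x = 0 := nn_eq_zero.2 hx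
      rw [h0]
      simp
    · have h4 : (1 : ℝ) ≤ nn D x := by
        have : 1 ≤ nn D x := Nat.one_le_iff_ne_zero.2 fun h => hx (nn_eq_zero.1 h)
        exact_mod_cast this
      have h5 : 0 ≤ κ * ((t - 1) * ((nn D x : ℝ) - 1)) :=
        mul_nonneg hκp.le (mul_nonneg (by linarith) (by linarith))
      have h6 : Real.exp (-(κ * t) * nn D x) ≤ Real.exp (-κ * nn D x) * Real.exp (-κ * (t - 1)) := by
        rw [← Real.exp_add]
        refine Real.exp_le_exp.2 ?_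
        nlinarith
      calc ‖a x‖ * (nn D x : ℝ) * Real.exp (-(κ * t) * nn D x)
          ≤ B * (nn D x : ℝ) * (Real.exp (-κ * nn D x) * Real.exp (-κ * (t - 1))) :=
            mul_le_mul (mul_le_mul_of_nonneg_right (hB x) (Nat.cast_nonneg _)) h6 (Real.exp_pos _).le (by positivity)
        _ = B * (nn D x * Real.exp (-κ * nn D x)) * Real.exp (-κ * (t - 1)) := by ring
  refine h3.trans (le_of_eq ?_)
  rw [tsum_mul_right, mul_assoc, ← Real.exp_add]
  congr 2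
  ring

theorem th2_cont {a : D.O → ℂ} (ha : Pe N a) : ContinuousOn (th2 N a) (Set.Ioi 0) := by
  intro u hu
  have hu' : 0 < u := hu
  have hy := om_im_pos D
  have hNp : (0 : ℝ) < N := Nat.cast_pos.2 (Nat.pos_of_ne_zero (NeZero.ne N))
  have hpi := Real.pi_pos
  obtain ⟨B, hB⟩ := Pe_bdd ha
  have hB0 : 0 ≤ B := (norm_nonneg _).trans (hB 0)
  have hc : 0 < Real.pi * (u / 2) / (N * (UNI.om D.a).im) := by positivity
  have h : ContinuousOn (th2 N a) (Set.Ioi (u / 2)) := by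
    refine continuousOn_tsum (u := fun x : D.O => B * (nn D x *
      Real.exp (-(Real.pi * (u / 2) / (N * (UNI.om D.a).im)) * nn D x))) (fun x => ?_)
      ((lt_gauss1 (D := D) hc).mul_left B) ?_
    · refine ContinuousOn.mul continuousOn_const ?_
      exact Continuous.continuousOn (by fun_prop)
    · intro x v hv
      have hv' : u / 2 < v := hv
      rw [norm_mul, norm_mul, norm_pow, ← nn_real, Complex.norm_real, Real.norm_of_nonneg (Real.exp_pos _).le, mul_assoc]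
      refine mul_le_mul (hB x) (mul_le_mul_of_nonneg_left (Real.exp_le_exp.2 ?_) (Nat.cast_nonneg _)) (by positivity) hB0
      rw [neg_mul, neg_mul, neg_le_neg_iff]
      refine mul_le_mul_of_nonneg_right ?_ (Nat.cast_nonneg _)
      gcongr
  exact (h.continuousAt (Ioi_mem_nhds (by linarith))).continuousWithinAt

end

end RNG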