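import Pool.Agent.RNG.Defs

/-!
# RNG.Wr: the pairing and the torsion points (orders without Bezout)
-/

open RNK

namespace RNG

noncomputable section

variable {D : RNP.OD}

private theorem wr_alp (a : UNI.Par) : UNL.alp (toU a) = UNI.om a := by
  have h : ((toU a).A : ℂ) = 1 := by simp [toU]
  rw [UNL.alp, h, one_mul, tau_toU]

private theorem wr_xx (a : UNI.Par) (d : ℤ × ℤ) : UNL.xx (toU a) d = UNI.xx a d := by
  rw [UNL.xx, UNI.xx, tau_toU]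

/-- `κ (z - z̄)` on `xx m / N` -/
private theorem wr_ps (a : UNI.Par) (m : ℤ × ℤ) (N : ℂ) (hN : (starRingEnd ℂ) N = N) :
    ps (toU a) (UNI.xx a m / N) = Complex.exp (2 * Real.pi * Complex.I * m.2 / N) := by
  unfold ps
  congr 1
  have h1 := UNL.two_A_tau (toU a)
  have h2 := UNL.two_A_ctau (toU a)
  have hA : ((toU a).A : ℂ) = 1 := by simp [toU]
  have hAr : ((toU a).A : ℝ) = 1 := by simp [toU]
  have hs := UNL.sD_pos (toU a)
  have hs' : ((UNL.sD (toU a) : ℝ) : ℂ) ≠ 0 := by exact_mod_cast hs.ne'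
  rw [hA, mul_one] at h1 h2
  have h3 : UNL.tau (toU a) - UNL.cj (UNL.tau (toU a)) =
      (UNL.sD (toU a) : ℂ) * Complex.I := by
    linear_combination (1 / 2 : ℂ) * h1 - (1 / 2 : ℂ) * h2
  rw [← wr_xx]
  simp only [UNL.xx, map_div₀, map_add, map_mul, map_intCast, hN]
  have h4 : ((m.1 : ℂ) + m.2 * UNL.tau (toU a)) / N -
      ((m.1 : ℂ) + m.2 * (starRingEnd ℂ) (UNL.tau (toU a))) / N =
      m.2 * ((UNL.sD (toU a) : ℂ) * Complex.I) / N := by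
    rw [← h3]
    ring
  rw [h4]
  have h5 : ((UNL.kap (toU a) : ℝ) : ℂ) = 2 * Real.pi / (UNL.sD (toU a) : ℂ) := by
    rw [UNL.kap, hAr]
    push_cast
    ring
  rw [h5]
  field_simp

theorem ps_O {z : ℂ} (hz : z ∈ D.O) : ps (toU D.a) z = 1 := by
  obtain ⟨m, rfl⟩ := hz
  have h := wr_ps D.a m 1 (map_one _)
  rw [div_one, div_one] at h
  rw [h]
  have h2 := Complex.exp_int_mul_two_pi_mul_I m.2
  rw [← h2]
  congr 1
  ring

private theorem wr_N {N : ℕ} [NeZero N] : (N : ℂ) ≠ 0 := Nat.cast_ne_zero.2 (NeZero.ne N)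

private theorem wr_tp (a : UNI.Par) {N : ℕ} [NeZero N] (k : UNL.G N) :
    UNL.tp (toU a) k = UNI.xx a ((k.1.val : ℤ), (k.2.val : ℤ)) / N := by
  simp only [UNL.tp, UNI.xx, tau_toU]
  push_cast
  ring

private theorem wr_val {N : ℕ} [NeZero N] (m : ℤ) :
    (((m : ZMod N).val : ℕ) : ℂ) = (m : ℂ) - N * ((m / N : ℤ) : ℂ) := by
  have h := ZMod.val_intCast (n := N) m
  have h2 := Int.mul_ediv_add_emod m N
  have h3 : (((m : ZMod N).val : ℕ) : ℤ) = m - N * (m / N) := by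
    rw [h]
    linarith
  have h4 := congrArg (Int.cast : ℤ → ℂ) h3
  push_cast at h4
  rw [h4]

private theorem wr_cast (a : UNI.Par) {N : ℕ} [NeZero N] (m : ℤ × ℤ) :
    ∃ x : ℤ × ℤ, UNI.xx a m / N =
      UNL.tp (toU a) (((m.1 : ZMod N), (m.2 : ZMod N)) : UNL.G N) + UNI.xx a x := by
  refine ⟨(m.1 / N, m.2 / N), ?_⟩
  have hN : (N : ℂ) ≠ 0 := wr_N
  simp only [UNL.tp, UNI.xx, wr_val, tau_toU]
  field_simp
  ring

theorem tp_sm {N : ℕ} [NeZero N] (d : ℤ × ℤ) (k : UNL.G N) :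
    UNL.de (toU D.a) d * UNL.tp (toU D.a) k - UNL.tp (toU D.a) (UNL.sm (toU D.a) d k) ∈ D.O := by
  obtain ⟨x, hx⟩ := wr_cast D.a (N := N) (mulc D.a d ((k.1.val : ℤ), (k.2.val : ℤ)))
  refine ⟨x, ?_⟩
  rw [xx_mul, mul_div_assoc, ← wr_tp] at hx
  rw [de_toU, hx]
  have e : ((((mulc D.a d ((k.1.val : ℤ), (k.2.val : ℤ))).1 : ZMod N),
      ((mulc D.a d ((k.1.val : ℤ), (k.2.val : ℤ))).2 : ZMod N)) : UNL.G N) =
      UNL.sm (toU D.a) d k := by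
    refine Prod.ext ?_ ?_
    · simp [mulc, UNL.sm, toU]
    · simp [mulc, UNL.sm, toU]
      ring
  rw [e]
  ring

theorem tp_add {N : ℕ} [NeZero N] (k l : UNL.G N) :
    UNL.tp (toU D.a) k + UNL.tp (toU D.a) l - UNL.tp (toU D.a) (k + l) ∈ D.O := by
  obtain ⟨x, hx⟩ := wr_cast D.a (N := N)
    (((k.1.val : ℤ), (k.2.val : ℤ)) + ((l.1.val : ℤ), (l.2.val : ℤ)))
  refine ⟨x, ?_⟩
  rw [xx_add, add_div, ← wr_tp, ← wr_tp] at hx
  rw [hx]
  have e : ((((((k.1.val : ℤ), (k.2.val : ℤ)) + ((l.1.val : ℤ), (l.2.val : ℤ)) : ℤ × ℤ).1 :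
      ZMod N), ((((k.1.val : ℤ), (k.2.val : ℤ)) + ((l.1.val : ℤ), (l.2.val : ℤ)) : ℤ × ℤ).2 :
      ZMod N)) : UNL.G N) = k + l := by
    refine Prod.ext ?_ ?_
    · simp
    · simp
  rw [e]
  ring

theorem tp_N {N : ℕ} [NeZero N] (k : UNL.G N) : (N : ℂ) * UNL.tp (toU D.a) k ∈ D.O := by
  refine ⟨((k.1.val : ℤ), (k.2.val : ℤ)), ?_⟩
  have hN : (N : ℂ) ≠ 0 := wr_N
  rw [wr_tp]
  field_simp

private theorem wr_ps_sub {x y : ℂ} (h : x - y ∈ D.O) : ps (toU D.a) x = ps (toU D.a) y := by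
  have e : x = y + (x - y) := by ring
  rw [e, ps_add, ps_O h, mul_one]

/-- `ps` is `1` on all `x tp k` only for `x ∈ N O` -/
theorem ps_perfect {N : ℕ} [NeZero N] {x : ℂ} (hx : x ∈ D.O)
    (h : ∀ k : UNL.G N, ps (toU D.a) (x * UNL.tp (toU D.a) k) = 1) :
    ∃ y ∈ D.O, x = N * y := by
  have hN : (N : ℂ) ≠ 0 := wr_N
  have h1 : ∀ m : ℤ × ℤ, ps (toU D.a) (x * (UNI.xx D.a m / N)) = 1 := by
    intro m
    obtain ⟨j, hj⟩ := wr_cast D.a (N := N) m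
    rw [hj, mul_add, ps_add, h, one_mul]
    exact ps_O (D.O.mul_mem hx ⟨j, rfl⟩)
  obtain ⟨y, rfl⟩ := hx
  have h2 : ∀ m : ℤ × ℤ, ∃ q : ℤ, (mulc D.a y m).2 = N * q := by
    intro m
    have h3 := h1 m
    rw [← mul_div_assoc, ← xx_mul, wr_ps D.a _ N (map_natCast _ N), Complex.exp_eq_one_iff] at h3
    obtain ⟨q, hq⟩ := h3
    refine ⟨q, ?_⟩
    have h4 : ((mulc D.a y m).2 : ℂ) = N * q := by
      field_simp at hq
      exact hq
    exact_mod_cast h4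
  obtain ⟨q1, hq1⟩ := h2 (1, 0)
  obtain ⟨q2, hq2⟩ := h2 (0, 1)
  simp only [mulc] at hq1 hq2
  refine ⟨UNI.xx D.a (q2 - D.a.t * q1, q1), ⟨_, rfl⟩, ?_⟩
  have e1 : y.2 = N * q1 := by linarith
  have e2 : y.1 = N * (q2 - D.a.t * q1) := by
    have : y.1 + D.a.t * y.2 = N * q2 := by linarith
    rw [e1] at this
    linarith
  simp only [UNI.xx]
  rw [e1, e2]
  push_cast
  ring

/-! ### rationality -/

end

end RNG
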