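import Pool.Agent.RNG.Xv

/-!
# RNG.Xa: Abel summation

`E(s) = Σ_I ξ(I) ni(I)^(-s)`, `s > 1` real, `δ = s - 1`. For `n > 0`: `Γ(δ) n^(-δ) = ∫_0^∞ exp (-τ n) τ^{δ-1} dτ`. So `Γ(δ) E(1 + δ) = ∫_0^∞ heat ξ τ τ^{δ-1} dτ` (absolute
convergence: `Σ ni(I)^{-1-δ} < ∞`, `ni_summable`; Mathlib: `hasSum_mellin` in `NumberTheory/LSeries/MellinEqDirichlet` with `F = heat ξ`). If `heat ξ τ → v` for
`τ → 0+` then `E(1 + δ) → v` for `δ → 0+`: with `τ = u^(1/δ)` one has
`Γ(1 + δ) E(1 + δ) = δ ∫_0^∞ heat ξ τ τ^{δ-1} dτ = ∫_0^∞ heat ξ (u^(1/δ)) du`, and the integrand tends to `v` for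
`u < 1` and to `0` for `u > 1`; it is bounded by `K exp (-u / 2)`.
-/

open RNK Filter Topology

namespace RNG

noncomputable section

/-- the limit of a Mellin transform at `0` -/
private theorem mel {g : ℝ → ℂ} {v : ℂ} {K : ℝ} (hc : ContinuousOn g (Set.Ioi 0))
    (hb : ∀ t, 0 < t → ‖g t‖ ≤ K * Real.exp (-(t / 2))) (hv : Tendsto g (𝓝[>] 0) (𝓝 v)) :
    Tendsto (fun δ : ℝ => (δ : ℂ) * mellin g δ) (𝓝[>] 0) (𝓝 v) := by
  have hK : 0 ≤ K := by
    have h1 := (norm_nonneg (g 1)).trans (hb 1 one_pos)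
    by_contra h2
    push Not at h2
    have h3 := mul_neg_of_neg_of_pos h2 (Real.exp_pos (-((1 : ℝ) / 2)))
    linarith
  have e1 : ∀ δ : ℝ, 0 < δ → (δ : ℂ) * mellin g δ = ∫ u in Set.Ioi (0 : ℝ), g (u ^ δ⁻¹) := by
    intro δ hδ
    have h1 := mellin_comp_rpow g 1 δ⁻¹
    have h2 : (1 : ℂ) / ((δ⁻¹ : ℝ) : ℂ) = (δ : ℂ) := by
      push_cast
      rw [one_div, inv_inv]
    rw [h2, abs_of_pos (inv_pos.2 hδ), inv_inv] at h1
    have h3 : mellin (fun t => g (t ^ δ⁻¹)) 1 = ∫ u in Set.Ioi (0 : ℝ), g (u ^ δ⁻¹) := by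
      rw [mellin]
      refine MeasureTheory.setIntegral_congr_fun measurableSet_Ioi fun t _ => ?_
      simp
    rw [← h3, h1, Complex.real_smul]
  have h2 : Tendsto (fun δ : ℝ => ∫ u in Set.Ioi (0 : ℝ), g (u ^ δ⁻¹)) (𝓝[>] 0)
      (𝓝 (∫ u in Set.Ioi (0 : ℝ), (Set.Iio (1 : ℝ)).indicator (fun _ => v) u)) := by
    refine MeasureTheory.tendsto_integral_filter_of_dominated_convergence
      (fun u => K * Real.exp (1 / 2) * Real.exp (-(1 / 2) * u)) ?_ ?_ ?_ ?_
    · filter_upwards [self_mem_nhdsWithin] with δ hδ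
      refine ContinuousOn.aestronglyMeasurable ?_ measurableSet_Ioi
      refine hc.comp ?_ fun u hu => Real.rpow_pos_of_pos hu _
      exact fun u hu => (Real.continuousAt_rpow_const u _ (Or.inl (ne_of_gt hu))).continuousWithinAt
    · have h3 : Set.Ioc (0 : ℝ) 1 ∈ 𝓝[>] (0 : ℝ) := Ioc_mem_nhdsGT one_pos
      filter_upwards [h3] with δ hδ
      refine (MeasureTheory.ae_restrict_iff' measurableSet_Ioi).2
        (Eventually.of_forall fun u hu => ?_)
      have hu0 : (0 : ℝ) < u := hu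
      refine (hb _ (Real.rpow_pos_of_pos hu0 _)).trans ?_
      rw [mul_assoc, ← Real.exp_add]
      refine mul_le_mul_of_nonneg_left (Real.exp_le_exp.2 ?_) hK
      by_cases h4 : u ≤ 1
      · have h5 := Real.rpow_pos_of_pos hu0 δ⁻¹
        linarith
      · have h5 : u ≤ u ^ δ⁻¹ := by
          have h6 : (1 : ℝ) ≤ δ⁻¹ := (one_le_inv₀ hδ.1).2 hδ.2
          calc u = u ^ (1 : ℝ) := (Real.rpow_one u).symm
            _ ≤ u ^ δ⁻¹ := Real.rpow_le_rpow_of_exponent_le (by linarith) h6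
        linarith
    · exact (exp_neg_integrableOn_Ioi 0 (by norm_num)).const_mul _
    · have h5 : ∀ᵐ u : ℝ, u ≠ 1 := by
        rw [MeasureTheory.ae_iff]
        simp
      refine (MeasureTheory.ae_restrict_iff' measurableSet_Ioi).2 ?_
      filter_upwards [h5] with u hu1 hu
      have hu0 : (0 : ℝ) < u := hu
      rcases lt_or_gt_of_ne hu1 with h6 | h6
      · rw [Set.indicator_of_mem (show u ∈ Set.Iio (1 : ℝ) from h6)]
        refine hv.comp (tendsto_nhdsWithin_iff.2 ⟨?_, ?_⟩)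
        · exact (tendsto_rpow_atTop_of_base_lt_one u (by linarith) h6).comp tendsto_inv_nhdsGT_zero
        · filter_upwards with δ using Real.rpow_pos_of_pos hu0 _
      · rw [Set.indicator_of_notMem (show u ∉ Set.Iio (1 : ℝ) from fun h => by
          have h7 : u < 1 := h
          linarith)]
        rw [tendsto_zero_iff_norm_tendsto_zero]
        have h7 : Tendsto (fun δ : ℝ => u ^ δ⁻¹) (𝓝[>] 0) atTop :=
          (tendsto_rpow_atTop_of_base_gt_one u h6).comp tendsto_inv_nhdsGT_zero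
        have h8 : Tendsto (fun δ : ℝ => K * Real.exp (-((u ^ δ⁻¹) / 2))) (𝓝[>] 0) (𝓝 0) := by
          have h9 := (Real.tendsto_exp_neg_atTop_nhds_zero.comp
            (h7.atTop_div_const two_pos)).const_mul K
          rw [mul_zero] at h9
          exact h9
        refine squeeze_zero' (Eventually.of_forall fun _ => norm_nonneg _) ?_ h8
        filter_upwards with δ using hb _ (Real.rpow_pos_of_pos hu0 _)
  have h3 : ∫ u in Set.Ioi (0 : ℝ), (Set.Iio (1 : ℝ)).indicator (fun _ => v) u = v := by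
    rw [MeasureTheory.setIntegral_indicator measurableSet_Iio, MeasureTheory.setIntegral_const,
      Set.Ioi_inter_Iio, MeasureTheory.measureReal_def, Real.volume_Ioo]
    simp
  rw [h3] at h2
  refine h2.congr' ?_
  filter_upwards [self_mem_nhdsWithin] with δ hδ
  exact (e1 δ hδ).symm

variable {D : RNP.OD} [IsDedekindDomain D.O] {F : Ideal D.O}

private theorem cnt (D : RNP.OD) [IsDedekindDomain D.O] : Countable (Ideal D.O) := by
  have h1 := (ni_summable (D := D) (s := 2) one_lt_two).countable_support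
  have h2 : (Set.univ : Set (Ideal D.O)).Countable := by
    refine (h1.union (Set.countable_singleton ⊥)).mono fun I _ => ?_
    by_cases h : I = ⊥
    · exact Or.inr h
    · left
      rw [Function.mem_support]
      have h3 : (0 : ℝ) < ((ni I : ℕ) : ℝ) := by exact_mod_cast Nat.pos_of_ne_zero (ni_ne.2 h)
      exact (Real.rpow_pos_of_pos h3 _).ne'
  exact Set.countable_univ_iff.1 h2

/-- the bound of a term -/
private theorem trm (hF : F ≠ ⊥) (ξ : Xc D F) (I : Ideal D.O) {τ ε : ℝ} (hε : 0 < ε) (hτ : ε ≤ τ) :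
    ‖ξ.f I * ((Real.exp (-τ * ni I) / ni I : ℝ) : ℂ)‖ ≤
      2 / ε * ((ni I : ℕ) : ℝ) ^ (-(2 : ℝ)) * Real.exp (-(τ / 2)) := by
  by_cases h0 : ξ.f I = 0
  · rw [h0, zero_mul, norm_zero]
    positivity
  · rw [norm_mul, xc_norm hF ξ h0, one_mul, Complex.norm_real, Real.norm_eq_abs,
      abs_of_nonneg (by positivity)]
    have hI : I ≠ ⊥ := ((ξ.ne I).1 h0).1
    have h1 : (1 : ℝ) ≤ ((ni I : ℕ) : ℝ) := by exact_mod_cast Nat.one_le_iff_ne_zero.2 (ni_ne.2 hI)
    set n : ℝ := ((ni I : ℕ) : ℝ) with hn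
    have hn0 : 0 < n := by linarith
    have h2 : Real.exp (-τ * n) ≤ Real.exp (-(ε * n / 2)) * Real.exp (-(τ / 2)) := by
      rw [← Real.exp_add]
      refine Real.exp_le_exp.2 ?_
      nlinarith
    have h3 : Real.exp (-(ε * n / 2)) ≤ 2 / (ε * n) := by
      have h4 : 0 < ε * n / 2 := by positivity
      have h5 : ε * n / 2 ≤ Real.exp (ε * n / 2) := by
        have := Real.add_one_le_exp (ε * n / 2)
        linarith
      rw [Real.exp_neg]
      calc (Real.exp (ε * n / 2))⁻¹ ≤ (ε * n / 2)⁻¹ := inv_anti₀ h4 h5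
        _ = 2 / (ε * n) := by rw [inv_div]
    have h4 : n ^ (-(2 : ℝ)) = 1 / n * (1 / n) := by
      rw [Real.rpow_neg hn0.le]
      norm_num
      ring
    calc Real.exp (-τ * n) / n ≤ (2 / (ε * n) * Real.exp (-(τ / 2))) / n := by
          refine div_le_div_of_nonneg_right ?_ hn0.le
          exact h2.trans (mul_le_mul_of_nonneg_right h3 (Real.exp_pos _).le)
      _ = 2 / ε * n ^ (-(2 : ℝ)) * Real.exp (-(τ / 2)) := by
          rw [h4]
          field_simp

private theorem smb (D : RNP.OD) [IsDedekindDomain D.O] (ε : ℝ) :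
    Summable (fun I : Ideal D.O => 2 / ε * ((ni I : ℕ) : ℝ) ^ (-(2 : ℝ))) :=
  (ni_summable (D := D) (s := 2) one_lt_two).mul_left _

private theorem hsm (hF : F ≠ ⊥) (ξ : Xc D F) {τ : ℝ} (hτ : 0 < τ) :
    Summable (fun I : Ideal D.O => ξ.f I * ((Real.exp (-τ * ni I) / ni I : ℝ) : ℂ)) :=
  Summable.of_norm_bounded ((smb D τ).mul_right (Real.exp (-(τ / 2))))
    fun I => trm hF ξ I hτ le_rfl

private theorem hct (hF : F ≠ ⊥) (ξ : Xc D F) : ContinuousOn (heat ξ) (Set.Ioi 0) := by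
  intro τ hτ
  have hτ0 : (0 : ℝ) < τ := hτ
  have h1 : ContinuousOn (heat ξ) (Set.Ici (τ / 2)) := by
    unfold heat
    refine continuousOn_tsum (u := fun I => 2 / (τ / 2) * ((ni I : ℕ) : ℝ) ^ (-(2 : ℝ)))
      (fun I => ?_) (smb D (τ / 2)) fun I t ht => ?_
    · refine (continuous_const.mul (Complex.continuous_ofReal.comp ?_)).continuousOn
      exact (Real.continuous_exp.comp (continuous_neg.mul continuous_const)).div_const _
    · have ht0 : τ / 2 ≤ t := ht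
      refine (trm hF ξ I (half_pos hτ0) ht0).trans ?_
      refine mul_le_of_le_one_right (by positivity) ?_
      rw [Real.exp_le_one_iff]
      linarith
  exact (h1.continuousAt (Ici_mem_nhds (by linarith))).continuousWithinAt

private theorem hbd (hF : F ≠ ⊥) (ξ : Xc D F) {v : ℂ} (h : Tendsto (heat ξ) (𝓝[>] 0) (𝓝 v)) :
    ∃ K : ℝ, ∀ t, 0 < t → ‖heat ξ t‖ ≤ K * Real.exp (-(t / 2)) := by
  have h1 : ∀ᶠ t in 𝓝[>] (0 : ℝ), ‖heat ξ t‖ < ‖v‖ + 1 :=
    h.norm.eventually (gt_mem_nhds (lt_add_one _))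
  obtain ⟨ε, hε, h2⟩ := mem_nhdsGT_iff_exists_Ioo_subset.1 h1
  have hε0 : (0 : ℝ) < ε := hε
  set ε' := min ε 1 with hε'
  have he0 : 0 < ε' := lt_min hε0 one_pos
  set S : ℝ := ∑' I : Ideal D.O, 2 / ε' * ((ni I : ℕ) : ℝ) ^ (-(2 : ℝ)) with hS
  have hS0 : 0 ≤ S := tsum_nonneg fun I => by positivity
  refine ⟨S + (‖v‖ + 1) * Real.exp (1 / 2), fun t ht => ?_⟩
  by_cases h3 : ε' ≤ t
  · have h4 : ‖heat ξ t‖ ≤ S * Real.exp (-(t / 2)) := by
      rw [hS, ← tsum_mul_right]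
      exact tsum_of_norm_bounded ((smb D ε').mul_right _).hasSum
        fun I => trm hF ξ I he0 h3
    refine h4.trans (mul_le_mul_of_nonneg_right ?_ (Real.exp_pos _).le)
    have : 0 ≤ (‖v‖ + 1) * Real.exp (1 / 2) := by positivity
    linarith
  · push Not at h3
    have h4 : t < ε := lt_of_lt_of_le h3 (min_le_left _ _)
    have h5 : t < 1 := lt_of_lt_of_le h3 (min_le_right _ _)
    have h6 : ‖heat ξ t‖ < ‖v‖ + 1 := h2 ⟨ht, h4⟩
    have h7 : 1 ≤ Real.exp (1 / 2) * Real.exp (-(t / 2)) := by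
      rw [← Real.exp_add]
      refine Real.one_le_exp ?_
      linarith
    calc ‖heat ξ t‖ ≤ (‖v‖ + 1) * 1 := by rw [mul_one]; exact h6.le
      _ ≤ (‖v‖ + 1) * (Real.exp (1 / 2) * Real.exp (-(t / 2))) :=
          mul_le_mul_of_nonneg_left h7 (by positivity)
      _ = (‖v‖ + 1) * Real.exp (1 / 2) * Real.exp (-(t / 2)) := by ring
      _ ≤ _ := by
          refine mul_le_mul_of_nonneg_right ?_ (Real.exp_pos _).le
          linarith

/-- the Mellin transform of `heat` -/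
private theorem hml (hF : F ≠ ⊥) (ξ : Xc D F) {δ : ℝ} (hδ : 0 < δ) :
    mellin (heat ξ) δ = Complex.Gamma δ *
      ∑' I : Ideal D.O, ξ.f I * ((((ni I : ℕ) : ℝ) ^ (-(1 + δ)) : ℝ) : ℂ) := by
  have := cnt D
  have h := hasSum_mellin (a := fun I : Ideal D.O => ξ.f I / ((ni I : ℕ) : ℂ))
    (p := fun I => ((ni I : ℕ) : ℝ)) (F := heat ξ) (s := (δ : ℂ)) (fun I => ?_) ?_ (fun t ht => ?_) ?_
  · rw [← h.tsum_eq, ← tsum_mul_left]
    refine tsum_congr fun I => ?_
    by_cases h0 : ξ.f I = 0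
    · simp [h0]
    · have hI : I ≠ ⊥ := ((ξ.ne I).1 h0).1
      have h1 : (0 : ℝ) < ((ni I : ℕ) : ℝ) := by exact_mod_cast Nat.pos_of_ne_zero (ni_ne.2 hI)
      have h2 : (((((ni I : ℕ) : ℝ) ^ (-(1 + δ)) : ℝ)) : ℂ) =
          (((ni I : ℕ) : ℂ))⁻¹ * ((((ni I : ℕ) : ℝ) : ℂ) ^ (δ : ℂ))⁻¹ := by
        rw [neg_add, Real.rpow_add h1, Real.rpow_neg_one, Real.rpow_neg h1.le]
        push_cast [Complex.ofReal_cpow h1.le]
        rfl
      rw [h2]
      ring
  · by_cases h0 : ξ.f I = 0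
    · left
      rw [h0, zero_div]
    · right
      have hI : I ≠ ⊥ := ((ξ.ne I).1 h0).1
      exact_mod_cast Nat.pos_of_ne_zero (ni_ne.2 hI)
  · rw [Complex.ofReal_re]
    exact hδ
  · have h1 := (hsm hF ξ ht).hasSum
    have h2 : (fun I : Ideal D.O => ξ.f I / ((ni I : ℕ) : ℂ) *
        ((Real.exp (-((ni I : ℕ) : ℝ) * t) : ℝ) : ℂ)) =
        fun I : Ideal D.O => ξ.f I * ((Real.exp (-t * ni I) / ni I : ℝ) : ℂ) := by
      funext I
      have h3 : -((ni I : ℕ) : ℝ) * t = -t * ni I := by ring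
      rw [h3]
      push_cast
      ring
    rw [h2]
    exact h1
  · refine Summable.of_nonneg_of_le (fun I => by positivity) (fun I => ?_)
      (ni_summable (D := D) (s := 1 + δ) (by linarith))
    by_cases h0 : ξ.f I = 0
    · rw [h0, zero_div, norm_zero, zero_div]
      positivity
    · have hI : I ≠ ⊥ := ((ξ.ne I).1 h0).1
      have h1 : (0 : ℝ) < ((ni I : ℕ) : ℝ) := by exact_mod_cast Nat.pos_of_ne_zero (ni_ne.2 hI)
      rw [norm_div, xc_norm hF ξ h0, Complex.norm_natCast, Complex.ofReal_re, neg_add,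
        Real.rpow_add h1, Real.rpow_neg_one, Real.rpow_neg h1.le, one_div, div_eq_mul_inv]

theorem abel (hF : F ≠ ⊥) (ξ : Xc D F) {v : ℂ} (h : Tendsto (heat ξ) (𝓝[>] 0) (𝓝 v)) :
    Tendsto (fun s : ℝ => ∑' I : Ideal D.O, ξ.f I * ((((ni I : ℕ) : ℝ) ^ (-s) : ℝ) : ℂ))
      (𝓝[>] 1) (𝓝 v) := by
  obtain ⟨K, hK⟩ := hbd hF ξ h
  have h1 := mel (hct hF ξ) hK h
  have h2 : Tendsto (fun δ : ℝ => Complex.Gamma (1 + (δ : ℂ))) (𝓝[>] 0) (𝓝 1) := by
    have h3 : ContinuousAt (fun δ : ℝ => Complex.Gamma (1 + (δ : ℂ))) 0 := by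
      have h4 : ContinuousAt Complex.Gamma (1 + ((0 : ℝ) : ℂ)) := by
        refine (Complex.differentiableAt_Gamma _ fun m => ?_).continuousAt
        intro h5
        have h6 := congrArg Complex.re h5
        simp at h6
        have h7 : (0 : ℝ) ≤ m := Nat.cast_nonneg m
        linarith
      exact ContinuousAt.comp (f := fun δ : ℝ => (1 + (δ : ℂ))) h4
        (continuous_const.add Complex.continuous_ofReal).continuousAt
    have h4 := h3.tendsto.mono_left (nhdsWithin_le_nhds (s := Set.Ioi (0 : ℝ)))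
    simpa [Complex.Gamma_one] using h4
  have h3 : Tendsto (fun δ : ℝ =>
      ∑' I : Ideal D.O, ξ.f I * ((((ni I : ℕ) : ℝ) ^ (-(1 + δ)) : ℝ) : ℂ)) (𝓝[>] 0) (𝓝 v) := by
    have h4 := h1.div h2 one_ne_zero
    rw [div_one] at h4
    refine h4.congr' ?_
    filter_upwards [self_mem_nhdsWithin] with δ hδ
    have hδ0 : (0 : ℝ) < δ := hδ
    have hδ1 : (δ : ℂ) ≠ 0 := by exact_mod_cast hδ0.ne'
    have h5 : Complex.Gamma (1 + (δ : ℂ)) = δ * Complex.Gamma δ := by
      rw [add_comm, Complex.Gamma_add_one _ hδ1]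
    have h6 : Complex.Gamma (δ : ℂ) ≠ 0 := Complex.Gamma_ne_zero_of_re_pos (by simpa using hδ0)
    rw [Pi.div_apply, hml hF ξ hδ0, h5, ← mul_assoc]
    exact mul_div_cancel_left₀ _ (mul_ne_zero hδ1 h6)
  have h4 : Tendsto (fun s : ℝ => s - 1) (𝓝[>] 1) (𝓝[>] 0) := by
    refine tendsto_nhdsWithin_iff.2 ⟨?_, ?_⟩
    · have h5 : Tendsto (fun s : ℝ => s - 1) (𝓝 1) (𝓝 (1 - 1)) :=
        (continuous_id.sub continuous_const).tendsto 1
      rw [sub_self] at h5
      exact h5.mono_left nhdsWithin_le_nhds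
    · filter_upwards [self_mem_nhdsWithin] with s hs
      have h5 : (1 : ℝ) < s := hs
      exact sub_pos.2 h5
  refine (h3.comp h4).congr fun s => ?_
  simp only [Function.comp_apply]
  rw [add_sub_cancel]

end

end RNG
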