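import Pool.Agent.RNG.Xv

/-!
# RNG.Xb: a basis of the functions of type `χ`

`h : Ext χ ξ`, `F` the conductor. `𝒟` = the set of the ideals `G` with `N ∈ G F` (finite: `G ⊇ (N)`). For `y ∈ O` let `γ(y) = (y) + (N)`.
* `vv_tc`: for `x` prime to `N`: `vv ξ G (x y) = χ(x) vv ξ G y`: for `y ≠ 0`, `y ∈ G`, `G B = (y)`: `G (x) B = (x y)` (`x ≠ 0` unless `N = 1`; the case
  `x = 0`, `N = 1`: then `F = ⊤`, `G = ⊤`, both sides are `1`); `y ∉ G`: `x y ∉ G`; `y = 0`: replace `0` by a nonzero multiple of `N`.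
* `basis`: by induction on `n`: there is a `b` (zero off `𝒟`) such that `g - Σ_{G ∈ 𝒟, ni G ≤ n} b(G) ni(G) vv ξ G` vanishes at all `y` with `ni (γ(y)) ≤ n`.
  For `n ≥ ni (N)` this is everything. Step: let `h` be the difference for `n` (of type `χ`). Let `G ⊇ (N)` be an ideal with `ni G = n + 1`, such that
  `h(y₀) ≠ 0` for some `y₀` with `γ(y₀) = G` (`y₀ ≠ 0`: add a multiple of `N`). Let `G H = (N)`. For `u` prime to `N`, `u ≡ 1` mod `H`: `u y₀ ≡ y₀` mod `N`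
  (`y₀ ∈ G`), so `χ(u) h(y₀) = h(y₀)`, `χ(u) = 1`. So `Fac χ H`, `H ≤ F`, `(N) = G H ⊆ G F`, `G ∈ 𝒟`. `(y₀) = G B`, `G (B + H) = (y₀) + (N) = G`, so
  `B + H = ⊤`, `B` is prime to `F ⊇ H`, `ξ(B) ≠ 0`, `vv ξ G y₀ = ξ(B) ≠ 0`. Subtract the multiple of `vv ξ G` which has the value `h(y₀)` at `y₀`. The difference
  vanishes at all `y` with `γ(y) = G` (`same_gcd`: `y ≡ u y₀` mod `N`, `u` prime to `N`; type `χ`). If `γ(y) ≠ G`, `ni (γ(y)) ≤ n + 1`, then `vv ξ G y = 0`: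
  otherwise `y ∈ G`, `γ(y) ⊆ G`, so `γ(y) = G J` with `ni J ≤ 1`, `J = ⊤`.
-/

open RNK

namespace RNG

noncomputable section

variable {D : RNP.OD} [IsDedekindDomain D.O] {N : ℕ} [NeZero N]

omit [IsDedekindDomain D.O] in
private theorem xb_N0 : ((N : ℕ) : D.O) ≠ 0 := by
  intro h
  have h1 : ((N : ℕ) : ℂ) = 0 := by
    have h2 := congrArg (Subtype.val) h
    simpa using h2
  exact NeZero.ne N (by exact_mod_cast h1)

/-- `γ(y) = (y) + (N)` -/
private def xbg (N : ℕ) (y : D.O) : Ideal D.O := Ideal.span {y} ⊔ Ideal.span {((N : ℕ) : D.O)}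

omit [IsDedekindDomain D.O] [NeZero N] in
private theorem xb_N_mem (y : D.O) : ((N : ℕ) : D.O) ∈ xbg N y :=
  Ideal.mem_sup_right (Ideal.subset_span rfl)

omit [IsDedekindDomain D.O] [NeZero N] in
private theorem xb_y_mem (y : D.O) : y ∈ xbg N y :=
  Ideal.mem_sup_left (Ideal.subset_span rfl)

omit [IsDedekindDomain D.O] in
private theorem xb_ne (y : D.O) : xbg N y ≠ ⊥ := by
  intro h
  have h1 := xb_N_mem (N := N) y
  rw [h, Ideal.mem_bot] at h1
  exact xb_N0 (D := D) (N := N) h1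

omit [IsDedekindDomain D.O] [NeZero N] in
private theorem xb_le {y : D.O} {G : Ideal D.O} (h1 : y ∈ G) (h2 : ((N : ℕ) : D.O) ∈ G) :
    xbg N y ≤ G := by
  refine sup_le ?_ ?_
  · rw [Ideal.span_singleton_le_iff_mem]
    exact h1
  · rw [Ideal.span_singleton_le_iff_mem]
    exact h2

private theorem xb_dvd {I J : Ideal D.O} (h : I ≤ J) : ∃ K, J * K = I := by
  have h1 : J ∣ I := Ideal.dvd_iff_le.2 h
  obtain ⟨K, hK⟩ := h1
  exact ⟨K, hK.symm⟩

private theorem xb_ni_le {I J : Ideal D.O} (h : I ≤ J) (hI : I ≠ ⊥) : ni J ≤ ni I := by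
  obtain ⟨K, hK⟩ := xb_dvd h
  rw [← hK, ni_mul]
  have hK0 : K ≠ ⊥ := by
    intro h0
    rw [h0, Ideal.mul_bot] at hK
    exact hI hK.symm
  exact Nat.le_mul_of_pos_right _ (Nat.pos_of_ne_zero (ni_ne.2 hK0))

private theorem xb_ni_eq {I J : Ideal D.O} (h : I ≤ J) (hI : I ≠ ⊥) (he : ni I = ni J) :
    I = J := by
  obtain ⟨K, hK⟩ := xb_dvd h
  have hJ0 : J ≠ ⊥ := by
    intro h0
    rw [h0] at h
    exact hI (le_bot_iff.1 h)
  have h1 : ni J * ni K = ni J := by rw [← ni_mul, hK, he]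
  have h2 : ni K = 1 := Nat.eq_of_mul_eq_mul_left (Nat.pos_of_ne_zero (ni_ne.2 hJ0)) (by rw [h1, mul_one])
  rw [ni_top.1 h2, Ideal.mul_top] at hK
  exact hK.symm

theorem vv_tc {χ : Chr D N} {F : Ideal D.O} (hF : F ≠ ⊥) {ξ : Xc D F} (h : Ext χ ξ)
    {G : Ideal D.O} (hG : (N : D.O) ∈ G * F) : Tc χ (vv ξ G) := by
  have hN0 : ((N : ℕ) : D.O) ≠ 0 := xb_N0
  have hG0 : G ≠ ⊥ := by
    intro h0
    rw [h0, Ideal.bot_mul, Ideal.mem_bot] at hG
    exact hN0 hG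
  have hNG : ((N : ℕ) : D.O) ∈ G := Ideal.mul_le_left hG
  refine ⟨vv_Pe ξ hG, ?_⟩
  intro x hx y
  by_cases hy : y ∈ G
  · obtain ⟨x', hx'0, s, hx's, hx'c⟩ : ∃ x' : D.O, x' ≠ 0 ∧ ∃ s : D.O, x' = x + N * s ∧ Cp N x' := by
      by_cases h0 : x = 0
      · refine ⟨N, hN0, 1, by rw [h0]; ring, ?_⟩
        have h1 : Cp N (x + (N : D.O) * 1) := IsCoprime.add_mul_left_left hx 1
        rw [h0, zero_add, mul_one] at h1
        exact h1
      · exact ⟨x, h0, 0, by ring, hx⟩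
    obtain ⟨y', hy'0, t, hy't, hy'G⟩ : ∃ y' : D.O, y' ≠ 0 ∧ ∃ t : D.O, y' = y + N * t ∧ y' ∈ G := by
      by_cases h0 : y = 0
      · exact ⟨N, hN0, 1, by rw [h0]; ring, hNG⟩
      · exact ⟨y, h0, 0, by ring, hy⟩
    obtain ⟨B, hB⟩ := ex_quo hy'G
    have e1 : vv ξ G (x * y) = vv ξ G (x' * y') := by
      refine (vv_per ξ ?_).symm
      have h2 : x' * y' - x * y = N * (x * t + s * y + N * s * t) := by
        rw [hx's, hy't]; ring
      rw [h2]
      exact Ideal.mul_mem_right _ _ hG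
    have e2 : vv ξ G y = vv ξ G y' := by
      refine (vv_per ξ ?_).symm
      have h2 : y' - y = N * t := by rw [hy't]; ring
      rw [h2]
      exact Ideal.mul_mem_right _ _ hG
    have e3 : χ.f x = χ.f x' := by rw [hx's, χ.per]
    have e4 : vv ξ G y' = ξ.f B := vv_val hF ξ hG0 hy'0 hB
    have e5 : vv ξ G (x' * y') = ξ.f (Ideal.span {x'} * B) := by
      refine vv_val hF ξ hG0 (mul_ne_zero hx'0 hy'0) ?_
      rw [← mul_assoc, mul_comm G, mul_assoc, hB, Ideal.span_singleton_mul_span_singleton]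
    rw [e1, e2, e3, e4, e5, ξ.mul, h.ext x' hx'0 hx'c]
  · have hxy : x * y ∉ G := by
      intro h1
      obtain ⟨a, b, hab⟩ := hx
      have h2 : y = a * (x * y) + (b * y) * N := by
        calc y = (a * x + b * N) * y := by rw [hab, one_mul]
          _ = _ := by ring
      apply hy
      rw [h2]
      exact G.add_mem (Ideal.mul_mem_left _ _ h1) (Ideal.mul_mem_left _ _ hNG)
    rw [vv_out ξ hy, vv_out ξ hxy, mul_zero]

private theorem xb_key1 {χ : Chr D N} {F : Ideal D.O} (hF : F ≠ ⊥) {ξ : Xc D F} (h : Ext χ ξ)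
    {g : D.O → ℂ} (hg : Tc χ g) {y : D.O} (hy0 : y ≠ 0) (hy : g y ≠ 0) :
    ((N : ℕ) : D.O) ∈ xbg N y * F ∧ vv ξ (xbg N y) y ≠ 0 := by
  have hG0 : xbg N y ≠ ⊥ := xb_ne y
  obtain ⟨H, hH⟩ := ex_quo (xb_N_mem (N := N) y)
  have hfac : Fac χ H := by
    refine ⟨?_, ?_⟩
    · rw [← hH]
      exact (Ideal.mul_le_right : xbg N y * H ≤ H)
    · intro u hu hu1
      have h1 : y * (u - 1) ∈ xbg N y * H := Ideal.mul_mem_mul (xb_y_mem y) hu1
      rw [hH, Ideal.mem_span_singleton] at h1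
      obtain ⟨z, hz⟩ := h1
      have h2 : u * y = y + N * z := by
        rw [← hz]; ring
      have h3 := hg.eqv u hu y
      rw [h2, hg.per] at h3
      exact mul_right_cancel₀ hy (by rw [← h3, one_mul])
  have hHF : H ≤ F := h.min H hfac
  have hN : ((N : ℕ) : D.O) ∈ xbg N y * F := by
    have h1 : ((N : ℕ) : D.O) ∈ xbg N y * H := by
      rw [hH]
      exact Ideal.subset_span rfl
    exact Ideal.mul_mono_right hHF h1
  refine ⟨hN, ?_⟩
  obtain ⟨B, hB⟩ := ex_quo (xb_y_mem (N := N) y)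
  rw [vv_val hF ξ hG0 hy0 hB, ξ.ne]
  constructor
  · intro h0
    rw [h0, Ideal.mul_bot] at hB
    have h1 : y ∈ (⊥ : Ideal D.O) := by
      rw [hB]
      exact Ideal.subset_span rfl
    exact hy0 h1
  · have h1 : xbg N y * (B ⊔ H) = xbg N y * ⊤ := by
      rw [Ideal.mul_sup, hB, hH, Ideal.mul_top]
      rfl
    have h2 : B ⊔ H = ⊤ := mul_left_cancel₀ hG0 h1
    rw [Ideal.isCoprime_iff_sup_eq]
    exact top_le_iff.1 (h2 ▸ sup_le_sup_left hHF B)

private theorem xb_key {χ : Chr D N} {F : Ideal D.O} (hF : F ≠ ⊥) {ξ : Xc D F} (h : Ext χ ξ)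
    {g : D.O → ℂ} (hg : Tc χ g) {y : D.O} (hy : g y ≠ 0) :
    ((N : ℕ) : D.O) ∈ xbg N y * F ∧ vv ξ (xbg N y) y ≠ 0 := by
  by_cases hy0 : y = 0
  · have h1 : g ((N : ℕ) : D.O) ≠ 0 := by
      have h2 := hg.per 0 1
      rw [zero_add, mul_one] at h2
      rw [h2, ← hy0]
      exact hy
    have h2 := xb_key1 hF h hg (xb_N0 (D := D) (N := N)) h1
    have h3 : xbg N ((N : ℕ) : D.O) = xbg N y := by
      rw [hy0, xbg, xbg]
      rw [sup_idem, Ideal.span_singleton_eq_bot.2 rfl, bot_sup_eq]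
    rw [h3] at h2
    refine ⟨h2.1, ?_⟩
    have h4 : vv ξ (xbg N y) ((N : ℕ) : D.O) = vv ξ (xbg N y) y := by
      refine vv_per ξ ?_
      rw [hy0, sub_zero, ← hy0]
      exact h2.1
    rw [← h4]
    exact h2.2
  · exact xb_key1 hF h hg hy0 hy

omit [IsDedekindDomain D.O] [NeZero N] in
private theorem xb_tc_sub {χ : Chr D N} {g k : D.O → ℂ} (hg : Tc χ g) (hk : Tc χ k) :
    Tc χ (fun y => g y - k y) := by
  refine ⟨?_, ?_⟩
  · intro x y
    change g (x + N * y) - k (x + N * y) = g x - k x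
    rw [hg.per, hk.per]
  · intro x hx y
    rw [hg.eqv x hx, hk.eqv x hx]
    ring

private theorem xb_tc_sum {χ : Chr D N} {F : Ideal D.O} (hF : F ≠ ⊥) {ξ : Xc D F} (h : Ext χ ξ)
    (s : Finset (Ideal D.O)) (hs : ∀ G ∈ s, (N : D.O) ∈ G * F) (b : Ideal D.O → ℂ) :
    Tc χ (fun y => ∑ G ∈ s, b G * (((ni G : ℕ) : ℂ) * vv ξ G y)) := by
  refine ⟨?_, ?_⟩
  · intro x y
    refine Finset.sum_congr rfl fun G hG => ?_
    rw [(vv_tc hF h (hs G hG)).per]
  · intro x hx y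
    rw [Finset.mul_sum]
    refine Finset.sum_congr rfl fun G hG => ?_
    rw [(vv_tc hF h (hs G hG)).eqv x hx]
    ring

private theorem xb_step {χ : Chr D N} {F : Ideal D.O} (hF : F ≠ ⊥) {ξ : Xc D F} (h : Ext χ ξ)
    (s : Finset (Ideal D.O)) (hs : ∀ G, G ∈ s ↔ (N : D.O) ∈ G * F) {g : D.O → ℂ} (hg : Tc χ g)
    (n : ℕ) (hn : ∀ y, ni (xbg N y) ≤ n → g y = 0) :
    ∃ c : Ideal D.O → ℂ, ∀ y, ni (xbg N y) ≤ n + 1 →
      g y = ∑ G ∈ s, c G * (((ni G : ℕ) : ℂ) * vv ξ G y) := by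
  classical
  let P : Ideal D.O → Prop := fun G => ni G = n + 1 ∧ ∃ y, xbg N y = G ∧ g y ≠ 0
  let c : Ideal D.O → ℂ := fun G =>
    if hP : P G then g (Classical.choose hP.2) / (((ni G : ℕ) : ℂ) * vv ξ G (Classical.choose hP.2))
    else 0
  have hc0 : ∀ G, ¬ P G → c G = 0 := fun G hP => dif_neg hP
  have hc1 : ∀ G, P G → ∃ y, xbg N y = G ∧ g y ≠ 0 ∧
      c G = g y / (((ni G : ℕ) : ℂ) * vv ξ G y) := by
    intro G hP
    exact ⟨Classical.choose hP.2, (Classical.choose_spec hP.2).1, (Classical.choose_spec hP.2).2,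
      dif_pos hP⟩
  refine ⟨c, ?_⟩
  intro y hy
  have hz : ∀ G ∈ s, G ≠ xbg N y → c G * (((ni G : ℕ) : ℂ) * vv ξ G y) = 0 := by
    intro G hG hne
    by_cases hP : P G
    · by_cases hyG : y ∈ G
      · exfalso
        have hNG : ((N : ℕ) : D.O) ∈ G := Ideal.mul_le_left ((hs G).1 hG)
        have hle : xbg N y ≤ G := xb_le hyG hNG
        have h1 := xb_ni_le hle (xb_ne y)
        have h2 : ni (xbg N y) = ni G := by
          have h3 := hP.1
          omega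
        exact hne (xb_ni_eq hle (xb_ne y) h2).symm
      · rw [vv_out ξ hyG, mul_zero, mul_zero]
    · rw [hc0 G hP, zero_mul]
  by_cases hmem : xbg N y ∈ s
  · rw [Finset.sum_eq_single_of_mem (xbg N y) hmem hz]
    by_cases hP : P (xbg N y)
    · obtain ⟨y₀, h1, h2, h3⟩ := hc1 _ hP
      have hk := xb_key hF h hg h2
      rw [h1] at hk
      obtain ⟨u, hu, z, hz'⟩ := same_gcd (Nat.pos_of_ne_zero (NeZero.ne N)) (x := y₀) (y := y) h1
      have htv := vv_tc hF h hk.1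
      have e1 : g y = χ.f u * g y₀ := by rw [hz', hg.per, hg.eqv u hu]
      have e2 : vv ξ (xbg N y) y = χ.f u * vv ξ (xbg N y) y₀ := by
        rw [hz'] at htv ⊢
        have h5 := htv.per (u * y₀) z
        rw [h5, htv.eqv u hu]
      have hni : ((ni (xbg N y) : ℕ) : ℂ) ≠ 0 := by
        exact_mod_cast ni_ne.2 (xb_ne (N := N) y)
      rw [h3, e1, e2]
      field_simp [hni, hk.2]
    · rw [hc0 _ hP, zero_mul]
      by_contra hne
      by_cases hle : ni (xbg N y) ≤ n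
      · exact hne (hn y hle)
      · exact hP ⟨by omega, y, rfl, hne⟩
  · rw [Finset.sum_eq_zero]
    · by_contra hne
      exact hmem ((hs _).2 (xb_key hF h hg hne).1)
    · intro G hG
      refine hz G hG ?_
      rintro rfl
      exact hmem hG

theorem basis {χ : Chr D N} {F : Ideal D.O} (hF : F ≠ ⊥) {ξ : Xc D F} (h : Ext χ ξ)
    {g : D.O → ℂ} (hg : Tc χ g) : ∃ (s : Finset (Ideal D.O)) (b : Ideal D.O → ℂ),
      (∀ G ∈ s, G ≠ ⊥ ∧ (N : D.O) ∈ G * F) ∧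
      ∀ y, g y = ∑ G ∈ s, b G * (((ni G : ℕ) : ℂ) * vv ξ G y) := by
  have hN0 : ((N : ℕ) : D.O) ≠ 0 := xb_N0
  have hspan : Ideal.span {((N : ℕ) : D.O)} ≠ ⊥ := by
    rw [Ne, Ideal.span_singleton_eq_bot]
    exact hN0
  have hbot : ∀ G : Ideal D.O, (N : D.O) ∈ G * F → G ≠ ⊥ := by
    intro G hG h0
    rw [h0, Ideal.bot_mul, Ideal.mem_bot] at hG
    exact hN0 hG
  have hfin : {G : Ideal D.O | (N : D.O) ∈ G * F}.Finite := by
    refine (ni_fin (D := D) (ni (Ideal.span {((N : ℕ) : D.O)}))).subset ?_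
    intro G hG
    refine ⟨hbot G hG, ?_⟩
    refine xb_ni_le ?_ hspan
    rw [Ideal.span_singleton_le_iff_mem]
    exact Ideal.mul_le_left hG
  let s : Finset (Ideal D.O) := hfin.toFinset
  have hs : ∀ G, G ∈ s ↔ (N : D.O) ∈ G * F := by
    intro G
    exact hfin.mem_toFinset
  have hind : ∀ n : ℕ, ∃ b : Ideal D.O → ℂ, ∀ y, ni (xbg N y) ≤ n →
      g y = ∑ G ∈ s, b G * (((ni G : ℕ) : ℂ) * vv ξ G y) := by
    intro n
    induction n with
    | zero =>
      refine ⟨fun _ => 0, ?_⟩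
      intro y hy
      exact absurd (Nat.le_zero.1 hy) (ni_ne.2 (xb_ne (N := N) y))
    | succ n ih =>
      obtain ⟨b, hb⟩ := ih
      have htc := xb_tc_sub hg (xb_tc_sum hF h s (fun G hG => (hs G).1 hG) b)
      obtain ⟨c, hc⟩ := xb_step hF h s hs htc n (by
        intro y hy
        rw [hb y hy, sub_self])
      refine ⟨fun G => b G + c G, ?_⟩
      intro y hy
      have h1 := hc y hy
      beta_reduce at h1
      rw [sub_eq_iff_eq_add] at h1
      rw [h1, ← Finset.sum_add_distrib]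
      refine Finset.sum_congr rfl fun G _ => ?_
      ring
  obtain ⟨b, hb⟩ := hind (ni (Ideal.span {((N : ℕ) : D.O)}))
  refine ⟨s, b, ?_, ?_⟩
  · intro G hG
    exact ⟨hbot G ((hs G).1 hG), (hs G).1 hG⟩
  · intro y
    refine hb y ?_
    exact xb_ni_le le_sup_right hspan

end

end RNG
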