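import Pool.Agent.RNG.Xv

/-!
# RNG.Xe: the extension of a character to the ideals

`χ : Chr D N` trivial on the units.
1. The conductor: if `Fac χ J` and `Fac χ J'` then `Fac χ (J ⊔ J')`: let `x` be prime to `N`, `x = 1 + j + j'`. `y = 1 + j` is prime
  to `J ⊓ J' ⊇ (N)`, choose `y' ≡ y` mod `J ⊓ J'` prime to `N` (`lift_cp`). `χ(y') = 1`, `χ(x) = χ(y')`. So there is a largest one,
  `F` (`D.O` is noetherian).
2. `cF(x)` for `x` prime to `F`: `χ(x')` for an `x' ≡ x` mod `F` prime to `N` (`lift_cp`); it depends only on `x` mod `F`, it is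
  multiplicative and it is `1` on the units.
3. The group `A` of the fractional ideals, `B ⊆ A` the subgroup of the `(x / y)`, `x, y` nonzero and prime to `F`;
  `(x / y) ↦ cF(x) / cF(y)` is a well defined homomorphism `B → ℂˣ`. `ℂˣ` is divisible, so it extends to `A`
  (`Module.Baer.of_divisible`). `ξ(I)` is the value at `I` if `I` is prime to `F`, `0` otherwise.
-/

open RNK nonZeroDivisors

namespace RNG

noncomputable section

variable {D : RNP.OD}

/-! ### the conductor -/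

section fac

variable {N : ℕ} [NeZero N]

private theorem xe_N : ((N : ℕ) : D.O) ≠ 0 := by
  intro h
  have h1 := congrArg (fun t : D.O => (t : ℂ)) h
  simp only [Subring.coe_natCast, Subring.coe_zero, Nat.cast_eq_zero] at h1
  exact NeZero.ne N h1

omit [NeZero N] in
private theorem xe_inv (χ : Chr D N) {x : D.O} (hx : Cp N x) :
    ∃ y, Cp N y ∧ χ.f y * χ.f x = 1 ∧ ∃ z : D.O, y * x = 1 + (N : D.O) * z := by
  obtain ⟨a, b, h⟩ := hx
  have h1 : a * x = 1 + (N : D.O) * (-b) := by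
    rw [← h]
    ring
  refine ⟨a, ⟨x, b, by rw [mul_comm x a]; exact h⟩, ?_, -b, h1⟩
  rw [← χ.mul, h1, χ.per, χ.one]

omit [NeZero N] in
private theorem xe_ne (χ : Chr D N) {x : D.O} (hx : Cp N x) : χ.f x ≠ 0 := by
  obtain ⟨y, -, h, -⟩ := xe_inv χ hx
  exact right_ne_zero_of_mul_eq_one h

private theorem xe_fac_eq {χ : Chr D N} {J : Ideal D.O} (h : Fac χ J) {x y : D.O} (hx : Cp N x)
    (hy : Cp N y) (hxy : x - y ∈ J) : χ.f x = χ.f y := by
  obtain ⟨w, hw, hwy, z, hz⟩ := xe_inv χ hy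
  have hN : (N : D.O) ∈ J := h.le (Ideal.mem_span_singleton_self _)
  have h1 : χ.f (x * w) = 1 := by
    refine h.one _ (Cp_mul.2 ⟨hx, hw⟩) ?_
    have e : x * w - 1 = w * (x - y) + z * (N : D.O) := by
      have : w * y = 1 + (N : D.O) * z := hz
      linear_combination this
    rw [e]
    exact J.add_mem (J.mul_mem_left _ hxy) (J.mul_mem_left _ hN)
  rw [χ.mul] at h1
  calc χ.f x = χ.f x * (χ.f w * χ.f y) := by rw [hwy, mul_one]
    _ = χ.f y := by rw [← mul_assoc, h1, one_mul]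

omit [NeZero N] in
private theorem xe_fac_N (χ : Chr D N) : Fac χ (Ideal.span {(N : D.O)}) where
  le := le_rfl
  one x _ h := by
    obtain ⟨z, hz⟩ := Ideal.mem_span_singleton.1 h
    have : x = 1 + (N : D.O) * z := by
      rw [← hz]
      ring
    rw [this, χ.per, χ.one]

private theorem xe_fac_sup [IsDedekindDomain D.O] {χ : Chr D N} {J J' : Ideal D.O} (hJ : Fac χ J)
    (hJ' : Fac χ J') : Fac χ (J ⊔ J') where
  le := hJ.le.trans le_sup_left
  one x hx h := by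
    obtain ⟨j, hj, j', hj', e⟩ := Submodule.mem_sup.1 h
    have hN : (N : D.O) ∈ J := hJ.le (Ideal.mem_span_singleton_self _)
    have hN' : (N : D.O) ∈ J' := hJ'.le (Ideal.mem_span_singleton_self _)
    have c1 : IsCoprime (Ideal.span {1 + j}) J :=
      Ideal.isCoprime_iff_exists.2 ⟨1 + j, Ideal.mem_span_singleton_self _, -j, J.neg_mem hj, by ring⟩
    have c2 : IsCoprime (Ideal.span {1 + j}) J' := by
      obtain ⟨a, b, hab⟩ := hx
      refine Ideal.isCoprime_iff_exists.2 ⟨a * (1 + j), Ideal.mul_mem_left _ _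
        (Ideal.mem_span_singleton_self _), a * j' + b * (N : D.O),
        J'.add_mem (J'.mul_mem_left _ hj') (J'.mul_mem_left _ hN'), ?_⟩
      linear_combination a * e + hab
    have c3 : IsCoprime (Ideal.span {1 + j}) (J ⊓ J') := by
      obtain ⟨i, hi, k, hk, hik⟩ := Ideal.isCoprime_iff_exists.1 (c1.mul_right c2)
      exact Ideal.isCoprime_iff_exists.2 ⟨i, hi, k, Ideal.mul_le_inf hk, hik⟩
    obtain ⟨x', hx', hxx⟩ := lift_cp (Nat.pos_of_ne_zero (NeZero.ne N)) (le_inf hJ.le hJ'.le) c3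
    have h1 : χ.f x' = 1 := by
      refine hJ.one x' hx' ?_
      have e1 : x' - 1 = (x' - (1 + j)) + j := by ring
      rw [e1]
      exact J.add_mem hxx.1 hj
    rw [← h1]
    refine xe_fac_eq hJ' hx hx' ?_
    have e2 : x - x' = j' - (x' - (1 + j)) := by
      linear_combination (-1 : D.O) * e
    rw [e2]
    exact J'.sub_mem hj' hxx.2

end fac

/-! ### the character mod `F` -/

section cF

variable [IsDedekindDomain D.O] {N : ℕ} [NeZero N] (χ : Chr D N) {F : Ideal D.O}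

private abbrev cop (F : Ideal D.O) (x : D.O) : Prop := IsCoprime (Ideal.span {x}) F

omit [IsDedekindDomain D.O] in
private theorem cop_mul {x y : D.O} : cop F (x * y) ↔ cop F x ∧ cop F y := by
  rw [cop, ← Ideal.span_singleton_mul_span_singleton, IsCoprime.mul_left_iff]

omit [IsDedekindDomain D.O] in
private theorem cop_one : cop F 1 := by
  rw [cop, Ideal.span_singleton_one, Ideal.isCoprime_iff_sup_eq, top_sup_eq]

omit [IsDedekindDomain D.O] in
private theorem cop_congr {x y : D.O} (h : x - y ∈ F) (hx : cop F x) : cop F y := by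
  obtain ⟨i, hi, k, hk, hik⟩ := Ideal.isCoprime_iff_exists.1 hx
  obtain ⟨a, ha⟩ := Ideal.mem_span_singleton'.1 hi
  refine Ideal.isCoprime_iff_exists.2 ⟨a * y, Ideal.mul_mem_left _ _
    (Ideal.mem_span_singleton_self _), a * (x - y) + k, F.add_mem (F.mul_mem_left _ h) hk, ?_⟩
  rw [← hik, ← ha]
  ring

omit [IsDedekindDomain D.O] [NeZero N] in
private theorem cop_Cp (hF : Ideal.span {(N : D.O)} ≤ F) {x : D.O} (hx : Cp N x) : cop F x := by
  obtain ⟨a, b, hab⟩ := hx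
  have h1 : a * x ∈ Ideal.span {x} := Ideal.mul_mem_left _ _ (Ideal.mem_span_singleton_self x)
  have h2 : (N : D.O) ∈ F := hF (Ideal.mem_span_singleton_self (N : D.O))
  have h3 : b * (N : D.O) ∈ F := F.mul_mem_left b h2
  exact Ideal.isCoprime_iff_exists.2 ⟨a * x, h1, b * (N : D.O), h3, hab⟩

variable (hF : Fac χ F)

open Classical in
private def cF (x : D.O) : ℂ :=
  if h : cop F x then
    χ.f (Classical.choose (lift_cp (Nat.pos_of_ne_zero (NeZero.ne N)) hF.le h))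
  else 0

private theorem cF_eq {x x' : D.O} (hx' : Cp N x') (h : x' - x ∈ F) : cF χ hF x = χ.f x' := by
  have hx : cop F x := cop_congr h (cop_Cp hF.le hx')
  rw [cF, dif_pos hx]
  have hs := Classical.choose_spec (lift_cp (Nat.pos_of_ne_zero (NeZero.ne N)) hF.le hx)
  refine xe_fac_eq hF hs.1 hx' ?_
  have e : Classical.choose (lift_cp (Nat.pos_of_ne_zero (NeZero.ne N)) hF.le hx) - x' =
      (Classical.choose (lift_cp (Nat.pos_of_ne_zero (NeZero.ne N)) hF.le hx) - x) - (x' - x) := by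
    ring
  rw [e]
  exact F.sub_mem hs.2 h

include hF in
private theorem cF_ex {x : D.O} (hx : cop F x) : ∃ x', Cp N x' ∧ x' - x ∈ F :=
  lift_cp (Nat.pos_of_ne_zero (NeZero.ne N)) hF.le hx

private theorem cF_ne {x : D.O} (hx : cop F x) : cF χ hF x ≠ 0 := by
  obtain ⟨x', h1, h2⟩ := cF_ex χ hF hx
  rw [cF_eq χ hF h1 h2]
  exact xe_ne χ h1

private theorem cF_mul {x y : D.O} (hx : cop F x) (hy : cop F y) :
    cF χ hF (x * y) = cF χ hF x * cF χ hF y := by
  obtain ⟨x', h1, h2⟩ := cF_ex χ hF hx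
  obtain ⟨y', h3, h4⟩ := cF_ex χ hF hy
  have h5 : x' * y' - x * y ∈ F := by
    have e : x' * y' - x * y = y' * (x' - x) + x * (y' - y) := by ring
    rw [e]
    exact F.add_mem (F.mul_mem_left _ h2) (F.mul_mem_left _ h4)
  rw [cF_eq χ hF h1 h2, cF_eq χ hF h3 h4, cF_eq χ hF (Cp_mul.2 ⟨h1, h3⟩) h5, χ.mul]

private theorem cF_one : cF χ hF 1 = 1 := by
  rw [cF_eq χ hF (x' := 1) isCoprime_one_left (by rw [sub_self]; exact F.zero_mem), χ.one]

private theorem cF_congr {x y : D.O} (h : x - y ∈ F) (hx : cop F x) : cF χ hF x = cF χ hF y := by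
  obtain ⟨x', h1, h2⟩ := cF_ex χ hF hx
  rw [cF_eq χ hF h1 h2, cF_eq χ hF h1]
  have e : x' - y = (x' - x) + (x - y) := by ring
  rw [e]
  exact F.add_mem h2 h

private theorem cF_span (hu : χ.Tu) {x y : D.O} (hx : cop F x) (h : Ideal.span {x} = Ideal.span {y}) :
    cF χ hF x = cF χ hF y := by
  obtain ⟨u, hu1⟩ := Ideal.span_singleton_eq_span_singleton.1 h
  have hcu : Cp N (u : D.O) := by
    obtain ⟨v, hv⟩ := u.isUnit.exists_left_inv
    exact ⟨v, 0, by rw [hv, zero_mul, add_zero]⟩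
  have h1 : cF χ hF (u : D.O) = 1 := by
    rw [cF_eq χ hF hcu (by rw [sub_self]; exact F.zero_mem)]
    exact hu u
  rw [← hu1, cF_mul χ hF hx (cop_Cp hF.le hcu), h1, mul_one]

/-! ### fractional ideals -/

private abbrev KK (D : RNP.OD) : Type := FractionRing D.O

private abbrev AA (D : RNP.OD) : Type := (FractionalIdeal (nonZeroDivisors D.O) (KK D))ˣ

private abbrev ci1 (x : D.O) : FractionalIdeal (nonZeroDivisors D.O) (KK D) :=
  ((Ideal.span {x} : Ideal D.O) : FractionalIdeal (nonZeroDivisors D.O) (KK D))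

omit [IsDedekindDomain D.O] in
private theorem ci1_mul (x y : D.O) : ci1 (x * y) = ci1 x * ci1 y := by
  rw [ci1, ← Ideal.span_singleton_mul_span_singleton, FractionalIdeal.coeIdeal_mul]

omit [IsDedekindDomain D.O] in
private theorem ci1_one : ci1 (1 : D.O) = 1 := by
  rw [ci1, Ideal.span_singleton_one]
  exact FractionalIdeal.coeIdeal_top _

private def Pr (F : Ideal D.O) (a : AA D) (x y : D.O) : Prop :=
  (x ≠ 0 ∧ y ≠ 0) ∧ (cop F x ∧ cop F y) ∧ (a : FractionalIdeal (nonZeroDivisors D.O) (KK D)) * ci1 y = ci1 x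

omit [IsDedekindDomain D.O] in
private theorem Pr_mul {a a' : AA D} {x y x' y' : D.O} (h : Pr F a x y) (h' : Pr F a' x' y') :
    Pr F (a * a') (x * x') (y * y') := by
  obtain ⟨⟨h1, h2⟩, ⟨h3, h4⟩, h5⟩ := h
  obtain ⟨⟨h1', h2'⟩, ⟨h3', h4'⟩, h5'⟩ := h'
  refine ⟨⟨mul_ne_zero h1 h1', mul_ne_zero h2 h2'⟩, ⟨cop_mul.2 ⟨h3, h3'⟩, cop_mul.2 ⟨h4, h4'⟩⟩, ?_⟩
  rw [Units.val_mul, ci1_mul, ci1_mul, ← h5, ← h5']
  ring

private def BB (F : Ideal D.O) : Subgroup (AA D) where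
  carrier := {a | ∃ x y, Pr F a x y}
  mul_mem' := by
    rintro a a' ⟨x, y, h⟩ ⟨x', y', h'⟩
    exact ⟨_, _, Pr_mul h h'⟩
  one_mem' := ⟨1, 1, ⟨one_ne_zero, one_ne_zero⟩, ⟨cop_one, cop_one⟩, by rw [Units.val_one, one_mul]⟩
  inv_mem' := by
    rintro a ⟨x, y, ⟨h1, h2⟩, ⟨h3, h4⟩, h5⟩
    refine ⟨y, x, ⟨h2, h1⟩, ⟨h4, h3⟩, ?_⟩
    rw [← h5, ← mul_assoc, Units.inv_mul, one_mul]

private theorem Pr_wd (hu : χ.Tu) {a : AA D} {x y x' y' : D.O} (h : Pr F a x y)
    (h' : Pr F a x' y') : cF χ hF x / cF χ hF y = cF χ hF x' / cF χ hF y' := by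
  obtain ⟨⟨h1, h2⟩, ⟨h3, h4⟩, h5⟩ := h
  obtain ⟨⟨h1', h2'⟩, ⟨h3', h4'⟩, h5'⟩ := h'
  have e : ci1 (x * y') = ci1 (x' * y) := by
    rw [ci1_mul, ci1_mul, ← h5, ← h5']
    ring
  have e' : (Ideal.span {x * y'} : Ideal D.O) = Ideal.span {x' * y} :=
    FractionalIdeal.coeIdeal_injective (K := KK D) e
  have e2 := cF_span χ hF hu (cop_mul.2 ⟨h3, h4'⟩) e'
  rw [cF_mul χ hF h3 h4', cF_mul χ hF h3' h4] at e2
  rw [div_eq_div_iff (cF_ne χ hF h4) (cF_ne χ hF h4')]
  exact e2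

private def gx (b : BB F) : D.O := Classical.choose b.2

private def gy (b : BB F) : D.O := Classical.choose (Classical.choose_spec b.2)

private theorem gxy (b : BB F) : Pr F (b : AA D) (gx b) (gy b) :=
  Classical.choose_spec (Classical.choose_spec b.2)

private def gg (hu : χ.Tu) : BB F →* ℂˣ where
  toFun b := Units.mk0 (cF χ hF (gx b) / cF χ hF (gy b))
    (div_ne_zero (cF_ne χ hF (gxy b).2.1.1) (cF_ne χ hF (gxy b).2.1.2))
  map_one' := by
    apply Units.ext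
    rw [Units.val_mk0, Units.val_one]
    have h1 : Pr F ((1 : BB F) : AA D) 1 1 :=
      ⟨⟨one_ne_zero, one_ne_zero⟩, ⟨cop_one, cop_one⟩, by
        rw [Subgroup.coe_one, Units.val_one, one_mul]⟩
    rw [Pr_wd χ hF hu (gxy 1) h1, cF_one, div_one]
  map_mul' a b := by
    apply Units.ext
    rw [Units.val_mk0, Units.val_mul, Units.val_mk0, Units.val_mk0]
    have h1 : Pr F ((a * b : BB F) : AA D) (gx a * gx b) (gy a * gy b) := Pr_mul (gxy a) (gxy b)
    rw [Pr_wd χ hF hu (gxy (a * b)) h1, cF_mul χ hF (gxy a).2.1.1 (gxy b).2.1.1,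
      cF_mul χ hF (gxy a).2.1.2 (gxy b).2.1.2, mul_div_mul_comm]

private theorem gg_eq (hu : χ.Tu) {b : BB F} {x y : D.O} (h : Pr F (b : AA D) x y) :
    ((gg χ hF hu b : ℂˣ) : ℂ) = cF χ hF x / cF χ hF y := by
  have h0 : ((gg χ hF hu b : ℂˣ) : ℂ) = cF χ hF (gx b) / cF χ hF (gy b) := rfl
  rw [h0]
  exact Pr_wd χ hF hu (gxy b) h

private instance divC : DivisibleBy (Additive ℂˣ) ℕ :=
  divisibleByOfSMulRightSurj _ _ fun {n} hn x => by
    obtain ⟨z, hz⟩ := IsAlgClosed.exists_pow_nat_eq ((x.toMul : ℂˣ) : ℂ) (Nat.pos_of_ne_zero hn)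
    have hz0 : z ≠ 0 := by
      rintro rfl
      rw [zero_pow hn] at hz
      exact (x.toMul).ne_zero hz.symm
    refine ⟨Additive.ofMul (Units.mk0 z hz0), ?_⟩
    show n • Additive.ofMul (Units.mk0 z hz0) = x
    rw [← ofMul_pow]
    apply Additive.toMul.injective
    apply Units.ext
    rw [toMul_ofMul, Units.val_pow_eq_pow_val, Units.val_mk0, hz]

private theorem ex_gh (hu : χ.Tu) : ∃ g : AA D →* ℂˣ, ∀ b : BB F, g (b : AA D) = gg χ hF hu b := by
  letI : DivisibleBy (Additive ℂˣ) ℤ := AddGroup.divisibleByIntOfDivisibleByNat _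
  obtain ⟨δ, hδ⟩ := Module.Baer.extension_property_addMonoidHom
    (Module.Baer.of_divisible (Additive ℂˣ))
    (MonoidHom.toAdditive (BB F).subtype)
    (by
      intro a b h
      exact Subtype.ext h)
    (MonoidHom.toAdditive (gg χ hF hu))
  refine ⟨MonoidHom.toAdditive.symm δ, fun b => ?_⟩
  exact DFunLike.congr_fun hδ (Additive.ofMul b)

private def mk00 (I : Ideal D.O) (hI : I ≠ ⊥) : AA D :=
  FractionalIdeal.mk0 (KK D) ⟨I, mem_nonZeroDivisors_of_ne_zero hI⟩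

private theorem mk00_mul {I J : Ideal D.O} (hI : I ≠ ⊥) (hJ : J ≠ ⊥) (hIJ : I * J ≠ ⊥) :
    mk00 (I * J) hIJ = mk00 I hI * mk00 J hJ := by
  apply Units.ext
  rw [Units.val_mul]
  show ((I * J : Ideal D.O) : FractionalIdeal (nonZeroDivisors D.O) (KK D)) = _
  rw [FractionalIdeal.coeIdeal_mul]
  rfl

private theorem mk00_pr {x : D.O} (hx : x ≠ 0) (hc : cop F x) (h : Ideal.span {x} ≠ ⊥) :
    Pr F (mk00 (Ideal.span {x}) h) x 1 := by
  refine ⟨⟨hx, one_ne_zero⟩, ⟨hc, cop_one⟩, ?_⟩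
  rw [ci1_one, mul_one]
  rfl

open Classical in
private theorem ex_xc (hu : χ.Tu) :
    ∃ ξ : Xc D F, ∀ x, x ≠ 0 → cop F x → ξ.f (Ideal.span {x}) = cF χ hF x := by
  obtain ⟨g, hg⟩ := ex_gh χ hF hu
  have hval : ∀ x : D.O, ∀ hx : x ≠ 0, cop F x → ∀ h : Ideal.span {x} ≠ ⊥,
      ((g (mk00 (Ideal.span {x}) h) : ℂˣ) : ℂ) = cF χ hF x := by
    intro x hx hc h
    have hp := mk00_pr hx hc h
    have h1 := hg ⟨mk00 (Ideal.span {x}) h, x, 1, hp⟩
    have h2 := gg_eq χ hF hu (b := ⟨mk00 (Ideal.span {x}) h, x, 1, hp⟩) hp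
    rw [← h1, cF_one, div_one] at h2
    exact h2
  let f : Ideal D.O → ℂ := fun I => if h : I ≠ ⊥ ∧ IsCoprime I F then ((g (mk00 I h.1) : ℂˣ) : ℂ) else 0
  have hf1 : ∀ I (h : I ≠ ⊥ ∧ IsCoprime I F), f I = ((g (mk00 I h.1) : ℂˣ) : ℂ) := fun I h => dif_pos h
  have hf0 : ∀ I, ¬ (I ≠ ⊥ ∧ IsCoprime I F) → f I = 0 := fun I h => dif_neg h
  have hfx : ∀ x, x ≠ 0 → cop F x → f (Ideal.span {x}) = cF χ hF x := by
    intro x hx hc
    have h0 : (Ideal.span {x} : Ideal D.O) ≠ ⊥ := by rwa [Ne, Ideal.span_singleton_eq_bot]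
    rw [hf1 _ ⟨h0, hc⟩, hval x hx hc h0]
  refine ⟨⟨f, ?_, ?_, ?_⟩, hfx⟩
  · intro I J
    by_cases hI : I ≠ ⊥ ∧ IsCoprime I F
    · by_cases hJ : J ≠ ⊥ ∧ IsCoprime J F
      · have hIJ : I * J ≠ ⊥ ∧ IsCoprime (I * J) F := ⟨mul_ne_zero hI.1 hJ.1, hI.2.mul_left hJ.2⟩
        rw [hf1 _ hI, hf1 _ hJ, hf1 _ hIJ, mk00_mul hI.1 hJ.1 hIJ.1, map_mul, Units.val_mul]
      · rw [hf0 _ hJ, mul_zero, hf0]
        rintro ⟨h1, h2⟩
        exact hJ ⟨right_ne_zero_of_mul h1, (IsCoprime.mul_left_iff.1 h2).2⟩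
    · rw [hf0 _ hI, zero_mul, hf0]
      rintro ⟨h1, h2⟩
      exact hI ⟨left_ne_zero_of_mul h1, (IsCoprime.mul_left_iff.1 h2).1⟩
  · intro I
    constructor
    · intro h
      by_contra hc
      exact h (hf0 I hc)
    · intro h
      rw [hf1 I h]
      exact Units.ne_zero _
  · intro x y hx hy hxy
    by_cases hc : cop F x
    · have hcy : cop F y := cop_congr hxy hc
      rw [hfx x hx hc, hfx y hy hcy, cF_congr χ hF hxy hc]
    · have hcy : ¬ cop F y := by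
        intro h
        apply hc
        refine cop_congr ?_ h
        rw [← neg_sub]
        exact F.neg_mem hxy
      rw [hf0 _ (fun h => hc h.2), hf0 _ (fun h => hcy h.2)]

end cF

variable [IsDedekindDomain D.O] {N : ℕ} [NeZero N]

theorem ex_ext (χ : Chr D N) (hu : χ.Tu) : ∃ F : Ideal D.O, F ≠ ⊥ ∧ ∃ ξ : Xc D F, Ext χ ξ := by
  obtain ⟨F, hF, hmax⟩ := set_has_maximal_iff_noetherian.2
    (inferInstance : IsNoetherian D.O D.O) {J : Ideal D.O | Fac χ J} ⟨_, xe_fac_N χ⟩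
  have hF1 : Fac χ F := hF
  have hF0 : F ≠ ⊥ := by
    rintro rfl
    exact xe_N (N := N) ((Ideal.mem_bot).1 (hF1.le (Ideal.mem_span_singleton_self _)))
  obtain ⟨ξ, hξ⟩ := ex_xc χ hF1 hu
  refine ⟨F, hF0, ξ, hF1, ?_, ?_⟩
  · intro J hJ
    have h1 := hmax (F ⊔ J) (xe_fac_sup hF1 hJ)
    have h2 : F = F ⊔ J := by
      by_contra hne
      exact h1 (lt_of_le_of_ne le_sup_left hne)
    rw [h2]
    exact le_sup_right
  · intro x hx hc
    rw [hξ x hx (cop_Cp hF1.le hc), cF_eq χ hF1 hc (by rw [sub_self]; exact F.zero_mem)]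

/-! ### characters of the class group -/

private theorem cl_fin : Finite (ClassGroup D.O) := by
  obtain ⟨S⟩ := rp_ex (D := D) (M := 1) Nat.one_pos
  have hS : ∀ I ∈ S.s, I ≠ ⊥ := fun I hI => (S.cp I hI).1
  refine Finite.of_surjective (fun J : S.s => ClassGroup.mk0
    (⟨(J : Ideal D.O), mem_nonZeroDivisors_of_ne_zero (hS J J.2)⟩ : (Ideal D.O)⁰)) ?_
  intro c
  obtain ⟨I, rfl⟩ := ClassGroup.mk0_surjective c
  obtain ⟨J, hJ, x, y, hx, hy, h⟩ := S.ex (I : Ideal D.O) (nonZeroDivisors.ne_zero I.2)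
  exact ⟨⟨J, hJ⟩, ClassGroup.mk0_eq_mk0_iff.2 ⟨y, x, hy, hx, h.symm⟩⟩

private def clm (I : Ideal D.O) (hI : I ≠ ⊥) : ClassGroup D.O :=
  ClassGroup.mk0 ⟨I, mem_nonZeroDivisors_of_ne_zero hI⟩

private theorem clm_mul {I J : Ideal D.O} (hI : I ≠ ⊥) (hJ : J ≠ ⊥) (hIJ : I * J ≠ ⊥) :
    clm (I * J) hIJ = clm I hI * clm J hJ := by
  rw [clm, clm, clm, ← map_mul]
  rfl

private theorem clm_eq {I J : Ideal D.O} (hI : I ≠ ⊥) (hJ : J ≠ ⊥) :
    clm I hI = clm J hJ ↔ Ie I J := by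
  rw [clm, clm, ClassGroup.mk0_eq_mk0_iff]
  constructor
  · rintro ⟨x, y, hx, hy, h⟩
    exact ⟨x, y, hx, hy, h⟩
  · rintro ⟨x, y, hx, hy, h⟩
    exact ⟨x, y, hx, hy, h⟩

open Classical in
private def mkX (ψ : AddChar (Additive (ClassGroup D.O)) ℂ) : Xc D (⊤ : Ideal D.O) where
  f I := if h : I ≠ ⊥ then ψ (Additive.ofMul (clm I h)) else 0
  mul I J := by
    by_cases hI : I ≠ ⊥
    · by_cases hJ : J ≠ ⊥
      · have hIJ : I * J ≠ ⊥ := mul_ne_zero hI hJ
        rw [dif_pos hI, dif_pos hJ, dif_pos hIJ, clm_mul hI hJ hIJ, ofMul_mul,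
          AddChar.map_add_eq_mul]
      · rw [dif_neg hJ, mul_zero, dif_neg]
        exact fun h => hJ (right_ne_zero_of_mul h)
    · rw [dif_neg hI, zero_mul, dif_neg]
      exact fun h => hI (left_ne_zero_of_mul h)
  ne I := by
    constructor
    · intro h
      by_cases hI : I ≠ ⊥
      · exact ⟨hI, by rw [Ideal.isCoprime_iff_sup_eq, sup_top_eq]⟩
      · rw [dif_neg hI] at h
        exact absurd rfl h
    · rintro ⟨hI, -⟩
      rw [dif_pos hI]
      have h1 : ψ (Additive.ofMul (clm I hI)) * ψ (-(Additive.ofMul (clm I hI))) = 1 := by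
        rw [← AddChar.map_add_eq_mul, add_neg_cancel, AddChar.map_zero_eq_one]
      exact left_ne_zero_of_mul_eq_one h1
  ray x y hx hy _ := by
    have h1 : (Ideal.span {x} : Ideal D.O) ≠ ⊥ := by rwa [Ne, Ideal.span_singleton_eq_bot]
    have h2 : (Ideal.span {y} : Ideal D.O) ≠ ⊥ := by rwa [Ne, Ideal.span_singleton_eq_bot]
    rw [dif_pos h1, dif_pos h2]
    congr 2
    rw [clm_eq h1 h2]
    exact ⟨y, x, hy, hx, by
      rw [Ideal.span_singleton_mul_span_singleton, Ideal.span_singleton_mul_span_singleton,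
        mul_comm]⟩

open Classical in
/-- characters of the class group separate (finite abelian group; `AddChar.sum_apply_eq_ite`, see `chars` in `Cd`) -/
theorem cls_sep (s : Finset (Ideal D.O)) (hs : ∀ G ∈ s, G ≠ ⊥) (b : Ideal D.O → ℂ)
    (h : ∀ ω : Xc D ⊤, ∑ G ∈ s, b G * ω.f G = 0) {C : Ideal D.O} (hC : C ≠ ⊥) :
    ∑ G ∈ s, (if Ie G C then b G else 0) = 0 := by
  haveI : Finite (ClassGroup D.O) := cl_fin
  letI : Fintype (Additive (ClassGroup D.O)) := Fintype.ofFinite _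
  have hcard : (Fintype.card (Additive (ClassGroup D.O)) : ℂ) ≠ 0 :=
    Nat.cast_ne_zero.2 Fintype.card_ne_zero
  set c : Additive (ClassGroup D.O) := Additive.ofMul (clm C hC) with hc
  have h1 : ∑ ψ : AddChar (Additive (ClassGroup D.O)) ℂ, ψ (-c) *
      ∑ G ∈ s, b G * (mkX ψ).f G = 0 := by
    refine Finset.sum_eq_zero fun ψ _ => ?_
    rw [h, mul_zero]
  have h2 : ∑ ψ : AddChar (Additive (ClassGroup D.O)) ℂ, ψ (-c) *
      ∑ G ∈ s, b G * (mkX ψ).f G =
      ∑ G ∈ s, b G * ∑ ψ : AddChar (Additive (ClassGroup D.O)) ℂ, ψ (-c) * (mkX ψ).f G := by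
    rw [Finset.sum_congr rfl fun ψ _ => Finset.mul_sum _ _ _, Finset.sum_comm]
    refine Finset.sum_congr rfl fun G _ => ?_
    rw [Finset.mul_sum]
    refine Finset.sum_congr rfl fun ψ _ => ?_
    ring
  have h3 : ∀ G ∈ s, b G * ∑ ψ : AddChar (Additive (ClassGroup D.O)) ℂ, ψ (-c) * (mkX ψ).f G =
      (Fintype.card (Additive (ClassGroup D.O)) : ℂ) * (if Ie G C then b G else 0) := by
    intro G hG
    have hG0 := hs G hG
    have h4 : ∀ ψ : AddChar (Additive (ClassGroup D.O)) ℂ, ψ (-c) * (mkX ψ).f G =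
        ψ (-c + Additive.ofMul (clm G hG0)) := by
      intro ψ
      rw [AddChar.map_add_eq_mul]
      congr 1
      exact dif_pos hG0
    rw [Finset.sum_congr rfl fun ψ _ => h4 ψ, AddChar.sum_apply_eq_ite]
    have h5 : -c + Additive.ofMul (clm G hG0) = 0 ↔ Ie G C := by
      rw [neg_add_eq_zero, hc, Additive.ofMul.injective.eq_iff, eq_comm, clm_eq hG0 hC]
    by_cases hI : Ie G C
    · rw [if_pos (h5.2 hI), if_pos hI, mul_comm]
    · rw [if_neg (fun hh => hI (h5.1 hh)), if_neg hI, mul_zero, mul_zero]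
  rw [h2, Finset.sum_congr rfl h3, ← Finset.mul_sum] at h1
  exact (mul_eq_zero.1 h1).resolve_left hcard

end

end RNG
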