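import Pool.Agent.RNG.Th

/-!
# RNG.Ze: analytic continuation

Mathlib: `WeakFEPair` (`NumberTheory/LSeries/AbstractFuncEq`) with `f = th N a`, `g = th N (du N a)`, `k = 1`,
`ε = 1`, `f₀ = a 0`, `g₀ = du N a 0`; `h_feq` is `th_fe`, the bounds are `th_top`, `th_cont`.
`Λ = Λ₀ - f₀ / s - g₀ / (1 - s)`, `Λ₀` entire. For `Re s > 1`, with `c = π / (N y)`:
`Λ(s) = ∫ (f - f₀) t^{s-1} dt = c^{-s} Γ(s) Ds a s` (`hasSum_mellin` of `NumberTheory/LSeries/MellinEqDirichlet`; `K3R/LFunLattice`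
does this for another series). So `Ds a s = c^s Λ(s) / Γ(s)`.
* `cont_all`: `M(s) = c^s ((s-1) Λ₀(s) / Γ(s) - (s-1) a(0) / Γ(s+1) + g₀ / Γ(s))` is entire (`1/Γ` is entire,
  `1 / (s Γ(s)) = 1 / Γ(s+1)`), and `1/Γ(-1) = 1/Γ(0) = 0` gives `M(-1) = 0`.
* `cont_zero`: if `a 0 = 0` and the mean is `0` then `f₀ = g₀ = 0`, `Z(s) = c^s Λ(s) / Γ(s)`, and
  `Z(1) = c Λ(1) = c ∫_0^∞ th N a t dt = lim_{ε → 0} c ∫_ε^∞ th N a t dt = lim Σ a(x) exp (- c ε N(x)) / N(x)`
  (the Mellin transform at `1` of `t ↦ th N a (t + ε)`; the term of `x = 0` is `0` on both sides).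
-/

open RNK Filter Topology MeasureTheory Set

namespace RNG

noncomputable section

variable {D : RNP.OD} {N : ℕ} [NeZero N]

private def zk (D : RNP.OD) (N : ℕ) : ℝ := Real.pi / (N * (UNI.om D.a).im)

private theorem zk_pos : 0 < zk D N := by
  have hy := om_im_pos D
  have hNp : (0 : ℝ) < N := Nat.cast_pos.2 (Nat.pos_of_ne_zero (NeZero.ne N))
  have hpi := Real.pi_pos
  unfold zk
  positivity

omit [NeZero N] in
private theorem z_th (a : D.O → ℂ) (t : ℝ) : th N a t =
    ∑' x : D.O, a x * ((Real.exp (-(zk D N * t) * nn D x) : ℝ) : ℂ) := by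
  unfold th zk
  refine tsum_congr fun x => ?_
  rw [show Real.pi * t / (N * (UNI.om D.a).im) = Real.pi / (N * (UNI.om D.a).im) * t by ring]

private theorem z_hs {a : D.O → ℂ} (ha : Pe N a) {t : ℝ} (ht : 0 < t) :
    HasSum (fun x : D.O => a x * ((Real.exp (-(zk D N * t) * nn D x) : ℝ) : ℂ)) (th N a t) := by
  rw [z_th]
  exact (th_summable (Pe_bdd ha) (mul_pos (zk_pos (D := D) (N := N)) ht)).hasSum

private theorem z_bigO {a : D.O → ℂ} (ha : Pe N a) (r : ℝ) :
    (fun t : ℝ => th N a t - a 0) =O[atTop] (fun t : ℝ => t ^ r) := by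
  obtain ⟨C, c, hc, h⟩ := th_top ha
  have h1 : (fun t : ℝ => th N a t - a 0) =O[atTop] (fun t : ℝ => Real.exp (-c * t)) := by
    refine Asymptotics.IsBigO.of_bound C ?_
    filter_upwards [eventually_ge_atTop 1] with t ht
    rw [Real.norm_eq_abs, abs_of_pos (Real.exp_pos _)]
    exact h t ht
  exact h1.trans (isLittleO_exp_neg_mul_rpow_atTop hc r).isBigO

/-- the pair of functions with functional equation -/
private def zP {a : D.O → ℂ} (ha : Pe N a) : WeakFEPair ℂ where
  f := th N a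
  g := th N (du N a)
  k := 1
  ε := 1
  f₀ := a 0
  g₀ := du N a 0
  hf_int := (th_cont ha).locallyIntegrableOn measurableSet_Ioi
  hg_int := (th_cont (du_pe a)).locallyIntegrableOn measurableSet_Ioi
  hk := one_pos
  hε := one_ne_zero
  h_feq := fun t ht => by
    have ht' : 0 < t := ht
    rw [th_fe ha ht', one_mul, smul_eq_mul, Real.rpow_one]
  hf_top := fun r => z_bigO ha r
  hg_top := fun r => z_bigO (du_pe a) r

private theorem z_cnt : Countable D.O := (elE D).symm.injective.countable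

private theorem z_nn0 : nn D (0 : D.O) = 0 := nn_eq_zero.2 rfl

private theorem z_nnp {x : D.O} (hx : x ≠ 0) : (0 : ℝ) < nn D x := by
  have : 0 < nn D x := Nat.pos_of_ne_zero fun h => hx (nn_eq_zero.1 h)
  exact_mod_cast this

private theorem z_cpow {s : ℂ} (x : D.O) : (((zk D N * nn D x : ℝ)) : ℂ) ^ s =
    ((zk D N : ℝ) : ℂ) ^ s * ((nn D x : ℕ) : ℂ) ^ s := by
  rw [Complex.ofReal_mul, Complex.mul_cpow_ofReal_nonneg (zk_pos (D := D) (N := N)).le
    (Nat.cast_nonneg _), Complex.ofReal_natCast]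

private theorem zk_ne (D : RNP.OD) (N : ℕ) [NeZero N] : ((zk D N : ℝ) : ℂ) ≠ 0 :=
  Complex.ofReal_ne_zero.2 (zk_pos (D := D) (N := N)).ne'

private theorem z_hsC {ι : Type*} {f g : ι → ℂ} {a : ℂ} (h : HasSum f a)
    (e : ∀ i, g i = f i) : HasSum g a := by
  rwa [show g = f from funext e]

/-- the Mellin transform -/
private theorem z_lam {a : D.O → ℂ} (ha : Pe N a) {s : ℂ} (hs : 1 < s.re) :
    Ds a s = ((zk D N : ℝ) : ℂ) ^ s * ((zP ha).Λ s * (Complex.Gamma s)⁻¹) := by
  classical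
  have hcn := z_cnt (D := D)
  have hk := zk_pos (D := D) (N := N)
  have hs0 : s ≠ 0 := by
    rintro rfl
    rw [Complex.zero_re] at hs
    linarith
  have hG : Complex.Gamma s ≠ 0 := Complex.Gamma_ne_zero_of_re_pos (by linarith)
  have h1 : HasMellin ((zP ha).f · - (zP ha).f₀) s ((zP ha).Λ s) := (zP ha).hasMellin hs
  have hsum := Ds_summable (Pe_bdd ha) hs
  have h2 : HasSum (fun x : D.O => Complex.Gamma s * (if x = 0 then 0 else a x) /
      (((zk D N * nn D x : ℝ)) : ℂ) ^ s) (mellin (fun t => th N a t - a 0) s) := by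
    refine hasSum_mellin (a := fun x : D.O => if x = 0 then 0 else a x)
      (p := fun x => zk D N * nn D x) (F := fun t => th N a t - a 0) ?_ (by linarith) ?_ ?_
    · intro x
      by_cases hx : x = 0
      · left
        simp [hx]
      · right
        exact mul_pos hk (z_nnp hx)
    · intro t ht
      have ht' : 0 < t := ht
      refine z_hsC ((z_hs ha ht').sub (hasSum_ite_eq (0 : D.O) (a 0))) fun x => ?_
      by_cases hx : x = 0
      · subst hx
        simp [z_nn0]
      · rw [if_neg hx, if_neg hx, sub_zero]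
        congr 3
        ring
    · refine Summable.of_nonneg_of_le (fun x => by positivity) (fun x => ?_)
        (hsum.norm.mul_left ((zk D N ^ s.re)⁻¹))
      by_cases hx : x = 0
      · rw [if_pos hx, norm_zero, zero_div]
        positivity
      · have hp := z_nnp hx
        rw [if_neg hx, norm_mul, Complex.norm_natCast_cpow_of_pos (by exact_mod_cast hp),
          Complex.neg_re, Real.rpow_neg hp.le, Real.mul_rpow hk.le hp.le, div_eq_mul_inv, mul_inv]
        apply le_of_eq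
        ring
  have h3 : mellin (fun t => th N a t - a 0) s = (zP ha).Λ s := h1.2
  rw [h3] at h2
  have h4 := (h2.mul_right (Complex.Gamma s)⁻¹).mul_left (((zk D N : ℝ) : ℂ) ^ s)
  rw [← h4.tsum_eq]
  unfold Ds
  refine tsum_congr fun x => ?_
  by_cases hx : x = 0
  · subst hx
    rw [z_nn0, Nat.cast_zero, Complex.zero_cpow (neg_ne_zero.2 hs0)]
    simp
  · have hp := z_nnp hx
    have hk1 : (((zk D N : ℝ) : ℂ)) ^ s ≠ 0 := by
      rw [Complex.cpow_def_of_ne_zero (zk_ne D N)]
      exact Complex.exp_ne_zero _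
    have hn0 : ((nn D x : ℕ) : ℂ) ≠ 0 := by
      have : ((nn D x : ℕ) : ℝ) ≠ 0 := hp.ne'
      exact_mod_cast this
    have hn1 : ((nn D x : ℕ) : ℂ) ^ s ≠ 0 := by
      rw [Complex.cpow_def_of_ne_zero hn0]
      exact Complex.exp_ne_zero _
    rw [if_neg hx, z_cpow, Complex.cpow_neg]
    field_simp

theorem cont_all {a : D.O → ℂ} (ha : Pe N a) : ∃ M : ℂ → ℂ, Differentiable ℂ M ∧
    (∀ s : ℂ, 1 < s.re → M s = (s - 1) * Ds a s) ∧ M (-1) = 0 := by
  have hG := Complex.differentiable_one_div_Gamma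
  refine ⟨fun s => ((zk D N : ℝ) : ℂ) ^ s * ((s - 1) * (zP ha).Λ₀ s * (Complex.Gamma s)⁻¹ -
    (s - 1) * a 0 * (Complex.Gamma (s + 1))⁻¹ + du N a 0 * (Complex.Gamma s)⁻¹), ?_, ?_, ?_⟩
  · have h1 : Differentiable ℂ fun s : ℂ => ((zk D N : ℝ) : ℂ) ^ s := fun s =>
      differentiableAt_id.const_cpow (Or.inl (zk_ne D N))
    have h2 : Differentiable ℂ fun s : ℂ => (Complex.Gamma (s + 1))⁻¹ :=
      hG.comp (differentiable_id.add_const 1)
    have h3 : Differentiable ℂ fun s : ℂ => s - 1 := differentiable_id.sub_const 1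
    exact h1.mul ((((h3.mul (zP ha).differentiable_Λ₀).mul hG).sub
      ((h3.mul_const (a 0)).mul h2)).add (hG.const_mul (du N a 0)))
  · intro s hs
    have hs0 : s ≠ 0 := by
      rintro rfl
      rw [Complex.zero_re] at hs
      linarith
    have hs1 : (1 : ℂ) - s ≠ 0 := by
      intro h
      have h5 : s = 1 := (sub_eq_zero.1 h).symm
      rw [h5, Complex.one_re] at hs
      linarith
    have hG0 : Complex.Gamma s ≠ 0 := Complex.Gamma_ne_zero_of_re_pos (by linarith)
    have h4 : (zP ha).Λ₀ s = (zP ha).Λ s + (1 / s) * a 0 + (1 / (1 - s)) * du N a 0 := by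
      have h5 := (zP ha).Λ₀_eq s
      have h6 : (((zP ha).k : ℝ) : ℂ) = 1 := Complex.ofReal_one
      rw [h6] at h5
      exact h5
    show ((zk D N : ℝ) : ℂ) ^ s * _ = _
    rw [z_lam ha hs, h4, Complex.Gamma_add_one s hs0]
    field_simp
    ring
  · show ((zk D N : ℝ) : ℂ) ^ (-1 : ℂ) * _ = _
    have h5 : Complex.Gamma (-1) = 0 := by
      have := Complex.Gamma_neg_nat_eq_zero 1
      simpa using this
    have h6 : Complex.Gamma (-1 + 1) = 0 := by
      have := Complex.Gamma_neg_nat_eq_zero 0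
      simp
    rw [h5, h6, inv_zero]
    ring

private theorem z_shift (f : ℝ → ℂ) (e : ℝ) :
    ∫ t in Ioi (0 : ℝ), f (t + e) = ∫ t in Ioi e, f t := by
  rw [← integral_indicator measurableSet_Ioi, ← integral_indicator measurableSet_Ioi,
    ← integral_add_right_eq_self ((Ioi e).indicator f) e]
  refine integral_congr_ae (Eventually.of_forall fun t => ?_)
  show (Ioi (0 : ℝ)).indicator (fun t => f (t + e)) t = (Ioi e).indicator f (t + e)
  by_cases ht : 0 < t
  · rw [indicator_of_mem (show t ∈ Ioi (0 : ℝ) from ht),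
      indicator_of_mem (show t + e ∈ Ioi e from by simpa using ht)]
  · rw [indicator_of_notMem (show t ∉ Ioi (0 : ℝ) from ht),
      indicator_of_notMem (show t + e ∉ Ioi e from by simpa using ht)]

private theorem z_mel (f : ℝ → ℂ) : mellin f 1 = ∫ t in Ioi (0 : ℝ), f t := by
  unfold mellin
  refine setIntegral_congr_fun measurableSet_Ioi fun t _ => ?_
  show ((t : ℝ) : ℂ) ^ ((1 : ℂ) - 1) • f t = f t
  rw [sub_self, Complex.cpow_zero, one_smul]

/-- the series with the exponential factor is an integral over a half line -/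
private theorem z_tau {a : D.O → ℂ} (ha : Pe N a) (h0 : a 0 = 0) {τ : ℝ} (hτ : 0 < τ) :
    ∑' x : D.O, a x * ((Real.exp (-τ * nn D x) / nn D x : ℝ) : ℂ) =
      ((zk D N : ℝ) : ℂ) * ∫ t in Ioi (τ / zk D N), th N a t := by
  classical
  have hcn := z_cnt (D := D)
  have hk := zk_pos (D := D) (N := N)
  have he : 0 < τ / zk D N := div_pos hτ hk
  have hke : zk D N * (τ / zk D N) = τ := mul_div_cancel₀ _ hk.ne'
  obtain ⟨B, hB⟩ := Pe_bdd ha
  have hB0 : 0 ≤ B := (norm_nonneg _).trans (hB 0)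
  have hsum := (th_summable (D := D) (a := fun _ => (1 : ℂ)) ⟨1, fun _ => by simp⟩ hτ).norm
  have h2 : HasSum (fun x : D.O => Complex.Gamma 1 *
      (a x * ((Real.exp (-τ * nn D x) : ℝ) : ℂ)) / (((zk D N * nn D x : ℝ)) : ℂ) ^ (1 : ℂ))
      (mellin (fun t => th N a (t + τ / zk D N)) 1) := by
    refine hasSum_mellin (a := fun x : D.O => a x * ((Real.exp (-τ * nn D x) : ℝ) : ℂ))
      (p := fun x => zk D N * nn D x) (F := fun t => th N a (t + τ / zk D N)) ?_
      (by rw [Complex.one_re]; exact one_pos) ?_ ?_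
    · intro x
      by_cases hx : x = 0
      · left
        rw [hx, h0, zero_mul]
      · right
        exact mul_pos hk (z_nnp hx)
    · intro t ht
      have ht' : 0 < t := ht
      refine z_hsC (z_hs ha (add_pos ht' he)) fun x => ?_
      rw [mul_assoc, ← Complex.ofReal_mul, ← Real.exp_add]
      congr 3
      rw [mul_add, hke]
      ring
    · refine Summable.of_nonneg_of_le (fun x => by positivity) (fun x => ?_)
        (hsum.mul_left (B * (zk D N)⁻¹))
      rw [Complex.one_re, Real.rpow_one, norm_mul, one_mul]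
      by_cases hx : x = 0
      · rw [hx, h0, norm_zero, zero_mul, zero_div]
        positivity
      · have hp := z_nnp hx
        have hp1 : (1 : ℝ) ≤ nn D x := by
          have : 1 ≤ nn D x := Nat.one_le_iff_ne_zero.2 fun h => hx (nn_eq_zero.1 h)
          exact_mod_cast this
        rw [div_le_iff₀ (mul_pos hk hp)]
        have h5 : B * (zk D N)⁻¹ * ‖((Real.exp (-τ * nn D x) : ℝ) : ℂ)‖ * (zk D N * nn D x) =
            B * ‖((Real.exp (-τ * nn D x) : ℝ) : ℂ)‖ * nn D x := by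
          field_simp
        rw [h5]
        calc ‖a x‖ * ‖((Real.exp (-τ * nn D x) : ℝ) : ℂ)‖
            ≤ B * ‖((Real.exp (-τ * nn D x) : ℝ) : ℂ)‖ :=
              mul_le_mul_of_nonneg_right (hB x) (norm_nonneg _)
          _ = B * ‖((Real.exp (-τ * nn D x) : ℝ) : ℂ)‖ * 1 := (mul_one _).symm
          _ ≤ _ := mul_le_mul_of_nonneg_left hp1 (by positivity)
  rw [z_mel, z_shift] at h2
  have h4 := h2.mul_left ((zk D N : ℝ) : ℂ)
  rw [← h4.tsum_eq]
  refine tsum_congr fun x => ?_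
  by_cases hx : x = 0
  · subst hx
    rw [h0]
    simp
  · have hp := z_nnp hx
    have hn0 : ((nn D x : ℕ) : ℂ) ≠ 0 := by
      have : ((nn D x : ℕ) : ℝ) ≠ 0 := hp.ne'
      exact_mod_cast this
    have hk0 := zk_ne D N
    rw [Complex.Gamma_one, Complex.cpow_one, Complex.ofReal_mul, Complex.ofReal_div,
      Complex.ofReal_natCast]
    field_simp

theorem cont_zero {a : D.O → ℂ} (ha : Pe N a) (h0 : a 0 = 0)
    (hm : ∑ k : UNL.G N, a (rp D k) = 0) : ∃ Z : ℂ → ℂ, Differentiable ℂ Z ∧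
    (∀ s : ℂ, 1 < s.re → Z s = Ds a s) ∧
    Tendsto (fun τ : ℝ => ∑' x : D.O, a x * ((Real.exp (-τ * nn D x) / nn D x : ℝ) : ℂ))
      (𝓝[>] 0) (𝓝 (Z 1)) := by
  have hk := zk_pos (D := D) (N := N)
  have hg : du N a 0 = 0 := by
    unfold du
    have h1 : ∀ k : UNL.G N, a (rp D k) * pss D (((0 : D.O) : ℂ) * UNL.tp (toU D.a) k) =
        a (rp D k) := fun k => by
      rw [ZeroMemClass.coe_zero, zero_mul, pss_zero, mul_one]
    rw [Finset.sum_congr rfl fun k _ => h1 k, hm, mul_zero]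
  have hS : IsStrongFEPair (zP ha) := ⟨h0, hg⟩
  refine ⟨fun s => ((zk D N : ℝ) : ℂ) ^ s * ((zP ha).Λ s * (Complex.Gamma s)⁻¹), ?_,
    fun s hs => (z_lam ha hs).symm, ?_⟩
  · have h1 : Differentiable ℂ fun s : ℂ => ((zk D N : ℝ) : ℂ) ^ s := fun s =>
      differentiableAt_id.const_cpow (Or.inl (zk_ne D N))
    exact h1.mul (hS.differentiable_Λ.mul Complex.differentiable_one_div_Gamma)
  · have h2 : (zP ha).Λ 1 = ∫ t in Ioi (0 : ℝ), th N a t := by
      rw [hS.Λ_eq]
      exact z_mel _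
    have h3 : IntegrableOn (fun t => th N a t) (Ioi (0 : ℝ)) := by
      have h4 : IntegrableOn (fun t : ℝ => ((t : ℝ) : ℂ) ^ ((1 : ℂ) - 1) • (zP ha).f t)
        (Ioi 0) := (hS.hasMellin 1).1
      refine h4.congr_fun (fun t _ => ?_) measurableSet_Ioi
      show ((t : ℝ) : ℂ) ^ ((1 : ℂ) - 1) • (zP ha).f t = _
      rw [sub_self, Complex.cpow_zero, one_smul]
      rfl
    show Tendsto _ _ (𝓝 (((zk D N : ℝ) : ℂ) ^ (1 : ℂ) * ((zP ha).Λ 1 * (Complex.Gamma 1)⁻¹)))
    rw [Complex.Gamma_one, inv_one, mul_one, Complex.cpow_one, h2]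
    have h5 : Tendsto (fun τ : ℝ => τ / zk D N) (𝓝[>] 0) (𝓝 0) := by
      have h6 : Tendsto (fun τ : ℝ => τ / zk D N) (𝓝 0) (𝓝 (0 / zk D N)) :=
        (continuous_id.div_const (zk D N)).tendsto 0
      rw [zero_div] at h6
      exact h6.mono_left nhdsWithin_le_nhds
    have h7 := (aecover_Ioi_of_Ioi (μ := volume) h5).integral_tendsto_of_countably_generated h3
    refine (h7.const_mul ((zk D N : ℝ) : ℂ)).congr' ?_
    filter_upwards [self_mem_nhdsWithin] with τ hτ
    have hτ' : 0 < τ := hτ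
    rw [z_tau ha h0 hτ', Measure.restrict_restrict measurableSet_Ioi]
    congr 3
    refine inter_eq_left.2 fun t ht => ?_
    exact lt_trans (div_pos hτ' hk) ht

end

end RNG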