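import Pool.Agent.RNG.Xv
import Pool.Agent.RNG.Ze

/-!
# RNG.Xl: the limit of the heat sums

`heat ξ τ = Σ_I ξ(I) exp (-τ ni I) / ni I`; the limit for `τ → 0+` exists if `ξ` is not trivial. Let `S : Rp D 1` be representatives. By
`class_sum`: `wn heat ξ τ = Σ_{I ∈ S} ni I Hs (vv ξ I) (τ / ni I)`, `Hs a τ = Σ_x a(x) exp (-τ nn x) / nn x`.
* `xl_as`: for periodic `a`, `Hs a τ + κ log τ` has a limit, `κ` a constant times the mean of `a`.
* for the functions `vv ξ G` the constants `κ(G)` satisfy `κ(q G) = κ(G) / nn q` (`vv_T`) and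
  `κ(J G) = κ(G) / (ξ(J) ni J)` (equidistribution in `J G` of functions mod `G F`).
* so `Σ_{I ∈ S} ni I κ(I) = ξ(J)⁻¹ Σ_{I ∈ S} ni I κ(I)`, `= 0` if `ξ(J) ≠ 1`.
-/

open RNK Filter Topology MeasureTheory Set

namespace RNG

noncomputable section

section ana

variable {D : RNP.OD}

private def xk (D : RNP.OD) (N : ℕ) : ℝ := Real.pi / (N * (UNI.om D.a).im)

/-- the heat sum of a function -/
private def Hs (a : D.O → ℂ) (τ : ℝ) : ℂ :=
  ∑' x : D.O, a x * ((Real.exp (-τ * nn D x) / nn D x : ℝ) : ℂ)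

/-- the asymptotics of the heat sum -/
private def As (a : D.O → ℂ) (κ : ℂ) : Prop :=
  ∃ v : ℂ, Tendsto (fun τ : ℝ => Hs a τ + κ * ((Real.log τ : ℝ) : ℂ)) (𝓝[>] 0) (𝓝 v)

private theorem xl_nn0 : nn D (0 : D.O) = 0 := nn_eq_zero.2 rfl

private theorem xl_nnp {x : D.O} (hx : x ≠ 0) : (0 : ℝ) < nn D x := by
  have : 0 < nn D x := Nat.pos_of_ne_zero fun h => hx (nn_eq_zero.1 h)
  exact_mod_cast this

private theorem xl_nn1 {x : D.O} (hx : x ≠ 0) : (1 : ℝ) ≤ nn D x := by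
  have : 1 ≤ nn D x := Nat.one_le_iff_ne_zero.2 fun h => hx (nn_eq_zero.1 h)
  exact_mod_cast this

private theorem xl_sum {a : D.O → ℂ} (ha : ∃ C : ℝ, ∀ x, ‖a x‖ ≤ C) {τ : ℝ} (hτ : 0 < τ) :
    Summable (fun x : D.O => a x * ((Real.exp (-τ * nn D x) / nn D x : ℝ) : ℂ)) := by
  obtain ⟨B, hB⟩ := ha
  have hB0 : 0 ≤ B := (norm_nonneg _).trans (hB 0)
  have hsum := (th_summable (D := D) (a := fun _ => (1 : ℂ)) ⟨1, fun _ => by simp⟩ hτ).norm
  refine Summable.of_norm_bounded (hsum.mul_left B) fun x => ?_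
  rw [norm_mul, one_mul]
  by_cases hx : x = 0
  · rw [hx, xl_nn0, Nat.cast_zero, div_zero, Complex.ofReal_zero, norm_zero, mul_zero]
    positivity
  · refine mul_le_mul (hB x) ?_ (norm_nonneg _) hB0
    rw [Complex.norm_real, Complex.norm_real, Real.norm_of_nonneg (by positivity),
      Real.norm_of_nonneg (Real.exp_pos _).le]
    exact div_le_self (Real.exp_pos _).le (xl_nn1 hx)

private theorem xl_uniq {a : D.O → ℂ} {κ κ' : ℂ} (h : As a κ) (h' : As a κ') : κ = κ' := by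
  obtain ⟨v, hv⟩ := h
  obtain ⟨v', hv'⟩ := h'
  by_contra hne
  have h1 := (hv.sub hv').norm
  have h2 : (fun τ : ℝ => ‖Hs a τ + κ * ((Real.log τ : ℝ) : ℂ) -
      (Hs a τ + κ' * ((Real.log τ : ℝ) : ℂ))‖) = fun τ => ‖κ - κ'‖ * |Real.log τ| := by
    funext τ
    rw [show Hs a τ + κ * ((Real.log τ : ℝ) : ℂ) - (Hs a τ + κ' * ((Real.log τ : ℝ) : ℂ)) =
      (κ - κ') * ((Real.log τ : ℝ) : ℂ) by ring, norm_mul, Complex.norm_real, Real.norm_eq_abs]
  rw [h2] at h1
  have h3 : Tendsto (fun τ : ℝ => |Real.log τ|) (𝓝[>] 0) atTop :=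
    tendsto_abs_atBot_atTop.comp Real.tendsto_log_nhdsGT_zero
  have h4 : Tendsto (fun τ : ℝ => ‖κ - κ'‖ * |Real.log τ|) (𝓝[>] 0) atTop :=
    h3.const_mul_atTop (norm_pos_iff.2 (sub_ne_zero.2 hne))
  exact not_tendsto_nhds_of_tendsto_atTop h4 _ h1

private theorem xl_smul {a : D.O → ℂ} {κ : ℂ} (c : ℂ) (h : As a κ) :
    As (fun x => c * a x) (c * κ) := by
  obtain ⟨v, hv⟩ := h
  refine ⟨c * v, ?_⟩
  have h1 := hv.const_mul c
  refine h1.congr fun τ => ?_
  have h2 : Hs (fun x => c * a x) τ = c * Hs a τ := by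
    unfold Hs
    rw [← tsum_mul_left]
    exact tsum_congr fun x => by ring
  rw [h2]
  ring

/-- scaling -/
private theorem xl_scale {a b : D.O → ℂ} {κ : ℂ} {q : D.O} (hq : q ≠ 0)
    (h1 : ∀ z, b (q * z) = a z) (h2 : ∀ y, ¬ q ∣ y → b y = 0) (h : As a κ) :
    As b (κ / nn D q) := by
  obtain ⟨v, hv⟩ := h
  have hq' := xl_nnp hq
  have hqc : ((nn D q : ℕ) : ℂ) ≠ 0 := by
    have : ((nn D q : ℕ) : ℝ) ≠ 0 := hq'.ne'
    exact_mod_cast this
  have hH : ∀ τ : ℝ, Hs b τ = Hs a (nn D q * τ) / nn D q := by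
    intro τ
    have hinj : Function.Injective (fun z : D.O => q * z) := fun x y hxy =>
      mul_left_cancel₀ hq hxy
    unfold Hs
    rw [← hinj.tsum_eq (f := fun x : D.O => b x * ((Real.exp (-τ * nn D x) / nn D x : ℝ) : ℂ)),
      ← tsum_div_const]
    · refine tsum_congr fun z => ?_
      rw [h1, nn_mul]
      push_cast
      rw [mul_div_assoc, div_div, mul_comm ((nn D z : ℕ) : ℂ), show -((nn D q : ℂ) * (τ : ℂ)) * (nn D z : ℂ) =
        -(τ : ℂ) * ((nn D q : ℂ) * (nn D z : ℂ)) by ring]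
    · intro y hy
      by_contra hy'
      have h3 : ¬ q ∣ y := fun ⟨z, hz⟩ => hy' ⟨z, hz.symm⟩
      exact hy (by simp only [h2 y h3, zero_mul])
  have h5 : Tendsto (fun τ : ℝ => (nn D q : ℝ) * τ) (𝓝[>] 0) (𝓝[>] 0) := by
    refine tendsto_nhdsWithin_iff.2 ⟨?_, ?_⟩
    · have h6 : Tendsto (fun τ : ℝ => (nn D q : ℝ) * τ) (𝓝 0) (𝓝 ((nn D q : ℝ) * 0)) :=
        (by fun_prop : Continuous fun τ : ℝ => (nn D q : ℝ) * τ).tendsto 0
      rw [mul_zero] at h6
      exact h6.mono_left nhdsWithin_le_nhds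
    · filter_upwards [self_mem_nhdsWithin] with τ hτ
      exact mul_pos hq' hτ
  refine ⟨(v - κ * ((Real.log (nn D q) : ℝ) : ℂ)) / nn D q, ?_⟩
  have h7 := ((hv.comp h5).sub_const (κ * ((Real.log (nn D q) : ℝ) : ℂ))).div_const
    ((nn D q : ℕ) : ℂ)
  refine h7.congr' ?_
  filter_upwards [self_mem_nhdsWithin] with τ hτ
  have hτ' : 0 < τ := hτ
  simp only [Function.comp_apply]
  rw [hH, Real.log_mul hq'.ne' hτ'.ne']
  push_cast
  field_simp
  ring

/-! ### the asymptotics -/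

section as

variable {N : ℕ} [NeZero N]

private theorem xk_pos : 0 < xk D N := by
  have hy := om_im_pos D
  have hNp : (0 : ℝ) < N := Nat.cast_pos.2 (Nat.pos_of_ne_zero (NeZero.ne N))
  have hpi := Real.pi_pos
  unfold xk
  positivity

omit [NeZero N] in
private theorem xl_th (a : D.O → ℂ) (t : ℝ) : th N a t =
    ∑' x : D.O, a x * ((Real.exp (-(xk D N * t) * nn D x) : ℝ) : ℂ) := by
  unfold th xk
  refine tsum_congr fun x => ?_
  rw [show Real.pi * t / (N * (UNI.om D.a).im) = Real.pi / (N * (UNI.om D.a).im) * t by ring]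

private theorem xl_hs {a : D.O → ℂ} (ha : Pe N a) {t : ℝ} (ht : 0 < t) :
    HasSum (fun x : D.O => a x * ((Real.exp (-(xk D N * t) * nn D x) : ℝ) : ℂ)) (th N a t) := by
  rw [xl_th]
  exact (th_summable (Pe_bdd ha) (mul_pos (xk_pos (D := D) (N := N)) ht)).hasSum

private theorem xl_hsC {ι : Type*} {f g : ι → ℂ} {a : ℂ} (h : HasSum f a)
    (e : ∀ i, g i = f i) : HasSum g a := by
  rwa [show g = f from funext e]

private theorem xl_shift (f : ℝ → ℂ) (e : ℝ) :
    ∫ t in Ioi (0 : ℝ), f (t + e) = ∫ t in Ioi e, f t := by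
  rw [← integral_indicator measurableSet_Ioi, ← integral_indicator measurableSet_Ioi,
    ← integral_add_right_eq_self ((Ioi e).indicator f) e]
  refine integral_congr_ae (Eventually.of_forall fun t => ?_)
  show (Ioi (0 : ℝ)).indicator (fun t => f (t + e)) t = (Ioi e).indicator f (t + e)
  by_cases ht : 0 < t
  · rw [indicator_of_mem (show t ∈ Ioi (0 : ℝ) from ht),
      indicator_of_mem (show t + e ∈ Ioi e from by simpa using ht)]
  · rw [indicator_of_notMem (show t ∉ Ioi (0 : ℝ) from ht),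
      indicator_of_notMem (show t + e ∉ Ioi e from by simpa using ht)]

private theorem xl_mel (f : ℝ → ℂ) : mellin f 1 = ∫ t in Ioi (0 : ℝ), f t := by
  unfold mellin
  refine setIntegral_congr_fun measurableSet_Ioi fun t _ => ?_
  show ((t : ℝ) : ℂ) ^ ((1 : ℂ) - 1) • f t = f t
  rw [sub_self, Complex.cpow_zero, one_smul]

/-- the heat sum as an integral over a half line -/
private theorem xl_tau {a : D.O → ℂ} (ha : Pe N a) {τ : ℝ} (hτ : 0 < τ) :
    Hs a τ = ((xk D N : ℝ) : ℂ) * ∫ t in Ioi (τ / xk D N), (th N a t - a 0) := by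
  classical
  have hcn : Countable D.O := (elE D).symm.injective.countable
  have hk := xk_pos (D := D) (N := N)
  have he : 0 < τ / xk D N := div_pos hτ hk
  have hke : xk D N * (τ / xk D N) = τ := mul_div_cancel₀ _ hk.ne'
  obtain ⟨B, hB⟩ := Pe_bdd ha
  have hB0 : 0 ≤ B := (norm_nonneg _).trans (hB 0)
  have hsum := (th_summable (D := D) (a := fun _ => (1 : ℂ)) ⟨1, fun _ => by simp⟩ hτ).norm
  have h2 : HasSum (fun x : D.O => Complex.Gamma 1 *
      ((if x = 0 then 0 else a x) * ((Real.exp (-τ * nn D x) : ℝ) : ℂ)) /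
        (((xk D N * nn D x : ℝ)) : ℂ) ^ (1 : ℂ))
      (mellin (fun t => th N a (t + τ / xk D N) - a 0) 1) := by
    refine hasSum_mellin (a := fun x : D.O => (if x = 0 then 0 else a x) *
        ((Real.exp (-τ * nn D x) : ℝ) : ℂ))
      (p := fun x => xk D N * nn D x) (F := fun t => th N a (t + τ / xk D N) - a 0) ?_
      (by rw [Complex.one_re]; exact one_pos) ?_ ?_
    · intro x
      by_cases hx : x = 0
      · left
        rw [if_pos hx, zero_mul]
      · right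
        exact mul_pos hk (xl_nnp hx)
    · intro t ht
      have ht' : 0 < t := ht
      refine xl_hsC ((xl_hs ha (add_pos ht' he)).sub (hasSum_ite_eq (0 : D.O) (a 0))) fun x => ?_
      by_cases hx : x = 0
      · subst hx
        simp [xl_nn0]
      · rw [if_neg hx, if_neg hx, sub_zero, mul_assoc, ← Complex.ofReal_mul, ← Real.exp_add]
        congr 3
        rw [mul_add, hke]
        ring
    · refine Summable.of_nonneg_of_le (fun x => by positivity) (fun x => ?_)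
        (hsum.mul_left (B * (xk D N)⁻¹))
      rw [Complex.one_re, Real.rpow_one, norm_mul, one_mul]
      by_cases hx : x = 0
      · rw [if_pos hx, norm_zero, zero_mul, zero_div]
        positivity
      · have hp := xl_nnp hx
        have hp1 := xl_nn1 hx
        rw [if_neg hx, div_le_iff₀ (mul_pos hk hp)]
        have h5 : B * (xk D N)⁻¹ * ‖((Real.exp (-τ * nn D x) : ℝ) : ℂ)‖ * (xk D N * nn D x) =
            B * ‖((Real.exp (-τ * nn D x) : ℝ) : ℂ)‖ * nn D x := by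
          field_simp
        rw [h5]
        calc ‖a x‖ * ‖((Real.exp (-τ * nn D x) : ℝ) : ℂ)‖
            ≤ B * ‖((Real.exp (-τ * nn D x) : ℝ) : ℂ)‖ :=
              mul_le_mul_of_nonneg_right (hB x) (norm_nonneg _)
          _ = B * ‖((Real.exp (-τ * nn D x) : ℝ) : ℂ)‖ * 1 := (mul_one _).symm
          _ ≤ _ := mul_le_mul_of_nonneg_left hp1 (by positivity)
  rw [xl_mel, xl_shift (fun t => th N a t - a 0)] at h2
  have h4 := h2.mul_left ((xk D N : ℝ) : ℂ)
  rw [← h4.tsum_eq]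
  unfold Hs
  refine tsum_congr fun x => ?_
  by_cases hx : x = 0
  · subst hx
    simp [xl_nn0]
  · have hp := xl_nnp hx
    have hn0 : ((nn D x : ℕ) : ℂ) ≠ 0 := by
      have : ((nn D x : ℕ) : ℝ) ≠ 0 := hp.ne'
      exact_mod_cast this
    have hk0 : ((xk D N : ℝ) : ℂ) ≠ 0 := Complex.ofReal_ne_zero.2 hk.ne'
    rw [if_neg hx, Complex.Gamma_one, Complex.cpow_one, Complex.ofReal_mul, Complex.ofReal_div,
      Complex.ofReal_natCast]
    field_simp

/-- near `0` -/
private theorem xl_bot {a : D.O → ℂ} (ha : Pe N a) : ∃ C : ℝ, ∀ t : ℝ, 0 < t → t ≤ 1 →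
    ‖th N a t - a 0 - du N a 0 / (t : ℂ)‖ ≤ C := by
  obtain ⟨C, c, hc, h⟩ := th_top (du_pe (D := D) (N := N) a)
  have hC : 0 ≤ C := by
    have h1 := h 1 le_rfl
    have h2 := (norm_nonneg _).trans h1
    exact nonneg_of_mul_nonneg_left h2 (Real.exp_pos _)
  refine ⟨C / c + ‖a 0‖, fun t ht ht1 => ?_⟩
  have htc : (t : ℂ) ≠ 0 := Complex.ofReal_ne_zero.2 ht.ne'
  have h1 : 1 ≤ 1 / t := by
    rw [le_div_iff₀ ht]
    linarith
  have h2 := th_fe (D := D) (N := N) ha (t := 1 / t) (by positivity)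
  rw [one_div_one_div] at h2
  have h3 : th N a t - a 0 - du N a 0 / (t : ℂ) =
      ((1 / t : ℝ) : ℂ) * (th N (du N a) (1 / t) - du N a 0) - a 0 := by
    rw [h2]
    push_cast
    field_simp
    ring
  rw [h3]
  refine (norm_sub_le _ _).trans ?_
  have h4 := h (1 / t) h1
  have h5 : ‖((1 / t : ℝ) : ℂ)‖ = 1 / t := by
    rw [Complex.norm_real, Real.norm_of_nonneg (by positivity)]
  rw [norm_mul, h5]
  have h6 : (1 / t) * Real.exp (-c * (1 / t)) ≤ 1 / c := by
    have h7 : c * (1 / t) ≤ Real.exp (c * (1 / t)) := by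
      have := Real.add_one_le_exp (c * (1 / t))
      linarith
    rw [le_div_iff₀ hc, neg_mul, Real.exp_neg,
      show 1 / t * (Real.exp (c * (1 / t)))⁻¹ * c = c * (1 / t) * (Real.exp (c * (1 / t)))⁻¹ by ring,
      mul_inv_le_iff₀ (Real.exp_pos _), one_mul]
    exact h7
  have h8 : 1 / t * ‖th N (du N a) (1 / t) - du N a 0‖ ≤ C / c := by
    calc 1 / t * ‖th N (du N a) (1 / t) - du N a 0‖
        ≤ 1 / t * (C * Real.exp (-c * (1 / t))) := mul_le_mul_of_nonneg_left h4 (by positivity)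
      _ = C * (1 / t * Real.exp (-c * (1 / t))) := by ring
      _ ≤ C * (1 / c) := mul_le_mul_of_nonneg_left h6 hC
      _ = C / c := by ring
  linarith

/-- the asymptotics for periodic functions -/
private theorem xl_as {a : D.O → ℂ} (ha : Pe N a) :
    As a (((xk D N : ℝ) : ℂ) * du N a 0) := by
  have hk := xk_pos (D := D) (N := N)
  set d : ℂ := du N a 0 with hd
  set P : ℝ → ℂ := fun t => th N a t - a 0 - (Iic (1 : ℝ)).indicator (fun t : ℝ => d / (t : ℂ)) t
    with hP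
  obtain ⟨C, hC⟩ := xl_bot ha
  obtain ⟨C', c, hc, hC'⟩ := th_top ha
  have hth := th_cont ha
  have hi1 : IntegrableOn P (Ioc 0 1) := by
    have h1 : IntegrableOn (fun t : ℝ => th N a t - a 0 - d / (t : ℂ)) (Ioc 0 1) := by
      have hcont : ContinuousOn (fun t : ℝ => th N a t - a 0 - d / (t : ℂ)) (Ioc 0 1) := by
        refine ((hth.mono fun t ht => ht.1).sub continuousOn_const).sub ?_
        refine continuousOn_const.div Complex.continuous_ofReal.continuousOn fun t ht => ?_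
        exact Complex.ofReal_ne_zero.2 (ne_of_gt ht.1)
      refine Integrable.mono' (g := fun _ => C) ?_ (hcont.aestronglyMeasurable measurableSet_Ioc) ?_
      · exact integrableOn_const (by simp) (by simp)
      · refine (ae_restrict_iff' measurableSet_Ioc).2 (Eventually.of_forall fun t ht => ?_)
        exact hC t ht.1 ht.2
    refine h1.congr_fun (fun t ht => ?_) measurableSet_Ioc
    show _ = th N a t - a 0 - (Iic (1 : ℝ)).indicator (fun t : ℝ => d / (t : ℂ)) t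
    rw [indicator_of_mem (show t ∈ Iic (1 : ℝ) from ht.2)]
  have hi2 : IntegrableOn (fun t => th N a t - a 0) (Ioi 1) := by
    refine Integrable.mono' (g := fun t => C' * Real.exp (-c * t)) ?_ ?_ ?_
    · exact (exp_neg_integrableOn_Ioi 1 hc).const_mul C'
    · exact ((hth.mono fun t (ht : 1 < t) => (lt_trans one_pos ht : 0 < t)).sub
        continuousOn_const).aestronglyMeasurable measurableSet_Ioi
    · refine (ae_restrict_iff' measurableSet_Ioi).2 (Eventually.of_forall fun t ht => ?_)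
      exact hC' t (le_of_lt ht)
  have hi3 : IntegrableOn P (Ioi 1) := by
    refine hi2.congr_fun (fun t ht => ?_) measurableSet_Ioi
    show _ = th N a t - a 0 - (Iic (1 : ℝ)).indicator (fun t : ℝ => d / (t : ℂ)) t
    have ht' : t ∉ Iic (1 : ℝ) := fun h => absurd (show (1 : ℝ) < t from ht) (not_lt.2 h)
    rw [indicator_of_notMem ht', sub_zero]
  have hi : IntegrableOn P (Ioi 0) := by
    rw [← Ioc_union_Ioi_eq_Ioi (zero_le_one (α := ℝ))]
    exact hi1.union hi3
  have h5 : Tendsto (fun τ : ℝ => τ / xk D N) (𝓝[>] 0) (𝓝 0) := by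
    have h6 : Tendsto (fun τ : ℝ => τ / xk D N) (𝓝 0) (𝓝 (0 / xk D N)) :=
      (continuous_id.div_const (xk D N)).tendsto 0
    rw [zero_div] at h6
    exact h6.mono_left nhdsWithin_le_nhds
  have h7 := (aecover_Ioi_of_Ioi (μ := volume) h5).integral_tendsto_of_countably_generated hi
  refine ⟨((xk D N : ℝ) : ℂ) * (∫ t in Ioi (0 : ℝ), P t) +
    ((xk D N : ℝ) : ℂ) * d * ((Real.log (xk D N) : ℝ) : ℂ), ?_⟩
  refine ((h7.const_mul ((xk D N : ℝ) : ℂ)).add_const _).congr' ?_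
  have hev : ∀ᶠ τ : ℝ in 𝓝[>] 0, τ < xk D N := by
    filter_upwards [nhdsWithin_le_nhds (Iio_mem_nhds hk)] with τ hτ using hτ
  filter_upwards [self_mem_nhdsWithin, hev] with τ hτ hτ1
  have hτ' : 0 < τ := hτ
  have hε : 0 < τ / xk D N := div_pos hτ' hk
  have hε1 : τ / xk D N < 1 := (div_lt_one hk).2 hτ1
  set ε : ℝ := τ / xk D N with hεd
  have hsub : Ioi ε ⊆ Ioi 0 := fun t (ht : ε < t) => (lt_trans hε ht : (0 : ℝ) < t)
  rw [xl_tau ha hτ', Measure.restrict_restrict measurableSet_Ioi,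
    inter_eq_left.2 hsub, ← hεd]
  have hiP : IntegrableOn P (Ioi ε) := hi.mono_set hsub
  have hI : IntegrableOn ((Iic (1 : ℝ)).indicator (fun t : ℝ => d / (t : ℂ))) (Ioi ε) := by
    rw [IntegrableOn, integrable_indicator_iff measurableSet_Iic, IntegrableOn,
      Measure.restrict_restrict measurableSet_Iic, inter_comm, Ioi_inter_Iic]
    have hcont : ContinuousOn (fun t : ℝ => d / (t : ℂ)) (Icc ε 1) :=
      continuousOn_const.div Complex.continuous_ofReal.continuousOn fun t ht =>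
        Complex.ofReal_ne_zero.2 (ne_of_gt (lt_of_lt_of_le hε ht.1))
    exact (hcont.integrableOn_Icc).mono_set Ioc_subset_Icc_self
  have hIv : ∫ t in Ioi ε, (Iic (1 : ℝ)).indicator (fun t : ℝ => d / (t : ℂ)) t =
      -(d * ((Real.log ε : ℝ) : ℂ)) := by
    rw [setIntegral_indicator measurableSet_Iic, Ioi_inter_Iic,
      ← intervalIntegral.integral_of_le hε1.le]
    have e1 : ∀ t : ℝ, d / (t : ℂ) = d * ((t⁻¹ : ℝ) : ℂ) := fun t => by
      rw [Complex.ofReal_inv, div_eq_mul_inv]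
    simp_rw [e1]
    rw [intervalIntegral.integral_const_mul, intervalIntegral.integral_ofReal,
      integral_inv_of_pos hε one_pos, one_div, Real.log_inv]
    push_cast
    ring
  have h8 : ∫ t in Ioi ε, (th N a t - a 0) = (∫ t in Ioi ε, P t) +
      ∫ t in Ioi ε, (Iic (1 : ℝ)).indicator (fun t : ℝ => d / (t : ℂ)) t := by
    rw [← integral_add hiP hI]
    refine integral_congr_ae (Eventually.of_forall fun t => ?_)
    show th N a t - a 0 = (th N a t - a 0 - (Iic (1 : ℝ)).indicator (fun t : ℝ => d / (t : ℂ)) t) +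
      (Iic (1 : ℝ)).indicator (fun t : ℝ => d / (t : ℂ)) t
    ring
  rw [h8, hIv, hεd, Real.log_div hτ'.ne' hk.ne']
  push_cast
  ring

end as

/-! ### means -/

section mean

variable {N : ℕ} [NeZero N]

omit [NeZero N] in
private theorem xl_pe {a : D.O → ℂ} (ha : Pe N a) (x y : D.O) (h : ∃ z : D.O, x = y + (N : D.O) * z) :
    a x = a y := by
  obtain ⟨z, hz⟩ := h
  rw [hz]
  exact ha y z

/-- invariance of the mean -/
private theorem xl_sh {a : D.O → ℂ} (ha : Pe N a) (r : D.O) :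
    ∑ k : UNL.G N, a (rp D k + r) = ∑ k : UNL.G N, a (rp D k) := by
  have key : ∀ (x : D.O), ∃ z : D.O, rp D (cls N x) = x + (N : D.O) * z := fun x => by
    obtain ⟨y, hy⟩ := rp_cls (N := N) x
    exact ⟨-y, by rw [mul_neg, ← sub_eq_add_neg]; exact eq_sub_of_add_eq hy.symm⟩
  let e : UNL.G N ≃ UNL.G N :=
    { toFun := fun k => cls N (rp D k + r)
      invFun := fun k => cls N (rp D k - r)
      left_inv := fun k => by
        obtain ⟨z, hz⟩ := key (rp D k + r)
        show cls N (rp D (cls N (rp D k + r)) - r) = k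
        rw [hz, show rp D k + r + (N : D.O) * z - r = rp D k + (N : D.O) * z by ring]
        conv_rhs => rw [← cls_rp (D := D) (N := N) k]
        exact cls_eq.2 ⟨z, rfl⟩
      right_inv := fun k => by
        obtain ⟨z, hz⟩ := key (rp D k - r)
        show cls N (rp D (cls N (rp D k - r)) + r) = k
        rw [hz, show rp D k - r + (N : D.O) * z + r = rp D k + (N : D.O) * z by ring]
        conv_rhs => rw [← cls_rp (D := D) (N := N) k]
        exact cls_eq.2 ⟨z, rfl⟩ }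
  refine Fintype.sum_equiv e _ _ fun k => ?_
  obtain ⟨z, hz⟩ := key (rp D k + r)
  show a (rp D k + r) = a (rp D (cls N (rp D k + r)))
  rw [hz, ha]

open Classical in
private def ic (X : Ideal D.O) (x : D.O) : ℂ := if x ∈ X then 1 else 0

omit [NeZero N] in
private theorem ic_congr {X : Ideal D.O} {x y : D.O} (h : x ∈ X ↔ y ∈ X) : ic X x = ic X y := by
  classical
  unfold ic
  exact if_congr h rfl rfl

omit [NeZero N] in
private theorem ic_per {X : Ideal D.O} (hN : (N : D.O) ∈ X) : Pe N (ic X) := by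
  classical
  intro x y
  unfold ic
  have h : x + (N : D.O) * y ∈ X ↔ x ∈ X := by
    constructor
    · intro h
      have := X.sub_mem h (X.mul_mem_right y hN)
      rwa [add_sub_cancel_right] at this
    · intro h
      exact X.add_mem h (X.mul_mem_right y hN)
  exact if_congr h rfl rfl

/-- the density of an ideal -/
private theorem xl_ix {X : Ideal D.O} (hX : X ≠ ⊥) (hN : (N : D.O) ∈ X) :
    ((ni X : ℕ) : ℂ) * ∑ k : UNL.G N, ic X (rp D k) = (N : ℂ) ^ 2 := by
  classical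
  have h0 : ni X ≠ 0 := ni_ne.2 hX
  have hfin : Finite (D.O ⧸ X) := Nat.finite_of_card_ne_zero h0
  have := Fintype.ofFinite (D.O ⧸ X)
  have h1 : ∀ c : D.O ⧸ X, ∑ k : UNL.G N, (if Ideal.Quotient.mk X (rp D k) = c then (1 : ℂ) else 0) =
      ∑ k : UNL.G N, ic X (rp D k) := by
    intro c
    obtain ⟨r, rfl⟩ := Ideal.Quotient.mk_surjective c
    rw [← xl_sh (ic_per hN) (-r)]
    refine Finset.sum_congr rfl fun k _ => ?_
    unfold ic
    refine if_congr ?_ rfl rfl
    rw [Ideal.Quotient.eq, sub_eq_add_neg]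
  have h2 : ∑ c : D.O ⧸ X, ∑ k : UNL.G N,
      (if Ideal.Quotient.mk X (rp D k) = c then (1 : ℂ) else 0) = (N : ℂ) ^ 2 := by
    rw [Finset.sum_comm]
    simp only [Finset.sum_ite_eq, Finset.mem_univ, if_true]
    rw [Finset.sum_const, Finset.card_univ, nsmul_eq_mul, mul_one]
    have h3 : Fintype.card (UNL.G N) = N * N := by
      show Fintype.card (ZMod N × ZMod N) = N * N
      rw [Fintype.card_prod, ZMod.card]
    rw [h3]
    push_cast
    ring
  rw [Finset.sum_congr rfl fun c _ => h1 c, Finset.sum_const, Finset.card_univ, nsmul_eq_mul] at h2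
  have h4 : ni X = Fintype.card (D.O ⧸ X) := Nat.card_eq_fintype_card
  rw [h4]
  exact h2

end mean

end ana

section ded

variable {D : RNP.OD} [IsDedekindDomain D.O] {F : Ideal D.O}

/-- equidistribution -/
private theorem xl_eq {N : ℕ} [NeZero N] {J G : Ideal D.O} (hJ : J ≠ ⊥) (hG : G ≠ ⊥) (hF : F ≠ ⊥)
    (hc : IsCoprime J F) {h : D.O → ℂ} (h1 : ∀ y, y ∉ G → h y = 0)
    (h2 : ∀ y z, z ∈ G * F → h (y + z) = h y) (hN : (N : D.O) ∈ J * G * F) :
    ((ni J : ℕ) : ℂ) * ∑ k : UNL.G N, ic (J * G) (rp D k) * h (rp D k) =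
      ∑ k : UNL.G N, h (rp D k) := by
  have le1 : J * G * F ≤ J * G := Ideal.mul_le_left
  have le2 : J * G * F ≤ G * F := by
    rw [mul_assoc]
    exact Ideal.mul_le_right
  have hNX : (N : D.O) ∈ J * G := le1 hN
  have hNY : (N : D.O) ∈ G * F := le2 hN
  have hph : Pe N h := fun x y => h2 x _ ((G * F).mul_mem_right y hNY)
  have hpX : Pe N (fun x => ic (J * G) x * h x) := fun x y => by
    show ic (J * G) (x + (N : D.O) * y) * h (x + (N : D.O) * y) = ic (J * G) x * h x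
    rw [ic_per hNX x y, hph x y]
  obtain ⟨j, hj, f, hf, hjf⟩ : ∃ j ∈ J, ∃ f ∈ F, j + f = 1 := by
    have := Ideal.isCoprime_iff_exists.1 hc
    exact this
  -- the intersection
  have hint : ∀ x : D.O, x ∈ J * G → x ∈ G * F → x ∈ J * G * F := by
    intro x hx hy
    have e : x = x * j + x * f := by rw [← mul_add, hjf, mul_one]
    rw [e]
    refine (J * G * F).add_mem ?_ ?_
    · have : x * j ∈ (G * F) * J := Ideal.mul_mem_mul hy hj
      rwa [show G * F * J = J * G * F by ring] at this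
    · exact Ideal.mul_mem_mul hx hf
  have hA : ∑ l : UNL.G N, ∑ k : UNL.G N, ic (G * F) (rp D l) *
      (ic (J * G) (rp D k + rp D l) * h (rp D k + rp D l)) =
      (∑ l : UNL.G N, ic (G * F) (rp D l)) *
        ∑ k : UNL.G N, ic (J * G) (rp D k) * h (rp D k) := by
    rw [Finset.sum_mul]
    refine Finset.sum_congr rfl fun l _ => ?_
    rw [← Finset.mul_sum, xl_sh hpX (rp D l)]
  have hB : ∑ l : UNL.G N, ∑ k : UNL.G N, ic (G * F) (rp D l) *
      (ic (J * G) (rp D k + rp D l) * h (rp D k + rp D l)) =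
      (∑ l : UNL.G N, ic (J * G * F) (rp D l)) * ∑ k : UNL.G N, h (rp D k) := by
    rw [Finset.sum_comm, Finset.mul_sum]
    refine Finset.sum_congr rfl fun k _ => ?_
    by_cases hk : rp D k ∈ G
    · have e1 : ∀ l : UNL.G N, ic (G * F) (rp D l) *
          (ic (J * G) (rp D k + rp D l) * h (rp D k + rp D l)) =
          (ic (G * F) (rp D l) * ic (J * G) (rp D k + rp D l)) * h (rp D k) := by
        intro l
        by_cases hl : rp D l ∈ G * F
        · rw [h2 _ _ hl]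
          ring
        · have : ic (G * F) (rp D l) = 0 := by
            unfold ic
            rw [if_neg hl]
          rw [this]
          ring
      rw [Finset.sum_congr rfl fun l _ => e1 l, ← Finset.sum_mul]
      congr 1
      -- the shift
      set y0 : D.O := -(rp D k * f) with hy0
      have hy0F : y0 ∈ G * F := by
        rw [hy0]
        exact (G * F).neg_mem (Ideal.mul_mem_mul hk hf)
      have hx0 : rp D k + y0 ∈ J * G := by
        have : rp D k + y0 = j * rp D k := by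
          rw [hy0]
          have : rp D k = rp D k * (j + f) := by rw [hjf, mul_one]
          linear_combination (1 : D.O) * this
        rw [this]
        exact Ideal.mul_mem_mul hj hk
      have hpq : Pe N (fun x => ic (G * F) x * ic (J * G) (rp D k + x)) := fun x y => by
        show ic (G * F) (x + (N : D.O) * y) * ic (J * G) (rp D k + (x + (N : D.O) * y)) = _
        rw [ic_per hNY x y, ← add_assoc, ic_per hNX (rp D k + x) y]
      rw [← xl_sh hpq y0]
      refine Finset.sum_congr rfl fun l _ => ?_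
      have m1 : rp D l + y0 ∈ G * F ↔ rp D l ∈ G * F := (G * F).add_mem_iff_left hy0F
      have m2 : rp D k + (rp D l + y0) ∈ J * G ↔ rp D l ∈ J * G := by
        rw [show rp D k + (rp D l + y0) = rp D l + (rp D k + y0) by ring]
        exact (J * G).add_mem_iff_left hx0
      rw [ic_congr m1, ic_congr m2]
      unfold ic
      by_cases c1 : rp D l ∈ G * F
      · by_cases c2 : rp D l ∈ J * G
        · rw [if_pos c1, if_pos c2, if_pos (hint _ c2 c1), mul_one]
        · rw [if_neg c2, if_neg (fun h => c2 (le1 h)), mul_zero]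
      · rw [if_neg c1, if_neg (fun h => c1 (le2 h)), zero_mul]
    · rw [h1 _ hk, mul_zero]
      refine Finset.sum_eq_zero fun l _ => ?_
      by_cases hl : rp D l ∈ G * F
      · rw [h2 _ _ hl, h1 _ hk, mul_zero, mul_zero]
      · have : ic (G * F) (rp D l) = 0 := by
          unfold ic
          rw [if_neg hl]
        rw [this, zero_mul]
  rw [hA] at hB
  have hGF : G * F ≠ ⊥ := mul_ne_zero hG hF
  have hJGF : J * G * F ≠ ⊥ := mul_ne_zero (mul_ne_zero hJ hG) hF
  have c1 := xl_ix hGF hNY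
  have c2 := xl_ix hJGF hN
  have hnN : (N : ℂ) ≠ 0 := Nat.cast_ne_zero.2 (NeZero.ne N)
  have hnG : ((ni (G * F) : ℕ) : ℂ) ≠ 0 := Nat.cast_ne_zero.2 (ni_ne.2 hGF)
  have hnJ : ((ni J : ℕ) : ℂ) ≠ 0 := Nat.cast_ne_zero.2 (ni_ne.2 hJ)
  have e3 : ni (J * G * F) = ni J * ni (G * F) := by rw [mul_assoc, ni_mul]
  rw [e3] at c2
  push_cast at c2
  have e4 : (N : ℂ) ^ 2 * (((ni J : ℕ) : ℂ) * ∑ k : UNL.G N, ic (J * G) (rp D k) * h (rp D k)) =
      (N : ℂ) ^ 2 * ∑ k : UNL.G N, h (rp D k) := by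
    calc (N : ℂ) ^ 2 * (((ni J : ℕ) : ℂ) * ∑ k : UNL.G N, ic (J * G) (rp D k) * h (rp D k))
        = ((ni J : ℕ) : ℂ) * ((ni (G * F) : ℕ) : ℂ) * ((∑ l : UNL.G N, ic (G * F) (rp D l)) *
          ∑ k : UNL.G N, ic (J * G) (rp D k) * h (rp D k)) := by rw [← c1]; ring
      _ = ((ni J : ℕ) : ℂ) * ((ni (G * F) : ℕ) : ℂ) * ((∑ l : UNL.G N, ic (J * G * F) (rp D l)) *
          ∑ k : UNL.G N, h (rp D k)) := by rw [hB]
      _ = _ := by rw [← c2]; ring
  exact mul_left_cancel₀ (pow_ne_zero 2 hnN) e4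

variable (hF : F ≠ ⊥) (ξ : Xc D F)

include hF in
private theorem xl_vj {N : ℕ} [NeZero N] {J G : Ideal D.O} (hξ : ξ.f J ≠ 0) (hG : G ≠ ⊥)
    (hN : (N : D.O) ∈ J * G * F) (y : D.O) :
    vv ξ (J * G) y = (ξ.f J)⁻¹ * (ic (J * G) y * vv ξ G y) := by
  have hJ : J ≠ ⊥ := ((ξ.ne J).1 hξ).1
  have hJG : J * G ≠ ⊥ := mul_ne_zero hJ hG
  have le1 : J * G * F ≤ J * G := Ideal.mul_le_left
  have le2 : J * G * F ≤ G * F := by
    rw [mul_assoc]
    exact Ideal.mul_le_right
  have main : ∀ y : D.O, y ≠ 0 → y ∈ J * G →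
      vv ξ (J * G) y = (ξ.f J)⁻¹ * (ic (J * G) y * vv ξ G y) := by
    intro y hy hm
    obtain ⟨B, hB⟩ := ex_quo hm
    have e1 : vv ξ (J * G) y = ξ.f B := vv_val hF ξ hJG hy hB
    have e2 : vv ξ G y = ξ.f (J * B) := vv_val hF ξ hG hy (by rw [← hB]; ring)
    have e3 : ic (J * G) y = 1 := by
      unfold ic
      rw [if_pos hm]
    rw [e1, e2, e3, ξ.mul, one_mul, inv_mul_cancel_left₀ hξ]
  by_cases hm : y ∈ J * G
  · by_cases hy : y = 0
    · have hN0 : (N : D.O) ≠ 0 := by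
        intro h0
        have h1 : ((N : D.O) : ℂ) = 0 := by rw [h0]; rfl
        have h2 : ((N : ℕ) : ℂ) = 0 := by
          rw [← h1]
          push_cast
          rfl
        exact Nat.cast_ne_zero.2 (NeZero.ne N) h2
      have m := main (N : D.O) hN0 (le1 hN)
      have e1 : vv ξ (J * G) (N : D.O) = vv ξ (J * G) y := by
        rw [hy]
        exact vv_per ξ (by rw [sub_zero]; exact hN)
      have e2 : vv ξ G (N : D.O) = vv ξ G y := by
        rw [hy]
        exact vv_per ξ (by rw [sub_zero]; exact le2 hN)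
      have e3 : ic (J * G) (N : D.O) = ic (J * G) y := by
        unfold ic
        rw [if_pos (le1 hN), if_pos hm]
      rw [e1, e2, e3] at m
      exact m
    · exact main y hy hm
  · rw [vv_out ξ hm]
    have e3 : ic (J * G) y = 0 := by
      unfold ic
      rw [if_neg hm]
    rw [e3, zero_mul, mul_zero]

omit [IsDedekindDomain D.O] in
private theorem xl_du {N : ℕ} [NeZero N] (a : D.O → ℂ) :
    du N a 0 = 1 / (N : ℂ) * ∑ k : UNL.G N, a (rp D k) := by
  unfold du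
  congr 1
  refine Finset.sum_congr rfl fun k _ => ?_
  rw [ZeroMemClass.coe_zero, zero_mul, pss_zero, mul_one]

omit [IsDedekindDomain D.O] in
private theorem xl_nz {G : Ideal D.O} (hG : G ≠ ⊥) : NeZero (ni G) := ⟨ni_ne.2 hG⟩

include hF in
private theorem xl_ex {G : Ideal D.O} (hG : G ≠ ⊥) : ∃ κ, As (vv ξ G) κ := by
  have hGF : G * F ≠ ⊥ := mul_ne_zero hG hF
  have := xl_nz hGF
  exact ⟨_, xl_as (N := ni (G * F)) (vv_Pe ξ (ni_mem _))⟩

include hF in
private theorem xl_J {J G : Ideal D.O} (hξ : ξ.f J ≠ 0) (hG : G ≠ ⊥) {κ : ℂ}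
    (h : As (vv ξ G) κ) : As (vv ξ (J * G)) (κ * (ξ.f J)⁻¹ / ni J) := by
  obtain ⟨hJ, hc⟩ := (ξ.ne J).1 hξ
  have hJGF : J * G * F ≠ ⊥ := mul_ne_zero (mul_ne_zero hJ hG) hF
  have := xl_nz hJGF
  set N := ni (J * G * F) with hNd
  have hN : (N : D.O) ∈ J * G * F := ni_mem _
  have hN' : (N : D.O) ∈ G * F := by
    have le2 : J * G * F ≤ G * F := by
      rw [mul_assoc]
      exact Ideal.mul_le_right
    exact le2 hN
  have a1 := xl_as (N := N) (vv_Pe ξ hN')
  have a2 := xl_as (N := N) (vv_Pe ξ hN)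
  have e1 := xl_uniq h a1
  have hnJ : ((ni J : ℕ) : ℂ) ≠ 0 := Nat.cast_ne_zero.2 (ni_ne.2 hJ)
  have e2 : ((xk D N : ℝ) : ℂ) * du N (vv ξ (J * G)) 0 = κ * (ξ.f J)⁻¹ / ni J := by
    rw [e1, xl_du, xl_du]
    have e3 := xl_eq (N := N) hJ hG hF hc (h := vv ξ G) (fun y hy => vv_out ξ hy)
      (fun y z hz => vv_per ξ (by rw [add_sub_cancel_left]; exact hz)) hN
    have e4 : ∑ k : UNL.G N, vv ξ (J * G) (rp D k) =
        (ξ.f J)⁻¹ * ∑ k : UNL.G N, ic (J * G) (rp D k) * vv ξ G (rp D k) := by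
      rw [Finset.mul_sum]
      exact Finset.sum_congr rfl fun k _ => xl_vj hF ξ hξ hG hN _
    rw [e4, ← e3]
    field_simp
  rw [← e2]
  exact a2

include hF in
private theorem xl_q {G : Ideal D.O} (hG : G ≠ ⊥) {q : D.O} (hq : q ≠ 0) {κ : ℂ}
    (h : As (vv ξ G) κ) : As (vv ξ (Ideal.span {q} * G)) (κ / nn D q) := by
  have hqc : ((nn D q : ℕ) : ℂ) ≠ 0 := by
    have : nn D q ≠ 0 := fun h0 => hq (nn_eq_zero.1 h0)
    exact_mod_cast this
  refine xl_scale hq (fun z => ?_) (fun y hy => ?_) h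
  · have h1 := vv_T hF ξ hG hq (q * z)
    rw [Tf_mul hq] at h1
    exact (mul_left_cancel₀ hqc h1).symm
  · have h1 := vv_T hF ξ hG hq y
    rw [Tf_out hy] at h1
    exact (mul_eq_zero.1 h1.symm).resolve_left hqc

include hF in
private theorem xl_zero (hn : ξ.Nt) (S : Rp D 1) {κ : Ideal D.O → ℂ}
    (hκ : ∀ G, G ≠ ⊥ → As (vv ξ G) (κ G)) : ∑ I ∈ S.s, ((ni I : ℕ) : ℂ) * κ I = 0 := by
  classical
  obtain ⟨J, hJ0, hJ1⟩ := hn
  obtain ⟨hJ, hc⟩ := (ξ.ne J).1 hJ0
  have hS : ∀ I ∈ S.s, I ≠ ⊥ := fun I hI => (S.cp I hI).1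
  have hnJ : ((ni J : ℕ) : ℂ) ≠ 0 := Nat.cast_ne_zero.2 (ni_ne.2 hJ)
  -- invariance under principal ideals
  have hq : ∀ G : Ideal D.O, G ≠ ⊥ → ∀ q : D.O, q ≠ 0 →
      ((ni (Ideal.span {q} * G) : ℕ) : ℂ) * κ (Ideal.span {q} * G) = ((ni G : ℕ) : ℂ) * κ G := by
    intro G hG q hq
    have hqG : Ideal.span {q} * G ≠ ⊥ := mul_ne_zero (fun h => hq (Ideal.span_singleton_eq_bot.1 h)) hG
    have e1 := xl_uniq (hκ _ hqG) (xl_q hF ξ hG hq (hκ G hG))
    have hqc : ((nn D q : ℕ) : ℂ) ≠ 0 := by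
      have : nn D q ≠ 0 := fun h0 => hq (nn_eq_zero.1 h0)
      exact_mod_cast this
    rw [e1, ni_mul, ni_span]
    push_cast
    field_simp
  have hcl : ∀ G G' : Ideal D.O, G ≠ ⊥ → G' ≠ ⊥ → Ie G G' →
      ((ni G : ℕ) : ℂ) * κ G = ((ni G' : ℕ) : ℂ) * κ G' := by
    rintro G G' hG hG' ⟨x, y, hx, hy, hxy⟩
    rw [← hq G hG x hx, hxy, hq G' hG' y hy]
  have hmJ : ∀ G : Ideal D.O, G ≠ ⊥ → ((ni (J * G) : ℕ) : ℂ) * κ (J * G) =
      (ξ.f J)⁻¹ * (((ni G : ℕ) : ℂ) * κ G) := by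
    intro G hG
    have hJG : J * G ≠ ⊥ := mul_ne_zero hJ hG
    have e1 := xl_uniq (hκ _ hJG) (xl_J hF ξ hJ0 hG (hκ G hG))
    rw [e1, ni_mul]
    push_cast
    field_simp
  choose! σ hσ hσ' using fun (I : Ideal D.O) (hI : I ≠ ⊥) => S.ex (J * I) (mul_ne_zero hJ hI)
  have hinj : ∀ I ∈ S.s, ∀ I' ∈ S.s, σ I = σ I' → I = I' := by
    intro I hI I' hI' h
    refine S.un I hI I' hI' ?_
    have h1 := hσ' I (hS I hI)
    have h2 := hσ' I' (hS I' hI')
    rw [← h] at h2
    obtain ⟨x, y, hx, hy, hxy⟩ := ie_trans h1 (ie_symm h2)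
    refine ⟨x, y, hx, hy, ?_⟩
    have h3 : J * (Ideal.span {x} * I) = J * (Ideal.span {y} * I') := by
      rw [mul_left_comm, hxy, mul_left_comm]
    exact mul_left_cancel₀ hJ h3
  have himg : S.s.image σ = S.s := by
    refine Finset.eq_of_subset_of_card_le ?_ ?_
    · intro I hI
      obtain ⟨I', hI', rfl⟩ := Finset.mem_image.1 hI
      exact hσ I' (hS I' hI')
    · rw [Finset.card_image_of_injOn fun I hI I' hI' h => hinj I hI I' hI' h]
  have e1 : ∑ I ∈ S.s, ((ni I : ℕ) : ℂ) * κ I =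
      (ξ.f J)⁻¹ * ∑ I ∈ S.s, ((ni I : ℕ) : ℂ) * κ I := by
    conv_lhs => rw [← himg]
    rw [Finset.sum_image fun I hI I' hI' h => hinj I hI I' hI' h, Finset.mul_sum]
    refine Finset.sum_congr rfl fun I hI => ?_
    have hI0 := hS I hI
    rw [← hmJ I hI0]
    exact (hcl _ _ (mul_ne_zero hJ hI0) (hS _ (hσ I hI0)) (hσ' I hI0)).symm
  have e2 : (1 - (ξ.f J)⁻¹) * ∑ I ∈ S.s, ((ni I : ℕ) : ℂ) * κ I = 0 := by
    rw [sub_mul, one_mul]
    exact sub_eq_zero.2 e1
  refine (mul_eq_zero.1 e2).resolve_left fun h => hJ1 ?_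
  have h3 : (ξ.f J)⁻¹ = 1 := (sub_eq_zero.1 h).symm
  rw [← inv_inv (ξ.f J), h3, inv_one]

theorem heat_summable (hF : F ≠ ⊥) (ξ : Xc D F) {τ : ℝ} (hτ : 0 < τ) :
    Summable (fun I : Ideal D.O => ξ.f I * ((Real.exp (-τ * ni I) / ni I : ℝ) : ℂ)) := by
  have hs := (ni_summable (D := D) (s := 2) (by norm_num)).mul_left (1 / τ)
  refine Summable.of_norm_bounded hs fun I => ?_
  by_cases h0 : ξ.f I = 0
  · rw [h0, zero_mul, norm_zero]
    positivity
  · have hI : I ≠ ⊥ := ((ξ.ne I).1 h0).1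
    have hp : (0 : ℝ) < ni I := Nat.cast_pos.2 (Nat.pos_of_ne_zero (ni_ne.2 hI))
    rw [norm_mul, xc_norm hF ξ h0, one_mul, Complex.norm_real, Real.norm_of_nonneg (by positivity),
      Real.rpow_neg hp.le, Real.rpow_two, neg_mul, Real.exp_neg, div_le_iff₀ hp]
    have h1 : τ * ni I ≤ Real.exp (τ * ni I) := by
      have := Real.add_one_le_exp (τ * ni I)
      linarith
    have h2 : 0 < τ * ni I := by positivity
    calc (Real.exp (τ * ni I))⁻¹ ≤ (τ * ni I)⁻¹ := inv_anti₀ h2 h1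
      _ = 1 / τ * ((ni I : ℝ) ^ 2)⁻¹ * ni I := by field_simp

theorem heat_lim (hF : F ≠ ⊥) (ξ : Xc D F) (hn : ξ.Nt) :
    ∃ v : ℂ, Tendsto (heat ξ) (𝓝[>] 0) (𝓝 v) := by
  classical
  obtain ⟨S⟩ := rp_ex (D := D) one_pos
  have hS : ∀ I ∈ S.s, I ≠ ⊥ := fun I hI => (S.cp I hI).1
  choose! κ hκ using fun (G : Ideal D.O) (hG : G ≠ ⊥) => xl_ex hF ξ hG
  have hz := xl_zero hF ξ hn S hκ
  have hw : ((wn D : ℕ) : ℂ) ≠ 0 := Nat.cast_ne_zero.2 (wn_pos (D := D)).ne'
  -- the heat sum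
  have hheat : ∀ τ : ℝ, 0 < τ → heat ξ τ =
      (∑ I ∈ S.s, ((ni I : ℕ) : ℂ) * Hs (vv ξ I) (τ / ni I)) / (wn D : ℂ) := by
    intro τ hτ
    have h0 : ξ.f ⊥ * ((Real.exp (-τ * ni (⊥ : Ideal D.O)) / ni (⊥ : Ideal D.O) : ℝ) : ℂ) = 0 := by
      rw [xc_bot, zero_mul]
    obtain ⟨-, h1⟩ := class_sum S (heat_summable hF ξ hτ) h0
      (g := fun I x => ((ni I : ℕ) : ℂ) *
        (vv ξ I x * ((Real.exp (-(τ / ni I) * nn D x) / nn D x : ℝ) : ℂ))) (by
        rintro I hI x (rfl | hx)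
        · rw [xl_nn0, Nat.cast_zero, div_zero, Complex.ofReal_zero, mul_zero, mul_zero]
        · show ((ni I : ℕ) : ℂ) * (vv ξ I x * _) = 0
          rw [vv_out ξ hx, zero_mul, mul_zero]) (by
        intro I hI x b hx hb
        show ((ni I : ℕ) : ℂ) * (vv ξ I x * ((Real.exp (-(τ / ni I) * nn D x) / nn D x : ℝ) : ℂ)) =
          ξ.f b * ((Real.exp (-τ * ni b) / ni b : ℝ) : ℂ)
        have e1 : vv ξ I x = ξ.f b := vv_val hF ξ (hS I hI) hx hb
        have e2 : nn D x = ni I * ni b := by rw [← ni_span, ← hb, ni_mul]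
        have hp : (0 : ℝ) < ni I := Nat.cast_pos.2 (Nat.pos_of_ne_zero (ni_ne.2 (hS I hI)))
        rw [e1, e2]
        rw [show -(τ / ni I) * ((ni I * ni b : ℕ) : ℝ) = -τ * ni b by push_cast; field_simp]
        have hpc : ((ni I : ℕ) : ℂ) ≠ 0 := Nat.cast_ne_zero.2 (ni_ne.2 (hS I hI))
        push_cast
        by_cases hb0 : ((ni b : ℕ) : ℂ) = 0
        · rw [hb0]
          simp
        · field_simp)
    have h2 : ∑ I ∈ S.s, ((ni I : ℕ) : ℂ) * Hs (vv ξ I) (τ / ni I) = wn D * heat ξ τ := by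
      unfold heat
      rw [← h1]
      refine Finset.sum_congr rfl fun I hI => ?_
      unfold Hs
      rw [← tsum_mul_left]
    rw [h2, mul_div_cancel_left₀ _ hw]
  -- the limits
  have hlim : ∀ I ∈ S.s, ∃ v : ℂ, Tendsto (fun τ : ℝ => ((ni I : ℕ) : ℂ) *
      Hs (vv ξ I) (τ / ni I) + (((ni I : ℕ) : ℂ) * κ I) * ((Real.log τ : ℝ) : ℂ))
      (𝓝[>] 0) (𝓝 v) := by
    intro I hI
    obtain ⟨v, hv⟩ := hκ I (hS I hI)
    have hp : (0 : ℝ) < ni I := Nat.cast_pos.2 (Nat.pos_of_ne_zero (ni_ne.2 (hS I hI)))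
    have h5 : Tendsto (fun τ : ℝ => τ / (ni I : ℝ)) (𝓝[>] 0) (𝓝[>] 0) := by
      refine tendsto_nhdsWithin_iff.2 ⟨?_, ?_⟩
      · have h6 : Tendsto (fun τ : ℝ => τ / (ni I : ℝ)) (𝓝 0) (𝓝 (0 / (ni I : ℝ))) :=
          (continuous_id.div_const (ni I : ℝ)).tendsto 0
        rw [zero_div] at h6
        exact h6.mono_left nhdsWithin_le_nhds
      · filter_upwards [self_mem_nhdsWithin] with τ hτ
        exact div_pos hτ hp
    refine ⟨((ni I : ℕ) : ℂ) * (v + κ I * ((Real.log (ni I) : ℝ) : ℂ)), ?_⟩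
    have h6 := ((hv.comp h5).add_const (κ I * ((Real.log (ni I) : ℝ) : ℂ))).const_mul
      ((ni I : ℕ) : ℂ)
    refine h6.congr' ?_
    filter_upwards [self_mem_nhdsWithin] with τ hτ
    have hτ' : 0 < τ := hτ
    simp only [Function.comp_apply]
    rw [Real.log_div hτ'.ne' hp.ne']
    push_cast
    ring
  choose! v hv using hlim
  have hsum := tendsto_finsetSum S.s hv
  refine ⟨(∑ I ∈ S.s, v I) / (wn D : ℂ), ?_⟩
  refine (hsum.div_const (wn D : ℂ)).congr' ?_
  filter_upwards [self_mem_nhdsWithin] with τ hτ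
  rw [hheat τ hτ, Finset.sum_add_distrib, ← Finset.sum_mul, hz, zero_mul, add_zero]

end ded

end

end RNG
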