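import Pool.Agent.RNG.Xv
import Pool.Agent.NVR.NonVan

/-!
# RNG.Xn: a lower bound for `L(s, ξ)` near `s = 1`

The library `Pool.NVR` (`NVR/NonVan`, `NVR/Euler`) has for number fields `K` of type `Type`: `PS_lower`: for a non trivial ray class character `χ` (`IsRayClassChar K m χ`) the
prime sum `PS χ s` is bounded below for `s → 1+`, and `log_LL`: `|log ‖LL χ s‖ - PS χ s| ≤ ZZ K 2` for `CM χ` and `s > 1` (`cm_of_ray`). So `‖LL χ s‖ ≥ c > 0`.
`LL χ s = Σ_I χ(I) N(I)^(-s)`, the sum over the ideals of `𝓞 K`.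
Apply it to `K = D.K` (a subfield of `ℂ`, `RNK.Fld D.a`), a number field: it is generated over `ℚ` by `ω` (`[K : ℚ] = 2`). `D.O` is integrally closed (Dedekind) with fraction field
`D.K`, every element of `D.O` is integral over `ℤ`, so `𝓞 K ≃+* D.O` (`IsIntegralClosure`; every element of `D.K` is `x / m`, `x ∈ D.O`, `m` a natural number; see the definition of `Fld`).
`χ(I) = ξ(image of I)`, `m` the ideal corresponding to `F`; `ni` corresponds to `Ideal.absNorm` (`Submodule.cardQuot_apply`). `map_ray` from `ray` (`y = 1`, `TotPos` is not needed),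
`ξ ⊤ = 1`.
-/

open RNK Filter Topology

namespace RNG

noncomputable section

namespace XnL

/-! ### the number field -/

theorem Ord_le_Fld (a : UNI.Par) {z : ℂ} (h : z ∈ Ord a) : z ∈ Fld a :=
  mem_Fld.2 ⟨1, one_pos, by simpa using h⟩

theorem om_Ord (a : UNI.Par) : UNI.om a ∈ Ord a :=
  mem_Ord.2 ⟨(0, 1), by simp [UNI.xx]⟩

theorem chz (a : UNI.Par) : CharZero (Fld a) := by
  refine ⟨fun m n h => ?_⟩
  have h1 := congrArg (fun x : Fld a => (x : ℂ)) h
  simpa using h1

attribute [local instance] chz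

/-- the generator as an element of the field -/
def omK (a : UNI.Par) : Fld a := ⟨UNI.om a, Ord_le_Fld a (om_Ord a)⟩

theorem fin_Fld (a : UNI.Par) : FiniteDimensional ℚ (Fld a) := by
  refine FiniteDimensional.of_surjective ((LinearMap.toSpanSingleton ℚ (Fld a) 1).coprod
    (LinearMap.toSpanSingleton ℚ (Fld a) (omK a))) fun x => ?_
  obtain ⟨n, hn, m, hm⟩ := mem_Fld.1 x.2
  have hn' : (n : ℂ) ≠ 0 := by exact_mod_cast hn.ne'
  refine ⟨((m.1 : ℚ) / n, (m.2 : ℚ) / n), ?_⟩
  apply Subtype.ext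
  rw [LinearMap.coprod_apply, LinearMap.toSpanSingleton_apply, LinearMap.toSpanSingleton_apply]
  rw [Algebra.smul_def, Algebra.smul_def, mul_one]
  push_cast
  have e : (x : ℂ) = (m.1 + m.2 * UNI.om a) / n := by
    rw [eq_div_iff hn', mul_comm, hm]
    rfl
  rw [e]
  simp [omK]
  field_simp

theorem nf_Fld (a : UNI.Par) : NumberField (Fld a) where
  to_charZero := chz a
  to_finiteDimensional := fin_Fld a

attribute [local instance] nf_Fld

/-- the inclusion of the order in the field -/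
def inK (D : RNP.OD) : D.O →+* D.K where
  toFun x := ⟨(x : ℂ), Ord_le_Fld D.a x.2⟩
  map_one' := rfl
  map_mul' _ _ := rfl
  map_zero' := rfl
  map_add' _ _ := rfl

theorem inK_inj (D : RNP.OD) : Function.Injective (inK D) := fun _ _ h =>
  Subtype.ext (congrArg (fun z : D.K => (z : ℂ)) h)

/-- the generator as an element of the order -/
def omO (D : RNP.OD) : D.O := ⟨UNI.om D.a, om_Ord D.a⟩

theorem fin_O (D : RNP.OD) : Module.Finite ℤ D.O := by
  refine Module.Finite.of_surjective ((LinearMap.toSpanSingleton ℤ D.O 1).coprod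
    (LinearMap.toSpanSingleton ℤ D.O (omO D))) fun x => ?_
  obtain ⟨m, hm⟩ := x.2
  refine ⟨m, ?_⟩
  rw [LinearMap.coprod_apply, LinearMap.toSpanSingleton_apply, LinearMap.toSpanSingleton_apply,
    zsmul_eq_mul, zsmul_eq_mul, mul_one]
  apply Subtype.ext
  rw [hm]
  rfl

theorem omO_int (D : RNP.OD) (x : D.O) : IsIntegral ℤ x := by
  have := fin_O D
  exact Algebra.IsIntegral.isIntegral x

theorem clo (D : RNP.OD) [IsDedekindDomain D.O] :
    Nonempty (NumberField.RingOfIntegers D.K ≃+* D.O) := by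
  let _ : Algebra D.O D.K := (inK D).toAlgebra
  have hinj : Function.Injective (algebraMap D.O D.K) := inK_inj D
  have : FaithfulSMul D.O D.K := (faithfulSMul_iff_algebraMap_injective D.O D.K).2 hinj
  have : IsFractionRing D.O D.K := by
    refine IsFractionRing.of_field D.O D.K fun z => ?_
    obtain ⟨n, hn, hz⟩ := mem_Fld.1 z.2
    refine ⟨⟨_, hz⟩, (n : D.O), ?_⟩
    have hn' : (n : ℂ) ≠ 0 := by exact_mod_cast hn.ne'
    apply Subtype.ext
    show (z : ℂ) = ((((inK D) ⟨_, hz⟩) / ((inK D) (n : D.O)) : D.K) : ℂ)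
    rw [map_natCast]
    push_cast
    show (z : ℂ) = (n * z) / n
    field_simp
  have : IsScalarTower ℤ D.O D.K := IsScalarTower.of_algebraMap_eq fun n => by
    rw [eq_intCast, eq_intCast, map_intCast]
  have : IsIntegralClosure D.O ℤ D.K := by
    refine ⟨hinj, fun {x} => ⟨fun hx => ?_, ?_⟩⟩
    · have h1 : IsIntegral D.O x := hx.tower_top
      exact IsIntegrallyClosed.algebraMap_eq_of_integral h1
    · rintro ⟨y, rfl⟩
      exact (omO_int D y).algebraMap
  exact ⟨NumberField.RingOfIntegers.equiv D.O⟩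

/-! ### transfer -/

section tr

open NumberField

variable {D : RNP.OD} (e : 𝓞 D.K ≃+* D.O)

/-- the bijection of the ideals -/
def eI : Ideal (𝓞 D.K) ≃ Ideal D.O where
  toFun I := I.map e
  invFun I := I.map e.symm
  left_inv I := by
    show Ideal.map e.symm (Ideal.map e I) = I
    exact Ideal.map_of_equiv e
  right_inv I := by
    show Ideal.map e (Ideal.map e.symm I) = I
    exact Ideal.map_of_equiv e.symm

theorem eI_mul (I J : Ideal (𝓞 D.K)) : eI e (I * J) = eI e I * eI e J := Ideal.map_mul _ I J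

theorem eI_bot {I : Ideal (𝓞 D.K)} : eI e I = ⊥ ↔ I = ⊥ :=
  Ideal.map_eq_bot_iff_of_injective e.injective

theorem eI_top : eI e ⊤ = ⊤ := Ideal.map_top _

theorem eI_sup (I J : Ideal (𝓞 D.K)) : eI e (I ⊔ J) = eI e I ⊔ eI e J := Ideal.map_sup _ I J

theorem eI_cop {I J : Ideal (𝓞 D.K)} : IsCoprime (eI e I) (eI e J) ↔ IsCoprime I J := by
  rw [Ideal.isCoprime_iff_sup_eq, Ideal.isCoprime_iff_sup_eq, ← eI_sup]
  constructor
  · intro h
    apply (eI e).injective
    rw [h, eI_top]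
  · intro h
    rw [h, eI_top]

theorem eI_span (x : 𝓞 D.K) : eI e (Ideal.span {x}) = Ideal.span {e x} := by
  show Ideal.map e (Ideal.span {x}) = _
  rw [Ideal.map_span, Set.image_singleton]

theorem eI_mem {x : 𝓞 D.K} {I : Ideal (𝓞 D.K)} (h : x ∈ I) : e x ∈ eI e I :=
  Ideal.mem_map_of_mem e h

theorem eI_nm [IsDedekindDomain D.O] (I : Ideal (𝓞 D.K)) : ni (eI e I) = Ideal.absNorm I := by
  rw [ni, Ideal.absNorm_apply, Submodule.cardQuot_apply]
  exact Nat.card_congr (Ideal.quotientEquiv I (eI e I) e rfl).symm.toEquiv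

end tr

end XnL

attribute [local instance] XnL.chz XnL.nf_Fld

open XnL

variable {D : RNP.OD} [IsDedekindDomain D.O] {F : Ideal D.O}

theorem L_lower (hF : F ≠ ⊥) (ξ : Xc D F) (hn : ξ.Nt) : ∃ c : ℝ, 0 < c ∧
    ∀ᶠ s : ℝ in 𝓝[>] 1,
      c ≤ ‖∑' I : Ideal D.O, ξ.f I * ((((ni I : ℕ) : ℝ) ^ (-s) : ℝ) : ℂ)‖ := by
  obtain ⟨e⟩ := clo D
  set m : Ideal (NumberField.RingOfIntegers D.K) := (eI e).symm F with hm
  have hmF : eI e m = F := (eI e).apply_symm_apply F
  have hm0 : m ≠ ⊥ := fun h => hF (by rw [← hmF]; exact (eI_bot e).2 h)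
  set χ : Ideal (NumberField.RingOfIntegers D.K) → ℂ := fun I => ξ.f (eI e I) with hχ
  have hray : Pool.HRC.IsRayClassChar D.K m χ :=
    { map_one := by
        show ξ.f (eI e 1) = 1
        rw [Ideal.one_eq_top, eI_top]
        exact xc_top ξ
      map_mul := fun I J => by
        show ξ.f (eI e (I * J)) = _
        rw [eI_mul, ξ.mul]
      ne_zero_iff := fun I => by
        show ξ.f (eI e I) ≠ 0 ↔ _
        rw [ξ.ne, ← eI_cop e, hmF, Ne, Ne, eI_bot]
      map_ray := fun x hx h1 _ => by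
        show ξ.f (eI e (Ideal.span {x})) = 1
        rw [eI_span, ξ.ray (e x) 1 ?_ one_ne_zero ?_]
        · rw [Ideal.span_singleton_one]
          exact xc_top ξ
        · rw [Ne, map_eq_zero_iff _ e.injective]
          exact hx
        · have h2 := eI_mem e h1
          rwa [hmF, map_sub, map_one] at h2 }
  have hnt : ∃ I : Ideal (NumberField.RingOfIntegers D.K), χ I ≠ 0 ∧ χ I ≠ 1 := by
    obtain ⟨I, h1, h2⟩ := hn
    refine ⟨(eI e).symm I, ?_, ?_⟩
    · show ξ.f (eI e ((eI e).symm I)) ≠ 0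
      rwa [Equiv.apply_symm_apply]
    · show ξ.f (eI e ((eI e).symm I)) ≠ 1
      rwa [Equiv.apply_symm_apply]
  obtain ⟨C, hC⟩ := Pool.NVR.PS_lower (⟨m, mem_nonZeroDivisors_of_ne_zero hm0⟩) χ hray hnt
  have hcm := Pool.NVR.cm_of_ray (m := ⟨m, mem_nonZeroDivisors_of_ne_zero hm0⟩) hray
  refine ⟨Real.exp (-C - Pool.Agent.Lib.Dedekind.ZZ D.K 2), Real.exp_pos _, ?_⟩
  filter_upwards [hC, self_mem_nhdsWithin] with s h1 hs
  have hs1 : (1 : ℝ) < s := hs
  have h2 := (abs_le.1 (Pool.NVR.log_LL hcm hs1)).1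
  have h3 := Pool.NVR.LL_ne_zero hcm hs1
  have e1 : ∑' I : Ideal D.O, ξ.f I * ((((ni I : ℕ) : ℝ) ^ (-s) : ℝ) : ℂ) = Pool.NVR.LL χ s := by
    rw [Pool.NVR.LL, ← (eI e).tsum_eq]
    refine tsum_congr fun I => ?_
    rw [eI_nm]
    rfl
  rw [e1, ← Real.exp_log (norm_pos_iff.2 h3)]
  refine Real.exp_le_exp.2 ?_
  linarith

end

end RNG
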