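import Pool.Agent.RNG.Xe
import Pool.Agent.RNG.Xb
import Pool.Agent.RNG.Xl
import Pool.Agent.RNG.Xa
import Pool.Agent.RNG.Xn

/-!
# RNG.Xf: the coefficients (stub; prove ALL sorries)

* `heat_sum`: for `B ∈ S`, `0 ≠ y ∈ B`, `(y) = B P`, `G ∈ s`: `N ∈ G`, `B` is prime to `G` and to `F`. `G` divides `(y)` iff `G` divides `P`; if `P = G C`:
  `vv ξ G y = ξ(B C) = ξ(B) ξ(C)` (`vv_val`), otherwise `0` (`vv_out`). `ω(B) ω(P) = 1`, `ni B / nn y = 1 / ni P`. So the left hand side is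
  `Σ_B Σ_y Φ(P)`, `Φ(P) = ω(P) Σ_G b(G) ni(G) [G ∣ P] ξ(P / G) exp (-τ ni P) / ni P`, which is `wn Σ_P Φ(P)` by `class_sum` (`heat_summable`), and `P = G C`:
  `Σ_P Φ(P) = Σ_G b(G) ω(G) Σ_C ξ(C) ω(C) exp (-τ ni G ni C) / ni C`.
* `coef_zero`: if `ξ.tw ω` is not trivial: let `τ → 0` in `heat_sum` (`hz` for `τ / ni B`; `heat_ne`): `0 = wn (Σ b(G) ω(G)) v`.
  If `ξ.tw ω` is trivial: `χ(x) = ξ((x)) ω((x)) = 1` for all `x ≠ 0` prime to `N` (for `x = 0` prime to `N`: `N` is a unit, `χ(0) = χ(N) = 1`), so `Fac χ ⊤`, `F = ⊤` (`min`);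
  `ξ(G) ω(G) = 1`, so by `vv_top` `vv ξ G y = [y ∈ G] ω(G)`. The number of `k` with `rp k ∈ G` is `N² / ni G` (`N ∈ G`; the homomorphism `O / N → O / G` is onto). So
  `0 = Σ_k g(rp k) = N² Σ_G b(G) ω(G)`.
-/

open RNK Filter Topology

namespace RNG

noncomputable section

variable {D : RNP.OD} [IsDedekindDomain D.O] {F : Ideal D.O}

theorem heat_ne (hF : F ≠ ⊥) (ξ : Xc D F) (hn : ξ.Nt) :
    ∃ v : ℂ, v ≠ 0 ∧ Tendsto (heat ξ) (𝓝[>] 0) (𝓝 v) := by
  obtain ⟨v, hv⟩ := heat_lim hF ξ hn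
  obtain ⟨c, hc, h⟩ := L_lower hF ξ hn
  refine ⟨v, fun h0 => ?_, hv⟩
  have h1 := (abel hF ξ hv).norm
  have h2 : c ≤ ‖v‖ := ge_of_tendsto h1 h
  rw [h0, norm_zero] at h2
  exact absurd h2 (not_le.2 hc)

variable {N : ℕ} [NeZero N]

omit [NeZero N] in
open Classical in
/-- the value at `P / G` -/
private def dq (ξ : Xc D F) (G P : Ideal D.O) : ℂ :=
  if h : ∃ C : Ideal D.O, P = G * C then ξ.f (Classical.choose h) else 0

omit [NeZero N] in
private theorem dq_mul (ξ : Xc D F) {G : Ideal D.O} (hG : G ≠ ⊥) (C : Ideal D.O) :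
    dq ξ G (G * C) = ξ.f C := by
  have h : ∃ C' : Ideal D.O, G * C = G * C' := ⟨C, rfl⟩
  unfold dq
  rw [dif_pos h]
  congr 1
  exact (mul_left_cancel₀ hG (Classical.choose_spec h)).symm

omit [IsDedekindDomain D.O] [NeZero N] in
private theorem dq_out (ξ : Xc D F) {G P : Ideal D.O} (h : ¬ ∃ C : Ideal D.O, P = G * C) :
    dq ξ G P = 0 := by
  unfold dq
  rw [dif_neg h]

omit [NeZero N] in
private theorem dq_sum (hF : F ≠ ⊥) (ξ : Xc D F) (ω : Xc D ⊤) {G : Ideal D.O} (hG : G ≠ ⊥)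
    {τ : ℝ} (hτ : 0 < τ) :
    HasSum (fun P : Ideal D.O => ω.f P * dq ξ G P * ((Real.exp (-τ * ni P) / ni P : ℝ) : ℂ))
      (ω.f G / ((ni G : ℕ) : ℂ) * heat (ξ.tw ω) (τ * ni G)) := by
  have hp : (0 : ℝ) < ni G := Nat.cast_pos.2 (Nat.pos_of_ne_zero (ni_ne.2 hG))
  have hinj : Function.Injective (fun C : Ideal D.O => G * C) := fun C C' h =>
    mul_left_cancel₀ hG h
  rw [← hinj.hasSum_iff]
  · have h1 := (heat_summable hF (ξ.tw ω) (mul_pos hτ hp)).hasSum.mul_left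
      (ω.f G / ((ni G : ℕ) : ℂ))
    have h2 : ((fun P : Ideal D.O => ω.f P * dq ξ G P * ((Real.exp (-τ * ni P) / ni P : ℝ) : ℂ)) ∘
        fun C => G * C) = fun C => ω.f G / ((ni G : ℕ) : ℂ) * ((ξ.tw ω).f C *
        ((Real.exp (-(τ * ni G) * ni C) / ni C : ℝ) : ℂ)) := by
      funext C
      show ω.f (G * C) * dq ξ G (G * C) * ((Real.exp (-τ * ni (G * C)) / ni (G * C) : ℝ) : ℂ) =
        ω.f G / ((ni G : ℕ) : ℂ) * (ξ.f C * ω.f C *
          ((Real.exp (-(τ * ni G) * ni C) / ni C : ℝ) : ℂ))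
      rw [dq_mul ξ hG, ω.mul, ni_mul]
      rw [show -τ * ((ni G * ni C : ℕ) : ℝ) = -(τ * ni G) * ni C by push_cast; ring]
      push_cast
      rw [div_mul_eq_div_div]
      ring
    rw [h2]
    exact h1
  · intro P hP
    rw [dq_out ξ (by
      rintro ⟨C, rfl⟩
      exact hP ⟨C, rfl⟩), mul_zero, zero_mul]

theorem heat_sum {χ : Chr D N} (hF : F ≠ ⊥) {ξ : Xc D F} (h : Ext χ ξ) (ω : Xc D ⊤)
    (s : Finset (Ideal D.O)) (b : Ideal D.O → ℂ) (hs : ∀ G ∈ s, G ≠ ⊥ ∧ (N : D.O) ∈ G * F)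
    {g : D.O → ℂ} (hg : ∀ y, g y = ∑ G ∈ s, b G * (((ni G : ℕ) : ℂ) * vv ξ G y)) (S : Rp D N)
    {τ : ℝ} (hτ : 0 < τ) :
    ∑ B ∈ S.s, (ξ.f B)⁻¹ * (ω.f B)⁻¹ * ((ni B : ℕ) : ℂ) * Zt B g (τ / ni B) =
      wn D * ∑ G ∈ s, b G * ω.f G * heat (ξ.tw ω) (τ * ni G) := by
  classical
  set Φ : Ideal D.O → ℂ := fun P => ∑ G ∈ s, b G * ((ni G : ℕ) : ℂ) *
    (ω.f P * dq ξ G P * ((Real.exp (-τ * ni P) / ni P : ℝ) : ℂ)) with hΦ
  have hsum : HasSum Φ (∑ G ∈ s, b G * ((ni G : ℕ) : ℂ) *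
      (ω.f G / ((ni G : ℕ) : ℂ) * heat (ξ.tw ω) (τ * ni G))) :=
    hasSum_sum fun G hG => (dq_sum hF ξ ω (hs G hG).1 hτ).mul_left _
  have h0 : Φ ⊥ = 0 := by
    refine Finset.sum_eq_zero fun G _ => ?_
    rw [xc_bot, zero_mul, zero_mul, mul_zero]
  obtain ⟨-, h1⟩ := class_sum S hsum.summable h0
    (g := fun I x => (ξ.f I)⁻¹ * (ω.f I)⁻¹ * ((ni I : ℕ) : ℂ) *
      ((if x ∈ I then g x else 0) * ((Real.exp (-(τ / ni I) * nn D x) / nn D x : ℝ) : ℂ))) (by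
      rintro I hI x (rfl | hx)
      · rw [show nn D (0 : D.O) = 0 from nn_eq_zero.2 rfl, Nat.cast_zero, div_zero,
          Complex.ofReal_zero, mul_zero, mul_zero]
      · rw [if_neg hx, zero_mul, mul_zero]) (by
      intro I hI x P hx hP
      obtain ⟨hI0, hIc⟩ := S.cp I hI
      have hxI : x ∈ I := by
        have h2 : x ∈ I * P := by
          rw [hP]
          exact Ideal.mem_span_singleton_self x
        exact (Ideal.mul_le_left : I * P ≤ I) h2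
      have hP0 : P ≠ ⊥ := by
        rintro rfl
        rw [Ideal.mul_bot] at hP
        exact hx (Ideal.span_singleton_eq_bot.1 hP.symm)
      have hcF : IsCoprime I F := by
        rw [Ideal.isCoprime_iff_sup_eq] at hIc ⊢
        apply le_antisymm le_top
        rw [← hIc]
        exact sup_le_sup_left h.fac.le I
      have hξI : ξ.f I ≠ 0 := (ξ.ne I).2 ⟨hI0, hcF⟩
      have hωI : ω.f I * ω.f P = 1 := by
        rw [← ω.mul, hP, ω.ray x 1 hx one_ne_zero Submodule.mem_top, Ideal.span_singleton_one,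
          xc_top]
      have hωI0 : ω.f I ≠ 0 := left_ne_zero_of_mul_eq_one hωI
      have hωP : ω.f P = (ω.f I)⁻¹ := (inv_eq_of_mul_eq_one_right hωI).symm
      have hnn : nn D x = ni I * ni P := by rw [← ni_span, ← hP, ni_mul]
      have hpI : (0 : ℝ) < ni I := Nat.cast_pos.2 (Nat.pos_of_ne_zero (ni_ne.2 hI0))
      have hpP : (0 : ℝ) < ni P := Nat.cast_pos.2 (Nat.pos_of_ne_zero (ni_ne.2 hP0))
      have hpIc : ((ni I : ℕ) : ℂ) ≠ 0 := Nat.cast_ne_zero.2 (ni_ne.2 hI0)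
      have hpPc : ((ni P : ℕ) : ℂ) ≠ 0 := Nat.cast_ne_zero.2 (ni_ne.2 hP0)
      have hv : ∀ G ∈ s, vv ξ G x = ξ.f I * dq ξ G P := by
        intro G hG
        obtain ⟨hG0, hGN⟩ := hs G hG
        by_cases hC : ∃ C : Ideal D.O, P = G * C
        · obtain ⟨C, rfl⟩ := hC
          rw [dq_mul ξ hG0, ← ξ.mul]
          refine vv_val hF ξ hG0 hx ?_
          rw [← hP]
          ring
        · rw [dq_out ξ hC, mul_zero]
          refine vv_out ξ fun hxG => hC ?_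
          have h3 : G ∣ I * P := by
            rw [hP, Ideal.dvd_span_singleton]
            exact hxG
          have hcop : IsCoprime G I := by
            have h4 : Ideal.span {(N : D.O)} ≤ G := by
              rw [Ideal.span_singleton_le_iff_mem]
              exact (Ideal.mul_le_left : G * F ≤ G) hGN
            rw [Ideal.isCoprime_iff_sup_eq] at hIc ⊢
            apply le_antisymm le_top
            rw [← hIc, sup_comm]
            exact sup_le_sup_right h4 I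
          exact hcop.dvd_of_dvd_mul_left h3
      show (ξ.f I)⁻¹ * (ω.f I)⁻¹ * ((ni I : ℕ) : ℂ) *
        ((if x ∈ I then g x else 0) * ((Real.exp (-(τ / ni I) * nn D x) / nn D x : ℝ) : ℂ)) = Φ P
      rw [if_pos hxI, hg x, hΦ]
      show _ = ∑ G ∈ s, b G * ((ni G : ℕ) : ℂ) *
        (ω.f P * dq ξ G P * ((Real.exp (-τ * ni P) / ni P : ℝ) : ℂ))
      rw [Finset.sum_mul, Finset.mul_sum]
      refine Finset.sum_congr rfl fun G hG => ?_
      rw [hv G hG, hωP, hnn]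
      rw [show -(τ / ni I) * ((ni I * ni P : ℕ) : ℝ) = -τ * ni P by push_cast; field_simp]
      push_cast
      field_simp)
  have h2 : ∀ B ∈ S.s, (ξ.f B)⁻¹ * (ω.f B)⁻¹ * ((ni B : ℕ) : ℂ) * Zt B g (τ / ni B) =
      ∑' x : D.O, (ξ.f B)⁻¹ * (ω.f B)⁻¹ * ((ni B : ℕ) : ℂ) *
      ((if x ∈ B then g x else 0) * ((Real.exp (-(τ / ni B) * nn D x) / nn D x : ℝ) : ℂ)) := by
    intro B _
    rw [tsum_mul_left]
    congr 1
  rw [Finset.sum_congr rfl h2, h1, hsum.tsum_eq]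
  congr 1
  refine Finset.sum_congr rfl fun G hG => ?_
  have hGc : ((ni G : ℕ) : ℂ) ≠ 0 := Nat.cast_ne_zero.2 (ni_ne.2 (hs G hG).1)
  field_simp


omit [IsDedekindDomain D.O] [NeZero N] in
private theorem xf_cls_add (x y : D.O) : cls N (x + y) = cls N x + cls N y := by
  have h1 : x + y = el D (cod D x + cod D y) := by rw [el_add, el_cod, el_cod]
  rw [cls, cls, cls, h1, cod_el]
  refine Prod.ext ?_ ?_ <;> simp

open Classical in
omit [IsDedekindDomain D.O] in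
private theorem card_mem {G : Ideal D.O} (hG : (N : D.O) ∈ G) :
    (Finset.univ.filter (fun k : UNL.G N => rp D k ∈ G)).card * ni G = N ^ 2 := by
  have hadd : ∀ k l : UNL.G N, (Ideal.Quotient.mk G (rp D (k + l))) =
      Ideal.Quotient.mk G (rp D k) + Ideal.Quotient.mk G (rp D l) := by
    intro k l
    obtain ⟨y, hy⟩ := rp_cls (N := N) (rp D k + rp D l)
    rw [xf_cls_add, cls_rp, cls_rp] at hy
    rw [← map_add, hy, Ideal.Quotient.eq]
    have h1 : rp D (k + l) - (rp D (k + l) + (N : D.O) * y) = -((N : D.O) * y) := by ring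
    rw [h1]
    exact G.neg_mem (G.mul_mem_right y hG)
  let f : UNL.G N →+ (D.O ⧸ G) := AddMonoidHom.mk' (fun k => Ideal.Quotient.mk G (rp D k)) hadd
  have hf : Function.Surjective f := by
    intro r
    obtain ⟨x, rfl⟩ := Ideal.Quotient.mk_surjective r
    obtain ⟨y, hy⟩ := rp_cls (N := N) x
    refine ⟨cls N x, ?_⟩
    show Ideal.Quotient.mk G (rp D (cls N x)) = Ideal.Quotient.mk G x
    rw [Ideal.Quotient.eq]
    have h1 : rp D (cls N x) - x = -((N : D.O) * y) := by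
      have h2 : x - rp D (cls N x) = (N : D.O) * y := by
        rw [sub_eq_iff_eq_add, add_comm]
        exact hy
      rw [← h2]
      ring
    rw [h1]
    exact G.neg_mem (G.mul_mem_right y hG)
  have h1 := f.ker.card_mul_index
  rw [AddSubgroup.index_ker, AddMonoidHom.range_eq_top.2 hf,
    Nat.card_congr AddSubgroup.topEquiv.toEquiv] at h1
  have h2 : Nat.card (UNL.G N) = N ^ 2 := by
    rw [Nat.card_eq_fintype_card, Fintype.card_prod, ZMod.card, sq]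
  rw [h2] at h1
  rw [← h1]
  congr 1
  rw [← Fintype.card_subtype, ← Nat.card_eq_fintype_card]
  refine Nat.card_congr (Equiv.subtypeEquivRight fun k => ?_)
  rw [AddMonoidHom.mem_ker]
  exact Ideal.Quotient.eq_zero_iff_mem.symm

theorem coef_zero {χ : Chr D N} (hF : F ≠ ⊥) {ξ : Xc D F} (h : Ext χ ξ) (ω : Xc D ⊤)
    (s : Finset (Ideal D.O)) (b : Ideal D.O → ℂ) (hs : ∀ G ∈ s, G ≠ ⊥ ∧ (N : D.O) ∈ G * F)
    {g : D.O → ℂ} (hg : ∀ y, g y = ∑ G ∈ s, b G * (((ni G : ℕ) : ℂ) * vv ξ G y))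
    (hm : ∑ k : UNL.G N, g (rp D k) = 0)
    (hz : ∀ B : Ideal D.O, Ip N B → Tendsto (Zt B g) (𝓝[>] 0) (𝓝 0)) :
    ∑ G ∈ s, b G * ω.f G = 0 := by
  classical
  have hN : 0 < N := Nat.pos_of_ne_zero (NeZero.ne N)
  by_cases hn : (ξ.tw ω).Nt
  · obtain ⟨v, hv0, hv⟩ := heat_ne hF (ξ.tw ω) hn
    obtain ⟨S⟩ := rp_ex (D := D) hN
    have hdiv : ∀ G : Ideal D.O, G ≠ ⊥ →
        Tendsto (fun τ : ℝ => τ / (ni G : ℝ)) (𝓝[>] 0) (𝓝[>] 0) := by
      intro G hG
      have hp : (0 : ℝ) < ni G := Nat.cast_pos.2 (Nat.pos_of_ne_zero (ni_ne.2 hG))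
      refine tendsto_nhdsWithin_iff.2 ⟨?_, ?_⟩
      · have h6 : Tendsto (fun τ : ℝ => τ / (ni G : ℝ)) (𝓝 0) (𝓝 (0 / (ni G : ℝ))) :=
          (continuous_id.div_const (ni G : ℝ)).tendsto 0
        rw [zero_div] at h6
        exact h6.mono_left nhdsWithin_le_nhds
      · filter_upwards [self_mem_nhdsWithin] with τ hτ
        exact div_pos hτ hp
    have hmul : ∀ G : Ideal D.O, G ≠ ⊥ →
        Tendsto (fun τ : ℝ => τ * (ni G : ℝ)) (𝓝[>] 0) (𝓝[>] 0) := by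
      intro G hG
      have hp : (0 : ℝ) < ni G := Nat.cast_pos.2 (Nat.pos_of_ne_zero (ni_ne.2 hG))
      refine tendsto_nhdsWithin_iff.2 ⟨?_, ?_⟩
      · have h6 : Tendsto (fun τ : ℝ => τ * (ni G : ℝ)) (𝓝 0) (𝓝 (0 * (ni G : ℝ))) :=
          (continuous_id.mul_const (ni G : ℝ)).tendsto 0
        rw [zero_mul] at h6
        exact h6.mono_left nhdsWithin_le_nhds
      · filter_upwards [self_mem_nhdsWithin] with τ hτ
        exact mul_pos hτ hp
    have hL : Tendsto (fun τ : ℝ => ∑ B ∈ S.s,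
        (ξ.f B)⁻¹ * (ω.f B)⁻¹ * ((ni B : ℕ) : ℂ) * Zt B g (τ / ni B)) (𝓝[>] 0)
        (𝓝 (∑ B ∈ S.s, (ξ.f B)⁻¹ * (ω.f B)⁻¹ * ((ni B : ℕ) : ℂ) * 0)) :=
      tendsto_finsetSum _ fun B hB =>
        ((hz B (S.cp B hB)).comp (hdiv B (S.cp B hB).1)).const_mul _
    have hR : Tendsto (fun τ : ℝ => (wn D : ℂ) * ∑ G ∈ s, b G * ω.f G *
        heat (ξ.tw ω) (τ * ni G)) (𝓝[>] 0) (𝓝 ((wn D : ℂ) * ∑ G ∈ s, b G * ω.f G * v)) :=
      (tendsto_finsetSum _ fun G hG =>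
        (hv.comp (hmul G (hs G hG).1)).const_mul _).const_mul _
    have hLR : (fun τ : ℝ => (wn D : ℂ) * ∑ G ∈ s, b G * ω.f G * heat (ξ.tw ω) (τ * ni G))
        =ᶠ[𝓝[>] 0] fun τ : ℝ => ∑ B ∈ S.s,
        (ξ.f B)⁻¹ * (ω.f B)⁻¹ * ((ni B : ℕ) : ℂ) * Zt B g (τ / ni B) := by
      filter_upwards [self_mem_nhdsWithin] with τ hτ
      exact (heat_sum hF h ω s b hs hg S hτ).symm
    have h1 := tendsto_nhds_unique (hR.congr' hLR) hL
    simp only [mul_zero, Finset.sum_const_zero] at h1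
    rw [← Finset.sum_mul] at h1
    have hw : ((wn D : ℕ) : ℂ) ≠ 0 := Nat.cast_ne_zero.2 (wn_pos (D := D)).ne'
    exact (mul_eq_zero.1 ((mul_eq_zero.1 h1).resolve_left hw)).resolve_right hv0
  · have hn1 : ∀ I : Ideal D.O, ξ.f I ≠ 0 → ξ.f I * ω.f I = 1 := by
      intro I hI
      by_contra h1
      refine hn ⟨I, ?_, h1⟩
      show ξ.f I * ω.f I ≠ 0
      refine mul_ne_zero hI ((ω.ne I).2 ⟨((ξ.ne I).1 hI).1, ?_⟩)
      rw [Ideal.isCoprime_iff_sup_eq, sup_top_eq]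
    have hfac : Fac χ ⊤ := by
      refine ⟨le_top, fun x hx _ => ?_⟩
      by_cases hx0 : x = 0
      · subst hx0
        obtain ⟨u, w, huw⟩ := hx
        have h2 := χ.per 0 w
        rw [zero_add, mul_comm] at h2
        rw [mul_zero, zero_add] at huw
        rw [← h2, huw, χ.one]
      · have h2 := h.ext x hx0 hx
        have h3 : ξ.f (Ideal.span {x}) ≠ 0 := by
          rw [ξ.ne]
          refine ⟨fun h4 => hx0 (Ideal.span_singleton_eq_bot.1 h4), ?_⟩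
          have h5 : IsCoprime (Ideal.span {x}) (Ideal.span {(N : D.O)}) :=
            (Ideal.isCoprime_span_singleton_iff _ _).2 hx
          rw [Ideal.isCoprime_iff_sup_eq] at h5 ⊢
          apply le_antisymm le_top
          rw [← h5]
          exact sup_le_sup_left h.fac.le _
        have h6 := hn1 _ h3
        rw [ω.ray x 1 hx0 one_ne_zero Submodule.mem_top, Ideal.span_singleton_one, xc_top,
          mul_one, h2] at h6
        exact h6
    have hFt : F = ⊤ := top_le_iff.1 (h.min ⊤ hfac)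
    subst hFt
    have hval : ∀ k : UNL.G N, g (rp D k) = ∑ G ∈ s, b G * ω.f G *
        (((ni G : ℕ) : ℂ) * if rp D k ∈ G then 1 else 0) := by
      intro k
      rw [hg]
      refine Finset.sum_congr rfl fun G hG => ?_
      have hG0 := (hs G hG).1
      rw [vv_top ξ hG0]
      have h7 : ξ.f G ≠ 0 := (ξ.ne G).2 ⟨hG0, by rw [Ideal.isCoprime_iff_sup_eq, sup_top_eq]⟩
      have h8 : (ξ.f G)⁻¹ = ω.f G := inv_eq_of_mul_eq_one_right (hn1 G h7)
      by_cases hk : rp D k ∈ G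
      · rw [if_pos hk, if_pos hk, h8]
        ring
      · rw [if_neg hk, if_neg hk]
        ring
    have hN2 : ((N : ℂ) ^ 2) ≠ 0 := pow_ne_zero 2 (Nat.cast_ne_zero.2 (NeZero.ne N))
    have h9 : ∑ k : UNL.G N, g (rp D k) = (N : ℂ) ^ 2 * ∑ G ∈ s, b G * ω.f G := by
      rw [Finset.sum_congr rfl fun k _ => hval k, Finset.sum_comm, Finset.mul_sum]
      refine Finset.sum_congr rfl fun G hG => ?_
      rw [← Finset.mul_sum, ← Finset.mul_sum, Finset.sum_ite, Finset.sum_const_zero, add_zero,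
        Finset.sum_const, nsmul_eq_mul, mul_one]
      have hGN : (N : D.O) ∈ G := (Ideal.mul_le_left : G * ⊤ ≤ G) (hs G hG).2
      have h10 := card_mem (D := D) (N := N) hGN
      have h11 : ((N : ℂ) ^ 2) = ((Finset.univ.filter
          (fun k : UNL.G N => rp D k ∈ G)).card : ℂ) * ((ni G : ℕ) : ℂ) := by
        rw [← Nat.cast_mul, h10, Nat.cast_pow]
      rw [h11]
      ring
    rw [h9] at hm
    exact (mul_eq_zero.1 hm).resolve_left hN2

end

end RNG
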