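import Pool.Agent.RNG.Xf

/-!
# RNG.Xh: functions with vanishing sums are relations

* `mem_ntu`: `u` a unit with `χ(u) ≠ 1`: `T_{u⁻¹} g (y) = g(u y) = χ(u) g(y)`, so `(χ(u) - 1) g = T_{u⁻¹} g - g`.
* `mem_tu`: `ex_ext` gives `F`, `ξ`, `basis` gives `s`, `b`; `coef_zero` and `cls_sep`: `Σ_{G ~ C} b(G) = 0` for all `C`. Let `w_G = ni(G) vv ξ G` (periodic: `vv_Pe`). If
  `(q) G = (r) G'`, `q, r ≠ 0`: `T_q w_G = ni(G) nn(q) vv ξ ((q) G) = ni(G') nn(r) vv ξ ((r) G') = T_r w_{G'}` (`vv_T`, `ni_mul`, `ni_span`), so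
  `w_G - w_{G'} = (T_r w_{G'} - w_{G'}) - (T_q w_G - w_G) ∈ Hsp`. So modulo `Hsp` `w_G` depends only on the class of `G`, and `g = Σ b(G) w_G` is in `Hsp` (group the `G ∈ s` by a
  representative of their class, `rp_ex`).
* `mem_all`: `chars` (`Cd`): `S`, `X`; `g_χ(y) = (1/|S|) Σ_r conj(χ(r)) g(r y)`; `g = Σ_χ g_χ`, `Tc χ g_χ` (`pj_eq`), `hz` for the `g(r y)`, `Σ_k g(r rp k) = Σ_k g(rp k)`.
-/

open RNK Filter Topology

namespace RNG

noncomputable section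

variable {D : RNP.OD} [IsDedekindDomain D.O] {N : ℕ} [NeZero N]

omit [IsDedekindDomain D.O] in
/-- `T_q` is linear -/
private theorem Tf_const (q : D.O) (c : ℂ) (φ : D.O → ℂ) (y : D.O) :
    Tf q (fun y => c * φ y) y = c * Tf q φ y := by
  unfold Tf
  by_cases h : ∃ z, y = q * z
  · rw [dif_pos h, dif_pos h]
    ring
  · rw [dif_neg h, dif_neg h, mul_zero]

omit [IsDedekindDomain D.O] in
private theorem hsp_gen {q : D.O} (hq : q ≠ 0) {M : ℕ} (hM : 0 < M) {φ : D.O → ℂ} (hφ : Pe M φ) :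
    (fun y => Tf q φ y - φ y) ∈ Hsp D :=
  Submodule.subset_span ⟨q, hq, M, hM, φ, hφ, rfl⟩

omit [IsDedekindDomain D.O] in
theorem mem_ntu {χ : Chr D N} (hu : ¬ χ.Tu) {g : D.O → ℂ} (hg : Tc χ g) : g ∈ Hsp D := by
  unfold Chr.Tu at hu
  push Not at hu
  obtain ⟨u, hu⟩ := hu
  have hcp : Cp N (u : D.O) := ⟨((u⁻¹ : D.Oˣ) : D.O), 0, by simp⟩
  have hq : ((u⁻¹ : D.Oˣ) : D.O) ≠ 0 := Units.ne_zero _
  have hT : ∀ y, Tf ((u⁻¹ : D.Oˣ) : D.O) g y = χ.f (u : D.O) * g y := by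
    intro y
    have e : y = ((u⁻¹ : D.Oˣ) : D.O) * ((u : D.O) * y) := by
      rw [← mul_assoc, Units.inv_mul, one_mul]
    conv_lhs => rw [e]
    rw [Tf_mul hq, nn_eq_one.2 (Units.isUnit _), Nat.cast_one, one_mul, hg.eqv _ hcp]
  have h1 := hsp_gen hq (Nat.pos_of_ne_zero (NeZero.ne N)) hg.per
  have h2 : (fun y => Tf ((u⁻¹ : D.Oˣ) : D.O) g y - g y) = (χ.f (u : D.O) - 1) • g := by
    funext y
    rw [hT, Pi.smul_apply, smul_eq_mul]
    ring
  rw [h2] at h1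
  have h3 : χ.f (u : D.O) - 1 ≠ 0 := sub_ne_zero.2 hu
  have h4 := (Hsp D).smul_mem (χ.f (u : D.O) - 1)⁻¹ h1
  rwa [smul_smul, inv_mul_cancel₀ h3, one_smul] at h4

/-- the functions `ni(G) vv ξ G` -/
private def wf {F : Ideal D.O} (ξ : Xc D F) (G : Ideal D.O) (y : D.O) : ℂ :=
  ((ni G : ℕ) : ℂ) * vv ξ G y

private theorem wf_diff {F : Ideal D.O} (hF : F ≠ ⊥) (ξ : Xc D F) {G G' : Ideal D.O}
    (hG : G ≠ ⊥) (hG' : G' ≠ ⊥) (h : Ie G G') : wf ξ G - wf ξ G' ∈ Hsp D := by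
  obtain ⟨q, r, hq, hr, e⟩ := h
  have hper : ∀ L : Ideal D.O, L ≠ ⊥ → ∃ M : ℕ, 0 < M ∧ Pe M (wf ξ L) := by
    intro L hL
    have h1 : L * F ≠ ⊥ := mul_ne_zero hL hF
    refine ⟨ni (L * F), Nat.pos_of_ne_zero (ni_ne.2 h1), fun x y => ?_⟩
    unfold wf
    rw [vv_Pe ξ (ni_mem (L * F)) x y]
  have hT : ∀ L : Ideal D.O, L ≠ ⊥ → ∀ t : D.O, t ≠ 0 → ∀ y : D.O,
      Tf t (wf ξ L) y = wf ξ (Ideal.span {t} * L) y := by
    intro L hL t ht y
    show Tf t (fun y => ((ni L : ℕ) : ℂ) * vv ξ L y) y = _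
    rw [Tf_const, vv_T hF ξ hL ht]
    unfold wf
    rw [ni_mul, ni_span, Nat.cast_mul]
    ring
  obtain ⟨M, hM, hp⟩ := hper G hG
  obtain ⟨M', hM', hp'⟩ := hper G' hG'
  have h1 := hsp_gen hq hM hp
  have h2 := hsp_gen hr hM' hp'
  have h3 := (Hsp D).sub_mem h2 h1
  have h4 : wf ξ G - wf ξ G' = (fun y => Tf r (wf ξ G') y - wf ξ G' y) -
      fun y => Tf q (wf ξ G) y - wf ξ G y := by
    funext y
    simp only [Pi.sub_apply]
    rw [hT G hG q hq, hT G' hG' r hr, e]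
    ring
  rw [h4]
  exact h3

theorem mem_tu {χ : Chr D N} (hu : χ.Tu) {g : D.O → ℂ} (hg : Tc χ g)
    (hm : ∑ k : UNL.G N, g (rp D k) = 0)
    (hz : ∀ B : Ideal D.O, Ip N B → Tendsto (Zt B g) (𝓝[>] 0) (𝓝 0)) : g ∈ Hsp D := by
  classical
  obtain ⟨F, hF, ξ, h⟩ := ex_ext χ hu
  obtain ⟨s, b, hs, hb⟩ := basis hF h hg
  have h0 : ∀ ω : Xc D ⊤, ∑ G ∈ s, b G * ω.f G = 0 :=
    fun ω => coef_zero hF h ω s b hs hb hm hz
  have hsep : ∀ C : Ideal D.O, C ≠ ⊥ → ∑ G ∈ s, (if Ie G C then b G else 0) = 0 := by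
    intro C hC
    exact cls_sep s (fun G hG => (hs G hG).1) b h0 hC
  obtain ⟨S⟩ := rp_ex (D := D) (M := 1) one_pos
  have hg' : g = ∑ G ∈ s, b G • wf ξ G := by
    funext y
    rw [hb y, Finset.sum_apply]
    rfl
  -- every ideal of `s` is in exactly one class
  have hone : ∀ G ∈ s, ∀ v : D.O → ℂ, ∑ C ∈ S.s, (if Ie G C then v else 0) = v := by
    intro G hG v
    obtain ⟨J, hJ, hGJ⟩ := S.ex G (hs G hG).1
    rw [Finset.sum_eq_single_of_mem J hJ, if_pos hGJ]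
    intro C hC hne
    rw [if_neg]
    intro hGC
    exact hne (S.un C hC J hJ (ie_trans (ie_symm hGC) hGJ))
  have h1 : g = ∑ C ∈ S.s, ∑ G ∈ s, (if Ie G C then b G • wf ξ G else 0) := by
    rw [Finset.sum_comm, hg']
    refine Finset.sum_congr rfl fun G hG => ?_
    exact (hone G hG _).symm
  have h2 : ∀ C ∈ S.s, ∑ G ∈ s, (if Ie G C then b G • wf ξ C else 0) = 0 := by
    intro C hC
    have h3 : ∀ G ∈ s, (if Ie G C then b G • wf ξ C else 0) =
        (if Ie G C then b G else 0) • wf ξ C := by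
      intro G _
      by_cases h4 : Ie G C
      · rw [if_pos h4, if_pos h4]
      · rw [if_neg h4, if_neg h4, zero_smul]
    rw [Finset.sum_congr rfl h3, ← Finset.sum_smul, hsep C (S.cp C hC).1, zero_smul]
  rw [h1]
  refine Submodule.sum_mem _ fun C hC => ?_
  have h5 : ∑ G ∈ s, (if Ie G C then b G • wf ξ G else 0) =
      ∑ G ∈ s, (if Ie G C then b G • (wf ξ G - wf ξ C) else 0) := by
    rw [← sub_zero (∑ G ∈ s, (if Ie G C then b G • wf ξ G else 0)), ← h2 C hC,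
      ← Finset.sum_sub_distrib]
    refine Finset.sum_congr rfl fun G _ => ?_
    by_cases h4 : Ie G C
    · rw [if_pos h4, if_pos h4, if_pos h4, smul_sub]
    · rw [if_neg h4, if_neg h4, if_neg h4, sub_zero]
  rw [h5]
  refine Submodule.sum_mem _ fun G hG => ?_
  by_cases h4 : Ie G C
  · rw [if_pos h4]
    exact (Hsp D).smul_mem _ (wf_diff hF ξ (hs G hG).1 (S.cp C hC).1 h4)
  · rw [if_neg h4]
    exact (Hsp D).zero_mem

/-! ### all functions -/

omit [IsDedekindDomain D.O] in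
/-- `y rp k` is `rp (ac y k)` mod `N` -/
private theorem xh_rp (y : D.O) (k : UNL.G N) :
    ∃ z : D.O, y * rp D k = rp D (ac y k) + (N : D.O) * z := by
  have h := tp_sm (D := D) (cod D y) k
  rw [de_toU, xx_cod] at h
  have hm : (N : ℂ) ≠ 0 := Nat.cast_ne_zero.2 (NeZero.ne N)
  have e : UNL.tp (toU D.a) (UNL.sm (toU D.a) (cod D y) k) =
      ((rp D (ac y k) : D.O) : ℂ) / N := tp_rp _
  rw [e, tp_rp] at h
  refine ⟨⟨_, h⟩, Subtype.ext ?_⟩
  simp only [Subring.coe_add, Subring.coe_mul, Subring.coe_natCast]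
  field_simp
  ring

omit [IsDedekindDomain D.O] in
private theorem cls_mul (x y : D.O) : cls N (x * y) = ac x (cls N y) := by
  obtain ⟨z, hz⟩ := rp_cls (N := N) y
  obtain ⟨v, hv⟩ := xh_rp (N := N) x (cls N y)
  rw [← cls_rp (D := D) (ac x (cls N y)), cls_eq]
  refine ⟨v + x * z, ?_⟩
  conv_lhs => rw [hz, mul_add, hv]
  ring

omit [IsDedekindDomain D.O] in
private theorem zt_summable {g : D.O → ℂ} (hg : ∃ C : ℝ, ∀ x, ‖g x‖ ≤ C) (P : D.O → Prop)
    [DecidablePred P] {τ : ℝ} (hτ : 0 < τ) :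
    Summable (fun y : D.O => (if P y then g y else 0) *
      ((Real.exp (-τ * nn D y) / nn D y : ℝ) : ℂ)) := by
  refine Summable.of_norm_bounded (th_summable hg hτ).norm fun y => ?_
  rw [norm_mul, norm_mul]
  refine mul_le_mul ?_ ?_ (norm_nonneg _) (norm_nonneg _)
  · by_cases h : P y
    · rw [if_pos h]
    · rw [if_neg h, norm_zero]
      exact norm_nonneg _
  · rw [Complex.norm_real, Complex.norm_real, norm_div]
    rcases Nat.eq_zero_or_pos (nn D y) with h | h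
    · rw [h, Nat.cast_zero, norm_zero, div_zero]
      exact norm_nonneg _
    · refine div_le_self (norm_nonneg _) ?_
      rw [Real.norm_of_nonneg (Nat.cast_nonneg _)]
      exact_mod_cast h

theorem mem_all {g : D.O → ℂ} (hg : Pe N g) (hm : ∑ k : UNL.G N, g (rp D k) = 0)
    (hz : ∀ x : D.O, Cp N x → ∀ B : Ideal D.O, Ip N B →
      Tendsto (Zt B (fun y => g (x * y))) (𝓝[>] 0) (𝓝 0)) : g ∈ Hsp D := by
  classical
  obtain ⟨S, m, X, hX⟩ := chars D N
  let φ : UNL.G N → ℂ := fun k => g (rp D k)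
  have hφ : ∀ y, φ (cls N y) = g y := by
    intro y
    obtain ⟨z, hz⟩ := rp_cls (N := N) y
    show g (rp D (cls N y)) = g y
    conv_rhs => rw [hz]
    rw [hg]
  have hφr : ∀ r y : D.O, φ (ac r (cls N y)) = g (r * y) := by
    intro r y
    rw [← cls_mul, hφ]
  -- the parts
  let gx : Chr D N → D.O → ℂ := fun χ y => pj S χ φ (cls N y)
  have hgx : ∀ χ y, gx χ y = 1 / (S.s.card : ℂ) *
      ∑ r ∈ S.s, (starRingEnd ℂ) (χ.f r) * g (r * y) := by
    intro χ y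
    show pj S χ φ (cls N y) = _
    unfold pj
    congr 1
    exact Finset.sum_congr rfl fun r _ => by rw [hφr]
  have hT : ∀ χ : Chr D N, Tc χ (gx χ) := by
    intro χ
    refine ⟨fun y z => ?_, fun x hx y => ?_⟩
    · show pj S χ φ (cls N (y + (N : D.O) * z)) = pj S χ φ (cls N y)
      congr 1
      exact cls_eq.2 ⟨z, rfl⟩
    · show pj S χ φ (cls N (x * y)) = χ.f x * pj S χ φ (cls N y)
      rw [cls_mul, pj_eq S χ φ hx]
  have hsum : g = ∑ i, gx (X i) := by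
    funext y
    rw [Finset.sum_apply, ← hφ y]
    exact (pj_sum S X hX φ (cls N y)).symm
  -- the mean
  have hmr : ∀ r : D.O, Cp N r → ∑ k : UNL.G N, φ (ac r k) = 0 := by
    intro r hr
    obtain ⟨y, -, hy⟩ := Cp_inv hr
    let e : UNL.G N ≃ UNL.G N := ⟨ac r, ac y, fun k => (hy k).1, fun k => (hy k).2⟩
    have := e.sum_comp φ
    rw [← hm]
    exact this
  have hmx : ∀ χ : Chr D N, ∑ k : UNL.G N, gx χ (rp D k) = 0 := by
    intro χ
    have h1 : ∀ k : UNL.G N, gx χ (rp D k) = pj S χ φ k := by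
      intro k
      show pj S χ φ (cls N (rp D k)) = _
      rw [cls_rp]
    rw [Finset.sum_congr rfl fun k _ => h1 k]
    unfold pj
    rw [← Finset.mul_sum, Finset.sum_comm]
    have h2 : ∑ r ∈ S.s, ∑ k : UNL.G N, (starRingEnd ℂ) (χ.f r) * φ (ac r k) = 0 := by
      refine Finset.sum_eq_zero fun r hr => ?_
      rw [← Finset.mul_sum, hmr r (S.cp r hr), mul_zero]
    rw [h2, mul_zero]
  -- the limits
  have hzx : ∀ χ : Chr D N, ∀ B : Ideal D.O, Ip N B →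
      Tendsto (Zt B (gx χ)) (𝓝[>] 0) (𝓝 0) := by
    intro χ B hB
    have h1 : Tendsto (fun τ : ℝ => 1 / (S.s.card : ℂ) *
        ∑ r ∈ S.s, (starRingEnd ℂ) (χ.f r) * Zt B (fun y => g (r * y)) τ) (𝓝[>] 0)
        (𝓝 (1 / (S.s.card : ℂ) * ∑ r ∈ S.s, (starRingEnd ℂ) (χ.f r) * 0)) :=
      (tendsto_finsetSum _ fun r hr => (hz r (S.cp r hr) B hB).const_mul _).const_mul _
    simp only [mul_zero, Finset.sum_const_zero] at h1
    refine h1.congr' ?_
    filter_upwards [self_mem_nhdsWithin] with τ hτ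
    have hτ' : 0 < τ := hτ
    have hbd : ∀ r : D.O, ∃ C : ℝ, ∀ x, ‖g (r * x)‖ ≤ C := by
      intro r
      obtain ⟨C, hC⟩ := Pe_bdd hg
      exact ⟨C, fun x => hC _⟩
    unfold Zt
    simp only [← tsum_mul_left]
    rw [← Summable.tsum_finsetSum]
    · rw [← tsum_mul_left]
      refine tsum_congr fun y => ?_
      by_cases hy : y ∈ B
      · simp only [if_pos hy]
        rw [hgx χ y, mul_assoc, Finset.sum_mul]
        congr 1
        refine Finset.sum_congr rfl fun r _ => ?_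
        ring
      · simp only [if_neg hy, zero_mul, mul_zero, Finset.sum_const_zero]
    · intro r _
      exact (zt_summable (hbd r) (fun y => y ∈ B) hτ').mul_left _
  rw [hsum]
  refine Submodule.sum_mem _ fun i _ => ?_
  by_cases hu : (X i).Tu
  · exact mem_tu hu (hT _) (hmx _) (hzx _)
  · exact mem_ntu hu (hT _)

end

end RNG
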