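import Pool.Agent.RNG.Xv

/-!
# RNG.Xm: relations with mean zero

`Hsp0` = the span of the `T_q φ - φ` with `φ` periodic of mean zero, `mn M φ` = the mean of `φ` (of period `M`; the same for all periods `M`: the classes mod `M M'`, all
fibres of `G (M M') → G M` have the same size).
* `Hsp_rep`, `Hsp0_rep`: an element of a span is a finite sum; put the coefficients into the `φ_j` and take a common period.
* `Hsp0_of`: let `u = 1` (the constant function) and `P = (D.O → ℂ) ⧸ Hsp0 D`. `Λ(q)` = the class of `T_q u - u` in `P`, `q ≠ 0`. The mean of `T_q φ` is the mean of `φ` (`T_q φ` lives on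
  `q O`, of index `nn q`, with the factor `nn q`), so `T_q u - u` has mean `0`, and `T_q (T_r u - u) - (T_r u - u) ∈ Hsp0`, `T_q T_r = T_{q r}`: `Λ(q r) = Λ(q) + Λ(r)`. For units `ε`: `T_ε u = u`,
  `Λ(ε) = 0`. `T_q φ - φ - mn(φ) (T_q u - u) = T_q (φ - mn(φ) u) - (φ - mn(φ) u) ∈ Hsp0`. So the class of `g` is `Σ_j mn(φ_j) Λ(q_j)`. Let `λ : P → ℂ` be linear. `q ↦ λ(Λ(q))` is a homomorphism from the
  multiplicative monoid of the nonzero elements of `O` to `ℂ`; it extends to the group of the nonzero quotients and to `Additive ℂˣ →+ ℂ` (`ℂ` is divisible: `Module.Baer.of_divisible`,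
  `Module.Baer.extension_property`, see `ex_dl` in `RN2/De`). So `λ` of the class of `g` is `Σ_j mn(φ_j) δ(q_j) = 0`. Hence the class is `0` (`Module.forall_dual_apply_eq_zero_iff`).
-/

open RNK

namespace RNG

noncomputable section

variable {D : RNP.OD}

/-- the mean -/
def mn (D : RNP.OD) (M : ℕ) [NeZero M] (φ : D.O → ℂ) : ℂ :=
  1 / (M : ℂ) ^ 2 * ∑ k : UNL.G M, φ (rp D k)

/-- the span of the functions `T_q φ - φ`, `φ` periodic with mean zero -/
def Hsp0 (D : RNP.OD) : Submodule ℂ (D.O → ℂ) :=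
  Submodule.span ℂ {g | ∃ q : D.O, q ≠ 0 ∧ ∃ M : ℕ, ∃ _ : NeZero M, ∃ φ : D.O → ℂ, Pe M φ ∧
    mn D M φ = 0 ∧ g = fun y => Tf q φ y - φ y}

/-- a representation of `g` by relations -/
structure Hr (M : ℕ) {J : ℕ} (q : Fin J → D.O) (φ : Fin J → D.O → ℂ) (g : D.O → ℂ) : Prop where
  ne : ∀ j, q j ≠ 0
  pe : ∀ j, Pe M (φ j)
  eq : ∀ y, g y = ∑ j, (Tf (q j) (φ j) y - φ j y)

/-! ### `Tf` is linear -/

private theorem xm_tf_cases (q y : D.O) (hq : q ≠ 0) :
    (∃ z, y = q * z ∧ ∀ φ : D.O → ℂ, Tf q φ y = ((nn D q : ℕ) : ℂ) * φ z) ∨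
      (¬ q ∣ y ∧ ∀ φ : D.O → ℂ, Tf q φ y = 0) := by
  by_cases h : q ∣ y
  · obtain ⟨z, rfl⟩ := h
    exact Or.inl ⟨z, rfl, fun φ => Tf_mul hq φ z⟩
  · exact Or.inr ⟨h, fun φ => Tf_out h φ⟩

private theorem xm_tf_add {q : D.O} (hq : q ≠ 0) (φ ψ : D.O → ℂ) (y : D.O) :
    Tf q (fun x => φ x + ψ x) y = Tf q φ y + Tf q ψ y := by
  rcases xm_tf_cases q y hq with ⟨z, -, h⟩ | ⟨-, h⟩
  · rw [h, h, h]
    ring
  · rw [h, h, h, add_zero]

private theorem xm_tf_smul {q : D.O} (hq : q ≠ 0) (a : ℂ) (φ : D.O → ℂ) (y : D.O) :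
    Tf q (fun x => a * φ x) y = a * Tf q φ y := by
  rcases xm_tf_cases q y hq with ⟨z, -, h⟩ | ⟨-, h⟩
  · rw [h, h]
    ring
  · rw [h, h, mul_zero]

private theorem xm_tf_sub {q : D.O} (hq : q ≠ 0) (φ ψ : D.O → ℂ) (y : D.O) :
    Tf q (fun x => φ x - ψ x) y = Tf q φ y - Tf q ψ y := by
  rcases xm_tf_cases q y hq with ⟨z, -, h⟩ | ⟨-, h⟩
  · rw [h, h, h]
    ring
  · rw [h, h, h, sub_zero]

private theorem xm_tf_tf {q r : D.O} (hq : q ≠ 0) (hr : r ≠ 0) (φ : D.O → ℂ) (y : D.O) :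
    Tf (q * r) φ y = Tf q (Tf r φ) y := by
  have hqr : q * r ≠ 0 := mul_ne_zero hq hr
  rcases xm_tf_cases q y hq with ⟨z, rfl, h⟩ | ⟨hn, h⟩
  · rw [h]
    rcases xm_tf_cases r z hr with ⟨w, rfl, h'⟩ | ⟨hn', h'⟩
    · rw [h', ← mul_assoc, Tf_mul hqr, nn_mul]
      push_cast
      ring
    · rw [h', mul_zero]
      apply Tf_out
      intro hd
      obtain ⟨w, hw⟩ := hd
      rw [mul_assoc] at hw
      exact hn' ⟨w, mul_left_cancel₀ hq hw⟩
  · rw [h]
    apply Tf_out
    intro hd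
    exact hn ((Dvd.intro r rfl).trans hd)

/-! ### means -/

private abbrev XR (D : RNP.OD) (M : ℕ) : Type := D.O ⧸ Ideal.span {(M : D.O)}

private def xmE (D : RNP.OD) (M : ℕ) [NeZero M] : UNL.G M ≃ XR D M :=
  Equiv.ofBijective (fun k => Ideal.Quotient.mk _ (rp D k)) (by
    constructor
    · intro k l h
      have h1 := Ideal.Quotient.eq.1 h
      obtain ⟨z, hz⟩ := Ideal.mem_span_singleton'.1 h1
      have h2 : cls M (rp D k) = cls M (rp D l) := cls_eq.2 ⟨z, by
        rw [mul_comm, hz]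
        ring⟩
      rwa [cls_rp, cls_rp] at h2
    · intro r
      obtain ⟨x, rfl⟩ := Ideal.Quotient.mk_surjective r
      obtain ⟨y, hy⟩ := rp_cls (N := M) x
      refine ⟨cls M x, Ideal.Quotient.eq.2 (Ideal.mem_span_singleton'.2 ⟨-y, ?_⟩)⟩
      linear_combination hy)

private theorem xmE_apply {M : ℕ} [NeZero M] (k : UNL.G M) :
    xmE D M k = Ideal.Quotient.mk _ (rp D k) := rfl

private instance xm_fin {M : ℕ} [NeZero M] : Finite (XR D M) := Finite.of_equiv _ (xmE D M)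

private noncomputable instance xm_fint {M : ℕ} [NeZero M] : Fintype (XR D M) :=
  Fintype.ofFinite _

private theorem xm_card (M : ℕ) [NeZero M] : Nat.card (XR D M) = M ^ 2 := by
  rw [← Nat.card_congr (xmE D M), Nat.card_eq_fintype_card, Fintype.card_prod, ZMod.card, sq]

private theorem xm_sum {M : ℕ} [NeZero M] {φ : D.O → ℂ} {F : XR D M → ℂ}
    (hF : ∀ x, F (Ideal.Quotient.mk _ x) = φ x) :
    ∑ k : UNL.G M, φ (rp D k) = ∑ r : XR D M, F r := by
  rw [← (xmE D M).sum_comp F]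
  exact Finset.sum_congr rfl fun k _ => by rw [xmE_apply, hF]

private theorem xm_desc {M : ℕ} {φ : D.O → ℂ} (h : Pe M φ) :
    ∃ F : XR D M → ℂ, ∀ x, F (Ideal.Quotient.mk _ x) = φ x := by
  refine ⟨fun r => φ (Function.surjInv Ideal.Quotient.mk_surjective r), fun x => ?_⟩
  have h1 := Function.surjInv_eq (Ideal.Quotient.mk_surjective (I := Ideal.span {(M : D.O)}))
    (Ideal.Quotient.mk _ x)
  obtain ⟨z, hz⟩ := Ideal.mem_span_singleton'.1 (Ideal.Quotient.eq.1 h1)
  have h2 : Function.surjInv (Ideal.Quotient.mk_surjective (I := Ideal.span {(M : D.O)}))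
      (Ideal.Quotient.mk _ x) = x + (M : D.O) * z := by
    rw [mul_comm, hz]
    ring
  show φ _ = φ x
  rw [h2, h]

open Classical in
private theorem xm_fib {A B : Type*} [AddCommGroup A] [AddCommGroup B] [Fintype A] [Fintype B]
    (f : A →+ B) (ψ : B → ℂ) :
    ∑ a : A, ψ (f a) = (Nat.card f.ker : ℂ) * ∑ b ∈ Finset.univ.filter (fun b => b ∈ f.range), ψ b := by
  rw [← Finset.sum_fiberwise Finset.univ (fun a : A => f a) (fun a => ψ (f a)), Finset.mul_sum,
    Finset.sum_filter]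
  refine Finset.sum_congr rfl fun b _ => ?_
  have h1 : ∑ a ∈ Finset.univ.filter (fun a : A => f a = b), ψ (f a) =
      ((Finset.univ.filter (fun a : A => f a = b)).card : ℂ) * ψ b := by
    rw [← nsmul_eq_mul, ← Finset.sum_const]
    refine Finset.sum_congr rfl fun a ha => ?_
    rw [(Finset.mem_filter.1 ha).2]
  rw [h1]
  split_ifs with hb
  · congr 2
    obtain ⟨a0, ha0⟩ := hb
    rw [← Fintype.card_subtype, ← Nat.card_eq_fintype_card]
    refine Nat.card_congr ⟨fun a => ⟨a.1 - a0, ?_⟩, fun k => ⟨k.1 + a0, ?_⟩, ?_, ?_⟩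
    · rw [AddMonoidHom.mem_ker, map_sub, a.2, ha0, sub_self]
    · have := AddMonoidHom.mem_ker.1 k.2
      rw [map_add, this, ha0, zero_add]
    · intro a; simp
    · intro k; simp
  · have h2 : Finset.univ.filter (fun a : A => f a = b) = ∅ := by
      rw [Finset.filter_eq_empty_iff]
      intro a _ h
      exact hb ⟨a, h⟩
    rw [h2, Finset.card_empty, Nat.cast_zero, zero_mul]

open Classical in
private theorem xm_ker {A B : Type*} [AddCommGroup A] [AddCommGroup B] [Fintype A] [Fintype B]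
    (f : A →+ B) : Nat.card A = Nat.card f.ker * Nat.card f.range := by
  have h := xm_fib f (fun _ => 1)
  rw [Finset.sum_const, Finset.sum_const, nsmul_eq_mul, nsmul_eq_mul, mul_one, mul_one,
    Finset.card_univ, ← Nat.card_eq_fintype_card, ← Fintype.card_subtype,
    ← Nat.card_eq_fintype_card] at h
  exact_mod_cast h

private theorem xm_sur {A B : Type*} [AddCommGroup A] [AddCommGroup B] [Fintype A] [Fintype B]
    (f : A →+ B) (hf : Function.Surjective f) (ψ : B → ℂ) :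
    ∑ a : A, ψ (f a) = (Nat.card f.ker : ℂ) * ∑ b : B, ψ b := by
  classical
  rw [xm_fib f ψ, Finset.filter_true_of_mem]
  intro b _
  exact hf b

private theorem xm_ker_sur {A B : Type*} [AddCommGroup A] [AddCommGroup B] [Fintype A] [Fintype B]
    (f : A →+ B) (hf : Function.Surjective f) : Nat.card A = Nat.card f.ker * Nat.card B := by
  rw [xm_ker f, AddMonoidHom.range_eq_top.2 hf]
  congr 1
  exact Nat.card_congr AddSubgroup.topEquiv.toEquiv

private theorem mn_up {M M' : ℕ} [NeZero M] [NeZero M'] (h : M ∣ M') {φ : D.O → ℂ}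
    (hφ : Pe M φ) : mn D M' φ = mn D M φ := by
  obtain ⟨F, hF⟩ := xm_desc hφ
  have hle : Ideal.span {(M' : D.O)} ≤ Ideal.span {(M : D.O)} := by
    rw [Ideal.span_singleton_le_span_singleton]
    obtain ⟨k, rfl⟩ := h
    exact ⟨(k : D.O), by push_cast; ring⟩
  let f : XR D M' →+ XR D M := (Ideal.Quotient.factor hle).toAddMonoidHom
  have hf : Function.Surjective f := Ideal.Quotient.factor_surjective hle
  have hf1 : ∀ x : D.O, f (Ideal.Quotient.mk _ x) = Ideal.Quotient.mk _ x := fun x => rfl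
  have h1 : ∑ k : UNL.G M', φ (rp D k) = ∑ r : XR D M', F (f r) :=
    xm_sum fun x => by rw [hf1, hF]
  have h2 := xm_ker_sur f hf
  rw [xm_card, xm_card] at h2
  have hM : (M : ℂ) ≠ 0 := Nat.cast_ne_zero.2 (NeZero.ne M)
  have hM' : (M' : ℂ) ≠ 0 := Nat.cast_ne_zero.2 (NeZero.ne M')
  have h3 : (M' : ℂ) ^ 2 = (Nat.card f.ker : ℂ) * (M : ℂ) ^ 2 := by exact_mod_cast h2
  have h4 : (Nat.card f.ker : ℂ) ≠ 0 := by
    intro h0
    rw [h0, zero_mul] at h3
    exact hM' (pow_eq_zero_iff two_ne_zero |>.1 h3)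
  rw [mn, mn, h1, xm_sur f hf, xm_sum hF, h3]
  field_simp

private theorem nn_pos' {q : D.O} (hq : q ≠ 0) : 0 < nn D q :=
  Nat.pos_of_ne_zero fun h => hq (nn_eq_zero.1 h)

private theorem dvd_nn (q : D.O) : q ∣ ((nn D q : ℕ) : D.O) := by
  refine ⟨⟨(starRingEnd ℂ) (q : ℂ), cj_Ord q.2⟩, Subtype.ext ?_⟩
  have := nn_mul_cj D q
  rw [Subring.coe_mul, Subring.coe_natCast]
  exact this.symm

private theorem mn_T {M : ℕ} [NeZero M] {q : D.O} (hq : q ≠ 0) {φ : D.O → ℂ} (hφ : Pe M φ)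
    [NeZero (M * nn D q)] : mn D (M * nn D q) (Tf q φ) = mn D M φ := by
  rw [← mn_up (D := D) (M := M) (M' := M * nn D q) (Dvd.intro _ rfl) hφ]
  obtain ⟨F, hF⟩ := xm_desc (Tf_pe hq hφ)
  obtain ⟨H, hH⟩ := xm_desc (Pe_up (Dvd.intro (nn D q) rfl : M ∣ M * nn D q) hφ)
  have hle : Ideal.span {((M * nn D q : ℕ) : D.O)} ≤ Ideal.span {q} := by
    rw [Ideal.span_singleton_le_span_singleton]
    refine (dvd_nn q).trans ⟨(M : D.O), ?_⟩
    push_cast
    ring
  let f : XR D (M * nn D q) →+ XR D (M * nn D q) :=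
    AddMonoidHom.mulLeft (Ideal.Quotient.mk _ q)
  let g : XR D (M * nn D q) →+ D.O ⧸ Ideal.span {q} := (Ideal.Quotient.factor hle).toAddMonoidHom
  have hg : Function.Surjective g := Ideal.Quotient.factor_surjective hle
  have hfg : f.range = g.ker := by
    ext r
    obtain ⟨x, rfl⟩ := Ideal.Quotient.mk_surjective r
    rw [AddMonoidHom.mem_ker]
    have e1 : g (Ideal.Quotient.mk _ x) = Ideal.Quotient.mk _ x := rfl
    rw [e1, Ideal.Quotient.eq_zero_iff_mem, Ideal.mem_span_singleton']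
    constructor
    · rintro ⟨s, hs⟩
      obtain ⟨z, rfl⟩ := Ideal.Quotient.mk_surjective s
      have e2 : Ideal.Quotient.mk (Ideal.span {((M * nn D q : ℕ) : D.O)}) (q * z) =
          Ideal.Quotient.mk _ x := by
        rw [map_mul]
        exact hs
      have e3 := hle (Ideal.Quotient.eq.1 e2)
      obtain ⟨w, hw⟩ := Ideal.mem_span_singleton'.1 e3
      exact ⟨z - w, by rw [sub_mul, hw]; ring⟩
    · rintro ⟨z, rfl⟩
      refine ⟨Ideal.Quotient.mk _ z, ?_⟩
      exact (map_mul (Ideal.Quotient.mk _) q z).symm.trans (congrArg _ (mul_comm q z))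
  have hfin : Finite (D.O ⧸ Ideal.span {q}) := Finite.of_surjective g hg
  have : Fintype (D.O ⧸ Ideal.span {q}) := Fintype.ofFinite _
  have h2 := xm_ker f
  have h3 := xm_ker_sur g hg
  have h4 : Nat.card (D.O ⧸ Ideal.span {q}) = nn D q := ni_span q
  rw [h4, ← hfg] at h3
  have h5 : 0 < Nat.card f.range := Nat.card_pos
  have h6 : Nat.card f.ker = nn D q := by
    refine Nat.eq_of_mul_eq_mul_right h5 ?_
    rw [← h2, h3, mul_comm]
  have h7 : ∑ k : UNL.G (M * nn D q), Tf q φ (rp D k) = ∑ k : UNL.G (M * nn D q), φ (rp D k) := by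
    rw [xm_sum hF, xm_sum hH]
    classical
    have h8 := xm_fib f F
    rw [h6] at h8
    have h9 : ∑ r : XR D (M * nn D q), F (f r) =
        ((nn D q : ℕ) : ℂ) * ∑ r : XR D (M * nn D q), H r := by
      rw [Finset.mul_sum]
      refine Finset.sum_congr rfl fun r _ => ?_
      obtain ⟨x, rfl⟩ := Ideal.Quotient.mk_surjective r
      have e1 : f (Ideal.Quotient.mk _ x) = Ideal.Quotient.mk _ (q * x) := by
        rw [map_mul]
        rfl
      rw [e1, hF, hH, Tf_mul hq]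
    have h10 : ∑ b ∈ Finset.univ.filter (fun b => b ∈ f.range), F b =
        ∑ b : XR D (M * nn D q), F b := by
      rw [Finset.sum_filter]
      refine Finset.sum_congr rfl fun r _ => ?_
      split_ifs with hr
      · rfl
      · obtain ⟨x, rfl⟩ := Ideal.Quotient.mk_surjective r
        rw [hF, Tf_out]
        rintro ⟨z, rfl⟩
        exact hr ⟨Ideal.Quotient.mk _ z, by rw [map_mul]; rfl⟩
    rw [h9, h10] at h8
    exact (mul_left_cancel₀ (Nat.cast_ne_zero.2 (nn_pos' hq).ne') h8).symm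
  rw [mn, mn, h7]

private theorem mn_sub {M : ℕ} [NeZero M] (φ ψ : D.O → ℂ) :
    mn D M (fun x => φ x - ψ x) = mn D M φ - mn D M ψ := by
  rw [mn, mn, mn, Finset.sum_sub_distrib]
  ring

private theorem mn_smul {M : ℕ} [NeZero M] (a : ℂ) (φ : D.O → ℂ) :
    mn D M (fun x => a * φ x) = a * mn D M φ := by
  rw [mn, mn, ← Finset.mul_sum]
  ring

private theorem mn_one {M : ℕ} [NeZero M] : mn D M (fun _ => 1) = 1 := by
  have hM : (M : ℂ) ≠ 0 := Nat.cast_ne_zero.2 (NeZero.ne M)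
  rw [mn, Finset.sum_const, Finset.card_univ, Fintype.card_prod, ZMod.card, nsmul_eq_mul, mul_one]
  push_cast
  field_simp

/-! ### representations -/

private theorem rep_gen (Q : (D.O → ℂ) → Prop) (hQ : ∀ (a : ℂ) φ, Q φ → Q (fun x => a * φ x))
    {g : D.O → ℂ} (hg : g ∈ Submodule.span ℂ {g : D.O → ℂ | ∃ q : D.O, q ≠ 0 ∧ ∃ M : ℕ, 0 < M ∧
      ∃ φ : D.O → ℂ, Pe M φ ∧ Q φ ∧ g = fun y => Tf q φ y - φ y}) :
    ∃ (M : ℕ) (_ : NeZero M) (J : ℕ) (q : Fin J → D.O) (φ : Fin J → D.O → ℂ), Hr M q φ g ∧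
      ∀ j, Q (φ j) := by
  induction hg using Submodule.span_induction with
  | mem g h =>
    obtain ⟨q, hq, M, hM, φ, hφ, hQφ, rfl⟩ := h
    exact ⟨M, ⟨hM.ne'⟩, 1, fun _ => q, fun _ => φ, ⟨fun _ => hq, fun _ => hφ, fun y => by simp⟩,
      fun _ => hQφ⟩
  | zero =>
    exact ⟨1, ⟨one_ne_zero⟩, 0, fun j => j.elim0, fun j => j.elim0,
      ⟨fun j => j.elim0, fun j => j.elim0, fun y => by simp⟩, fun j => j.elim0⟩
  | add g g' _ _ ih ih' =>
    obtain ⟨M, hM, J, q, φ, h, hq⟩ := ih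
    obtain ⟨M', hM', J', q', φ', h', hq'⟩ := ih'
    refine ⟨M * M', ⟨mul_ne_zero hM.1 hM'.1⟩, J + J', Fin.append q q', Fin.append φ φ',
      ⟨?_, ?_, ?_⟩, ?_⟩
    · intro j
      refine Fin.addCases (fun i => ?_) (fun i => ?_) j
      · rw [Fin.append_left]; exact h.ne i
      · rw [Fin.append_right]; exact h'.ne i
    · intro j
      refine Fin.addCases (fun i => ?_) (fun i => ?_) j
      · rw [Fin.append_left]; exact Pe_up (Dvd.intro _ rfl) (h.pe i)
      · rw [Fin.append_right]; exact Pe_up (Dvd.intro_left _ rfl) (h'.pe i)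
    · intro y
      rw [Fin.sum_univ_add]
      simp only [Fin.append_left, Fin.append_right]
      rw [← h.eq, ← h'.eq]
      rfl
    · intro j
      refine Fin.addCases (fun i => ?_) (fun i => ?_) j
      · rw [Fin.append_left]; exact hq i
      · rw [Fin.append_right]; exact hq' i
  | smul a g _ ih =>
    obtain ⟨M, hM, J, q, φ, h, hq⟩ := ih
    refine ⟨M, hM, J, q, fun j x => a * φ j x, ⟨h.ne, fun j x y => ?_, fun y => ?_⟩,
      fun j => hQ a _ (hq j)⟩
    · show a * φ j (x + M * y) = a * φ j x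
      rw [h.pe j]
    · show a • g y = _
      rw [smul_eq_mul, h.eq, Finset.mul_sum]
      refine Finset.sum_congr rfl fun j _ => ?_
      rw [xm_tf_smul (h.ne j)]
      ring

theorem Hsp_rep {g : D.O → ℂ} (hg : g ∈ Hsp D) : ∃ (M : ℕ) (_ : NeZero M) (J : ℕ)
    (q : Fin J → D.O) (φ : Fin J → D.O → ℂ), Hr M q φ g := by
  have h : g ∈ Submodule.span ℂ {g : D.O → ℂ | ∃ q : D.O, q ≠ 0 ∧ ∃ M : ℕ, 0 < M ∧
      ∃ φ : D.O → ℂ, Pe M φ ∧ True ∧ g = fun y => Tf q φ y - φ y} := by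
    refine Submodule.span_mono ?_ hg
    rintro g ⟨q, hq, M, hM, φ, hφ, rfl⟩
    exact ⟨q, hq, M, hM, φ, hφ, trivial, rfl⟩
  obtain ⟨M, hM, J, q, φ, h, -⟩ := rep_gen (fun _ => True) (fun _ _ _ => trivial) h
  exact ⟨M, hM, J, q, φ, h⟩

theorem Hsp0_rep {g : D.O → ℂ} (hg : g ∈ Hsp0 D) : ∃ (M : ℕ) (_ : NeZero M) (J : ℕ)
    (q : Fin J → D.O) (φ : Fin J → D.O → ℂ), Hr M q φ g ∧ ∀ j, mn D M (φ j) = 0 := by
  have h : g ∈ Submodule.span ℂ {g : D.O → ℂ | ∃ q : D.O, q ≠ 0 ∧ ∃ M : ℕ, 0 < M ∧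
      ∃ φ : D.O → ℂ, Pe M φ ∧ (∀ (L : ℕ) (_ : NeZero L), Pe L φ → mn D L φ = 0) ∧
        g = fun y => Tf q φ y - φ y} := by
    refine Submodule.span_mono ?_ hg
    rintro g ⟨q, hq, M, hM, φ, hφ, h0, rfl⟩
    refine ⟨q, hq, M, Nat.pos_of_ne_zero hM.1, φ, hφ, fun L hL hLφ => ?_, rfl⟩
    have : NeZero (M * L) := ⟨mul_ne_zero hM.1 hL.1⟩
    rw [← mn_up (M := L) (M' := M * L) (Dvd.intro_left _ rfl) hLφ,
      mn_up (M := M) (M' := M * L) (Dvd.intro _ rfl) hφ, h0]
  obtain ⟨M, hM, J, q, φ, h, h'⟩ := rep_gen _ (fun a φ hφ L hL hLφ => by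
    have := hL
    by_cases ha : a = 0
    · subst ha
      rw [mn_smul, zero_mul]
    · rw [mn_smul, hφ L hL, mul_zero]
      intro x y
      have := hLφ x y
      exact mul_left_cancel₀ ha this) h
  exact ⟨M, hM, J, q, φ, h, fun j => h' j M hM (h.pe j)⟩

/-- homomorphisms extend from a finitely generated monoid -/
private theorem ex_hom {J : ℕ} (q : Fin J → D.O) (hq : ∀ j, ((q j : D.O) : ℂ) ≠ 0)
    (l : D.O → ℂ) (hl : ∀ x y : D.O, x ≠ 0 → y ≠ 0 → l (x * y) = l x + l y) :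
    ∃ δ : Additive ℂˣ →+ ℂ, ∀ j, δ (Additive.ofMul (Units.mk0 ((q j : D.O) : ℂ) (hq j))) =
      l (q j) := by
  have hq0 : ∀ j, q j ≠ 0 := fun j h => hq j (by rw [h]; rfl)
  let e : Fin J → ℂˣ := fun j => Units.mk0 _ (hq j)
  let f : (Fin J → ℤ) →+ Additive ℂˣ :=
    { toFun := fun n => ∑ j, n j • Additive.ofMul (e j)
      map_zero' := by simp
      map_add' := by
        intro n m
        rw [← Finset.sum_add_distrib]
        refine Finset.sum_congr rfl fun j _ => ?_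
        rw [Pi.add_apply, add_zsmul] }
  let g : (Fin J → ℤ) →+ ℂ :=
    { toFun := fun n => ∑ j, n j • l (q j)
      map_zero' := by simp
      map_add' := by
        intro n m
        rw [← Finset.sum_add_distrib]
        refine Finset.sum_congr rfl fun j _ => ?_
        rw [Pi.add_apply, add_zsmul] }
  have hl1 : l 1 = 0 := by
    have := hl 1 1 one_ne_zero one_ne_zero
    rw [mul_one] at this
    linear_combination -this
  have hpow : ∀ (x : D.O) (k : ℕ), x ≠ 0 → l (x ^ k) = k * l x := by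
    intro x k hx
    induction k with
    | zero => rw [pow_zero, hl1, Nat.cast_zero, zero_mul]
    | succ k ih =>
      rw [pow_succ, hl _ _ (pow_ne_zero k hx) hx, ih]
      push_cast
      ring
  have hprod : ∀ (m : Fin J → ℕ) (S : Finset (Fin J)), l (∏ j ∈ S, q j ^ m j) =
      ∑ j ∈ S, (m j : ℂ) * l (q j) := by
    intro m S
    classical
    induction S using Finset.induction_on with
    | empty => simpa using hl1
    | insert a S ha ih =>
      rw [Finset.prod_insert ha, Finset.sum_insert ha, hl _ _ (pow_ne_zero _ (hq0 a))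
        (Finset.prod_ne_zero_iff.2 fun j _ => pow_ne_zero _ (hq0 j)), ih, hpow _ _ (hq0 a)]
  have hker : ∀ n, f n = 0 → g n = 0 := by
    intro n h
    have h1 : ∑ j, n j • Additive.ofMul (e j) = 0 := h
    have h2 : ∏ j, e j ^ n j = 1 := by
      have := congrArg Additive.toMul h1
      simpa [toMul_sum, toMul_zsmul] using this
    have h3 : (∏ j, e j ^ (n j).toNat) = ∏ j, e j ^ (-(n j)).toNat := by
      have h4 : (∏ j, e j ^ (n j).toNat) =
          (∏ j, e j ^ n j) * ∏ j, e j ^ (-(n j)).toNat := by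
        rw [← Finset.prod_mul_distrib]
        refine Finset.prod_congr rfl fun j _ => ?_
        rw [← zpow_natCast, ← zpow_natCast, ← zpow_add]
        congr 1
        omega
      rw [h4, h2, one_mul]
    have h5 : (∏ j, q j ^ (n j).toNat) = ∏ j, q j ^ (-(n j)).toNat := by
      apply Subtype.ext
      have := congrArg (Units.val : ℂˣ → ℂ) h3
      push_cast at this ⊢
      exact this
    have h6 := congrArg l h5
    rw [hprod, hprod] at h6
    show ∑ j, n j • l (q j) = 0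
    have h7 : ∀ j, n j • l (q j) = (((n j).toNat : ℕ) : ℂ) * l (q j) -
        (((-(n j)).toNat : ℕ) : ℂ) * l (q j) := by
      intro j
      rw [zsmul_eq_mul, ← sub_mul]
      congr 1
      have h8 : n j = ((n j).toNat : ℤ) - ((-(n j)).toNat : ℤ) := by omega
      conv_lhs => rw [h8]
      push_cast
      rfl
    rw [Finset.sum_congr rfl fun j _ => h7 j, Finset.sum_sub_distrib, h6, sub_self]
  let g' : ((Fin J → ℤ) ⧸ f.ker) →+ ℂ := QuotientAddGroup.lift f.ker g fun n hn => hker n hn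
  have hb : Module.Baer ℤ ℂ := Module.Baer.of_divisible ℂ
  obtain ⟨h, hh⟩ := Module.Baer.extension_property hb
    (QuotientAddGroup.kerLift f).toIntLinearMap (QuotientAddGroup.kerLift_injective f)
    g'.toIntLinearMap
  refine ⟨h.toAddMonoidHom, fun j => ?_⟩
  have h1 := congrArg (fun F => F (QuotientAddGroup.mk (Pi.single j 1))) hh
  have h2 : f (Pi.single j 1) = Additive.ofMul (e j) := by
    show ∑ i, (Pi.single j 1 : Fin J → ℤ) i • Additive.ofMul (e i) = _
    rw [Finset.sum_eq_single j]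
    · rw [Pi.single_eq_same, one_zsmul]
    · intro i _ hi
      rw [Pi.single_eq_of_ne hi, zero_zsmul]
    · intro hj
      exact absurd (Finset.mem_univ j) hj
  have h3 : g (Pi.single j 1) = l (q j) := by
    show ∑ i, (Pi.single j 1 : Fin J → ℤ) i • l (q i) = _
    rw [Finset.sum_eq_single j]
    · rw [Pi.single_eq_same, one_zsmul]
    · intro i _ hi
      rw [Pi.single_eq_of_ne hi, zero_zsmul]
    · intro hj
      exact absurd (Finset.mem_univ j) hj
  have h4 : h (f (Pi.single j 1)) = g (Pi.single j 1) := h1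
  rw [h2, h3] at h4
  exact h4

theorem Hsp0_of {M : ℕ} [NeZero M] {J : ℕ} {q : Fin J → D.O} {φ : Fin J → D.O → ℂ}
    {g : D.O → ℂ} (h : Hr M q φ g)
    (hδ : ∀ (δ : Additive ℂˣ →+ ℂ) (hq : ∀ j, ((q j : D.O) : ℂ) ≠ 0),
      ∑ j, mn D M (φ j) * δ (Additive.ofMul (Units.mk0 ((q j : D.O) : ℂ) (hq j))) = 0) :
    g ∈ Hsp0 D := by
  have hq : ∀ j, ((q j : D.O) : ℂ) ≠ 0 := fun j h0 => h.ne j (Subtype.ext h0)
  have hu : ∀ L : ℕ, Pe (D := D) L (fun _ => 1) := fun L x y => rfl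
  have hin : ∀ (r : D.O) (L : ℕ) (_ : NeZero L) (ψ : D.O → ℂ), r ≠ 0 → Pe L ψ → mn D L ψ = 0 →
      (fun y => Tf r ψ y - ψ y) ∈ Hsp0 D := fun r L hL ψ hr hψ h0 =>
    Submodule.subset_span ⟨r, hr, L, hL, ψ, hψ, h0, rfl⟩
  let lam : D.O → D.O → ℂ := fun r y => Tf r (fun _ => 1) y - 1
  have hmul : ∀ x y : D.O, x ≠ 0 → y ≠ 0 → lam (x * y) - lam x - lam y ∈ Hsp0 D := by
    intro x y hx hy
    have : NeZero (1 * nn D y) := ⟨by rw [one_mul]; exact (nn_pos' hy).ne'⟩
    have h1 : Pe (1 * nn D y) (lam y) := by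
      intro z w
      show Tf y (fun _ => 1) (z + _ * w) - 1 = Tf y (fun _ => 1) z - 1
      rw [Tf_pe hy (hu 1)]
    have h2 : mn D (1 * nn D y) (lam y) = 0 := by
      show mn D (1 * nn D y) (fun z => Tf y (fun _ => 1) z - 1) = 0
      rw [mn_sub (Tf y fun _ => 1) (fun _ => 1), mn_T hy (hu 1), mn_one, mn_one, sub_self]
    have h3 := hin x (1 * nn D y) inferInstance (lam y) hx h1 h2
    have h4 : lam (x * y) - lam x - lam y = fun z => Tf x (lam y) z - lam y z := by
      funext z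
      show Tf (x * y) (fun _ => 1) z - 1 - (Tf x (fun _ => 1) z - 1) -
        (Tf y (fun _ => 1) z - 1) = Tf x (fun z => Tf y (fun _ => 1) z - 1) z -
          (Tf y (fun _ => 1) z - 1)
      rw [xm_tf_tf hx hy, xm_tf_sub hx (Tf y fun _ => 1) (fun _ => 1)]
      ring
    rw [h4]
    exact h3
  rw [← Submodule.Quotient.mk_eq_zero (Hsp0 D), ← Module.forall_dual_apply_eq_zero_iff ℂ]
  intro L
  let L' : (D.O → ℂ) →ₗ[ℂ] ℂ := L ∘ₗ (Hsp0 D).mkQ
  have hL0 : ∀ v ∈ Hsp0 D, L' v = 0 := by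
    intro v hv
    show L ((Hsp0 D).mkQ v) = 0
    rw [Submodule.mkQ_apply, (Submodule.Quotient.mk_eq_zero (Hsp0 D)).2 hv, map_zero]
  show L' g = 0
  obtain ⟨δ, hd⟩ := ex_hom q hq (fun x => L' (lam x)) (fun x y hx hy => by
    have h1 := hL0 _ (hmul x y hx hy)
    rw [map_sub, map_sub] at h1
    linear_combination h1)
  have h1 := hδ δ hq
  have h2 : g - ∑ j, mn D M (φ j) • lam (q j) ∈ Hsp0 D := by
    have h3 : g - ∑ j, mn D M (φ j) • lam (q j) =
        ∑ j, fun y => Tf (q j) (fun x => φ j x - mn D M (φ j) * 1) y -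
          (φ j y - mn D M (φ j) * 1) := by
      funext y
      rw [Pi.sub_apply, Finset.sum_apply, Finset.sum_apply, h.eq, ← Finset.sum_sub_distrib]
      refine Finset.sum_congr rfl fun j _ => ?_
      rw [xm_tf_sub (h.ne j) (φ j) (fun _ => mn D M (φ j) * 1),
        xm_tf_smul (h.ne j) (mn D M (φ j)) (fun _ => 1), Pi.smul_apply, smul_eq_mul]
      show _ - mn D M (φ j) * (Tf (q j) (fun _ => 1) y - 1) = _
      ring
    rw [h3]
    refine Submodule.sum_mem _ fun j _ => ?_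
    refine hin (q j) M inferInstance (fun y => φ j y - mn D M (φ j) * 1) (h.ne j) ?_ ?_
    · intro x y
      show φ j (x + M * y) - _ = φ j x - _
      rw [h.pe j]
    · rw [mn_sub (φ j) (fun _ => mn D M (φ j) * 1), mn_smul _ (fun _ => 1), mn_one, mul_one,
        sub_self]
  have h4 := hL0 _ h2
  rw [map_sub, map_sum, sub_eq_zero] at h4
  rw [h4, ← h1]
  refine Finset.sum_congr rfl fun j _ => ?_
  rw [map_smul, smul_eq_mul, hd]

end

end RNG
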