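import Pool.Agent.RNG.Xm
import Pool.Agent.RNG.Upg

/-!
# RNG.Xt: relations between functions on `O` and relations between weights

`tr A (y) = Σ_k A(k) ψ(y tp k)`, `ψ = pss D`, `A : G M → ℂ`.
1. A function `φ` of period `M'` is `tr c'`, `c'(k) = M'⁻² Σ_r φ(rp r) ψ(-rp r tp k)` (`orth`), `c'(0) = mn φ`.
2. Let `M₀ = N M' ∏_j nn (q_j)`, `M₀ ∣ M`, `q = q_j`, `c = upc c' : G M → ℂ` (supported on the `M'`-torsion, which is contained in `q G(M)`: `q` divides `M / M'`). Then `tr c = φ` (`tr_up`) and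
  `tr (k ↦ c (q k)) = T_q φ`. So `T_q φ - φ = tr (Rc q c)` (`c` is supported on `q G`).
3. `tr` is injective (`orthk`), and `tr (upc A) = tr A`.
-/

open RNK

namespace RNG

noncomputable section

variable {D : RNP.OD}

open Classical in
/-- the relation `k ↦ c (q k) - [k ∈ q G] c k` -/
def Rc (b : UNL.Par) {M : ℕ} (q : ℤ × ℤ) (c : UNL.G M → ℂ) (k : UNL.G M) : ℂ :=
  c (UNL.sm b q k) - if ∃ m : UNL.G M, UNL.sm b q m = k then c k else 0

/-! ### the classes -/

private theorem xt_cod_add (x y : D.O) : cod D (x + y) = cod D x + cod D y := by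
  have h1 : x + y = el D (cod D x + cod D y) := by rw [el_add, el_cod, el_cod]
  rw [h1, cod_el]

private theorem xt_cls_add {N : ℕ} (x y : D.O) : cls N (x + y) = cls N x + cls N y := by
  rw [cls, cls, cls, xt_cod_add]
  refine Prod.ext ?_ ?_ <;> simp

private theorem xt_cls_zero {N : ℕ} : cls N (0 : D.O) = 0 := by
  have h := xt_cls_add (N := N) (0 : D.O) 0
  rw [add_zero] at h
  exact left_eq_add.1 h

private def xtc (D : RNP.OD) (N : ℕ) : D.O →+ UNL.G N where
  toFun := cls N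
  map_zero' := xt_cls_zero
  map_add' := xt_cls_add

private theorem xt_cls_nsmul {N : ℕ} (n : ℕ) (x : D.O) : cls N ((n : D.O) * x) = n • cls N x := by
  have h := map_nsmul (xtc D N) n x
  rw [← nsmul_eq_mul]
  exact h

variable {M : ℕ} [NeZero M]

private theorem xt_rp (y : D.O) (k : UNL.G M) :
    ∃ z : D.O, y * rp D k = rp D (ac y k) + (M : D.O) * z := by
  have h := tp_sm (D := D) (cod D y) k
  rw [de_toU, xx_cod] at h
  have hm : (M : ℂ) ≠ 0 := Nat.cast_ne_zero.2 (NeZero.ne M)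
  have e : UNL.tp (toU D.a) (UNL.sm (toU D.a) (cod D y) k) =
      ((rp D (ac y k) : D.O) : ℂ) / M := tp_rp _
  rw [e, tp_rp] at h
  refine ⟨⟨_, h⟩, Subtype.ext ?_⟩
  simp only [Subring.coe_add, Subring.coe_mul, Subring.coe_natCast]
  field_simp
  ring

private theorem xt_cls_mul (q x : D.O) : cls M (q * x) = ac q (cls M x) := by
  obtain ⟨y, hy⟩ := rp_cls (N := M) x
  obtain ⟨z, hz⟩ := xt_rp (M := M) q (cls M x)
  have h1 : q * x = rp D (ac q (cls M x)) + (M : D.O) * (z + q * y) := by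
    have h2 : q * x = q * rp D (cls M x) + (M : D.O) * (q * y) := by
      conv_lhs => rw [hy]
      ring
    rw [h2, hz]
    ring
  have h3 := cls_eq.2 ⟨_, h1⟩
  rw [cls_rp] at h3
  exact h3

private theorem xt_nz {q q' : D.O} (h : q * q' = (M : D.O)) : q ≠ 0 := by
  rintro rfl
  rw [zero_mul] at h
  have h1 := congrArg (fun t : D.O => (t : ℂ)) h
  simp only [Subring.coe_zero, Subring.coe_natCast] at h1
  exact (Nat.cast_ne_zero.2 (NeZero.ne M)) h1.symm

/-- the kernel of the multiplication by `q` -/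
private theorem xt_ker {q q' : D.O} (h : q * q' = (M : D.O)) {k : UNL.G M} :
    ac q k = 0 ↔ ∃ z, rp D k = q' * z := by
  have hq := xt_nz h
  have e : ac q k = cls M (q * rp D k) := by rw [xt_cls_mul, cls_rp]
  rw [e, ← xt_cls_zero (D := D), cls_eq]
  constructor
  · rintro ⟨z, hz⟩
    refine ⟨z, mul_left_cancel₀ hq ?_⟩
    rw [hz, ← h]
    ring
  · rintro ⟨z, hz⟩
    refine ⟨z, ?_⟩
    rw [hz, ← h]
    ring

private theorem xt_ker_card {q q' : D.O} (h : q * q' = (M : D.O)) :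
    Nat.card {k : UNL.G M // ac q k = 0} = nn D q := by
  have hq := xt_nz h
  have hq' : q' ≠ 0 := xt_nz (q := q') (q' := q) (by rw [mul_comm]; exact h)
  rw [← ni_span]
  symm
  have h1 : ∀ x : D.O, ac q (cls M (q' * x)) = 0 := by
    intro x
    rw [← xt_cls_mul, ← mul_assoc, h, ← xt_cls_zero (D := D), cls_eq]
    exact ⟨x, by ring⟩
  refine Nat.card_eq_of_bijective (fun t : D.O ⧸ (Ideal.span {q} : Ideal D.O) =>
    (⟨cls M (q' * Quotient.out t), h1 _⟩ : {k : UNL.G M // ac q k = 0})) ⟨?_, ?_⟩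
  · intro s t hst
    have h2 : cls M (q' * Quotient.out s) = cls M (q' * Quotient.out t) :=
      congrArg Subtype.val hst
    obtain ⟨z, hz⟩ := cls_eq.1 h2
    have h3 : Quotient.out s - Quotient.out t = q * z := by
      apply mul_left_cancel₀ hq'
      rw [mul_sub, hz, ← h]
      ring
    have h4 : (Ideal.Quotient.mk (Ideal.span {q}) (Quotient.out s)) =
        Ideal.Quotient.mk (Ideal.span {q}) (Quotient.out t) := by
      rw [Ideal.Quotient.eq, h3]
      exact Ideal.mul_mem_right _ _ (Ideal.mem_span_singleton_self q)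
    have h5 : ∀ t : D.O ⧸ (Ideal.span {q} : Ideal D.O),
        Ideal.Quotient.mk (Ideal.span {q}) (Quotient.out t) = t := fun t => Quotient.out_eq t
    rw [h5, h5] at h4
    exact h4
  · rintro ⟨k, hk⟩
    obtain ⟨z, hz⟩ := (xt_ker h).1 hk
    refine ⟨Ideal.Quotient.mk (Ideal.span {q}) z, Subtype.ext ?_⟩
    show cls M (q' * Quotient.out (Ideal.Quotient.mk (Ideal.span {q}) z)) = k
    have h5 : Ideal.Quotient.mk (Ideal.span {q})
        (Quotient.out (Ideal.Quotient.mk (Ideal.span {q}) z)) =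
        Ideal.Quotient.mk (Ideal.span {q}) z := Quotient.out_eq _
    rw [Ideal.Quotient.eq, Ideal.mem_span_singleton] at h5
    obtain ⟨w, hw⟩ := h5
    have h6 : q' * Quotient.out (Ideal.Quotient.mk (Ideal.span {q}) z) =
        rp D k + (M : D.O) * w := by
      rw [hz, ← h]
      linear_combination q' * hw
    have h7 := cls_eq.2 ⟨w, h6⟩
    rw [cls_rp] at h7
    exact h7

/-! ### the transform -/

private def xtr (D : RNP.OD) (A : UNL.G M → ℂ) (y : D.O) : ℂ :=
  ∑ k : UNL.G M, A k * pss D ((y : ℂ) * UNL.tp (toU D.a) k)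

private theorem xt_ac_add (q : D.O) (k l : UNL.G M) : ac q (k + l) = ac q k + ac q l :=
  ac_addk q k l

private theorem xt_fib {q q' : D.O} (h : q * q' = (M : D.O)) {m : UNL.G M}
    (hm : ∃ k, ac q k = m) :
    (Finset.univ.filter (fun k : UNL.G M => ac q k = m)).card = nn D q := by
  obtain ⟨k0, hk0⟩ := hm
  rw [← xt_ker_card h, Nat.card_eq_fintype_card, ← Fintype.card_subtype]
  refine Fintype.card_congr ⟨fun k => ⟨k.1 - k0, ?_⟩, fun k => ⟨k.1 + k0, ?_⟩, ?_, ?_⟩
  · rw [sub_eq_add_neg, ac_addk, ac_negk, k.2, hk0, add_neg_cancel]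
  · rw [ac_addk, k.2, hk0, zero_add]
  · intro k; simp
  · intro k; simp

/-- the transform of `c (q k)` -/
private theorem xt_T {q q' : D.O} (h : q * q' = (M : D.O)) {c : UNL.G M → ℂ}
    (hc : ∀ k, c k ≠ 0 → ∃ m, ac q m = k) (y : D.O) :
    xtr D (fun k => c (ac q k)) y = Tf q (xtr D c) y := by
  have hq := xt_nz h
  have hq' : q' ≠ 0 := xt_nz (q := q') (q' := q) (by rw [mul_comm]; exact h)
  by_cases hy : q ∣ y
  · obtain ⟨z, rfl⟩ := hy
    rw [Tf_mul hq]
    unfold xtr
    have h1 : ∀ k : UNL.G M, c (ac q k) * pss D (((q * z : D.O) : ℂ) * UNL.tp (toU D.a) k) =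
        (fun m : UNL.G M => c m * pss D ((z : ℂ) * UNL.tp (toU D.a) m)) (ac q k) := by
      intro k
      have h2 := pss_ac q z k
      simp only
      rw [h2, Subring.coe_mul, mul_comm (q : ℂ) (z : ℂ)]
    rw [Finset.sum_congr rfl fun k _ => h1 k]
    rw [← Finset.sum_fiberwise_of_maps_to (s := Finset.univ) (t := Finset.univ)
      (g := fun k : UNL.G M => ac q k) (fun _ _ => Finset.mem_univ _), Finset.mul_sum]
    refine Finset.sum_congr rfl fun m _ => ?_
    have h3 : ∀ k ∈ Finset.univ.filter (fun k : UNL.G M => ac q k = m),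
        (fun m : UNL.G M => c m * pss D ((z : ℂ) * UNL.tp (toU D.a) m)) (ac q k) =
          c m * pss D ((z : ℂ) * UNL.tp (toU D.a) m) := by
      intro k hk
      rw [(Finset.mem_filter.1 hk).2]
    rw [Finset.sum_congr rfl h3, Finset.sum_const, nsmul_eq_mul]
    by_cases hm : c m = 0
    · rw [hm, zero_mul, mul_zero, mul_zero]
    · rw [xt_fib h (hc m hm)]
  · rw [Tf_out hy]
    have h1 : ∃ k0 : UNL.G M, ac q k0 = 0 ∧ pss D ((y : ℂ) * UNL.tp (toU D.a) k0) ≠ 1 := by
      by_contra hcon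
      push Not at hcon
      apply hy
      obtain ⟨z, hz, e⟩ := ps_perfect (D := D) (N := M) (x := ((y * q' : D.O) : ℂ))
        (y * q' : D.O).2 (fun k => by
          have h2 := pss_ac q' y k
          have h3 : ac q (ac q' k) = 0 := by
            rw [← ac_mul, h, ac_nat]
          have h4 := hcon _ h3
          rw [h2] at h4
          rw [Subring.coe_mul]
          exact h4)
      refine ⟨⟨z, hz⟩, ?_⟩
      apply mul_right_cancel₀ hq'
      refine Subtype.ext ?_
      rw [e]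
      have h5 := congrArg (fun t : D.O => (t : ℂ)) h
      simp only [Subring.coe_mul, Subring.coe_natCast] at h5 ⊢
      rw [← h5]
      ring
    obtain ⟨k0, hk0, hne⟩ := h1
    have h2 : xtr D (fun k => c (ac q k)) y = xtr D (fun k => c (ac q k)) y *
        pss D ((y : ℂ) * UNL.tp (toU D.a) k0) := by
      unfold xtr
      rw [Finset.sum_mul, ← Equiv.sum_comp (Equiv.addRight k0)]
      refine Finset.sum_congr rfl fun k _ => ?_
      simp only [Equiv.coe_addRight]
      rw [ac_addk, hk0, add_zero, pss_addk]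
      ring
    have h3 : xtr D (fun k => c (ac q k)) y * (pss D ((y : ℂ) * UNL.tp (toU D.a) k0) - 1) = 0 := by
      rw [mul_sub, ← h2, mul_one, sub_self]
    exact (mul_eq_zero.1 h3).resolve_right (sub_ne_zero.2 hne)

private theorem xt_inj {A B : UNL.G M → ℂ} (h : ∀ y : D.O, xtr D A y = xtr D B y)
    (l : UNL.G M) : A l = B l := by
  have hM : (M : ℂ) ≠ 0 := Nat.cast_ne_zero.2 (NeZero.ne M)
  have key : ∀ A : UNL.G M → ℂ, ∑ r : UNL.G M, xtr D A (rp D r) *
      pss D ((rp D r : ℂ) * UNL.tp (toU D.a) (-l)) = A l * (M : ℂ) ^ 2 := by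
    intro A
    have h1 : ∀ r : UNL.G M, xtr D A (rp D r) * pss D ((rp D r : ℂ) * UNL.tp (toU D.a) (-l)) =
        ∑ k : UNL.G M, A k * pss D ((rp D r : ℂ) * UNL.tp (toU D.a) (k + -l)) := by
      intro r
      unfold xtr
      rw [Finset.sum_mul]
      refine Finset.sum_congr rfl fun k _ => ?_
      rw [pss_addk, mul_assoc]
    rw [Finset.sum_congr rfl fun r _ => h1 r, Finset.sum_comm]
    have h2 : ∀ k : UNL.G M, ∑ r : UNL.G M, A k * pss D ((rp D r : ℂ) *
        UNL.tp (toU D.a) (k + -l)) = if k = l then A k * (M : ℂ) ^ 2 else 0 := by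
      intro k
      rw [← Finset.mul_sum, orthk]
      by_cases hk : k = l
      · rw [if_pos hk, if_pos (by rw [hk, add_neg_cancel])]
      · rw [if_neg hk, if_neg (fun h' => hk (by rwa [← sub_eq_add_neg, sub_eq_zero] at h')),
          mul_zero]
    rw [Finset.sum_congr rfl fun k _ => h2 k, Finset.sum_ite_eq' Finset.univ l]
    simp
  have h1 := key A
  have h2 := key B
  have h3 : A l * (M : ℂ) ^ 2 = B l * (M : ℂ) ^ 2 := by
    rw [← h1, ← h2]
    exact Finset.sum_congr rfl fun r _ => by rw [h]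
  exact mul_right_cancel₀ (pow_ne_zero 2 hM) h3

/-- a periodic function is a transform -/
private theorem xt_rep {φ : D.O → ℂ} (hφ : Pe M φ) :
    ∃ c : UNL.G M → ℂ, c 0 = mn D M φ ∧ ∀ y, xtr D c y = φ y := by
  classical
  have hM : (M : ℂ) ≠ 0 := Nat.cast_ne_zero.2 (NeZero.ne M)
  refine ⟨fun k => 1 / (M : ℂ) ^ 2 * ∑ r : UNL.G M, φ (rp D r) *
    pss D (((-rp D r : D.O) : ℂ) * UNL.tp (toU D.a) k), ?_, fun y => ?_⟩
  · show 1 / (M : ℂ) ^ 2 * _ = 1 / (M : ℂ) ^ 2 * _
    congr 1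
    refine Finset.sum_congr rfl fun r _ => ?_
    have h1 := pss_addk (-rp D r) (0 : UNL.G M) 0
    rw [add_zero] at h1
    have h2 : pss D (((-rp D r : D.O) : ℂ) * UNL.tp (toU D.a) (0 : UNL.G M)) ≠ 0 := by
      intro h0
      have h3 := pss_norm (D := D) (((-rp D r : D.O) : ℂ) * UNL.tp (toU D.a) (0 : UNL.G M))
      rw [h0, norm_zero] at h3
      exact zero_ne_one h3
    have h4 : pss D (((-rp D r : D.O) : ℂ) * UNL.tp (toU D.a) (0 : UNL.G M)) = 1 := by
      have h5 : pss D (((-rp D r : D.O) : ℂ) * UNL.tp (toU D.a) (0 : UNL.G M)) * 1 =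
        pss D (((-rp D r : D.O) : ℂ) * UNL.tp (toU D.a) (0 : UNL.G M)) *
          pss D (((-rp D r : D.O) : ℂ) * UNL.tp (toU D.a) (0 : UNL.G M)) := by
        rw [mul_one]
        exact h1
      exact (mul_left_cancel₀ h2 h5).symm
    rw [h4, mul_one]
  · have h1 : xtr D (fun k : UNL.G M => 1 / (M : ℂ) ^ 2 * ∑ r : UNL.G M, φ (rp D r) *
        pss D (((-rp D r : D.O) : ℂ) * UNL.tp (toU D.a) k)) y =
        1 / (M : ℂ) ^ 2 * ∑ r : UNL.G M, φ (rp D r) * ∑ k : UNL.G M,
          pss D (((y - rp D r : D.O) : ℂ) * UNL.tp (toU D.a) k) := by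
      unfold xtr
      have h2 : ∀ k : UNL.G M, 1 / (M : ℂ) ^ 2 * (∑ r : UNL.G M, φ (rp D r) *
          pss D (((-rp D r : D.O) : ℂ) * UNL.tp (toU D.a) k)) *
          pss D ((y : ℂ) * UNL.tp (toU D.a) k) = ∑ r : UNL.G M, 1 / (M : ℂ) ^ 2 * (φ (rp D r) *
          pss D (((y - rp D r : D.O) : ℂ) * UNL.tp (toU D.a) k)) := by
        intro k
        rw [mul_assoc, Finset.sum_mul, Finset.mul_sum]
        refine Finset.sum_congr rfl fun r _ => ?_
        rw [mul_assoc (φ (rp D r)), ← pss_add]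
        congr 3
        have e1 : ((y - rp D r : D.O) : ℂ) = (y : ℂ) - ((rp D r : D.O) : ℂ) := rfl
        have e2 : ((-rp D r : D.O) : ℂ) = -((rp D r : D.O) : ℂ) := rfl
        rw [e1, e2]
        ring
      rw [Finset.sum_congr rfl fun k _ => h2 k, Finset.sum_comm, Finset.mul_sum]
      refine Finset.sum_congr rfl fun r _ => ?_
      rw [Finset.mul_sum, Finset.mul_sum]
    rw [h1]
    have h3 : ∀ r : UNL.G M, φ (rp D r) * ∑ k : UNL.G M,
        pss D (((y - rp D r : D.O) : ℂ) * UNL.tp (toU D.a) k) =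
        if r = cls M y then φ y * (M : ℂ) ^ 2 else 0 := by
      intro r
      rw [orth]
      by_cases hr : r = cls M y
      · obtain ⟨z, hz⟩ := rp_cls (N := M) y
        rw [if_pos hr, if_pos ⟨z, by
          conv_lhs => rw [hz]
          rw [hr]
          ring⟩]
        congr 1
        rw [hr]
        conv_rhs => rw [hz]
        rw [hφ]
      · rw [if_neg hr, if_neg, mul_zero]
        rintro ⟨z, hz⟩
        apply hr
        have h4 : y = rp D r + (M : D.O) * z := by rw [← hz]; ring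
        have h5 : cls M y = cls M (rp D r) := cls_eq.2 ⟨z, h4⟩
        rw [cls_rp] at h5
        exact h5.symm
    rw [Finset.sum_congr rfl fun r _ => h3 r, Finset.sum_ite_eq' Finset.univ (cls M y)]
    simp only [Finset.mem_univ, if_true]
    field_simp

theorem rep_wt {N : ℕ} [NeZero N] {A : UNL.G N → ℂ} {M' : ℕ} [NeZero M'] {J : ℕ}
    {q : Fin J → D.O} {φ : Fin J → D.O → ℂ}
    (h : Hr M' q φ (fun y => ∑ k : UNL.G N, A k * pss D ((y : ℂ) * UNL.tp (toU D.a) k))) :
    ∃ M₀ : ℕ, 0 < M₀ ∧ N ∣ M₀ ∧ ∀ M : ℕ, ∀ _ : NeZero M, M₀ ∣ M →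
      (∀ j, ∃ q' : D.O, q j * q' = (M : D.O)) ∧
      ∃ c : Fin J → UNL.G M → ℂ, (∀ j, c j 0 = mn D M' (φ j)) ∧
        ∀ k : UNL.G M, upc A k = ∑ j, Rc (toU D.a) (cod D (q j)) (c j) k := by
  classical
  have hnn : ∀ j, nn D (q j) ≠ 0 := fun j h0 => h.ne j (nn_eq_zero.1 h0)
  have hP : ∀ j, nn D (q j) ∣ ∏ i, nn D (q i) := fun j =>
    Finset.dvd_prod_of_mem (fun i => nn D (q i)) (Finset.mem_univ j)
  have hP0 : ∏ i, nn D (q i) ≠ 0 := Finset.prod_ne_zero_iff.2 fun i _ => hnn i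
  refine ⟨N * (M' * ∏ i, nn D (q i)), Nat.pos_of_ne_zero (Nat.mul_ne_zero (NeZero.ne N)
    (Nat.mul_ne_zero (NeZero.ne M') hP0)), Dvd.intro _ rfl, fun M hMz hM => ?_⟩
  have hNM : N ∣ M := (Dvd.intro _ rfl).trans hM
  have hM'M : M' ∣ M := ((Dvd.intro _ rfl : M' ∣ M' * ∏ i, nn D (q i)).trans
    (Dvd.intro_left N rfl)).trans hM
  have hj : ∀ j, ∃ t : ℕ, M = M' * nn D (q j) * t := by
    intro j
    have h1 : M' * nn D (q j) ∣ M := ((mul_dvd_mul_left M' (hP j)).trans
      (Dvd.intro_left N rfl)).trans hM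
    exact h1
  have hcj : ∀ j, ((nn D (q j) : ℕ) : D.O) = q j * cj (q j) := by
    intro j
    refine Subtype.ext ?_
    show (((nn D (q j) : ℕ) : D.O) : ℂ) = (q j : ℂ) * (starRingEnd ℂ) (q j : ℂ)
    rw [nn_mul_cj]
    simp
  have hqq : ∀ j, ∃ q' : D.O, q j * q' = (M : D.O) := by
    intro j
    obtain ⟨t, ht⟩ := hj j
    refine ⟨cj (q j) * ((M' * t : ℕ) : D.O), ?_⟩
    rw [← mul_assoc, ← hcj, ht]
    push_cast
    ring
  refine ⟨hqq, ?_⟩
  choose c' hc0 hc' using fun j => xt_rep (D := D) (h.pe j)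
  have hc : ∀ j y, xtr D (upc (c' j) : UNL.G M → ℂ) y = φ j y := by
    intro j y
    rw [← hc' j y]
    exact tr_up hM'M (c' j) y
  have hs : ∀ j (k : UNL.G M), (upc (c' j) : UNL.G M → ℂ) k ≠ 0 → ∃ m, ac (q j) m = k := by
    intro j k hk
    have h1 : M' • k = 0 := by
      by_contra h0
      exact hk (if_neg h0)
    obtain ⟨t, ht⟩ := hj j
    have h2 : cls M ((M' : D.O) * rp D k) = 0 := by
      rw [xt_cls_nsmul, cls_rp, h1]
    rw [← xt_cls_zero (D := D), cls_eq] at h2
    obtain ⟨z, hz⟩ := h2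
    have hM'0 : (M' : D.O) ≠ 0 := by
      intro h0
      have h1 := congrArg (fun t : D.O => (t : ℂ)) h0
      simp only [Subring.coe_zero, Subring.coe_natCast] at h1
      exact (Nat.cast_ne_zero.2 (NeZero.ne M')) h1
    have h3 : rp D k = q j * (cj (q j) * (t : D.O) * z) := by
      apply mul_left_cancel₀ hM'0
      rw [hz, zero_add]
      have h4 : ((M : ℕ) : D.O) = (M' : D.O) * (q j * cj (q j)) * (t : D.O) := by
        rw [← hcj]
        conv_lhs => rw [ht]
        push_cast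
        ring
      rw [h4]
      ring
    refine ⟨cls M (cj (q j) * (t : D.O) * z), ?_⟩
    rw [← xt_cls_mul, ← h3, cls_rp]
  refine ⟨fun j => upc (c' j), fun j => ?_, fun k => ?_⟩
  · rw [← hc0 j]
    show (if M' • (0 : UNL.G M) = 0 then c' j (dn 0) else 0) = c' j 0
    rw [if_pos (smul_zero _), (dn_zero hM'M (smul_zero _)).2 rfl]
  · refine xt_inj (D := D) (A := upc A)
      (B := fun k => ∑ j, Rc (toU D.a) (cod D (q j)) (upc (c' j)) k) (fun y => ?_) k
    have h1 : xtr D (upc A : UNL.G M → ℂ) y = ∑ j, (Tf (q j) (φ j) y - φ j y) := by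
      rw [← h.eq y]
      exact tr_up hNM A y
    rw [h1]
    have h2 : ∀ j (k : UNL.G M), Rc (toU D.a) (cod D (q j)) (upc (c' j)) k =
        (upc (c' j) : UNL.G M → ℂ) (ac (q j) k) - (upc (c' j) : UNL.G M → ℂ) k := by
      intro j k
      unfold Rc
      congr 1
      by_cases hk : ∃ m : UNL.G M, UNL.sm (toU D.a) (cod D (q j)) m = k
      · rw [if_pos hk]
      · rw [if_neg hk]
        by_contra h0
        exact hk (hs j k (Ne.symm h0))
    have h3 : xtr D (fun k : UNL.G M => ∑ j, Rc (toU D.a) (cod D (q j)) (upc (c' j)) k) y =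
        ∑ j, (xtr D (fun k : UNL.G M => (upc (c' j) : UNL.G M → ℂ) (ac (q j) k)) y -
          xtr D (upc (c' j) : UNL.G M → ℂ) y) := by
      unfold xtr
      simp only [h2, Finset.sum_mul, sub_mul]
      rw [Finset.sum_comm]
      refine Finset.sum_congr rfl fun j _ => ?_
      rw [Finset.sum_sub_distrib]
    rw [h3]
    refine Finset.sum_congr rfl fun j _ => ?_
    obtain ⟨q', hq'⟩ := hqq j
    rw [xt_T hq' (hs j) y, hc j y]
    have h4 : xtr D (upc (c' j) : UNL.G M → ℂ) = φ j := funext (hc j)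
    rw [h4]

end

end RNG
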