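import Pool.Agent.RNG.Xd

/-!
# RNG.Xv: the functions `vv ξ G` and the operators `T_q`

* `xc_norm`: `I` prime to `F`: `I^k = (x)` (`pow_pr`), `x` prime to `F`, so a power `x^j ≡ 1` mod `F` (`D.O ⧸ F` is finite: `ni`),
  `ξ(I)^{k j} = ξ((x^j)) = ξ((1)) = 1` (`ray`).
* `vv_wd` (well defined): `z, z' ≠ 0`, `z - z' ∈ G F`, `G B = (z)`, `G B' = (z')`. Choose an ideal `J` prime to `F` in the class of `G`:
  `r J = s G` (`rp_ex` with `M = ni F`). Then `r B J = s (z)`: `s z = r w`, `B J = (w)`, `B' J = (w')`, `r (w - w') = s (z - z')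
  ∈ s G F = r J F`, so `w - w' ∈ J F ⊆ F`, `ξ(B J) = ξ(B' J)` (`ray`), and `ξ(J) ≠ 0`.
* `vv_T`: for `y = q z` the conditions which define `vv ξ G z` and `vv ξ ((q) G) y` are the same.
  If `q ∤ y` then `y ∉ (q) G`.
-/

open RNK

namespace RNG

noncomputable section

variable {D : RNP.OD}

theorem Tf_mul {q : D.O} (hq : q ≠ 0) (φ : D.O → ℂ) (z : D.O) :
    Tf q φ (q * z) = ((nn D q : ℕ) : ℂ) * φ z := by
  have h : ∃ w, q * z = q * w := ⟨z, rfl⟩
  have h1 : z = Classical.choose h := mul_left_cancel₀ hq (Classical.choose_spec h)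
  unfold Tf
  rw [dif_pos h, ← h1]

theorem Tf_out {q y : D.O} (h : ¬ q ∣ y) (φ : D.O → ℂ) : Tf q φ y = 0 := by
  unfold Tf
  rw [dif_neg]
  rintro ⟨z, hz⟩
  exact h ⟨z, hz⟩

theorem Tf_pe {q : D.O} (hq : q ≠ 0) {M : ℕ} {φ : D.O → ℂ} (hφ : Pe M φ) :
    Pe (M * nn D q) (Tf q φ) := by
  intro x y
  have h1 : ((nn D q : ℕ) : D.O) = q * cj q := by
    apply Subtype.ext
    have h := nn_mul_cj D q
    rw [Subring.coe_mul]
    show ((((nn D q : ℕ) : D.O)) : ℂ) = (q : ℂ) * (starRingEnd ℂ) (q : ℂ)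
    rw [h]
    push_cast
    rfl
  have h2 : x + ((M * nn D q : ℕ) : D.O) * y = x + q * (M * (cj q * y)) := by
    rw [Nat.cast_mul, h1]
    ring
  rw [h2]
  by_cases h : q ∣ x
  · obtain ⟨z, rfl⟩ := h
    rw [← mul_add, Tf_mul hq, Tf_mul hq, hφ]
  · have h3 : ¬ q ∣ x + q * (M * (cj q * y)) := by
      intro h4
      exact h ((dvd_add_left (Dvd.intro _ rfl)).1 h4)
    rw [Tf_out h, Tf_out h3]

theorem Pe_up {M M' : ℕ} (h : M ∣ M') {φ : D.O → ℂ} (hφ : Pe M φ) : Pe M' φ := by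
  obtain ⟨k, rfl⟩ := h
  intro x y
  rw [Nat.cast_mul, mul_assoc]
  exact hφ x _

section ded

variable [IsDedekindDomain D.O] {F : Ideal D.O} (hF : F ≠ ⊥) (ξ : Xc D F)

omit [IsDedekindDomain D.O] in
theorem xc_top : ξ.f ⊤ = 1 := by
  have h1 : ξ.f ⊤ ≠ 0 := by
    rw [ξ.ne]
    refine ⟨top_ne_bot, ?_⟩
    rw [Ideal.isCoprime_iff_sup_eq, top_sup_eq]
  have h2 := ξ.mul ⊤ ⊤
  rw [Ideal.top_mul] at h2
  exact (mul_left_cancel₀ h1 (by rw [← h2, mul_one])).symm

omit [IsDedekindDomain D.O] in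
theorem xc_bot : ξ.f ⊥ = 0 := by
  by_contra h
  exact ((ξ.ne ⊥).1 h).1 rfl

omit [IsDedekindDomain D.O] in
private theorem xc_pow (I : Ideal D.O) (k : ℕ) : ξ.f (I ^ k) = ξ.f I ^ k := by
  induction k with
  | zero => rw [pow_zero, pow_zero, Ideal.one_eq_top, xc_top]
  | succ k ih => rw [pow_succ, pow_succ, ξ.mul, ih]

include hF in
theorem xc_norm {I : Ideal D.O} (hI : ξ.f I ≠ 0) : ‖ξ.f I‖ = 1 := by
  obtain ⟨h0, hc⟩ := (ξ.ne I).1 hI
  obtain ⟨k, hk, x, hx, hkx⟩ := pow_pr h0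
  have hfin : Finite (D.O ⧸ F) := by
    have h1 : ni F ≠ 0 := ni_ne.2 hF
    exact Nat.finite_of_card_ne_zero h1
  have hxF : IsCoprime (Ideal.span {x}) F := by
    rw [← hkx]
    exact hc.pow_left
  have hu : IsUnit (Ideal.Quotient.mk F x) := by
    rw [Ideal.isCoprime_iff_exists] at hxF
    obtain ⟨a, ha, b, hb, hab⟩ := hxF
    obtain ⟨c, rfl⟩ := Ideal.mem_span_singleton'.1 ha
    refine IsUnit.of_mul_eq_one (Ideal.Quotient.mk F c) ?_
    have h2 : Ideal.Quotient.mk F (c * x + b) = 1 := by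
      rw [hab, map_one]
    rw [map_add, Ideal.Quotient.eq_zero_iff_mem.2 hb, add_zero, map_mul] at h2
    rw [mul_comm]
    exact h2
  obtain ⟨u, hu'⟩ := hu
  have hfu : Finite (D.O ⧸ F)ˣ := inferInstance
  obtain ⟨j, hj, hj1⟩ := (isOfFinOrder_of_finite u).exists_pow_eq_one
  have h3 : x ^ j - 1 ∈ F := by
    rw [← Ideal.Quotient.eq_zero_iff_mem, map_sub, map_pow, map_one, ← hu', ← Units.val_pow_eq_pow_val,
      hj1, Units.val_one, sub_self]
  have h4 := ξ.ray (x ^ j) 1 (pow_ne_zero j hx) one_ne_zero h3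
  rw [Ideal.span_singleton_one, xc_top, ← Ideal.span_singleton_pow, ← hkx, xc_pow, xc_pow,
    ← pow_mul] at h4
  exact Complex.norm_eq_one_of_pow_eq_one h4 (Nat.mul_ne_zero hk.ne' hj.ne')

omit [IsDedekindDomain D.O] in
/-- cancel a principal ideal -/
private theorem canc {r : D.O} (hr : r ≠ 0) {I J : Ideal D.O}
    (h : Ideal.span {r} * I = Ideal.span {r} * J) : I = J :=
  (Ideal.span_singleton_mul_right_inj hr).1 h

omit [IsDedekindDomain D.O] in
private theorem mem_canc {r x : D.O} (hr : r ≠ 0) {I : Ideal D.O}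
    (h : r * x ∈ Ideal.span {r} * I) : x ∈ I := by
  obtain ⟨z, hz, h1⟩ := Ideal.mem_span_singleton_mul.1 h
  rwa [← mul_left_cancel₀ hr h1]

include hF in
private theorem vv_wd {G B B' : Ideal D.O} {z z' : D.O} (hz : z ≠ 0) (hz' : z' ≠ 0)
    (hd : z - z' ∈ G * F) (h : G * B = Ideal.span {z}) (h' : G * B' = Ideal.span {z'}) :
    ξ.f B = ξ.f B' := by
  have hG : G ≠ ⊥ := by
    rintro rfl
    rw [Ideal.bot_mul] at h
    exact hz (Ideal.span_singleton_eq_bot.1 h.symm)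
  have hM : 0 < ni F := Nat.pos_of_ne_zero (ni_ne.2 hF)
  obtain ⟨S⟩ := rp_ex (D := D) hM
  obtain ⟨J, hJS, s, r, hs, hr, hJ⟩ := S.ex G hG
  obtain ⟨hJ0, hJc⟩ := S.cp J hJS
  have hJF : IsCoprime J F := by
    rw [Ideal.isCoprime_iff_sup_eq] at hJc ⊢
    apply le_antisymm le_top
    rw [← hJc]
    apply sup_le_sup_left
    rw [Ideal.span_singleton_le_iff_mem]
    exact ni_mem F
  have hJn : ξ.f J ≠ 0 := (ξ.ne J).2 ⟨hJ0, hJF⟩
  -- the key construction
  have key : ∀ {B : Ideal D.O} {z : D.O}, z ≠ 0 → G * B = Ideal.span {z} →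
      ∃ w : D.O, w ≠ 0 ∧ s * z = r * w ∧ B * J = Ideal.span {w} := by
    intro B z hz h
    have h1 : Ideal.span {r} * (B * J) = Ideal.span {s * z} := by
      calc Ideal.span {r} * (B * J) = (Ideal.span {r} * J) * B := by ring
        _ = (Ideal.span {s} * G) * B := by rw [hJ]
        _ = Ideal.span {s} * (G * B) := by ring
        _ = Ideal.span {s * z} := by rw [h, Ideal.span_singleton_mul_span_singleton]
    have h2 : s * z ∈ Ideal.span {r} * (B * J) := by
      rw [h1]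
      exact Ideal.mem_span_singleton_self _
    obtain ⟨w, -, hw⟩ := Ideal.mem_span_singleton_mul.1 h2
    refine ⟨w, ?_, hw.symm, ?_⟩
    · rintro rfl
      rw [mul_zero] at hw
      exact mul_ne_zero hs hz hw.symm
    · apply canc hr
      rw [h1, ← hw, Ideal.span_singleton_mul_span_singleton]
  obtain ⟨w, hw, e1, e2⟩ := key hz h
  obtain ⟨w', hw', e1', e2'⟩ := key hz' h'
  have h5 : w - w' ∈ F := by
    have h6 : r * (w - w') ∈ Ideal.span {r} * (J * F) := by
      have h7 : r * (w - w') = s * (z - z') := by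
        rw [mul_sub, mul_sub, e1, e1']
      rw [h7, ← mul_assoc, ← hJ, mul_assoc]
      exact Ideal.mul_mem_mul (Ideal.mem_span_singleton_self s) hd
    exact (Ideal.mul_le_right : J * F ≤ F) (mem_canc hr h6)
  have h8 := ξ.ray w w' hw hw' h5
  rw [← e2, ← e2', ξ.mul, ξ.mul] at h8
  exact mul_right_cancel₀ hJn h8

/-- the condition in the definition of `vv` -/
private def Vp (F G : Ideal D.O) (y : D.O) (B : Ideal D.O) : Prop :=
  ∃ z : D.O, z ≠ 0 ∧ z - y ∈ G * F ∧ G * B = Ideal.span {z}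

open Classical in
/-- the value of `f` at a chosen point of `P` -/
private def pick (f : Ideal D.O → ℂ) (P : Ideal D.O → Prop) : ℂ :=
  if h : ∃ B, P B then f (Classical.choose h) else 0

omit [IsDedekindDomain D.O] in
private theorem vv_pick (G : Ideal D.O) (y : D.O) : vv ξ G y = pick ξ.f (Vp F G y) := rfl

open Classical in
omit [IsDedekindDomain D.O] in
private theorem vv_def (G : Ideal D.O) (y : D.O) :
    vv ξ G y = if h : ∃ B, Vp F G y B then ξ.f (Classical.choose h) else 0 := rfl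

omit [IsDedekindDomain D.O] in
private theorem vv_cgr {G G' : Ideal D.O} {y y' : D.O}
    (h : ∀ B, Vp F G y B ↔ Vp F G' y' B) : vv ξ G y = vv ξ G' y' := by
  have e : Vp F G y = Vp F G' y' := funext fun B => propext (h B)
  rw [vv_pick, vv_pick, e]

include hF in
theorem vv_val {G B : Ideal D.O} (hG : G ≠ ⊥) {z : D.O} (hz : z ≠ 0)
    (h : G * B = Ideal.span {z}) : vv ξ G z = ξ.f B := by
  have h1 : ∃ B, Vp F G z B := ⟨B, z, hz, by rw [sub_self]; exact Submodule.zero_mem _, h⟩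
  rw [vv_def, dif_pos h1]
  obtain ⟨w, hw, hd, hw2⟩ := Classical.choose_spec h1
  exact vv_wd hF ξ hw hz hd hw2 h

omit [IsDedekindDomain D.O] in
theorem vv_out {G : Ideal D.O} {z : D.O} (hz : z ∉ G) : vv ξ G z = 0 := by
  rw [vv_def, dif_neg]
  rintro ⟨B, w, -, hd, hw⟩
  apply hz
  have h1 : w ∈ G := by
    have h2 : w ∈ G * B := by
      rw [hw]
      exact Ideal.mem_span_singleton_self w
    exact (Ideal.mul_le_left : G * B ≤ G) h2
  have h3 : w - z ∈ G := (Ideal.mul_le_left : G * F ≤ G) hd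
  have h4 := G.sub_mem h1 h3
  rwa [sub_sub_cancel] at h4

theorem vv_per {G : Ideal D.O} {y z : D.O} (h : z - y ∈ G * F) : vv ξ G z = vv ξ G y := by
  apply vv_cgr
  intro B
  constructor
  · rintro ⟨w, hw, hd, hB⟩
    refine ⟨w, hw, ?_, hB⟩
    have h1 := (G * F).add_mem hd h
    rwa [sub_add_sub_cancel] at h1
  · rintro ⟨w, hw, hd, hB⟩
    refine ⟨w, hw, ?_, hB⟩
    have h1 := (G * F).sub_mem hd h
    rwa [sub_sub_sub_cancel_right] at h1

theorem vv_Pe {G : Ideal D.O} {N : ℕ} (h : (N : D.O) ∈ G * F) : Pe N (vv ξ G) := by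
  intro x y
  apply vv_per
  rw [add_sub_cancel_left]
  exact (G * F).mul_mem_right y h

include hF in
theorem vv_T {G : Ideal D.O} (hG : G ≠ ⊥) {q : D.O} (hq : q ≠ 0) (y : D.O) :
    Tf q (vv ξ G) y = ((nn D q : ℕ) : ℂ) * vv ξ (Ideal.span {q} * G) y := by
  by_cases h : q ∣ y
  · obtain ⟨z, rfl⟩ := h
    rw [Tf_mul hq]
    congr 1
    apply vv_cgr
    intro B
    constructor
    · rintro ⟨w, hw, hd, hB⟩
      refine ⟨q * w, mul_ne_zero hq hw, ?_, ?_⟩
      · rw [← mul_sub, mul_assoc]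
        exact Ideal.mul_mem_mul (Ideal.mem_span_singleton_self q) hd
      · rw [mul_assoc, hB, Ideal.span_singleton_mul_span_singleton]
    · rintro ⟨w, hw, hd, hB⟩
      have h1 : w ∈ Ideal.span {q} * (G * B) := by
        rw [← mul_assoc, hB]
        exact Ideal.mem_span_singleton_self w
      obtain ⟨v, -, rfl⟩ := Ideal.mem_span_singleton_mul.1 h1
      refine ⟨v, ?_, ?_, ?_⟩
      · rintro rfl
        exact hw (mul_zero q)
      · apply mem_canc hq
        rw [mul_sub, ← mul_assoc]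
        exact hd
      · apply canc hq
        rw [← mul_assoc, hB, Ideal.span_singleton_mul_span_singleton]
  · rw [Tf_out h, vv_out, mul_zero]
    intro h1
    exact h (Ideal.mem_span_singleton.1 ((Ideal.mul_le_left : Ideal.span {q} * G ≤ Ideal.span {q}) h1))

include hF in
theorem vv_bdd (G : Ideal D.O) (y : D.O) : ‖vv ξ G y‖ ≤ 1 := by
  by_cases h : ∃ B, Vp F G y B
  · rw [vv_def, dif_pos h]
    by_cases h0 : ξ.f (Classical.choose h) = 0
    · rw [h0, norm_zero]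
      exact zero_le_one
    · exact (xc_norm hF ξ h0).le
  · rw [vv_def, dif_neg h, norm_zero]
    exact zero_le_one

open Classical in
theorem vv_top (ω : Xc D ⊤) {G : Ideal D.O} (hG : G ≠ ⊥) (y : D.O) :
    vv ω G y = if y ∈ G then (ω.f G)⁻¹ else 0 := by
  by_cases hy : y ∈ G
  · rw [if_pos hy]
    have h1 : ∃ B, Vp ⊤ G y B := by
      by_cases hy0 : y = 0
      · obtain ⟨z, hz, hz0⟩ := Submodule.exists_mem_ne_zero_of_ne_bot hG
        obtain ⟨B, hB⟩ := ex_quo hz
        refine ⟨B, z, hz0, ?_, hB⟩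
        rw [hy0, sub_zero, Ideal.mul_top]
        exact hz
      · obtain ⟨B, hB⟩ := ex_quo hy
        refine ⟨B, y, hy0, ?_, hB⟩
        rw [sub_self]
        exact Submodule.zero_mem _
    rw [vv_def, dif_pos h1]
    obtain ⟨w, hw, -, hB⟩ := Classical.choose_spec h1
    have h2 := ω.ray w 1 hw one_ne_zero Submodule.mem_top
    rw [← hB, Ideal.span_singleton_one, xc_top, ω.mul] at h2
    exact eq_inv_of_mul_eq_one_right h2
  · rw [if_neg hy, vv_out ω hy]

end ded

end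

end RNG
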